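import Pool.Agent.Lib_MP_1209e6_fl.D8

set_option autoImplicit false

open Polynomial

namespace Pool.Agent.CYDelta

variable {O : Type} [Field O] [Algebra ℂ O]

/-- a derivation which kills a subfield kills the elements algebraic over it -/
theorem kill_algebraic (k : IntermediateField ℂ O) (δ : Derivation ℂ O O) (hk : ∀ a ∈ k, δ a = 0)
    {u : O} (hu : IsAlgebraic k u) : δ u = 0 := by
  have : CharZero O := charZero_of_injective_algebraMap (algebraMap ℂ O).injective
  have : CharZero k := charZero_of_injective_algebraMap (algebraMap ℂ k).injective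
  let D : Derivation k O O :=
    { toFun := δ
      map_add' := map_add δ
      map_smul' := fun a b => by
        have h0 : δ (algebraMap k O a) = 0 := hk _ a.2
        have h1 : δ (a • b) = algebraMap k O a • δ b := by
          rw [Algebra.smul_def, Derivation.leibniz, h0, smul_zero, add_zero]
        exact h1.trans (Algebra.smul_def a (δ b)).symm
      map_one_eq_zero' := δ.map_one_eq_zero
      leibniz' := δ.leibniz }
  have hint : IsIntegral k u := hu.isIntegral
  have h1 := D.map_aeval (minpoly k u) u
  rw [minpoly.aeval, map_zero] at h1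
  have hsep : (minpoly k u).Separable := (minpoly.irreducible hint).separable
  have h2 : aeval u (derivative (minpoly k u)) ≠ 0 := hsep.aeval_derivative_ne_zero (minpoly.aeval k u)
  rw [smul_eq_mul] at h1
  rcases mul_eq_zero.1 h1.symm with h | h
  · exact absurd h h2
  · exact h

/-- a derivation which kills generators kills the field generated by them -/
theorem kill_adjoin (s : Set O) (δ : Derivation ℂ O O) (hs : ∀ a ∈ s, δ a = 0) :
    ∀ a ∈ IntermediateField.adjoin ℂ s, δ a = 0 := by
  intro a ha
  induction ha using IntermediateField.adjoin_induction with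
  | mem x hx => exact hs x hx
  | algebraMap x => exact δ.map_algebraMap x
  | add x y _ _ hx hy => rw [map_add, hx, hy, add_zero]
  | inv x _ hx => rw [Derivation.leibniz_inv, hx, smul_zero]
  | mul x y _ _ hx hy => rw [Derivation.leibniz, hx, hy, smul_zero, smul_zero, add_zero]

theorem sum_smul_apply {n : ℕ} (a : Fin n → O) (δ : Fin n → Derivation ℂ O O) (z : O) :
    (∑ i, a i • δ i) z = ∑ i, a i * δ i z := by
  have h := map_sum (Derivation.coeFnAddMonoidHom : Derivation ℂ O O →+ (O → O))
    (fun i => a i • δ i) Finset.univ
  have h1 := congrFun h z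
  rw [Finset.sum_apply] at h1
  exact h1

/-- No first integral: `n` derivations with independent values on a transcendence basis have no common
non-constant first integral. -/
theorem const_of_deltas {n : ℕ} (x : Fin n → O)
    (halg : ∀ z : O, IsAlgebraic (IntermediateField.adjoin ℂ (Set.range x)) z)
    (δ : Fin n → Derivation ℂ O O) (hdet : (Matrix.of fun i j => δ i (x j)).det ≠ 0)
    {u : O} (hu : ∀ i, δ i u = 0) : ∃ c : ℂ, u = algebraMap ℂ O c := by
  classical
  have key : ∀ D : Derivation ℂ O O, D u = 0 := by
    intro D
    set M : Matrix (Fin n) (Fin n) O := Matrix.of fun i j => δ i (x j) with hM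
    have hMu : IsUnit M.det := isUnit_iff_ne_zero.2 hdet
    set a : Fin n → O := Matrix.vecMul (fun j => D (x j)) M⁻¹ with ha
    have haM : Matrix.vecMul a M = fun j => D (x j) := by
      rw [ha, Matrix.vecMul_vecMul, Matrix.nonsing_inv_mul _ hMu, Matrix.vecMul_one]
    have h0 : ∀ z : O, (D - ∑ i, a i • δ i) z = 0 := by
      intro z
      refine kill_algebraic (IntermediateField.adjoin ℂ (Set.range x)) _ ?_ (halg z)
      refine kill_adjoin _ _ ?_
      rintro _ ⟨j, rfl⟩
      have h1 := congrFun haM j
      rw [Derivation.sub_apply, sum_smul_apply, sub_eq_zero, ← h1]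
      rfl
    have h2 := h0 u
    rw [Derivation.sub_apply, sum_smul_apply, sub_eq_zero] at h2
    rw [h2]
    exact Finset.sum_eq_zero fun i _ => by rw [hu i, mul_zero]
  have h3 : IsAlgebraic (⊥ : IntermediateField ℂ O) u :=
    Pool.Agent.CampanaFlow.isAlgebraic_of_der ⊥ u fun D _ => key D
  have h5 : IsIntegral ℂ u := by
    have h4 : IsIntegral (⊥ : IntermediateField ℂ O) u := h3.isIntegral
    exact isIntegral_trans u h4
  have h6 : (minpoly ℂ u).degree = 1 :=
    IsAlgClosed.degree_eq_one_of_irreducible ℂ (minpoly.irreducible h5)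
  obtain ⟨c, hc⟩ := (minpoly.mem_range_of_degree_eq_one ℂ u h6)
  exact ⟨c, hc.symm⟩

end Pool.Agent.CYDelta
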