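import Mathlib

/-!
Generic extension of homomorphisms to algebraically closed fields: `A` a domain,
`B` a finitely presented `A`-algebra with `A → B` injective; then there is `s ≠ 0` in `A` such
that every homomorphism `A → Ω`, `Ω` algebraically closed, which does not kill `s`
extends to `B`.
-/

set_option autoImplicit false

namespace Pool.Agent.CalabiYauN

open TensorProduct PrimeSpectrum

/-- Zariski's lemma and lifting to an algebraically closed field. -/
theorem extend_field {k F Ω : Type*} [Field k] [Field F] [Algebra k F] [Algebra.FiniteType k F]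
    [Field Ω] [IsAlgClosed Ω] (φ : k →+* Ω) :
    ∃ g : F →+* Ω, ∀ x, g (algebraMap k F x) = φ x := by
  let _ : Algebra k Ω := φ.toAlgebra
  have _ : Module.Finite k F := finite_of_finite_type_of_isJacobsonRing k F
  let g : F →ₐ[k] Ω := IsAlgClosed.lift
  exact ⟨g.toRingHom, fun x => g.commutes x⟩

/-- Extension over a point of the image of `Spec B`. -/
theorem extend_of_mem_range {A B : Type*} [CommRing A] [CommRing B] [Algebra A B]
    [Algebra.FiniteType A B] {Ω : Type*} [Field Ω] [IsAlgClosed Ω] (φ : A →+* Ω)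
    (h : (⟨RingHom.ker φ, RingHom.ker_isPrime φ⟩ : PrimeSpectrum A) ∈
      Set.range (comap (algebraMap A B))) :
    ∃ ψ : B →+* Ω, ψ.comp (algebraMap A B) = φ := by
  classical
  obtain ⟨p, hpk, h⟩ : ∃ p : PrimeSpectrum A, (∀ x, x ∈ p.asIdeal ↔ φ x = 0) ∧
      p ∈ Set.range (comap (algebraMap A B)) := ⟨_, fun x => Iff.rfl, h⟩
  rw [← nontrivial_iff_mem_rangeComap] at h
  let k := p.asIdeal.ResidueField
  let φk : k →+* Ω := Ideal.ResidueField.lift p.asIdeal φ (fun x hx => (hpk x).mp hx) (by
    intro x hx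
    change IsUnit (φ x)
    exact isUnit_iff_ne_zero.mpr (fun h0 => hx ((hpk x).mpr h0)))
  have hφk : ∀ a : A, φk (algebraMap A k a) = φ a := fun a =>
    Ideal.ResidueField.lift_algebraMap _ _ _ _ _
  obtain ⟨m, hm⟩ := Ideal.exists_maximal (k ⊗[A] B)
  let _ : Field ((k ⊗[A] B) ⧸ m) := Ideal.Quotient.field m
  have _ : Algebra.FiniteType k (k ⊗[A] B) := inferInstance
  have _ : Algebra.FiniteType k ((k ⊗[A] B) ⧸ m) := inferInstance
  obtain ⟨g, hg⟩ := extend_field (F := (k ⊗[A] B) ⧸ m) φk
  refine ⟨(g.comp (Ideal.Quotient.mk m)).comp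
    (Algebra.TensorProduct.includeRight (R := A) (A := k) (B := B)).toRingHom, ?_⟩
  ext a
  have h1 : (Algebra.TensorProduct.includeRight (R := A) (A := k) (B := B)) (algebraMap A B a)
      = algebraMap k (k ⊗[A] B) (algebraMap A k a) := by
    rw [AlgHom.commutes, Algebra.TensorProduct.algebraMap_apply]
    rfl
  have h2 : g (Ideal.Quotient.mk m (algebraMap k (k ⊗[A] B) (algebraMap A k a)))
      = φk (algebraMap A k a) := hg _
  change g (Ideal.Quotient.mk m ((Algebra.TensorProduct.includeRight
    (R := A) (A := k) (B := B)) (algebraMap A B a))) = φ a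
  rw [h1, h2, hφk]

/-- The image of `Spec B` contains a nonempty basic open set. -/
theorem exists_basicOpen_range {A B : Type*} [CommRing A] [IsDomain A] [CommRing B] [Algebra A B]
    [Algebra.FinitePresentation A B] (hinj : Function.Injective (algebraMap A B)) :
    ∃ s : A, s ≠ 0 ∧ ∀ p : PrimeSpectrum A, s ∉ p.asIdeal →
      p ∈ Set.range (comap (algebraMap A B)) := by
  classical
  have hc := isConstructible_range_comap
    (RingHom.finitePresentation_algebraMap.mpr (inferInstance : Algebra.FinitePresentation A B))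
  obtain ⟨S, hS⟩ := exists_constructibleSetData_iff.mpr hc
  have hbot : (⟨⊥, Ideal.isPrime_bot⟩ : PrimeSpectrum A) ∈
      Set.range (comap (algebraMap A B)) := by
    rw [PrimeSpectrum.mem_range_comap_iff]
    have : (⊥ : Ideal A).map (algebraMap A B) = ⊥ := Ideal.map_bot
    change Ideal.comap (algebraMap A B) ((⊥ : Ideal A).map (algebraMap A B)) = ⊥
    rw [this, ← RingHom.ker_eq_comap_bot]
    exact (RingHom.injective_iff_ker_eq_bot _).mp hinj
  rw [← hS] at hbot
  unfold ConstructibleSetData.toSet at hbot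
  rw [Set.mem_iUnion₂] at hbot
  obtain ⟨C, hC, hbC⟩ := hbot
  have hg : ∀ i, C.g i = 0 := by
    intro i
    have := hbC.1
    rw [mem_zeroLocus] at this
    have h2 := this (Set.mem_range_self i)
    exact h2
  have hf : C.f ≠ 0 := by
    intro h0
    apply hbC.2
    rw [mem_zeroLocus]
    intro x hx
    rw [Set.mem_singleton_iff] at hx
    rw [hx, h0]
    exact Ideal.zero_mem _
  refine ⟨C.f, hf, fun p hp => ?_⟩
  rw [← hS]
  unfold ConstructibleSetData.toSet
  rw [Set.mem_iUnion₂]
  refine ⟨C, hC, ?_, ?_⟩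
  · rw [mem_zeroLocus]
    rintro x ⟨i, rfl⟩
    rw [hg i]
    exact Ideal.zero_mem _
  · intro h
    rw [mem_zeroLocus] at h
    exact hp (h (Set.mem_singleton _))

/-- **Generic extension lemma** (Atiyah-Macdonald 5.23 for a finitely presented algebra). -/
theorem extend_hom {A B : Type*} [CommRing A] [IsDomain A] [CommRing B] [Algebra A B]
    [Algebra.FinitePresentation A B] (hinj : Function.Injective (algebraMap A B)) :
    ∃ s : A, s ≠ 0 ∧ ∀ (Ω : Type*) [Field Ω] [IsAlgClosed Ω] (φ : A →+* Ω), φ s ≠ 0 →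
      ∃ ψ : B →+* Ω, ψ.comp (algebraMap A B) = φ := by
  obtain ⟨s, hs, H⟩ := exists_basicOpen_range hinj
  refine ⟨s, hs, fun Ω _ _ φ hφ => extend_of_mem_range φ (H _ ?_)⟩
  exact hφ

end Pool.Agent.CalabiYauN
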