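import Mathlib
import Pool.Agent.Lib_MP_1209e6_cy.Extend

/-!
Square systems of polynomial equations near a nondegenerate solution: generic solvability.
-/

set_option autoImplicit false

open MvPolynomial

namespace Pool.Agent.CalabiYauN

variable {A : Type} [CommRing A] {σ : Type} [Fintype σ] [DecidableEq σ]

/-- the Jacobian determinant of a square system -/
noncomputable def jac (F : σ → MvPolynomial σ A) : MvPolynomial σ A :=
  (Matrix.of fun i j => pderiv j (F i)).det

/-- the system `F = 0`, `E g = 1` with one more unknown `E` -/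
noncomputable def sqRel (F : σ → MvPolynomial σ A) (g : MvPolynomial σ A) :
    σ ⊕ Unit → MvPolynomial (σ ⊕ Unit) A
  | Sum.inl i => rename Sum.inl (F i)
  | Sum.inr _ => X (Sum.inr ()) * rename Sum.inl g - 1

omit [Fintype σ] in
theorem pderiv_inr_rename (p : MvPolynomial σ A) :
    pderiv (Sum.inr () : σ ⊕ Unit) (rename (Sum.inl : σ → σ ⊕ Unit) p) = 0 := by
  refine MvPolynomial.pderiv_eq_zero_of_notMem_vars (fun hmem ↦ ?_)
  apply MvPolynomial.vars_rename at hmem
  simp at hmem

theorem det_sqRel (F : σ → MvPolynomial σ A) (g : MvPolynomial σ A) :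
    (Matrix.of fun i j : σ ⊕ Unit => pderiv i (sqRel F g j)).det
      = rename Sum.inl (jac F) * rename Sum.inl g := by
  have h1 : (Matrix.of fun i j : σ ⊕ Unit => pderiv i (sqRel F g j)) =
      Matrix.fromBlocks
        ((Matrix.of fun i j => rename (Sum.inl : σ → σ ⊕ Unit) (pderiv j (F i))).transpose)
        (Matrix.of fun i (_ : Unit) => pderiv (Sum.inl i) (sqRel F g (Sum.inr ())))
        0 (Matrix.of fun (_ _ : Unit) => rename Sum.inl g) := by
    ext1 i j
    rcases i with i | i <;> rcases j with j | j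
    · simp [sqRel, pderiv_rename Sum.inl_injective]
    · simp
    · simp only [Matrix.of_apply, sqRel, Matrix.fromBlocks_apply₂₁, Matrix.zero_apply]
      exact pderiv_inr_rename _
    · simp only [Matrix.of_apply, sqRel, Matrix.fromBlocks_apply₂₂, map_sub, Derivation.leibniz,
        smul_eq_mul, pderiv_X_self, mul_one, Derivation.map_one_eq_zero, sub_zero]
      rw [show (pderiv (Sum.inr i)) ((rename Sum.inl) g) = 0 from pderiv_inr_rename g, mul_zero,
        zero_add]
  rw [h1, Matrix.det_fromBlocks_zero₂₁, Matrix.det_transpose]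
  congr 1
  · unfold jac
    rw [AlgHom.map_det]
    rfl
  · simp

/-- the algebra of the system -/
abbrev SqAlg (F : σ → MvPolynomial σ A) (g : MvPolynomial σ A) : Type :=
  MvPolynomial (σ ⊕ Unit) A ⧸ Ideal.span (Set.range (sqRel F g))

omit [Fintype σ] [DecidableEq σ] in
theorem sqAlg_mul (F : σ → MvPolynomial σ A) (g : MvPolynomial σ A) :
    (Ideal.Quotient.mk (Ideal.span (Set.range (sqRel F g))) (X (Sum.inr ()))) *
      (Ideal.Quotient.mk (Ideal.span (Set.range (sqRel F g))) (rename Sum.inl g)) = 1 := by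
  rw [← map_mul, ← map_one (Ideal.Quotient.mk (Ideal.span (Set.range (sqRel F g)))),
    Ideal.Quotient.eq]
  exact Ideal.subset_span ⟨Sum.inr (), rfl⟩

theorem sqAlg_isStandardSmooth (F : σ → MvPolynomial σ A) (g : MvPolynomial σ A)
    (hg : jac F ∣ g) : Algebra.IsStandardSmooth A (SqAlg F g) := by
  let P : Algebra.PreSubmersivePresentation A (SqAlg F g) (σ ⊕ Unit) (σ ⊕ Unit) :=
    Algebra.PreSubmersivePresentation.naive (v := sqRel F g) id Function.injective_id
  have hP : IsUnit P.jacobian := by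
    rw [Algebra.PreSubmersivePresentation.jacobian_eq_jacobiMatrix_det]
    have h2 : P.jacobiMatrix = Matrix.of fun i j : σ ⊕ Unit => pderiv i (sqRel F g j) := by
      ext1 i j
      exact Algebra.PreSubmersivePresentation.jacobiMatrix_apply P i j
    rw [h2, det_sqRel, map_mul]
    have hmk : ∀ p : MvPolynomial (σ ⊕ Unit) A, algebraMap P.Ring (SqAlg F g) p =
        Ideal.Quotient.mk (Ideal.span (Set.range (sqRel F g))) p := by
      intro p
      have h3 : (aeval P.val : MvPolynomial (σ ⊕ Unit) A →ₐ[A] SqAlg F g) =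
          Ideal.Quotient.mkₐ A (Ideal.span (Set.range (sqRel F g))) := by
        refine MvPolynomial.algHom_ext (fun i => ?_)
        rw [aeval_X]
        rfl
      exact (P.toGenerators.algebraMap_apply p).trans (DFunLike.congr_fun h3 p)
    have hu : IsUnit (algebraMap P.Ring (SqAlg F g) (rename Sum.inl g)) := by
      rw [hmk]
      exact IsUnit.of_mul_eq_one_right _ (sqAlg_mul F g)
    refine IsUnit.mul ?_ hu
    refine isUnit_of_dvd_unit ?_ hu
    exact map_dvd _ (map_dvd _ hg)
  let Q : Algebra.SubmersivePresentation A (SqAlg F g) (σ ⊕ Unit) (σ ⊕ Unit) :=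
    { P with jacobian_isUnit := hP }
  exact Q.isStandardSmooth

/-- **Generic solvability.** A square system over `A` with a solution over a field `K` at which the Jacobian
determinant and `h` do not vanish has such a solution in every algebraically closed field, for
all specialisations of `A` outside of `S = 0`. -/
theorem generic_solution {K : Type} [Field K] (F : σ → MvPolynomial σ A)
    (h : MvPolynomial σ A) (ψ : A →+* K) (y₀ : σ → K)
    (h0 : ∀ i, eval₂ ψ y₀ (F i) = 0) (hJ : eval₂ ψ y₀ (jac F) ≠ 0) (hh : eval₂ ψ y₀ h ≠ 0) :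
    ∃ S : A, ψ S ≠ 0 ∧ ∀ (Ω : Type) [Field Ω] [IsAlgClosed Ω] (φ : A →+* Ω), φ S ≠ 0 →
      ∃ y : σ → Ω, (∀ i, eval₂ φ y (F i) = 0) ∧ eval₂ φ y (jac F) ≠ 0 ∧ eval₂ φ y h ≠ 0 := by
  classical
  set g : MvPolynomial σ A := jac F * h with hgdef
  have hss : Algebra.IsStandardSmooth A (SqAlg F g) := sqAlg_isStandardSmooth F g ⟨h, rfl⟩
  have hfl : Module.Flat A (SqAlg F g) := inferInstance
  have hopen := (PrimeSpectrum.isOpenMap_comap_of_hasGoingDown_of_finitePresentation
    (R := A) (S := SqAlg F g)).isOpen_range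
  have hg0 : eval₂ ψ y₀ g ≠ 0 := by
    rw [hgdef, eval₂_mul]
    exact mul_ne_zero hJ hh
  -- the point
  let e : MvPolynomial (σ ⊕ Unit) A →+* K :=
    eval₂Hom ψ (Sum.elim y₀ (fun _ => (eval₂ ψ y₀ g)⁻¹))
  have he : ∀ p : MvPolynomial σ A, e (rename Sum.inl p) = eval₂ ψ y₀ p := by
    intro p
    simp only [e, coe_eval₂Hom, eval₂_rename, Sum.elim_comp_inl]
  let I : Ideal (MvPolynomial (σ ⊕ Unit) A) := Ideal.span (Set.range (sqRel F g))
  have hI : ∀ p ∈ I, e p = 0 := by
    intro p hp
    have h1 : I ≤ RingHom.ker e := by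
      refine Ideal.span_le.mpr ?_
      rintro _ ⟨i | i, rfl⟩
      · change e (rename Sum.inl (F i)) = 0
        rw [he, h0]
      · change e (X (Sum.inr ()) * rename Sum.inl g - 1) = 0
        rw [map_sub, map_mul, he, map_one]
        simp only [e, coe_eval₂Hom, eval₂_X, Sum.elim_inr]
        rw [inv_mul_cancel₀ hg0, sub_self]
    exact h1 hp
  let eb : SqAlg F g →+* K := Ideal.Quotient.lift I e hI
  have heb : ∀ a : A, eb (algebraMap A (SqAlg F g) a) = ψ a := by
    intro a
    change e (C a) = ψ a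
    simp only [e, coe_eval₂Hom, eval₂_C]
  let p₀ : PrimeSpectrum A := ⟨RingHom.ker ψ, RingHom.ker_isPrime ψ⟩
  have hp₀ : p₀ ∈ Set.range (PrimeSpectrum.comap (algebraMap A (SqAlg F g))) := by
    refine ⟨⟨RingHom.ker eb, RingHom.ker_isPrime eb⟩, ?_⟩
    ext a
    change eb (algebraMap A (SqAlg F g) a) = 0 ↔ ψ a = 0
    rw [heb]
  obtain ⟨_, ⟨_, ⟨S, rfl⟩, rfl⟩, hS1, hS2⟩ := PrimeSpectrum.isBasis_basic_opens.exists_subset_of_mem_open
    hp₀ hopen
  refine ⟨S, hS1, ?_⟩
  intro Ω _ _ φ hφ
  obtain ⟨χ, hχ⟩ := extend_of_mem_range (B := SqAlg F g) φ (hS2 (by exact hφ))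
  have hχ' : ∀ p : MvPolynomial σ A, χ (Ideal.Quotient.mk I (rename Sum.inl p)) =
      eval₂ φ (fun i => χ (Ideal.Quotient.mk I (X (Sum.inl i)))) p := by
    intro p
    have h1 : (χ.comp (Ideal.Quotient.mk I)).comp
        (rename (Sum.inl : σ → σ ⊕ Unit) : MvPolynomial σ A →ₐ[A] _).toRingHom =
        eval₂Hom φ (fun i => χ (Ideal.Quotient.mk I (X (Sum.inl i)))) := by
      refine MvPolynomial.ringHom_ext (fun a => ?_) (fun i => ?_)
      · change χ (Ideal.Quotient.mk I (rename Sum.inl (C a))) = _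
        rw [rename_C]
        simp only [coe_eval₂Hom, eval₂_C]
        exact DFunLike.congr_fun hχ a
      · change χ (Ideal.Quotient.mk I (rename Sum.inl (X i))) = _
        rw [rename_X]
        simp only [coe_eval₂Hom, eval₂_X]
    exact DFunLike.congr_fun h1 p
  have hgy : eval₂ φ (fun i => χ (Ideal.Quotient.mk I (X (Sum.inl i)))) g ≠ 0 := by
    intro h1
    have h2 := congrArg χ (sqAlg_mul F g)
    rw [map_mul, map_one] at h2
    rw [show χ (Ideal.Quotient.mk (Ideal.span (Set.range (sqRel F g))) (rename Sum.inl g)) = 0 from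
      (hχ' g).trans h1, mul_zero] at h2
    exact zero_ne_one h2
  refine ⟨fun i => χ (Ideal.Quotient.mk I (X (Sum.inl i))), fun i => ?_, ?_, ?_⟩
  · rw [← hχ' (F i)]
    have h1 : Ideal.Quotient.mk I (rename Sum.inl (F i)) = 0 := by
      rw [Ideal.Quotient.eq_zero_iff_mem]
      exact Ideal.subset_span ⟨Sum.inl i, rfl⟩
    rw [h1, map_zero]
  · intro h1
    apply hgy
    refine (eval₂_mul (p := jac F) (q := h) φ _).trans ?_
    rw [h1, zero_mul]
  · intro h1
    apply hgy
    refine (eval₂_mul (p := jac F) (q := h) φ _).trans ?_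
    rw [h1, mul_zero]

end Pool.Agent.CalabiYauN
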