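import Mathlib
import Pool.Agent.Lib_MP_1209e6_cy.Square

/-!
Families of square systems of polynomial equations near a nondegenerate solution.
-/

set_option autoImplicit false

open MvPolynomial

namespace Pool.Agent.CalabiYauN

variable {A : Type} [CommRing A] {σ ι : Type} [Fintype σ] [DecidableEq σ] [Fintype ι] [DecidableEq ι]

/-- all systems together; the unknown `s` of the system `i` is `(s, i)` -/
noncomputable def famSys (F : ι → σ → MvPolynomial σ A) : σ × ι → MvPolynomial (σ × ι) A :=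
  fun p => rename (fun t => (t, p.2)) (F p.2 p.1)

theorem pderiv_rename_ne {σ ι : Type} {i j : ι} (h : j ≠ i) (t : σ) (p : MvPolynomial σ A) :
    pderiv (t, j) (rename (fun s => (s, i)) p) = 0 := by
  classical
  refine MvPolynomial.pderiv_eq_zero_of_notMem_vars (fun hmem ↦ ?_)
  apply MvPolynomial.vars_rename at hmem
  rw [Finset.mem_image] at hmem
  obtain ⟨s, -, hs⟩ := hmem
  exact h (congrArg Prod.snd hs).symm

theorem jac_famSys (F : ι → σ → MvPolynomial σ A) :
    jac (famSys F) = ∏ i, rename (fun s => (s, i)) (jac (F i)) := by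
  have h1 : (Matrix.of fun i j => pderiv j (famSys F i)) =
      Matrix.blockDiagonal (fun k : ι => Matrix.of fun s t =>
        rename (fun u => ((u, k) : σ × ι)) (pderiv t (F k s))) := by
    ext1 ⟨s, i⟩ ⟨t, j⟩
    rw [Matrix.blockDiagonal_apply]
    simp only [Matrix.of_apply, famSys]
    split_ifs with h
    · subst h
      exact pderiv_rename (fun a b hab => congrArg Prod.fst hab) _ _
    · exact pderiv_rename_ne (fun h' => h h'.symm) _ _
  unfold jac
  rw [h1, Matrix.det_blockDiagonal]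
  refine Finset.prod_congr rfl (fun i _ => ?_)
  rw [AlgHom.map_det]
  rfl

/-- **Generic solvability for a family of square systems.** -/
theorem generic_solution_family {K : Type} [Field K] (F : ι → σ → MvPolynomial σ A)
    (h : MvPolynomial (σ × ι) A) (ψ : A →+* K) (y₀ : ι → σ → K)
    (h0 : ∀ i s, eval₂ ψ (y₀ i) (F i s) = 0) (hJ : ∀ i, eval₂ ψ (y₀ i) (jac (F i)) ≠ 0)
    (hh : eval₂ ψ (fun p : σ × ι => y₀ p.2 p.1) h ≠ 0) :
    ∃ S : A, ψ S ≠ 0 ∧ ∀ (Ω : Type) [Field Ω] [IsAlgClosed Ω] (φ : A →+* Ω), φ S ≠ 0 →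
      ∃ y : ι → σ → Ω, (∀ i s, eval₂ φ (y i) (F i s) = 0) ∧
        (∀ i, eval₂ φ (y i) (jac (F i)) ≠ 0) ∧ eval₂ φ (fun p : σ × ι => y p.2 p.1) h ≠ 0 := by
  obtain ⟨S, hS, H⟩ := generic_solution (famSys F) h ψ (fun p : σ × ι => y₀ p.2 p.1)
    (fun p => by
      simp only [famSys, eval₂_rename]
      exact h0 p.2 p.1)
    (by
      rw [jac_famSys, ← coe_eval₂Hom, map_prod, Finset.prod_ne_zero_iff]
      intro i _
      rw [coe_eval₂Hom, eval₂_rename]
      exact hJ i)
    hh
  refine ⟨S, hS, ?_⟩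
  intro Ω _ _ φ hφ
  obtain ⟨y, hy1, hy2, hy3⟩ := H Ω φ hφ
  refine ⟨fun i s => y (s, i), ?_, ?_, hy3⟩
  · intro i s
    have := hy1 (s, i)
    simp only [famSys, eval₂_rename] at this
    exact this
  · intro i
    rw [jac_famSys, ← coe_eval₂Hom, map_prod, Finset.prod_ne_zero_iff] at hy2
    have := hy2 i (Finset.mem_univ i)
    rw [coe_eval₂Hom, eval₂_rename] at this
    exact this

end Pool.Agent.CalabiYauN
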