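import Mathlib
import Pool.Agent.Lib_MP_1209e6_cy.SquareFam

/-!
The Jacobian criterion with dual numbers.
-/

set_option autoImplicit false

open MvPolynomial

namespace Pool.Agent.CalabiYauN

variable {A : Type} [CommRing A] {σ : Type} [Fintype σ] [DecidableEq σ]

omit [DecidableEq σ] in
/-- first order Taylor formula with dual numbers -/
theorem eval₂_dual {Ω : Type} [CommRing Ω] (φ : A →+* Ω) (y z : σ → Ω) (p : MvPolynomial σ A) :
    eval₂ ((algebraMap Ω (DualNumber Ω)).comp φ)
      (fun s => algebraMap Ω (DualNumber Ω) (y s) + z s • (DualNumber.eps : DualNumber Ω)) p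
      = algebraMap Ω (DualNumber Ω) (eval₂ φ y p)
        + (∑ s, eval₂ φ y (pderiv s p) * z s) • (DualNumber.eps : DualNumber Ω) := by
  classical
  induction p using MvPolynomial.induction_on with
  | C a => simp
  | add p q hp hq =>
    simp only [eval₂_add, hp, hq, map_add, add_mul, Finset.sum_add_distrib, add_smul]
    ring
  | mul_X p i hp =>
    have h1 : ∀ s, eval₂ φ y (pderiv s (p * X i)) * z s =
        eval₂ φ y (pderiv s p) * z s * y i + (if s = i then eval₂ φ y p * z i else 0) := by
      intro s
      rw [Derivation.leibniz, eval₂_add, smul_eq_mul, smul_eq_mul, eval₂_mul, eval₂_mul, eval₂_X]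
      by_cases hs : s = i
      · subst hs
        rw [pderiv_X_self, eval₂_one, if_pos rfl]
        ring
      · rw [pderiv_X_of_ne (fun h => hs h.symm), eval₂_zero, if_neg hs]
        ring
    simp only [h1, Finset.sum_add_distrib, Finset.sum_ite_eq', Finset.mem_univ, if_true,
      ← Finset.sum_mul]
    rw [eval₂_mul, eval₂_mul, hp, eval₂_X, eval₂_X, map_mul, add_mul, mul_add, mul_add]
    generalize (∑ s, eval₂ φ y (pderiv s p) * z s) = c
    have he : (DualNumber.eps : DualNumber Ω) * DualNumber.eps = 0 := DualNumber.eps_mul_eps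
    simp only [Algebra.smul_def, map_add, map_mul]
    linear_combination (algebraMap Ω (DualNumber Ω) c * algebraMap Ω (DualNumber Ω) (z i)) * he

/-- the Jacobian determinant does not vanish at a solution iff there are no nonzero infinitesimal solutions -/
theorem jac_ne_zero_iff {Ω : Type} [Field Ω] (F : σ → MvPolynomial σ A) (φ : A →+* Ω) (y : σ → Ω)
    (hy : ∀ i, eval₂ φ y (F i) = 0) :
    eval₂ φ y (jac F) ≠ 0 ↔ ∀ z : σ → Ω,
      (∀ i, eval₂ ((algebraMap Ω (DualNumber Ω)).comp φ)
        (fun s => algebraMap Ω (DualNumber Ω) (y s) + z s • (DualNumber.eps : DualNumber Ω)) (F i)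
          = 0) → z = 0 := by
  have h1 : eval₂ φ y (jac F) = (Matrix.of fun i j => eval₂ φ y (pderiv j (F i))).det := by
    unfold jac
    rw [← coe_eval₂Hom, RingHom.map_det]
    rfl
  have h2 : ∀ (z : σ → Ω) (i : σ), eval₂ ((algebraMap Ω (DualNumber Ω)).comp φ)
        (fun s => algebraMap Ω (DualNumber Ω) (y s) + z s • (DualNumber.eps : DualNumber Ω)) (F i)
          = 0 ↔ (Matrix.of fun i j => eval₂ φ y (pderiv j (F i))).mulVec z i = 0 := by
    intro z i
    rw [eval₂_dual, hy, map_zero, zero_add]
    have h3 : (Matrix.of fun i j => eval₂ φ y (pderiv j (F i))).mulVec z i =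
        ∑ s, eval₂ φ y (pderiv s (F i)) * z s := rfl
    rw [h3]
    constructor
    · intro h
      have := congrArg TrivSqZeroExt.snd h
      simpa using this
    · intro h
      rw [h, zero_smul]
  rw [h1, ← not_iff_not, not_not, ← Matrix.exists_mulVec_eq_zero_iff]
  push Not
  constructor
  · rintro ⟨v, hv, hv2⟩
    exact ⟨v, fun i => (h2 v i).mpr (congrFun hv2 i), hv⟩
  · rintro ⟨v, hv, hv2⟩
    exact ⟨v, hv2, funext fun i => (h2 v i).mp (hv i)⟩

end Pool.Agent.CalabiYauN
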