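import Pool.Agent.Lib_MP_1209e6_cy.Ident

/-!
PIECE [PT] (MP_1209e6_ag).  Points of the fibres over an algebraically closed field.
-/

open Matrix

namespace Pool.Agent.MP_1209e6_cy

/-- non-proportional vectors -/
def Indep {N : ℕ} {K : Type*} [CommRing K] (x x' : Fin N → K) : Prop :=
  ∃ i j, x i * x' j ≠ x j * x' i

namespace Dat

variable {m : ℕ} {K : Type*} [Field K] [IsAlgClosed K] [CharZero K]

/-- Every `y` has a point over it: the kernel of the `m` linear forms `row y i` in `m + 2`
variables contains two independent vectors `a, b`, and the binary quadratic form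
`(s, t) ↦ B(s a + t b, s a + t b, y, y)` has a nontrivial zero. -/
theorem Symm.exists_In {D : Dat m K} (hD : D.Symm) (y : Vec m K) : ∃ x : Vec m K, x ≠ 0 ∧ D.In x y := by
  classical
  -- the kernel of the linear forms
  let L : Vec m K →ₗ[K] (Fin m → K) :=
    { toFun := fun x i => D.A i x y
      map_add' := fun x x' => by
        funext i
        exact D.A_add_left i x x' y
      map_smul' := fun c x => by
        funext i
        exact D.A_smul_left i x y c }
  have hker : 1 < Module.finrank K (LinearMap.ker L) := by
    have h1 := LinearMap.finrank_range_add_finrank_ker L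
    have h2 : Module.finrank K (LinearMap.range L) ≤ m := by
      have h3 := Submodule.finrank_le (LinearMap.range L)
      simpa using h3
    have h4 : Module.finrank K (Vec m K) = m + 2 := by simp [Vec]
    omega
  have hnt : Nontrivial (LinearMap.ker L) := Module.nontrivial_of_finrank_pos (R := K) (by omega)
  obtain ⟨a, ha⟩ := exists_ne (0 : LinearMap.ker L)
  obtain ⟨b, hab⟩ := exists_linearIndependent_pair_of_one_lt_finrank hker ha
  have hA : ∀ z : LinearMap.ker L, ∀ i, D.A i (z : Vec m K) y = 0 := fun z i =>
    congrFun (LinearMap.mem_ker.1 z.2) i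
  have hb : b ≠ 0 := by
    intro h
    exact hab.ne_zero 1 (by simpa using h)
  by_cases hγ : D.B (b : Vec m K) b y y = 0
  · exact ⟨b, fun h => hb (Subtype.ext h), hA b, hγ⟩
  · obtain ⟨δ, hδ⟩ := IsAlgClosed.exists_pow_nat_eq (D.B (a : Vec m K) b y y ^ 2 -
      D.B (a : Vec m K) a y y * D.B (b : Vec m K) b y y) (n := 2) (by norm_num)
    set t : K := (-D.B (a : Vec m K) b y y + δ) / D.B (b : Vec m K) b y y with ht
    refine ⟨((a + t • b : LinearMap.ker L) : Vec m K), ?_, hA _, ?_⟩
    · intro h
      have h1 : a + t • b = 0 := Subtype.ext h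
      have h2 := (LinearIndependent.pair_iff.1 hab) 1 t (by rw [one_smul]; exact h1)
      exact one_ne_zero h2.1
    · have h3 : ((a + t • b : LinearMap.ker L) : Vec m K) = (a : Vec m K) + t • (b : Vec m K) := rfl
      rw [h3, D.B_add₁, hD.B_add₂, hD.B_add₂, D.B_smul₁, D.B_smul₁, hD.B_smul₂, hD.B_smul₂,
        hD.B_comm (b : Vec m K) a]
      have h4 : D.B (b : Vec m K) b y y * t = -D.B (a : Vec m K) b y y + δ := by
        rw [ht]
        field_simp
      have h5 : D.B (b : Vec m K) b y y * (D.B (a : Vec m K) a y y +
          t * D.B (a : Vec m K) b y y + (t * D.B (a : Vec m K) b y y +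
          t * (t * D.B (b : Vec m K) b y y))) = 0 := by
        linear_combination (2 * D.B (a : Vec m K) b y y + (D.B (b : Vec m K) b y y * t +
          (-D.B (a : Vec m K) b y y + δ))) * h4 + hδ
      exact (mul_eq_zero.1 h5).resolve_left hγ

end Dat

end Pool.Agent.MP_1209e6_cy
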