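import Pool.Agent.Lib_MP_1209e6_cy.EPoly
import Pool.Agent.Lib_MP_1209e6_cy.Points

/-!
PIECE [ARC] (MP_1209e6_ag).  Lifting a line in the `y`-space to an arc in `X`.
-/

open Matrix

namespace Pool.Agent.MP_1209e6_cy

variable {m : ℕ} {K : Type*} [Field K] [CharZero K]

theorem arc_root {K : Type*} [Field K] (e : PowerSeries K)
    (he : PowerSeries.constantCoeff e = 0) :
    ∃ ρ : PowerSeries K, ρ ^ 2 - ρ + e = 0 ∧ PowerSeries.constantCoeff ρ = 1 := by
  classical
  have hm : (Polynomial.X ^ 2 + (-Polynomial.X + Polynomial.C e) :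
      Polynomial (PowerSeries K)).Monic := by
    refine Polynomial.monic_X_pow_add ?_
    refine lt_of_le_of_lt (Polynomial.degree_add_le _ _) ?_
    refine max_lt ?_ ?_
    · rw [Polynomial.degree_neg, Polynomial.degree_X]
      norm_num
    · exact lt_of_le_of_lt Polynomial.degree_C_le (by norm_num)
  have hI : ∀ z : PowerSeries K, z ∈ (Ideal.span {PowerSeries.X} : Ideal (PowerSeries K)) ↔
      PowerSeries.constantCoeff z = 0 := by
    intro z
    rw [Ideal.mem_span_singleton, PowerSeries.X_dvd_iff]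
  obtain ⟨ρ, hρ, hρ1⟩ := HenselianRing.is_henselian (R := PowerSeries K)
    (I := Ideal.span {PowerSeries.X}) _ hm 1
    (by
      rw [hI]
      simp [he])
    (by
      have h1 : Polynomial.eval 1 (Polynomial.derivative
          (Polynomial.X ^ 2 + (-Polynomial.X + Polynomial.C e) :
          Polynomial (PowerSeries K))) = 1 := by
        simp only [Polynomial.derivative_add, Polynomial.derivative_X_pow,
          Polynomial.derivative_neg, Polynomial.derivative_X, Polynomial.derivative_C]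
        simp
        norm_num
      rw [h1]
      simp)
  refine ⟨ρ, ?_, ?_⟩
  · have := hρ
    rw [Polynomial.IsRoot.def] at this
    simp only [Polynomial.eval_add, Polynomial.eval_neg, Polynomial.eval_pow,
      Polynomial.eval_X, Polynomial.eval_C] at this
    linear_combination this
  · rw [hI, map_sub, map_one, sub_eq_zero] at hρ1
    exact hρ1

theorem arc_dual {m : ℕ} {K : Type*} [Field K] {x x' : Vec m K} (h : Indep x x') :
    ∃ w₁ w₂ : Vec m K, w₁ ⬝ᵥ x = 1 ∧ w₁ ⬝ᵥ x' = 0 ∧ w₂ ⬝ᵥ x = 0 ∧ w₂ ⬝ᵥ x' = 1 := by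
  obtain ⟨i, j, hij⟩ := h
  have hne : x i * x' j - x j * x' i ≠ 0 := sub_ne_zero.2 hij
  refine ⟨(x i * x' j - x j * x' i)⁻¹ • (x' j • Pi.single i 1 - x' i • Pi.single j 1),
    (x i * x' j - x j * x' i)⁻¹ • (x i • Pi.single j 1 - x j • Pi.single i 1), ?_, ?_, ?_, ?_⟩ <;>
  · simp only [smul_dotProduct, sub_dotProduct, single_one_dotProduct, smul_eq_mul]
    field_simp
    try ring

theorem arc_pv {m : ℕ} {K : Type*} [Field K] {r : Fin m → Vec m K} {x x' w₁ w₂ : Vec m K}
    (hx : ∀ i, r i ⬝ᵥ x = 0) (hx' : ∀ i, r i ⬝ᵥ x' = 0)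
    (h1 : w₁ ⬝ᵥ x = 1) (h2 : w₁ ⬝ᵥ x' = 0) (h3 : w₂ ⬝ᵥ x = 0) (h4 : w₂ ⬝ᵥ x' = 1) :
    pv r w₁ = plu r w₁ w₂ • x' ∧ pv r w₂ = (-plu r w₁ w₂) • x := by
  constructor
  · funext j
    have := plu_cramer r (Pi.single j 1) x' w₁ w₂ hx'
    rw [h2, h4, single_one_dotProduct] at this
    rw [Pi.smul_apply, smul_eq_mul, this]
    unfold pv
    ring
  · funext j
    have := plu_cramer r (Pi.single j 1) x w₁ w₂ hx
    rw [h1, h3, single_one_dotProduct, plu_antisymm r (Pi.single j 1) w₂] at this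
    rw [Pi.smul_apply, smul_eq_mul, neg_mul, this]
    unfold pv
    ring

/-- Let `x, x'` be the two distinct points over `y`.  The line `Y(t) = y + t η` lifts to an arc
`X(t)` of points over `Y(t)` with `X(0)` proportional to `x`.

Proof.  By `plu_single` (or `plu_cramer`) for `x` and `x'`: `π_ij = plu (row y) e_i e_j` satisfies
`π_ij = c (x_i x'_j - x_j x'_i)` with `c ≠ 0`: `π ≠ 0` because `E(y) ≠ 0`, and
`pv (row y) w = c ((w·x) x' - (w·x') x)` up to sign (choose `w₀` with `w₀·x = 1, w₀·x' = 0`: then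
`π_ij = x_i u_j - x_j u_i` with `u = pv (row y) w₀`, `A_i(u, y) = 0`, and pairing with a `w` with
`w·x' = 1, w·x=0` shows that `u` is a multiple of `x'` plus a multiple of `x`; `w₀·u = 0`).
Choose `w₁` with `w₁·x = 1, w₁·x' = 0` and `w₂` with `w₂·x = 0, w₂·x' = 1` and put
`U(t) = pv (row Y(t)) w₁`, `V(t) = pv (row Y(t)) w₂` in `K⟦t⟧`; so `A_i(U, Y) = A_i(V, Y) = 0`,
`U(0) = c x'`, `V(0) = ∓ c x` (nonzero multiples).  Let `a = B(V, V, Y, Y)`, `b = B(V, U, Y, Y)`,
`d = B(U, U, Y, Y)`: the constant terms of `a` and `d` vanish (`x, x'` are points over `y`: `x'` is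
one since `2 (w·x)^2 E(y) = x ⊗ S + S ⊗ x` forces `S w x y` to be proportional to `x'`, or directly
by hypothesis `hx'`), the constant term of `b` does not (else `E(y) = 0`, by `E_eq`).  By Hensel's
lemma (`IsAdicComplete` instance of `PowerSeries`, `HenselianRing`) the monic polynomial
`ρ^2 - ρ + a d / (4 b^2)` has a root `ρ ≡ 1 mod t`, a unit.  Put `s = - a / (2 b ρ)`; then
`a + 2 b s + d s^2 = (a / ρ^2) (ρ^2 - ρ + a d / (4 b^2)) = 0`, so `X = V + s U` works. -/
theorem exists_arc {D : Dat m K} (hD : D.Symm) {x x' y : Vec m K} (hx : D.In x y)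
    (hx' : D.In x' y) {α : K} (hα : α ≠ 0)
    (hE : ∀ i j, D.E y i j = α * (x i * x' j + x j * x' i)) (hind : Indep x x') (η : Vec m K) :
    ∃ X : Vec m (PowerSeries K),
      (D.map (PowerSeries.C : K →+* PowerSeries K)).In X
        (fun j => PowerSeries.C (y j) + PowerSeries.C (η j) * PowerSeries.X) ∧
      ∃ c : K, c ≠ 0 ∧ ∀ j, PowerSeries.constantCoeff (X j) = c * x j := by
  classical
  obtain ⟨w₁, w₂, h11, h12, h21, h22⟩ := arc_dual hind
  have hr : ∀ i, D.row y i ⬝ᵥ x = 0 := fun i => by rw [← Dat.A_eq_dot]; exact hx.1 i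
  have hr' : ∀ i, D.row y i ⬝ᵥ x' = 0 := fun i => by rw [← Dat.A_eq_dot]; exact hx'.1 i
  obtain ⟨hU0, hV0⟩ := arc_pv hr hr' h11 h12 h21 h22
  set c : K := plu (D.row y) w₁ w₂ with hc
  -- the value of `E`
  have hEc : ∀ i j, D.E y i j = -(c ^ 2 * D.B x x' y y) * (x i * x' j + x j * x' i) := by
    intro i j
    have := hD.E_eq w₁ x y hx.1 i j
    rw [h11, hU0, Dat.B_smul₁, hD.B_smul₂, hD.B_smul₂, hx.2, hx'.2] at this
    simp only [Pi.smul_apply, smul_eq_mul] at this
    linear_combination this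
  have hcb : c ^ 2 * D.B x x' y y ≠ 0 := by
    intro h0
    have hz : ∀ i j, x i * x' j + x j * x' i = 0 := by
      intro i j
      have h1 := hEc i j
      rw [h0, neg_zero, zero_mul, hE] at h1
      exact (mul_eq_zero.1 h1).resolve_left hα
    obtain ⟨i, j, hij⟩ := hind
    have hii : x i * x' i = 0 := by
      have := hz i i
      have h2 : (2 : K) * (x i * x' i) = 0 := by linear_combination this
      exact (mul_eq_zero.1 h2).resolve_left two_ne_zero
    have hjj : x j * x' j = 0 := by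
      have := hz j j
      have h2 : (2 : K) * (x j * x' j) = 0 := by linear_combination this
      exact (mul_eq_zero.1 h2).resolve_left two_ne_zero
    have hprod : (x i * x' j) * (x j * x' i) = 0 := by
      linear_combination (x j * x' j) * hii
    have hs := hz i j
    rcases mul_eq_zero.1 hprod with h | h
    · rw [h, zero_add] at hs
      exact hij (by rw [h, hs])
    · rw [h, add_zero] at hs
      exact hij (by rw [h, hs])
  have hc0 : c ≠ 0 := by
    intro h
    exact hcb (by rw [h]; ring)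
  have hB0 : D.B x x' y y ≠ 0 := right_ne_zero_of_mul hcb
  -- the power series
  set φ : PowerSeries K →+* K := PowerSeries.constantCoeff with hφ
  set D' : Dat m (PowerSeries K) := D.map (PowerSeries.C : K →+* PowerSeries K) with hD'
  set Y : Vec m (PowerSeries K) := fun j => PowerSeries.C (y j) + PowerSeries.C (η j) * PowerSeries.X
    with hY
  have hD'S : D'.Symm := hD.map _
  have hDφ : D'.map φ = D := by
    rw [hD', hφ]
    unfold Dat.map
    simp
  have hφY : (fun j => φ (Y j)) = y := by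
    funext j
    rw [hφ, hY]
    simp
  have hrow : (fun i j => φ (D'.row Y i j)) = D.row y := by
    funext i
    have := Dat.map_row D' φ Y i
    rw [hDφ, hφY] at this
    exact this.symm
  set U : Vec m (PowerSeries K) := pv (D'.row Y) (fun j => PowerSeries.C (w₁ j)) with hU
  set V : Vec m (PowerSeries K) := pv (D'.row Y) (fun j => PowerSeries.C (w₂ j)) with hV
  have hφw : ∀ w : Vec m K, (fun j => φ (PowerSeries.C (w j))) = w := by
    intro w
    funext j
    rw [hφ]
    simp
  have hφU : (fun j => φ (U j)) = c • x' := by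
    have := Dat.map_pv (D'.row Y) φ (fun j => PowerSeries.C (w₁ j))
    rw [hrow, hφw] at this
    rw [← hU0, this]
  have hφV : (fun j => φ (V j)) = (-c) • x := by
    have := Dat.map_pv (D'.row Y) φ (fun j => PowerSeries.C (w₂ j))
    rw [hrow, hφw] at this
    rw [← hV0, this]
  set a : PowerSeries K := D'.B V V Y Y with ha
  set b : PowerSeries K := D'.B V U Y Y with hb
  set d : PowerSeries K := D'.B U U Y Y with hd
  have hφa : φ a = 0 := by
    have := Dat.map_B D' φ V V Y Y
    rw [hDφ, hφY, hφV] at this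
    rw [ha, ← this, Dat.B_smul₁, hD.B_smul₂, hx.2]
    ring
  have hφb : φ b ≠ 0 := by
    have := Dat.map_B D' φ V U Y Y
    rw [hDφ, hφY, hφV, hφU] at this
    rw [hb, ← this, Dat.B_smul₁, hD.B_smul₂]
    exact mul_ne_zero (neg_ne_zero.2 hc0) (mul_ne_zero hc0 hB0)
  have h2 : (2 : PowerSeries K) * PowerSeries.C (1 / 2 : K) = 1 := by
    have : (2 : PowerSeries K) = PowerSeries.C (2 : K) :=
      (map_ofNat (PowerSeries.C : K →+* PowerSeries K) 2).symm
    rw [this, ← map_mul, mul_one_div_cancel (two_ne_zero' K), map_one]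
  set h : PowerSeries K := PowerSeries.C (1 / 2 : K) with hh
  have hbβ : b * b⁻¹ = 1 := PowerSeries.mul_inv_cancel b hφb
  set β : PowerSeries K := b⁻¹ with hβ
  have hφe : PowerSeries.constantCoeff (h ^ 2 * a * d * β ^ 2) = 0 := by
    have h5 : PowerSeries.constantCoeff a = 0 := hφa
    simp only [map_mul, h5, mul_zero, zero_mul]
  obtain ⟨ρ, hρ, hρ1⟩ := arc_root (h ^ 2 * a * d * β ^ 2) hφe
  have hργ : ρ * ρ⁻¹ = 1 := PowerSeries.mul_inv_cancel ρ (by rw [hρ1]; exact one_ne_zero)
  set γ : PowerSeries K := ρ⁻¹ with hγ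
  have hroot : a + 2 * b * (-(h * a * β * γ)) + d * (-(h * a * β * γ)) ^ 2 = 0 := by
    linear_combination a * γ ^ 2 * hρ - a * (ρ * γ + 1) * hργ + a * γ * hργ
      - 2 * h * a * γ * hbβ - a * γ * h2
  set s : PowerSeries K := -(h * a * β * γ) with hs
  have hφs : φ s = 0 := by
    rw [hs, map_neg, map_mul, map_mul, map_mul, hφa]
    ring
  refine ⟨V + s • U, ⟨fun i => ?_, ?_⟩, -c, neg_ne_zero.2 hc0, fun j => ?_⟩
  · rw [Dat.A_add_left, Dat.A_smul_left, hU, hV, Dat.A_pv, Dat.A_pv]
    ring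
  · rw [Dat.B_add₁, hD'S.B_add₂, hD'S.B_add₂, Dat.B_smul₁, Dat.B_smul₁, hD'S.B_smul₂,
      hD'S.B_smul₂, hD'S.B_comm U V, ← ha, ← hb, ← hd]
    linear_combination hroot
  · have h6 := congrFun hφV j
    have h7 : φ ((V + s • U) j) = φ (V j) := by
      rw [Pi.add_apply, Pi.smul_apply, smul_eq_mul, map_add, map_mul, hφs]
      ring
    exact h7.trans h6

end Pool.Agent.MP_1209e6_cy
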