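import Pool.Agent.Lib_MP_1209e6_cy.Defs

/-!
# Basic algebra of the forms
-/

open Matrix

namespace Pool.Agent.MP_1209e6_cy

namespace Dat

variable {m : ℕ} {R S : Type*} [CommRing R] [CommRing S]

omit [CommRing R] in
@[simp] theorem swap_swap (D : Dat m R) : D.swap.swap = D := rfl

omit [CommRing R] in
theorem Symm.swap {D : Dat m R} (h : D.Symm) : D.swap.Symm :=
  ⟨fun j k l p => h.right l p j k, fun j k l p => h.left l p j k⟩

theorem Symm.map {D : Dat m R} (h : D.Symm) (f : R →+* S) : (D.map f).Symm :=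
  ⟨fun j k l p => congrArg f (h.left j k l p), fun j k l p => congrArg f (h.right j k l p)⟩

theorem map_swap (D : Dat m R) (f : R →+* S) : (D.map f).swap = D.swap.map f := rfl

theorem swap_A (D : Dat m R) (i : Fin m) (x y : Vec m R) : D.swap.A i y x = D.A i x y := by
  unfold A swap
  rw [Finset.sum_comm]
  refine Finset.sum_congr rfl fun j _ => Finset.sum_congr rfl fun l _ => ?_
  ring

theorem swap_B (D : Dat m R) (x x' y y' : Vec m R) : D.swap.B y y' x x' = D.B x x' y y' := by
  unfold B swap
  have h1 : ∀ (f : Fin (m + 2) → Fin (m + 2) → Fin (m + 2) → Fin (m + 2) → R),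
      ∑ j, ∑ k, ∑ l, ∑ p, f j k l p = ∑ l, ∑ p, ∑ j, ∑ k, f j k l p := by
    intro f
    have : ∀ j, ∑ k, ∑ l, ∑ p, f j k l p = ∑ l, ∑ p, ∑ k, f j k l p := by
      intro j
      rw [Finset.sum_comm]
      refine Finset.sum_congr rfl fun l _ => ?_
      rw [Finset.sum_comm]
    rw [Finset.sum_congr rfl fun j _ => this j, Finset.sum_comm]
    refine Finset.sum_congr rfl fun l _ => ?_
    rw [Finset.sum_comm]
  rw [h1]
  refine Finset.sum_congr rfl fun j _ => Finset.sum_congr rfl fun k _ =>
    Finset.sum_congr rfl fun l _ => Finset.sum_congr rfl fun p _ => ?_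
  ring

theorem swap_In (D : Dat m R) (x y : Vec m R) : D.swap.In y x ↔ D.In x y := by
  unfold In
  simp only [swap_A, swap_B]

section linear

variable (D : Dat m R) (i : Fin m) (x x' x'' y y' y'' : Vec m R) (c : R)

theorem A_eq_dot : D.A i x y = D.row y i ⬝ᵥ x := by
  unfold A row dotProduct
  refine Finset.sum_congr rfl fun j _ => ?_
  rw [Finset.sum_mul]
  refine Finset.sum_congr rfl fun l _ => ?_
  ring

theorem A_add_left : D.A i (x + x') y = D.A i x y + D.A i x' y := by
  simp only [A_eq_dot, dotProduct_add]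

theorem A_smul_left : D.A i (c • x) y = c * D.A i x y := by
  simp only [A_eq_dot, dotProduct_smul, smul_eq_mul]

theorem A_sub_left : D.A i (x - x') y = D.A i x y - D.A i x' y := by
  simp only [A_eq_dot, dotProduct_sub]

theorem A_add_right : D.A i x (y + y') = D.A i x y + D.A i x y' := by
  simp only [← swap_A D, A_add_left]

theorem A_smul_right : D.A i x (c • y) = c * D.A i x y := by
  simp only [← swap_A D, A_smul_left]

theorem A_sub_right : D.A i x (y - y') = D.A i x y - D.A i x y' := by
  simp only [← swap_A D, A_sub_left]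

theorem B_add₁ : D.B (x + x') x'' y y' = D.B x x'' y y' + D.B x' x'' y y' := by
  unfold B
  simp only [← Finset.sum_add_distrib]
  refine Finset.sum_congr rfl fun j _ => Finset.sum_congr rfl fun k _ =>
    Finset.sum_congr rfl fun l _ => Finset.sum_congr rfl fun p _ => ?_
  simp only [Pi.add_apply]
  ring

theorem B_smul₁ : D.B (c • x) x' y y' = c * D.B x x' y y' := by
  unfold B
  simp only [Finset.mul_sum]
  refine Finset.sum_congr rfl fun j _ => Finset.sum_congr rfl fun k _ =>
    Finset.sum_congr rfl fun l _ => Finset.sum_congr rfl fun p _ => ?_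
  simp only [Pi.smul_apply, smul_eq_mul]
  ring

theorem B_sub₁ : D.B (x - x') x'' y y' = D.B x x'' y y' - D.B x' x'' y y' := by
  have := B_add₁ D (x - x') x' x'' y y'
  rw [sub_add_cancel] at this
  rw [this]
  ring

theorem B_zero₁ : D.B 0 x' y y' = 0 := by
  have := B_smul₁ D 0 x' y y' 0
  simpa using this

variable {D}

theorem Symm.B_comm (h : D.Symm) : D.B x x' y y' = D.B x' x y y' := by
  unfold B
  rw [Finset.sum_comm]
  refine Finset.sum_congr rfl fun j _ => Finset.sum_congr rfl fun k _ =>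
    Finset.sum_congr rfl fun l _ => Finset.sum_congr rfl fun p _ => ?_
  rw [h.left k j l p]
  ring

theorem Symm.B_comm' (h : D.Symm) : D.B x x' y y' = D.B x x' y' y := by
  rw [← swap_B, h.swap.B_comm, swap_B]

theorem Symm.B_add₂ (h : D.Symm) : D.B x (x' + x'') y y' = D.B x x' y y' + D.B x x'' y y' := by
  rw [h.B_comm, B_add₁, h.B_comm, h.B_comm x'']

theorem Symm.B_sub₂ (h : D.Symm) : D.B x (x' - x'') y y' = D.B x x' y y' - D.B x x'' y y' := by
  rw [h.B_comm, B_sub₁, h.B_comm, h.B_comm x'']

theorem Symm.B_smul₂ (h : D.Symm) : D.B x (c • x') y y' = c * D.B x x' y y' := by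
  rw [h.B_comm, B_smul₁, h.B_comm]

variable (D)

theorem B_add₃ : D.B x x' (y + y') y'' = D.B x x' y y'' + D.B x x' y' y'' := by
  simp only [← swap_B D, B_add₁]

theorem B_sub₃ : D.B x x' (y - y') y'' = D.B x x' y y'' - D.B x x' y' y'' := by
  simp only [← swap_B D, B_sub₁]

theorem B_smul₃ : D.B x x' (c • y) y' = c * D.B x x' y y' := by
  simp only [← swap_B D, B_smul₁]

variable {D}

theorem Symm.B_add₄ (h : D.Symm) : D.B x x' y (y' + y'') = D.B x x' y y' + D.B x x' y y'' := by
  simp only [← swap_B D, h.swap.B_add₂]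

theorem Symm.B_sub₄ (h : D.Symm) : D.B x x' y (y' - y'') = D.B x x' y y' - D.B x x' y y'' := by
  simp only [← swap_B D, h.swap.B_sub₂]

theorem Symm.B_smul₄ (h : D.Symm) : D.B x x' y (c • y') = c * D.B x x' y y' := by
  simp only [← swap_B D, h.swap.B_smul₂]

end linear

theorem B_eq_Q (D : Dat m R) (x x' y : Vec m R) :
    D.B x x' y y = ∑ k, ∑ l, x k * D.Q y k l * x' l := by
  unfold B Q
  refine Finset.sum_congr rfl fun j _ => Finset.sum_congr rfl fun k _ => ?_
  rw [Finset.mul_sum, Finset.sum_mul]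
  refine Finset.sum_congr rfl fun l _ => ?_
  rw [Finset.mul_sum, Finset.sum_mul]
  refine Finset.sum_congr rfl fun p _ => ?_
  ring

end Dat

section plu

variable {m : ℕ} {R : Type*} [CommRing R] (r : Fin m → Vec m R) (w w' ξ ξ' x : Vec m R) (c : R)

theorem plu_add_left : plu r (w + w') ξ = plu r w ξ + plu r w' ξ := by
  unfold plu
  have := Matrix.det_updateRow_add (Matrix.of (vecCons w (vecCons ξ r) : Fin (m + 2) → Vec m R)) 0
    w w'
  have e : ∀ z : Vec m R, Matrix.updateRow
      (Matrix.of (vecCons w (vecCons ξ r) : Fin (m + 2) → Vec m R)) 0 z =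
      Matrix.of (vecCons z (vecCons ξ r) : Fin (m + 2) → Vec m R) := by
    intro z
    ext i j
    refine Fin.cases ?_ (fun i => ?_) i
    · simp [Matrix.updateRow_self]
    · rw [Matrix.updateRow_ne (Fin.succ_ne_zero i)]
      rfl
  rwa [e, e, e] at this

theorem plu_smul_left : plu r (c • w) ξ = c * plu r w ξ := by
  unfold plu
  have := Matrix.det_updateRow_smul (Matrix.of (vecCons w (vecCons ξ r) : Fin (m + 2) → Vec m R)) 0
    c w
  have e : ∀ z : Vec m R, Matrix.updateRow
      (Matrix.of (vecCons w (vecCons ξ r) : Fin (m + 2) → Vec m R)) 0 z =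
      Matrix.of (vecCons z (vecCons ξ r) : Fin (m + 2) → Vec m R) := by
    intro z
    ext i j
    refine Fin.cases ?_ (fun i => ?_) i
    · simp [Matrix.updateRow_self]
    · rw [Matrix.updateRow_ne (Fin.succ_ne_zero i)]
      rfl
  rwa [e, e] at this

theorem plu_self : plu r w w = 0 := by
  unfold plu
  refine Matrix.det_zero_of_row_eq (i := 0) (j := 1) (by simp) ?_
  rfl

theorem plu_row (i : Fin m) : plu r w (r i) = 0 := by
  unfold plu
  refine Matrix.det_zero_of_row_eq (i := 1) (j := i.succ.succ) ?_ ?_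
  · intro h
    have := congrArg Fin.val h
    simp at this
  · rfl

theorem plu_antisymm : plu r w ξ = - plu r ξ w := by
  have h := plu_self r (w + ξ)
  have hr : ∀ z z' : Vec m R, plu r z z' = 0 → True := fun _ _ _ => trivial
  -- additivity in the second variable through a swap of rows
  unfold plu at *
  have hs : ∀ a b : Vec m R,
      Matrix.det (Matrix.of (vecCons a (vecCons b r) : Fin (m + 2) → Vec m R)) =
      - Matrix.det (Matrix.of (vecCons b (vecCons a r) : Fin (m + 2) → Vec m R)) := by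
    intro a b
    have h1 := Matrix.det_permute (Equiv.swap (0 : Fin (m + 2)) 1)
      (Matrix.of (vecCons b (vecCons a r) : Fin (m + 2) → Vec m R))
    rw [Equiv.Perm.sign_swap (by simp)] at h1
    have h2 : (Matrix.of (vecCons b (vecCons a r) : Fin (m + 2) → Vec m R)).submatrix
        (Equiv.swap (0 : Fin (m + 2)) 1) id =
        Matrix.of (vecCons a (vecCons b r) : Fin (m + 2) → Vec m R) := by
      ext i j
      refine Fin.cases ?_ (fun i => ?_) i
      · simp
      · refine Fin.cases ?_ (fun i => ?_) i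
        · simp
        · rw [Matrix.submatrix_apply, Equiv.swap_apply_of_ne_of_ne]
          · rfl
          · exact Fin.succ_ne_zero _
          · intro h
            have := congrArg Fin.val h
            simp at this
    rw [← h2, h1]
    simp
  exact hs w ξ

theorem plu_add_right : plu r w (ξ + ξ') = plu r w ξ + plu r w ξ' := by
  rw [plu_antisymm, plu_add_left, plu_antisymm r w ξ, plu_antisymm r w ξ']
  ring

theorem plu_smul_right : plu r w (c • ξ) = c * plu r w ξ := by
  rw [plu_antisymm, plu_smul_left, plu_antisymm r w ξ]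
  ring

theorem dot_pv : ξ ⬝ᵥ pv r w = plu r w ξ := by
  have hlin : ∀ (s : Finset (Fin (m + 2))), plu r w (∑ j ∈ s, ξ j • (Pi.single j 1 : Vec m R)) =
      ∑ j ∈ s, ξ j * plu r w (Pi.single j 1) := by
    intro s
    induction s using Finset.induction_on with
    | empty =>
      simp only [Finset.sum_empty]
      have := plu_smul_right r w 0 (0 : R)
      simpa using this
    | insert a s ha ih =>
      rw [Finset.sum_insert ha, Finset.sum_insert ha, plu_add_right, plu_smul_right, ih]
  have hξ : ξ = ∑ j, ξ j • (Pi.single j 1 : Vec m R) := by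
    ext i
    simp [Finset.sum_apply, Pi.single_apply]
  conv_rhs => rw [hξ]
  rw [hlin]
  rfl

theorem dot_pv_self : w ⬝ᵥ pv r w = 0 := by rw [dot_pv, plu_self]

theorem row_dot_pv (i : Fin m) : r i ⬝ᵥ pv r w = 0 := by rw [dot_pv, plu_row]

/-- Cramer's rule -/
theorem plu_cramer (w₁ w₂ : Vec m R) (hx : ∀ i, r i ⬝ᵥ x = 0) :
    plu r w₁ w₂ * (w ⬝ᵥ x) = plu r w w₂ * (w₁ ⬝ᵥ x) + plu r w₁ w * (w₂ ⬝ᵥ x) := by
  set M : Matrix (Fin (m + 2)) (Fin (m + 2)) R :=
    Matrix.of (vecCons w₁ (vecCons w₂ r) : Fin (m + 2) → Vec m R) with hM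
  have h := Matrix.mulVec_cramer Mᵀ w
  have h2 : (Mᵀ *ᵥ (Matrix.cramer Mᵀ w)) ⬝ᵥ x = (Mᵀ.det • w) ⬝ᵥ x := by rw [h]
  rw [Matrix.mulVec_transpose, smul_dotProduct, Matrix.det_transpose] at h2
  rw [← Matrix.dotProduct_mulVec] at h2
  have h3 : Matrix.mulVec M x = vecCons (w₁ ⬝ᵥ x) (vecCons (w₂ ⬝ᵥ x) (fun _ : Fin m => (0 : R))) := by
    ext i
    refine Fin.cases ?_ (fun i => ?_) i
    · rfl
    · refine Fin.cases ?_ (fun i => ?_) i
      · rfl
      · exact hx i
  have hc : ∀ i, Matrix.cramer Mᵀ w i = (M.updateRow i w).det := fun i =>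
    Matrix.cramer_transpose_apply M w i
  have e0 : (M.updateRow 0 w).det = plu r w w₂ := by
    unfold plu
    congr 1
    ext i j
    refine Fin.cases ?_ (fun i => ?_) i
    · simp [Matrix.updateRow_self]
    · rw [Matrix.updateRow_ne (Fin.succ_ne_zero i)]
      rfl
  have e1 : (M.updateRow 1 w).det = plu r w₁ w := by
    unfold plu
    congr 1
    ext i j
    refine Fin.cases ?_ (fun i => ?_) i
    · rw [Matrix.updateRow_ne (by simp)]
      rfl
    · refine Fin.cases ?_ (fun i => ?_) i
      · have : (Fin.succ 0 : Fin (m + 2)) = 1 := rfl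
        rw [this, Matrix.updateRow_self]
        rfl
      · rw [Matrix.updateRow_ne]
        · rfl
        · intro h
          have := congrArg Fin.val h
          simp at this
  rw [h3] at h2
  have h4 : ∀ a b : R, (Matrix.cramer Mᵀ w) ⬝ᵥ (vecCons a (vecCons b (fun _ : Fin m => (0 : R))))
      = plu r w w₂ * a + plu r w₁ w * b := by
    intro a b
    rw [dotProduct, Fin.sum_univ_succ, Fin.sum_univ_succ]
    have z : ∀ i : Fin m, Matrix.cramer Mᵀ w i.succ.succ *
        (vecCons a (vecCons b (fun _ : Fin m => (0 : R))) : Fin (m + 2) → R) i.succ.succ = 0 := by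
      intro i
      simp
    rw [Finset.sum_eq_zero (fun i _ => z i), hc, hc, e0]
    have : (Fin.succ 0 : Fin (m + 2)) = 1 := rfl
    rw [this, e1]
    simp
  rw [h4] at h2
  rw [h2]
  rfl

end plu

end Pool.Agent.MP_1209e6_cy
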