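import Mathlib

/-!
PIECE [XRA] (MP_1209e6_ag).  Small roots of quadratic equations.
-/

open Filter Topology

namespace Pool.Agent.MP_1209e6_cy

private theorem xra_root (A B C : ℂ) (h : B ≠ 0 ∨ C ≠ 0) :
    ∃ s : ℂ, ‖s‖ * ‖B‖ ≤ ‖A‖ ∧ ‖s‖ ^ 2 * ‖C‖ ≤ ‖A‖ ∧ A + 2 * B * s + C * s ^ 2 = 0 := by
  obtain ⟨w, hw⟩ : ∃ w : ℂ, w ^ 2 = B ^ 2 - A * C := IsAlgClosed.exists_pow_nat_eq _ (by norm_num)
  obtain ⟨v, hv, hvn⟩ : ∃ v : ℂ, v ^ 2 = B ^ 2 - A * C ∧ ‖B - v‖ ≤ ‖B + v‖ := by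
    rcases le_total ‖B - w‖ ‖B + w‖ with h1 | h1
    · exact ⟨w, hw, h1⟩
    · refine ⟨-w, by rw [← hw]; ring, ?_⟩
      rw [sub_neg_eq_add, ← sub_eq_add_neg]
      exact h1
  have hB : ‖B‖ ≤ ‖B + v‖ := by
    have h1 : ‖(2 : ℂ) * B‖ ≤ ‖B + v‖ + ‖B - v‖ := by
      have h2 : (2 : ℂ) * B = (B + v) + (B - v) := by ring
      rw [h2]
      exact norm_add_le _ _
    rw [norm_mul] at h1
    have h3 : ‖(2 : ℂ)‖ = 2 := by norm_num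
    rw [h3] at h1
    linarith
  have hAC : ‖A‖ * ‖C‖ ≤ ‖B + v‖ ^ 2 := by
    have h1 : A * C = (B + v) * (B - v) := by linear_combination hv
    rw [← norm_mul, h1, norm_mul, pow_two]
    exact mul_le_mul_of_nonneg_left hvn (norm_nonneg _)
  by_cases hd : B + v = 0
  · rw [hd, norm_zero] at hB hAC
    have hB0 : B = 0 := norm_le_zero_iff.1 hB
    have hC0 : C ≠ 0 := by
      rcases h with h | h
      · exact absurd hB0 h
      · exact h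
    have hA0 : A = 0 := by
      have h1 : ‖A‖ * ‖C‖ ≤ 0 := by simpa using hAC
      have h2 : ‖A‖ * ‖C‖ = 0 := le_antisymm h1 (by positivity)
      rcases mul_eq_zero.1 h2 with h3 | h3
      · exact norm_eq_zero.1 h3
      · exact absurd (norm_eq_zero.1 h3) hC0
    exact ⟨0, by simp, by simp, by simp [hA0]⟩
  · have hdpos : 0 < ‖B + v‖ := norm_pos_iff.2 hd
    refine ⟨-A / (B + v), ?_, ?_, ?_⟩
    · rw [norm_div, norm_neg, div_mul_eq_mul_div, div_le_iff₀ hdpos]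
      exact mul_le_mul_of_nonneg_left hB (norm_nonneg _)
    · rw [norm_div, norm_neg, div_pow, div_mul_eq_mul_div, div_le_iff₀ (by positivity)]
      calc ‖A‖ ^ 2 * ‖C‖ = ‖A‖ * (‖A‖ * ‖C‖) := by ring
        _ ≤ ‖A‖ * ‖B + v‖ ^ 2 := mul_le_mul_of_nonneg_left hAC (norm_nonneg _)
    · have h1 : A + 2 * B * (-A / (B + v)) + C * (-A / (B + v)) ^ 2 =
          A * (v ^ 2 - (B ^ 2 - A * C)) / (B + v) ^ 2 := by
        field_simp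
        ring
      rw [h1, hv, sub_self, mul_zero, zero_div]

/-- PIECE [XRA].  A quadratic equation `A + 2 B s + C s^2 = 0` with small `A` and `(B, C)` away from `(0, 0)` has a small root.

Proof.  With `w^2 = B^2 - A C` and the sign of `w` such that `|B + w| ≥ |B - w|`: `s = -A / (B + w)` is a root (`s = 0`
if `A = 0`).  `2 B = (B + w) + (B - w)` and `(B + w)(B - w) = A C`, so `|B + w| ≥ |B|` and `|B + w|^2 ≥ |A C|`; hence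
`|s| |B| ≤ |A|` and `|s|^2 |C| ≤ |A|`. -/
theorem eventually_small_root {B₁ C₁ : ℂ} (h : B₁ ≠ 0 ∨ C₁ ≠ 0) {ε : ℝ} (hε : 0 < ε) :
    ∀ᶠ q : ℂ × ℂ × ℂ in 𝓝 ((0 : ℂ), B₁, C₁), ∃ s : ℂ, ‖s‖ < ε ∧ q.1 + 2 * q.2.1 * s + q.2.2 * s ^ 2 = 0 := by
  have hA : Tendsto (fun q : ℂ × ℂ × ℂ => ‖q.1‖) (𝓝 ((0 : ℂ), B₁, C₁)) (𝓝 0) := by
    have h1 : Continuous (fun q : ℂ × ℂ × ℂ => ‖q.1‖) := by fun_prop
    have h2 := h1.tendsto ((0 : ℂ), B₁, C₁)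
    simpa using h2
  have hB : Tendsto (fun q : ℂ × ℂ × ℂ => ‖q.2.1‖) (𝓝 ((0 : ℂ), B₁, C₁)) (𝓝 ‖B₁‖) := by
    have h1 : Continuous (fun q : ℂ × ℂ × ℂ => ‖q.2.1‖) := by fun_prop
    exact h1.tendsto ((0 : ℂ), B₁, C₁)
  have hC : Tendsto (fun q : ℂ × ℂ × ℂ => ‖q.2.2‖) (𝓝 ((0 : ℂ), B₁, C₁)) (𝓝 ‖C₁‖) := by
    have h1 : Continuous (fun q : ℂ × ℂ × ℂ => ‖q.2.2‖) := by fun_prop
    exact h1.tendsto ((0 : ℂ), B₁, C₁)
  rcases h with h | h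
  · have hpos : 0 < ‖B₁‖ := norm_pos_iff.2 h
    filter_upwards [hA.eventually (gt_mem_nhds (show (0 : ℝ) < ε * (‖B₁‖ / 2) by positivity)),
      hB.eventually (lt_mem_nhds (show ‖B₁‖ / 2 < ‖B₁‖ by linarith))] with q h1 h2
    have hq : q.2.1 ≠ 0 := by
      intro h3
      rw [h3, norm_zero] at h2
      linarith
    obtain ⟨s, hs1, -, hs3⟩ := xra_root q.1 q.2.1 q.2.2 (Or.inl hq)
    refine ⟨s, ?_, hs3⟩
    by_contra hcon
    have h4 : ε ≤ ‖s‖ := not_lt.1 hcon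
    have h5 : ε * (‖B₁‖ / 2) ≤ ‖s‖ * ‖q.2.1‖ :=
      mul_le_mul h4 h2.le (by positivity) (norm_nonneg _)
    linarith
  · have hpos : 0 < ‖C₁‖ := norm_pos_iff.2 h
    filter_upwards [hA.eventually (gt_mem_nhds (show (0 : ℝ) < ε ^ 2 * (‖C₁‖ / 2) by positivity)),
      hC.eventually (lt_mem_nhds (show ‖C₁‖ / 2 < ‖C₁‖ by linarith))] with q h1 h2
    have hq : q.2.2 ≠ 0 := by
      intro h3
      rw [h3, norm_zero] at h2
      linarith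
    obtain ⟨s, -, hs2, hs3⟩ := xra_root q.1 q.2.1 q.2.2 (Or.inr hq)
    refine ⟨s, ?_, hs3⟩
    by_contra hcon
    have h4 : ε ≤ ‖s‖ := not_lt.1 hcon
    have h5 : ε ^ 2 * (‖C₁‖ / 2) ≤ ‖s‖ ^ 2 * ‖q.2.2‖ :=
      mul_le_mul (pow_le_pow_left₀ hε.le h4 2) h2.le (by positivity) (by positivity)
    linarith

end Pool.Agent.MP_1209e6_cy
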