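import Pool.Agent.Lib_MP_1209e6_cy.Points
import Pool.Agent.Lib_MP_1209e6_cy.RootA

/-!
PIECE [XRD] (MP_1209e6_ag).  Exceptional fibres have no isolated points.
-/

open Matrix Filter Topology

namespace Pool.Agent.MP_1209e6_cy

variable {m : ℕ}

namespace RootD

/-- linearly independent vectors are not proportional -/
theorem indep_of_li {N : ℕ} {a b : Fin N → ℂ} (h : LinearIndependent ℂ ![a, b]) : Indep a b := by
  by_contra hn
  unfold Indep at hn
  push Not at hn
  have ha : a ≠ 0 := h.ne_zero 0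
  obtain ⟨i, hi⟩ := Function.ne_iff.1 ha
  have h1 := (LinearIndependent.pair_iff.1 h) (b i) (-(a i)) (by
    funext j
    simp only [Pi.add_apply, Pi.smul_apply, smul_eq_mul, Pi.zero_apply]
    linear_combination -(hn i j))
  exact hi (neg_eq_zero.1 h1.2)

/-- the direction of a small displacement of an isotropic vector -/
theorem near_of {D : Dat m ℂ} (hD : D.Symm) {x y v : Vec m ℂ} (hin : D.In y x)
    (hv : ∀ i, D.A i v x = 0) (hind : Indep y v) {c : ℂ} (hc : c ≠ 0)
    (hq : c * D.B v v x x + 2 * D.B y v x x = 0) {ε : ℝ} (hε : ‖c • v‖ < ε) :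
    ∃ y', ‖y' - y‖ < ε ∧ D.In y' x ∧ Indep y y' := by
  refine ⟨y + c • v, by rwa [add_sub_cancel_left], ⟨fun i => ?_, ?_⟩, ?_⟩
  · rw [D.A_add_left, D.A_smul_left, hin.1 i, hv i, mul_zero, add_zero]
  · rw [D.B_add₁, hD.B_add₂, hD.B_add₂, D.B_smul₁, D.B_smul₁, hD.B_smul₂, hD.B_smul₂, hin.2,
      hD.B_comm v y]
    linear_combination c * hq
  · obtain ⟨i, j, hij⟩ := hind
    refine ⟨i, j, fun h => hij ?_⟩
    simp only [Pi.add_apply, Pi.smul_apply, smul_eq_mul] at h
    have : c * (y i * v j - y j * v i) = 0 := by linear_combination h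
    rcases mul_eq_zero.1 this with h1 | h1
    · exact absurd h1 hc
    · linear_combination h1

/-- an isotropic direction orthogonal to `y` -/
theorem near_of_iso {D : Dat m ℂ} (hD : D.Symm) {x y v : Vec m ℂ} (hin : D.In y x)
    (hv : ∀ i, D.A i v x = 0) (hind : Indep y v)
    (h1 : D.B v v x x = 0) (h2 : D.B y v x x = 0) {ε : ℝ} (hε : 0 < ε) :
    ∃ y', ‖y' - y‖ < ε ∧ D.In y' x ∧ Indep y y' := by
  have ht : Tendsto (fun c : ℂ => ‖c • v‖) (𝓝[≠] 0) (𝓝 0) := by
    have : Continuous fun c : ℂ => ‖c • v‖ := by fun_prop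
    have h3 := this.tendsto 0
    simp only [zero_smul, norm_zero] at h3
    exact h3.mono_left nhdsWithin_le_nhds
  have h4 : ∀ᶠ c : ℂ in 𝓝[≠] 0, ‖c • v‖ < ε := ht.eventually (gt_mem_nhds hε)
  obtain ⟨c, hc, hc0⟩ := (h4.and self_mem_nhdsWithin).exists
  exact near_of hD hin hv hind hc0 (by rw [h1, h2]; ring) hc

/-- the case of three independent vectors, one of them not orthogonal to `y` -/
theorem near_of_ne {D : Dat m ℂ} (hD : D.Symm) {x y a b : Vec m ℂ} (hin : D.In y x)
    (ha : ∀ i, D.A i a x = 0) (hb : ∀ i, D.A i b x = 0)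
    (hli : ∀ r s t : ℂ, r • y + s • a + t • b = 0 → r = 0 ∧ s = 0 ∧ t = 0)
    (h1 : D.B y a x x ≠ 0) {ε : ℝ} (hε : 0 < ε) :
    ∃ y', ‖y' - y‖ < ε ∧ D.In y' x ∧ Indep y y' := by
  set β : ℂ := D.B y a x x with hβ
  set γ : ℂ := D.B y b x x with hγ
  set v₀ : Vec m ℂ := b - (γ / β) • a with hv₀
  have hA : ∀ (δ : ℂ) i, D.A i (v₀ + δ • a) x = 0 := by
    intro δ i
    rw [hv₀, D.A_add_left, D.A_sub_left, D.A_smul_left, D.A_smul_left, ha, hb]
    ring
  have hind : ∀ δ : ℂ, Indep y (v₀ + δ • a) := by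
    intro δ
    refine indep_of_li (LinearIndependent.pair_iff.2 fun r s h => ?_)
    have h2 := hli r (s * (δ - γ / β)) s (by
      rw [← h, hv₀]
      funext j
      simp only [Pi.add_apply, Pi.smul_apply, smul_eq_mul, Pi.sub_apply]
      ring)
    exact ⟨h2.1, h2.2.2⟩
  have h0 : D.B y v₀ x x = 0 := by
    rw [hv₀, hD.B_sub₂, hD.B_smul₂, ← hβ, ← hγ]
    field_simp
    ring
  have hyv : ∀ δ : ℂ, D.B y (v₀ + δ • a) x x = δ * β := by
    intro δ
    rw [hD.B_add₂, hD.B_smul₂, h0, ← hβ]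
    ring
  by_cases hq : D.B v₀ v₀ x x = 0
  · have h3 := hind 0
    have h4 := hA 0
    rw [zero_smul, add_zero] at h3
    simp only [zero_smul, add_zero] at h4
    exact near_of_iso hD hin h4 h3 hq h0 hε
  · set Q : ℂ → ℂ := fun δ => D.B v₀ v₀ x x + 2 * δ * D.B v₀ a x x + δ ^ 2 * D.B a a x x with hQ
    have hQv : ∀ δ, D.B (v₀ + δ • a) (v₀ + δ • a) x x = Q δ := by
      intro δ
      rw [D.B_add₁, hD.B_add₂, hD.B_add₂, D.B_smul₁, D.B_smul₁, hD.B_smul₂, hD.B_smul₂,
        hD.B_comm a v₀, hQ]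
      ring
    have hQc : Continuous Q := by
      rw [hQ]
      fun_prop
    have hQ0 : Q 0 ≠ 0 := by
      rw [hQ]
      simpa using hq
    have e1 : ∀ᶠ δ : ℂ in 𝓝[≠] 0, Q δ ≠ 0 :=
      (hQc.tendsto 0).eventually_ne hQ0 |>.filter_mono nhdsWithin_le_nhds
    have e2 : Tendsto (fun δ : ℂ => ‖(-(2 * (δ * β)) / Q δ) • (v₀ + δ • a)‖) (𝓝[≠] 0) (𝓝 0) := by
      have c1 : ContinuousAt (fun δ : ℂ => (-(2 * (δ * β)) / Q δ)) 0 :=
        ContinuousAt.div (by fun_prop) hQc.continuousAt hQ0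
      have c2 : ContinuousAt (fun δ : ℂ => v₀ + δ • a) 0 := by fun_prop
      have c3 := (c1.smul c2).norm
      have c4 : ContinuousAt (fun δ : ℂ => ‖(-(2 * (δ * β)) / Q δ) • (v₀ + δ • a)‖) 0 := c3
      have c5 := c4.tendsto
      simp only [zero_mul, mul_zero, neg_zero, zero_div, zero_smul, norm_zero] at c5
      exact c5.mono_left nhdsWithin_le_nhds
    have e3 := e2.eventually (gt_mem_nhds hε)
    obtain ⟨δ, ⟨h5, h6⟩, h7⟩ := ((e1.and e3).and self_mem_nhdsWithin).exists
    refine near_of hD hin (hA δ) (hind δ) (c := -(2 * (δ * β)) / Q δ) ?_ ?_ h6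
    · refine div_ne_zero (neg_ne_zero.2 (mul_ne_zero two_ne_zero (mul_ne_zero h7 h1))) h5
    · rw [hQv, hyv]
      field_simp
      ring

/-- the case of three independent vectors -/
theorem near_of_three {D : Dat m ℂ} (hD : D.Symm) {x y a b : Vec m ℂ} (hin : D.In y x)
    (ha : ∀ i, D.A i a x = 0) (hb : ∀ i, D.A i b x = 0)
    (hli : ∀ r s t : ℂ, r • y + s • a + t • b = 0 → r = 0 ∧ s = 0 ∧ t = 0)
    {ε : ℝ} (hε : 0 < ε) :
    ∃ y', ‖y' - y‖ < ε ∧ D.In y' x ∧ Indep y y' := by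
  by_cases h1 : D.B y a x x = 0
  swap
  · exact near_of_ne hD hin ha hb hli h1 hε
  by_cases h2 : D.B y b x x = 0
  swap
  · refine near_of_ne hD hin hb ha (fun r s t h => ?_) h2 hε
    have h3 := hli r t s (by rw [← h]; abel)
    exact ⟨h3.1, h3.2.2, h3.2.1⟩
  by_cases hc : D.B b b x x = 0
  · refine near_of_iso hD hin hb (indep_of_li (LinearIndependent.pair_iff.2 fun r s h => ?_))
      hc h2 hε
    have h3 := hli r 0 s (by rw [← h]; simp)
    exact ⟨h3.1, h3.2.2⟩
  · obtain ⟨δ, hδ⟩ := IsAlgClosed.exists_pow_nat_eq (D.B a b x x ^ 2 -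
      D.B a a x x * D.B b b x x) (n := 2) (by norm_num)
    set t : ℂ := (-D.B a b x x + δ) / D.B b b x x with ht
    have h4 : D.B b b x x * t = -D.B a b x x + δ := by
      rw [ht]
      field_simp
    refine near_of_iso (v := a + t • b) hD hin (fun i => ?_)
      (indep_of_li (LinearIndependent.pair_iff.2 fun r s h => ?_)) ?_ ?_ hε
    · rw [D.A_add_left, D.A_smul_left, ha, hb]
      ring
    · have h3 := hli r s (s * t) (by rw [← h, smul_add, smul_smul]; abel)
      exact ⟨h3.1, h3.2.1⟩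
    · rw [D.B_add₁, hD.B_add₂, hD.B_add₂, D.B_smul₁, D.B_smul₁, hD.B_smul₂, hD.B_smul₂,
        hD.B_comm b a]
      have h5 : D.B b b x x * (D.B a a x x +
          t * D.B a b x x + (t * D.B a b x x +
          t * (t * D.B b b x x))) = 0 := by
        linear_combination (2 * D.B a b x x + (D.B b b x x * t +
          (-D.B a b x x + δ))) * h4 + hδ
      exact (mul_eq_zero.1 h5).resolve_left hc
    · rw [hD.B_add₂, hD.B_smul₂, h1, h2]
      ring

/-- if all the maximal minors vanish then the kernel has dimension at least three -/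
theorem three_le_finrank_ker {D : Dat m ℂ} {x : Vec m ℂ}
    (hπ : ∀ w ξ : Vec m ℂ, plu (D.row x) w ξ = 0) (L : Vec m ℂ →ₗ[ℂ] (Fin m → ℂ))
    (hL : ∀ y i, L y i = D.A i y x) : 2 < Module.finrank ℂ (LinearMap.ker L) := by
  by_contra hlt
  have h1 := LinearMap.finrank_range_add_finrank_ker L
  have h4 : Module.finrank ℂ (Vec m ℂ) = m + 2 := by simp [Vec]
  have h5 : LinearMap.range L = ⊤ := by
    refine Submodule.eq_top_of_finrank_eq (le_antisymm (Submodule.finrank_le _) ?_)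
    rw [Module.finrank_fin_fun]
    omega
  have hli : LinearIndependent ℂ (D.row x) := by
    rw [Fintype.linearIndependent_iff]
    intro g hg i
    have hs : Function.Surjective L := LinearMap.range_eq_top.1 h5
    obtain ⟨y, hy⟩ := hs (Pi.single i 1)
    have h6 : (∑ j, g j • D.row x j) ⬝ᵥ y = 0 := by rw [hg, zero_dotProduct]
    rw [sum_dotProduct] at h6
    have h7 : ∀ j, (g j • D.row x j) ⬝ᵥ y = if j = i then g i else 0 := by
      intro j
      rw [smul_dotProduct, ← D.A_eq_dot, ← hL, hy]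
      by_cases hj : j = i
      · subst hj
        simp
      · simp [hj]
    simpa [h7] using h6
  obtain ⟨ξ, hξ⟩ := exists_linearIndependent_cons_of_lt_finrank hli (by rw [h4]; omega)
  obtain ⟨w, hw⟩ := exists_linearIndependent_cons_of_lt_finrank hξ (by rw [h4]; omega)
  have h8 : IsUnit (Matrix.of (vecCons w (vecCons ξ (D.row x)) : Fin (m + 2) → Vec m ℂ)) :=
    Matrix.linearIndependent_rows_iff_isUnit.1 hw
  rw [Matrix.isUnit_iff_isUnit_det] at h8
  exact h8.ne_zero (hπ w ξ)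

end RootD

open RootD in
/-- PIECE [XRD].  Exceptional fibres have no isolated points.

Proof.  Let `V` be the kernel of the forms `A_i(x₁, ·)` and `q` the quadratic form `B(x₁, x₁, y, y)` on it.  If some
`π_ij ≠ 0` then `q = 0` on `V` (as in `Symm.three_points`, `E'(x₁) = 0`) and `dim V = 2`: take `y' = y₁ + δ y₂`, `y₂ ∈ V`
independent of `y₁`.  Otherwise `dim V ≥ 3`.  If there is `y₃ ∈ V` with `b(y₁, y₃) ≠ 0`, take `y₂ ∈ V` independent of
`y₁, y₃` and `y' = y₁ + δ y₂ + s y₃` with `q(y') = 2 s b(y₁, y₃) + 2 δ b(y₁, y₂) + O(2) = 0` (`eventually_small_root`).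
If `b(y₁, ·) = 0` on `V`, there is an isotropic `y₂ ∈ V` independent of `y₁` (a binary quadratic form has a zero) and
`y' = y₁ + δ y₂` is isotropic. -/
theorem exists_near_fibre {D : Dat m ℂ} (hD : D.Symm) {x₁ y₁ : Vec m ℂ} (hin : D.In x₁ y₁)
    (hy : y₁ ≠ 0) (hE : ∀ i j, D.swap.E x₁ i j = 0) {ε : ℝ} (hε : 0 < ε) :
    ∃ y, ‖y - y₁‖ < ε ∧ D.In x₁ y ∧ Indep y₁ y := by
  have hD' := hD.swap
  have hin' : D.swap.In y₁ x₁ := (D.swap_In x₁ y₁).2 hin
  suffices h : ∃ y, ‖y - y₁‖ < ε ∧ D.swap.In y x₁ ∧ Indep y₁ y by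
    obtain ⟨y, h1, h2, h3⟩ := h
    exact ⟨y, h1, (D.swap_In x₁ y).1 h2, h3⟩
  generalize D.swap = D' at *
  obtain ⟨k, hk⟩ := Function.ne_iff.1 hy
  by_cases hcase : ∃ w : Vec m ℂ, Indep y₁ (pv (D'.row x₁) w)
  · obtain ⟨w, hw⟩ := hcase
    set u := pv (D'.row x₁) w with hu
    -- `S` vanishes
    have hS : ∀ j, D'.S w y₁ x₁ j = 0 := by
      have h1 := fun i j => hD'.key hin' w i j
      simp only [hE, mul_zero] at h1
      have h2 : D'.S w y₁ x₁ k = 0 := by
        have := h1 k k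
        have h3 : y₁ k * D'.S w y₁ x₁ k = 0 := by linear_combination -(1 / 2) * this
        exact (mul_eq_zero.1 h3).resolve_left hk
      intro j
      have := h1 k j
      rw [h2, mul_zero, add_zero] at this
      exact (mul_eq_zero.1 this.symm).resolve_left hk
    obtain ⟨i, j, hij⟩ := hw
    have h4 : ∀ l, D'.B u u x₁ x₁ * y₁ l - 2 * D'.B y₁ u x₁ x₁ * u l = 0 := hS
    have h5 : D'.B u u x₁ x₁ = 0 := by
      have h6 : D'.B u u x₁ x₁ * (y₁ i * u j - y₁ j * u i) = 0 := by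
        linear_combination u j * h4 i - u i * h4 j
      refine (mul_eq_zero.1 h6).resolve_right fun h => hij ?_
      linear_combination h
    have h7 : D'.B y₁ u x₁ x₁ = 0 := by
      have h8 : D'.B y₁ u x₁ x₁ * (y₁ i * u j - y₁ j * u i) = 0 := by
        linear_combination (1 / 2) * (y₁ j * h4 i - y₁ i * h4 j)
      refine (mul_eq_zero.1 h8).resolve_right fun h => hij ?_
      linear_combination h
    exact near_of_iso hD' hin' (fun l => D'.A_pv l w x₁) ⟨i, j, hij⟩ h5 h7 hε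
  · -- all the minors vanish
    have hr : ∀ i, D'.row x₁ i ⬝ᵥ y₁ = 0 := fun i => by rw [← Dat.A_eq_dot]; exact hin'.1 i
    have hπ₀ : ∀ i j, plu (D'.row x₁) (Pi.single i 1) (Pi.single j 1) = 0 := by
      intro i j
      have h1 := Dat.plu_single (D'.row x₁) (Pi.single k 1) y₁ hr i j
      rw [single_one_dotProduct] at h1
      have h2 : y₁ i * pv (D'.row x₁) (Pi.single k 1) j - y₁ j * pv (D'.row x₁) (Pi.single k 1) i = 0 := by
        by_contra hne
        exact hcase ⟨Pi.single k 1, i, j, fun h => hne (by rw [h, sub_self])⟩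
      rw [h2] at h1
      exact (mul_eq_zero.1 h1).resolve_right hk
    have hπ₁ : ∀ i, pv (D'.row x₁) (Pi.single i 1) = 0 := fun i => funext fun j => hπ₀ i j
    have hπ₂ : ∀ w, pv (D'.row x₁) w = 0 := by
      intro w
      funext j
      have h1 : pv (D'.row x₁) w j = -(w ⬝ᵥ pv (D'.row x₁) (Pi.single j 1)) := by
        rw [dot_pv, ← plu_antisymm]
        rfl
      rw [h1, hπ₁, dotProduct_zero, neg_zero]
      rfl
    have hπ : ∀ w ξ : Vec m ℂ, plu (D'.row x₁) w ξ = 0 := by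
      intro w ξ
      rw [← dot_pv, hπ₂, dotProduct_zero]
    classical
    let L : Vec m ℂ →ₗ[ℂ] (Fin m → ℂ) :=
      { toFun := fun y i => D'.A i y x₁
        map_add' := fun y y' => by
          funext i
          exact D'.A_add_left i y y' x₁
        map_smul' := fun c y => by
          funext i
          exact D'.A_smul_left i y x₁ c }
    have hdim := three_le_finrank_ker hπ L (fun y i => rfl)
    have hA : ∀ z : LinearMap.ker L, ∀ i, D'.A i (z : Vec m ℂ) x₁ = 0 := fun z i =>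
      congrFun (LinearMap.mem_ker.1 z.2) i
    have hy1 : y₁ ∈ LinearMap.ker L := LinearMap.mem_ker.2 (funext fun i => hin'.1 i)
    have hy1' : (⟨y₁, hy1⟩ : LinearMap.ker L) ≠ 0 := fun h => hy (congrArg Subtype.val h)
    obtain ⟨a, hab⟩ := exists_linearIndependent_pair_of_one_lt_finrank (R := ℂ) (by omega) hy1'
    obtain ⟨b, hb⟩ := exists_linearIndependent_cons_of_lt_finrank (n := 2) hab (by omega)
    refine near_of_three hD' hin' (hA a) (hA b) (fun r s t h => ?_) hε
    have h1 := (Fintype.linearIndependent_iff.1 hb) ![t, r, s] (by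
      rw [Fin.sum_univ_three]
      have e : t • b + r • (⟨y₁, hy1⟩ : LinearMap.ker L) + s • a = 0 := by
        apply Subtype.ext
        change t • (b : Vec m ℂ) + r • y₁ + s • (a : Vec m ℂ) = 0
        rw [← h]
        abel
      exact e)
    exact ⟨by simpa using h1 1, by simpa using h1 2, by simpa using h1 0⟩

end Pool.Agent.MP_1209e6_cy
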