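import Pool.Agent.Lib_MP_1209e6_cy.Thin

/-!
PIECE [XTU] (MP_1209e6_ag).  Unions of thin sets; finitely many lines.
-/

open MvPolynomial

namespace Pool.Agent.MP_1209e6_cy

variable {N : ℕ} {K : Type*} [Field K]

/-- contained in a finite union of lines through the origin -/
def FinLines (S : Set (Fin N → K)) : Prop := ∃ T : Finset (Fin N → K), ∀ x ∈ S, ∃ t ∈ T, ∃ c : K, x = c • t

theorem FinLines.mono {S T : Set (Fin N → K)} (h : S ⊆ T) (hT : FinLines T) : FinLines S := by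
  obtain ⟨F, hF⟩ := hT
  exact ⟨F, fun x hx => hF x (h hx)⟩

theorem FinLines.union {S T : Set (Fin N → K)} (hS : FinLines S) (hT : FinLines T) :
    FinLines (S ∪ T) := by
  classical
  obtain ⟨F, hF⟩ := hS
  obtain ⟨G, hG⟩ := hT
  refine ⟨F ∪ G, ?_⟩
  rintro x (hx | hx)
  · obtain ⟨t, ht, c, hc⟩ := hF x hx
    exact ⟨t, Finset.mem_union_left _ ht, c, hc⟩
  · obtain ⟨t, ht, c, hc⟩ := hG x hx
    exact ⟨t, Finset.mem_union_right _ ht, c, hc⟩

/-- all but finitely many members of a pencil are coprime to a given polynomial -/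
theorem xtu_good [Infinite K] {A B H : MvPolynomial (Fin N) K}
    (hAB : ∀ q, Prime q → q ∣ A → ¬ q ∣ B) (hH : H ≠ 0) :
    ∃ s : K, ∀ q, Irreducible q → q ∣ H → ¬ q ∣ A + C s * B := by
  classical
  have hfin : (⋃ q ∈ (UniqueFactorizationMonoid.factors H).toFinset,
      {s : K | q ∣ A + C s * B}).Finite := by
    refine Set.Finite.biUnion (Finset.finite_toSet _) fun q hq => ?_
    have hqp : Prime q :=
      UniqueFactorizationMonoid.prime_of_factor q (Multiset.mem_toFinset.1 hq)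
    refine Set.Subsingleton.finite fun s hs t ht => ?_
    have hs' : q ∣ A + C s * B := hs
    have ht' : q ∣ A + C t * B := ht
    by_contra hst
    have h1 : q ∣ C (s - t) * B := by
      have h2 := dvd_sub hs' ht'
      have e : A + C s * B - (A + C t * B) = C (s - t) * B := by
        rw [C_sub]
        ring
      rwa [e] at h2
    have hu : IsUnit (C (s - t) : MvPolynomial (Fin N) K) :=
      (isUnit_iff_ne_zero.2 (sub_ne_zero.2 hst)).map C
    have h3 : q ∣ B := (hu.dvd_mul_left).1 h1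
    have h4 : q ∣ A := by
      have h5 := dvd_sub hs' (h3.mul_left (C s))
      rwa [add_sub_cancel_right] at h5
    exact hAB q hqp h4 h3
  obtain ⟨s, hs⟩ := hfin.infinite_compl.nonempty
  refine ⟨s, fun q hq hqH hqs => hs ?_⟩
  obtain ⟨q', hq', has⟩ := UniqueFactorizationMonoid.exists_mem_factors_of_dvd hH hq hqH
  rw [Set.mem_iUnion₂]
  exact ⟨q', Multiset.mem_toFinset.2 hq', has.symm.dvd.trans hqs⟩

/-- the forms of a nonempty thin set have positive degrees -/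
theorem xtu_pos {F G : MvPolynomial (Fin N) K} {d e : ℕ} (hF : F.IsHomogeneous d)
    (hG : G.IsHomogeneous e) (hr : IsRelPrime F G) {y : Fin N → K} (hy : aeval y F = 0 ∧ aeval y G = 0) :
    F ≠ 0 ∧ 0 < d ∧ 0 < e := by
  have hu : ∀ P : MvPolynomial (Fin N) K, aeval y P = 0 → ¬ IsUnit P := by
    intro P hP h
    have h1 := h.map (aeval y : MvPolynomial (Fin N) K →ₐ[K] K)
    rw [hP] at h1
    exact not_isUnit_zero h1
  have hF0 : F ≠ 0 := by
    rintro rfl
    exact hu G hy.2 (hr (dvd_zero G) dvd_rfl)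
  have hG0 : G ≠ 0 := by
    rintro rfl
    exact hu F hy.1 (hr dvd_rfl (dvd_zero F))
  have hdeg : ∀ (P : MvPolynomial (Fin N) K) (n : ℕ), P.IsHomogeneous n → aeval y P = 0 → P ≠ 0 →
      0 < n := by
    intro P n hP hP0 hne
    rcases Nat.eq_zero_or_pos n with h0 | h0
    · exfalso
      subst h0
      have h1 : P.totalDegree = 0 := Nat.le_zero.1 hP.totalDegree_le
      rw [totalDegree_eq_zero_iff_eq_C] at h1
      have h2 : P.coeff 0 ≠ 0 := by
        intro h3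
        rw [h3, C_0] at h1
        exact hne h1
      refine hu P hP0 ?_
      rw [h1]
      exact (isUnit_iff_ne_zero.2 h2).map C
    · exact h0
  exact ⟨hF0, hdeg F d hF hy.1 hF0, hdeg G e hG hy.2 hG0⟩

/-- PIECE [XTU].  The union of two sets of codimension at least two.

Proof.  Let `(F₁, G₁)`, `(F₂, G₂)` be the coprime forms.  We may assume that all four are nonzero and of positive
degree, or treat the degenerate cases directly (if a form is a unit then the set is empty).  Put `F = F₁ F₂` and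
look for `G = (G₁^a + s F₁^b)(G₂^c + t F₂^d)`, where `a deg G₁ = b deg F₁`, `c deg G₂ = d deg F₂` (positive
exponents: `a = deg F₁, b = deg G₁`, ...), so that the factors are forms.  For a prime factor `p` of `F₁` (not of
`G₁`) `p ∤ G₁^a + s F₁^b` for all `s`.  For a prime factor `p` of `F₂` at most one value of `s` gives
`p ∣ G₁^a + s F₁^b` (two values give `p ∣ F₁` and `p ∣ G₁`); `F₂` has finitely many prime factors, `K` is
infinite: choose `s`.  Similarly `t`. -/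
theorem Thin.union [Infinite K] {S T : Set (Fin N → K)} (hS : Thin S) (hT : Thin T) : Thin (S ∪ T) := by
  rcases S.eq_empty_or_nonempty with rfl | ⟨y₁, hy₁⟩
  · rwa [Set.empty_union]
  rcases T.eq_empty_or_nonempty with rfl | ⟨y₂, hy₂⟩
  · rwa [Set.union_empty]
  obtain ⟨F₁, G₁, ⟨d₁, hF₁⟩, ⟨e₁, hG₁⟩, hr₁, hz₁⟩ := hS
  obtain ⟨F₂, G₂, ⟨d₂, hF₂⟩, ⟨e₂, hG₂⟩, hr₂, hz₂⟩ := hT
  obtain ⟨hF₁0, hd₁, he₁⟩ := xtu_pos hF₁ hG₁ hr₁ (hz₁ y₁ hy₁)
  obtain ⟨hF₂0, hd₂, he₂⟩ := xtu_pos hF₂ hG₂ hr₂ (hz₂ y₂ hy₂)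
  have hco : ∀ (F G : MvPolynomial (Fin N) K) (d e : ℕ), IsRelPrime F G → ∀ q, Prime q →
      q ∣ G ^ d → ¬ q ∣ F ^ e := by
    intro F G d e hr q hq h1 h2
    exact hq.not_isUnit (hr (hq.dvd_of_dvd_pow h2) (hq.dvd_of_dvd_pow h1))
  obtain ⟨s, hs⟩ := xtu_good (hco F₁ G₁ d₁ e₁ hr₁) hF₂0
  obtain ⟨t, ht⟩ := xtu_good (hco F₂ G₂ d₂ e₂ hr₂) hF₁0
  refine ⟨F₁ * F₂, (G₁ ^ d₁ + C s * F₁ ^ e₁) * (G₂ ^ d₂ + C t * F₂ ^ e₂),
    ⟨d₁ + d₂, hF₁.mul hF₂⟩, ⟨e₁ * d₁ + e₂ * d₂, ?_⟩, ?_, ?_⟩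
  · have h1 : (C s * F₁ ^ e₁).IsHomogeneous (e₁ * d₁) := by
      rw [mul_comm e₁]
      exact (hF₁.pow e₁).C_mul s
    have h2 : (C t * F₂ ^ e₂).IsHomogeneous (e₂ * d₂) := by
      rw [mul_comm e₂]
      exact (hF₂.pow e₂).C_mul t
    exact ((hG₁.pow d₁).add h1).mul ((hG₂.pow d₂).add h2)
  · intro p hp1 hp2
    by_contra hu
    have hp0 : p ≠ 0 := by
      rintro rfl
      exact mul_ne_zero hF₁0 hF₂0 (zero_dvd_iff.1 hp1)
    obtain ⟨q, hq, hqp⟩ := WfDvdMonoid.exists_irreducible_factor hu hp0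
    have hqP : Prime q := hq.prime
    have hself : ∀ (F G : MvPolynomial (Fin N) K) (u : K) (d e : ℕ), IsRelPrime F G → 0 < e →
        q ∣ F → ¬ q ∣ G ^ d + C u * F ^ e := by
      intro F G u d e hr he h1 h2
      have h3 : q ∣ C u * F ^ e := (dvd_pow h1 he.ne').mul_left _
      exact hqP.not_isUnit (hr h1 (hqP.dvd_of_dvd_pow ((dvd_add_left h3).1 h2)))
    rcases hqP.dvd_or_dvd (hqp.trans hp2) with h2 | h2
    · rcases hqP.dvd_or_dvd (hqp.trans hp1) with h1 | h1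
      · exact hself F₁ G₁ s d₁ e₁ hr₁ he₁ h1 h2
      · exact hs q hq h1 h2
    · rcases hqP.dvd_or_dvd (hqp.trans hp1) with h1 | h1
      · exact ht q hq h1 h2
      · exact hself F₂ G₂ t d₂ e₂ hr₂ he₂ h1 h2
  · rintro y (hy | hy)
    · obtain ⟨h1, h2⟩ := hz₁ y hy
      rw [map_mul, map_mul, map_add, map_mul, map_pow, map_pow, h1, h2, zero_pow hd₁.ne',
        zero_pow he₁.ne', mul_zero, add_zero, zero_mul, zero_mul]
      exact ⟨rfl, rfl⟩
    · obtain ⟨h1, h2⟩ := hz₂ y hy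
      rw [map_mul, map_mul, map_add (aeval y) (G₂ ^ d₂), map_mul (aeval y) (C t), map_pow,
        map_pow, h1, h2, zero_pow hd₂.ne', zero_pow he₂.ne', mul_zero, mul_zero, add_zero, mul_zero]
      exact ⟨rfl, rfl⟩

theorem Thin.biUnion [Infinite K] {ι : Type*} (F : Finset ι) (S : ι → Set (Fin N → K))
    (h : ∀ i ∈ F, Thin (S i)) : Thin (⋃ i ∈ F, S i) := by
  classical
  induction F using Finset.induction_on with
  | empty =>
    refine ⟨1, 1, ⟨0, isHomogeneous_one _ _⟩, ⟨0, isHomogeneous_one _ _⟩, isRelPrime_one_left, ?_⟩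
    intro y hy
    simp at hy
  | insert a F _ ih =>
    have h1 : (⋃ i ∈ insert a F, S i) = S a ∪ ⋃ i ∈ F, S i := by
      simp
    rw [h1]
    exact (h a (Finset.mem_insert_self _ _)).union
      (ih fun i hi => h i (Finset.mem_insert_of_mem hi))

end Pool.Agent.MP_1209e6_cy
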