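import Pool.Agent.Lib_MP_1209e6_cy.RootC
import Pool.Agent.Lib_MP_1209e6_cy.RootD
import Pool.Agent.Lib_MP_1209e6_cy.ThinU

/-!
PIECE [XDN] (MP_1209e6_ag).  Dense subsets of `X`.
-/

open Matrix MvPolynomial Filter Topology

namespace Pool.Agent.MP_1209e6_cy

variable {m : ℕ}

/-- near a point off a line there are no points of the line -/
private theorem xdn_lines {N : ℕ} {S : Set (Fin N → ℂ)} (hS : FinLines S) (x₁ : Fin N → ℂ) :
    ∀ᶠ x in 𝓝 x₁, x ∈ S → ∃ t : Fin N → ℂ, (∃ c : ℂ, x = c • t) ∧ ∃ c : ℂ, x₁ = c • t := by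
  obtain ⟨T, hT⟩ := hS
  have h1 : ∀ t ∈ T, ∀ᶠ x in 𝓝 x₁, (∃ c : ℂ, x = c • t) → ∃ c : ℂ, x₁ = c • t := by
    intro t _
    by_cases h : ∃ c : ℂ, x₁ = c • t
    · exact Filter.Eventually.of_forall fun x _ => h
    · have hcl : IsClosed ((Submodule.span ℂ {t} : Submodule ℂ (Fin N → ℂ)) :
          Set (Fin N → ℂ)) := Submodule.closed_of_finiteDimensional _
      have hx : x₁ ∉ ((Submodule.span ℂ {t} : Submodule ℂ (Fin N → ℂ)) : Set (Fin N → ℂ)) := by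
        intro h2
        obtain ⟨c, hc⟩ := Submodule.mem_span_singleton.1 h2
        exact h ⟨c, hc.symm⟩
      filter_upwards [hcl.isOpen_compl.mem_nhds hx] with x hx2 hx3
      obtain ⟨c, hc⟩ := hx3
      exact absurd (Submodule.mem_span_singleton.2 ⟨c, hc.symm⟩) hx2
  have h2 := (Filter.eventually_all_finset T).2 h1
  filter_upwards [h2] with x hx hxS
  obtain ⟨t, ht, c, hc⟩ := hT x hxS
  exact ⟨t, ⟨c, hc⟩, hx t ht ⟨c, hc⟩⟩

/-- a nonzero polynomial does not vanish on a neighbourhood -/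
private theorem xdn_freq {N : ℕ} {H : MvPolynomial (Fin N) ℂ} (hH : H ≠ 0) (x₁ : Fin N → ℂ) :
    ∃ᶠ x in 𝓝 x₁, aeval x H ≠ 0 := by
  obtain ⟨x₂, hx₂⟩ : ∃ x₂ : Fin N → ℂ, aeval x₂ H ≠ 0 := by
    by_contra hcon
    push Not at hcon
    refine hH (MvPolynomial.funext fun x => ?_)
    have h1 := hcon x
    rw [MvPolynomial.aeval_eq_eval] at h1
    rw [map_zero]
    exact h1
  intro hev
  obtain ⟨f, hf⟩ : ∃ f : Polynomial ℂ, ∀ t : ℂ,
      f.eval t = aeval (fun i => x₁ i + t * (x₂ i - x₁ i)) H := by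
    refine ⟨aeval (fun i => Polynomial.C (x₁ i) + Polynomial.X * Polynomial.C (x₂ i - x₁ i)) H,
      fun t => ?_⟩
    have h1 : ∀ q : MvPolynomial (Fin N) ℂ, Polynomial.eval t (aeval (fun i =>
        Polynomial.C (x₁ i) + Polynomial.X * Polynomial.C (x₂ i - x₁ i)) q) =
        aeval (fun i => x₁ i + t * (x₂ i - x₁ i)) q := by
      intro q
      induction q using MvPolynomial.induction_on with
      | C a => simp
      | add p q hp hq => rw [map_add, map_add, Polynomial.eval_add, hp, hq]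
      | mul_X p i hp =>
        rw [map_mul, map_mul, Polynomial.eval_mul, hp, aeval_X, aeval_X, Polynomial.eval_add,
          Polynomial.eval_mul, Polynomial.eval_C, Polynomial.eval_C, Polynomial.eval_X]
    exact h1 H
  have hf0 : f ≠ 0 := by
    intro h0
    apply hx₂
    have h1 := hf 1
    rw [h0, Polynomial.eval_zero] at h1
    have h2 : (fun i => x₁ i + 1 * (x₂ i - x₁ i)) = x₂ := by
      funext i
      ring
    rw [h2] at h1
    exact h1.symm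
  have hfin : Set.Finite {t : ℂ | f.IsRoot t} := Polynomial.finite_setOfPred_isRoot hf0
  have hc : Continuous (fun t : ℂ => fun i => x₁ i + t * (x₂ i - x₁ i)) :=
    continuous_pi fun i => continuous_const.add (continuous_id.mul continuous_const)
  have ht : Tendsto (fun t : ℂ => fun i => x₁ i + t * (x₂ i - x₁ i)) (𝓝 0) (𝓝 x₁) := by
    have h1 := hc.tendsto 0
    have h2 : (fun i => x₁ i + 0 * (x₂ i - x₁ i)) = x₁ := by
      funext i
      ring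
    rw [h2] at h1
    exact h1
  have hev' : ∀ᶠ t in 𝓝 (0 : ℂ), f.eval t = 0 := by
    filter_upwards [ht.eventually hev] with t h1
    rw [hf]
    exact not_not.1 h1
  have hcl : IsClosed ({t : ℂ | f.IsRoot t} \ {0}) := (hfin.subset Set.sdiff_subset).isClosed
  have h3 : ∀ᶠ t in 𝓝 (0 : ℂ), t ∉ ({t : ℂ | f.IsRoot t} \ {0}) :=
    hcl.isOpen_compl.mem_nhds (fun h => h.2 rfl)
  have h4 : ∀ᶠ t in 𝓝[≠] (0 : ℂ), False := by
    filter_upwards [nhdsWithin_le_nhds hev', nhdsWithin_le_nhds h3, self_mem_nhdsWithin] with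
      t g1 g2 g3
    exact g2 ⟨g1, g3⟩
  exact (h4.exists).elim fun _ h => h

/-- PIECE [XDN].  If both exceptional sets consist of finitely many lines, then the points `(x, y)` of `X` with
`H(x) ≠ 0` are dense in `X` (`H` a nonzero polynomial), in the form: a polynomial vanishing there vanishes on `X`.

Proof.  Let `Z` be the closure (for the usual topology) of the set `Z₀` of the points `(x, y)` of `X`, `x, y ≠ 0`,
`H(x) ≠ 0`; `p` vanishes on `Z`.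
(i) `(x₁, y₁) ∈ X` with `E'(x₁) ≠ 0` is in `Z`: there are `x → x₁` with `H(x) ≠ 0` (a nonzero polynomial does not vanish
on a nonempty open set) and `exists_near` gives `y → y₁`.
(ii) `E'(x₁) = 0`, `E(y₁) ≠ 0`: choose `i, η` with `A_i(x₁, η) ≠ 0` and let `y = y₁ + t η`, `t → 0`; `exists_near` for
`D.swap` gives `x_t → x₁` with `(x_t, y_t) ∈ X`.  For small `t ≠ 0`, `E'(x_t) ≠ 0`: otherwise (pigeonhole) for a sequence
`t → 0` all `x_t` are on one line `ℂ τ`, which is closed, so `x₁` is on it, `x_t` is a multiple of `x₁` (and nonzero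
since `x_t → x₁ ≠ 0`), and `0 = A_i(x₁, y_t) = t A_i(x₁, η)`.  By (i) `(x_t, y_t) ∈ Z`, so `(x₁, y₁) ∈ Z`.
(iii) `E'(x₁) = 0`, `E(y₁) = 0`: `exists_near_fibre` gives `y_n → y₁` with `(x₁, y_n) ∈ X` and `y_n` independent of `y₁`.
For almost all `n`, `E(y_n) ≠ 0` (otherwise infinitely many `y_n` are on one line `ℂ τ`, and then so is `y₁`).  By (ii)
`(x₁, y_n) ∈ Z`. -/
theorem eq_zero_of_dense {D : Dat m ℂ} (hD : D.Symm)
    (hFx : FinLines {x : Vec m ℂ | ∀ i j, D.swap.E x i j = 0})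
    (hFy : FinLines {y : Vec m ℂ | ∀ i j, D.E y i j = 0})
    (hA : ∀ x : Vec m ℂ, x ≠ 0 → ∃ i η, D.A i x η ≠ 0)
    {p : MvPolynomial (Fin (m + 2) ⊕ Fin (m + 2)) ℂ} {H : MvPolynomial (Fin (m + 2)) ℂ} (hH : H ≠ 0)
    (h : ∀ x y : Vec m ℂ, x ≠ 0 → y ≠ 0 → D.In x y → aeval x H ≠ 0 → aeval (Sum.elim x y) p = 0)
    {x y : Vec m ℂ} (hx : x ≠ 0) (hy : y ≠ 0) (hin : D.In x y) : aeval (Sum.elim x y) p = 0 := by
  have hloc : ∀ x₁ y₁ : Vec m ℂ, x₁ ≠ 0 → y₁ ≠ 0 → aeval (Sum.elim x₁ y₁) p ≠ 0 →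
      ∃ δ > 0, ∀ x y : Vec m ℂ, ‖x - x₁‖ < δ → ‖y - y₁‖ < δ →
        x ≠ 0 ∧ y ≠ 0 ∧ aeval (Sum.elim x y) p ≠ 0 := by
    intro x₁ y₁ hx₁ hy₁ hne
    have hcont : Continuous (fun z : Vec m ℂ × Vec m ℂ => aeval (Sum.elim z.1 z.2) p) := by
      have h1 : Continuous (fun z : Vec m ℂ × Vec m ℂ =>
          (Sum.elim z.1 z.2 : Fin (m + 2) ⊕ Fin (m + 2) → ℂ)) := by
        refine continuous_pi fun i => ?_
        rcases i with i | i
        · exact (continuous_apply i).comp continuous_fst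
        · exact (continuous_apply i).comp continuous_snd
      have h2 : (fun z : Vec m ℂ × Vec m ℂ => aeval (Sum.elim z.1 z.2) p) =
          fun z => MvPolynomial.eval (Sum.elim z.1 z.2) p := by
        funext z
        rw [MvPolynomial.aeval_eq_eval]
      rw [h2]
      exact (MvPolynomial.continuous_eval p).comp h1
    have g1 : ∀ᶠ z in 𝓝 (x₁, y₁), aeval (Sum.elim z.1 z.2) p ≠ 0 :=
      (hcont.tendsto (x₁, y₁)).eventually_ne hne
    have g2 : ∀ᶠ z in 𝓝 (x₁, y₁), z.1 ≠ 0 := (continuous_fst.tendsto (x₁, y₁)).eventually_ne hx₁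
    have g3 : ∀ᶠ z in 𝓝 (x₁, y₁), z.2 ≠ 0 := (continuous_snd.tendsto (x₁, y₁)).eventually_ne hy₁
    obtain ⟨δ, hδ, hδ'⟩ := Metric.eventually_nhds_iff.1 ((g2.and g3).and g1)
    refine ⟨δ, hδ, fun x y hx hy => ?_⟩
    have h4 := hδ' (y := (x, y)) (by
      rw [Prod.dist_eq, max_lt_iff, dist_eq_norm, dist_eq_norm]
      exact ⟨hx, hy⟩)
    exact ⟨h4.1.1, h4.1.2, h4.2⟩
  have h1 : ∀ x₁ y₁ : Vec m ℂ, x₁ ≠ 0 → y₁ ≠ 0 → D.In x₁ y₁ →
      (∃ i j, D.swap.E x₁ i j ≠ 0) → aeval (Sum.elim x₁ y₁) p = 0 := by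
    intro x₁ y₁ hx₁ hy₁ hin₁ hE
    by_contra hne
    obtain ⟨δ, hδ, hδ'⟩ := hloc x₁ y₁ hx₁ hy₁ hne
    have g1 := exists_near hD hin₁ hE hδ
    have g2 : ∀ᶠ x in 𝓝 x₁, ‖x - x₁‖ < δ := by
      refine Metric.eventually_nhds_iff.2 ⟨δ, hδ, fun z hz => ?_⟩
      rw [← dist_eq_norm]
      exact hz
    obtain ⟨x, hx2, hx3, hx4⟩ := ((xdn_freq hH x₁).and_eventually (g1.and g2)).exists
    obtain ⟨y, hy2, hy3⟩ := hx3
    obtain ⟨e1, e2, e3⟩ := hδ' x y hx4 hy2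
    exact e3 (h x y e1 e2 hy3 hx2)
  have h2 : ∀ x₁ y₁ : Vec m ℂ, x₁ ≠ 0 → y₁ ≠ 0 → D.In x₁ y₁ →
      (∃ i j, D.E y₁ i j ≠ 0) → aeval (Sum.elim x₁ y₁) p = 0 := by
    intro x₁ y₁ hx₁ hy₁ hin₁ hE
    by_contra hne
    obtain ⟨δ, hδ, hδ'⟩ := hloc x₁ y₁ hx₁ hy₁ hne
    obtain ⟨i, η, hη⟩ := hA x₁ hx₁
    obtain ⟨ε₁, hε₁, hlines⟩ := Metric.eventually_nhds_iff.1 (xdn_lines hFx x₁)
    have hin₂ : D.swap.In y₁ x₁ := (Dat.swap_In D x₁ y₁).2 hin₁
    have g1 := exists_near (D := D.swap) hD.swap hin₂ hE (ε := min δ ε₁) (lt_min hδ hε₁)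
    have hc : Continuous (fun t : ℂ => y₁ + t • η) :=
      continuous_const.add (continuous_id.smul continuous_const)
    have ht : Tendsto (fun t : ℂ => y₁ + t • η) (𝓝 0) (𝓝 y₁) := by
      have h3 := hc.tendsto 0
      rw [zero_smul, add_zero] at h3
      exact h3
    have g2 : ∀ᶠ y in 𝓝 y₁, ‖y - y₁‖ < δ := by
      refine Metric.eventually_nhds_iff.2 ⟨δ, hδ, fun z hz => ?_⟩
      rw [← dist_eq_norm]
      exact hz
    have g3 : ∀ᶠ t in 𝓝[≠] (0 : ℂ), t ≠ 0 ∧ ‖(y₁ + t • η) - y₁‖ < δ ∧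
        ∃ x, ‖x - x₁‖ < min δ ε₁ ∧ D.swap.In (y₁ + t • η) x := by
      filter_upwards [nhdsWithin_le_nhds (ht.eventually g1),
        nhdsWithin_le_nhds (ht.eventually g2), self_mem_nhdsWithin] with t f1 f2 f3
      exact ⟨f3, f2, f1⟩
    obtain ⟨t, ht0, hty, x, hx2, hx3⟩ := g3.exists
    obtain ⟨e1, e2, e3⟩ := hδ' x (y₁ + t • η) (lt_of_lt_of_le hx2 (min_le_left _ _)) hty
    have hin3 : D.In x (y₁ + t • η) := (Dat.swap_In D x (y₁ + t • η)).1 hx3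
    by_cases hEx : ∃ i j, D.swap.E x i j ≠ 0
    · exact e3 (h1 x _ e1 e2 hin3 hEx)
    · push Not at hEx
      obtain ⟨τ, ⟨c, hc⟩, ⟨c₁, hc₁⟩⟩ := hlines (y := x) (by
        rw [dist_eq_norm]
        exact lt_of_lt_of_le hx2 (min_le_right _ _)) hEx
      have hc0 : c ≠ 0 := by
        rintro rfl
        rw [zero_smul] at hc
        exact e1 hc
      have hx₁' : x₁ = (c₁ / c) • x := by
        rw [hc, smul_smul, div_mul_cancel₀ _ hc0]
        exact hc₁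
      have h4 : D.A i x₁ (y₁ + t • η) = 0 := by
        rw [hx₁', Dat.A_smul_left, hin3.1 i, mul_zero]
      rw [Dat.A_add_right, Dat.A_smul_right, hin₁.1 i, zero_add] at h4
      exact hη ((mul_eq_zero.1 h4).resolve_left ht0)
  by_cases hE' : ∃ i j, D.swap.E x i j ≠ 0
  · exact h1 x y hx hy hin hE'
  push Not at hE'
  by_cases hE : ∃ i j, D.E y i j ≠ 0
  · exact h2 x y hx hy hin hE
  push Not at hE
  by_contra hne
  obtain ⟨δ, hδ, hδ'⟩ := hloc x y hx hy hne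
  obtain ⟨ε₁, hε₁, hlines⟩ := Metric.eventually_nhds_iff.1 (xdn_lines hFy y)
  obtain ⟨y', hy1, hy2, hy3⟩ := exists_near_fibre hD hin hy hE' (ε := min δ ε₁) (lt_min hδ hε₁)
  obtain ⟨e1, e2, e3⟩ := hδ' x y' (by rw [sub_self, norm_zero]; exact hδ)
    (lt_of_lt_of_le hy1 (min_le_left _ _))
  by_cases hEy : ∃ i j, D.E y' i j ≠ 0
  · exact e3 (h2 x y' hx e2 hy2 hEy)
  · push Not at hEy
    obtain ⟨τ, ⟨c, hc⟩, ⟨c₁, hc₁⟩⟩ := hlines (y := y') (by
      rw [dist_eq_norm]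
      exact lt_of_lt_of_le hy1 (min_le_right _ _)) hEy
    obtain ⟨i, j, hij⟩ := hy3
    apply hij
    rw [hc, hc₁]
    simp only [Pi.smul_apply, smul_eq_mul]
    ring

end Pool.Agent.MP_1209e6_cy
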