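import Pool.Agent.Lib_MP_1209e6_cy.ExCases
import Pool.Agent.Lib_MP_1209e6_cy.ThinU

/-!
PIECE [XFD] (MP_1209e6_ag).  Case 0 for the first projection.

`B_0 = -X_1 + 2 X_2 + X_3`, `B_1 = -2 X_0 + X_2 - X_3`, `B_2 = -X_0 + X_1 - 2 X_3`, `B_3 = X_0 + 2 X_1 - X_2`
(`B_l = ∑ j, be j l * X j`).
-/

open Matrix

namespace Pool.Agent.MP_1209e6_cy

/-- the eigenvectors of the first kind -/
private noncomputable def xfdA (ζ : ℂ) : Fin 4 → ℂ := ![19 - 16 / ζ, -3 - 20 / ζ, -3 + 20 / ζ, 19 + 16 / ζ]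

/-- the eigenvectors of the second kind -/
private noncomputable def xfdB (ζ : ℂ) : Fin 4 → ℂ := ![-3 / ζ, 3 + 1 / ζ, 3 - 1 / ζ, 3 / ζ]

private theorem xfd_key {X : Fin 4 → ℂ} {ζ s : ℂ} (hs : s ^ 2 = 2 / 9)
    (h0 : -X 1 + 2 * X 2 + X 3 = -ζ * X 0) (h1 : -2 * X 0 + X 2 - X 3 = 3 * ζ * X 1)
    (h2 : -X 0 + X 1 - 2 * X 3 = -3 * ζ * X 2) (h3 : X 0 + 2 * X 1 - X 2 = ζ * X 3) :
    (∃ c : ℂ, X = c • xfdA (2 * Complex.I)) ∨ (∃ c : ℂ, X = c • xfdA (-(2 * Complex.I))) ∨
    (∃ c : ℂ, X = c • xfdB s) ∨ (∃ c : ℂ, X = c • xfdB (-s)) := by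
  have e1 : ζ * (X 0 - X 3) = -((X 0 + X 3) + (X 1 + X 2)) := by linear_combination h0 + h3
  have e2 : 3 * ζ * (X 1 - X 2) = -3 * (X 0 + X 3) + (X 1 + X 2) := by linear_combination -h1 - h2
  have e3 : ζ * (X 0 + X 3) = (X 0 - X 3) + 3 * (X 1 - X 2) := by linear_combination h0 - h3
  have e4 : 3 * ζ * (X 1 + X 2) = -(X 0 - X 3) - (X 1 - X 2) := by linear_combination -h1 + h2
  have e5 : (ζ ^ 2 + 4) * (X 0 + X 3) = 0 := by
    linear_combination ζ * e3 + e1 + e2
  have e6 : (ζ ^ 2 - 2 / 9) * (X 1 + X 2) = 2 / 3 * (X 0 + X 3) := by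
    linear_combination (1 / 3) * ζ * e4 - (1 / 3) * e1 - (1 / 9) * e2
  by_cases hp : X 0 + X 3 = 0
  · rw [hp, mul_zero] at e6
    rcases mul_eq_zero.1 e6 with h | h
    · have hζ : ζ ≠ 0 := by
        rintro rfl
        norm_num at h
      have hX : ∀ z : ℂ, ζ = z → X = ((X 1 + X 2) / 6) • xfdB z := by
        rintro z rfl
        funext j
        fin_cases j
        · simp only [xfdB, Pi.smul_apply, smul_eq_mul]
          simp
          field_simp
          linear_combination 3 * e1 + (3 * ζ - 3) * hp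
        · simp only [xfdB, Pi.smul_apply, smul_eq_mul]
          simp
          field_simp
          linear_combination e2 - 3 * hp
        · simp only [xfdB, Pi.smul_apply, smul_eq_mul]
          simp
          field_simp
          linear_combination -e2 + 3 * hp
        · simp only [xfdB, Pi.smul_apply, smul_eq_mul]
          simp
          field_simp
          linear_combination -3 * e1 + (3 * ζ + 3) * hp
      have h7 : ζ ^ 2 = s ^ 2 := by rw [hs]; linear_combination h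
      rcases sq_eq_sq_iff_eq_or_eq_neg.1 h7 with h8 | h8
      · exact Or.inr (Or.inr (Or.inl ⟨_, hX _ h8⟩))
      · exact Or.inr (Or.inr (Or.inr ⟨_, hX _ h8⟩))
    · rw [hp] at e3
      rw [h] at e4
      have h9 : X 1 - X 2 = 0 := by linear_combination -(1 / 2) * e3 - (1 / 2) * e4
      have h10 : X 0 - X 3 = 0 := by linear_combination -e3 - 3 * h9
      refine Or.inl ⟨0, ?_⟩
      rw [zero_smul]
      funext j
      fin_cases j
      · show X 0 = 0
        linear_combination (1 / 2) * hp + (1 / 2) * h10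
      · show X 1 = 0
        linear_combination (1 / 2) * h + (1 / 2) * h9
      · show X 2 = 0
        linear_combination (1 / 2) * h - (1 / 2) * h9
      · show X 3 = 0
        linear_combination (1 / 2) * hp - (1 / 2) * h10
  · have h : ζ ^ 2 + 4 = 0 := by
      rcases mul_eq_zero.1 e5 with h | h
      · exact h
      · exact absurd h hp
    have hζ : ζ ≠ 0 := by
      rintro rfl
      norm_num at h
    have e7 : X 1 + X 2 = -(3 / 19) * (X 0 + X 3) := by
      linear_combination -(9 / 38) * e6 + (9 / 38) * (X 1 + X 2) * h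
    have hX : ∀ z : ℂ, ζ = z → X = ((X 0 + X 3) / 38) • xfdA z := by
      rintro z rfl
      funext j
      fin_cases j
      · simp only [xfdA, Pi.smul_apply, smul_eq_mul]
        simp
        field_simp
        linear_combination 19 * e1 - 19 * e7
      · simp only [xfdA, Pi.smul_apply, smul_eq_mul]
        simp
        field_simp
        linear_combination (19 / 3) * e2 + (19 * ζ + 19 / 3) * e7
      · simp only [xfdA, Pi.smul_apply, smul_eq_mul]
        simp
        field_simp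
        linear_combination -(19 / 3) * e2 + (19 * ζ - 19 / 3) * e7
      · simp only [xfdA, Pi.smul_apply, smul_eq_mul]
        simp
        field_simp
        linear_combination -19 * e1 + 19 * e7
    have h7 : ζ ^ 2 = (2 * Complex.I) ^ 2 := by
      rw [mul_pow, Complex.I_sq]
      linear_combination h
    rcases sq_eq_sq_iff_eq_or_eq_neg.1 h7 with h8 | h8
    · exact Or.inl ⟨_, hX _ h8⟩
    · exact Or.inr (Or.inl ⟨_, hX _ h8⟩)

/-- PIECE [XFD].  Case 0, in terms of `X = x^2`.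

Proof.  With `X_0 = p_0 + m_0`, `X_3 = p_0 - m_0`, `X_1 = p_1 + m_1`, `X_2 = p_1 - m_1` the equations
`B_l = ζ d_l X_l` become `ζ m_0 = -(p_0 + p_1)`, `3 ζ m_1 = -3 p_0 + p_1`, `ζ p_0 = m_0 + 3 m_1`,
`3 ζ p_1 = -m_0 - m_1`, whence `(ζ^2 + 4) p_0 = 0` and `(ζ^2 - 2/9) p_1 = (2/3) p_0`.  (`ζ = 0` would give `X = 0`.)
If `p_0 ≠ 0`: `ζ = ± 2 i` and `X` is proportional to `(19 - 16/ζ, -3 - 20/ζ, -3 + 20/ζ, 19 + 16/ζ)`; if `p_0 = 0`:
`ζ^2 = 2/9` and `X` is proportional to `(-3/ζ, 3 + 1/ζ, 3 - 1/ζ, 3/ζ)`. -/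
theorem finLines_case0 : FinLines {X : Fin 4 → ℂ | ∃ ζ : ℂ, ∀ l, ∑ j, be j l * X j = ζ * dd l * X l} := by
  classical
  obtain ⟨s, hs⟩ := IsAlgClosed.exists_pow_nat_eq (2 / 9 : ℂ) (n := 2) (by norm_num)
  refine ⟨{xfdA (2 * Complex.I), xfdA (-(2 * Complex.I)), xfdB s, xfdB (-s)}, ?_⟩
  rintro X ⟨ζ, hX⟩
  have h0 := hX 0
  have h1 := hX 1
  have h2 := hX 2
  have h3 := hX 3
  simp only [Fin.sum_univ_four, be, dd] at h0 h1 h2 h3
  simp at h0 h1 h2 h3
  rcases xfd_key (X := X) (ζ := ζ) hs (by linear_combination h0) (by linear_combination h1)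
    (by linear_combination h2) (by linear_combination h3) with h | h | h | h
  · exact ⟨_, by simp, h⟩
  · exact ⟨_, by simp, h⟩
  · exact ⟨_, by simp, h⟩
  · exact ⟨_, by simp, h⟩

end Pool.Agent.MP_1209e6_cy
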