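import Pool.Agent.Lib_MP_1209e6_cy.ThinU

/-!
PIECE [XFC] (MP_1209e6_ag).  Finitely many lines: zeros of a binary cubic form, linear images.
-/

open Matrix

namespace Pool.Agent.MP_1209e6_cy

/-- PIECE [XFC].  A nonzero binary cubic form has finitely many zeros up to scaling. -/
theorem finLines_cubic (c₀ c₁ c₂ c₃ : ℂ) (h : c₀ ≠ 0 ∨ c₁ ≠ 0 ∨ c₂ ≠ 0 ∨ c₃ ≠ 0) :
    FinLines {v : Fin 2 → ℂ | c₀ * v 0 ^ 3 + c₁ * v 0 ^ 2 * v 1 + c₂ * v 0 * v 1 ^ 2 + c₃ * v 1 ^ 3 = 0} := by
  classical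
  set p : Polynomial ℂ := Polynomial.C c₀ * Polynomial.X ^ 3 + Polynomial.C c₁ * Polynomial.X ^ 2 +
    Polynomial.C c₂ * Polynomial.X + Polynomial.C c₃ with hp
  have hp0 : p ≠ 0 := by
    intro h0
    have e3 : p.coeff 3 = c₀ := by
      rw [hp]
      simp [Polynomial.coeff_X, Polynomial.coeff_C, Polynomial.coeff_X_pow]
    have e2 : p.coeff 2 = c₁ := by
      rw [hp]
      simp [Polynomial.coeff_X, Polynomial.coeff_C, Polynomial.coeff_X_pow]
    have e1 : p.coeff 1 = c₂ := by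
      rw [hp]
      simp [Polynomial.coeff_X, Polynomial.coeff_C, Polynomial.coeff_X_pow]
    have e0 : p.coeff 0 = c₃ := by
      rw [hp]
      simp [Polynomial.coeff_X, Polynomial.coeff_C, Polynomial.coeff_X_pow]
    rw [h0, Polynomial.coeff_zero] at e3 e2 e1 e0
    rcases h with h | h | h | h
    · exact h e3.symm
    · exact h e2.symm
    · exact h e1.symm
    · exact h e0.symm
  refine ⟨insert ![1, 0] (p.roots.toFinset.image fun z => ![z, 1]), fun v hv => ?_⟩
  rw [Set.mem_setOf_eq] at hv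
  by_cases h1 : v 1 = 0
  · refine ⟨![1, 0], Finset.mem_insert_self _ _, v 0, ?_⟩
    ext i
    fin_cases i
    · simp
    · simpa using h1
  · refine ⟨![v 0 / v 1, 1], Finset.mem_insert_of_mem ?_, v 1, ?_⟩
    · rw [Finset.mem_image]
      refine ⟨v 0 / v 1, ?_, rfl⟩
      rw [Multiset.mem_toFinset, Polynomial.mem_roots hp0, Polynomial.IsRoot.def, hp]
      simp only [Polynomial.eval_add, Polynomial.eval_mul, Polynomial.eval_pow, Polynomial.eval_C,
        Polynomial.eval_X]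
      field_simp
      linear_combination hv
    · ext i
      fin_cases i
      · simp [mul_div_cancel₀ _ h1]
      · simp

/-- PIECE [XFC].  linear image of finitely many lines -/
theorem FinLines.image {N M : ℕ} (L : (Fin N → ℂ) →ₗ[ℂ] (Fin M → ℂ)) {S : Set (Fin N → ℂ)}
    (h : FinLines S) : FinLines (L '' S) := by
  classical
  obtain ⟨T, hT⟩ := h
  refine ⟨T.image L, ?_⟩
  rintro _ ⟨x, hx, rfl⟩
  obtain ⟨t, ht, c, rfl⟩ := hT x hx
  exact ⟨L t, Finset.mem_image_of_mem _ ht, c, map_smul L c t⟩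

end Pool.Agent.MP_1209e6_cy
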