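import Pool.Agent.Lib_MP_1209e6_cy.ThinU

/-!
PIECE [XTV] (MP_1209e6_ag).  Linear subspaces and finitely many lines are thin.
-/

open MvPolynomial

namespace Pool.Agent.MP_1209e6_cy

variable {N : ℕ} {K : Type*} [Field K]

private theorem xtv_coeff (a : Fin N → K) (i : Fin N) :
    coeff (Finsupp.single i 1) (∑ j, C (a j) * X j : MvPolynomial (Fin N) K) = a i := by
  classical
  rw [coeff_sum, Finset.sum_eq_single i]
  · rw [coeff_C_mul, coeff_X, if_pos rfl, mul_one]
  · intro j _ hj
    have h : Finsupp.single j 1 ≠ (Finsupp.single i 1 : Fin N →₀ ℕ) := by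
      intro h
      exact hj (Finsupp.single_left_injective one_ne_zero h)
    rw [coeff_C_mul, coeff_X, if_neg h, mul_zero]
  · intro h
    exact absurd (Finset.mem_univ i) h

private theorem xtv_hom (a : Fin N → K) :
    (∑ j, C (a j) * X j : MvPolynomial (Fin N) K).IsHomogeneous 1 := by
  refine IsHomogeneous.sum _ _ _ fun j _ => ?_
  exact (isHomogeneous_X K j).C_mul (a j)

private theorem xtv_eval (a y : Fin N → K) :
    aeval y (∑ j, C (a j) * X j : MvPolynomial (Fin N) K) = ∑ j, a j * y j := by
  rw [map_sum]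
  refine Finset.sum_congr rfl fun j _ => ?_
  rw [map_mul, aeval_X, aeval_C]
  rfl

private theorem xtv_deg {a : Fin N → K} (h : (∑ j, C (a j) * X j : MvPolynomial (Fin N) K) ≠ 0) :
    (∑ j, C (a j) * X j : MvPolynomial (Fin N) K).totalDegree = 1 :=
  (xtv_hom a).totalDegree h

private theorem xtv_sep {t : Fin N → K} (hN : 3 ≤ N) :
    ∃ a b : Fin N → K, Indep a b ∧ ∀ c : K, ∑ j, a j * (c • t) j = 0 ∧ ∑ j, b j * (c • t) j = 0 := by
  classical
  by_cases ht : t = 0
  · refine ⟨Pi.single ⟨0, by omega⟩ 1, Pi.single ⟨1, by omega⟩ 1,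
      ⟨⟨0, by omega⟩, ⟨1, by omega⟩, ?_⟩, fun c => ?_⟩
    · have h1 : (⟨1, by omega⟩ : Fin N) ≠ ⟨0, by omega⟩ := by
        intro h
        simp at h
      simp [h1, h1.symm]
    · rw [ht]
      simp
  · obtain ⟨k, hk⟩ := Function.ne_iff.1 ht
    have hk' : t k ≠ 0 := hk
    obtain ⟨i, j, hik, hjk, hij⟩ : ∃ i j : Fin N, i ≠ k ∧ j ≠ k ∧ i ≠ j := by
      have h0 : 1 < (Finset.univ.erase k : Finset (Fin N)).card := by
        rw [Finset.card_erase_of_mem (Finset.mem_univ k), Finset.card_univ, Fintype.card_fin]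
        omega
      obtain ⟨i, hi, j, hj, hij⟩ := Finset.one_lt_card.1 h0
      exact ⟨i, j, Finset.ne_of_mem_erase hi, Finset.ne_of_mem_erase hj, hij⟩
    refine ⟨Pi.single i (t k) - Pi.single k (t i), Pi.single j (t k) - Pi.single k (t j),
      ⟨i, j, ?_⟩, fun c => ?_⟩
    · simp only [Pi.sub_apply, Pi.single_eq_same, Pi.single_eq_of_ne hik, Pi.single_eq_of_ne hjk,
        Pi.single_eq_of_ne hij, Pi.single_eq_of_ne hij.symm, sub_zero, mul_zero]
      exact mul_ne_zero hk' hk'
    · constructor
      · simp only [Pi.sub_apply, sub_mul, Finset.sum_sub_distrib, Pi.smul_apply, smul_eq_mul]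
        rw [Finset.sum_eq_single i, Finset.sum_eq_single k, Pi.single_eq_same, Pi.single_eq_same]
        · ring
        · intro l _ hl
          rw [Pi.single_eq_of_ne hl, zero_mul]
        · intro h
          exact absurd (Finset.mem_univ _) h
        · intro l _ hl
          rw [Pi.single_eq_of_ne hl, zero_mul]
        · intro h
          exact absurd (Finset.mem_univ _) h
      · simp only [Pi.sub_apply, sub_mul, Finset.sum_sub_distrib, Pi.smul_apply, smul_eq_mul]
        rw [Finset.sum_eq_single j, Finset.sum_eq_single k, Pi.single_eq_same, Pi.single_eq_same]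
        · ring
        · intro l _ hl
          rw [Pi.single_eq_of_ne hl, zero_mul]
        · intro h
          exact absurd (Finset.mem_univ _) h
        · intro l _ hl
          rw [Pi.single_eq_of_ne hl, zero_mul]
        · intro h
          exact absurd (Finset.mem_univ _) h

/-- PIECE [XTV].  Two linear forms with linearly independent coefficient vectors are coprime, so the set of
common zeros is thin. -/
theorem thin_of_linear (a b : Fin N → K) (h : Indep a b) :
    Thin {y : Fin N → K | ∑ j, a j * y j = 0 ∧ ∑ j, b j * y j = 0} := by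
  obtain ⟨i, j, hij⟩ := h
  refine ⟨∑ j, C (a j) * X j, ∑ j, C (b j) * X j, ⟨1, xtv_hom a⟩, ⟨1, xtv_hom b⟩, ?_, ?_⟩
  · have ha : (∑ j, C (a j) * X j : MvPolynomial (Fin N) K) ≠ 0 := by
      intro h0
      have h1 : ∀ l, a l = 0 := fun l => by rw [← xtv_coeff a l, h0, coeff_zero]
      apply hij
      rw [h1 i, h1 j, zero_mul, zero_mul]
    have hb : (∑ j, C (b j) * X j : MvPolynomial (Fin N) K) ≠ 0 := by
      intro h0
      have h1 : ∀ l, b l = 0 := fun l => by rw [← xtv_coeff b l, h0, coeff_zero]
      apply hij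
      rw [h1 i, h1 j, mul_zero, mul_zero]
    rintro p ⟨c, hc⟩ ⟨d, hd⟩
    have hp0 : p ≠ 0 := by
      rintro rfl
      rw [zero_mul] at hc
      exact ha hc
    have hc0 : c ≠ 0 := by
      rintro rfl
      rw [mul_zero] at hc
      exact ha hc
    have hd0 : d ≠ 0 := by
      rintro rfl
      rw [mul_zero] at hd
      exact hb hd
    have h1 := xtv_deg ha
    have h2 := xtv_deg hb
    rw [hc, totalDegree_mul_of_isDomain hp0 hc0] at h1
    rw [hd, totalDegree_mul_of_isDomain hp0 hd0] at h2
    by_cases h3 : p.totalDegree = 0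
    · rw [totalDegree_eq_zero_iff_eq_C] at h3
      have h4 : p.coeff 0 ≠ 0 := by
        intro h4
        rw [h4, C_0] at h3
        exact hp0 h3
      rw [h3]
      exact (isUnit_iff_ne_zero.2 h4).map C
    · exfalso
      have h4 : c.totalDegree = 0 := by omega
      have h5 : d.totalDegree = 0 := by omega
      rw [totalDegree_eq_zero_iff_eq_C] at h4 h5
      have h6 : ∀ l, a l = c.coeff 0 * p.coeff (Finsupp.single l 1) := by
        intro l
        rw [← xtv_coeff a l, hc, h4, mul_comm p, coeff_C_mul, coeff_C, if_pos rfl]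
      have h7 : ∀ l, b l = d.coeff 0 * p.coeff (Finsupp.single l 1) := by
        intro l
        rw [← xtv_coeff b l, hd, h5, mul_comm p, coeff_C_mul, coeff_C, if_pos rfl]
      apply hij
      rw [h6 i, h6 j, h7 i, h7 j]
      ring
  · intro y hy
    rw [xtv_eval, xtv_eval]
    exact hy

/-- PIECE [XTV].  In at least three variables a line (through the origin) is thin, hence finitely many lines
are. -/
theorem FinLines.thin [Infinite K] (hN : 3 ≤ N) {S : Set (Fin N → K)} (h : FinLines S) : Thin S := by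
  obtain ⟨T, hT⟩ := h
  have h1 : ∀ t ∈ T, Thin {x : Fin N → K | ∃ c : K, x = c • t} := by
    intro t _
    obtain ⟨a, b, hab, h2⟩ := xtv_sep (t := t) hN
    refine (thin_of_linear a b hab).mono ?_
    rintro x ⟨c, rfl⟩
    exact h2 c
  refine (Thin.biUnion T (fun t => {x : Fin N → K | ∃ c : K, x = c • t}) h1).mono ?_
  intro x hx
  obtain ⟨t, ht, c, hc⟩ := hT x hx
  exact Set.mem_biUnion (show t ∈ (T : Set (Fin N → K)) from ht) ⟨c, hc⟩

/-- PIECE [XTV].  If the vectors of squares lie on finitely many lines then so do the vectors (over an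
algebraically closed field).

Proof.  For `t ∈ T` choose `r` with `r_j^2 = t_j`.  If `x_j^2 = c t_j` for all `j` choose `d` with `d^2 = c`; then
`x_j = ± d r_j`, so `x` is on one of the `2^N` lines through the vectors `(± r_j)`. -/
theorem FinLines.of_sq [IsAlgClosed K] {S : Set (Fin N → K)}
    (h : FinLines ((fun x : Fin N → K => fun j => x j ^ 2) '' S)) : FinLines S := by
  classical
  obtain ⟨T, hT⟩ := h
  have h1 : ∀ t : Fin N → K, ∃ r : Fin N → K, ∀ j, r j ^ 2 = t j := by
    intro t
    have h2 : ∀ j, ∃ r : K, r ^ 2 = t j := fun j => IsAlgClosed.exists_pow_nat_eq (t j) two_pos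
    choose r hr using h2
    exact ⟨r, hr⟩
  choose r hr using h1
  refine ⟨(T ×ˢ (Finset.univ : Finset (Fin N → Bool))).image
    (fun q => fun j => if q.2 j then r q.1 j else - r q.1 j), ?_⟩
  intro x hx
  obtain ⟨t, ht, c, hc⟩ := hT _ ⟨x, hx, rfl⟩
  obtain ⟨d, hd⟩ := IsAlgClosed.exists_pow_nat_eq c two_pos
  have h3 : ∀ j, x j = d * r t j ∨ x j = - (d * r t j) := by
    intro j
    have h4 : x j ^ 2 = (c • t) j := congrFun hc j
    rw [Pi.smul_apply, smul_eq_mul] at h4
    apply sq_eq_sq_iff_eq_or_eq_neg.1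
    rw [mul_pow, hd, hr t j, h4]
  refine ⟨fun j => if decide (x j = d * r t j) then r t j else - r t j, ?_, d, ?_⟩
  · rw [Finset.mem_image]
    exact ⟨(t, fun j => decide (x j = d * r t j)),
      Finset.mem_product.2 ⟨ht, Finset.mem_univ _⟩, rfl⟩
  · funext j
    rw [Pi.smul_apply, smul_eq_mul]
    by_cases h5 : x j = d * r t j
    · simp only [h5, decide_true, if_true]
    · simp only [h5, decide_false, Bool.false_eq_true, if_false]
      rw [mul_neg]
      exact (h3 j).resolve_left h5

end Pool.Agent.MP_1209e6_cy
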