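import Pool.Agent.Lib_MP_1209e6_cy.ExCasesB
import Pool.Agent.Lib_MP_1209e6_cy.ExFLz
import Pool.Agent.Lib_MP_1209e6_cy.FLin
import Pool.Agent.Lib_MP_1209e6_cy.ThinV

/-!
PIECE [XFX] (MP_1209e6_ag).  Finitely many exceptional points for the first projection.

`B_0 = -X_1 + 2 X_2 + X_3`, `B_1 = -2 X_0 + X_2 - X_3`, `B_2 = -X_0 + X_1 - 2 X_3`, `B_3 = X_0 + 2 X_1 - X_2`.
-/

open Matrix

namespace Pool.Agent.MP_1209e6_cy

/-- zeros of a cubic in a plane -/
theorem xfx_aux (Mx : Matrix (Fin 4) (Fin 2) ℂ) (c₀ c₁ c₂ c₃ : ℂ)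
    (h : c₀ ≠ 0 ∨ c₁ ≠ 0 ∨ c₂ ≠ 0 ∨ c₃ ≠ 0) {S : Set (Fin 4 → ℂ)}
    (hS : ∀ X ∈ S, ∃ v : Fin 2 → ℂ, X = Mx.mulVec v ∧
      c₀ * v 0 ^ 3 + c₁ * v 0 ^ 2 * v 1 + c₂ * v 0 * v 1 ^ 2 + c₃ * v 1 ^ 3 = 0) : FinLines S := by
  refine FinLines.mono ?_ (FinLines.image (Matrix.mulVecLin Mx) (finLines_cubic c₀ c₁ c₂ c₃ h))
  intro X hX
  obtain ⟨v, hv1, hv2⟩ := hS X hX
  exact ⟨v, hv2, hv1.symm⟩

theorem xfx_vec4 {X Y : Fin 4 → ℂ} (h0 : X 0 = Y 0) (h1 : X 1 = Y 1) (h2 : X 2 = Y 2)
    (h3 : X 3 = Y 3) : X = Y := by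
  funext j
  fin_cases j
  · exact h0
  · exact h1
  · exact h2
  · exact h3

theorem xfx_B0 (x : Vec 2 ℂ) : Bl be x 0 = -x 1 ^ 2 + 2 * x 2 ^ 2 + x 3 ^ 2 := by
  unfold Bl be
  simp [Fin.sum_univ_four]

theorem xfx_B1 (x : Vec 2 ℂ) : Bl be x 1 = -2 * x 0 ^ 2 + x 2 ^ 2 - x 3 ^ 2 := by
  unfold Bl be
  simp [Fin.sum_univ_four]
  ring

theorem xfx_B2 (x : Vec 2 ℂ) : Bl be x 2 = -x 0 ^ 2 + x 1 ^ 2 - 2 * x 3 ^ 2 := by
  unfold Bl be
  simp [Fin.sum_univ_four]
  ring

theorem xfx_B3 (x : Vec 2 ℂ) : Bl be x 3 = x 0 ^ 2 + 2 * x 1 ^ 2 - x 2 ^ 2 := by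
  unfold Bl be
  simp [Fin.sum_univ_four]
  ring

theorem xfx_c0 {x : Vec 2 ℂ} (h : Three be x) (hj : x 0 = 0) (h1 : x 1 ≠ 0) (h2 : x 2 ≠ 0)
    (h3 : x 3 ≠ 0) : Bl be x 0 = 0 ∧ 4 * Bl be x 1 * (x 2 ^ 2 * x 3 ^ 2) +
      16 * Bl be x 2 * (x 1 ^ 2 * x 3 ^ 2) + 36 * Bl be x 3 * (x 1 ^ 2 * x 2 ^ 2) = 0 := by
  obtain ⟨e1, e2⟩ := three_case1 be h hj (by
    intro l hl
    fin_cases l
    · exact absurd rfl hl
    · exact h1
    · exact h2
    · exact h3)
  refine ⟨e1, ?_⟩
  rw [show Finset.univ.erase (0 : Fin 4) = {1, 2, 3} from by decide,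
    Finset.sum_insert (by decide), Finset.sum_insert (by decide), Finset.sum_singleton,
    show ({1, 2, 3} : Finset (Fin 4)).erase 1 = {2, 3} from by decide,
    show ({1, 2, 3} : Finset (Fin 4)).erase 2 = {1, 3} from by decide,
    show ({1, 2, 3} : Finset (Fin 4)).erase 3 = {1, 2} from by decide,
    Finset.prod_pair (by decide), Finset.prod_pair (by decide), Finset.prod_pair (by decide),
    ss0, ss1, ss2, ss3] at e2
  linear_combination e2

theorem xfx_c1 {x : Vec 2 ℂ} (h : Three be x) (hj : x 1 = 0) (h0 : x 0 ≠ 0) (h2 : x 2 ≠ 0)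
    (h3 : x 3 ≠ 0) : Bl be x 1 = 0 ∧ 4 * Bl be x 0 * (x 2 ^ 2 * x 3 ^ 2) +
      4 * Bl be x 2 * (x 0 ^ 2 * x 3 ^ 2) + 16 * Bl be x 3 * (x 0 ^ 2 * x 2 ^ 2) = 0 := by
  obtain ⟨e1, e2⟩ := three_case1 be h hj (by
    intro l hl
    fin_cases l
    · exact h0
    · exact absurd rfl hl
    · exact h2
    · exact h3)
  refine ⟨e1, ?_⟩
  rw [show Finset.univ.erase (1 : Fin 4) = {0, 2, 3} from by decide,
    Finset.sum_insert (by decide), Finset.sum_insert (by decide), Finset.sum_singleton,
    show ({0, 2, 3} : Finset (Fin 4)).erase 0 = {2, 3} from by decide,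
    show ({0, 2, 3} : Finset (Fin 4)).erase 2 = {0, 3} from by decide,
    show ({0, 2, 3} : Finset (Fin 4)).erase 3 = {0, 2} from by decide,
    Finset.prod_pair (by decide), Finset.prod_pair (by decide), Finset.prod_pair (by decide),
    ss0, ss1, ss2, ss3] at e2
  linear_combination e2

theorem xfx_c2 {x : Vec 2 ℂ} (h : Three be x) (hj : x 2 = 0) (h0 : x 0 ≠ 0) (h1 : x 1 ≠ 0)
    (h3 : x 3 ≠ 0) : Bl be x 2 = 0 ∧ 16 * Bl be x 0 * (x 1 ^ 2 * x 3 ^ 2) +
      4 * Bl be x 1 * (x 0 ^ 2 * x 3 ^ 2) + 4 * Bl be x 3 * (x 0 ^ 2 * x 1 ^ 2) = 0 := by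
  obtain ⟨e1, e2⟩ := three_case1 be h hj (by
    intro l hl
    fin_cases l
    · exact h0
    · exact h1
    · exact absurd rfl hl
    · exact h3)
  refine ⟨e1, ?_⟩
  rw [show Finset.univ.erase (2 : Fin 4) = {0, 1, 3} from by decide,
    Finset.sum_insert (by decide), Finset.sum_insert (by decide), Finset.sum_singleton,
    show ({0, 1, 3} : Finset (Fin 4)).erase 0 = {1, 3} from by decide,
    show ({0, 1, 3} : Finset (Fin 4)).erase 1 = {0, 3} from by decide,
    show ({0, 1, 3} : Finset (Fin 4)).erase 3 = {0, 1} from by decide,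
    Finset.prod_pair (by decide), Finset.prod_pair (by decide), Finset.prod_pair (by decide),
    ss0, ss1, ss2, ss3] at e2
  linear_combination e2

theorem xfx_c3 {x : Vec 2 ℂ} (h : Three be x) (hj : x 3 = 0) (h0 : x 0 ≠ 0) (h1 : x 1 ≠ 0)
    (h2 : x 2 ≠ 0) : Bl be x 3 = 0 ∧ 36 * Bl be x 0 * (x 1 ^ 2 * x 2 ^ 2) +
      16 * Bl be x 1 * (x 0 ^ 2 * x 2 ^ 2) + 4 * Bl be x 2 * (x 0 ^ 2 * x 1 ^ 2) = 0 := by
  obtain ⟨e1, e2⟩ := three_case1 be h hj (by
    intro l hl
    fin_cases l
    · exact h0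
    · exact h1
    · exact h2
    · exact absurd rfl hl)
  refine ⟨e1, ?_⟩
  rw [show Finset.univ.erase (3 : Fin 4) = {0, 1, 2} from by decide,
    Finset.sum_insert (by decide), Finset.sum_insert (by decide), Finset.sum_singleton,
    show ({0, 1, 2} : Finset (Fin 4)).erase 0 = {1, 2} from by decide,
    show ({0, 1, 2} : Finset (Fin 4)).erase 1 = {0, 2} from by decide,
    show ({0, 1, 2} : Finset (Fin 4)).erase 2 = {0, 1} from by decide,
    Finset.prod_pair (by decide), Finset.prod_pair (by decide), Finset.prod_pair (by decide),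
    ss0, ss1, ss2, ss3] at e2
  linear_combination e2

/-- PIECE [XFX].  The set of all `x` with at least three points over them lies on finitely many lines.

Proof.  `FinLines.of_sq`; put `X_j = x_j^2`.  All `x_j ≠ 0`: `three_case0` and `finLines_case0`.  Exactly one
`x_j = 0`: `three_case1`; the equations in the three other `X_k` are
`j = 0`: `-X_1 + 2 X_2 + X_3 = 0` and `4 B_1 X_2 X_3 + 16 B_2 X_1 X_3 + 36 B_3 X_1 X_2 = 0`, which for `X_1 = 2 X_2 + X_3` is the cubic
`216 X_2^3 + 320 X_2^2 X_3 + 68 X_2 X_3^2 - 16 X_3^3`;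
`j = 1`: `-2 X_0 + X_2 - X_3 = 0`, `X_2, X_3` as parameters, `X_0 = (X_2 - X_3)/2`: `-4 X_2^3 + 7 X_2^2 X_3 + 6 X_2 X_3^2 + 3 X_3^3`;
`j = 2`: `-X_0 + X_1 - 2 X_3 = 0`, `X_0 = X_1 - 2 X_3`: `12 X_1^3 - 56 X_1^2 X_3 + 60 X_1 X_3^2 - 24 X_3^3`;
`j = 3`: `X_0 + 2 X_1 - X_2 = 0`, `X_0 = -2 X_1 + X_2`: `-24 X_1^3 - 144 X_1^2 X_2 + 164 X_1 X_2^2 - 16 X_2^3`
(`finLines_cubic`, `FinLines.image`).  Exactly two zeros: `three_case2` gives `X = 0` (all the 2 x 2 minors of `be` with
disjoint index pairs are nonzero), impossible.  Three zeros: `x` is a multiple of `e_j`.  Four zeros: `x = 0`. -/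
theorem finLines_three : FinLines {x : Vec 2 ℂ | Three be x} := by
  classical
  apply FinLines.of_sq
  have k0 : FinLines {X : Fin 4 → ℂ | X 0 = 0 ∧ -X 1 + 2 * X 2 + X 3 = 0 ∧
      4 * (-2 * X 0 + X 2 - X 3) * (X 2 * X 3) + 16 * (-X 0 + X 1 - 2 * X 3) * (X 1 * X 3) +
        36 * (X 0 + 2 * X 1 - X 2) * (X 1 * X 2) = 0} := by
    refine xfx_aux !![0, 0; 2, 1; 1, 0; 0, 1] 216 320 68 (-16) (Or.inl (by norm_num)) ?_
    rintro X ⟨e0, e1, e2⟩
    have e3 : X 1 = 2 * X 2 + X 3 := by linear_combination -e1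
    refine ⟨![X 2, X 3], xfx_vec4 ?_ ?_ ?_ ?_, ?_⟩
    · simp [Matrix.mulVec, dotProduct, Fin.sum_univ_two, e0]
    · simp [Matrix.mulVec, dotProduct, Fin.sum_univ_two, e3]
    · simp [Matrix.mulVec, dotProduct, Fin.sum_univ_two]
    · simp [Matrix.mulVec, dotProduct, Fin.sum_univ_two]
    · rw [e0, e3] at e2
      simp only [Matrix.cons_val_zero, Matrix.cons_val_one]
      linear_combination e2
  have k1 : FinLines {X : Fin 4 → ℂ | X 1 = 0 ∧ -2 * X 0 + X 2 - X 3 = 0 ∧
      4 * (-X 1 + 2 * X 2 + X 3) * (X 2 * X 3) + 4 * (-X 0 + X 1 - 2 * X 3) * (X 0 * X 3) +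
        16 * (X 0 + 2 * X 1 - X 2) * (X 0 * X 2) = 0} := by
    refine xfx_aux !![1 / 2, -1 / 2; 0, 0; 1, 0; 0, 1] (-4) 7 6 3 (Or.inl (by norm_num)) ?_
    rintro X ⟨e0, e1, e2⟩
    have e3 : X 0 = (X 2 - X 3) / 2 := by linear_combination (-1 / 2) * e1
    refine ⟨![X 2, X 3], xfx_vec4 ?_ ?_ ?_ ?_, ?_⟩
    · simp [Matrix.mulVec, dotProduct, Fin.sum_univ_two, e3]
      ring
    · simp [Matrix.mulVec, dotProduct, Fin.sum_univ_two, e0]
    · simp [Matrix.mulVec, dotProduct, Fin.sum_univ_two]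
    · simp [Matrix.mulVec, dotProduct, Fin.sum_univ_two]
    · rw [e0, e3] at e2
      simp only [Matrix.cons_val_zero, Matrix.cons_val_one]
      linear_combination e2
  have k2 : FinLines {X : Fin 4 → ℂ | X 2 = 0 ∧ -X 0 + X 1 - 2 * X 3 = 0 ∧
      16 * (-X 1 + 2 * X 2 + X 3) * (X 1 * X 3) + 4 * (-2 * X 0 + X 2 - X 3) * (X 0 * X 3) +
        4 * (X 0 + 2 * X 1 - X 2) * (X 0 * X 1) = 0} := by
    refine xfx_aux !![1, -2; 1, 0; 0, 0; 0, 1] 12 (-56) 60 (-24) (Or.inl (by norm_num)) ?_
    rintro X ⟨e0, e1, e2⟩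
    have e3 : X 0 = X 1 - 2 * X 3 := by linear_combination -e1
    refine ⟨![X 1, X 3], xfx_vec4 ?_ ?_ ?_ ?_, ?_⟩
    · simp [Matrix.mulVec, dotProduct, Fin.sum_univ_two, e3]
      ring
    · simp [Matrix.mulVec, dotProduct, Fin.sum_univ_two]
    · simp [Matrix.mulVec, dotProduct, Fin.sum_univ_two, e0]
    · simp [Matrix.mulVec, dotProduct, Fin.sum_univ_two]
    · rw [e0, e3] at e2
      simp only [Matrix.cons_val_zero, Matrix.cons_val_one]
      linear_combination e2
  have k3 : FinLines {X : Fin 4 → ℂ | X 3 = 0 ∧ X 0 + 2 * X 1 - X 2 = 0 ∧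
      36 * (-X 1 + 2 * X 2 + X 3) * (X 1 * X 2) + 16 * (-2 * X 0 + X 2 - X 3) * (X 0 * X 2) +
        4 * (-X 0 + X 1 - 2 * X 3) * (X 0 * X 1) = 0} := by
    refine xfx_aux !![-2, 1; 1, 0; 0, 1; 0, 0] (-24) (-144) 164 (-16) (Or.inl (by norm_num)) ?_
    rintro X ⟨e0, e1, e2⟩
    have e3 : X 0 = -2 * X 1 + X 2 := by linear_combination e1
    refine ⟨![X 1, X 2], xfx_vec4 ?_ ?_ ?_ ?_, ?_⟩
    · simp [Matrix.mulVec, dotProduct, Fin.sum_univ_two, e3]
    · simp [Matrix.mulVec, dotProduct, Fin.sum_univ_two]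
    · simp [Matrix.mulVec, dotProduct, Fin.sum_univ_two]
    · simp [Matrix.mulVec, dotProduct, Fin.sum_univ_two, e0]
    · rw [e0, e3] at e2
      simp only [Matrix.cons_val_zero, Matrix.cons_val_one]
      linear_combination e2
  have ke : FinLines {X : Fin 4 → ℂ | ∃ j, ∀ l, l ≠ j → X l = 0} := by
    refine ⟨Finset.univ.image (fun j : Fin 4 => (Pi.single j 1 : Fin 4 → ℂ)), ?_⟩
    rintro X ⟨j, hj⟩
    refine ⟨Pi.single j 1, Finset.mem_image_of_mem _ (Finset.mem_univ j), X j, ?_⟩
    funext l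
    by_cases hl : l = j
    · subst hl
      simp
    · simp [hj l hl, hl]
  refine FinLines.mono ?_ (finLines_case0.union (k0.union (k1.union (k2.union (k3.union ke)))))
  rintro X ⟨x, hx, rfl⟩
  have hx' : Three be x := hx
  by_cases h0 : x 0 = 0
  · by_cases h1 : x 1 = 0
    · by_cases h2 : x 2 = 0
      · right; right; right; right; right
        refine ⟨3, fun l hl => ?_⟩
        fin_cases l
        · simp [h0]
        · simp [h1]
        · simp [h2]
        · exact absurd rfl hl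
      · by_cases h3 : x 3 = 0
        · right; right; right; right; right
          refine ⟨2, fun l hl => ?_⟩
          fin_cases l
          · simp [h0]
          · simp [h1]
          · exact absurd rfl hl
          · simp [h3]
        · exfalso
          obtain ⟨e1, e2⟩ := three_case2 be hx' (i := 0) (j := 1) (by decide) h0 h1 (by
            intro l hl1 hl2
            fin_cases l
            · exact absurd rfl hl1
            · exact absurd rfl hl2
            · exact h2
            · exact h3)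
          rw [xfx_B0] at e1
          rw [xfx_B1] at e2
          apply h2
          apply pow_eq_zero_iff (two_ne_zero) |>.1
          linear_combination (1 / 3) * e1 + (1 / 3) * e2 + (1 / 3) * (2 * x 0) * h0 + (1 / 3) * (x 1) * h1
    · by_cases h2 : x 2 = 0
      · by_cases h3 : x 3 = 0
        · right; right; right; right; right
          refine ⟨1, fun l hl => ?_⟩
          fin_cases l
          · simp [h0]
          · exact absurd rfl hl
          · simp [h2]
          · simp [h3]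
        · exfalso
          obtain ⟨e1, e2⟩ := three_case2 be hx' (i := 0) (j := 2) (by decide) h0 h2 (by
            intro l hl1 hl2
            fin_cases l
            · exact absurd rfl hl1
            · exact h1
            · exact absurd rfl hl2
            · exact h3)
          rw [xfx_B0, h2] at e1
          rw [xfx_B2, h0] at e2
          apply h3
          apply pow_eq_zero_iff (two_ne_zero) |>.1
          linear_combination -e1 - e2
      · by_cases h3 : x 3 = 0
        · exfalso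
          obtain ⟨e1, e2⟩ := three_case2 be hx' (i := 0) (j := 3) (by decide) h0 h3 (by
            intro l hl1 hl2
            fin_cases l
            · exact absurd rfl hl1
            · exact h1
            · exact h2
            · exact absurd rfl hl2)
          rw [xfx_B0, h3] at e1
          rw [xfx_B3, h0] at e2
          apply h1
          apply pow_eq_zero_iff (two_ne_zero) |>.1
          linear_combination (1 / 3) * e1 + (2 / 3) * e2
        · right; left
          obtain ⟨e1, e2⟩ := xfx_c0 hx' h0 h1 h2 h3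
          rw [xfx_B0] at e1
          rw [xfx_B1, xfx_B2, xfx_B3] at e2
          refine ⟨by simp [h0], e1, ?_⟩
          linear_combination e2
  · by_cases h1 : x 1 = 0
    · by_cases h2 : x 2 = 0
      · by_cases h3 : x 3 = 0
        · right; right; right; right; right
          refine ⟨0, fun l hl => ?_⟩
          fin_cases l
          · exact absurd rfl hl
          · simp [h1]
          · simp [h2]
          · simp [h3]
        · exfalso
          obtain ⟨e1, e2⟩ := three_case2 be hx' (i := 1) (j := 2) (by decide) h1 h2 (by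
            intro l hl1 hl2
            fin_cases l
            · exact h0
            · exact absurd rfl hl1
            · exact absurd rfl hl2
            · exact h3)
          rw [xfx_B1, h2] at e1
          rw [xfx_B2, h1] at e2
          apply h0
          apply pow_eq_zero_iff (two_ne_zero) |>.1
          linear_combination (-2 / 3) * e1 + (1 / 3) * e2
      · by_cases h3 : x 3 = 0
        · exfalso
          obtain ⟨e1, e2⟩ := three_case2 be hx' (i := 1) (j := 3) (by decide) h1 h3 (by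
            intro l hl1 hl2
            fin_cases l
            · exact h0
            · exact absurd rfl hl1
            · exact h2
            · exact absurd rfl hl2)
          rw [xfx_B1, h3] at e1
          rw [xfx_B3, h1] at e2
          apply h0
          apply pow_eq_zero_iff (two_ne_zero) |>.1
          linear_combination -e1 - e2
        · right; right; left
          obtain ⟨e1, e2⟩ := xfx_c1 hx' h1 h0 h2 h3
          rw [xfx_B1] at e1
          rw [xfx_B0, xfx_B2, xfx_B3] at e2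
          refine ⟨by simp [h1], e1, ?_⟩
          linear_combination e2
    · by_cases h2 : x 2 = 0
      · by_cases h3 : x 3 = 0
        · exfalso
          obtain ⟨e1, e2⟩ := three_case2 be hx' (i := 2) (j := 3) (by decide) h2 h3 (by
            intro l hl1 hl2
            fin_cases l
            · exact h0
            · exact h1
            · exact absurd rfl hl1
            · exact absurd rfl hl2)
          rw [xfx_B2, h3] at e1
          rw [xfx_B3, h2] at e2
          apply h0
          apply pow_eq_zero_iff (two_ne_zero) |>.1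
          linear_combination (-2 / 3) * e1 + (1 / 3) * e2
        · right; right; right; left
          obtain ⟨e1, e2⟩ := xfx_c2 hx' h2 h0 h1 h3
          rw [xfx_B2] at e1
          rw [xfx_B0, xfx_B1, xfx_B3] at e2
          refine ⟨by simp [h2], e1, ?_⟩
          linear_combination e2
      · by_cases h3 : x 3 = 0
        · right; right; right; right; left
          obtain ⟨e1, e2⟩ := xfx_c3 hx' h3 h0 h1 h2
          rw [xfx_B3] at e1
          rw [xfx_B0, xfx_B1, xfx_B2] at e2
          refine ⟨by simp [h3], e1, ?_⟩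
          linear_combination e2
        · left
          obtain ⟨ζ, hζ⟩ := three_case0 be hx' (by
            intro l
            fin_cases l
            · exact h0
            · exact h1
            · exact h2
            · exact h3)
          exact ⟨ζ, hζ⟩

end Pool.Agent.MP_1209e6_cy
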