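import Pool.Agent.Lib_MP_1209e6_cy.ExCases
import Pool.Agent.Lib_MP_1209e6_cy.ThinU

/-!
PIECE [XFE] (MP_1209e6_ag).  Case 0 for the second projection.

For the transposed matrix, `C_l = ∑ j, tr4 be j l * Y j` is `C_0 = -2 Y_1 - Y_2 + Y_3`, `C_1 = -Y_0 + Y_2 + 2 Y_3`,
`C_2 = 2 Y_0 + Y_1 - Y_3`, `C_3 = Y_0 - Y_1 - 2 Y_2`.
-/

open Matrix

namespace Pool.Agent.MP_1209e6_cy

/-- PIECE [XFE].  Case 0, in terms of `Y = y^2`.

Proof.  With `Y_0 = p_0 + m_0`, `Y_3 = p_0 - m_0`, `Y_1 = p_1 + m_1`, `Y_2 = p_1 - m_1` the equations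
`C_l = ζ d_l Y_l` become `ζ m_0 = -p_0 + 3 p_1`, `3 ζ m_1 = p_0 + p_1`, `ζ p_0 = m_0 + m_1`,
`3 ζ p_1 = -3 m_0 - m_1`, whence `(ζ^2 + 2/3) p_0 = (10/3) p_1`, `(ζ^2 + 28/9) p_1 = (8/9) p_0`, so
`(ζ^2 + 4)(ζ^2 - 2/9) = 0` or `p = 0` (and then `Y = 0`; `ζ = 0` also gives `Y = 0`).
`ζ^2 = -4`: `p_1 = -p_0`; `ζ^2 = 2/9`: `4 p_0 = 15 p_1`; `m_0, m_1` are determined by `p` and `ζ`. -/
theorem finLines_case0' : FinLines {Y : Fin 4 → ℂ | ∃ ζ : ℂ, ∀ l, ∑ j, tr4 be j l * Y j = ζ * dd l * Y l} := by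
  classical
  obtain ⟨w, hw⟩ : ∃ w : ℂ, w ^ 2 = 2 / 9 := IsAlgClosed.exists_pow_nat_eq (2 / 9 : ℂ) two_pos
  refine ⟨{![1 + 2 * Complex.I, -1, -1, 1 - 2 * Complex.I],
    ![1 - 2 * Complex.I, -1, -1, 1 + 2 * Complex.I],
    ![15 - 27 / 2 * w, 4 + 57 / 2 * w, 4 - 57 / 2 * w, 15 + 27 / 2 * w],
    ![15 + 27 / 2 * w, 4 - 57 / 2 * w, 4 + 57 / 2 * w, 15 - 27 / 2 * w]}, ?_⟩
  rintro Y ⟨ζ, hζ⟩
  have e0 : -2 * Y 1 - Y 2 + Y 3 = - (ζ * Y 0) := by
    have h : be 0 0 * Y 0 + be 0 1 * Y 1 + be 0 2 * Y 2 + be 0 3 * Y 3 = ζ * dd 0 * Y 0 := by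
      have h1 := hζ 0
      rw [Fin.sum_univ_four] at h1
      exact h1
    have a0 : be 0 0 = 0 := rfl
    have a1 : be 0 1 = -2 := rfl
    have a2 : be 0 2 = -1 := rfl
    have a3 : be 0 3 = 1 := rfl
    have a4 : dd 0 = -1 := rfl
    rw [a0, a1, a2, a3, a4] at h
    linear_combination h
  have e1 : - Y 0 + Y 2 + 2 * Y 3 = 3 * ζ * Y 1 := by
    have h : be 1 0 * Y 0 + be 1 1 * Y 1 + be 1 2 * Y 2 + be 1 3 * Y 3 = ζ * dd 1 * Y 1 := by
      have h1 := hζ 1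
      rw [Fin.sum_univ_four] at h1
      exact h1
    have a0 : be 1 0 = -1 := rfl
    have a1 : be 1 1 = 0 := rfl
    have a2 : be 1 2 = 1 := rfl
    have a3 : be 1 3 = 2 := rfl
    have a4 : dd 1 = 3 := rfl
    rw [a0, a1, a2, a3, a4] at h
    linear_combination h
  have e2 : 2 * Y 0 + Y 1 - Y 3 = - (3 * ζ * Y 2) := by
    have h : be 2 0 * Y 0 + be 2 1 * Y 1 + be 2 2 * Y 2 + be 2 3 * Y 3 = ζ * dd 2 * Y 2 := by
      have h1 := hζ 2
      rw [Fin.sum_univ_four] at h1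
      exact h1
    have a0 : be 2 0 = 2 := rfl
    have a1 : be 2 1 = 1 := rfl
    have a2 : be 2 2 = 0 := rfl
    have a3 : be 2 3 = -1 := rfl
    have a4 : dd 2 = -3 := rfl
    rw [a0, a1, a2, a3, a4] at h
    linear_combination h
  have e3 : Y 0 - Y 1 - 2 * Y 2 = ζ * Y 3 := by
    have h : be 3 0 * Y 0 + be 3 1 * Y 1 + be 3 2 * Y 2 + be 3 3 * Y 3 = ζ * dd 3 * Y 3 := by
      have h1 := hζ 3
      rw [Fin.sum_univ_four] at h1
      exact h1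
    have a0 : be 3 0 = 1 := rfl
    have a1 : be 3 1 = -1 := rfl
    have a2 : be 3 2 = -2 := rfl
    have a3 : be 3 3 = 0 := rfl
    have a4 : dd 3 = 1 := rfl
    rw [a0, a1, a2, a3, a4] at h
    linear_combination h
  obtain ⟨p0, hp0⟩ : ∃ p0 : ℂ, p0 = (Y 0 + Y 3) / 2 := ⟨_, rfl⟩
  obtain ⟨m0, hm0⟩ : ∃ m0 : ℂ, m0 = (Y 0 - Y 3) / 2 := ⟨_, rfl⟩
  obtain ⟨p1, hp1⟩ : ∃ p1 : ℂ, p1 = (Y 1 + Y 2) / 2 := ⟨_, rfl⟩
  obtain ⟨m1, hm1⟩ : ∃ m1 : ℂ, m1 = (Y 1 - Y 2) / 2 := ⟨_, rfl⟩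
  have y0 : Y 0 = p0 + m0 := by rw [hp0, hm0]; ring
  have y3 : Y 3 = p0 - m0 := by rw [hp0, hm0]; ring
  have y1 : Y 1 = p1 + m1 := by rw [hp1, hm1]; ring
  have y2 : Y 2 = p1 - m1 := by rw [hp1, hm1]; ring
  rw [y0, y1, y2, y3] at e0 e1 e2 e3
  have a1 : ζ * m0 = 3 * p1 - p0 := by linear_combination (e0 + e3) / 2
  have a2 : ζ * p0 = m0 + m1 := by linear_combination (e0 - e3) / 2
  have a3 : 3 * ζ * m1 = p0 + p1 := by linear_combination -(e1 + e2) / 2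
  have a4 : 3 * ζ * p1 = -3 * m0 - m1 := by linear_combination -(e1 - e2) / 2
  have b1 : (ζ ^ 2 + 2 / 3) * p0 = 10 / 3 * p1 := by
    linear_combination ζ * a2 + a1 + a3 / 3
  have b2 : (ζ ^ 2 + 28 / 9) * p1 = 8 / 9 * p0 := by
    linear_combination ζ * a4 / 3 - a1 - a3 / 9
  have b3 : (ζ ^ 2 + 4) * (ζ ^ 2 - 2 / 9) * p0 = 0 := by
    linear_combination (ζ ^ 2 + 28 / 9) * b1 + 10 / 3 * b2
  have hfun : ∀ (t : Fin 4 → ℂ) (c : ℂ), Y 0 = c * t 0 → Y 1 = c * t 1 → Y 2 = c * t 2 →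
      Y 3 = c * t 3 → Y = c • t := by
    intro t c h0 h1 h2 h3
    funext l
    rw [Pi.smul_apply, smul_eq_mul]
    fin_cases l
    · exact h0
    · exact h1
    · exact h2
    · exact h3
  rcases mul_eq_zero.1 b3 with b4 | b4
  · rcases mul_eq_zero.1 b4 with b5 | b5
    · -- `ζ ^ 2 = -4`
      have c1 : p1 = - p0 := by linear_combination (3 / 10) * (p0 * b5 - b1)
      have c2 : m1 = 0 := by
        rw [c1] at a4
        linear_combination -(a4 + 3 * a2) / 2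
      have c3 : m0 = ζ * p0 := by
        rw [c2] at a2
        linear_combination -a2
      have c4 : ζ ^ 2 = (2 * Complex.I) ^ 2 := by
        rw [mul_pow, Complex.I_sq]
        linear_combination b5
      rcases sq_eq_sq_iff_eq_or_eq_neg.1 c4 with h | h
      · refine ⟨![1 + 2 * Complex.I, -1, -1, 1 - 2 * Complex.I], by simp, p0, hfun _ _ ?_ ?_ ?_ ?_⟩
        · show Y 0 = p0 * (1 + 2 * Complex.I)
          rw [y0, c3, h]; ring
        · show Y 1 = p0 * (-1)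
          rw [y1, c1, c2]; ring
        · show Y 2 = p0 * (-1)
          rw [y2, c1, c2]; ring
        · show Y 3 = p0 * (1 - 2 * Complex.I)
          rw [y3, c3, h]; ring
      · refine ⟨![1 - 2 * Complex.I, -1, -1, 1 + 2 * Complex.I], by simp, p0, hfun _ _ ?_ ?_ ?_ ?_⟩
        · show Y 0 = p0 * (1 - 2 * Complex.I)
          rw [y0, c3, h]; ring
        · show Y 1 = p0 * (-1)
          rw [y1, c1, c2]; ring
        · show Y 2 = p0 * (-1)
          rw [y2, c1, c2]; ring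
        · show Y 3 = p0 * (1 + 2 * Complex.I)
          rw [y3, c3, h]; ring
    · -- `ζ ^ 2 = 2 / 9`
      have c1 : p1 = 4 / 15 * p0 := by linear_combination (3 / 10) * (p0 * b5 - b1)
      have c2 : m0 = - (9 / 10) * ζ * p0 := by
        rw [c1] at a4
        linear_combination (a4 + a2) / 2
      have c3 : m1 = 19 / 10 * ζ * p0 := by
        rw [c2] at a2
        linear_combination -a2
      have c4 : ζ ^ 2 = w ^ 2 := by
        rw [hw]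
        linear_combination b5
      rcases sq_eq_sq_iff_eq_or_eq_neg.1 c4 with h | h
      · refine ⟨![15 - 27 / 2 * w, 4 + 57 / 2 * w, 4 - 57 / 2 * w, 15 + 27 / 2 * w], by simp,
          p0 / 15, hfun _ _ ?_ ?_ ?_ ?_⟩
        · show Y 0 = p0 / 15 * (15 - 27 / 2 * w)
          rw [y0, c2, h]; ring
        · show Y 1 = p0 / 15 * (4 + 57 / 2 * w)
          rw [y1, c1, c3, h]; ring
        · show Y 2 = p0 / 15 * (4 - 57 / 2 * w)
          rw [y2, c1, c3, h]; ring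
        · show Y 3 = p0 / 15 * (15 + 27 / 2 * w)
          rw [y3, c2, h]; ring
      · refine ⟨![15 + 27 / 2 * w, 4 - 57 / 2 * w, 4 + 57 / 2 * w, 15 - 27 / 2 * w], by simp,
          p0 / 15, hfun _ _ ?_ ?_ ?_ ?_⟩
        · show Y 0 = p0 / 15 * (15 + 27 / 2 * w)
          rw [y0, c2, h]; ring
        · show Y 1 = p0 / 15 * (4 - 57 / 2 * w)
          rw [y1, c1, c3, h]; ring
        · show Y 2 = p0 / 15 * (4 + 57 / 2 * w)
          rw [y2, c1, c3, h]; ring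
        · show Y 3 = p0 / 15 * (15 - 27 / 2 * w)
          rw [y3, c2, h]; ring
  · -- `p0 = 0`
    have c1 : p1 = 0 := by
      rw [b4] at b1
      linear_combination -(3 / 10) * b1
    have c2 : m0 = 0 := by
      rw [b4] at a2
      rw [c1] at a4
      linear_combination (a4 + a2) / 2
    have c3 : m1 = 0 := by
      rw [b4, c2] at a2
      linear_combination -a2
    refine ⟨![1 + 2 * Complex.I, -1, -1, 1 - 2 * Complex.I], by simp, 0, hfun _ _ ?_ ?_ ?_ ?_⟩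
    · rw [y0, b4, c2]; ring
    · rw [y1, c1, c3]; ring
    · rw [y2, c1, c3]; ring
    · rw [y3, b4, c2]; ring

end Pool.Agent.MP_1209e6_cy
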