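import Pool.Agent.Lib_MP_1209e6_cy.ExCasesB
import Pool.Agent.Lib_MP_1209e6_cy.ExFLyz
import Pool.Agent.Lib_MP_1209e6_cy.FLin
import Pool.Agent.Lib_MP_1209e6_cy.ThinV

/-!
PIECE [XFY] (MP_1209e6_ag).  Finitely many exceptional points for the second projection.

For the transposed matrix, `B_l(Y)` is `C_0 = -2 Y_1 - Y_2 + Y_3`, `C_1 = -Y_0 + Y_2 + 2 Y_3`,
`C_2 = 2 Y_0 + Y_1 - Y_3`, `C_3 = Y_0 - Y_1 - 2 Y_2`.
-/

open Matrix

namespace Pool.Agent.MP_1209e6_cy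

theorem xfy_lin (a b : Fin 4 → ℂ) (c₀ c₁ c₂ c₃ : ℂ) (h : c₀ ≠ 0 ∨ c₁ ≠ 0 ∨ c₂ ≠ 0 ∨ c₃ ≠ 0)
    {S : Set (Fin 4 → ℂ)}
    (hS : ∀ Y ∈ S, ∃ u v : ℂ, c₀ * u ^ 3 + c₁ * u ^ 2 * v + c₂ * u * v ^ 2 + c₃ * v ^ 3 = 0 ∧
      ∀ i, Y i = a i * u + b i * v) : FinLines S := by
  let L : (Fin 2 → ℂ) →ₗ[ℂ] (Fin 4 → ℂ) :=
    { toFun := fun w i => a i * w 0 + b i * w 1
      map_add' := by
        intro w w'
        funext i
        simp only [Pi.add_apply]
        ring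
      map_smul' := by
        intro c w
        funext i
        simp only [Pi.smul_apply, smul_eq_mul, RingHom.id_apply]
        ring }
  refine (FinLines.image L (finLines_cubic c₀ c₁ c₂ c₃ h)).mono ?_
  intro Y hY
  obtain ⟨u, v, h1, h2⟩ := hS Y hY
  refine ⟨![u, v], ?_, ?_⟩
  · show c₀ * u ^ 3 + c₁ * u ^ 2 * v + c₂ * u * v ^ 2 + c₃ * v ^ 3 = 0
    exact h1
  · funext i
    show a i * u + b i * v = Y i
    exact (h2 i).symm

theorem xfy_C0 (y : Vec 2 ℂ) : Bl (tr4 be) y 0 = -2 * y 1 ^ 2 - y 2 ^ 2 + y 3 ^ 2 := by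
  unfold Bl
  rw [Fin.sum_univ_four]
  show (0 : ℂ) * y 0 ^ 2 + (-2) * y 1 ^ 2 + (-1) * y 2 ^ 2 + 1 * y 3 ^ 2 = _
  ring

theorem xfy_C1 (y : Vec 2 ℂ) : Bl (tr4 be) y 1 = - y 0 ^ 2 + y 2 ^ 2 + 2 * y 3 ^ 2 := by
  unfold Bl
  rw [Fin.sum_univ_four]
  show (-1 : ℂ) * y 0 ^ 2 + 0 * y 1 ^ 2 + 1 * y 2 ^ 2 + 2 * y 3 ^ 2 = _
  ring

theorem xfy_C2 (y : Vec 2 ℂ) : Bl (tr4 be) y 2 = 2 * y 0 ^ 2 + y 1 ^ 2 - y 3 ^ 2 := by
  unfold Bl
  rw [Fin.sum_univ_four]
  show (2 : ℂ) * y 0 ^ 2 + 1 * y 1 ^ 2 + 0 * y 2 ^ 2 + (-1) * y 3 ^ 2 = _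
  ring

theorem xfy_C3 (y : Vec 2 ℂ) : Bl (tr4 be) y 3 = y 0 ^ 2 - y 1 ^ 2 - 2 * y 2 ^ 2 := by
  unfold Bl
  rw [Fin.sum_univ_four]
  show (1 : ℂ) * y 0 ^ 2 + (-1) * y 1 ^ 2 + (-2) * y 2 ^ 2 + 0 * y 3 ^ 2 = _
  ring

/-- two linear equations with nonzero determinant -/
theorem xfy_det {p q r s u v : ℂ} (h1 : p * u + q * v = 0) (h2 : r * u + s * v = 0)
    (hd : p * s - q * r ≠ 0) : u = 0 := by
  have h3 : (p * s - q * r) * u = 0 := by linear_combination s * h1 - q * h2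
  exact (mul_eq_zero.1 h3).resolve_left hd

/-- the nonzero case of two zero coordinates is impossible -/
theorem xfy_two {y : Vec 2 ℂ} (h : Three (tr4 be) y) {i j k l : Fin 4} (hij : i ≠ j)
    (hall : ∀ m, m = i ∨ m = j ∨ m = k ∨ m = l) (hi : y i = 0) (hj : y j = 0) (hk : y k ≠ 0) (hl : y l ≠ 0)
    {p q r s : ℂ} (h1 : Bl (tr4 be) y i = 0 → p * y k ^ 2 + q * y l ^ 2 = 0)
    (h2 : Bl (tr4 be) y j = 0 → r * y k ^ 2 + s * y l ^ 2 = 0) (hd : p * s - q * r ≠ 0) : False := by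
  have h3 := three_case2 (tr4 be) h hij hi hj (by
    intro m hmi hmj
    rcases hall m with h | h | h | h
    · exact absurd h hmi
    · exact absurd h hmj
    · rw [h]
      exact hk
    · rw [h]
      exact hl)
  exact pow_ne_zero 2 hk (xfy_det (h1 h3.1) (h2 h3.2) hd)

/-- the exceptional set -/
def xfyS : Fin 4 → Set (Fin 4 → ℂ) :=
  ![{Y | Y 0 = 0 ∧ Y 1 = (Y 3 - Y 2) / 2 ∧
      27 * Y 2 ^ 3 + (-10) * Y 2 ^ 2 * Y 3 + (-1) * Y 2 * Y 3 ^ 2 + (-4) * Y 3 ^ 3 = 0},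
    {Y | Y 1 = 0 ∧ Y 0 = Y 2 + 2 * Y 3 ∧
      (-16) * Y 2 ^ 3 + 4 * Y 2 ^ 2 * Y 3 + 96 * Y 2 * Y 3 ^ 2 + 24 * Y 3 ^ 3 = 0},
    {Y | Y 2 = 0 ∧ Y 0 = (Y 3 - Y 1) / 2 ∧
      3 * Y 1 ^ 3 + (-37) * Y 1 ^ 2 * Y 3 + 15 * Y 1 * Y 3 ^ 2 + 3 * Y 3 ^ 3 = 0},
    {Y | Y 3 = 0 ∧ Y 0 = Y 1 + 2 * Y 2 ∧
      12 * Y 1 ^ 3 + (-48) * Y 1 ^ 2 * Y 2 + (-52) * Y 1 * Y 2 ^ 2 + (-32) * Y 2 ^ 3 = 0}]

theorem xfyS_fin (j : Fin 4) : FinLines (xfyS j) := by
  fin_cases j
  · refine xfy_lin ![0, -1 / 2, 1, 0] ![0, 1 / 2, 0, 1] 27 (-10) (-1) (-4) (Or.inl (by norm_num)) ?_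
    rintro Y ⟨h0, h1, h2⟩
    refine ⟨Y 2, Y 3, h2, ?_⟩
    intro i
    fin_cases i
    · show Y 0 = 0 * Y 2 + 0 * Y 3
      rw [h0]
      ring
    · show Y 1 = -1 / 2 * Y 2 + 1 / 2 * Y 3
      rw [h1]
      ring
    · show Y 2 = 1 * Y 2 + 0 * Y 3
      ring
    · show Y 3 = 0 * Y 2 + 1 * Y 3
      ring
  · refine xfy_lin ![1, 0, 1, 0] ![2, 0, 0, 1] (-16) 4 96 24 (Or.inl (by norm_num)) ?_
    rintro Y ⟨h0, h1, h2⟩
    refine ⟨Y 2, Y 3, h2, ?_⟩
    intro i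
    fin_cases i
    · show Y 0 = 1 * Y 2 + 2 * Y 3
      rw [h1]
      ring
    · show Y 1 = 0 * Y 2 + 0 * Y 3
      rw [h0]
      ring
    · show Y 2 = 1 * Y 2 + 0 * Y 3
      ring
    · show Y 3 = 0 * Y 2 + 1 * Y 3
      ring
  · refine xfy_lin ![-1 / 2, 1, 0, 0] ![1 / 2, 0, 0, 1] 3 (-37) 15 3 (Or.inl (by norm_num)) ?_
    rintro Y ⟨h0, h1, h2⟩
    refine ⟨Y 1, Y 3, h2, ?_⟩
    intro i
    fin_cases i
    · show Y 0 = -1 / 2 * Y 1 + 1 / 2 * Y 3
      rw [h1]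
      ring
    · show Y 1 = 1 * Y 1 + 0 * Y 3
      ring
    · show Y 2 = 0 * Y 1 + 0 * Y 3
      rw [h0]
      ring
    · show Y 3 = 0 * Y 1 + 1 * Y 3
      ring
  · refine xfy_lin ![1, 1, 0, 0] ![2, 0, 1, 0] 12 (-48) (-52) (-32) (Or.inl (by norm_num)) ?_
    rintro Y ⟨h0, h1, h2⟩
    refine ⟨Y 1, Y 2, h2, ?_⟩
    intro i
    fin_cases i
    · show Y 0 = 1 * Y 1 + 2 * Y 2
      rw [h1]
      ring
    · show Y 1 = 1 * Y 1 + 0 * Y 2
      ring
    · show Y 2 = 0 * Y 1 + 1 * Y 2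
      ring
    · show Y 3 = 0 * Y 1 + 0 * Y 2
      rw [h0]
      ring

/-- the multiples of the vectors of the standard basis -/
def xfyE : Set (Fin 4 → ℂ) := {Y | ∃ j, ∀ l, l ≠ j → Y l = 0}

theorem xfyE_fin : FinLines xfyE := by
  classical
  refine ⟨Finset.univ.image fun j : Fin 4 => (Pi.single j 1 : Fin 4 → ℂ), ?_⟩
  rintro Y ⟨j, hj⟩
  refine ⟨Pi.single j 1, Finset.mem_image_of_mem _ (Finset.mem_univ j), Y j, ?_⟩
  funext l
  by_cases h : l = j
  · subst h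
    simp
  · rw [Pi.smul_apply, Pi.single_eq_of_ne h, smul_zero]
    exact hj l h

theorem xfy_one0 {y : Vec 2 ℂ} (h : Three (tr4 be) y) (h0 : y 0 = 0) (h1 : y 1 ≠ 0) (h2 : y 2 ≠ 0)
    (h3 : y 3 ≠ 0) : (fun j => y j ^ 2) ∈ xfyS 0 := by
  obtain ⟨ha, hb⟩ := three_case1 (tr4 be) h h0 (by
    intro l hl
    fin_cases l
    · exact absurd rfl hl
    · exact h1
    · exact h2
    · exact h3)
  rw [xfy_C0] at ha
  have e0 : (Finset.univ : Finset (Fin 4)).erase 0 = {1, 2, 3} := by decide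
  have e1 : ({1, 2, 3} : Finset (Fin 4)).erase 1 = {2, 3} := by decide
  have e2 : ({1, 2, 3} : Finset (Fin 4)).erase 2 = {1, 3} := by decide
  have e3 : ({1, 2, 3} : Finset (Fin 4)).erase 3 = {1, 2} := by decide
  rw [e0, Finset.sum_insert (by decide), Finset.sum_insert (by decide), Finset.sum_singleton, e1, e2, e3,
    Finset.prod_insert (by decide), Finset.prod_singleton, Finset.prod_insert (by decide), Finset.prod_singleton,
    Finset.prod_insert (by decide), Finset.prod_singleton, xfy_C1, xfy_C2, xfy_C3, ss0, ss1, ss2, ss3] at hb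
  show y 0 ^ 2 = 0 ∧ y 1 ^ 2 = (y 3 ^ 2 - y 2 ^ 2) / 2 ∧
      27 * (y 2 ^ 2) ^ 3 + (-10) * (y 2 ^ 2) ^ 2 * y 3 ^ 2 + (-1) * y 2 ^ 2 * (y 3 ^ 2) ^ 2 +
        (-4) * (y 3 ^ 2) ^ 3 = 0
  have hY1 : y 1 ^ 2 = (y 3 ^ 2 - y 2 ^ 2) / 2 := by linear_combination (-1 / 2 : ℂ) * ha
  refine ⟨by rw [h0]; ring, hY1, ?_⟩
  rw [h0, hY1] at hb
  linear_combination hb

theorem xfy_one1 {y : Vec 2 ℂ} (h : Three (tr4 be) y) (h0 : y 0 ≠ 0) (h1 : y 1 = 0) (h2 : y 2 ≠ 0)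
    (h3 : y 3 ≠ 0) : (fun j => y j ^ 2) ∈ xfyS 1 := by
  obtain ⟨ha, hb⟩ := three_case1 (tr4 be) h h1 (by
    intro l hl
    fin_cases l
    · exact h0
    · exact absurd rfl hl
    · exact h2
    · exact h3)
  rw [xfy_C1] at ha
  have e0 : (Finset.univ : Finset (Fin 4)).erase 1 = {0, 2, 3} := by decide
  have e1 : ({0, 2, 3} : Finset (Fin 4)).erase 0 = {2, 3} := by decide
  have e2 : ({0, 2, 3} : Finset (Fin 4)).erase 2 = {0, 3} := by decide
  have e3 : ({0, 2, 3} : Finset (Fin 4)).erase 3 = {0, 2} := by decide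
  rw [e0, Finset.sum_insert (by decide), Finset.sum_insert (by decide), Finset.sum_singleton, e1, e2, e3,
    Finset.prod_insert (by decide), Finset.prod_singleton, Finset.prod_insert (by decide), Finset.prod_singleton,
    Finset.prod_insert (by decide), Finset.prod_singleton, xfy_C0, xfy_C2, xfy_C3, ss0, ss1, ss2, ss3] at hb
  show y 1 ^ 2 = 0 ∧ y 0 ^ 2 = y 2 ^ 2 + 2 * y 3 ^ 2 ∧
      (-16) * (y 2 ^ 2) ^ 3 + 4 * (y 2 ^ 2) ^ 2 * y 3 ^ 2 + 96 * y 2 ^ 2 * (y 3 ^ 2) ^ 2 +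
        24 * (y 3 ^ 2) ^ 3 = 0
  have hY1 : y 0 ^ 2 = y 2 ^ 2 + 2 * y 3 ^ 2 := by linear_combination (-1 : ℂ) * ha
  refine ⟨by rw [h1]; ring, hY1, ?_⟩
  rw [h1, hY1] at hb
  linear_combination hb

theorem xfy_one2 {y : Vec 2 ℂ} (h : Three (tr4 be) y) (h0 : y 0 ≠ 0) (h1 : y 1 ≠ 0) (h2 : y 2 = 0)
    (h3 : y 3 ≠ 0) : (fun j => y j ^ 2) ∈ xfyS 2 := by
  obtain ⟨ha, hb⟩ := three_case1 (tr4 be) h h2 (by
    intro l hl
    fin_cases l
    · exact h0
    · exact h1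
    · exact absurd rfl hl
    · exact h3)
  rw [xfy_C2] at ha
  have e0 : (Finset.univ : Finset (Fin 4)).erase 2 = {0, 1, 3} := by decide
  have e1 : ({0, 1, 3} : Finset (Fin 4)).erase 0 = {1, 3} := by decide
  have e2 : ({0, 1, 3} : Finset (Fin 4)).erase 1 = {0, 3} := by decide
  have e3 : ({0, 1, 3} : Finset (Fin 4)).erase 3 = {0, 1} := by decide
  rw [e0, Finset.sum_insert (by decide), Finset.sum_insert (by decide), Finset.sum_singleton, e1, e2, e3,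
    Finset.prod_insert (by decide), Finset.prod_singleton, Finset.prod_insert (by decide), Finset.prod_singleton,
    Finset.prod_insert (by decide), Finset.prod_singleton, xfy_C0, xfy_C1, xfy_C3, ss0, ss1, ss2, ss3] at hb
  show y 2 ^ 2 = 0 ∧ y 0 ^ 2 = (y 3 ^ 2 - y 1 ^ 2) / 2 ∧
      3 * (y 1 ^ 2) ^ 3 + (-37) * (y 1 ^ 2) ^ 2 * y 3 ^ 2 + 15 * y 1 ^ 2 * (y 3 ^ 2) ^ 2 +
        3 * (y 3 ^ 2) ^ 3 = 0
  have hY1 : y 0 ^ 2 = (y 3 ^ 2 - y 1 ^ 2) / 2 := by linear_combination (1 / 2 : ℂ) * ha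
  refine ⟨by rw [h2]; ring, hY1, ?_⟩
  rw [h2, hY1] at hb
  linear_combination hb

theorem xfy_one3 {y : Vec 2 ℂ} (h : Three (tr4 be) y) (h0 : y 0 ≠ 0) (h1 : y 1 ≠ 0) (h2 : y 2 ≠ 0)
    (h3 : y 3 = 0) : (fun j => y j ^ 2) ∈ xfyS 3 := by
  obtain ⟨ha, hb⟩ := three_case1 (tr4 be) h h3 (by
    intro l hl
    fin_cases l
    · exact h0
    · exact h1
    · exact h2
    · exact absurd rfl hl)
  rw [xfy_C3] at ha
  have e0 : (Finset.univ : Finset (Fin 4)).erase 3 = {0, 1, 2} := by decide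
  have e1 : ({0, 1, 2} : Finset (Fin 4)).erase 0 = {1, 2} := by decide
  have e2 : ({0, 1, 2} : Finset (Fin 4)).erase 1 = {0, 2} := by decide
  have e3 : ({0, 1, 2} : Finset (Fin 4)).erase 2 = {0, 1} := by decide
  rw [e0, Finset.sum_insert (by decide), Finset.sum_insert (by decide), Finset.sum_singleton, e1, e2, e3,
    Finset.prod_insert (by decide), Finset.prod_singleton, Finset.prod_insert (by decide), Finset.prod_singleton,
    Finset.prod_insert (by decide), Finset.prod_singleton, xfy_C0, xfy_C1, xfy_C2, ss0, ss1, ss2, ss3] at hb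
  show y 3 ^ 2 = 0 ∧ y 0 ^ 2 = y 1 ^ 2 + 2 * y 2 ^ 2 ∧
      12 * (y 1 ^ 2) ^ 3 + (-48) * (y 1 ^ 2) ^ 2 * y 2 ^ 2 + (-52) * y 1 ^ 2 * (y 2 ^ 2) ^ 2 +
        (-32) * (y 2 ^ 2) ^ 3 = 0
  have hY1 : y 0 ^ 2 = y 1 ^ 2 + 2 * y 2 ^ 2 := by linear_combination ha
  refine ⟨by rw [h3]; ring, hY1, ?_⟩
  rw [h3, hY1] at hb
  linear_combination hb

/-- PIECE [XFY].  The same as `finLines_three` for the transposed matrix.

The cubics for exactly one zero coordinate: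
`j = 0`: `-2 Y_1 - Y_2 + Y_3 = 0`, `Y_1 = (Y_3 - Y_2)/2`: `27 Y_2^3 - 10 Y_2^2 Y_3 - Y_2 Y_3^2 - 4 Y_3^3`;
`j = 1`: `-Y_0 + Y_2 + 2 Y_3 = 0`, `Y_0 = Y_2 + 2 Y_3`: `-16 Y_2^3 + 4 Y_2^2 Y_3 + 96 Y_2 Y_3^2 + 24 Y_3^3`;
`j = 2`: `2 Y_0 + Y_1 - Y_3 = 0`, `Y_0 = (Y_3 - Y_1)/2`: `3 Y_1^3 - 37 Y_1^2 Y_3 + 15 Y_1 Y_3^2 + 3 Y_3^3`;
`j = 3`: `Y_0 - Y_1 - 2 Y_2 = 0`, `Y_0 = Y_1 + 2 Y_2`: `12 Y_1^3 - 48 Y_1^2 Y_2 - 52 Y_1 Y_2^2 - 32 Y_2^3`. -/
theorem finLines_three' : FinLines {y : Vec 2 ℂ | Three (tr4 be) y} := by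
  refine FinLines.of_sq (FinLines.mono ?_ (finLines_case0'.union ((((xfyS_fin 0).union (xfyS_fin 1)).union
    ((xfyS_fin 2).union (xfyS_fin 3))).union xfyE_fin)))
  rintro Y ⟨y, hy, rfl⟩
  have h : Three (tr4 be) y := hy
  have sq0 : ∀ j, y j = 0 → y j ^ 2 = 0 := fun j hj => by rw [hj]; ring
  have hall : ∀ i j k l : Fin 4, i ≠ j → i ≠ k → i ≠ l → j ≠ k → j ≠ l → k ≠ l →
      ∀ m, m = i ∨ m = j ∨ m = k ∨ m = l := by decide
  by_cases h0 : y 0 = 0
  · by_cases h1 : y 1 = 0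
    · by_cases h2 : y 2 = 0
      · refine Or.inr (Or.inr ⟨3, ?_⟩)
        intro l hl
        fin_cases l
        · exact sq0 0 h0
        · exact sq0 1 h1
        · exact sq0 2 h2
        · exact absurd rfl hl
      · by_cases h3 : y 3 = 0
        · refine Or.inr (Or.inr ⟨2, ?_⟩)
          intro l hl
          fin_cases l
          · exact sq0 0 h0
          · exact sq0 1 h1
          · exact absurd rfl hl
          · exact sq0 3 h3
        · exfalso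
          exact xfy_two h (i := 0) (j := 1) (k := 2) (l := 3) (by decide)
            (hall 0 1 2 3 (by decide) (by decide) (by decide) (by decide) (by decide) (by decide)) h0 h1 h2 h3
            (p := -1) (q := 1) (r := 1) (s := 2)
            (fun e => by rw [xfy_C0, h1] at e; linear_combination e)
            (fun e => by rw [xfy_C1, h0] at e; linear_combination e) (by norm_num)
    · by_cases h2 : y 2 = 0
      · by_cases h3 : y 3 = 0
        · refine Or.inr (Or.inr ⟨1, ?_⟩)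
          intro l hl
          fin_cases l
          · exact sq0 0 h0
          · exact absurd rfl hl
          · exact sq0 2 h2
          · exact sq0 3 h3
        · exfalso
          exact xfy_two h (i := 0) (j := 2) (k := 1) (l := 3) (by decide)
            (hall 0 2 1 3 (by decide) (by decide) (by decide) (by decide) (by decide) (by decide)) h0 h2 h1 h3
            (p := -2) (q := 1) (r := 1) (s := -1)
            (fun e => by rw [xfy_C0, h2] at e; linear_combination e)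
            (fun e => by rw [xfy_C2, h0] at e; linear_combination e) (by norm_num)
      · by_cases h3 : y 3 = 0
        · exfalso
          exact xfy_two h (i := 0) (j := 3) (k := 1) (l := 2) (by decide)
            (hall 0 3 1 2 (by decide) (by decide) (by decide) (by decide) (by decide) (by decide)) h0 h3 h1 h2
            (p := -2) (q := -1) (r := -1) (s := -2)
            (fun e => by rw [xfy_C0, h3] at e; linear_combination e)
            (fun e => by rw [xfy_C3, h0] at e; linear_combination e) (by norm_num)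
        · exact Or.inr (Or.inl (Or.inl (Or.inl (xfy_one0 h h0 h1 h2 h3))))
  · by_cases h1 : y 1 = 0
    · by_cases h2 : y 2 = 0
      · by_cases h3 : y 3 = 0
        · refine Or.inr (Or.inr ⟨0, ?_⟩)
          intro l hl
          fin_cases l
          · exact absurd rfl hl
          · exact sq0 1 h1
          · exact sq0 2 h2
          · exact sq0 3 h3
        · exfalso
          exact xfy_two h (i := 1) (j := 2) (k := 0) (l := 3) (by decide)
            (hall 1 2 0 3 (by decide) (by decide) (by decide) (by decide) (by decide) (by decide)) h1 h2 h0 h3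
            (p := -1) (q := 2) (r := 2) (s := -1)
            (fun e => by rw [xfy_C1, h2] at e; linear_combination e)
            (fun e => by rw [xfy_C2, h1] at e; linear_combination e) (by norm_num)
      · by_cases h3 : y 3 = 0
        · exfalso
          exact xfy_two h (i := 1) (j := 3) (k := 0) (l := 2) (by decide)
            (hall 1 3 0 2 (by decide) (by decide) (by decide) (by decide) (by decide) (by decide)) h1 h3 h0 h2
            (p := -1) (q := 1) (r := 1) (s := -2)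
            (fun e => by rw [xfy_C1, h3] at e; linear_combination e)
            (fun e => by rw [xfy_C3, h1] at e; linear_combination e) (by norm_num)
        · exact Or.inr (Or.inl (Or.inl (Or.inr (xfy_one1 h h0 h1 h2 h3))))
    · by_cases h2 : y 2 = 0
      · by_cases h3 : y 3 = 0
        · exfalso
          exact xfy_two h (i := 2) (j := 3) (k := 0) (l := 1) (by decide)
            (hall 2 3 0 1 (by decide) (by decide) (by decide) (by decide) (by decide) (by decide)) h2 h3 h0 h1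
            (p := 2) (q := 1) (r := 1) (s := -1)
            (fun e => by rw [xfy_C2, h3] at e; linear_combination e)
            (fun e => by rw [xfy_C3, h2] at e; linear_combination e) (by norm_num)
        · exact Or.inr (Or.inl (Or.inr (Or.inl (xfy_one2 h h0 h1 h2 h3))))
      · by_cases h3 : y 3 = 0
        · exact Or.inr (Or.inl (Or.inr (Or.inr (xfy_one3 h h0 h1 h2 h3))))
        · refine Or.inl ?_
          have hx : ∀ j, y j ≠ 0 := by
            intro j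
            fin_cases j
            · exact h0
            · exact h1
            · exact h2
            · exact h3
          exact three_case0 (tr4 be) h hx

end Pool.Agent.MP_1209e6_cy
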