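import Mathlib

/-!
PIECE [XIQ] (MP_1209e6_ag).  Divisibility by a quadratic polynomial with nonsquare discriminant.
-/

open MvPolynomial

namespace Pool.Agent.MP_1209e6_cy

/-- PIECE [XIQ].  The evaluation of a polynomial in `T` with coefficients in `A = ℂ[x]` at a point `(x, T)`. -/
noncomputable def ev {N : ℕ} (x : Fin N → ℂ) (T : ℂ) : Polynomial (MvPolynomial (Fin N) ℂ) →+* ℂ :=
  Polynomial.eval₂RingHom (aeval x : MvPolynomial (Fin N) ℂ →ₐ[ℂ] ℂ).toRingHom T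

private theorem ev_C {N : ℕ} (x : Fin N → ℂ) (T : ℂ) (a : MvPolynomial (Fin N) ℂ) :
    ev x T (Polynomial.C a) = aeval x a := by
  simp [ev]

private theorem ev_X {N : ℕ} (x : Fin N → ℂ) (T : ℂ) :
    ev x T Polynomial.X = T := by
  simp [ev]

/-- pseudo-division by a quadratic polynomial -/
private theorem pdiv {A : Type*} [CommRing A] (g₀ g₁ g₂ : A) (F : Polynomial A) :
    ∃ (n : ℕ) (S : Polynomial A) (b c : A),
      Polynomial.C (g₀ ^ n) * F = (Polynomial.C g₀ * Polynomial.X ^ 2 +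
        2 * Polynomial.C g₁ * Polynomial.X + Polynomial.C g₂) * S +
        (Polynomial.C b * Polynomial.X + Polynomial.C c) := by
  induction F using Polynomial.induction_on with
  | C a => exact ⟨0, 0, 0, a, by simp⟩
  | add p q hp hq =>
    obtain ⟨n, S, b, c, h⟩ := hp
    obtain ⟨m, S', b', c', h'⟩ := hq
    refine ⟨n + m, Polynomial.C (g₀ ^ m) * S + Polynomial.C (g₀ ^ n) * S',
      g₀ ^ m * b + g₀ ^ n * b', g₀ ^ m * c + g₀ ^ n * c', ?_⟩
    simp only [pow_add, Polynomial.C_mul, Polynomial.C_add]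
    linear_combination Polynomial.C (g₀ ^ m) * h + Polynomial.C (g₀ ^ n) * h'
  | monomial k a hk =>
    obtain ⟨n, S, b, c, h⟩ := hk
    refine ⟨n + 1, Polynomial.C g₀ * Polynomial.X * S + Polynomial.C b,
      g₀ * c - 2 * g₁ * b, - (g₂ * b), ?_⟩
    have h2 : (Polynomial.C (2 : A)) = 2 := rfl
    simp only [pow_succ g₀ n, Polynomial.C_mul, Polynomial.C_sub, Polynomial.C_neg, h2,
      pow_succ Polynomial.X k]
    linear_combination Polynomial.C g₀ * Polynomial.X * h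

/-- the algebra of the two linear remainders -/
private theorem rem_zero {A : Type*} [CommRing A] [IsDomain A] [IsIntegrallyClosed A]
    (htwo : (2 : A) ≠ 0) (g₀ g₁ g₂ b₁ b₂ c₁ c₂ : A) (hg₀ : g₀ ≠ 0)
    (hsq : ¬ ∃ R : A, R ^ 2 = g₁ ^ 2 - g₀ * g₂)
    (E1 : g₀ * (b₁ * c₂ + b₂ * c₁) - 2 * g₁ * (b₁ * b₂) = 0)
    (E2 : g₀ * (c₁ * c₂) - g₂ * (b₁ * b₂) = 0) :
    (b₁ = 0 ∧ c₁ = 0) ∨ (b₂ = 0 ∧ c₂ = 0) := by
  have hw : b₁ * b₂ = 0 := by
    by_contra hw
    have hsqr : (2 * (b₁ * b₂)) ^ 2 * (g₁ ^ 2 - g₀ * g₂) = (g₀ * (c₁ * b₂ - c₂ * b₁)) ^ 2 := by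
      linear_combination
        (-(g₀ * (b₁ * c₂ + b₂ * c₁)) - 2 * g₁ * (b₁ * b₂)) * E1 + 4 * g₀ * b₁ * b₂ * E2
    have hdvd : (2 * (b₁ * b₂)) ∣ (g₀ * (c₁ * b₂ - c₂ * b₁)) := by
      rw [← IsIntegrallyClosed.pow_dvd_pow_iff (n := 2) (by norm_num)]
      exact ⟨_, hsqr.symm⟩
    obtain ⟨z, hz⟩ := hdvd
    have h2w : (2 * (b₁ * b₂)) ≠ 0 := mul_ne_zero htwo hw
    refine hsq ⟨z, ?_⟩
    rw [hz, mul_pow (2 * (b₁ * b₂)) z] at hsqr
    exact (mul_left_cancel₀ (pow_ne_zero 2 h2w) hsqr).symm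
  rcases mul_eq_zero.1 hw with hb | hb
  · subst hb
    have e1 : g₀ * (b₂ * c₁) = 0 := by linear_combination E1
    have e2 : g₀ * (c₁ * c₂) = 0 := by linear_combination E2
    rcases mul_eq_zero.1 ((mul_eq_zero.1 e1).resolve_left hg₀) with hb2 | hc1
    · rcases mul_eq_zero.1 ((mul_eq_zero.1 e2).resolve_left hg₀) with hc1 | hc2
      · exact Or.inl ⟨rfl, hc1⟩
      · exact Or.inr ⟨hb2, hc2⟩
    · exact Or.inl ⟨rfl, hc1⟩
  · subst hb
    have e1 : g₀ * (b₁ * c₂) = 0 := by linear_combination E1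
    have e2 : g₀ * (c₁ * c₂) = 0 := by linear_combination E2
    rcases mul_eq_zero.1 ((mul_eq_zero.1 e1).resolve_left hg₀) with hb1 | hc2
    · rcases mul_eq_zero.1 ((mul_eq_zero.1 e2).resolve_left hg₀) with hc1 | hc2
      · exact Or.inl ⟨hb1, hc1⟩
      · exact Or.inr ⟨rfl, hc2⟩
    · exact Or.inr ⟨rfl, hc2⟩

/-- PIECE [XIQ].  Let `g = g₀ T^2 + 2 g₁ T + g₂`, `δ = g₁^2 - g₀ g₂` not a square in `A = ℂ[x]`, and suppose that
`P Q` vanishes at all points `(x, T)` with `g(x, T) = 0`, `g₀(x) δ(x) ≠ 0`.  Then `g` divides `P` or `Q` up to a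
nonzero factor in `A`.

Proof.  `K = Frac A`.  `g₀ ≠ 0` and `δ ≠ 0` (otherwise `δ` is a square: `δ = g₁^2`, `δ = 0^2`).  `δ` is not a square in `K`
(`A` is integrally closed: `IsIntegrallyClosed`), so `g` has no root in `K` (a root `T` gives `(g₀ T + g₁)^2 = δ`) and is
irreducible in `K[T]` (degree 2).  Claim: `g ∣ P Q` in `K[T]`.  Pseudo-division: `g₀^n P Q = g S + R` in `A[T]`, `deg R ≤ 1`
(or: divide in `K[T]` and clear denominators: `a P Q = g S + R` with `0 ≠ a ∈ A`).  For `x` with `g₀(x) δ(x) ≠ 0` the polynomial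
`g_x` has two distinct roots `T` and `R_x(T) = 0` for both, so `R_x = 0`: the two coefficients of `R` vanish at all `x` with
`g₀(x) δ(x) ≠ 0`; so `g₀ δ R_i` vanishes at all points of `ℂ^N` and is `0` (`MvPolynomial.funext`), `R_i = 0`.  Hence the claim,
and `g ∣ P` or `g ∣ Q` in `K[T]` (irreducible = prime); clear denominators. -/
theorem quad_dvd {N : ℕ} (g₀ g₁ g₂ : MvPolynomial (Fin N) ℂ)
    (hsq : ¬ ∃ R : MvPolynomial (Fin N) ℂ, R ^ 2 = g₁ ^ 2 - g₀ * g₂)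
    (P Q : Polynomial (MvPolynomial (Fin N) ℂ))
    (h : ∀ x : Fin N → ℂ, aeval x g₀ ≠ 0 → aeval x (g₁ ^ 2 - g₀ * g₂) ≠ 0 → ∀ T : ℂ,
      aeval x g₀ * T ^ 2 + 2 * aeval x g₁ * T + aeval x g₂ = 0 → ev x T P = 0 ∨ ev x T Q = 0) :
    ∃ a : MvPolynomial (Fin N) ℂ, a ≠ 0 ∧ ∃ S : Polynomial (MvPolynomial (Fin N) ℂ),
      Polynomial.C a * P = (Polynomial.C g₀ * Polynomial.X ^ 2 + 2 * Polynomial.C g₁ * Polynomial.X +
        Polynomial.C g₂) * S ∨
      Polynomial.C a * Q = (Polynomial.C g₀ * Polynomial.X ^ 2 + 2 * Polynomial.C g₁ * Polynomial.X +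
        Polynomial.C g₂) * S := by
  have hg₀ : g₀ ≠ 0 := by
    rintro rfl
    exact hsq ⟨g₁, by ring⟩
  have hδ : g₁ ^ 2 - g₀ * g₂ ≠ 0 := by
    intro h0
    exact hsq ⟨0, by rw [h0]; ring⟩
  obtain ⟨m, S₁, b₁, c₁, h₁⟩ := pdiv g₀ g₁ g₂ P
  obtain ⟨k, S₂, b₂, c₂, h₂⟩ := pdiv g₀ g₁ g₂ Q
  -- a polynomial vanishing where `g₀ δ ≠ 0` is zero
  have key : ∀ p : MvPolynomial (Fin N) ℂ,
      (∀ x : Fin N → ℂ, aeval x g₀ ≠ 0 → aeval x (g₁ ^ 2 - g₀ * g₂) ≠ 0 → aeval x p = 0) →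
      p = 0 := by
    intro p hp
    have h0 : g₀ * (g₁ ^ 2 - g₀ * g₂) * p = 0 := by
      apply MvPolynomial.funext
      intro x
      have hx : eval x g₀ ≠ 0 → eval x (g₁ ^ 2 - g₀ * g₂) ≠ 0 → eval x p = 0 := by
        have h' := hp x
        simpa only [MvPolynomial.aeval_eq_eval] using h'
      rw [map_mul, map_mul, map_zero]
      by_cases hA : eval x g₀ = 0
      · rw [hA]; ring
      · by_cases hB : eval x (g₁ ^ 2 - g₀ * g₂) = 0
        · rw [hB]; ring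
        · rw [hx hA hB]; ring
    rcases mul_eq_zero.1 h0 with h1 | h1
    · rcases mul_eq_zero.1 h1 with h2 | h2
      · exact absurd h2 hg₀
      · exact absurd h2 hδ
    · exact h1
  -- the two linear remainders
  have hroots : ∀ x : Fin N → ℂ, aeval x g₀ ≠ 0 → aeval x (g₁ ^ 2 - g₀ * g₂) ≠ 0 →
      ∀ T : ℂ, aeval x g₀ * T ^ 2 + 2 * aeval x g₁ * T + aeval x g₂ = 0 →
      (aeval x b₁ * T + aeval x c₁) * (aeval x b₂ * T + aeval x c₂) = 0 := by
    intro x hx0 hxδ T hT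
    rcases h x hx0 hxδ T hT with hP | hQ
    · have e := congrArg (ev x T) h₁
      simp only [map_mul, map_add, map_pow, ev_C, ev_X, hP, map_ofNat] at e
      have : aeval x b₁ * T + aeval x c₁ = 0 := by
        linear_combination (-(1:ℂ)) * e - (ev x T S₁) * hT
      rw [this, zero_mul]
    · have e := congrArg (ev x T) h₂
      simp only [map_mul, map_add, map_pow, ev_C, ev_X, hQ, map_ofNat] at e
      have : aeval x b₂ * T + aeval x c₂ = 0 := by
        linear_combination (-(1:ℂ)) * e - (ev x T S₂) * hT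
      rw [this, mul_zero]
  have hcoef : ∀ x : Fin N → ℂ, aeval x g₀ ≠ 0 → aeval x (g₁ ^ 2 - g₀ * g₂) ≠ 0 →
      aeval x g₀ * (aeval x b₁ * aeval x c₂ + aeval x b₂ * aeval x c₁)
        - 2 * aeval x g₁ * (aeval x b₁ * aeval x b₂) = 0 ∧
      aeval x g₀ * (aeval x c₁ * aeval x c₂) - aeval x g₂ * (aeval x b₁ * aeval x b₂) = 0 := by
    intro x hx0 hxδ
    obtain ⟨s, hs⟩ := IsAlgClosed.exists_pow_nat_eq (aeval x (g₁ ^ 2 - g₀ * g₂)) (n := 2) two_pos
    have hs0 : s ≠ 0 := by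
      rintro rfl
      apply hxδ
      rw [← hs]
      ring
    have hr := hroots x hx0 hxδ
    rw [map_sub, map_mul, map_pow] at hs
    generalize aeval x g₀ = G0 at *
    generalize aeval x g₁ = G1 at *
    generalize aeval x g₂ = G2 at *
    generalize aeval x b₁ = B1 at *
    generalize aeval x b₂ = B2 at *
    generalize aeval x c₁ = C1 at *
    generalize aeval x c₂ = C2 at *
    have r1 := hr ((-G1 + s) / G0) (by field_simp; linear_combination hs)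
    have r2 := hr ((-G1 - s) / G0) (by field_simp; linear_combination hs)
    have r1' : (B1 * (-G1 + s) + C1 * G0) * (B2 * (-G1 + s) + C2 * G0) = 0 := by
      have : (B1 * (-G1 + s) + C1 * G0) * (B2 * (-G1 + s) + C2 * G0)
          = G0 ^ 2 * ((B1 * ((-G1 + s) / G0) + C1) * (B2 * ((-G1 + s) / G0) + C2)) := by
        field_simp
      rw [this, r1, mul_zero]
    have r2' : (B1 * (-G1 - s) + C1 * G0) * (B2 * (-G1 - s) + C2 * G0) = 0 := by
      have : (B1 * (-G1 - s) + C1 * G0) * (B2 * (-G1 - s) + C2 * G0)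
          = G0 ^ 2 * ((B1 * ((-G1 - s) / G0) + C1) * (B2 * ((-G1 - s) / G0) + C2)) := by
        field_simp
      rw [this, r2, mul_zero]
    have e1 : G0 * (B1 * C2 + B2 * C1) - 2 * G1 * (B1 * B2) = 0 := by
      have : 2 * s * (G0 * (B1 * C2 + B2 * C1) - 2 * G1 * (B1 * B2)) = 0 := by
        linear_combination r1' - r2'
      rcases mul_eq_zero.1 this with h | h
      · rcases mul_eq_zero.1 h with h | h
        · norm_num at h
        · exact absurd h hs0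
      · exact h
    refine ⟨e1, ?_⟩
    have : 2 * G0 * (G0 * (C1 * C2) - G2 * (B1 * B2)) = 0 := by
      linear_combination r1' + r2' - 2 * B1 * B2 * hs + 2 * G1 * e1
    rcases mul_eq_zero.1 this with h | h
    · rcases mul_eq_zero.1 h with h | h
      · norm_num at h
      · exact absurd h hx0
    · exact h
  have E1 : g₀ * (b₁ * c₂ + b₂ * c₁) - 2 * g₁ * (b₁ * b₂) = 0 := by
    apply key
    intro x hx0 hxδ
    have := (hcoef x hx0 hxδ).1
    simpa only [map_sub, map_mul, map_add, map_ofNat] using this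
  have E2 : g₀ * (c₁ * c₂) - g₂ * (b₁ * b₂) = 0 := by
    apply key
    intro x hx0 hxδ
    have := (hcoef x hx0 hxδ).2
    simpa only [map_sub, map_mul, map_add, map_ofNat] using this
  -- one of the remainders vanishes
  have htwo : (2 : MvPolynomial (Fin N) ℂ) ≠ 0 := by
    intro h0
    have := congrArg (MvPolynomial.eval (fun _ => (0 : ℂ))) h0
    rw [map_ofNat, map_zero] at this
    norm_num at this
  have hR : (b₁ = 0 ∧ c₁ = 0) ∨ (b₂ = 0 ∧ c₂ = 0) :=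
    rem_zero htwo g₀ g₁ g₂ b₁ b₂ c₁ c₂ hg₀ hsq E1 E2
  rcases hR with ⟨hb, hc⟩ | ⟨hb, hc⟩
  · refine ⟨g₀ ^ m, pow_ne_zero _ hg₀, S₁, Or.inl ?_⟩
    rw [h₁, hb, hc]
    simp
  · refine ⟨g₀ ^ k, pow_ne_zero _ hg₀, S₂, Or.inr ?_⟩
    rw [h₂, hb, hc]
    simp

end Pool.Agent.MP_1209e6_cy
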