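import Pool.Agent.Lib_MP_1209e6_cy.IrrA
import Pool.Agent.Lib_MP_1209e6_cy.IrrQ

/-!
PIECE [XIB] (MP_1209e6_ag).  Generic irreducibility from the discriminant.
-/

open Matrix MvPolynomial

namespace Pool.Agent.MP_1209e6_cy

variable {m : ℕ}

/-- the substitution `x = x`, `y = T u₁(x) + u₂(x)` -/
private noncomputable def xibF (D : Dat m ℂ) (w₁ w₂ : Vec m ℂ) :
    Fin (m + 2) ⊕ Fin (m + 2) → Polynomial (MvPolynomial (Fin (m + 2)) ℂ) :=
  Sum.elim (fun i => Polynomial.C (X i))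
    (fun j => Polynomial.X * Polynomial.C (uP D w₁ j) + Polynomial.C (uP D w₂ j))

private theorem xib_ev (D : Dat m ℂ) (w₁ w₂ x : Vec m ℂ) (T : ℂ)
    (p : MvPolynomial (Fin (m + 2) ⊕ Fin (m + 2)) ℂ) :
    ev x T (aeval (xibF D w₁ w₂) p) =
      aeval (Sum.elim x (T • pv (D.swap.row x) w₁ + pv (D.swap.row x) w₂)) p := by
  rw [aeval_def, aeval_def, eval₂_comp_left]
  have h1 : (ev x T).comp (algebraMap ℂ (Polynomial (MvPolynomial (Fin (m + 2)) ℂ))) =
      algebraMap ℂ ℂ := by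
    refine RingHom.ext fun c => ?_
    have h0 : (algebraMap ℂ (Polynomial (MvPolynomial (Fin (m + 2)) ℂ))) c
        = Polynomial.C (C c) := rfl
    rw [RingHom.comp_apply, h0]
    simp [ev]
  have h2 : (ev x T) ∘ (xibF D w₁ w₂) =
      Sum.elim x (T • pv (D.swap.row x) w₁ + pv (D.swap.row x) w₂) := by
    funext i
    rcases i with i | j
    · simp [ev, xibF]
    · have e1 := aeval_uP D w₁ x j
      have e2 := aeval_uP D w₂ x j
      have e3 : (eval x) (uP D w₁ j) = pv (D.swap.row x) w₁ j := e1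
      have e4 : (eval x) (uP D w₂ j) = pv (D.swap.row x) w₂ j := e2
      simp [ev, xibF, e3, e4]
      ring
  rw [h1, h2]

private theorem xib_quad {D : Dat m ℂ} (hD : D.Symm) (x u₁ u₂ : Vec m ℂ) (c d : ℂ) :
    D.B x x (c • u₁ + d • u₂) (c • u₁ + d • u₂) =
      c ^ 2 * D.B x x u₁ u₁ + 2 * c * d * D.B x x u₁ u₂ + d ^ 2 * D.B x x u₂ u₂ := by
  rw [Dat.B_add₃, hD.B_add₄, hD.B_add₄, Dat.B_smul₃, Dat.B_smul₃, Dat.B_smul₃, Dat.B_smul₃,
    hD.B_smul₄, hD.B_smul₄, hD.B_smul₄, hD.B_smul₄, hD.B_comm' x x u₂ u₁]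
  ring

private theorem xib_dep {D : Dat m ℂ} (hD : D.Symm) (x u₁ u₂ : Vec m ℂ)
    (h : ∀ a b, u₁ a * u₂ b = u₁ b * u₂ a) :
    D.B x x u₁ u₂ ^ 2 - D.B x x u₁ u₁ * D.B x x u₂ u₂ = 0 := by
  by_cases h1 : u₁ = 0
  · have h2 : ∀ v, D.B x x u₁ v = 0 := by
      intro v
      have := Dat.B_smul₃ D x x u₁ v 0
      rw [zero_smul, zero_mul] at this
      rw [h1]
      exact this
    rw [h2, h2]
    ring
  · obtain ⟨a, ha⟩ : ∃ a, u₁ a ≠ 0 := by
      by_contra hcon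
      push Not at hcon
      exact h1 (funext hcon)
    have h2 : u₂ = (u₂ a / u₁ a) • u₁ := by
      funext b
      rw [Pi.smul_apply, smul_eq_mul]
      have := h a b
      field_simp
      linear_combination this
    rw [h2, hD.B_smul₄, hD.B_smul₄, Dat.B_smul₃]
    ring

private theorem xib_A (D : Dat m ℂ) (x y : Vec m ℂ) (i : Fin m) :
    D.A i x y = D.swap.row x i ⬝ᵥ y := by
  rw [← Dat.swap_A, Dat.A_eq_dot]

/-- PIECE [XIB].  If the discriminant `g₁₂^2 - g₁₁ g₂₂` of the quadratic form restricted to the span of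
`u₁ = u_{w₁}(x)`, `u₂ = u_{w₂}(x)` is not a square then generically over the `x`-space `X` is irreducible.

Proof.  Let `A = ℂ[x]`, `g(T) = g₁₁ T^2 + 2 g₁₂ T + g₂₂ ∈ A[T]`, `δ = g₁₂^2 - g₁₁ g₂₂`, `P(T) = p(x, T u₁(x) + u₂(x))`,
`Q(T)` similarly, in `A[T]` (`aeval (Sum.elim (fun i => C (X i)) (fun j => X * C (uP D w₁ j) + C (uP D w₂ j)))`).  Use `quad_dvd`:
for `x` with `g₁₁(x) δ(x) ≠ 0` and `g(x, T) = 0` the vector `y = T u₁(x) + u₂(x)` gives a point of `X` over `x`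
(`A_i(x, u_k(x)) = 0` by `A_pv` for `D.swap` or `row_dot_pv`), `y ≠ 0` (`u₁(x), u₂(x)` are independent because `δ(x) ≠ 0`) and
`x ≠ 0` (`δ(0) = 0`), so `P(x, T) = 0` or `Q(x, T) = 0`.
Say `a P = g S'` with `0 ≠ a ∈ A`, `S' ∈ A[T]`.  Take `H = a g₁₁ δ`.  For `H(x) ≠ 0` and
`(x, y) ∈ X`, `y ≠ 0`: the kernel of the forms `A_i(x, ·)` is spanned by `u₁(x), u₂(x)` (`plu_cramer`; some `π_ij(x) ≠ 0` as
`u₁(x), u₂(x)` are independent), `y = c u₁ + d u₂`, `g₁₁ c^2 + 2 g₁₂ c d + g₂₂ d^2 = 0`, `d ≠ 0` since `g₁₁(x) ≠ 0`, so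
`T = c / d` is a root and `p(x, y) = d^e P_x(T) = 0` (`BiHom.smul`). -/
theorem irr_generic {D : Dat m ℂ} (hD : D.Symm) (w₁ w₂ : Vec m ℂ)
    (hsq : ¬ ∃ R : MvPolynomial (Fin (m + 2)) ℂ, R ^ 2 = gP D w₁ w₂ ^ 2 - gP D w₁ w₁ * gP D w₂ w₂)
    {p q : MvPolynomial (Fin (m + 2) ⊕ Fin (m + 2)) ℂ} {d e d' e' : ℕ} (hp : BiHom p d e)
    (hq : BiHom q d' e')
    (hpq : ∀ x y : Vec m ℂ, x ≠ 0 → y ≠ 0 → D.In x y →
      aeval (Sum.elim x y) p = 0 ∨ aeval (Sum.elim x y) q = 0) :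
    ∃ H : MvPolynomial (Fin (m + 2)) ℂ, H ≠ 0 ∧
      ((∀ x y : Vec m ℂ, x ≠ 0 → y ≠ 0 → D.In x y → aeval x H ≠ 0 → aeval (Sum.elim x y) p = 0) ∨
        (∀ x y : Vec m ℂ, x ≠ 0 → y ≠ 0 → D.In x y → aeval x H ≠ 0 →
          aeval (Sum.elim x y) q = 0)) := by
  -- evaluation of the polynomials `g_ij` and of the discriminant
  have hδ : ∀ x : Vec m ℂ, aeval x (gP D w₁ w₂ ^ 2 - gP D w₁ w₁ * gP D w₂ w₂) =
      D.B x x (pv (D.swap.row x) w₁) (pv (D.swap.row x) w₂) ^ 2 -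
        D.B x x (pv (D.swap.row x) w₁) (pv (D.swap.row x) w₁) *
          D.B x x (pv (D.swap.row x) w₂) (pv (D.swap.row x) w₂) := by
    intro x
    rw [map_sub, map_pow, map_mul, aeval_gP, aeval_gP, aeval_gP]
  -- the points of `X` over `x`
  have hIn : ∀ (x : Vec m ℂ) (c d : ℂ),
      c ^ 2 * D.B x x (pv (D.swap.row x) w₁) (pv (D.swap.row x) w₁) +
        2 * c * d * D.B x x (pv (D.swap.row x) w₁) (pv (D.swap.row x) w₂) +
        d ^ 2 * D.B x x (pv (D.swap.row x) w₂) (pv (D.swap.row x) w₂) = 0 →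
      D.In x (c • pv (D.swap.row x) w₁ + d • pv (D.swap.row x) w₂) := by
    intro x c d h
    refine ⟨fun i => ?_, ?_⟩
    · rw [xib_A, dotProduct_add, dotProduct_smul, dotProduct_smul, row_dot_pv, row_dot_pv,
        smul_zero, smul_zero, add_zero]
    · rw [xib_quad hD]
      exact h
  obtain ⟨a, ha, S, hS⟩ := quad_dvd (gP D w₁ w₁) (gP D w₁ w₂) (gP D w₂ w₂) hsq
    (aeval (xibF D w₁ w₂) p) (aeval (xibF D w₁ w₂) q) (by
      intro x h0 hd T hT
      rw [aeval_gP, aeval_gP, aeval_gP] at hT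
      rw [aeval_gP] at h0
      rw [hδ] at hd
      rw [xib_ev, xib_ev]
      have hx : x ≠ 0 := by
        rintro rfl
        exact h0 (Dat.B_zero₁ D _ _ _)
      have hy : T • pv (D.swap.row x) w₁ + pv (D.swap.row x) w₂ ≠ 0 := by
        intro hy
        refine hd (xib_dep hD x _ _ fun i j => ?_)
        have e1 : ∀ i, pv (D.swap.row x) w₂ i = - (T * pv (D.swap.row x) w₁ i) := by
          intro i
          have := congrFun hy i
          rw [Pi.add_apply, Pi.smul_apply, smul_eq_mul, Pi.zero_apply] at this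
          linear_combination this
        rw [e1, e1]
        ring
      have h1 := hIn x T 1 (by linear_combination hT)
      rw [one_smul] at h1
      exact hpq x _ hx hy h1)
  have hg0 : gP D w₁ w₁ ≠ 0 := by
    intro h
    exact hsq ⟨gP D w₁ w₂, by rw [h]; ring⟩
  have hd0 : gP D w₁ w₂ ^ 2 - gP D w₁ w₁ * gP D w₂ w₂ ≠ 0 := by
    intro h
    exact hsq ⟨0, by rw [h]; ring⟩
  -- the main argument
  have key : ∀ (P : MvPolynomial (Fin (m + 2) ⊕ Fin (m + 2)) ℂ) (d e : ℕ), BiHom P d e →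
      Polynomial.C a * aeval (xibF D w₁ w₂) P =
        (Polynomial.C (gP D w₁ w₁) * Polynomial.X ^ 2 +
          2 * Polynomial.C (gP D w₁ w₂) * Polynomial.X + Polynomial.C (gP D w₂ w₂)) * S →
      ∀ x y : Vec m ℂ, x ≠ 0 → y ≠ 0 → D.In x y →
        aeval x (a * gP D w₁ w₁ * (gP D w₁ w₂ ^ 2 - gP D w₁ w₁ * gP D w₂ w₂)) ≠ 0 →
        aeval (Sum.elim x y) P = 0 := by
    intro P d e hP hPS x y _ hy hxy hH
    rw [map_mul, map_mul] at hH
    have hax : aeval x a ≠ 0 := left_ne_zero_of_mul (left_ne_zero_of_mul hH)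
    have h0 : aeval x (gP D w₁ w₁) ≠ 0 := right_ne_zero_of_mul (left_ne_zero_of_mul hH)
    have hdx := right_ne_zero_of_mul hH
    rw [hδ] at hdx
    rw [aeval_gP] at h0
    set r := D.swap.row x with hr
    set u₁ := pv r w₁ with hu₁
    set u₂ := pv r w₂ with hu₂
    -- `plu r w₁ w₂ ≠ 0`
    have hpi : plu r w₁ w₂ ≠ 0 := by
      intro hz
      refine hdx (xib_dep hD x _ _ fun i j => ?_)
      have h1 := plu_cramer r w₁ u₂ (Pi.single i 1) (Pi.single j 1)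
        (fun k => row_dot_pv r w₂ k)
      have h2 : w₁ ⬝ᵥ u₂ = 0 := by
        rw [hu₂, dot_pv, plu_antisymm, hz, neg_zero]
      rw [h2, mul_zero, plu_antisymm r (Pi.single i 1) w₁, single_one_dotProduct,
        single_one_dotProduct] at h1
      have e1 : u₁ i = plu r w₁ (Pi.single i 1) := rfl
      have e2 : u₁ j = plu r w₁ (Pi.single j 1) := rfl
      rw [e1, e2]
      linear_combination h1
    -- decomposition of `y`
    have hker : ∀ i, r i ⬝ᵥ y = 0 := fun i => by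
      rw [hr, ← xib_A]
      exact hxy.1 i
    have hdec : y = ((w₂ ⬝ᵥ y) / plu r w₁ w₂) • u₁ + (-(w₁ ⬝ᵥ y) / plu r w₁ w₂) • u₂ := by
      funext j
      have h1 := plu_cramer r (Pi.single j 1) y w₁ w₂ hker
      rw [single_one_dotProduct, plu_antisymm r (Pi.single j 1) w₂] at h1
      have e1 : u₁ j = plu r w₁ (Pi.single j 1) := rfl
      have e2 : u₂ j = plu r w₂ (Pi.single j 1) := rfl
      rw [Pi.add_apply, Pi.smul_apply, Pi.smul_apply, smul_eq_mul, smul_eq_mul, e1, e2]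
      field_simp
      linear_combination h1
    set c := (w₂ ⬝ᵥ y) / plu r w₁ w₂ with hc
    set t := -(w₁ ⬝ᵥ y) / plu r w₁ w₂ with ht
    have hBy : c ^ 2 * D.B x x u₁ u₁ + 2 * c * t * D.B x x u₁ u₂ + t ^ 2 * D.B x x u₂ u₂ = 0 := by
      rw [← xib_quad hD, ← hdec]
      exact hxy.2
    have ht0 : t ≠ 0 := by
      intro ht0
      rw [ht0] at hBy hdec
      have h1 : c ^ 2 * D.B x x u₁ u₁ = 0 := by linear_combination hBy
      have h2 : c = 0 := by
        have := (mul_eq_zero.mp h1).resolve_right h0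
        exact pow_eq_zero_iff (two_ne_zero) |>.mp this
      rw [h2, zero_smul, zero_smul, add_zero] at hdec
      exact hy hdec
    have hT : D.B x x u₁ u₁ * (c / t) ^ 2 + 2 * D.B x x u₁ u₂ * (c / t) + D.B x x u₂ u₂ = 0 := by
      field_simp
      linear_combination hBy
    have hev := congrArg (ev x (c / t)) hPS
    rw [map_mul, map_mul, xib_ev] at hev
    have hq0 : ev x (c / t) (Polynomial.C (gP D w₁ w₁) * Polynomial.X ^ 2 +
        2 * Polynomial.C (gP D w₁ w₂) * Polynomial.X + Polynomial.C (gP D w₂ w₂)) = 0 := by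
      have h1 : ev x (c / t) (Polynomial.C (gP D w₁ w₁) * Polynomial.X ^ 2 +
          2 * Polynomial.C (gP D w₁ w₂) * Polynomial.X + Polynomial.C (gP D w₂ w₂)) =
          aeval x (gP D w₁ w₁) * (c / t) ^ 2 + 2 * aeval x (gP D w₁ w₂) * (c / t) +
            aeval x (gP D w₂ w₂) := by
        simp [ev]
      rw [h1, aeval_gP, aeval_gP, aeval_gP]
      exact hT
    have hCa : ev x (c / t) (Polynomial.C a) = aeval x a := by simp [ev]
    rw [hq0, zero_mul, hCa] at hev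
    have hP0 := (mul_eq_zero.mp hev).resolve_left hax
    have hyt : y = t • ((c / t) • u₁ + u₂) := by
      rw [smul_add, smul_smul, mul_div_cancel₀ _ ht0]
      exact hdec
    have h1 := BiHom.smul hP x ((c / t) • u₁ + u₂) 1 t
    rw [one_smul, ← hyt] at h1
    rw [h1, hP0, mul_zero]
  refine ⟨a * gP D w₁ w₁ * (gP D w₁ w₂ ^ 2 - gP D w₁ w₁ * gP D w₂ w₂),
    mul_ne_zero (mul_ne_zero ha hg0) hd0, ?_⟩
  rcases hS with hS | hS
  · exact Or.inl (key p d e hp hS)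
  · exact Or.inr (key q d' e' hq hS)

end Pool.Agent.MP_1209e6_cy
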