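import Pool.Agent.Lib_MP_1209e6_cy.Points

/-!
PIECE [PT3] (MP_1209e6_ag).  Exceptional fibres have at least three points.
-/

open Matrix

namespace Pool.Agent.MP_1209e6_cy

namespace Dat

variable {m : ℕ} {K : Type*} [Field K] [IsAlgClosed K] [CharZero K]

omit [IsAlgClosed K] [CharZero K] in
private theorem PT3_indep {x x' : Vec m K} (hx : x ≠ 0)
    (h : x' ∉ Submodule.span K {x}) : Indep x x' := by
  by_contra hcon
  unfold Indep at hcon
  push Not at hcon
  apply h
  obtain ⟨i, hi⟩ : ∃ i, x i ≠ 0 := by
    by_contra h'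
    push Not at h'
    exact hx (funext h')
  rw [Submodule.mem_span_singleton]
  refine ⟨x' i / x i, ?_⟩
  funext j
  rw [Pi.smul_apply, smul_eq_mul, div_mul_eq_mul_div, div_eq_iff hi]
  have := hcon i j
  linear_combination -this

omit [IsAlgClosed K] [CharZero K] in
private theorem PT3_exists (W : Submodule K (Vec m K)) (s : Finset (Vec m K))
    (h : s.card < Module.finrank K W) : ∃ x ∈ W, x ∉ Submodule.span K (s : Set (Vec m K)) := by
  by_contra hcon
  push Not at hcon
  have h1 : W ≤ Submodule.span K (s : Set (Vec m K)) := fun x hx => hcon x hx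
  have h2 := Submodule.finrank_mono h1
  have h3 := finrank_span_finset_le_card (R := K) s
  exact absurd (lt_of_lt_of_le h (h2.trans h3)) (lt_irrefl _)

omit [CharZero K] in
private theorem PT3_zero {D : Dat m K} (hD : D.Symm) (y a b : Vec m K) :
    ∃ s t : K, (s ≠ 0 ∨ t ≠ 0) ∧ D.B (s • a + t • b) (s • a + t • b) y y = 0 := by
  have hq : ∀ s t : K, D.B (s • a + t • b) (s • a + t • b) y y =
      s * s * D.B a a y y + 2 * s * t * D.B a b y y + t * t * D.B b b y y := by
    intro s t
    rw [B_add₁, B_smul₁, B_smul₁, hD.B_add₂, hD.B_add₂, hD.B_smul₂, hD.B_smul₂, hD.B_smul₂,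
      hD.B_smul₂, hD.B_comm b a]
    ring
  by_cases ha : D.B a a y y = 0
  · refine ⟨1, 0, Or.inl one_ne_zero, ?_⟩
    rw [hq, ha]
    ring
  · obtain ⟨s, hs⟩ := IsAlgClosed.exists_eval₂_eq_zero (RingHom.id K)
      (Polynomial.C (D.B a a y y) * Polynomial.X ^ 2 +
        Polynomial.C (2 * D.B a b y y) * Polynomial.X + Polynomial.C (D.B b b y y)) (by
        rw [Polynomial.degree_quadratic ha]
        exact two_ne_zero)
    refine ⟨s, 1, Or.inr one_ne_zero, ?_⟩
    rw [hq]
    simp only [Polynomial.eval₂_id, Polynomial.eval_add, Polynomial.eval_mul, Polynomial.eval_C,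
      Polynomial.eval_pow, Polynomial.eval_X] at hs
    linear_combination hs

/-- If `E(y) = 0` then there are at least three points over `y`.

Case 1: some `π_ij = plu (row y) e_i e_j ≠ 0`.  Then all `u_w = pv (row y) w` are points over `y`
(if nonzero): `A_pv`, and `B(u_w, u_w, y, y) = ∑_kl (u_w)_k Q_kl (u_w)_l = ∑_ij w_i w_j E_ij = 0`
since `(u_w)_k = ∑_i w_i π_ik`.  For `w = e_i, e_j, e_i + e_j` these are pairwise independent:
`(u_{e_i})_i = 0, (u_{e_i})_j = π_ij, (u_{e_j})_i = - π_ij, (u_{e_j})_j = 0`.
Case 2: all `π_ij = 0`.  Then the rows `row y i` are linearly dependent (otherwise they could be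
completed to a basis by two coordinate forms), so the kernel has dimension at least 3; a quadratic
form on a space with independent vectors `a, b, c` has three pairwise independent zeros: take a
zero `z` in `span(a, b)`; complete; it is easiest to take a zero `z_1` in `span (a, b)`, choose a
plane in `span (a, b, c)` not containing `z_1`, a zero `z_2` there, and a plane containing neither
`z_1` nor `z_2`, a zero `z_3` there. -/
theorem Symm.three_points {D : Dat m K} (hD : D.Symm) (y : Vec m K) (hE : ∀ i j, D.E y i j = 0) :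
    ∃ x₁ x₂ x₃ : Vec m K, D.In x₁ y ∧ D.In x₂ y ∧ D.In x₃ y ∧
      Indep x₁ x₂ ∧ Indep x₁ x₃ ∧ Indep x₂ x₃ := by
  by_cases hpi : ∃ i j, plu (D.row y) (Pi.single i 1) (Pi.single j 1) ≠ 0
  · obtain ⟨i, j, hij⟩ := hpi
    have hBE : ∀ i j, D.B (pv (D.row y) (Pi.single i 1)) (pv (D.row y) (Pi.single j 1)) y y = 0 := by
      intro i j
      rw [B_eq_Q]
      rw [← hE i j]
      unfold E
      refine Finset.sum_congr rfl fun k _ => Finset.sum_congr rfl fun l _ => ?_
      rfl
    obtain ⟨a, ha⟩ : ∃ a, a = pv (D.row y) (Pi.single i 1) := ⟨_, rfl⟩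
    obtain ⟨b, hb⟩ : ∃ b, b = pv (D.row y) (Pi.single j 1) := ⟨_, rfl⟩
    have hAa : ∀ l, D.A l a y = 0 := by
      intro l
      rw [A_eq_dot, ha, row_dot_pv]
    have hAb : ∀ l, D.A l b y = 0 := by
      intro l
      rw [A_eq_dot, hb, row_dot_pv]
    have hBaa : D.B a a y y = 0 := by rw [ha]; exact hBE i i
    have hBab : D.B a b y y = 0 := by rw [ha, hb]; exact hBE i j
    have hBba : D.B b a y y = 0 := by rw [ha, hb]; exact hBE j i
    have hBbb : D.B b b y y = 0 := by rw [hb]; exact hBE j j
    have hai : a i = 0 := by rw [ha]; exact plu_self _ _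
    have hbj : b j = 0 := by rw [hb]; exact plu_self _ _
    have haj : a j ≠ 0 := by rw [ha]; exact hij
    have hbi : b i = -a j := by
      rw [ha, hb]
      exact plu_antisymm _ _ _
    have hne : a i * b j ≠ a j * b i := by
      rw [hai, hbj, hbi]
      intro h
      have : a j * a j = 0 := by linear_combination h
      exact haj (mul_self_eq_zero.mp this)
    refine ⟨a, b, a + b, ⟨hAa, hBaa⟩, ⟨hAb, hBbb⟩, ⟨fun l => ?_, ?_⟩, ⟨i, j, hne⟩, ⟨i, j, ?_⟩,
      ⟨i, j, ?_⟩⟩
    · rw [A_add_left, hAa, hAb, add_zero]
    · rw [B_add₁, hD.B_add₂, hD.B_add₂, hBaa, hBab, hBba, hBbb]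
      ring
    · intro h
      apply hne
      rw [Pi.add_apply, Pi.add_apply] at h
      linear_combination h
    · intro h
      apply hne
      rw [Pi.add_apply, Pi.add_apply] at h
      linear_combination -h
  · push Not at hpi
    -- the rows are linearly dependent
    have hall : ∀ w ξ : Vec m K, plu (D.row y) w ξ = 0 := by
      intro w ξ
      rw [← dot_pv]
      unfold dotProduct
      refine Finset.sum_eq_zero fun j _ => ?_
      have h1 : pv (D.row y) w j = - (w ⬝ᵥ pv (D.row y) (Pi.single j 1)) := by
        rw [dot_pv]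
        exact plu_antisymm _ _ _
      have h2 : w ⬝ᵥ pv (D.row y) (Pi.single j 1) = 0 := by
        unfold dotProduct
        refine Finset.sum_eq_zero fun i _ => ?_
        have h3 : pv (D.row y) (Pi.single j 1) i = 0 := hpi j i
        rw [h3, mul_zero]
      rw [h1, h2, neg_zero, mul_zero]
    have hdep : ¬ LinearIndependent K (D.row y) := by
      intro hli
      have hex : ∀ (n : ℕ) (v : Fin n → Vec m K), n < m + 2 →
          ∃ x, x ∉ Submodule.span K (Set.range v) := by
        intro n v hn
        by_contra hcon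
        push Not at hcon
        have h1 : Submodule.span K (Set.range v) = ⊤ := by
          rw [eq_top_iff]
          exact fun x _ => hcon x
        have h2 := finrank_range_le_card (R := K) v
        unfold Set.finrank at h2
        rw [h1, finrank_top, Module.finrank_fin_fun, Fintype.card_fin] at h2
        omega
      obtain ⟨ξ, hξ⟩ := hex m (D.row y) (by omega)
      have h1 : LinearIndependent K (vecCons ξ (D.row y) : Fin (m + 1) → Vec m K) :=
        linearIndependent_finCons.mpr ⟨hli, hξ⟩
      obtain ⟨w, hw⟩ := hex (m + 1) (vecCons ξ (D.row y)) (by omega)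
      have h2 : LinearIndependent K (vecCons w (vecCons ξ (D.row y)) : Fin (m + 2) → Vec m K) :=
        linearIndependent_finCons.mpr ⟨h1, hw⟩
      have h3 := hall w ξ
      unfold plu at h3
      have h4 : IsUnit (Matrix.of (vecCons w (vecCons ξ (D.row y)) : Fin (m + 2) → Vec m K)) :=
        Matrix.linearIndependent_rows_iff_isUnit.mp h2
      rw [Matrix.isUnit_iff_isUnit_det, h3] at h4
      exact not_isUnit_zero h4
    -- the kernel
    let f : Vec m K →ₗ[K] (Fin m → K) := Matrix.mulVecLin (Matrix.of (D.row y))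
    have hf : ∀ x i, f x i = D.row y i ⬝ᵥ x := fun x i => rfl
    have hrange : LinearMap.range f ≠ ⊤ := by
      intro htop
      apply hdep
      rw [Fintype.linearIndependent_iff]
      intro g hg i
      obtain ⟨x, hx⟩ : ∃ x, f x = Pi.single i 1 := by
        have : Pi.single i 1 ∈ LinearMap.range f := by rw [htop]; trivial
        exact this
      have h1 : ∑ l, g l * f x l = 0 := by
        have h2 : (∑ l, g l • D.row y l) ⬝ᵥ x = 0 := by rw [hg, zero_dotProduct]
        rw [sum_dotProduct] at h2
        simp only [smul_dotProduct, smul_eq_mul] at h2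
        exact h2
      rw [hx] at h1
      simpa [Pi.single_apply] using h1
    have hker : 3 ≤ Module.finrank K (LinearMap.ker f) := by
      have h1 := LinearMap.finrank_range_add_finrank_ker f
      have h2 := Submodule.finrank_lt hrange
      rw [Module.finrank_fin_fun] at h1 h2
      omega
    have hIn : ∀ x ∈ LinearMap.ker f, ∀ i, D.A i x y = 0 := by
      intro x hx i
      rw [A_eq_dot, ← hf, LinearMap.mem_ker.mp hx]
      rfl
    classical
    -- the first zero
    obtain ⟨a0, ha0, ha0'⟩ := PT3_exists (LinearMap.ker f) ∅ (by rw [Finset.card_empty]; omega)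
    obtain ⟨b0, hb0, hb0'⟩ := PT3_exists (LinearMap.ker f) {a0} (by rw [Finset.card_singleton]; omega)
    rw [Finset.coe_singleton] at hb0'
    rw [Finset.coe_empty, Submodule.span_empty, Submodule.mem_bot] at ha0'
    obtain ⟨s, t, hst, hz1⟩ := PT3_zero hD y a0 b0
    obtain ⟨z1, hz1def⟩ : ∃ z, z = s • a0 + t • b0 := ⟨_, rfl⟩
    rw [← hz1def] at hz1
    have hz1k : z1 ∈ LinearMap.ker f := by
      rw [hz1def]
      exact Submodule.add_mem _ (Submodule.smul_mem _ _ ha0) (Submodule.smul_mem _ _ hb0)
    have hz10 : z1 ≠ 0 := by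
      intro h0
      by_cases ht : t = 0
      · rw [hz1def, ht, zero_smul, add_zero] at h0
        rcases hst with hs | ht'
        · exact ha0' ((smul_eq_zero.mp h0).resolve_left hs)
        · exact ht' ht
      · apply hb0'
        rw [Submodule.mem_span_singleton]
        refine ⟨-(t⁻¹ * s), ?_⟩
        have h1 : t • b0 = -(s • a0) := by
          rw [hz1def] at h0
          exact eq_neg_of_add_eq_zero_right h0
        have h2 : b0 = t⁻¹ • (t • b0) := by rw [smul_smul, inv_mul_cancel₀ ht, one_smul]
        rw [h2, h1, smul_neg, smul_smul, neg_smul]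
    -- the second zero
    obtain ⟨a, ha, ha'⟩ := PT3_exists (LinearMap.ker f) {z1} (by rw [Finset.card_singleton]; omega)
    obtain ⟨b, hb, hb'⟩ := PT3_exists (LinearMap.ker f) {z1, a} (by
      have := Finset.card_le_two (a := z1) (b := a)
      omega)
    rw [Finset.coe_singleton] at ha'
    rw [Finset.coe_insert, Finset.coe_singleton] at hb'
    obtain ⟨s, t, hst, hz2⟩ := PT3_zero hD y a b
    obtain ⟨z2, hz2def⟩ : ∃ z, z = s • a + t • b := ⟨_, rfl⟩
    rw [← hz2def] at hz2
    have hz2k : z2 ∈ LinearMap.ker f := by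
      rw [hz2def]
      exact Submodule.add_mem _ (Submodule.smul_mem _ _ ha) (Submodule.smul_mem _ _ hb)
    have hz12 : z2 ∉ Submodule.span K {z1} := by
      intro h0
      by_cases ht : t = 0
      · rw [hz2def, ht, zero_smul, add_zero] at h0
        rcases hst with hs | ht'
        · exact ha' ((Submodule.smul_mem_iff _ hs).mp h0)
        · exact ht' ht
      · apply hb'
        have h1 : t • b ∈ Submodule.span K {z1, a} := by
          have h2 : t • b = z2 - s • a := by rw [hz2def]; abel
          rw [h2]
          refine Submodule.sub_mem _ ?_ (Submodule.smul_mem _ _ (Submodule.subset_span (by simp)))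
          exact Submodule.span_mono (by simp) h0
        exact (Submodule.smul_mem_iff _ ht).mp h1
    have hz20 : z2 ≠ 0 := by
      rintro rfl
      exact hz12 (Submodule.zero_mem _)
    -- the third zero
    obtain ⟨w, hw, hw'⟩ := PT3_exists (LinearMap.ker f) {z1, z2} (by
      have := Finset.card_le_two (a := z1) (b := z2)
      omega)
    rw [Finset.coe_insert, Finset.coe_singleton] at hw'
    obtain ⟨s, t, hst, hz3⟩ := PT3_zero hD y (z1 - z2) w
    obtain ⟨z3, hz3def⟩ : ∃ z, z = s • (z1 - z2) + t • w := ⟨_, rfl⟩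
    rw [← hz3def] at hz3
    have hz3k : z3 ∈ LinearMap.ker f := by
      rw [hz3def]
      exact Submodule.add_mem _ (Submodule.smul_mem _ _ (Submodule.sub_mem _ hz1k hz2k))
        (Submodule.smul_mem _ _ hw)
    have hz1s : z1 ∈ Submodule.span K ({z1, z2} : Set (Vec m K)) :=
      Submodule.subset_span (by simp)
    have hz2s : z2 ∈ Submodule.span K ({z1, z2} : Set (Vec m K)) :=
      Submodule.subset_span (by simp)
    have hwt : z3 ∈ Submodule.span K ({z1, z2} : Set (Vec m K)) → t = 0 := by
      intro h0
      by_contra ht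
      apply hw'
      have h1 : t • w ∈ Submodule.span K ({z1, z2} : Set (Vec m K)) := by
        have h2 : t • w = z3 - s • (z1 - z2) := by rw [hz3def]; abel
        rw [h2]
        exact Submodule.sub_mem _ h0 (Submodule.smul_mem _ _ (Submodule.sub_mem _ hz1s hz2s))
      exact (Submodule.smul_mem_iff _ ht).mp h1
    have hz13 : z3 ∉ Submodule.span K {z1} := by
      intro h0
      have ht : t = 0 := hwt (Submodule.span_mono (by simp) h0)
      have hs : s ≠ 0 := hst.resolve_right (fun h => h ht)
      rw [hz3def, ht, zero_smul, add_zero] at h0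
      have h1 := (Submodule.smul_mem_iff _ hs).mp h0
      apply hz12
      have h2 : z2 = z1 - (z1 - z2) := by abel
      rw [h2]
      exact Submodule.sub_mem _ (Submodule.mem_span_singleton_self z1) h1
    have hz23 : z3 ∉ Submodule.span K {z2} := by
      intro h0
      have ht : t = 0 := hwt (Submodule.span_mono (by simp) h0)
      have hs : s ≠ 0 := hst.resolve_right (fun h => h ht)
      rw [hz3def, ht, zero_smul, add_zero] at h0
      have h1 := (Submodule.smul_mem_iff _ hs).mp h0
      have h2 : z1 ∈ Submodule.span K {z2} := by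
        have h3 : z1 = (z1 - z2) + z2 := by abel
        rw [h3]
        exact Submodule.add_mem _ h1 (Submodule.mem_span_singleton_self z2)
      obtain ⟨c, hc⟩ := Submodule.mem_span_singleton.mp h2
      have hc0 : c ≠ 0 := by
        rintro rfl
        rw [zero_smul] at hc
        exact hz10 hc.symm
      apply hz12
      rw [Submodule.mem_span_singleton]
      refine ⟨c⁻¹, ?_⟩
      rw [← hc, smul_smul, inv_mul_cancel₀ hc0, one_smul]
    exact ⟨z1, z2, z3, ⟨hIn z1 hz1k, hz1⟩, ⟨hIn z2 hz2k, hz2⟩, ⟨hIn z3 hz3k, hz3⟩,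
      PT3_indep hz10 hz12, PT3_indep hz10 hz13, PT3_indep hz20 hz23⟩

end Dat

end Pool.Agent.MP_1209e6_cy
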