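import Pool.Agent.Lib_MP_1209e6_cy.ExDisc
import Pool.Agent.Lib_MP_1209e6_cy.ExFL
import Pool.Agent.Lib_MP_1209e6_cy.ExFLy
import Pool.Agent.Lib_MP_1209e6_cy.DenC
import Pool.Agent.Lib_MP_1209e6_cy.IrrB
import Pool.Agent.Lib_MP_1209e6_cy.Points3

/-!
# The example is irreducible
-/

open Matrix MvPolynomial

namespace Pool.Agent.MP_1209e6_cy

theorem finLines_x {β : Fin 4 → Fin 4 → ℂ} (h : FinLines {x : Vec 2 ℂ | Three β x}) :
    FinLines {x : Vec 2 ℂ | ∀ i j, (dg β).swap.E x i j = 0} := by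
  refine FinLines.mono (fun x hx => ?_) h
  obtain ⟨y₁, y₂, y₃, h₁, h₂, h₃, h12, h13, h23⟩ := (dg_symm β).swap.three_points x hx
  exact ⟨y₁, y₂, y₃, (Dat.swap_In _ _ _).1 h₁, (Dat.swap_In _ _ _).1 h₂, (Dat.swap_In _ _ _).1 h₃,
    h12, h13, h23⟩

theorem finLines_y {β : Fin 4 → Fin 4 → ℂ} (h : FinLines {x : Vec 2 ℂ | Three (tr4 β) x}) :
    FinLines {y : Vec 2 ℂ | ∀ i j, (dg β).E y i j = 0} := by
  have h2 := finLines_x h
  rw [← dg_swap] at h2
  exact h2

theorem dg_A_ne {β : Fin 4 → Fin 4 → ℂ} {x : Vec 2 ℂ} (hx : x ≠ 0) :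
    ∃ i η, (dg β).A i x η ≠ 0 := by
  obtain ⟨j, hj⟩ := Function.ne_iff.1 hx
  simp only [Pi.zero_apply] at hj
  fin_cases j
  · refine ⟨0, ![1, 0, 0, 0], ?_⟩
    rw [dg_A0]
    simpa using hj
  · refine ⟨1, ![0, 1, 0, 0], ?_⟩
    rw [dg_A1]
    simpa using hj
  · refine ⟨0, ![0, 0, 1, 0], ?_⟩
    rw [dg_A0]
    simpa using hj
  · refine ⟨1, ![0, 0, 0, 1], ?_⟩
    rw [dg_A1]
    simpa using hj

theorem be_irred : (dg be).Irred := by
  intro p q d e d' e' hp hq hpq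
  have hD := dg_symm be
  have key : ∀ x y : Vec 2 ℂ, x ≠ 0 → y ≠ 0 → (dg be).In x y →
      aeval (Sum.elim x y) p = 0 ∨ aeval (Sum.elim x y) q = 0 := by
    intro x y hx hy hin
    have h := hpq _ ((mem_X_mk hD hx hy).2 hin)
    rw [vanish_mk hp, vanish_mk hq] at h
    exact h
  obtain ⟨H, hH, h⟩ := irr_generic hD _ _ be_disc hp hq key
  have hFx := finLines_x finLines_three
  have hFy := finLines_y finLines_three'
  rcases h with h | h
  · left
    intro c hc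
    exact eq_zero_of_dense hD hFx hFy (fun x hx => dg_A_ne hx) hH h (Projectivization.rep_nonzero _)
      (Projectivization.rep_nonzero _) hc
  · right
    intro c hc
    exact eq_zero_of_dense hD hFx hFy (fun x hx => dg_A_ne hx) hH h (Projectivization.rep_nonzero _)
      (Projectivization.rep_nonzero _) hc

end Pool.Agent.MP_1209e6_cy
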