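import Pool.Agent.Lib_MP_1209e6_cy.ExDef

/-!
# The saddle point of the example
-/

open Matrix

namespace Pool.Agent.MP_1209e6_cy

theorem dg_row_one (β : Fin 4 → Fin 4 → ℂ) (i : Fin 2) (j : Fin 4) :
    (dg β).row (fun _ => 1) i j = da i j := by
  unfold Dat.row dg
  simp

theorem linearIndependent_da : LinearIndependent ℂ (fun i : Fin 2 => da i) := by
  rw [Fintype.linearIndependent_iff]
  intro g h
  rw [Fin.sum_univ_two] at h
  have h0 := congrFun h 0
  have h3 := congrFun h 3
  simp [da] at h0 h3
  intro i
  fin_cases i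
  · exact h0
  · exact h3

theorem be_saddle : Saddle (dg be) (fun _ => 1) (fun _ => 1) ss ss ![4, 4] ![-4, -4] where
  indY := by
    have : (dg be).row (fun _ => 1) = fun i : Fin 2 => da i := by
      funext i j
      exact dg_row_one be i j
    rw [this]
    exact linearIndependent_da
  indX := by
    have : (dg be).swap.row (fun _ => 1) = fun i : Fin 2 => da i := by
      rw [dg_swap]
      funext i j
      exact dg_row_one _ i j
    rw [this]
    exact linearIndependent_da
  hxy := by
    rw [dg_A_iff]
    exact ⟨1, 0, fun j => by ring⟩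
  hu := by
    rw [dg_A_iff]
    exact ⟨0, 1, fun j => by ring⟩
  hv := by
    rw [dg_A_iff]
    exact ⟨0, 1, fun j => by ring⟩
  hν := by
    intro ξ
    rw [dg_B, Fin.sum_univ_two, dg_A0, dg_A1]
    simp [Fin.sum_univ_four, be]
    ring
  hμ := by
    intro η
    rw [dg_B, Fin.sum_univ_two, dg_A0, dg_A1]
    simp [Fin.sum_univ_four, be]
    ring
  smooth := by
    intro h
    have := congrFun h 0
    simp at this
    norm_num at this
  Qu := by
    rw [dg_B]
    simp [Fin.sum_univ_four, be, ss0, ss1, ss2, ss3]
    norm_num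
  Qv := by
    rw [dg_B]
    simp [Fin.sum_univ_four, be, ss0, ss1, ss2, ss3]
    norm_num
  tau := by
    intro t h0 h4 h
    rw [dg_B, dg_B, dg_B, Fin.sum_univ_two, Fin.sum_univ_two, dg_A0, dg_A1] at h
    simp [Fin.sum_univ_four, be, ss0, ss1, ss2, ss3] at h
    norm_num at h
    have h2 : (t : ℂ) = ((-105 / 4 : ℝ) : ℂ) := by
      push_cast
      linear_combination (1 / 1024 : ℂ) * h
    have h3 : t = -105 / 4 := by exact_mod_cast h2
    rw [h3] at h0
    norm_num at h0

end Pool.Agent.MP_1209e6_cy
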