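import Pool.Agent.Lib_MP_1209e6_cy.ExDef
import Pool.Agent.Lib_MP_1209e6_cy.ThinV

/-!
PIECE [XFB] (MP_1209e6_ag).  The fibres of the example are thin.
-/

open Matrix MvPolynomial

namespace Pool.Agent.MP_1209e6_cy

/-- The fibre over a point `t ≠ 0`.

Proof.  `A_0(t, y) = t_0 y_0 - 2 t_1 y_1 + t_2 y_2`, `A_1(t, y) = t_1 y_1 - 2 t_2 y_2 + t_3 y_3` (`dg_A0`, `dg_A1`).
If at least two of the `t_j` are nonzero then the two linear forms are independent (look at the six pairs of
coordinates: the 2 x 2 minors of the coefficient matrix are `t_0 t_1, -2 t_0 t_2, t_0 t_3, 3 t_1 t_2, -2 t_1 t_3,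
t_2 t_3`): `thin_of_linear`.  If `t = c e_j` then `y_j = 0` and `∑_l β_jl y_l^2 = 0`; the forms `X_j` and
`∑_{l ≠ j} β_jl X_l^2` are coprime, since `X_j` is prime and does not divide the second one (it has a nonzero
coefficient). -/
theorem thin_fibre (β : Fin 4 → Fin 4 → ℂ) (hβ : ∀ j l, j ≠ l → β j l ≠ 0) {t : Vec 2 ℂ} (ht : t ≠ 0) :
    Thin {y : Vec 2 ℂ | (dg β).In t y} := by
  by_cases h : ∃ j l, j ≠ l ∧ t j ≠ 0 ∧ t l ≠ 0
  · have hI : Indep (![t 0, -2 * t 1, t 2, 0] : Fin 4 → ℂ) (![0, t 1, -2 * t 2, t 3]) := by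
      have h2 : (-2 : ℂ) ≠ 0 := by norm_num
      have h3 : (3 : ℂ) ≠ 0 := by norm_num
      have key : ∀ j l : Fin 4, j < l → t j ≠ 0 → t l ≠ 0 →
          Indep (![t 0, -2 * t 1, t 2, 0] : Fin 4 → ℂ) (![0, t 1, -2 * t 2, t 3]) := by
        intro j l hjl hj hl
        refine ⟨j, l, fun he => ?_⟩
        have h5 := mul_ne_zero hj hl
        fin_cases j <;> fin_cases l <;> first
          | exact absurd hjl (by decide)
          | (simp at he hj hl h5; tauto)
          | (have h6 : (3 : ℂ) * (t 1 * t 2) = 0 := by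
              simp at he
              linear_combination he
             exact (mul_ne_zero h3 h5) h6)
      obtain ⟨j, l, hjl, hj, hl⟩ := h
      rcases lt_or_gt_of_ne hjl with h4 | h4
      · exact key j l h4 hj hl
      · exact key l j h4 hl hj
    refine (thin_of_linear _ _ hI).mono fun y hy => ?_
    have h0 := hy.1 0
    have h1 := hy.1 1
    rw [dg_A0] at h0
    rw [dg_A1] at h1
    refine ⟨?_, ?_⟩
    · rw [Fin.sum_univ_four]
      show t 0 * y 0 + (-2 * t 1) * y 1 + t 2 * y 2 + 0 * y 3 = 0
      linear_combination h0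
    · rw [Fin.sum_univ_four]
      show 0 * y 0 + t 1 * y 1 + (-2 * t 2) * y 2 + t 3 * y 3 = 0
      linear_combination h1
  · push Not at h
    obtain ⟨j, hj⟩ : ∃ j, t j ≠ 0 := by
      by_contra hcon
      push Not at hcon
      exact ht (funext hcon)
    have hl : ∀ l, l ≠ j → t l = 0 := by
      intro l hl
      exact h j l (Ne.symm hl) hj
    obtain ⟨l₀, hl₀⟩ : ∃ l₀ : Fin 4, l₀ ≠ j := exists_ne j
    refine ⟨X j, ∑ l ∈ Finset.univ.erase j, C (β j l) * X l ^ 2, ⟨1, isHomogeneous_X _ _⟩,
      ⟨2, ?_⟩, ?_, ?_⟩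
    · refine IsHomogeneous.sum _ _ _ fun l _ => ?_
      exact ((isHomogeneous_X ℂ l).pow 2).C_mul (β j l)
    · refine (Irreducible.isRelPrime_iff_not_dvd (X_prime (i := j)).irreducible).2 ?_
      rintro ⟨q, hq⟩
      have h1 := congrArg (aeval (Pi.single l₀ (1 : ℂ) : Fin 4 → ℂ)) hq
      rw [map_mul, aeval_X, Pi.single_eq_of_ne (Ne.symm hl₀), zero_mul, map_sum,
        Finset.sum_eq_single l₀] at h1
      · rw [map_mul, map_pow, aeval_X, Pi.single_eq_same, one_pow, mul_one, algHom_C] at h1
        exact hβ j l₀ (Ne.symm hl₀) h1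
      · intro l _ hne
        rw [map_mul, map_pow, aeval_X, Pi.single_eq_of_ne hne]
        ring
      · intro hn
        exact absurd (Finset.mem_erase.2 ⟨hl₀, Finset.mem_univ _⟩) hn
    · intro y hy
      have h0 := hy.1 0
      have h1 := hy.1 1
      rw [dg_A0] at h0
      rw [dg_A1] at h1
      have hyj : y j = 0 := by
        refine (mul_eq_zero.1 (?_ : t j * y j = 0)).resolve_left hj
        fin_cases j
        · have e1 := hl 1 (by decide)
          have e2 := hl 2 (by decide)
          rw [e1, e2] at h0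
          show t 0 * y 0 = 0
          linear_combination h0
        · have e1 := hl 2 (by decide)
          have e2 := hl 3 (by decide)
          rw [e1, e2] at h1
          show t 1 * y 1 = 0
          linear_combination h1
        · have e1 := hl 0 (by decide)
          have e2 := hl 1 (by decide)
          rw [e1, e2] at h0
          show t 2 * y 2 = 0
          linear_combination h0
        · have e1 := hl 1 (by decide)
          have e2 := hl 2 (by decide)
          rw [e1, e2] at h1
          show t 3 * y 3 = 0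
          linear_combination h1
      refine ⟨by rw [aeval_X, hyj], ?_⟩
      have hB := hy.2
      rw [dg_B, Finset.sum_eq_single j] at hB
      · have h2 : t j ^ 2 * ∑ l, β j l * y l ^ 2 = 0 := by
          rw [Finset.mul_sum, ← hB]
          refine Finset.sum_congr rfl fun l _ => ?_
          ring
        have h3 := (mul_eq_zero.1 h2).resolve_left (pow_ne_zero 2 hj)
        rw [← Finset.add_sum_erase _ _ (Finset.mem_univ j), hyj] at h3
        rw [map_sum]
        have h4 : ∀ l, aeval y (C (β j l) * X l ^ 2 : MvPolynomial (Fin 4) ℂ) =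
            β j l * y l ^ 2 := by
          intro l
          rw [map_mul, map_pow, aeval_X, algHom_C]
          rfl
        simp only [h4]
        linear_combination h3
      · intro l _ hne
        refine Finset.sum_eq_zero fun p _ => ?_
        rw [hl l hne]
        ring
      · intro hn
        exact absurd (Finset.mem_univ _) hn

end Pool.Agent.MP_1209e6_cy
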