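import Pool.Agent.Lib_MP_1209e6_cy.ProjDef
import Pool.Agent.Lib_MP_1209e6_cy.Basic

/-!
PIECE [PRA] (MP_1209e6_ag).  Homogeneous coordinates.
-/

open Matrix MvPolynomial Filter Topology

namespace Pool.Agent.MP_1209e6_cy

variable {m : ℕ}

/-- PIECE [PRA].  A bihomogeneous polynomial: behaviour under scaling. -/
theorem BiHom.smul {p : MvPolynomial (Fin (m + 2) ⊕ Fin (m + 2)) ℂ} {d e : ℕ} (hp : BiHom p d e)
    (x y : Vec m ℂ) (s t : ℂ) : aeval (Sum.elim (s • x) (t • y)) p =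
      s ^ d * t ^ e * aeval (Sum.elim x y) p := by
  rw [MvPolynomial.aeval_def, MvPolynomial.aeval_def, MvPolynomial.eval₂_eq',
    MvPolynomial.eval₂_eq', Finset.mul_sum]
  refine Finset.sum_congr rfl fun c hc => ?_
  obtain ⟨h1, h2⟩ := hp c hc
  rw [Fintype.prod_sum_type, Fintype.prod_sum_type]
  have e1 : ∏ a, (Sum.elim (s • x) (t • y) : Fin (m + 2) ⊕ Fin (m + 2) → ℂ) (Sum.inl a) ^
      c (Sum.inl a) = s ^ d * ∏ a, (Sum.elim x y : Fin (m + 2) ⊕ Fin (m + 2) → ℂ) (Sum.inl a) ^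
      c (Sum.inl a) := by
    simp only [Sum.elim_inl, Pi.smul_apply, smul_eq_mul, mul_pow]
    rw [Finset.prod_mul_distrib, Finset.prod_pow_eq_pow_sum, h1]
  have e2 : ∏ a, (Sum.elim (s • x) (t • y) : Fin (m + 2) ⊕ Fin (m + 2) → ℂ) (Sum.inr a) ^
      c (Sum.inr a) = t ^ e * ∏ a, (Sum.elim x y : Fin (m + 2) ⊕ Fin (m + 2) → ℂ) (Sum.inr a) ^
      c (Sum.inr a) := by
    simp only [Sum.elim_inr, Pi.smul_apply, smul_eq_mul, mul_pow]
    rw [Finset.prod_mul_distrib, Finset.prod_pow_eq_pow_sum, h2]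
  rw [e1, e2]
  ring

/-- PIECE [PRA]. -/
theorem vanish_mk {p : MvPolynomial (Fin (m + 2) ⊕ Fin (m + 2)) ℂ} {d e : ℕ} (hp : BiHom p d e)
    {x y : Vec m ℂ} (hx : x ≠ 0) (hy : y ≠ 0) :
    Vanish p (Projectivization.mk ℂ x hx, Projectivization.mk ℂ y hy) ↔
      aeval (Sum.elim x y) p = 0 := by
  obtain ⟨a, ha⟩ := Projectivization.exists_smul_eq_mk_rep ℂ x hx
  obtain ⟨b, hb⟩ := Projectivization.exists_smul_eq_mk_rep ℂ y hy
  unfold Vanish
  rw [← ha, ← hb]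
  have he : aeval (Sum.elim (a • x) (b • y)) p =
      (a : ℂ) ^ d * (b : ℂ) ^ e * aeval (Sum.elim x y) p := BiHom.smul hp x y (a : ℂ) (b : ℂ)
  rw [he]
  have h0 : (a : ℂ) ^ d * (b : ℂ) ^ e ≠ 0 :=
    mul_ne_zero (pow_ne_zero _ a.ne_zero) (pow_ne_zero _ b.ne_zero)
  constructor
  · intro h
    exact (mul_eq_zero.mp h).resolve_left h0
  · intro h
    rw [h, mul_zero]

/-- PIECE [PRA]. -/
theorem mem_X_mk {D : Dat m ℂ} (hD : D.Symm) {x y : Vec m ℂ} (hx : x ≠ 0) (hy : y ≠ 0) :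
    (Projectivization.mk ℂ x hx, Projectivization.mk ℂ y hy) ∈ D.X ↔ D.In x y := by
  obtain ⟨a, ha⟩ := Projectivization.exists_smul_eq_mk_rep ℂ x hx
  obtain ⟨b, hb⟩ := Projectivization.exists_smul_eq_mk_rep ℂ y hy
  change D.In (Projectivization.mk ℂ x hx).rep (Projectivization.mk ℂ y hy).rep ↔ D.In x y
  rw [← ha, ← hb]
  have e1 : ∀ i, D.A i (a • x) (b • y) = (a : ℂ) * ((b : ℂ) * D.A i x y) := by
    intro i
    have h1 := Dat.A_smul_left D i x ((b : ℂ) • y) (a : ℂ)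
    have h2 := Dat.A_smul_right D i x y (b : ℂ)
    exact h1.trans (by rw [h2])
  have e2 : D.B (a • x) (a • x) (b • y) (b • y) =
      (a : ℂ) * ((a : ℂ) * ((b : ℂ) * ((b : ℂ) * D.B x x y y))) := by
    have h1 := Dat.B_smul₁ D x ((a : ℂ) • x) ((b : ℂ) • y) ((b : ℂ) • y) (a : ℂ)
    have h2 : D.B x ((a : ℂ) • x) ((b : ℂ) • y) ((b : ℂ) • y) =
        (a : ℂ) * ((b : ℂ) * ((b : ℂ) * D.B x x y y)) := by
      rw [hD.B_smul₂, Dat.B_smul₃, hD.B_smul₄]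
    exact h1.trans (by rw [h2])
  unfold Dat.In
  rw [e2]
  constructor
  · rintro ⟨h1, h2⟩
    refine ⟨fun i => ?_, ?_⟩
    · have h3 := h1 i
      rw [e1] at h3
      exact (mul_eq_zero.mp ((mul_eq_zero.mp h3).resolve_left a.ne_zero)).resolve_left b.ne_zero
    · have h4 := (mul_eq_zero.mp ((mul_eq_zero.mp h2).resolve_left a.ne_zero)).resolve_left
        a.ne_zero
      exact (mul_eq_zero.mp ((mul_eq_zero.mp h4).resolve_left b.ne_zero)).resolve_left b.ne_zero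
  · rintro ⟨h1, h2⟩
    refine ⟨fun i => ?_, ?_⟩
    · rw [e1, h1 i, mul_zero, mul_zero]
    · rw [h2, mul_zero, mul_zero, mul_zero, mul_zero]

end Pool.Agent.MP_1209e6_cy
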