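import Pool.Agent.Lib_MP_1209e6_cy.ExFL
import Pool.Agent.Lib_MP_1209e6_cy.ExFLy
import Pool.Agent.Lib_MP_1209e6_cy.ExFib
import Pool.Agent.Lib_MP_1209e6_cy.ProjA

/-!
PIECE [XSM] (MP_1209e6_ag).  Smallness of the example.
-/

open Matrix MvPolynomial

namespace Pool.Agent.MP_1209e6_cy

theorem be_ne_zero : ∀ j l, j ≠ l → be j l ≠ 0 := by
  intro j l h
  fin_cases j <;> fin_cases l <;> simp_all [be]

theorem xsm_indep {m : ℕ} {q q' : PP m} (h : q ≠ q') : Indep q.rep q'.rep := by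
  by_contra hc
  unfold Indep at hc
  push Not at hc
  apply h
  obtain ⟨j, hj⟩ : ∃ j, q'.rep j ≠ 0 := by
    by_contra h0
    push Not at h0
    exact q'.rep_nonzero (funext h0)
  rw [← q.mk_rep, ← q'.mk_rep, Projectivization.mk_eq_mk_iff']
  refine ⟨q.rep j / q'.rep j, ?_⟩
  funext i
  show q.rep j / q'.rep j * q'.rep i = q.rep i
  rw [div_mul_eq_mul_div, div_eq_iff hj]
  exact (hc i j).symm

theorem xsm_codim {m : ℕ} {S : Set (PP m)} {T : Set (Vec m ℂ)} (hT : Thin T)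
    (h : ∀ c ∈ S, c.rep ∈ T) : Codim2 S := by
  obtain ⟨F, G, ⟨d, hF⟩, ⟨e, hG⟩, hr, hz⟩ := hT
  exact ⟨F, G, d, e, hF, hG, hr, fun c hc => hz _ (h c hc)⟩

theorem xsm_mono {m : ℕ} {S T : Set (PP m)} (hT : Codim2 T) (h : S ⊆ T) : Codim2 S := by
  obtain ⟨F, G, d, e, hF, hG, hr, hz⟩ := hT
  exact ⟨F, G, d, e, hF, hG, hr, fun c hc => hz _ (h hc)⟩

theorem xsm_three {β : Fin 4 → Fin 4 → ℂ} {c : PP 2 × PP 2} (hc : c ∈ (dg β).Exc) :
    Three β c.1.rep := by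
  obtain ⟨_, q₁, q₂, q₃, h12, h13, h23, h1, h2, h3⟩ := hc
  exact ⟨q₁.rep, q₂.rep, q₃.rep, h1, h2, h3, xsm_indep h12, xsm_indep h13, xsm_indep h23⟩

theorem xsm_smul (β : Fin 4 → Fin 4 → ℂ) {t y : Vec 2 ℂ} {c : ℂ} (hc : c ≠ 0)
    (h : (dg β).In (c • t) y) : (dg β).In t y := by
  obtain ⟨h1, h2⟩ := h
  constructor
  · intro i
    have h3 := h1 i
    rw [Dat.A_smul_left] at h3
    exact (mul_eq_zero.1 h3).resolve_left hc
  · rw [Dat.B_smul₁, (dg_symm β).B_smul₂] at h2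
    exact (mul_eq_zero.1 ((mul_eq_zero.1 h2).resolve_left hc)).resolve_left hc

theorem xsm_exc (β : Fin 4 → Fin 4 → ℂ) (hβ : ∀ j l, j ≠ l → β j l ≠ 0)
    (hx : FinLines {x : Vec 2 ℂ | Three β x}) :
    Codim2 (Prod.fst '' (dg β).Exc) ∧ Codim2 (Prod.snd '' (dg β).Exc) := by
  classical
  constructor
  · refine xsm_codim (hx.thin (by norm_num)) ?_
    rintro _ ⟨c, hc, rfl⟩
    exact xsm_three hc
  · obtain ⟨T, hT⟩ := hx
    refine xsm_codim (Thin.biUnion (T.filter (fun t => t ≠ 0)) (fun t => {y : Vec 2 ℂ | (dg β).In t y})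
      (fun t ht => thin_fibre β hβ (Finset.mem_filter.1 ht).2)) ?_
    rintro _ ⟨c, hc, rfl⟩
    obtain ⟨t, ht, a, ha⟩ := hT c.1.rep (xsm_three hc)
    have hne : a • t ≠ 0 := by
      rw [← ha]
      exact c.1.rep_nonzero
    have ha0 : a ≠ 0 := by
      rintro rfl
      exact hne (zero_smul _ _)
    have ht0 : t ≠ 0 := by
      rintro rfl
      exact hne (smul_zero _)
    refine Set.mem_iUnion₂.2 ⟨t, Finset.mem_filter.2 ⟨ht, ht0⟩, ?_⟩
    have h1 : (dg β).In c.1.rep c.2.rep := hc.1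
    rw [ha] at h1
    exact xsm_smul β ha0 h1

theorem xsm_swap {β : Fin 4 → Fin 4 → ℂ} {c : PP 2 × PP 2} (hc : c ∈ (dg β).Exc') :
    (c.2, c.1) ∈ (dg (tr4 β)).Exc := by
  have hs : ∀ a b : PP 2, (a, b) ∈ (dg β).X → (b, a) ∈ (dg (tr4 β)).X := by
    intro a b h
    show (dg (tr4 β)).In b.rep a.rep
    rw [← dg_swap, Dat.swap_In]
    exact h
  obtain ⟨h0, q₁, q₂, q₃, h12, h13, h23, h1, h2, h3⟩ := hc
  exact ⟨hs _ _ h0, q₁, q₂, q₃, h12, h13, h23, hs _ _ h1, hs _ _ h2, hs _ _ h3⟩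

/-- PIECE [XSM].  Smallness from the finiteness of the exceptional points.

Proof.  `Prod.fst '' Exc`: the `rep`s of these points satisfy `Three β`, so they form a thin set (`FinLines.thin`).
`Prod.snd '' Exc`: if `(x, y)` is in `Exc` then `x.rep = c • t` with `t ∈ T` (the finite set of `hx`), `c ≠ 0`, so
`(dg β).In t y.rep`: a finite union (over the nonzero `t ∈ T`) of thin sets (`thin_fibre`, `Thin.biUnion`).  The same for
`Exc'` with `tr4 β` (`dg_swap`, `Dat.swap_In`). -/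
theorem dg_small (β : Fin 4 → Fin 4 → ℂ) (hβ : ∀ j l, j ≠ l → β j l ≠ 0)
    (hx : FinLines {x : Vec 2 ℂ | Three β x}) (hy : FinLines {y : Vec 2 ℂ | Three (tr4 β) y}) :
    (dg β).Small := by
  obtain ⟨h1, h2⟩ := xsm_exc β hβ hx
  obtain ⟨h3, h4⟩ := xsm_exc (tr4 β) (fun j l h => hβ l j h.symm) hy
  refine ⟨h1, h2, xsm_mono h4 ?_, xsm_mono h3 ?_⟩
  · rintro _ ⟨c, hc, rfl⟩
    exact ⟨(c.2, c.1), xsm_swap hc, rfl⟩
  · rintro _ ⟨c, hc, rfl⟩
    exact ⟨(c.2, c.1), xsm_swap hc, rfl⟩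

theorem be_small : (dg be).Small := dg_small be be_ne_zero finLines_three finLines_three'

end Pool.Agent.MP_1209e6_cy
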