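import Pool.Agent.Lib_MP_1209e6_cy.Main
import Pool.Agent.Lib_MP_1209e6_cy.ExIrr
import Pool.Agent.Lib_MP_1209e6_cy.ExSmall
import Pool.Agent.Lib_MP_1209e6_cy.ExSaddle

/-!
# Dense entire curves on Calabi-Yau complete intersections of type `(1,1)^(n-1), (2,2)` in `P^n x P^n`

`n = m + 1 ≥ 2`.  If `X` is irreducible, the exceptional loci of its two projections have images of codimension at
least two, and there is a saddle point, then `X` contains an entire curve with Zariski dense image.  An explicit
threefold satisfies the hypotheses.

(A former hand-in, moved out of the results when `CubicFano` was added: at most four hand-ins per problem.)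

Former claim file:

Proves: Let n=m+1>=2 and let X in P^n x P^n (over C) be the zero set of n-1 bilinear forms and one form of bidegree (2,2). If X is irreducible, the points of X lying in a fibre with at least 3 points of one of the projections have images of codimension >=2 in both factors, and X has a saddle point, then X contains an entire curve with Zariski dense image; an explicit X with n=3 satisfies all these hypotheses.
Definitions: Dat m C: coefficients of the forms; A_i, B: the bilinear forms, the polarised (2,2)-form; Symm: symmetric coefficients (no restriction on the form). Irred: X is irreducible. Exc, Exc', Codim2, Small: the codimension condition. Saddle: a smooth point (x,y) of X, A_i(.,y) and A_i(x,.) linearly independent, ramified for both projections with kernel directions u, v, where Q_u=B(u,u,y,y), Q_v=B(x,x,v,v) are nonzero and the nontrivial multipliers s, 1/s of the product of the two covering involutions satisfy: tau=s+1/s+2 is not in [0,4]. BrodySpecial: a holomorphic map C -> X (IsEntire) with Zariski dense image.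
Relation: Partial answer to Q1. A smooth X is a Calabi-Yau n-fold, hence special (Campana); the theorem gives (ii) for it, in every dimension. The curve is the unstable curve of a fixed point of a birational map of infinite order. Smoothness of the example is not proved. Earlier work in mind: Cantat (K3 surfaces, n=2), Cantat-Oguiso, Campana-Winkelmann, Amerik-Bogomolov-Rovinsky.
-/

namespace Pool.Agent.MP_1209e6_cy.CalabiYauCurvesRes

open Pool.Agent.MP_1209e6_cy

theorem result :
    (∀ m : ℕ, 1 ≤ m → ∀ D : Dat m ℂ, D.Symm → D.Irred → D.Small →
      (∃ x y u v μ ν, Saddle D x y u v μ ν) → D.BrodySpecial) ∧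
    ∃ D : Dat 2 ℂ, D.Symm ∧ D.Irred ∧ D.Small ∧ ∃ x y u v μ ν, Saddle D x y u v μ ν := by
  refine ⟨?_, dg be, dg_symm be, be_irred, be_small, _, _, _, _, _, _, be_saddle⟩
  rintro m hm D hD hirr hsm ⟨x, y, u, v, μ, ν, hs⟩
  exact brodySpecial_of_saddle hm D hD hirr hsm hs

end Pool.Agent.MP_1209e6_cy.CalabiYauCurvesRes
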