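import Mathlib

/-!
# Calabi-Yau complete intersections in `P^n x P^n` of type `(1,1)^(n-1), (2,2)`

Basic definitions.  `m = n - 1 ≥ 1` is the number of bilinear forms; both factors have `m + 2`
homogeneous coordinates.  Everything is defined over an arbitrary commutative ring.
-/

open Matrix

namespace Pool.Agent.MP_1209e6_cy

/-- vectors with `m + 2` coordinates -/
abbrev Vec (m : ℕ) (R : Type*) := Fin (m + 2) → R

/-- The coefficients of `m` bilinear forms and of one form of bidegree `(2, 2)`. -/
structure Dat (m : ℕ) (R : Type*) where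
  /-- coefficients of the bilinear forms -/
  a : Fin m → Fin (m + 2) → Fin (m + 2) → R
  /-- coefficients of the `(2, 2)`-form -/
  b : Fin (m + 2) → Fin (m + 2) → Fin (m + 2) → Fin (m + 2) → R

namespace Dat

variable {m : ℕ} {R S : Type*} [CommRing R] [CommRing S]

/-- base change -/
def map (D : Dat m R) (f : R →+* S) : Dat m S :=
  ⟨fun i j l => f (D.a i j l), fun j k l p => f (D.b j k l p)⟩

/-- exchange of the two factors -/
def swap (D : Dat m R) : Dat m R := ⟨fun i j l => D.a i l j, fun j k l p => D.b l p j k⟩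

/-- the symmetry of the coefficients of the `(2, 2)`-form -/
structure Symm (D : Dat m R) : Prop where
  left : ∀ j k l p, D.b j k l p = D.b k j l p
  right : ∀ j k l p, D.b j k l p = D.b j k p l

/-- the bilinear forms `A_i(x, y)` -/
def A (D : Dat m R) (i : Fin m) (x y : Vec m R) : R := ∑ j, ∑ l, D.a i j l * x j * y l

/-- the polarised `(2, 2)`-form `b(x, x', y, y')` -/
def B (D : Dat m R) (x x' y y' : Vec m R) : R :=
  ∑ j, ∑ k, ∑ l, ∑ p, D.b j k l p * x j * x' k * y l * y' p

/-- the pair `(x, y)` satisfies the equations -/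
def In (D : Dat m R) (x y : Vec m R) : Prop := (∀ i, D.A i x y = 0) ∧ D.B x x y y = 0

/-- the linear forms `A_i(·, y)` -/
def row (D : Dat m R) (y : Vec m R) : Fin m → Vec m R := fun i j => ∑ l, D.a i j l * y l

/-- the matrix of the quadratic form `b(·, ·, y, y)` -/
def Q (D : Dat m R) (y : Vec m R) : Fin (m + 2) → Fin (m + 2) → R :=
  fun j k => ∑ l, ∑ p, D.b j k l p * y l * y p

end Dat

variable {m : ℕ} {R : Type*} [CommRing R]

/-- the determinant with rows `w, ξ, r_1, ..., r_m` -/
def plu (r : Fin m → Vec m R) (w ξ : Vec m R) : R :=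
  Matrix.det (Matrix.of (vecCons w (vecCons ξ r) : Fin (m + 2) → Vec m R))

/-- the vector `u_w`: `ξ · u_w = plu r w ξ`; it is killed by the rows `r_i` and by `w` -/
def pv (r : Fin m → Vec m R) (w : Vec m R) : Vec m R := fun j => plu r w (Pi.single j 1)

namespace Dat

/-- The symmetric matrix `E(y) = π Q_y π^T` with `π_ik = plu (row y) e_i e_k`; for a point `y`
with two points `x, x'` of `X` over it, `E(y)` is proportional to `x ⊗ x' + x' ⊗ x`. -/
def E (D : Dat m R) (y : Vec m R) (i j : Fin (m + 2)) : R :=
  ∑ k, ∑ l, plu (D.row y) (Pi.single i 1) (Pi.single k 1) * D.Q y k l *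
    plu (D.row y) (Pi.single j 1) (Pi.single l 1)

/-- The second point of `X` over `y` (up to a scalar): `b(u,u) x - 2 b(x,u) u`, `u = u_w(y)`. -/
def S (D : Dat m R) (w x y : Vec m R) : Vec m R := fun j =>
  D.B (pv (D.row y) w) (pv (D.row y) w) y y * x j -
    2 * D.B x (pv (D.row y) w) y y * pv (D.row y) w j

end Dat

end Pool.Agent.MP_1209e6_cy
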