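import Pool.Agent.Lib_MP_1209e6_cy.Orbit

/-!
PIECE [DV] (MP_1209e6_ag).  All norms vanish.
-/

open Matrix MvPolynomial

namespace Pool.Agent.MP_1209e6_cy

variable {m : ℕ} {k K : Type*} [Field k] [CharZero k] [Field K] [CharZero K] [Algebra k K]

/-- PIECE [DV].  All norms `N(g', h)` vanish at `x`, hence are divisible by `g`.

Proof.  `E₁(x) = σ⁻¹(E₁(σ x)) = σ⁻¹(β) (σ⁻¹ y ⊗ y + y ⊗ σ⁻¹ y)`, so by `N2_eq` (for `D.swap`)
`N(g', h)(x) = β'^{r'} (g'(σ⁻¹y) h(y) + g'(y) h(σ⁻¹y)) = 0`, since `g'(y) = 0` and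
`g'(σ⁻¹ y) = σ⁻¹ (g'(y)) = 0`. -/
theorem dvd_norm {D : Dat m k} (hD : D.Symm) {σ : K ≃ₐ[k] K} {x y : Vec m K} (hO : Orb D σ x y)
    {r' : ℕ} {g g' : MvPolynomial (Fin (m + 2)) k} (hgh' : g'.IsHomogeneous r')
    (Ig : ∀ (d : ℕ) (p : MvPolynomial (Fin (m + 2)) k), p.IsHomogeneous d →
      (aeval x p = 0 ↔ g ∣ p))
    (hy : aeval y g' = 0) (h : MvPolynomial (Fin (m + 2)) k) (hh : h.IsHomogeneous r') :
    g ∣ D.swap.N2 r' g' h := by
  have h2 : IsUnit (2 : k) := isUnit_iff_ne_zero.2 two_ne_zero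
  obtain ⟨β, -, hβ⟩ := hO.hE'
  have hcomm : ∀ (τ : K ≃ₐ[k] K) (z : Vec m K) (p : MvPolynomial (Fin (m + 2)) k),
      aeval (fun l => τ (z l)) p = τ (aeval z p) := by
    intro τ z p
    have h3 := comp_aeval_apply (f := z) (τ : K →ₐ[k] K) p
    exact h3.symm
  -- `E'(x)`
  have hE : ∀ i j, (D.swap.map (algebraMap k K)).E x i j =
      σ.symm β * (y i * σ.symm (y j) + y j * σ.symm (y i)) := by
    intro i j
    have h1 : (D.swap.map (algebraMap k K)).E (fun l => σ (x l)) i j =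
        σ ((D.swap.map (algebraMap k K)).E x i j) := by
      rw [← Dat.aeval_EP, ← Dat.aeval_EP]
      exact hcomm σ x (D.swap.EP i j)
    have h3 := hβ i j
    rw [h1] at h3
    have h4 := congrArg σ.symm h3
    rw [AlgEquiv.symm_apply_apply] at h4
    rw [h4]
    simp only [map_mul, map_add, AlgEquiv.symm_apply_apply]
    ring
  have h5 : aeval (fun l => σ.symm (y l)) g' = 0 := by
    rw [hcomm σ.symm y g', hy, map_zero]
  refine (Ig _ _ (D.swap.N2_homog r' g' h)).1 ?_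
  rw [D.swap.N2_eq h2 hgh' hh y (fun l => σ.symm (y l)) x (σ.symm β) hE, hy, h5]
  ring

end Pool.Agent.MP_1209e6_cy
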