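import Pool.Agent.Lib_MP_1209e6_cy.EPoly
import Pool.Agent.Lib_MP_1209e6_cy.Points

/-!
PIECE [LL] (MP_1209e6_ag).  Transversality is preserved by the correspondence.
-/

open Matrix MvPolynomial

namespace Pool.Agent.MP_1209e6_cy

variable {m : ℕ} {k K : Type*} [Field k] [CharZero k] [Field K] [Algebra k K]

/-- Let `(X(t), Y(t))` be an arc in `X(K⟦t⟧)`, with `y₁ = Y(0)`, `x₁ = X(0)`, and let `y₂` be the
second point over `x₁`, different from `y₁`.  Let `g'` be a form of degree `r'` vanishing at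
`y₁, y₂` such that `g'(Y(t))` vanishes to order exactly one, and `g` a form in `x` dividing all
norms `N(g', h)`.  Then `g(X(t))` does not vanish to order `≥ 2`.

Proof.  Suppose `g(X(0)) = 0` and `t^2 ∣ g(X)`.  Let `w` be a vector over `K` with `w · y₁ = 1`, `W` the same
vector over `K⟦t⟧` and `Y' = S W Y X` for `D.swap`.  By `N2_spec` for `D.swap` over `R = K⟦t⟧` (the pair
`(Y, X)` satisfies `D.swap.In`), `(2 (W·Y)^2)^{r'} N(g',h)(X) = g'(Y) h(Y') + g'(Y') h(Y)` for every
form `h` of degree `r'`, and the left side is divisible by `t^2`.  The constant term `y'` of `Y'`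
satisfies `2 (w·y₁)^2 E₁(x₁) = y₁ ⊗ y' + y' ⊗ y₁` (`map_S`, `Symm.key`), hence `y' = 2 β y₂`
(`y₁ ⊗ z + z ⊗ y₁ = 0` implies `z = 0`), so `g'(y') = 0` and `y', y₁` are independent.  The coefficient
of `t` gives `c₁ h(y') + c₂ h(y₁) = 0` with `c₁ = coeff 1 (g'(Y)) ≠ 0`, `c₂ = coeff 1 (g'(Y'))`, for
all monomials `h` of degree `r'` (`r' ≥ 1` because `g'(y₁) = 0` and `g'(Y) ≠ 0`; if `g'` were a constant
it would be zero).  For an index `i` with `y'_i ≠ 0`: `h = X_i^{r'}` gives `c₂ y₁_i^{r'} = - c₁ y'_i^{r'} ≠ 0`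
and `h = X_i^{r'-1} X_j` gives `c₂ y₁_i^{r'-1} y₁_j = - c₁ y'_i^{r'-1} y'_j`; dividing,
`y₁_j / y₁_i = y'_j / y'_i` for all `j`: `y₁, y'` are proportional, contradiction. -/
theorem coeff_one_ne_zero {D : Dat m k} (hD : D.Symm) {r' : ℕ}
    {g g' : MvPolynomial (Fin (m + 2)) k} (hg' : g'.IsHomogeneous r')
    (hdiv : ∀ h : MvPolynomial (Fin (m + 2)) k, h.IsHomogeneous r' → g ∣ D.swap.N2 r' g' h)
    {X Y : Vec m (PowerSeries K)} (hin : (D.map (algebraMap k (PowerSeries K))).In X Y)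
    {x₁ y₁ y₂ : Vec m K} (hX : ∀ j, PowerSeries.constantCoeff (X j) = x₁ j)
    (hY : ∀ j, PowerSeries.constantCoeff (Y j) = y₁ j)
    {β : K} (hβ : β ≠ 0)
    (hE : ∀ i j, (D.swap.map (algebraMap k K)).E x₁ i j = β * (y₁ i * y₂ j + y₁ j * y₂ i))
    (hind : Indep y₁ y₂) (h₁ : aeval y₁ g' = 0) (h₂ : aeval y₂ g' = 0)
    (hord : PowerSeries.coeff 1 (aeval Y g') ≠ 0) (hg0 : aeval x₁ g = 0) :
    PowerSeries.coeff 1 (aeval X g) ≠ 0 := by
  -- the vector `w`
  obtain ⟨a, b, hab⟩ := hind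
  have hy1 : ∃ i, y₁ i ≠ 0 := by
    by_contra hcon
    push Not at hcon
    exact hab (by rw [hcon a, hcon b]; ring)
  have hy2 : ∃ i, y₂ i ≠ 0 := by
    by_contra hcon
    push Not at hcon
    exact hab (by rw [hcon a, hcon b]; ring)
  obtain ⟨i₀, hi₀⟩ := hy1
  obtain ⟨i₂, hi₂⟩ := hy2
  set w : Vec m K := Pi.single i₀ (y₁ i₀)⁻¹ with hw
  have hwy : w ⬝ᵥ y₁ = 1 := by
    rw [hw, single_dotProduct, inv_mul_cancel₀ hi₀]
  set am : k →+* PowerSeries K := algebraMap k (PowerSeries K) with ham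
  set cc : PowerSeries K →+* K := PowerSeries.constantCoeff with hcc
  set W : Vec m (PowerSeries K) := fun j => PowerSeries.C (w j) with hW
  set Y' : Vec m (PowerSeries K) := (D.swap.map am).S W Y X with hY'
  have hin' : (D.swap.map am).In Y X := by
    rw [← Dat.map_swap, Dat.swap_In]
    exact hin
  have hce : ∀ c : k, cc (am c) = algebraMap k K c := by
    intro c
    rw [ham, hcc, IsScalarTower.algebraMap_apply k K (PowerSeries K)]
    simp
  have hmap : (D.swap.map am).map cc = D.swap.map (algebraMap k K) := by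
    simp only [Dat.map, hce]
  have hX' : (fun j => cc (X j)) = x₁ := funext hX
  have hYc : (fun j => cc (Y j)) = y₁ := funext hY
  have hWc : (fun j => cc (W j)) = w := by
    funext j
    simp [hcc, hW]
  have hin1 : (D.swap.map (algebraMap k K)).In y₁ x₁ := by
    have := Dat.map_In cc hin'
    rwa [hmap, hX', hYc] at this
  set y' : Vec m K := (D.swap.map (algebraMap k K)).S w y₁ x₁ with hy'
  have hY'c : (fun j => cc (Y' j)) = y' := by
    funext j
    have := Dat.map_S (D.swap.map am) cc W Y X j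
    rw [hmap, hX', hYc, hWc] at this
    rw [hY', ← this]
  have h2K : (2 : K) ≠ 0 := by
    have : CharZero K := charZero_of_injective_algebraMap (algebraMap k K).injective
    exact two_ne_zero
  have hkey : ∀ i j, y₁ i * (y' j - 2 * β * y₂ j) + y₁ j * (y' i - 2 * β * y₂ i) = 0 := by
    intro i j
    have h1 := (hD.swap.map (algebraMap k K)).key hin1 w i j
    rw [hwy, hE i j] at h1
    rw [← hy'] at h1
    linear_combination -h1
  have hz0 : y' i₀ - 2 * β * y₂ i₀ = 0 := by
    have h1 := hkey i₀ i₀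
    have h3 : (2 * y₁ i₀) * (y' i₀ - 2 * β * y₂ i₀) = 0 := by linear_combination h1
    exact (mul_eq_zero.1 h3).resolve_left (mul_ne_zero h2K hi₀)
  have hyy : ∀ j, y' j = 2 * β * y₂ j := by
    intro j
    have h1 := hkey i₀ j
    rw [hz0, mul_zero, add_zero] at h1
    exact sub_eq_zero.1 ((mul_eq_zero.1 h1).resolve_left hi₀)
  -- evaluation and constant terms
  have hcae : ∀ (Z : Vec m (PowerSeries K)) (f : MvPolynomial (Fin (m + 2)) k),
      cc (aeval Z f) = aeval (fun j => cc (Z j)) f := by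
    intro Z f
    rw [aeval_def, aeval_def, MvPolynomial.hom_eval₂]
    congr 1
  have hg'y' : aeval y' g' = 0 := by
    rw [aeval_def, eval₂_eq]
    have h3 : ∀ d ∈ g'.support, (algebraMap k K) (coeff d g') * ∏ i ∈ d.support, y' i ^ d i =
        (2 * β) ^ r' * ((algebraMap k K) (coeff d g') * ∏ i ∈ d.support, y₂ i ^ d i) := by
      intro d hd
      have hdeg : d.degree = r' := by
        have := hg' (mem_support_iff.1 hd)
        rw [← this]
        exact congrFun (congrArg DFunLike.coe (Finsupp.degree_eq_weight_one (σ := Fin (m + 2)) (R := ℕ))) d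
      have h4 : ∏ i ∈ d.support, y' i ^ d i = (2 * β) ^ r' * ∏ i ∈ d.support, y₂ i ^ d i := by
        rw [← hdeg, Finsupp.degree_apply, ← Finset.prod_pow_eq_pow_sum, ← Finset.prod_mul_distrib]
        refine Finset.prod_congr rfl fun i _ => ?_
        rw [hyy i, mul_pow]
      rw [h4]
      ring
    rw [Finset.sum_congr rfl h3, ← Finset.mul_sum, ← eval₂_eq, ← aeval_def, h₂, mul_zero]
  -- the coefficient of `t`
  intro hg1
  have hdvd : (PowerSeries.X : PowerSeries K) ^ 2 ∣ aeval X g := by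
    rw [PowerSeries.X_pow_dvd_iff]
    intro n hn
    interval_cases n
    · rw [PowerSeries.coeff_zero_eq_constantCoeff_apply]
      have := hcae X g
      rw [hX', hg0] at this
      exact this
    · exact hg1
  have hcoef : ∀ h : MvPolynomial (Fin (m + 2)) k, h.IsHomogeneous r' →
      PowerSeries.coeff 1 (aeval Y g') * aeval y' h +
        PowerSeries.coeff 1 (aeval Y' g') * aeval y₁ h = 0 := by
    intro h hh
    have hunit : IsUnit (2 : k) := isUnit_iff_ne_zero.2 two_ne_zero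
    have hsp := Dat.N2_spec hD.swap hunit hg' hh W Y X hin'
    rw [← hY'] at hsp
    have hd2 : (PowerSeries.X : PowerSeries K) ^ 2 ∣
        aeval Y g' * aeval Y' h + aeval Y' g' * aeval Y h := by
      rw [← hsp]
      refine Dvd.dvd.mul_left (hdvd.trans ?_) _
      obtain ⟨q, hq⟩ := hdiv h hh
      rw [hq, map_mul]
      exact dvd_mul_right _ _
    have hc1 := (PowerSeries.X_pow_dvd_iff.1 hd2) 1 (by norm_num)
    have e1 : ∀ φ ψ : PowerSeries K, PowerSeries.coeff 1 (φ * ψ) =
        PowerSeries.coeff 1 φ * cc ψ + cc φ * PowerSeries.coeff 1 ψ := by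
      intro φ ψ
      rw [PowerSeries.coeff_mul, hcc]
      simp [Finset.Nat.antidiagonal_succ]
      ring
    rw [map_add, e1, e1, hcae, hcae, hcae, hcae, hYc, hY'c, h₁, hg'y', zero_mul, zero_mul, add_zero,
      add_zero] at hc1
    exact hc1
  -- `r'` is positive
  have hr' : r' ≠ 0 := by
    intro h0
    subst h0
    have hC : g' = C (coeff 0 g') := totalDegree_eq_zero_iff_eq_C.1 (hg'.totalDegree_le.antisymm (Nat.zero_le _))
    apply hord
    rw [hC, aeval_C, IsScalarTower.algebraMap_apply k K (PowerSeries K)]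
    exact PowerSeries.coeff_C_of_ne_zero one_ne_zero
  obtain ⟨s, rfl⟩ := Nat.exists_eq_succ_of_ne_zero hr'
  set c₁ := PowerSeries.coeff 1 (aeval Y g') with hc₁
  set c₂ := PowerSeries.coeff 1 (aeval Y' g') with hc₂
  have h2β : (2 * β) ≠ 0 := mul_ne_zero h2K hβ
  have hyi : y' i₂ ≠ 0 := by
    rw [hyy]
    exact mul_ne_zero h2β hi₂
  have hm : ∀ j, c₁ * (y' i₂ ^ s * y' j) + c₂ * (y₁ i₂ ^ s * y₁ j) = 0 := by
    intro j
    have := hcoef (MvPolynomial.X i₂ ^ s * MvPolynomial.X j) ((isHomogeneous_X_pow i₂ s).mul (isHomogeneous_X k j))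
    simpa using this
  have hprop : ∀ j, y' j * y₁ i₂ = y' i₂ * y₁ j := by
    intro j
    have e1 := hm i₂
    have e2 := hm j
    have e3 : (c₁ * y' i₂ ^ s) * (y' j * y₁ i₂ - y' i₂ * y₁ j) = 0 := by
      linear_combination y₁ i₂ * e2 - y₁ j * e1
    have e4 : c₁ * y' i₂ ^ s ≠ 0 := mul_ne_zero hord (pow_ne_zero _ hyi)
    exact sub_eq_zero.1 ((mul_eq_zero.1 e3).resolve_left e4)
  apply hab
  have f1 := hprop a
  have f2 := hprop b
  rw [hyy, hyy i₂] at f1 f2
  have g1 : y₂ a * y₁ i₂ = y₂ i₂ * y₁ a := by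
    apply mul_left_cancel₀ h2β
    linear_combination f1
  have g2 : y₂ b * y₁ i₂ = y₂ i₂ * y₁ b := by
    apply mul_left_cancel₀ h2β
    linear_combination f2
  apply mul_left_cancel₀ hi₂
  linear_combination y₂ a * g2 - y₂ b * g1

end Pool.Agent.MP_1209e6_cy
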