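import Pool.Agent.Lib_MP_1209e6_cy.EPoly
import Pool.Agent.Lib_MP_1209e6_cy.Points

/-!
PIECE [OR] (MP_1209e6_ag).  The algebraic data carried by the invariant curve.
-/

open Matrix MvPolynomial

namespace Pool.Agent.MP_1209e6_cy

variable {m : ℕ} {k K : Type*} [Field k] [Field K] [Algebra k K]

/-- `(x, y)` is a `K`-point of `X`, `x` and `σ x` are the two points over `y`, and `y` and `σ y` are
the two points over `σ x`. -/
structure Orb (D : Dat m k) (σ : K ≃ₐ[k] K) (x y : Vec m K) : Prop where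
  hin : (D.map (algebraMap k K)).In x y
  hE : ∃ α : K, α ≠ 0 ∧ ∀ i j, (D.map (algebraMap k K)).E y i j =
    α * (x i * σ (x j) + x j * σ (x i))
  hE' : ∃ β : K, β ≠ 0 ∧ ∀ i j, (D.swap.map (algebraMap k K)).E (fun l => σ (x l)) i j =
    β * (y i * σ (y j) + y j * σ (y i))
  indx : Indep x (fun l => σ (x l))
  indy : Indep y (fun l => σ (y l))

private theorem orb_map_fix {D : Dat m k} (σ : K ≃ₐ[k] K) :
    (D.map (algebraMap k K)).map ((σ : K ≃+* K) : K →+* K) = D.map (algebraMap k K) := by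
  unfold Dat.map
  congr 1
  · funext i j l
    exact σ.commutes _
  · funext i j l p
    exact σ.commutes _

/-- `σ x` is also a point over `y`: with `w · x = 1`, `2 E(y) = x ⊗ S + S ⊗ x` (`Symm.key`) and
`E(y) = α (x ⊗ σx + σx ⊗ x)` give `S = 2 α σx`, and `(S, y) ∈ X` by `Symm.In_S`. -/
theorem Orb.in' [CharZero k] {D : Dat m k} (hD : D.Symm) {σ : K ≃ₐ[k] K} {x y : Vec m K}
    (h : Orb D σ x y) : (D.map (algebraMap k K)).In (fun l => σ (x l)) y := by
  have : CharZero K := charZero_of_injective_algebraMap (algebraMap k K).injective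
  have hD' : (D.map (algebraMap k K)).Symm := hD.map _
  obtain ⟨α, hα, hE⟩ := h.hE
  obtain ⟨i₀, hi₀⟩ : ∃ i, x i ≠ 0 := by
    by_contra hx
    push Not at hx
    obtain ⟨i, j, hij⟩ := h.indx
    exact hij (by rw [hx i, hx j, zero_mul, zero_mul])
  obtain ⟨w, hw⟩ : ∃ w : Vec m K, w ⬝ᵥ x = 1 :=
    ⟨Pi.single i₀ (x i₀)⁻¹, by rw [single_dotProduct, inv_mul_cancel₀ hi₀]⟩
  have key : ∀ i j, x i * (D.map (algebraMap k K)).S w x y j +
      x j * (D.map (algebraMap k K)).S w x y i =
      2 * (α * (x i * σ (x j) + x j * σ (x i))) := by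
    intro i j
    have h1 := hD'.key h.hin w i j
    rw [hw, one_pow, mul_one, hE] at h1
    exact h1.symm
  have h0 : (D.map (algebraMap k K)).S w x y i₀ = 2 * α * σ (x i₀) := by
    have h1 := key i₀ i₀
    have h2 : (2 * x i₀) * ((D.map (algebraMap k K)).S w x y i₀ - 2 * α * σ (x i₀)) = 0 := by
      linear_combination h1
    rcases mul_eq_zero.1 h2 with h3 | h3
    · exact absurd h3 (mul_ne_zero two_ne_zero hi₀)
    · exact sub_eq_zero.1 h3
  have hS : (D.map (algebraMap k K)).S w x y = (2 * α) • (fun l => σ (x l)) := by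
    funext j
    have h1 := key i₀ j
    rw [h0] at h1
    have h2 : x i₀ * ((D.map (algebraMap k K)).S w x y j - 2 * α * σ (x j)) = 0 := by
      linear_combination h1
    rcases mul_eq_zero.1 h2 with h3 | h3
    · exact absurd h3 hi₀
    · rw [sub_eq_zero.1 h3, Pi.smul_apply, smul_eq_mul]
  have hin := hD'.In_S (w := w) h.hin
  rw [hS] at hin
  have h2α : (2 * α : K) ≠ 0 := mul_ne_zero two_ne_zero hα
  refine ⟨fun i => ?_, ?_⟩
  · have h1 := hin.1 i
    rw [Dat.A_smul_left] at h1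
    exact (mul_eq_zero.1 h1).resolve_left h2α
  · have h1 := hin.2
    rw [Dat.B_smul₁, hD'.B_smul₂] at h1
    exact (mul_eq_zero.1 ((mul_eq_zero.1 h1).resolve_left h2α)).resolve_left h2α

/-- The data with the two factors exchanged (shifted by one step): apply `σ` to `hE`. -/
theorem Orb.swap [CharZero k] {D : Dat m k} (hD : D.Symm) {σ : K ≃ₐ[k] K} {x y : Vec m K}
    (h : Orb D σ x y) : Orb D.swap σ y (fun l => σ (x l)) := by
  refine ⟨?_, h.hE', ?_, h.indy, ?_⟩
  · rw [← Dat.map_swap, Dat.swap_In]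
    exact h.in' hD
  · obtain ⟨α, hα, hE⟩ := h.hE
    refine ⟨σ α, (map_ne_zero σ).2 hα, fun i j => ?_⟩
    have h1 := Dat.map_E (D.map (algebraMap k K)) ((σ : K ≃+* K) : K →+* K) y i j
    rw [orb_map_fix σ, hE] at h1
    rw [Dat.swap_swap]
    have h2 : (((σ : K ≃+* K) : K →+* K) (α * (x i * σ (x j) + x j * σ (x i)))) =
        σ α * (σ (x i) * σ (σ (x j)) + σ (x j) * σ (σ (x i))) := by
      change σ (α * (x i * σ (x j) + x j * σ (x i))) = _
      rw [map_mul, map_add, map_mul, map_mul]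
    rw [h2] at h1
    exact h1
  · obtain ⟨i, j, hij⟩ := h.indx
    refine ⟨i, j, fun h1 => hij (σ.injective ?_)⟩
    rw [map_mul, map_mul]
    exact h1

/-- Scaling: `E` is homogeneous of degree `2 m + 2` (`Dat.E_smul`). -/
theorem Orb.smul {D : Dat m k} {σ : K ≃ₐ[k] K} {x y : Vec m K} (hD : D.Symm)
    (h : Orb D σ x y) {c d : K} (hc : c ≠ 0) (hd : d ≠ 0) : Orb D σ (c • x) (d • y) := by
  have hD' : (D.map (algebraMap k K)).Symm := hD.map _
  have hσc : σ c ≠ 0 := (map_ne_zero σ).2 hc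
  have hσd : σ d ≠ 0 := (map_ne_zero σ).2 hd
  refine ⟨⟨fun i => ?_, ?_⟩, ?_, ?_, ?_, ?_⟩
  · rw [Dat.A_smul_left, Dat.A_smul_right, h.hin.1 i, mul_zero, mul_zero]
  · rw [Dat.B_smul₁, hD'.B_smul₂, Dat.B_smul₃, hD'.B_smul₄, h.hin.2, mul_zero, mul_zero,
      mul_zero, mul_zero]
  · obtain ⟨α, hα, hE⟩ := h.hE
    refine ⟨d ^ (2 * m + 2) * α / (c * σ c), div_ne_zero (mul_ne_zero (pow_ne_zero _ hd) hα)
      (mul_ne_zero hc hσc), fun i j => ?_⟩
    rw [Dat.E_smul, hE]
    simp only [Pi.smul_apply, smul_eq_mul, map_mul]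
    field_simp
  · obtain ⟨β, hβ, hE⟩ := h.hE'
    refine ⟨σ c ^ (2 * m + 2) * β / (d * σ d), div_ne_zero (mul_ne_zero (pow_ne_zero _ hσc) hβ)
      (mul_ne_zero hd hσd), fun i j => ?_⟩
    have h1 : (fun l => σ ((c • x) l)) = σ c • (fun l => σ (x l)) := by
      funext l
      simp only [Pi.smul_apply, smul_eq_mul, map_mul]
    rw [h1, Dat.E_smul, hE]
    simp only [Pi.smul_apply, smul_eq_mul, map_mul]
    field_simp
  · obtain ⟨i, j, hij⟩ := h.indx
    refine ⟨i, j, fun h1 => hij ?_⟩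
    simp only [Pi.smul_apply, smul_eq_mul, map_mul] at h1
    have h2 : (c * σ c) * (x i * σ (x j) - x j * σ (x i)) = 0 := by
      linear_combination h1
    exact sub_eq_zero.1 ((mul_eq_zero.1 h2).resolve_left (mul_ne_zero hc hσc))
  · obtain ⟨i, j, hij⟩ := h.indy
    refine ⟨i, j, fun h1 => hij ?_⟩
    simp only [Pi.smul_apply, smul_eq_mul, map_mul] at h1
    have h2 : (d * σ d) * (y i * σ (y j) - y j * σ (y i)) = 0 := by
      linear_combination h1
    exact sub_eq_zero.1 ((mul_eq_zero.1 h2).resolve_left (mul_ne_zero hd hσd))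

/-- Restriction of the ground field: `k → k' → K`; the data over `k'` come from `k`. -/
theorem Orb.restrict {k' : Type*} [Field k'] [Algebra k k'] [Algebra k' K] [IsScalarTower k k' K]
    {D : Dat m k} {σ : K ≃ₐ[k'] K} {x y : Vec m K}
    (h : Orb (D.map (algebraMap k k')) σ x y) : Orb D (σ.restrictScalars k) x y := by
  have e : ∀ D : Dat m k, (D.map (algebraMap k k')).map (algebraMap k' K) = D.map (algebraMap k K) := by
    intro D
    unfold Dat.map
    congr 1
    · funext i j l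
      exact (IsScalarTower.algebraMap_apply k k' K _).symm
    · funext i j l p
      exact (IsScalarTower.algebraMap_apply k k' K _).symm
  refine ⟨?_, ?_, ?_, h.indx, h.indy⟩
  · have := h.hin
    rwa [e] at this
  · have := h.hE
    rwa [e] at this
  · have := h.hE'
    rw [← Dat.map_swap] at this
    rw [e] at this
    exact this

end Pool.Agent.MP_1209e6_cy
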