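import Mathlib

/-!
PIECE [TAY] (MP_1209e6_ag).  First order Taylor expansion of a polynomial along a line.
-/

open MvPolynomial

namespace Pool.Agent.MP_1209e6_cy

variable {N : ℕ} {k K : Type*} [Field k] [Field K] [Algebra k K]

/-- constant coefficient of `p(Y(t))` -/
theorem constantCoeff_aeval (Y : Fin N → PowerSeries K) (p : MvPolynomial (Fin N) k) :
    PowerSeries.constantCoeff (aeval Y p) = aeval (fun j => PowerSeries.constantCoeff (Y j)) p := by
  rw [aeval_def, aeval_def, hom_eval₂]
  have h : (PowerSeries.constantCoeff (R := K)).comp (algebraMap k (PowerSeries K)) =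
      algebraMap k K := by
    ext a
    rw [RingHom.comp_apply, PowerSeries.algebraMap_apply, PowerSeries.constantCoeff_C]
  rw [h]

/-- the coefficient of `t` in `p(y + t η)` is the derivative in direction `η` -/
theorem coeff_one_aeval_line (y η : Fin N → K) (p : MvPolynomial (Fin N) k) :
    PowerSeries.coeff 1
      (aeval (fun j => PowerSeries.C (y j) + PowerSeries.C (η j) * PowerSeries.X) p) =
      ∑ j, η j * aeval y (pderiv j p) := by
  have hc : ∀ q : MvPolynomial (Fin N) k, PowerSeries.constantCoeff
      (aeval (fun j => PowerSeries.C (y j) + PowerSeries.C (η j) * PowerSeries.X) q) =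
      aeval y q := by
    intro q
    rw [constantCoeff_aeval]
    have e : (fun j => PowerSeries.constantCoeff
        (PowerSeries.C (y j) + PowerSeries.C (η j) * PowerSeries.X)) = y := by
      funext j
      rw [map_add, map_mul, PowerSeries.constantCoeff_C, PowerSeries.constantCoeff_X, mul_zero,
        add_zero]
    rw [e]
  induction p using MvPolynomial.induction_on with
  | C a =>
    rw [aeval_C, PowerSeries.algebraMap_apply, PowerSeries.coeff_C, if_neg one_ne_zero]
    symm
    refine Finset.sum_eq_zero fun j _ => ?_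
    rw [pderiv_C, map_zero, mul_zero]
  | add p q hp hq =>
    rw [map_add, map_add, hp, hq, ← Finset.sum_add_distrib]
    refine Finset.sum_congr rfl fun j _ => ?_
    rw [map_add, map_add, mul_add]
  | mul_X p i hp =>
    rw [map_mul, aeval_X, PowerSeries.coeff_one_mul, hp, hc]
    have e1 : PowerSeries.constantCoeff
        (PowerSeries.C (y i) + PowerSeries.C (η i) * PowerSeries.X) = y i := by
      rw [map_add, map_mul, PowerSeries.constantCoeff_C, PowerSeries.constantCoeff_X, mul_zero,
        add_zero]
    have e2 : PowerSeries.coeff 1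
        (PowerSeries.C (y i) + PowerSeries.C (η i) * PowerSeries.X) = η i := by
      rw [map_add, PowerSeries.coeff_C, if_neg one_ne_zero, zero_add, PowerSeries.coeff_C_mul,
        PowerSeries.coeff_one_X, mul_one]
    rw [e1, e2]
    have e3 : ∀ j, aeval y (pderiv j (p * X i)) =
        aeval y (pderiv j p) * y i + aeval y p * (if j = i then 1 else 0) := by
      intro j
      rw [pderiv_mul, map_add, map_mul, map_mul, aeval_X, pderiv_X]
      by_cases h : j = i
      · rw [h, Pi.single_eq_same, map_one, if_pos rfl]
      · rw [Pi.single_eq_of_ne (Ne.symm h), map_zero, if_neg h]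
    simp only [e3]
    simp only [mul_add, Finset.sum_add_distrib]
    have e4 : ∑ j, η j * (aeval y p * (if j = i then (1 : K) else 0)) = aeval y p * η i := by
      rw [Finset.sum_eq_single i]
      · rw [if_pos rfl, mul_one, mul_comm]
      · intro j _ hj
        rw [if_neg hj, mul_zero, mul_zero]
      · intro h
        exact absurd (Finset.mem_univ i) h
    rw [e4, Finset.sum_mul]
    have e5 : ∑ j, η j * aeval y (pderiv j p) * y i = ∑ j, η j * (aeval y (pderiv j p) * y i) :=
      Finset.sum_congr rfl fun j _ => mul_assoc _ _ _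
    rw [e5, mul_comm (η i)]

/-- a nonconstant form has a nonzero partial derivative, which is a form of degree one less -/
theorem exists_pderiv_ne_zero [CharZero k] {r : ℕ} {p : MvPolynomial (Fin N) k}
    (hp : p.IsHomogeneous r) (hr : 1 ≤ r) (h0 : p ≠ 0) :
    ∃ j, pderiv j p ≠ 0 ∧ (pderiv j p).IsHomogeneous (r - 1) := by
  have h1 : ∃ j, pderiv j p ≠ 0 := by
    by_contra hcon
    push Not at hcon
    have h2 := hp.sum_X_mul_pderiv
    have h3 : ∑ i : Fin N, X i * pderiv i p = 0 :=
      Finset.sum_eq_zero fun i _ => by rw [hcon i, mul_zero]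
    rw [h3] at h2
    have h4 : r • p ≠ 0 := by
      rw [nsmul_eq_mul]
      refine mul_ne_zero ?_ h0
      rw [← map_natCast (C : k →+* MvPolynomial (Fin N) k)]
      rw [Ne, C_eq_zero]
      exact_mod_cast (by omega : r ≠ 0)
    exact h4 h2.symm
  obtain ⟨j, hj⟩ := h1
  exact ⟨j, hj, hp.pderiv⟩

/-- a factor of a form of smaller degree vanishes -/
theorem not_dvd_of_degree_lt {r s : ℕ} {p q : MvPolynomial (Fin N) k} (hp : p.IsHomogeneous r)
    (hq : q.IsHomogeneous s) (h0 : q ≠ 0) (hs : s < r) : ¬ p ∣ q := by
  rintro ⟨c, rfl⟩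
  have hp0 : p ≠ 0 := left_ne_zero_of_mul h0
  have hc0 : c ≠ 0 := right_ne_zero_of_mul h0
  have h1 := hq.totalDegree h0
  rw [totalDegree_mul_of_isDomain hp0 hc0, hp.totalDegree hp0] at h1
  omega

end Pool.Agent.MP_1209e6_cy
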