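import Pool.Agent.Lib_MP_1209e6_cy.Arc
import Pool.Agent.Lib_MP_1209e6_cy.Local
import Pool.Agent.Lib_MP_1209e6_cy.Orbit
import Pool.Agent.Lib_MP_1209e6_cy.Taylor

/-!
PIECE [DGA] (MP_1209e6_ag).  The norm vanishes to order two.
-/

open Matrix MvPolynomial

namespace Pool.Agent.MP_1209e6_cy

variable {m : ℕ} {k K : Type*} [Field k] [CharZero k] [Field K] [CharZero K] [Algebra k K]

namespace OrderTwo

omit [CharZero k] in
/-- evaluation of a form at a scaled vector -/
theorem aeval_smul_homog {R : Type*} [CommRing R] [Algebra k R] {r : ℕ}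
    {p : MvPolynomial (Fin (m + 2)) k} (hp : p.IsHomogeneous r) (c : R) (x : Vec m R) :
    aeval (fun i => c * x i) p = c ^ r * aeval x p := by
  rw [aeval_def, aeval_def, eval₂_eq', eval₂_eq', Finset.mul_sum]
  refine Finset.sum_congr rfl fun d hd => ?_
  have h := hp (mem_support_iff.mp hd)
  have h2 : ∑ i, d i = r := by
    rw [← h, Finsupp.weight_apply, Finsupp.sum_fintype]
    · simp
    · intro i
      simp
  simp only [mul_pow]
  rw [Finset.prod_mul_distrib, Finset.prod_pow_eq_pow_sum, h2]
  ring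

omit [CharZero k] [CharZero K] in
theorem map_C_eq (D : Dat m k) :
    (D.map (algebraMap k K)).map (PowerSeries.C : K →+* PowerSeries K) =
      D.map (algebraMap k (PowerSeries K)) := by
  unfold Dat.map
  congr 1
  · funext i j l
    exact (PowerSeries.algebraMap_apply (R := k) (A := K)).symm
  · funext i j l p
    exact (PowerSeries.algebraMap_apply (R := k) (A := K)).symm

omit [CharZero k] [CharZero K] in
theorem map_constantCoeff_eq (D : Dat m k) :
    (D.map (algebraMap k (PowerSeries K))).map (PowerSeries.constantCoeff : PowerSeries K →+* K) =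
      D.map (algebraMap k K) := by
  rw [← map_C_eq]
  rfl

/-- a symmetric product determines the second factor -/
theorem symm_unique {N : ℕ} {x z : Fin N → K} (hx : ∃ i, x i ≠ 0)
    (h : ∀ i j, x i * z j + x j * z i = 0) : ∀ j, z j = 0 := by
  obtain ⟨i, hi⟩ := hx
  have h0 : z i = 0 := by
    have h1 := h i i
    have h2 : x i * z i = 0 := by
      have h3 : (2 : K) * (x i * z i) = 0 := by
        rw [two_mul]
        exact h1
      rcases mul_eq_zero.mp h3 with h4 | h4
      · exact absurd h4 two_ne_zero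
      · exact h4
    rcases mul_eq_zero.mp h2 with h4 | h4
    · exact absurd h4 hi
    · exact h4
  intro j
  have h1 := h i j
  rw [h0, mul_zero, add_zero] at h1
  rcases mul_eq_zero.mp h1 with h4 | h4
  · exact absurd h4 hi
  · exact h4

/-- the second point over `y`, up to a scalar -/
theorem second_point {D : Dat m K} (hD : D.Symm) {x x' y : Vec m K} (hx : D.In x y)
    {α : K} (hE : ∀ i j, D.E y i j = α * (x i * x' j + x j * x' i)) (hx0 : ∃ i, x i ≠ 0)
    (w : Vec m K) (j : Fin (m + 2)) :
    D.S w x y j = 2 * (w ⬝ᵥ x) ^ 2 * α * x' j := by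
  have h := symm_unique (x := x) (z := fun j => D.S w x y j - 2 * (w ⬝ᵥ x) ^ 2 * α * x' j) hx0 ?_ j
  · exact sub_eq_zero.mp h
  · intro i j
    have h1 := hD.key hx w i j
    rw [hE] at h1
    linear_combination (-1 : K) * h1

/-- comparison of coefficients -/
theorem coeff_two_ne_zero {u F a b : PowerSeries K} (h : u * F = a * b + b * a)
    (hu : PowerSeries.constantCoeff u ≠ 0) (ha : PowerSeries.constantCoeff a = 0)
    (hb : PowerSeries.constantCoeff b = 0) (ha1 : PowerSeries.coeff 1 a ≠ 0)
    (hb1 : PowerSeries.coeff 1 b ≠ 0) : PowerSeries.coeff 2 F ≠ 0 := by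
  have e1 : ∀ p q : PowerSeries K, PowerSeries.coeff 1 (p * q) =
      PowerSeries.coeff 0 p * PowerSeries.coeff 1 q + PowerSeries.coeff 1 p * PowerSeries.coeff 0 q := by
    intro p q
    rw [PowerSeries.coeff_mul, Finset.Nat.sum_antidiagonal_eq_sum_range_succ_mk]
    simp [Finset.sum_range_succ]
  have e2 : ∀ p q : PowerSeries K, PowerSeries.coeff 2 (p * q) =
      PowerSeries.coeff 0 p * PowerSeries.coeff 2 q + PowerSeries.coeff 1 p * PowerSeries.coeff 1 q +
        PowerSeries.coeff 2 p * PowerSeries.coeff 0 q := by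
    intro p q
    rw [PowerSeries.coeff_mul, Finset.Nat.sum_antidiagonal_eq_sum_range_succ_mk]
    simp [Finset.sum_range_succ]
  rw [← PowerSeries.coeff_zero_eq_constantCoeff_apply] at hu ha hb
  have e0 : ∀ p q : PowerSeries K, PowerSeries.coeff 0 (p * q) =
      PowerSeries.coeff 0 p * PowerSeries.coeff 0 q := by
    intro p q
    simp only [PowerSeries.coeff_zero_eq_constantCoeff_apply, map_mul]
  have h0 := congrArg (PowerSeries.coeff 0) h
  rw [map_add, e0, e0, e0, ha, hb] at h0
  have hF0 : PowerSeries.coeff 0 F = 0 := by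
    have h3 : PowerSeries.coeff 0 u * PowerSeries.coeff 0 F = 0 := by
      rw [h0]
      ring
    exact (mul_eq_zero.mp h3).resolve_left hu
  have h1 := congrArg (PowerSeries.coeff 1) h
  rw [map_add, e1, e1, e1, ha, hb, hF0] at h1
  have hF1 : PowerSeries.coeff 1 F = 0 := by
    have h3 : PowerSeries.coeff 0 u * PowerSeries.coeff 1 F = 0 := by
      linear_combination h1
    exact (mul_eq_zero.mp h3).resolve_left hu
  have h2 := congrArg (PowerSeries.coeff 2) h
  rw [map_add, e2, e2, e2, ha, hb, hF0, hF1] at h2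
  intro hF2
  rw [hF2] at h2
  have h4 : (2 : K) * (PowerSeries.coeff 1 a * PowerSeries.coeff 1 b) = 0 := by
    linear_combination (-1 : K) * h2
  rcases mul_eq_zero.mp h4 with h5 | h5
  · exact two_ne_zero h5
  · rcases mul_eq_zero.mp h5 with h6 | h6
    · exact ha1 h6
    · exact hb1 h6

end OrderTwo

open OrderTwo in
/-- PIECE [DGA].  Along the line `Y(t) = y + t e_j`, with `∂_j g'(y) ≠ 0`, the norm `N(g, g)`
vanishes to order exactly two.

Proof.  `exists_arc` (for `D.map (algebraMap k K)`, points `x, σ x` over `y`) gives an arc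
`(X(t), Y(t))` with `X(0) = c x`.  Apply `coeff_one_ne_zero` with `y₁ = y`, `y₂ = σ⁻¹ y`
(`E₁(c x) = c^{2m+2} σ⁻¹(β) (y ⊗ σ⁻¹ y + σ⁻¹ y ⊗ y)`): `g(X(t))` has order exactly one
(`g(c x) = c^r g(x) = 0`).  Let `w` be a vector over `K` with `w · x = 1`, `W` its image in `K⟦t⟧` and
`X' = S W X Y`, a second arc over `Y(t)` (`Symm.In_S`) with `X'(0) = c' σ x`, `c' ≠ 0`
(`Symm.key`).  Apply `coeff_one_ne_zero` with `y₁ = y`, `y₂ = σ y`: `g(X'(t))` has order exactly one
(`g(σ x) = σ (g(x)) = 0`).  By `N2_spec`, `(2 (W·X)^2)^r N(g,g)(Y) = 2 g(X) g(X')` and `W·X` is a unit. -/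
theorem order_two {D : Dat m k} (hD : D.Symm) {σ : K ≃ₐ[k] K} {x y : Vec m K} (hO : Orb D σ x y)
    {r r' : ℕ} {g g' : MvPolynomial (Fin (m + 2)) k}
    (hgh : g.IsHomogeneous r) (hgh' : g'.IsHomogeneous r')
    (hx : aeval x g = 0) (hy : aeval y g' = 0)
    (hdiv : ∀ h : MvPolynomial (Fin (m + 2)) k, h.IsHomogeneous r' → g ∣ D.swap.N2 r' g' h)
    {j : Fin (m + 2)} (hj : aeval y (pderiv j g') ≠ 0) :
    PowerSeries.coeff 2 (aeval (fun i => PowerSeries.C (y i) +
      PowerSeries.C ((Pi.single j 1 : Vec m K) i) * PowerSeries.X) (D.N2 r g g)) ≠ 0 := by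
  obtain ⟨α, hα, hE⟩ := hO.hE
  obtain ⟨β, hβ, hE'⟩ := hO.hE'
  have hin' := hO.in' hD
  obtain ⟨X, hXin, c, hc, hX0⟩ :=
    exists_arc (hD.map (algebraMap k K)) hO.hin hin' hα hE hO.indx (Pi.single j 1)
  rw [map_C_eq] at hXin
  set Y : Vec m (PowerSeries K) := fun i => PowerSeries.C (y i) +
      PowerSeries.C ((Pi.single j 1 : Vec m K) i) * PowerSeries.X with hY
  have hY0 : ∀ j, PowerSeries.constantCoeff (Y j) = y j := by
    intro l
    rw [hY]
    simp
  have hord : PowerSeries.coeff 1 (aeval Y g') ≠ 0 := by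
    rw [hY, coeff_one_aeval_line, Finset.sum_eq_single j]
    · rw [Pi.single_eq_same, one_mul]
      exact hj
    · intro i _ hi
      rw [Pi.single_eq_of_ne hi, zero_mul]
    · intro h
      exact absurd (Finset.mem_univ j) h
  -- the point `σ⁻¹ y`
  have hσ : ∀ D : Dat m k, (D.map (algebraMap k K)).map (σ.symm : K →+* K) = D.map (algebraMap k K) := by
    intro D
    unfold Dat.map
    congr 1
    · funext i j l
      exact σ.symm.commutes _
    · funext i j l p
      exact σ.symm.commutes _
  have hEs : ∀ i j, (D.swap.map (algebraMap k K)).E x i j =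
      σ.symm β * (y i * σ.symm (y j) + y j * σ.symm (y i)) := by
    intro i j
    have h1 := Dat.map_E (D.swap.map (algebraMap k K)) (σ.symm : K →+* K) (fun l => σ (x l)) i j
    rw [hσ, hE'] at h1
    have h2 : (fun j => (σ.symm : K →+* K) (σ (x j))) = x := by
      funext j
      exact σ.symm_apply_apply (x j)
    rw [h2] at h1
    rw [h1]
    have h3 : ∀ z, (σ.symm : K →+* K) z = σ.symm z := fun z => rfl
    rw [h3, map_mul, map_add, map_mul, map_mul, σ.symm_apply_apply, σ.symm_apply_apply]
    ring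
  have hscale : ∀ (c : K) (z : Vec m K) (i j : Fin (m + 2)), (D.swap.map (algebraMap k K)).E (fun l => c * z l) i j =
      c ^ (2 * m + 2) * (D.swap.map (algebraMap k K)).E z i j := by
    intro c z i j
    exact Dat.E_smul (D.swap.map (algebraMap k K)) c z i j
  have hg1 : aeval (fun l => c * x l) g = 0 := by
    rw [aeval_smul_homog hgh, hx, mul_zero]
  have ha1 : PowerSeries.coeff 1 (aeval X g) ≠ 0 := by
    refine coeff_one_ne_zero (x₁ := fun l => c * x l) (y₁ := y) (y₂ := fun l => σ.symm (y l))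
      (β := c ^ (2 * m + 2) * σ.symm β) hD hgh' hdiv hXin hX0 hY0 ?_ ?_ ?_ hy ?_ hord hg1
    · refine mul_ne_zero (pow_ne_zero _ hc) ?_
      intro h
      exact hβ (by simpa using h)
    · intro i j
      rw [hscale, hEs]
      ring
    · obtain ⟨i, j, hij⟩ := hO.indy
      refine ⟨j, i, ?_⟩
      intro h
      apply hij
      have h4 := congrArg σ h
      rw [map_mul, map_mul, σ.apply_symm_apply, σ.apply_symm_apply] at h4
      linear_combination h4
    · have h5 := MvPolynomial.comp_aeval_apply (f := y) (σ.symm : K →ₐ[k] K) g'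
      rw [hy, map_zero] at h5
      exact h5.symm
  -- the second arc
  have hx0 : ∃ i, x i ≠ 0 := by
    obtain ⟨i, j, hij⟩ := hO.indx
    by_contra hne
    push Not at hne
    apply hij
    rw [hne i, hne j, zero_mul, zero_mul]
  obtain ⟨i₀, hi₀⟩ := hx0
  set w : Vec m K := Pi.single i₀ (x i₀)⁻¹ with hw
  have hwx : w ⬝ᵥ x = 1 := by
    rw [hw, single_dotProduct, inv_mul_cancel₀ hi₀]
  set W : Vec m (PowerSeries K) := fun l => PowerSeries.C (w l) with hW
  set X' : Vec m (PowerSeries K) := (D.map (algebraMap k (PowerSeries K))).S W X Y with hX'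
  have hX'in : (D.map (algebraMap k (PowerSeries K))).In X' Y :=
    (hD.map (algebraMap k (PowerSeries K))).In_S hXin
  have hcx : (D.map (algebraMap k K)).In (fun l => c * x l) y := by
    have h1 := Dat.map_In (PowerSeries.constantCoeff : PowerSeries K →+* K) hXin
    rw [map_constantCoeff_eq] at h1
    have h2 : (fun j => PowerSeries.constantCoeff (X j)) = fun l => c * x l := funext hX0
    have h3 : (fun j => PowerSeries.constantCoeff (Y j)) = y := funext hY0
    rw [h2, h3] at h1
    exact h1
  have hwcx : w ⬝ᵥ (fun l => c * x l) = c := by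
    have h1 : (fun l => c * x l) = c • x := rfl
    rw [h1, dotProduct_smul, hwx, smul_eq_mul, mul_one]
  have hX'0 : ∀ j, PowerSeries.constantCoeff (X' j) = (2 * c * α) * σ (x j) := by
    intro j
    have h1 := Dat.map_S (D.map (algebraMap k (PowerSeries K)))
      (PowerSeries.constantCoeff : PowerSeries K →+* K) W X Y j
    rw [map_constantCoeff_eq] at h1
    have h2 : (fun j => PowerSeries.constantCoeff (X j)) = fun l => c * x l := funext hX0
    have h3 : (fun j => PowerSeries.constantCoeff (Y j)) = y := funext hY0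
    have h4 : (fun j => PowerSeries.constantCoeff (W j)) = w := by
      funext l
      rw [hW]
      simp
    rw [h2, h3, h4] at h1
    rw [hX', ← h1]
    rw [second_point (hD.map (algebraMap k K)) (α := α * c⁻¹) (x' := fun l => σ (x l)) hcx]
    · rw [hwcx]
      field_simp
    · intro i j
      rw [hE]
      field_simp
    · exact ⟨i₀, mul_ne_zero hc hi₀⟩
  have hc' : 2 * c * α ≠ 0 := mul_ne_zero (mul_ne_zero two_ne_zero hc) hα
  have hgσ : aeval (fun l => σ (x l)) g = 0 := by
    have h5 := MvPolynomial.comp_aeval_apply (f := x) (σ : K →ₐ[k] K) g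
    rw [hx, map_zero] at h5
    exact h5.symm
  have hg2 : aeval (fun l => (2 * c * α) * σ (x l)) g = 0 := by
    rw [aeval_smul_homog hgh (2 * c * α) (fun l => σ (x l)), hgσ, mul_zero]
  have hb1 : PowerSeries.coeff 1 (aeval X' g) ≠ 0 := by
    refine coeff_one_ne_zero (x₁ := fun l => (2 * c * α) * σ (x l)) (y₁ := y) (y₂ := fun l => σ (y l))
      (β := (2 * c * α) ^ (2 * m + 2) * β) hD hgh' hdiv hX'in hX'0 hY0 ?_ ?_ hO.indy hy ?_ hord hg2
    · exact mul_ne_zero (pow_ne_zero _ hc') hβ
    · intro i j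
      rw [hscale (2 * c * α) (fun l => σ (x l)), hE']
      ring
    · have h5 := MvPolynomial.comp_aeval_apply (f := y) (σ : K →ₐ[k] K) g'
      rw [hy, map_zero] at h5
      exact h5.symm
  -- the norm
  have h2 : IsUnit (2 : k) := isUnit_iff_ne_zero.mpr two_ne_zero
  have hN := Dat.N2_spec hD h2 hgh hgh (R := PowerSeries K) W X Y hXin
  refine coeff_two_ne_zero hN ?_ ?_ ?_ ha1 hb1
  · rw [map_pow, map_mul, map_pow]
    have h3 : PowerSeries.constantCoeff (W ⬝ᵥ X) = c := by
      rw [← hwcx]
      unfold dotProduct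
      rw [map_sum]
      refine Finset.sum_congr rfl fun l _ => ?_
      rw [map_mul, hX0, hW]
      simp
    rw [h3, map_ofNat]
    exact pow_ne_zero _ (mul_ne_zero two_ne_zero (pow_ne_zero _ hc))
  · rw [constantCoeff_aeval]
    have h2 : (fun j => PowerSeries.constantCoeff (X j)) = fun l => c * x l := funext hX0
    rw [h2, hg1]
  · rw [constantCoeff_aeval]
    have h2 : (fun j => PowerSeries.constantCoeff (X' j)) = fun l => (2 * c * α) * σ (x l) := funext hX'0
    rw [← hX', h2, hg2]

end Pool.Agent.MP_1209e6_cy
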