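import Pool.Agent.Lib_MP_1209e6_cy.Nullst
import Pool.Agent.Lib_MP_1209e6_cy.OrderTwo
import Pool.Agent.Lib_MP_1209e6_cy.DvNorm

/-!
PIECE [DGB] (MP_1209e6_ag).  The degrees of the relations of `x` and of `y`.
-/

open Matrix MvPolynomial

namespace Pool.Agent.MP_1209e6_cy

variable {m : ℕ} {k K : Type*} [Field k] [CharZero k] [Field K] [CharZero K] [Algebra k K]

theorem dgb_one_le {N : ℕ} {r : ℕ} {g : MvPolynomial (Fin N) k} (hg : Irreducible g)
    (hgh : g.IsHomogeneous r) : 1 ≤ r := by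
  rcases Nat.eq_zero_or_pos r with h0 | h0
  · exfalso
    subst h0
    have h1 : g.totalDegree = 0 := (totalDegree_zero_iff_isHomogeneous _).2 hgh
    have h2 := (totalDegree_eq_zero_iff_eq_C).1 h1
    have h3 : coeff 0 g ≠ 0 := by
      intro h4
      rw [h4, C_0] at h2
      exact hg.ne_zero h2
    apply hg.not_isUnit
    rw [h2]
    exact (IsUnit.mk0 _ h3).map C
  · exact h0

/-- PIECE [DGB].  The degrees.

Proof.  `r' ≥ 1` (`g'` is irreducible, so not a constant).  By `exists_pderiv_ne_zero` and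
`not_dvd_of_degree_lt` there is `j` with `∂_j g'(y) ≠ 0`.  By `order_two` the norm `N = N(g, g)` is not
zero.  By `prime_factor` all its prime factors are associated to `g'`, so `N = u g'^v` with a
constant `u ≠ 0` (unique factorisation).  Along `Y(t) = y + t e_j`, `g'(Y(t)) = t ∂_j g'(y) + O(t^2)`
(`coeff_one_aeval_line`, `constantCoeff_aeval`), so `N(Y(t))` has order exactly `v`; the coefficient of
`t^2` is nonzero by `order_two`, so `v ≤ 2`.  Comparing degrees: `(2 m + 2) r = v r' ≤ 2 r'`. -/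
theorem degree_le {Ω : Type*} [Field Ω] [IsAlgClosed Ω] [Algebra k Ω] {D : Dat m k}
    (hD : D.Symm) (hS : SmallE (D.map (algebraMap k Ω))) {σ : K ≃ₐ[k] K} {x y : Vec m K}
    (hO : Orb D σ x y) {r r' : ℕ} {g g' : MvPolynomial (Fin (m + 2)) k}
    (hg : Irreducible g) (hg' : Irreducible g')
    (hgh : g.IsHomogeneous r) (hgh' : g'.IsHomogeneous r')
    (Ig : ∀ (d : ℕ) (p : MvPolynomial (Fin (m + 2)) k), p.IsHomogeneous d →
      (aeval x p = 0 ↔ g ∣ p))
    (Ig' : ∀ (d : ℕ) (p : MvPolynomial (Fin (m + 2)) k), p.IsHomogeneous d →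
      (aeval y p = 0 ↔ g' ∣ p)) :
    (2 * m + 2) * r ≤ 2 * r' := by
  have hr' : 1 ≤ r' := dgb_one_le hg' hgh'
  obtain ⟨j, hj0, hjh⟩ := exists_pderiv_ne_zero hgh' hr' hg'.ne_zero
  have hj : aeval y (pderiv j g') ≠ 0 := by
    rw [Ne, Ig' (r' - 1) _ hjh]
    exact not_dvd_of_degree_lt hgh' hjh hj0 (by omega)
  have hx : aeval x g = 0 := (Ig r g hgh).2 dvd_rfl
  have hy : aeval y g' = 0 := (Ig' r' g' hgh').2 dvd_rfl
  have hdiv : ∀ h : MvPolynomial (Fin (m + 2)) k, h.IsHomogeneous r' →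
      g ∣ D.swap.N2 r' g' h := fun h hh => dvd_norm hD hO hgh' Ig hy h hh
  have h2 := order_two hD hO hgh hgh' hx hy hdiv hj
  have hN0 : D.N2 r g g ≠ 0 := by
    intro h0
    apply h2
    rw [h0, map_zero, map_zero]
  have hfin : FiniteMultiplicity g' (D.N2 r g g) :=
    FiniteMultiplicity.of_not_isUnit hg'.not_isUnit hN0
  obtain ⟨c, hc, hcn⟩ := hfin.exists_eq_pow_mul_and_not_dvd
  set v := multiplicity g' (D.N2 r g g) with hv
  have hcu : IsUnit c := by
    by_contra hcu
    have hc0 : c ≠ 0 := by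
      intro h0
      apply hN0
      rw [hc, h0, mul_zero]
    obtain ⟨p, hp, hpc⟩ := WfDvdMonoid.exists_irreducible_factor hcu hc0
    have hpd : p ∣ D.N2 r g g := by
      rw [hc]
      exact dvd_mul_of_dvd_right hpc _
    have has := prime_factor hD hS hgh hgh' hr' hg' hdiv hp hpd
    exact hcn (has.symm.dvd.trans hpc)
  have hv2 : v ≤ 2 := by
    by_contra hlt
    apply h2
    have hX : (PowerSeries.X : PowerSeries K) ∣ aeval (fun i => PowerSeries.C (y i) +
        PowerSeries.C ((Pi.single j 1 : Vec m K) i) * PowerSeries.X) g' := by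
      rw [PowerSeries.X_dvd_iff, constantCoeff_aeval]
      have e : (fun i => PowerSeries.constantCoeff (PowerSeries.C (y i) +
          PowerSeries.C ((Pi.single j 1 : Vec m K) i) * PowerSeries.X)) = y := by
        funext i
        simp
      rw [e, hy]
    have hX3 : (PowerSeries.X : PowerSeries K) ^ 3 ∣ aeval (fun i => PowerSeries.C (y i) +
        PowerSeries.C ((Pi.single j 1 : Vec m K) i) * PowerSeries.X) (D.N2 r g g) := by
      rw [hc, map_mul, map_pow]
      exact dvd_mul_of_dvd_left ((pow_dvd_pow _ (by omega)).trans (pow_dvd_pow_of_dvd hX v)) _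
    exact (PowerSeries.X_pow_dvd_iff.1 hX3) 2 (by norm_num)
  obtain ⟨u, hu⟩ : ∃ u : k, c = C u := by
    have h5 := (MvPolynomial.isUnit_iff_eq_C_of_isReduced).1 hcu
    obtain ⟨u, _, hu⟩ := h5
    exact ⟨u, hu⟩
  have hN1 : (D.N2 r g g).IsHomogeneous (r' * v + 0) := by
    rw [hc, hu]
    exact (hgh'.pow v).mul (isHomogeneous_C _ u)
  have hdeg := (D.N2_homog r g g).inj_right hN1 hN0
  have h6 : r' * v ≤ r' * 2 := Nat.mul_le_mul_left _ hv2
  omega

/-- a form which is irreducible has positive degree -/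
theorem one_le_degree {N : ℕ} {r : ℕ} {g : MvPolynomial (Fin N) k} (hg : Irreducible g)
    (hgh : g.IsHomogeneous r) : 1 ≤ r := by
  exact dgb_one_le hg hgh

/-- The relations cannot both be principal. -/
theorem not_principal {Ω : Type*} [Field Ω] [IsAlgClosed Ω] [Algebra k Ω] {D : Dat m k}
    (hm : 1 ≤ m) (hD : D.Symm) (hS : SmallE (D.map (algebraMap k Ω)))
    (hS' : SmallE (D.swap.map (algebraMap k Ω))) {σ : K ≃ₐ[k] K} {x y : Vec m K}
    (hO : Orb D σ x y) {r r' : ℕ} {g g' : MvPolynomial (Fin (m + 2)) k}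
    (hg : Irreducible g) (hg' : Irreducible g')
    (hgh : g.IsHomogeneous r) (hgh' : g'.IsHomogeneous r')
    (Ig : ∀ (d : ℕ) (p : MvPolynomial (Fin (m + 2)) k), p.IsHomogeneous d →
      (aeval x p = 0 ↔ g ∣ p))
    (Ig' : ∀ (d : ℕ) (p : MvPolynomial (Fin (m + 2)) k), p.IsHomogeneous d →
      (aeval y p = 0 ↔ g' ∣ p)) : False := by
  have h1 := degree_le hD hS hO hg hg' hgh hgh' Ig Ig'
  have Ig2 : ∀ (d : ℕ) (p : MvPolynomial (Fin (m + 2)) k), p.IsHomogeneous d →
      (aeval (fun l => σ (x l)) p = 0 ↔ g ∣ p) := by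
    intro d p hp
    rw [← Ig d p hp]
    have e : aeval (fun l => σ (x l)) p = σ (aeval x p) := by
      have := (σ : K →ₐ[k] K).comp_apply (aeval x) p
      rw [comp_aeval] at this
      exact this
    rw [e]
    exact map_eq_zero_iff σ σ.injective
  have h2 := degree_le (Ω := Ω) hD.swap hS' (hO.swap hD) hg' hg hgh' hgh Ig' Ig2
  have h3 := one_le_degree hg hgh
  nlinarith

end Pool.Agent.MP_1209e6_cy
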