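import Pool.Agent.Lib_MP_1209e6_cy.Defs

/-!
PIECE [NF] (MP_1209e6_ag).  The norm form of a pair of forms.
-/

open MvPolynomial

namespace Pool.Agent.MP_1209e6_cy

variable {k : Type*} [CommRing k] {τ : Type*}

/-- For forms `g, h` of degree `r` (over a ring in which 2 is invertible) the symmetric expression
`g(x) h(x') + g(x') h(x)` is a form of degree `r` in the quantities
`E_ij = x_i x'_j + x_j x'_i`.

Proof.  By bilinearity it is enough to treat monomials `g, h`, written as products over lists
`I = (i_1..i_r)`, `J = (j_1..j_r)` of variables.  Put `D_ij = x_i x'_j - x_j x'_i`, so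
`x_i x'_j = (E_ij + D_ij) / 2`, `x'_i x_j = (E_ij - D_ij) / 2` and
`D_ij D_kl = E_il E_jk - E_ik E_jl` (check).  Let `S = prod x_{i_a} x'_{j_a}` and let `S'` be `S`
with `x` and `x'` exchanged.  Claim, by induction on `r`: `S + S' = P(E)` with `P` homogeneous of
degree `r`, and for all `k, l`, `(S - S') D_kl = P_kl(E)` with `P_kl` homogeneous of degree
`r + 1`.  Step (adding the pair `i, j`): `S_new = S (E_ij + D_ij)/2`, `S'_new = S' (E_ij - D_ij)/2`,
so `S_new + S'_new = ((S + S') E_ij + (S - S') D_ij) / 2` and
`(S_new - S'_new) D_kl = ((S - S') D_kl E_ij + (S + S') D_ij D_kl) / 2`. -/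
theorem exists_nf (h2 : IsUnit (2 : k)) (r : ℕ) (g h : MvPolynomial τ k)
    (hg : g.IsHomogeneous r) (hh : h.IsHomogeneous r) :
    ∃ P : MvPolynomial (τ × τ) k, P.IsHomogeneous r ∧
      aeval (fun p : τ × τ => (X (Sum.inl p.1) * X (Sum.inr p.2) + X (Sum.inl p.2) * X (Sum.inr p.1) :
        MvPolynomial (τ ⊕ τ) k)) P =
        rename Sum.inl g * rename Sum.inr h + rename Sum.inr g * rename Sum.inl h := by
  classical
  obtain ⟨u, hu⟩ := h2
  -- the half
  have hhalf : (C (2 : k) : MvPolynomial (τ ⊕ τ) k) * C (↑u⁻¹ : k) = 1 := by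
    rw [← C_mul, ← hu, Units.mul_inv, C_1]
  have hhalf2 : (2 : MvPolynomial (τ ⊕ τ) k) * C (↑u⁻¹ : k) = 1 := by
    rw [← hhalf]; congr 1
  set E : τ × τ → MvPolynomial (τ ⊕ τ) k := fun p =>
    X (Sum.inl p.1) * X (Sum.inr p.2) + X (Sum.inl p.2) * X (Sum.inr p.1) with hE
  have key : ∀ (n : ℕ) (s t : τ →₀ ℕ), s.degree = n → t.degree = n →
      (∃ P : MvPolynomial (τ × τ) k, P.IsHomogeneous n ∧
        aeval E P = rename Sum.inl (monomial s (1 : k)) * rename Sum.inr (monomial t (1 : k)) +
          rename Sum.inr (monomial s (1 : k)) * rename Sum.inl (monomial t (1 : k))) ∧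
      ∀ a b : τ, ∃ P : MvPolynomial (τ × τ) k, P.IsHomogeneous (n + 1) ∧
        aeval E P = (rename Sum.inl (monomial s (1 : k)) * rename Sum.inr (monomial t (1 : k)) -
          rename Sum.inr (monomial s (1 : k)) * rename Sum.inl (monomial t (1 : k))) *
          (X (Sum.inl a) * X (Sum.inr b) - X (Sum.inl b) * X (Sum.inr a)) := by
    intro n
    induction n with
    | zero =>
      intro s t hs ht
      rw [Finsupp.degree_eq_zero_iff] at hs ht
      subst hs; subst ht
      refine ⟨⟨C 2, isHomogeneous_C _ _, ?_⟩, fun a b => ⟨0, isHomogeneous_zero _ _ _, ?_⟩⟩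
      · have h1 : (monomial (0 : τ →₀ ℕ) (1 : k)) = 1 := rfl
        rw [h1]
        simp only [map_one, mul_one]
        rw [aeval_C]
        simp only [map_ofNat]
        norm_num
      · have h1 : (monomial (0 : τ →₀ ℕ) (1 : k)) = 1 := rfl
        rw [h1]
        simp
    | succ n ih =>
      intro s t hs ht
      have pick : ∀ s : τ →₀ ℕ, s.degree = n + 1 → ∃ (s' : τ →₀ ℕ) (i : τ), s'.degree = n ∧
          monomial s (1 : k) = monomial s' (1 : k) * X i := by
        intro s hs
        have hne : s ≠ 0 := by
          rintro rfl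
          simp at hs
        obtain ⟨i, hi⟩ := Finsupp.ne_iff.1 hne
        have hle : Finsupp.single i 1 ≤ s := by
          rw [Finsupp.single_le_iff]
          have : s i ≠ 0 := hi
          omega
        have hs' : (s - Finsupp.single i 1) + Finsupp.single i 1 = s := tsub_add_cancel_of_le hle
        refine ⟨s - Finsupp.single i 1, i, ?_, ?_⟩
        · have := congrArg Finsupp.degree hs'
          rw [map_add, Finsupp.degree_single] at this
          omega
        · rw [X, monomial_mul, hs', mul_one]
      obtain ⟨s', i, hs', es⟩ := pick s hs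
      obtain ⟨t', j, ht', et⟩ := pick t ht
      obtain ⟨⟨P, hP, eP⟩, hD⟩ := ih s' t' hs' ht'
      rw [es, et]
      simp only [map_mul, rename_X]
      refine ⟨?_, fun a b => ?_⟩
      · obtain ⟨Q, hQ, eQ⟩ := hD i j
        refine ⟨C (↑u⁻¹ : k) * (P * X (i, j) + Q), ?_, ?_⟩
        · have h1 : (P * X (i, j) + Q).IsHomogeneous (n + 1) :=
            (hP.mul (isHomogeneous_X k (i, j))).add hQ
          have h2 := (isHomogeneous_C (τ × τ) (↑u⁻¹ : k)).mul h1
          rwa [zero_add] at h2
        · rw [map_mul, map_add, map_mul, aeval_X, eP, eQ, aeval_C, hE]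
          rw [MvPolynomial.algebraMap_eq]
          linear_combination
            (rename Sum.inl (monomial s' (1 : k)) * rename Sum.inr (monomial t' (1 : k)) *
                X (Sum.inl i) * X (Sum.inr j) +
              rename Sum.inr (monomial s' (1 : k)) * rename Sum.inl (monomial t' (1 : k)) *
                X (Sum.inl j) * X (Sum.inr i)) * hhalf2
      · obtain ⟨Q, hQ, eQ⟩ := hD a b
        refine ⟨C (↑u⁻¹ : k) * (Q * X (i, j) +
          P * (X (i, b) * X (j, a) - X (i, a) * X (j, b))), ?_, ?_⟩
        · have h0 : (X (i, b) * X (j, a) - X (i, a) * X (j, b) :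
              MvPolynomial (τ × τ) k).IsHomogeneous (1 + 1) :=
            ((isHomogeneous_X k (i, b)).mul (isHomogeneous_X k (j, a))).sub
              ((isHomogeneous_X k (i, a)).mul (isHomogeneous_X k (j, b)))
          have h1 : (Q * X (i, j) + P * (X (i, b) * X (j, a) -
              X (i, a) * X (j, b))).IsHomogeneous (n + 1 + 1) :=
            (hQ.mul (isHomogeneous_X k (i, j))).add (hP.mul h0)
          have h2 := (isHomogeneous_C (τ × τ) (↑u⁻¹ : k)).mul h1
          rwa [zero_add] at h2
        · rw [map_mul, map_add, map_mul, map_mul, map_sub, map_mul, map_mul, aeval_X, aeval_X,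
            aeval_X, aeval_X, aeval_X, eP, eQ, aeval_C, hE]
          rw [MvPolynomial.algebraMap_eq]
          linear_combination
            ((rename Sum.inl (monomial s' (1 : k)) * rename Sum.inr (monomial t' (1 : k)) *
                X (Sum.inl i) * X (Sum.inr j) -
              rename Sum.inr (monomial s' (1 : k)) * rename Sum.inl (monomial t' (1 : k)) *
                X (Sum.inl j) * X (Sum.inr i)) *
              (X (Sum.inl a) * X (Sum.inr b) - X (Sum.inl b) * X (Sum.inr a))) * hhalf2
  -- bilinearity
  let W : Submodule k (MvPolynomial (τ ⊕ τ) k) :=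
    (homogeneousSubmodule (τ × τ) k r).map (aeval E).toLinearMap
  have hmem : rename Sum.inl g * rename Sum.inr h + rename Sum.inr g * rename Sum.inl h ∈ W := by
    have e1 : rename Sum.inl g * rename Sum.inr h + rename Sum.inr g * rename Sum.inl h =
        ∑ s ∈ g.support, ∑ t ∈ h.support, (coeff s g * coeff t h) •
          (rename Sum.inl (monomial s (1 : k)) * rename Sum.inr (monomial t (1 : k)) +
          rename Sum.inr (monomial s (1 : k)) * rename Sum.inl (monomial t (1 : k)) :
            MvPolynomial (τ ⊕ τ) k) := by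
      have hgg : ∀ f : τ → τ ⊕ τ, rename f g =
          ∑ s ∈ g.support, coeff s g • rename f (monomial s (1 : k)) := by
        intro f
        conv_lhs => rw [g.as_sum]
        rw [map_sum]
        refine Finset.sum_congr rfl fun s _ => ?_
        rw [← map_smul, smul_monomial, smul_eq_mul, mul_one]
      have hhh : ∀ f : τ → τ ⊕ τ, rename f h =
          ∑ s ∈ h.support, coeff s h • rename f (monomial s (1 : k)) := by
        intro f
        conv_lhs => rw [h.as_sum]
        rw [map_sum]
        refine Finset.sum_congr rfl fun s _ => ?_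
        rw [← map_smul, smul_monomial, smul_eq_mul, mul_one]
      rw [hgg Sum.inl, hgg Sum.inr, hhh Sum.inl, hhh Sum.inr, Finset.sum_mul_sum,
        Finset.sum_mul_sum, ← Finset.sum_add_distrib]
      refine Finset.sum_congr rfl fun s _ => ?_
      rw [← Finset.sum_add_distrib]
      refine Finset.sum_congr rfl fun t _ => ?_
      rw [smul_mul_smul_comm, smul_mul_smul_comm, smul_add]
    rw [e1]
    refine Submodule.sum_mem _ fun s hs => Submodule.sum_mem _ fun t ht =>
      Submodule.smul_mem _ _ ?_
    have hs' : s.degree = r := by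
      have := hg (mem_support_iff.1 hs)
      rw [Finsupp.degree_eq_weight_one]
      exact this
    have ht' : t.degree = r := by
      have := hh (mem_support_iff.1 ht)
      rw [Finsupp.degree_eq_weight_one]
      exact this
    obtain ⟨⟨P, hP, eP⟩, -⟩ := key r s t hs' ht'
    exact ⟨P, (mem_homogeneousSubmodule _ _).2 hP, eP⟩
  obtain ⟨P, hP, eP⟩ := hmem
  exact ⟨P, (mem_homogeneousSubmodule _ _).1 hP, eP⟩

open Classical in
/-- a choice of the norm form -/
noncomputable def nf (r : ℕ) (g h : MvPolynomial τ k) : MvPolynomial (τ × τ) k :=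
  if H : ∃ P : MvPolynomial (τ × τ) k, P.IsHomogeneous r ∧
      aeval (fun p : τ × τ => (X (Sum.inl p.1) * X (Sum.inr p.2) + X (Sum.inl p.2) * X (Sum.inr p.1) :
        MvPolynomial (τ ⊕ τ) k)) P =
        rename Sum.inl g * rename Sum.inr h + rename Sum.inr g * rename Sum.inl h
  then H.choose else 0

theorem nf_homog (r : ℕ) (g h : MvPolynomial τ k) : (nf r g h).IsHomogeneous r := by
  unfold nf
  split_ifs with H
  · exact H.choose_spec.1
  · exact isHomogeneous_zero _ _ _

/-- Evaluate the identity of `exists_nf` at `Sum.elim x x'`. -/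
theorem nf_spec (h2 : IsUnit (2 : k)) {r : ℕ} {g h : MvPolynomial τ k}
    (hg : g.IsHomogeneous r) (hh : h.IsHomogeneous r) {R : Type*} [CommRing R] [Algebra k R]
    (x x' : τ → R) :
    aeval (fun p : τ × τ => x p.1 * x' p.2 + x p.2 * x' p.1) (nf r g h) =
      aeval x g * aeval x' h + aeval x' g * aeval x h := by
  have H := exists_nf h2 r g h hg hh
  have hs : aeval (fun p : τ × τ => (X (Sum.inl p.1) * X (Sum.inr p.2) +
      X (Sum.inl p.2) * X (Sum.inr p.1) : MvPolynomial (τ ⊕ τ) k)) (nf r g h) =
        rename Sum.inl g * rename Sum.inr h + rename Sum.inr g * rename Sum.inl h := by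
    unfold nf
    rw [dif_pos H]
    exact H.choose_spec.2
  have h3 := congrArg (aeval (Sum.elim x x')) hs
  rw [← AlgHom.comp_apply, comp_aeval] at h3
  simp only [map_add, map_mul, aeval_X, Sum.elim_inl, Sum.elim_inr, aeval_rename] at h3
  have e1 : (Sum.elim x x') ∘ Sum.inl = x := rfl
  have e2 : (Sum.elim x x') ∘ Sum.inr = x' := rfl
  rw [e1, e2] at h3
  exact h3

end Pool.Agent.MP_1209e6_cy
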