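import Pool.Agent.Lib_MP_1209e6_cy.Ident
import Pool.Agent.Lib_MP_1209e6_cy.NormForm

/-!
PIECE [EP] (MP_1209e6_ag).  The matrix `E` as a matrix of polynomials; norms of forms.
-/

open Matrix MvPolynomial

namespace Pool.Agent.MP_1209e6_cy

namespace Dat

variable {m : ℕ} {k : Type*} [CommRing k]

/-- the entries of `E(y)` as polynomials in `y` -/
noncomputable def EP (D : Dat m k) (i j : Fin (m + 2)) : MvPolynomial (Fin (m + 2)) k :=
  (D.map (C : k →+* MvPolynomial (Fin (m + 2)) k)).E (fun l => X l) i j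

private theorem ep_const {σ : Type*} (i k' : Fin (m + 2)) :
    ((Pi.single i 1 : Vec m (MvPolynomial σ k)) k').IsHomogeneous 0 := by
  by_cases h : k' = i
  · subst h
    rw [Pi.single_eq_same]
    exact isHomogeneous_one _ _
  · rw [Pi.single_eq_of_ne h]
    exact isHomogeneous_zero _ _ _

private theorem ep_plu {σ : Type*} (r : Fin m → Vec m (MvPolynomial σ k))
    (hr : ∀ i j, (r i j).IsHomogeneous 1) (a b : Fin (m + 2)) :
    (plu r (Pi.single a 1) (Pi.single b 1)).IsHomogeneous m := by
  obtain ⟨d, hd⟩ : ∃ d : Fin (m + 2) → ℕ, d = vecCons 0 (vecCons 0 (fun _ : Fin m => 1)) :=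
    ⟨_, rfl⟩
  have hsum : ∑ i, d i = m := by
    rw [hd, Fin.sum_univ_succ, Fin.sum_univ_succ]
    simp
  have hent : ∀ i j, ((Matrix.of (vecCons (Pi.single a 1) (vecCons (Pi.single b 1) r) :
      Fin (m + 2) → Vec m (MvPolynomial σ k))) i j).IsHomogeneous (d i) := by
    intro i j
    rw [hd]
    refine Fin.cases ?_ (fun i => ?_) i
    · exact ep_const a j
    · refine Fin.cases ?_ (fun i => ?_) i
      · exact ep_const b j
      · exact hr i j
  unfold plu
  rw [Matrix.det_apply]
  refine IsHomogeneous.sum _ _ _ fun s _ => ?_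
  have h1 : (∏ i, (Matrix.of (vecCons (Pi.single a 1) (vecCons (Pi.single b 1) r) :
      Fin (m + 2) → Vec m (MvPolynomial σ k))) (s i) i).IsHomogeneous m := by
    have h2 := IsHomogeneous.prod Finset.univ (fun i => (Matrix.of (vecCons (Pi.single a 1)
      (vecCons (Pi.single b 1) r) : Fin (m + 2) → Vec m (MvPolynomial σ k))) (s i) i)
      (fun i => d (s i)) (fun i _ => hent (s i) i)
    rw [Equiv.sum_comp s d, hsum] at h2
    exact h2
  rcases Int.units_eq_one_or (Equiv.Perm.sign s) with h3 | h3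
  · rw [h3, one_smul]
    exact h1
  · rw [h3, Units.neg_smul, one_smul]
    exact h1.neg

/-- `det` is a signed sum of products of one entry from each row; two rows are constant, `m` rows
are linear forms; the entries of `Q` are quadratic: the degree is `2 m + 2`. -/
theorem EP_homog (D : Dat m k) (i j : Fin (m + 2)) : (D.EP i j).IsHomogeneous (2 * m + 2) := by
  unfold EP E
  refine IsHomogeneous.sum _ _ _ fun a _ => IsHomogeneous.sum _ _ _ fun b _ => ?_
  have hr : ∀ i j, ((D.map (C : k →+* MvPolynomial (Fin (m + 2)) k)).row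
      (fun l => X l) i j).IsHomogeneous 1 := by
    intro i j
    unfold row
    refine IsHomogeneous.sum _ _ _ fun l _ => ?_
    exact (isHomogeneous_C _ _).mul (isHomogeneous_X _ _)
  have hQ : ((D.map (C : k →+* MvPolynomial (Fin (m + 2)) k)).Q
      (fun l => X l) a b).IsHomogeneous 2 := by
    unfold Q
    refine IsHomogeneous.sum _ _ _ fun l _ => IsHomogeneous.sum _ _ _ fun p _ => ?_
    exact ((isHomogeneous_C _ _).mul (isHomogeneous_X _ _)).mul (isHomogeneous_X _ _)
  have h1 := ((ep_plu _ hr i a).mul hQ).mul (ep_plu _ hr j b)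
  have e : m + 2 + m = 2 * m + 2 := by omega
  rw [e] at h1
  exact h1

/-- homogeneous polynomials and scaling -/
private theorem ep_scale {σ : Type*} {P : MvPolynomial σ k} {r : ℕ} (hP : P.IsHomogeneous r)
    {R : Type*} [CommRing R] [Algebra k R] (β : R) (f : σ → R) :
    aeval (fun p => β * f p) P = β ^ r * aeval f P := by
  rw [aeval_def, aeval_def, eval₂_eq, eval₂_eq, Finset.mul_sum]
  refine Finset.sum_congr rfl fun d hd => ?_
  have h1 : ∑ i ∈ d.support, d i = r := by
    have h2 := hP (mem_support_iff.1 hd)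
    rw [Finsupp.weight_apply, Finsupp.sum] at h2
    simpa using h2
  simp only [mul_pow]
  rw [Finset.prod_mul_distrib, Finset.prod_pow_eq_pow_sum, h1]
  ring

theorem aeval_EP (D : Dat m k) {R : Type*} [CommRing R] [Algebra k R] (y : Vec m R)
    (i j : Fin (m + 2)) : aeval y (D.EP i j) = (D.map (algebraMap k R)).E y i j := by
  unfold EP
  have h := map_E (D.map (C : k →+* MvPolynomial (Fin (m + 2)) k))
    ((aeval y : MvPolynomial (Fin (m + 2)) k →ₐ[k] R) : MvPolynomial (Fin (m + 2)) k →+* R)
    (fun l => X l) i j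
  have e1 : ((D.map (C : k →+* MvPolynomial (Fin (m + 2)) k)).map
      ((aeval y : MvPolynomial (Fin (m + 2)) k →ₐ[k] R) : MvPolynomial (Fin (m + 2)) k →+* R)) =
      D.map (algebraMap k R) := by
    unfold map
    congr 1
    · funext i j l
      simp
    · funext i j l p
      simp
  rw [e1] at h
  simp only [RingHom.coe_coe, aeval_X] at h
  exact h.symm

/-- scaling of `E` -/
theorem E_smul (D : Dat m k) (c : k) (y : Vec m k) (i j : Fin (m + 2)) :
    D.E (c • y) i j = c ^ (2 * m + 2) * D.E y i j := by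
  have h1 : D.map (algebraMap k k) = D := rfl
  have h2 : ∀ z : Vec m k, D.E z i j = aeval z (D.EP i j) := fun z => by
    rw [aeval_EP, h1]
  rw [h2, h2]
  exact ep_scale (D.EP_homog i j) c y

/-- the (polarised) norm of the forms `g, h` in `x`: a form in `y` -/
noncomputable def N2 (D : Dat m k) (r : ℕ) (g h : MvPolynomial (Fin (m + 2)) k) :
    MvPolynomial (Fin (m + 2)) k :=
  aeval (fun p : Fin (m + 2) × Fin (m + 2) => D.EP p.1 p.2) (nf r g h)

theorem N2_homog (D : Dat m k) (r : ℕ) (g h : MvPolynomial (Fin (m + 2)) k) :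
    (D.N2 r g h).IsHomogeneous ((2 * m + 2) * r) := by
  unfold N2
  exact (nf_homog r g h).aeval _ (fun p => D.EP_homog p.1 p.2)

private theorem ep_N2 (D : Dat m k) {r : ℕ} {g h : MvPolynomial (Fin (m + 2)) k}
    {R : Type*} [CommRing R] [Algebra k R] (y : Vec m R) :
    aeval y (D.N2 r g h) =
      aeval (fun p : Fin (m + 2) × Fin (m + 2) => (D.map (algebraMap k R)).E y p.1 p.2)
        (nf r g h) := by
  unfold N2
  rw [← AlgHom.comp_apply, comp_aeval]
  simp only [aeval_EP]

/-- If `E(y) = β (x ⊗ x' + x' ⊗ x)` then `N2 g h (y) = β^r (g(x) h(x') + g(x') h(x))`. -/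
theorem N2_eq (D : Dat m k) (h2 : IsUnit (2 : k)) {r : ℕ} {g h : MvPolynomial (Fin (m + 2)) k}
    (hg : g.IsHomogeneous r) (hh : h.IsHomogeneous r) {R : Type*} [CommRing R] [Algebra k R]
    (x x' y : Vec m R) (β : R)
    (hE : ∀ i j, (D.map (algebraMap k R)).E y i j = β * (x i * x' j + x j * x' i)) :
    aeval y (D.N2 r g h) = β ^ r * (aeval x g * aeval x' h + aeval x' g * aeval x h) := by
  rw [ep_N2, ← nf_spec h2 hg hh x x', ← ep_scale (nf_homog r g h)]
  simp only [hE]

/-- The version for points of `X` over an arbitrary `k`-algebra. -/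
theorem N2_spec {D : Dat m k} (hD : D.Symm) (h2 : IsUnit (2 : k)) {r : ℕ}
    {g h : MvPolynomial (Fin (m + 2)) k} (hg : g.IsHomogeneous r) (hh : h.IsHomogeneous r)
    {R : Type*} [CommRing R] [Algebra k R] (w x y : Vec m R)
    (hin : (D.map (algebraMap k R)).In x y) :
    (2 * (w ⬝ᵥ x) ^ 2) ^ r * aeval y (D.N2 r g h) =
      aeval x g * aeval ((D.map (algebraMap k R)).S w x y) h +
        aeval ((D.map (algebraMap k R)).S w x y) g * aeval x h := by
  have hs : (D.map (algebraMap k R)).Symm :=
    ⟨fun a b c d => congrArg (algebraMap k R) (hD.left a b c d),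
      fun a b c d => congrArg (algebraMap k R) (hD.right a b c d)⟩
  rw [ep_N2, ← nf_spec h2 hg hh x ((D.map (algebraMap k R)).S w x y),
    ← ep_scale (nf_homog r g h)]
  simp only [hs.key hin w]

end Dat

end Pool.Agent.MP_1209e6_cy
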