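import Pool.Agent.Lib_MP_1209e6_cy.ProjDef
import Pool.Agent.Lib_MP_1209e6_cy.EPoly

/-!
PIECE [DNA] (MP_1209e6_ag).  Norms of bihomogeneous polynomials.
-/

open Matrix MvPolynomial Filter Topology

namespace Pool.Agent.MP_1209e6_cy

variable {m : ℕ}

/-- the variables of both factors -/
abbrev DnaS (m : ℕ) := Fin (m + 2) ⊕ Fin (m + 2)

/-- the weights of the bigrading -/
def dnaW (m : ℕ) : Fin (m + 2) ⊕ Fin (m + 2) → ℕ × ℕ := Sum.elim (fun _ => (1, 0)) (fun _ => (0, 1))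

theorem dna_weight (s : (Fin (m + 2) ⊕ Fin (m + 2)) →₀ ℕ) :
    Finsupp.weight (dnaW m) s = (∑ i, s (Sum.inl i), ∑ i, s (Sum.inr i)) := by
  rw [Finsupp.weight_apply, Finsupp.sum_fintype _ _ (by simp), Fintype.sum_sum_type]
  simp only [dnaW, Sum.elim_inl, Sum.elim_inr]
  ext
  · simp [Prod.fst_sum]
  · simp [Prod.snd_sum]

theorem dna_biHom_iff {p : MvPolynomial (Fin (m + 2) ⊕ Fin (m + 2)) ℂ} {d e : ℕ} :
    BiHom p d e ↔ IsWeightedHomogeneous (dnaW m) p (d, e) := by
  unfold BiHom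
  constructor
  · intro h s hs
    rw [dna_weight]
    have := h s (mem_support_iff.2 hs)
    rw [this.1, this.2]
  · intro h s hs
    have := h (mem_support_iff.1 hs)
    rw [dna_weight] at this
    exact ⟨congrArg Prod.fst this, congrArg Prod.snd this⟩

/-- the first part of a monomial -/
noncomputable def dnaL (s : (Fin (m + 2) ⊕ Fin (m + 2)) →₀ ℕ) : MvPolynomial (Fin (m + 2)) ℂ :=
  ∏ i, X i ^ s (Sum.inl i)

/-- the second part of a monomial -/
noncomputable def dnaR (s : (Fin (m + 2) ⊕ Fin (m + 2)) →₀ ℕ) : MvPolynomial (Fin (m + 2)) ℂ :=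
  ∏ i, X i ^ s (Sum.inr i)

theorem dnaL_homog (s : (Fin (m + 2) ⊕ Fin (m + 2)) →₀ ℕ) :
    (dnaL s).IsHomogeneous (∑ i, s (Sum.inl i)) :=
  IsHomogeneous.prod _ _ _ fun _ _ => isHomogeneous_X_pow _ _

theorem dnaR_homog (s : (Fin (m + 2) ⊕ Fin (m + 2)) →₀ ℕ) :
    (dnaR s).IsHomogeneous (∑ i, s (Sum.inr i)) :=
  IsHomogeneous.prod _ _ _ fun _ _ => isHomogeneous_X_pow _ _

theorem dna_aeval (p : MvPolynomial (Fin (m + 2) ⊕ Fin (m + 2)) ℂ) (x y : Vec m ℂ) :
    aeval (Sum.elim x y) p =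
      ∑ s ∈ p.support, aeval x (dnaL s) * aeval y (C (coeff s p) * dnaR s) := by
  rw [aeval_def, eval₂_eq']
  refine Finset.sum_congr rfl fun s _ => ?_
  rw [Fintype.prod_sum_type]
  simp only [Sum.elim_inl, Sum.elim_inr, dnaL, dnaR, map_mul, map_prod, map_pow, aeval_X, aeval_C]
  ring

/-- PIECE [DNA].  The norm of a bihomogeneous polynomial with respect to `y`.

Proof.  Write `p = ∑_a X^a p_a(Y)`, `a` the exponents of the first variables (of degree `d`), `p_a` forms of degree `e`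
over `ℂ` in the second variables, and put `M = ∑_{a,b} X^(a+b) N(p_a, p_b)(X)`, `N = D.swap.N2 e`.  By `N2_spec` for
`D.swap`, `(2 (w·y)^2)^e M(x) = ∑_{a,b} x^(a+b) (p_a(y) p_b(y') + p_a(y') p_b(y)) = 2 p(x, y) p(x, y')`,
`y' = D.swap.S w y x`. -/
theorem exists_norm_biHom {D : Dat m ℂ} (hD : D.Symm)
    {p : MvPolynomial (Fin (m + 2) ⊕ Fin (m + 2)) ℂ} {d e : ℕ} (hp : BiHom p d e) :
    ∃ (M : MvPolynomial (Fin (m + 2)) ℂ), M.IsHomogeneous (2 * d + (2 * m + 2) * e) ∧
      ∀ x y w : Vec m ℂ, D.In x y → (2 * (w ⬝ᵥ y) ^ 2) ^ e * aeval x M =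
        2 * aeval (Sum.elim x y) p * aeval (Sum.elim x (D.swap.S w y x)) p := by
  classical
  set N : ((Fin (m + 2) ⊕ Fin (m + 2)) →₀ ℕ) → ((Fin (m + 2) ⊕ Fin (m + 2)) →₀ ℕ) →
      MvPolynomial (Fin (m + 2)) ℂ := fun s t =>
    D.swap.N2 e (C (coeff s p) * dnaR s) (C (coeff t p) * dnaR t) with hN
  have hR : ∀ s ∈ p.support, (C (coeff s p) * dnaR s).IsHomogeneous e := by
    intro s hs
    have := (dnaR_homog s).C_mul (coeff s p)
    rwa [(hp s hs).2] at this
  refine ⟨∑ s ∈ p.support, ∑ t ∈ p.support, dnaL s * dnaL t * N s t, ?_, ?_⟩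
  · refine IsHomogeneous.sum _ _ _ fun s hs => IsHomogeneous.sum _ _ _ fun t ht => ?_
    have h1 := dnaL_homog s
    have h2 := dnaL_homog t
    rw [(hp s hs).1] at h1
    rw [(hp t ht).1] at h2
    have h3 := (h1.mul h2).mul (Dat.N2_homog D.swap e (C (coeff s p) * dnaR s)
      (C (coeff t p) * dnaR t))
    rwa [← two_mul] at h3
  · intro x y w hin
    have hin' : (D.swap.map (algebraMap ℂ ℂ)).In y x := by
      have : D.swap.map (algebraMap ℂ ℂ) = D.swap := rfl
      rw [this, Dat.swap_In]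
      exact hin
    have hmap : D.swap.map (algebraMap ℂ ℂ) = D.swap := rfl
    have hspec : ∀ s ∈ p.support, ∀ t ∈ p.support,
        (2 * (w ⬝ᵥ y) ^ 2) ^ e * aeval x (N s t) =
          aeval y (C (coeff s p) * dnaR s) *
            aeval (D.swap.S w y x) (C (coeff t p) * dnaR t) +
          aeval (D.swap.S w y x) (C (coeff s p) * dnaR s) *
            aeval y (C (coeff t p) * dnaR t) := by
      intro s hs t ht
      have := Dat.N2_spec hD.swap (IsUnit.mk0 (2 : ℂ) two_ne_zero) (hR s hs) (hR t ht) w y x hin'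
      rwa [hmap] at this
    rw [dna_aeval p x y, dna_aeval p x (D.swap.S w y x)]
    set a := fun s => aeval x (dnaL s : MvPolynomial (Fin (m + 2)) ℂ)
    set b := fun s => aeval y (C (coeff s p) * dnaR s : MvPolynomial (Fin (m + 2)) ℂ)
    set c := fun s => aeval (D.swap.S w y x) (C (coeff s p) * dnaR s : MvPolynomial (Fin (m + 2)) ℂ)
    have e1 : (2 * (w ⬝ᵥ y) ^ 2) ^ e *
        aeval x (∑ s ∈ p.support, ∑ t ∈ p.support, dnaL s * dnaL t * N s t) =
        ∑ s ∈ p.support, ∑ t ∈ p.support, a s * a t * (b s * c t + c s * b t) := by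
      rw [map_sum, Finset.mul_sum]
      refine Finset.sum_congr rfl fun s hs => ?_
      rw [map_sum, Finset.mul_sum]
      refine Finset.sum_congr rfl fun t ht => ?_
      rw [map_mul, map_mul, ← hspec s hs t ht]
      ring
    rw [e1]
    have e2 : ∑ s ∈ p.support, ∑ t ∈ p.support, a s * a t * (b s * c t + c s * b t) =
        ∑ s ∈ p.support, ∑ t ∈ p.support, (a s * b s) * (a t * c t) +
        ∑ s ∈ p.support, ∑ t ∈ p.support, (a s * c s) * (a t * b t) := by
      rw [← Finset.sum_add_distrib]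
      refine Finset.sum_congr rfl fun s hs => ?_
      rw [← Finset.sum_add_distrib]
      refine Finset.sum_congr rfl fun t ht => ?_
      ring
    rw [e2, ← Finset.sum_mul_sum, ← Finset.sum_mul_sum]
    ring

/-- PIECE [DNA].  Substituting the involution in a bihomogeneous polynomial. -/
theorem exists_biHom_S (D : Dat m ℂ) (w : Vec m ℂ)
    {p : MvPolynomial (Fin (m + 2) ⊕ Fin (m + 2)) ℂ} {d e : ℕ} (hp : BiHom p d e) :
    ∃ q : MvPolynomial (Fin (m + 2) ⊕ Fin (m + 2)) ℂ, BiHom q (d + (2 * m + 2) * e) e ∧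
      ∀ x y : Vec m ℂ, aeval (Sum.elim x y) q = aeval (Sum.elim x (D.swap.S w y x)) p := by
  classical
  set D' : Dat m (MvPolynomial (DnaS m) ℂ) := D.swap.map (C : ℂ →+* MvPolynomial (DnaS m) ℂ) with hD'
  set xx : Vec m (MvPolynomial (DnaS m) ℂ) := fun i => X (Sum.inl i) with hxx
  set yy : Vec m (MvPolynomial (DnaS m) ℂ) := fun i => X (Sum.inr i) with hyy
  set ww : Vec m (MvPolynomial (DnaS m) ℂ) := fun i => C (w i) with hww
  set SP : Vec m (MvPolynomial (DnaS m) ℂ) := D'.S ww yy xx with hSP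
  have hX : ∀ i, IsWeightedHomogeneous (dnaW m) (xx i) ((1, 0) : ℕ × ℕ) := fun i =>
    isWeightedHomogeneous_X ℂ (dnaW m) (Sum.inl i)
  have hY : ∀ i, IsWeightedHomogeneous (dnaW m) (yy i) ((0, 1) : ℕ × ℕ) := fun i =>
    isWeightedHomogeneous_X ℂ (dnaW m) (Sum.inr i)
  have hC : ∀ c : ℂ, IsWeightedHomogeneous (dnaW m) (C c : MvPolynomial (DnaS m) ℂ) (0 : ℕ × ℕ) := fun c =>
    isWeightedHomogeneous_C (dnaW m) c
  -- the determinant
  have hrow : ∀ i j, IsWeightedHomogeneous (dnaW m) (D'.row xx i j) ((1, 0) : ℕ × ℕ) := by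
    intro i j
    unfold Dat.row
    refine IsWeightedHomogeneous.sum _ _ _ fun l _ => ?_
    have := (hC (D.swap.a i j l)).mul (hX l)
    rwa [zero_add] at this
  have hdet : ∀ j, IsWeightedHomogeneous (dnaW m) (pv (D'.row xx) ww j) ((m, 0) : ℕ × ℕ) := by
    intro j
    unfold pv plu
    rw [Matrix.det_apply']
    refine IsWeightedHomogeneous.sum _ _ _ fun τ _ => ?_
    set nn : Fin (m + 2) → ℕ × ℕ := vecCons 0 (vecCons 0 (fun _ : Fin m => ((1, 0) : ℕ × ℕ))) with hnn
    have hent : ∀ i l, IsWeightedHomogeneous (dnaW m)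
        ((Matrix.of (vecCons ww (vecCons (Pi.single j 1) (D'.row xx)) :
          Fin (m + 2) → Vec m (MvPolynomial (DnaS m) ℂ))) i l) (nn i) := by
      intro i l
      refine Fin.cases ?_ (fun i => ?_) i
      · exact hC (w l)
      · refine Fin.cases ?_ (fun i => ?_) i
        · show IsWeightedHomogeneous (dnaW m)
            ((Pi.single j 1 : Vec m (MvPolynomial (DnaS m) ℂ)) l) (0 : ℕ × ℕ)
          by_cases h : l = j
          · subst h
            rw [Pi.single_eq_same]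
            exact isWeightedHomogeneous_one ℂ _
          · rw [Pi.single_eq_of_ne h]
            exact isWeightedHomogeneous_zero ℂ _ _
        · exact hrow i l
    have hprod := IsWeightedHomogeneous.prod Finset.univ
      (fun i => (Matrix.of (vecCons ww (vecCons (Pi.single j 1) (D'.row xx)) :
          Fin (m + 2) → Vec m (MvPolynomial (DnaS m) ℂ))) (τ i) i) (fun i => nn (τ i))
      (fun i _ => hent (τ i) i)
    have hsum : ∑ i, nn (τ i) = ((m, 0) : ℕ × ℕ) := by
      rw [Equiv.sum_comp τ nn, Fin.sum_univ_succ, Fin.sum_univ_succ]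
      simp [hnn]
    rw [hsum] at hprod
    have hs := (hC (((Equiv.Perm.sign τ : ℤ) : ℂ))).mul hprod
    rw [zero_add] at hs
    have hcast : (C (((Equiv.Perm.sign τ : ℤ) : ℂ)) : MvPolynomial (DnaS m) ℂ) =
        (((Equiv.Perm.sign τ : ℤ)) : MvPolynomial (DnaS m) ℂ) := by
      simp
    rwa [hcast] at hs
  have hB : ∀ (u v : Vec m (MvPolynomial (DnaS m) ℂ)) (n₁ n₂ : ℕ × ℕ),
      (∀ i, IsWeightedHomogeneous (dnaW m) (u i) n₁) →
      (∀ i, IsWeightedHomogeneous (dnaW m) (v i) n₂) →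
      IsWeightedHomogeneous (dnaW m) (D'.B u v xx xx) (n₁ + n₂ + (1, 0) + (1, 0)) := by
    intro u v n₁ n₂ hu hv
    unfold Dat.B
    refine IsWeightedHomogeneous.sum _ _ _ fun j _ => IsWeightedHomogeneous.sum _ _ _ fun k _ =>
      IsWeightedHomogeneous.sum _ _ _ fun l _ => IsWeightedHomogeneous.sum _ _ _ fun q _ => ?_
    have := ((((hC (D.swap.b j k l q)).mul (hu j)).mul (hv k)).mul (hX l)).mul (hX q)
    rwa [zero_add] at this
  have hSPh : ∀ j, IsWeightedHomogeneous (dnaW m) (SP j) ((2 * m + 2, 1) : ℕ × ℕ) := by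
    intro j
    show IsWeightedHomogeneous (dnaW m) (D'.B (pv (D'.row xx) ww) (pv (D'.row xx) ww) xx xx * yy j -
      2 * D'.B yy (pv (D'.row xx) ww) xx xx * pv (D'.row xx) ww j) _
    refine IsWeightedHomogeneous.sub ?_ ?_
    · have := (hB _ _ _ _ hdet hdet).mul (hY j)
      have e1 : ((m, 0) : ℕ × ℕ) + (m, 0) + (1, 0) + (1, 0) + (0, 1) = (2 * m + 2, 1) := by
        ext <;> simp <;> ring
      rwa [e1] at this
    · have h2 : IsWeightedHomogeneous (dnaW m) (2 : MvPolynomial (DnaS m) ℂ) (0 : ℕ × ℕ) := by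
        have := hC 2
        rwa [show (C (2 : ℂ) : MvPolynomial (DnaS m) ℂ) = 2 from map_ofNat C 2] at this
      have := (h2.mul (hB _ _ _ _ hY hdet)).mul (hdet j)
      have e1 : (0 : ℕ × ℕ) + ((0, 1) + (m, 0) + (1, 0) + (1, 0)) + (m, 0) = (2 * m + 2, 1) := by
        ext <;> simp <;> ring
      rwa [e1] at this
  have hSPe : ∀ x y : Vec m ℂ, ∀ j, aeval (Sum.elim x y) (SP j) = D.swap.S w y x j := by
    intro x y j
    have h := Dat.map_S D' ((aeval (Sum.elim x y) : MvPolynomial (DnaS m) ℂ →ₐ[ℂ] ℂ) :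
      MvPolynomial (DnaS m) ℂ →+* ℂ) ww yy xx j
    have e1 : D'.map ((aeval (Sum.elim x y) : MvPolynomial (DnaS m) ℂ →ₐ[ℂ] ℂ) :
        MvPolynomial (DnaS m) ℂ →+* ℂ) = D.swap := by
      unfold Dat.map
      rw [hD']
      unfold Dat.map
      congr 1
      · funext i j l
        simp
        rfl
      · funext i j l q
        simp
        rfl
    rw [e1] at h
    simp only [RingHom.coe_coe, hww, hyy, hxx, aeval_X, aeval_C, Sum.elim_inl, Sum.elim_inr,
      Algebra.algebraMap_self, RingHom.id_apply] at h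
    exact h.symm
  refine ⟨aeval (Sum.elim xx SP) p, ?_, ?_⟩
  · rw [dna_biHom_iff, aeval_def, eval₂_eq']
    refine IsWeightedHomogeneous.sum _ _ _ fun s hs => ?_
    have h1 := IsWeightedHomogeneous.prod Finset.univ (fun i => xx i ^ s (Sum.inl i))
      (fun i => s (Sum.inl i) • ((1, 0) : ℕ × ℕ)) (fun i _ => (hX i).pow _)
    have h2 := IsWeightedHomogeneous.prod Finset.univ (fun i => SP i ^ s (Sum.inr i))
      (fun i => s (Sum.inr i) • ((2 * m + 2, 1) : ℕ × ℕ)) (fun i _ => (hSPh i).pow _)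
    have h3 := (hC (coeff s p)).mul (h1.mul h2)
    have e1 : (0 : ℕ × ℕ) + (∑ i, s (Sum.inl i) • ((1, 0) : ℕ × ℕ) +
        ∑ i, s (Sum.inr i) • ((2 * m + 2, 1) : ℕ × ℕ)) = (d + (2 * m + 2) * e, e) := by
      rw [← Finset.sum_smul, ← Finset.sum_smul, (hp s hs).1, (hp s hs).2]
      ext
      · simp
        ring
      · simp
    rw [e1] at h3
    rw [Fintype.prod_sum_type]
    exact h3
  · intro x y
    have h : (aeval (Sum.elim x y) : MvPolynomial (DnaS m) ℂ →ₐ[ℂ] ℂ) (aeval (Sum.elim xx SP) p) =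
        aeval (fun i => aeval (Sum.elim x y) ((Sum.elim xx SP : DnaS m → MvPolynomial (DnaS m) ℂ) i)) p := by
      rw [← comp_aeval]
      rfl
    rw [h]
    congr 2
    funext i
    rcases i with i | i
    · simp [hxx]
    · simp only [Sum.elim_inr]
      exact hSPe x y i

end Pool.Agent.MP_1209e6_cy
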