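import Pool.Agent.Lib_MP_1209e6_cy.EPoly
import Pool.Agent.Lib_MP_1209e6_cy.Points

/-!
PIECE [TH] (MP_1209e6_ag).  Sets of codimension at least two and the smallness hypothesis.
-/

open Matrix MvPolynomial

namespace Pool.Agent.MP_1209e6_cy

variable {N m : ℕ} {K : Type*} [Field K]

/-- a set of vectors contained in the common zero set of two coprime forms -/
def Thin (S : Set (Fin N → K)) : Prop :=
  ∃ F G : MvPolynomial (Fin N) K, (∃ d, F.IsHomogeneous d) ∧ (∃ e, G.IsHomogeneous e) ∧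
    IsRelPrime F G ∧ ∀ y ∈ S, aeval y F = 0 ∧ aeval y G = 0

theorem Thin.mono {S T : Set (Fin N → K)} (h : S ⊆ T) (hT : Thin T) : Thin S := by
  obtain ⟨F, G, hF, hG, hr, hz⟩ := hT
  exact ⟨F, G, hF, hG, hr, fun y hy => hz y (h hy)⟩

/-- The smallness hypothesis in terms of `E` (for the projection to `y`). -/
structure SmallE (D : Dat m K) : Prop where
  e1 : Thin {y : Vec m K | y ≠ 0 ∧ ∀ i j, D.E y i j = 0}
  e2 : Thin {y : Vec m K | y ≠ 0 ∧ ∃ x : Vec m K, x ≠ 0 ∧ D.In x y ∧ ∀ i j, D.swap.E x i j = 0}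

end Pool.Agent.MP_1209e6_cy
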