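import Pool.Agent.Lib_MP_1209e6_cy.ProjA
import Pool.Agent.Lib_MP_1209e6_cy.DensA
import Pool.Agent.Lib_MP_1209e6_cy.Thin

/-!
PIECE [DNB] (MP_1209e6_ag).  Density of the curve in `X`.
-/

open Matrix MvPolynomial Filter Topology

namespace Pool.Agent.MP_1209e6_cy

variable {m : ℕ}

/-- [DNB] the value of a polynomial along an entire curve is entire -/
private theorem dnb_diff {x : ℂ → Vec m ℂ} (hx : Differentiable ℂ x)
    (M : MvPolynomial (Fin (m + 2)) ℂ) : Differentiable ℂ (fun z => aeval (x z) M) := by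
  induction M using MvPolynomial.induction_on with
  | C a =>
    simp only [aeval_C]
    exact differentiable_const _
  | add p q hp hq =>
    simp only [map_add]
    exact hp.add hq
  | mul_X p i hp =>
    simp only [map_mul, aeval_X]
    exact hp.mul (differentiable_pi.1 hx i)

/-- [DNB] a polynomial in the first variables is bihomogeneous -/
private theorem dnb_biHom {P : MvPolynomial (Fin (m + 2)) ℂ} {k : ℕ} (hP : P.IsHomogeneous k) :
    BiHom (rename Sum.inl P : MvPolynomial (Fin (m + 2) ⊕ Fin (m + 2)) ℂ) k 0 := by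
  classical
  intro s hs
  rw [support_rename_of_injective Sum.inl_injective, Finset.mem_image] at hs
  obtain ⟨t, ht, rfl⟩ := hs
  have h1 : ∑ i, t i = k := by
    have h2 := hP (mem_support_iff.1 ht)
    have h3 : Finsupp.degree t = k := by
      rw [Finsupp.degree_eq_weight_one]
      exact h2
    rw [← h3, Finsupp.degree_eq_sum]
  refine ⟨?_, ?_⟩
  · rw [← h1]
    refine Finset.sum_congr rfl fun i _ => ?_
    exact Finsupp.mapDomain_apply Sum.inl_injective t i
  · refine Finset.sum_eq_zero fun i _ => ?_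
    refine Finsupp.mapDomain_of_notMem_range t _ ?_
    rintro ⟨j, hj⟩
    exact Sum.inl_ne_inr hj

/-- [DNB] a vector with a nonzero coordinate has a form which is `1` on it -/
private theorem dnb_form {y : Vec m ℂ} (hy : y ≠ 0) : ∃ w : Vec m ℂ, w ⬝ᵥ y = 1 := by
  obtain ⟨i, hi⟩ := Function.ne_iff.1 hy
  refine ⟨Pi.single i (y i)⁻¹, ?_⟩
  rw [single_dotProduct]
  exact inv_mul_cancel₀ hi

/-- [DNB] the second involution is an involution (with normalised forms) -/
private theorem dnb_invol {D : Dat m ℂ} (hD : D.Symm) {x y w w₂ : Vec m ℂ} (hin : D.In x y)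
    (hw : w ⬝ᵥ y = 1) (hw₂ : w₂ ⬝ᵥ D.swap.S w y x = 1) :
    D.swap.S w₂ (D.swap.S w y x) x = y := by
  set y' := D.swap.S w y x with hy'
  set y'' := D.swap.S w₂ y' x with hy''
  have hin' : D.swap.In y x := (D.swap_In x y).2 hin
  have hin2 : D.swap.In y' x := hD.swap.In_S hin'
  have h1 := fun i j => hD.swap.key hin' w i j
  have h2 := fun i j => hD.swap.key hin2 w₂ i j
  rw [hw] at h1
  rw [hw₂] at h2
  have h3 : ∀ i j, y' i * (y j - y'' j) + y' j * (y i - y'' i) = 0 := by
    intro i j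
    have e1 := h1 i j
    have e2 := h2 i j
    rw [← hy'] at e1
    rw [← hy''] at e2
    rw [e1] at e2
    linear_combination e2
  have hne : y' ≠ 0 := by
    intro h0
    rw [h0, dotProduct_zero] at hw₂
    exact zero_ne_one hw₂
  obtain ⟨i, hi⟩ := Function.ne_iff.1 hne
  have hi' : y' i ≠ 0 := hi
  have h4 : y i - y'' i = 0 := by
    have h5 := h3 i i
    have h6 : y' i * (y i - y'' i) = 0 := by
      have : (2 : ℂ) * (y' i * (y i - y'' i)) = 0 := by linear_combination h5
      exact (mul_eq_zero.1 this).resolve_left two_ne_zero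
    exact (mul_eq_zero.1 h6).resolve_left hi'
  funext j
  have h5 := h3 i j
  rw [h4, mul_zero, add_zero] at h5
  have h6 := (mul_eq_zero.1 h5).resolve_left hi'
  exact (sub_eq_zero.1 h6).symm

/-- PIECE [DNB].  If the coordinates of `x(z)` satisfy no homogeneous relation then the curve is dense.

Proof.  Let `p` (bidegree `(d, e)`) vanish at `(x(z), y(z))` for all `z`, and let `M` be its norm
(`exists_norm_biHom`).  For every `z` with `y(z) ≠ 0` choose `w` with `w·y(z) = 1`: `M(x(z)) = 0`; so `M(x(z)) = 0` for all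
`z` (continuity, `y(0) ≠ 0`, identity theorem) and `M = 0` by `hrel`.  Hence `p(x, y) p(x, S' w y x) = 0` for all points
`(x, y)` of `X` and all `w` (if `w·y ≠ 0`; by continuity or by choice only such `w` matter: for fixed `w` the product
`p · q_w · (w·y)`...; it is simplest to apply `hirr` to `p` and `q = (w·Y) q_w`, `q_w` from `exists_biHom_S`).
Suppose that `p` does not vanish on `X`.  Then for every `w` and every `(x, y)` in `X` with `w·y ≠ 0`:
`p(x, S' w y x) = 0`.  Let `(x, y) ∈ X` with `E'(x) ≠ 0` (`E' = D.swap.E`).  Choose `w·y ≠ 0`, `y' = S' w y x`: by `Symm.key`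
for `D.swap`, `2 (w·y)^2 E'(x) = y ⊗ y' + y' ⊗ y`, so `y' ≠ 0`, and `(x, y') ∈ X` (`In_S`).  Choose `w₂·y' ≠ 0`,
`y'' = S' w₂ y' x`; `2 (w₂·y')^2 E'(x) = y' ⊗ y'' + y'' ⊗ y'`, so `y'' = c y`, `c ≠ 0`, and `0 = p(x, y'') = c^e p(x, y)`.
So `p(x, y) E'_ij(x) = 0` on `X` for all `i, j`; by irreducibility all `E'_ij` vanish on `X`; every `x ≠ 0` has a point
of `X` over it (`Symm.exists_In` for `D.swap`), so `E'(x) = 0` for all `x ≠ 0`, contrary to `SmallE.e1` for `D.swap` (the two
coprime forms would vanish everywhere, hence be zero). -/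
theorem dense_of_no_relation {D : Dat m ℂ} (hD : D.Symm) (hirr : D.Irred)
    (hS' : SmallE D.swap) {x y : ℂ → Vec m ℂ} (hx : Differentiable ℂ x) (hy : Differentiable ℂ y)
    (hx0 : x 0 ≠ 0) (hy0 : y 0 ≠ 0) (hin : ∀ z, D.In (x z) (y z))
    (hrel : ∀ (d : ℕ) (p : MvPolynomial (Fin (m + 2)) ℂ), p.IsHomogeneous d →
      (∀ z, aeval (x z) p = 0) → p = 0)
    {p : MvPolynomial (Fin (m + 2) ⊕ Fin (m + 2)) ℂ} {d e : ℕ} (hp : BiHom p d e)
    (hpz : ∀ z, aeval (Sum.elim (x z) (y z)) p = 0) : ∀ c ∈ D.X, Vanish p c := by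
  classical
  obtain ⟨M, hM, hMs⟩ := exists_norm_biHom hD hp
  -- the norm vanishes
  have hM0 : M = 0 := by
    refine hrel _ M hM ?_
    have hd := dnb_diff hx M
    have han : AnalyticOnNhd ℂ (fun z => aeval (x z) M) Set.univ := fun z _ => hd.analyticAt z
    have hev : (fun z => aeval (x z) M) =ᶠ[𝓝 (0 : ℂ)] 0 := by
      have hyc : ∀ᶠ z in 𝓝 (0 : ℂ), y z ≠ 0 := hy.continuous.continuousAt.eventually_ne hy0
      filter_upwards [hyc] with z hz
      obtain ⟨w, hw⟩ := dnb_form hz
      have h1 := hMs (x z) (y z) w (hin z)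
      rw [hpz z, hw] at h1
      have h2 : (2 * (1 : ℂ) ^ 2) ^ e ≠ 0 := by
        apply pow_ne_zero
        norm_num
      have h3 : (2 * (1 : ℂ) ^ 2) ^ e * aeval (x z) M = 0 := by
        rw [h1]
        ring
      exact (mul_eq_zero.1 h3).resolve_left h2
    have h1 := han.eqOn_zero_of_preconnected_of_eventuallyEq_zero isPreconnected_univ
      (Set.mem_univ (0 : ℂ)) hev
    exact fun z => h1 (Set.mem_univ z)
  have hprod : ∀ x y w : Vec m ℂ, D.In x y →
      aeval (Sum.elim x y) p = 0 ∨ aeval (Sum.elim x (D.swap.S w y x)) p = 0 := by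
    intro x y w hxy
    have h1 := hMs x y w hxy
    rw [hM0, map_zero, mul_zero] at h1
    have h2 : (2 : ℂ) * (aeval (Sum.elim x y) p * aeval (Sum.elim x (D.swap.S w y x)) p) = 0 := by
      rw [← mul_assoc]
      exact h1.symm
    exact mul_eq_zero.1 ((mul_eq_zero.1 h2).resolve_left two_ne_zero)
  by_contra hcon
  -- all conjugates vanish
  have hq : ∀ w x y : Vec m ℂ, x ≠ 0 → y ≠ 0 → D.In x y →
      aeval (Sum.elim x (D.swap.S w y x)) p = 0 := by
    intro w x y hx0 hy0 hxy
    obtain ⟨q, hqb, hqs⟩ := exists_biHom_S D w hp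
    have h1 : (∀ c ∈ D.X, Vanish p c) ∨ (∀ c ∈ D.X, Vanish q c) := by
      refine hirr p q _ _ _ _ hp hqb fun c hc => ?_
      rcases hprod c.1.rep c.2.rep w hc with h | h
      · exact Or.inl h
      · right
        unfold Vanish
        rw [hqs]
        exact h
    have h2 := h1.resolve_left hcon _ ((mem_X_mk hD hx0 hy0).2 hxy)
    rw [vanish_mk hqb hx0 hy0, hqs] at h2
    exact h2
  -- `p` times the entries of `E'` vanishes on `X`
  have hE : ∀ x y : Vec m ℂ, x ≠ 0 → y ≠ 0 → D.In x y → ∀ i j, D.swap.E x i j ≠ 0 →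
      aeval (Sum.elim x y) p = 0 := by
    intro x y hx0 hy0 hxy i j hij
    obtain ⟨w, hw⟩ := dnb_form hy0
    have hin' : D.swap.In y x := (D.swap_In x y).2 hxy
    have hin2 : D.In x (D.swap.S w y x) := (D.swap_In x _).1 (hD.swap.In_S hin')
    have hne : D.swap.S w y x ≠ 0 := by
      intro h0
      have h1 := hD.swap.key hin' w i j
      rw [hw, h0] at h1
      apply hij
      simpa using h1
    obtain ⟨w₂, hw₂⟩ := dnb_form hne
    have h1 := hq w₂ x (D.swap.S w y x) hx0 hne hin2
    rw [dnb_invol hD hxy hw hw₂] at h1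
    exact h1
  have hEP : ∀ (x : Vec m ℂ) (i j : Fin (m + 2)), aeval x (D.swap.EP i j) = D.swap.E x i j := by
    intro x i j
    rw [Dat.aeval_EP]
    rfl
  have hE0 : ∀ x : Vec m ℂ, x ≠ 0 → ∀ i j, D.swap.E x i j = 0 := by
    intro x hx0 i j
    obtain ⟨y, hy0, hxy⟩ := hD.swap.exists_In x
    have hxy' : D.In x y := (D.swap_In x y).1 hxy
    have hb := dnb_biHom (D.swap.EP_homog i j)
    have hval : ∀ x y : Vec m ℂ, aeval (Sum.elim x y) (rename Sum.inl (D.swap.EP i j)) =
        D.swap.E x i j := by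
      intro x y
      rw [aeval_rename, Sum.elim_comp_inl, hEP]
    have h1 : (∀ c ∈ D.X, Vanish p c) ∨
        (∀ c ∈ D.X, Vanish (rename Sum.inl (D.swap.EP i j)) c) := by
      refine hirr _ _ _ _ _ _ hp hb fun c hc => ?_
      by_cases h : D.swap.E c.1.rep i j = 0
      · right
        unfold Vanish
        rw [hval]
        exact h
      · exact Or.inl (hE _ _ c.1.rep_nonzero c.2.rep_nonzero hc i j h)
    have h2 := h1.resolve_left hcon _ ((mem_X_mk hD hx0 hy0).2 hxy')
    rw [vanish_mk hb hx0 hy0, hval] at h2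
    exact h2
  obtain ⟨F, G, -, -, hFG, hz⟩ := hS'.e1
  have hzero : ∀ P : MvPolynomial (Fin (m + 2)) ℂ, (∀ x : Vec m ℂ, x ≠ 0 → aeval x P = 0) → P = 0 := by
    intro P hP
    have h1 : P * X 0 = 0 := by
      refine MvPolynomial.funext fun x => ?_
      rw [map_mul, map_zero, eval_X]
      by_cases h : x = 0
      · rw [h, Pi.zero_apply, mul_zero]
      · have h2 := hP x h
        rw [aeval_eq_eval] at h2
        rw [show eval x P = 0 from h2, zero_mul]
    exact (mul_eq_zero.1 h1).resolve_right (X_ne_zero 0)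
  have hF := hzero F fun x hx => (hz x ⟨hx, hE0 x hx⟩).1
  have hG := hzero G fun x hx => (hz x ⟨hx, hE0 x hx⟩).2
  rw [hF, hG] at hFG
  have h1 : IsUnit (0 : MvPolynomial (Fin (m + 2)) ℂ) := hFG (dvd_refl _) (dvd_refl _)
  exact not_isUnit_zero h1

end Pool.Agent.MP_1209e6_cy
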