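import Pool.Agent.Lib_MP_1209e6_cy.DerivA

/-!
PIECE [DRB] (MP_1209e6_ag).  The derivative of the normalised involution.
-/

open Matrix Filter Topology

namespace Pool.Agent.MP_1209e6_cy

namespace Dat

variable {m : ℕ}

/-- derivative of the polarised `(2, 2)`-form -/
theorem drb_hasFDerivAt_B {E : Type*} [NormedAddCommGroup E] [NormedSpace ℂ E] (D : Dat m ℂ)
    {f g h κ : E → Vec m ℂ} {f' g' h' κ' : E →L[ℂ] Vec m ℂ} {p₀ : E}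
    (hf : HasFDerivAt f f' p₀) (hg : HasFDerivAt g g' p₀) (hh : HasFDerivAt h h' p₀)
    (hκ : HasFDerivAt κ κ' p₀) : ∃ L : E →L[ℂ] ℂ,
      HasFDerivAt (fun p => D.B (f p) (g p) (h p) (κ p)) L p₀ ∧
      ∀ ξ, L ξ = D.B (f' ξ) (g p₀) (h p₀) (κ p₀) + D.B (f p₀) (g' ξ) (h p₀) (κ p₀) +
        D.B (f p₀) (g p₀) (h' ξ) (κ p₀) + D.B (f p₀) (g p₀) (h p₀) (κ' ξ) := by
  have hf1 := hasFDerivAt_pi'.1 hf
  have hg1 := hasFDerivAt_pi'.1 hg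
  have hh1 := hasFDerivAt_pi'.1 hh
  have hκ1 := hasFDerivAt_pi'.1 hκ
  unfold Dat.B
  refine ⟨_, HasFDerivAt.fun_sum fun j _ => HasFDerivAt.fun_sum fun k _ =>
    HasFDerivAt.fun_sum fun l _ => HasFDerivAt.fun_sum fun q _ =>
      ((((hasFDerivAt_const (D.b j k l q) p₀).fun_mul (hf1 j)).fun_mul (hg1 k)).fun_mul
        (hh1 l)).fun_mul (hκ1 q), ?_⟩
  intro ξ
  simp only [_root_.sum_apply, ← Finset.sum_add_distrib]
  refine Finset.sum_congr rfl fun j _ => Finset.sum_congr rfl fun k _ =>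
    Finset.sum_congr rfl fun l _ => Finset.sum_congr rfl fun q _ => ?_
  simp only [_root_.add_apply, _root_.smul_apply,
    ContinuousLinearMap.comp_apply, ContinuousLinearMap.proj_apply,
    _root_.zero_apply, smul_eq_mul]
  ring

/-- PIECE [DRB].  Let `u = pv (row y₀) w`, `b(x₀, u, y₀, y₀) = 0`, `q = b(u, u, y₀, y₀) ≠ 0`, and `ℓ` a
linear form with `ℓ(x₀) = 1`.  For a suitable polynomial scalar factor `α` the map
`(x, y) ↦ (α(x, y) S_y(x), y)` fixes `(x₀, y₀)` and has the derivative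
`(ξ, η) ↦ (ξ - ℓ(ξ) x₀ - (2/q) (b(ξ, u, y₀, y₀) + γ(η)) u, η)`, `γ = gam`.

Proof.  `S w x y = B(u(y), u(y), y, y) x - 2 B(x, u(y), y, y) u(y)`, `u(y) = pv (row y) w`.  Its
derivative at `(x₀, y₀)` is `δ(η) x₀ + q ξ - 2 (B(ξ, u, y₀, y₀) + γ(η)) u`, where `δ` is the derivative
of `y ↦ B(u(y), u(y), y, y)` (the term with the derivative of the last factor `u(y)` has
the coefficient `B(x₀, u, y₀, y₀) = 0`), and `S w x₀ y₀ = q x₀`.  Take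
`α(x, y) = (1 - ℓ(x - x₀) - δ(y - y₀) / q) / q`. -/
theorem exists_scalar {D : Dat m ℂ} (hD : D.Symm) {w x₀ y₀ : Vec m ℂ}
    (hu : D.B x₀ (pv (D.row y₀) w) y₀ y₀ = 0)
    (hq : D.B (pv (D.row y₀) w) (pv (D.row y₀) w) y₀ y₀ ≠ 0)
    (ℓ : Vec m ℂ →L[ℂ] ℂ) (hℓ : ℓ x₀ = 1) :
    ∃ α : Vec m ℂ × Vec m ℂ → ℂ, ContDiff ℂ 2 α ∧
      α (x₀, y₀) * D.B (pv (D.row y₀) w) (pv (D.row y₀) w) y₀ y₀ = 1 ∧
      ∃ L : Vec m ℂ × Vec m ℂ →L[ℂ] Vec m ℂ × Vec m ℂ,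
        HasFDerivAt (fun p : Vec m ℂ × Vec m ℂ => (α p • D.S w p.1 p.2, p.2)) L (x₀, y₀) ∧
        ∀ ξ η, L (ξ, η) = (ξ - ℓ ξ • x₀ -
          (2 / D.B (pv (D.row y₀) w) (pv (D.row y₀) w) y₀ y₀ *
            (D.B ξ (pv (D.row y₀) w) y₀ y₀ + D.gam w x₀ y₀ η)) • pv (D.row y₀) w, η) := by
  set u₀ := pv (D.row y₀) w with hu₀
  set q : ℂ := D.B u₀ u₀ y₀ y₀ with hqdef
  obtain ⟨Lu, hLu, hLu'⟩ := D.hasFDerivAt_pv w y₀
  have h1 : HasFDerivAt (fun p : Vec m ℂ × Vec m ℂ => p.1)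
      (ContinuousLinearMap.fst ℂ (Vec m ℂ) (Vec m ℂ)) (x₀, y₀) := hasFDerivAt_fst
  have h2 : HasFDerivAt (fun p : Vec m ℂ × Vec m ℂ => p.2)
      (ContinuousLinearMap.snd ℂ (Vec m ℂ) (Vec m ℂ)) (x₀, y₀) := hasFDerivAt_snd
  have h3 : HasFDerivAt (fun p : Vec m ℂ × Vec m ℂ => pv (D.row p.2) w)
      (Lu.comp (ContinuousLinearMap.snd ℂ (Vec m ℂ) (Vec m ℂ))) (x₀, y₀) :=
    HasFDerivAt.comp (f := fun p : Vec m ℂ × Vec m ℂ => p.2) (x₀, y₀) hLu h2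
  obtain ⟨LB, hLB, hLB'⟩ := drb_hasFDerivAt_B D h3 h3 h2 h2
  obtain ⟨LC, hLC, hLC'⟩ := drb_hasFDerivAt_B D h1 h3 h2 h2
  -- the derivative of the unnormalised map
  have hSeq : (fun p : Vec m ℂ × Vec m ℂ => D.S w p.1 p.2) = fun p =>
      D.B (pv (D.row p.2) w) (pv (D.row p.2) w) p.2 p.2 • p.1 -
        (2 * D.B p.1 (pv (D.row p.2) w) p.2 p.2) • pv (D.row p.2) w := by
    funext p
    funext j
    rfl
  have hS := (hLB.fun_smul h1).fun_sub ((hLC.const_mul 2).fun_smul h3)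
  rw [← hSeq] at hS
  have hS0 : D.S w x₀ y₀ = q • x₀ := by
    have := congrFun hSeq (x₀, y₀)
    simp only at this
    rw [this, ← hu₀, hu, mul_zero, zero_smul, sub_zero]
  -- the scalar factor
  let α : Vec m ℂ × Vec m ℂ → ℂ := fun p =>
    q⁻¹ * (1 - ℓ (p.1 - x₀) - q⁻¹ * LB (p - (x₀, y₀)))
  have hα0 : α (x₀, y₀) = q⁻¹ := by
    show q⁻¹ * (1 - ℓ (x₀ - x₀) - q⁻¹ * LB ((x₀, y₀) - (x₀, y₀))) = q⁻¹
    rw [sub_self, sub_self, map_zero, map_zero]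
    ring
  have hαd : ContDiff ℂ 2 α := by
    refine contDiff_const.mul ((contDiff_const.sub ?_).sub (contDiff_const.mul ?_))
    · exact ℓ.contDiff.comp (contDiff_fst.sub contDiff_const)
    · exact LB.contDiff.comp (contDiff_id.sub contDiff_const)
  have hα1 : HasFDerivAt α (q⁻¹ • ((0 : Vec m ℂ × Vec m ℂ →L[ℂ] ℂ) -
      ℓ.comp (ContinuousLinearMap.fst ℂ (Vec m ℂ) (Vec m ℂ)) - q⁻¹ • LB)) (x₀, y₀) := by
    have a1 : HasFDerivAt (fun p : Vec m ℂ × Vec m ℂ => ℓ (p.1 - x₀))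
        (ℓ.comp (ContinuousLinearMap.fst ℂ (Vec m ℂ) (Vec m ℂ))) (x₀, y₀) :=
      ℓ.hasFDerivAt.comp (x₀, y₀) (h1.sub_const x₀)
    have a2 : HasFDerivAt (fun p : Vec m ℂ × Vec m ℂ => LB (p - (x₀, y₀))) LB (x₀, y₀) := by
      have a3 : HasFDerivAt (fun p : Vec m ℂ × Vec m ℂ => p - (x₀, y₀))
          (ContinuousLinearMap.id ℂ (Vec m ℂ × Vec m ℂ)) (x₀, y₀) :=
        (hasFDerivAt_id (𝕜 := ℂ) (x₀, y₀)).sub_const (x₀, y₀)
      have a4 := LB.hasFDerivAt.comp (x₀, y₀) a3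
      rw [ContinuousLinearMap.comp_id] at a4
      exact a4
    exact (((hasFDerivAt_const (1 : ℂ) (x₀, y₀)).sub a1).sub (a2.const_mul q⁻¹)).const_mul q⁻¹
  refine ⟨α, hαd, ?_, _, (hα1.fun_smul hS).prodMk h2, ?_⟩
  · rw [hα0, inv_mul_cancel₀ hq]
  · intro ξ η
    have e1 : LB (ξ, η) = D.B (D.dpv w y₀ η) u₀ y₀ y₀ + D.B u₀ (D.dpv w y₀ η) y₀ y₀ +
        D.B u₀ u₀ η y₀ + D.B u₀ u₀ y₀ η := by
      rw [hLB']
      simp only [ContinuousLinearMap.comp_apply, ContinuousLinearMap.coe_snd', hLu']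
      rfl
    have e2 : LC (ξ, η) = D.B ξ u₀ y₀ y₀ + D.gam w x₀ y₀ η := by
      rw [hLC']
      simp only [ContinuousLinearMap.comp_apply, ContinuousLinearMap.coe_snd',
        ContinuousLinearMap.coe_fst', hLu']
      have hs : D.B x₀ u₀ η y₀ = D.B x₀ u₀ y₀ η := hD.B_comm' _ _ _ _
      show D.B ξ u₀ y₀ y₀ + D.B x₀ (D.dpv w y₀ η) y₀ y₀ + D.B x₀ u₀ η y₀ + D.B x₀ u₀ y₀ η = _
      rw [hs]
      unfold Dat.gam
      ring
    refine Prod.ext ?_ rfl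
    funext j
    simp only [ContinuousLinearMap.prod_apply, _root_.add_apply,
      _root_.smul_apply, _root_.sub_apply,
      ContinuousLinearMap.smulRight_apply, _root_.zero_apply,
      ContinuousLinearMap.comp_apply, ContinuousLinearMap.coe_fst', Pi.add_apply, Pi.sub_apply,
      Pi.smul_apply, smul_eq_mul, hα0, hS0, e1, e2, ← hu₀]
    rw [show D.B u₀ u₀ y₀ y₀ = q from rfl, hu]
    field_simp
    ring

end Dat

end Pool.Agent.MP_1209e6_cy
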