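import Pool.Agent.Lib_MP_1209e6_cy.Points

/-!
PIECE [DRA] (MP_1209e6_ag).  Derivatives at a fixed point.
-/

open Matrix Filter Topology

namespace Pool.Agent.MP_1209e6_cy

section plu

variable {m : ℕ} {R : Type*} [CommRing R]

omit [CommRing R] in
theorem dra_update (r : Fin m → Vec m R) (w ξ : Vec m R) (i : Fin m) (z : Vec m R) :
    (Matrix.of (vecCons w (vecCons ξ (Function.update r i z))) :
      Matrix (Fin (m + 2)) (Fin (m + 2)) R) =
    Matrix.updateRow (Matrix.of (vecCons w (vecCons ξ r) : Fin (m + 2) → Vec m R))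
      i.succ.succ z := by
  ext k l
  refine Fin.cases ?_ (fun k => ?_) k
  · rw [Matrix.updateRow_ne (Fin.succ_ne_zero _).symm]
    rfl
  · refine Fin.cases ?_ (fun k => ?_) k
    · rw [Matrix.updateRow_ne]
      · rfl
      · intro h
        exact Fin.succ_ne_zero _ (Fin.succ_injective _ h).symm
    · by_cases hk : k = i
      · subst hk
        rw [Matrix.updateRow_self]
        simp
      · rw [Matrix.updateRow_ne]
        · simp [Function.update_of_ne hk]
        · intro h
          exact hk (Fin.succ_injective _ (Fin.succ_injective _ h))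

theorem dra_plu_add (r : Fin m → Vec m R) (w ξ : Vec m R) (i : Fin m) (a b : Vec m R) :
    plu (Function.update r i (a + b)) w ξ =
      plu (Function.update r i a) w ξ + plu (Function.update r i b) w ξ := by
  unfold plu
  rw [dra_update, dra_update, dra_update, Matrix.det_updateRow_add]

theorem dra_plu_smul (r : Fin m → Vec m R) (w ξ : Vec m R) (i : Fin m) (c : R) (a : Vec m R) :
    plu (Function.update r i (c • a)) w ξ = c * plu (Function.update r i a) w ξ := by
  unfold plu
  rw [dra_update, dra_update, Matrix.det_updateRow_smul]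

theorem dra_plu_self (r : Fin m → Vec m R) (w : Vec m R) (i : Fin m) (a : Vec m R) :
    plu (Function.update r i a) w a = 0 := by
  have := plu_row (Function.update r i a) w i
  rwa [Function.update_self] at this

theorem dra_plu_swap (r : Fin m → Vec m R) (w : Vec m R) (i : Fin m) (a b : Vec m R) :
    plu (Function.update r i a) w b = - plu (Function.update r i b) w a := by
  have h := dra_plu_self r w i (a + b)
  rw [dra_plu_add, plu_add_right, plu_add_right, dra_plu_self, dra_plu_self] at h
  linear_combination h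

end plu

namespace Dat

variable {m : ℕ}

/-- the derivative of `y ↦ pv (row y) w` at `y` in direction `η` -/
def dpv {R : Type*} [CommRing R] (D : Dat m R) (w y η : Vec m R) : Vec m R := fun j =>
  ∑ i, Matrix.det (Matrix.of (vecCons w (vecCons (Pi.single j 1)
    (Function.update (D.row y) i (D.row η i))) : Fin (m + 2) → Vec m R))

/-- the derivative of `y ↦ b(x, u_w(y), y, y)` at `y` in direction `η` -/
def gam {R : Type*} [CommRing R] (D : Dat m R) (w x y η : Vec m R) : R :=
  2 * D.B x (pv (D.row y) w) y η + D.B x (D.dpv w y η) y y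

theorem dra_dpv_eq {R : Type*} [CommRing R] (D : Dat m R) (w y η : Vec m R) :
    D.dpv w y η = ∑ i, pv (Function.update (D.row y) i (D.row η i)) w := by
  funext j
  rw [Finset.sum_apply]
  rfl

/-- the linear map `row` -/
def draRow (D : Dat m ℂ) : Vec m ℂ →ₗ[ℂ] (Fin m → Vec m ℂ) where
  toFun y := D.row y
  map_add' y y' := by
    funext i j
    simp only [row, Pi.add_apply, mul_add, Finset.sum_add_distrib]
  map_smul' c y := by
    funext i j
    simp only [row, Pi.smul_apply, smul_eq_mul, Finset.mul_sum, RingHom.id_apply]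
    refine Finset.sum_congr rfl fun l _ => ?_
    ring

theorem dra_continuous_row (D : Dat m ℂ) : Continuous D.row :=
  LinearMap.continuous_of_finiteDimensional D.draRow

theorem dra_continuous_plu (w ξ : Vec m ℂ) :
    Continuous (fun r : Fin m → Vec m ℂ => plu r w ξ) := by
  unfold plu
  refine Continuous.matrix_det ?_
  refine continuous_pi fun k => continuous_pi fun l => ?_
  refine Fin.cases ?_ (fun k => ?_) k
  · exact continuous_const
  · refine Fin.cases ?_ (fun k => ?_) k
    · exact continuous_const
    · exact (continuous_apply l).comp (continuous_apply k)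

/-- the multilinear map `r ↦ plu r w ξ` -/
def draPlu (w ξ : Vec m ℂ) : ContinuousMultilinearMap ℂ (fun _ : Fin m => Vec m ℂ) ℂ where
  toFun r := plu r w ξ
  map_update_add' := by
    intro hdec r i a b
    have : hdec = instDecidableEqFin m := Subsingleton.elim _ _
    subst this
    exact dra_plu_add r w ξ i a b
  map_update_smul' := by
    intro hdec r i c a
    have : hdec = instDecidableEqFin m := Subsingleton.elim _ _
    subst this
    exact dra_plu_smul r w ξ i c a
  cont := dra_continuous_plu w ξ

/-- PIECE [DRA].  Derivative of a determinant row by row: `pv (row y) w` is multilinear in the rows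
`row y i`, which are linear in `y`. -/
theorem hasFDerivAt_pv (D : Dat m ℂ) (w y : Vec m ℂ) :
    ∃ L : Vec m ℂ →L[ℂ] Vec m ℂ, HasFDerivAt (fun y => pv (D.row y) w) L y ∧
      ∀ η, L η = D.dpv w y η := by
  classical
  set rowL : Vec m ℂ →L[ℂ] (Fin m → Vec m ℂ) := LinearMap.toContinuousLinearMap D.draRow with hrow
  refine ⟨ContinuousLinearMap.pi (fun j =>
    ((draPlu w (Pi.single j 1)).linearDeriv (rowL y)).comp rowL), ?_, ?_⟩
  · rw [hasFDerivAt_pi]
    intro j
    exact (ContinuousMultilinearMap.hasFDerivAt (draPlu w (Pi.single j 1)) (rowL y)).comp y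
      rowL.hasFDerivAt
  · intro η
    funext j
    rw [ContinuousLinearMap.pi_apply, ContinuousLinearMap.comp_apply,
      ContinuousMultilinearMap.linearDeriv_apply]
    rfl

/-- PIECE [DRA].  `A_i(pv (row y) w, y) = 0` for all `y`; differentiate. -/
theorem A_dpv (D : Dat m ℂ) (i : Fin m) (w y η : Vec m ℂ) :
    D.A i (D.dpv w y η) y + D.A i (pv (D.row y) w) η = 0 := by
  rw [A_eq_dot, A_eq_dot, dra_dpv_eq, dotProduct_sum]
  have h1 : ∀ k ∈ Finset.univ, k ≠ i →
      D.row y i ⬝ᵥ pv (Function.update (D.row y) k (D.row η k)) w = 0 := by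
    intro k _ hk
    have := row_dot_pv (Function.update (D.row y) k (D.row η k)) w i
    rwa [Function.update_of_ne (Ne.symm hk)] at this
  rw [Finset.sum_eq_single i h1 (fun h => absurd (Finset.mem_univ _) h), dot_pv, dra_plu_swap,
    Function.update_eq_self, dot_pv]
  ring

/-- PIECE [DRA].  `pv (row y) w` is homogeneous of degree `m` in `y`
(`Function.update r i (r i) = r`). -/
theorem dpv_self (D : Dat m ℂ) (w y : Vec m ℂ) : D.dpv w y y = (m : ℂ) • pv (D.row y) w := by
  rw [dra_dpv_eq]
  simp only [Function.update_eq_self, Finset.sum_const, Finset.card_univ, Fintype.card_fin]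
  rw [Nat.cast_smul_eq_nsmul]

/-- Consequence. -/
theorem Symm.gam_self {D : Dat m ℂ} (hD : D.Symm) {w x y : Vec m ℂ}
    (h : D.B x (pv (D.row y) w) y y = 0) : D.gam w x y y = 0 := by
  unfold gam
  rw [dpv_self, hD.B_smul₂, h]
  ring

theorem dra_contDiff_B (D : Dat m ℂ) {E : Type*} [NormedAddCommGroup E] [NormedSpace ℂ E]
    {f g h k : E → Vec m ℂ} (hf : ContDiff ℂ 2 f) (hg : ContDiff ℂ 2 g) (hh : ContDiff ℂ 2 h)
    (hk : ContDiff ℂ 2 k) : ContDiff ℂ 2 (fun p => D.B (f p) (g p) (h p) (k p)) := by
  unfold B
  refine ContDiff.sum fun a _ => ContDiff.sum fun b _ => ContDiff.sum fun c _ =>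
    ContDiff.sum fun d _ => ?_
  exact (((contDiff_const.mul ((contDiff_pi.1 hf) a)).mul ((contDiff_pi.1 hg) b)).mul
    ((contDiff_pi.1 hh) c)).mul ((contDiff_pi.1 hk) d)

theorem dra_contDiff_pv (D : Dat m ℂ) (w : Vec m ℂ) : ContDiff ℂ 2 (fun y => pv (D.row y) w) := by
  rw [contDiff_pi]
  intro j
  exact (ContinuousMultilinearMap.contDiff (draPlu w (Pi.single j 1))).comp
    (LinearMap.toContinuousLinearMap D.draRow).contDiff

/-- PIECE [DRA].  All maps are polynomial, hence smooth. -/
theorem contDiff_S (D : Dat m ℂ) (w : Vec m ℂ) :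
    ContDiff ℂ 2 (fun p : Vec m ℂ × Vec m ℂ => D.S w p.1 p.2) := by
  have hp : ContDiff ℂ 2 (fun p : Vec m ℂ × Vec m ℂ => pv (D.row p.2) w) :=
    (D.dra_contDiff_pv w).comp contDiff_snd
  rw [contDiff_pi]
  intro j
  unfold S
  refine ContDiff.sub ?_ ?_
  · exact (D.dra_contDiff_B hp hp contDiff_snd contDiff_snd).mul ((contDiff_pi.1 contDiff_fst) j)
  · exact (contDiff_const.mul (D.dra_contDiff_B contDiff_fst hp contDiff_snd contDiff_snd)).mul
      ((contDiff_pi.1 hp) j)

theorem dra_continuous_B (D : Dat m ℂ) {E : Type*} [TopologicalSpace E]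
    {f g h k : E → Vec m ℂ} (hf : Continuous f) (hg : Continuous g) (hh : Continuous h)
    (hk : Continuous k) : Continuous (fun p => D.B (f p) (g p) (h p) (k p)) := by
  unfold B
  refine continuous_finsetSum _ fun a _ => continuous_finsetSum _ fun b _ =>
    continuous_finsetSum _ fun c _ => continuous_finsetSum _ fun d _ => ?_
  exact (((continuous_const.mul ((continuous_apply a).comp hf)).mul
    ((continuous_apply b).comp hg)).mul ((continuous_apply c).comp hh)).mul
    ((continuous_apply d).comp hk)

/-- PIECE [DRA].  Continuity of `gam` and friends (for the genericity argument). -/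
theorem continuous_gam (D : Dat m ℂ) (w : Vec m ℂ) :
    Continuous (fun p : Vec m ℂ × Vec m ℂ × Vec m ℂ => D.gam w p.1 p.2.1 p.2.2) := by
  have hrow : Continuous (fun p : Vec m ℂ × Vec m ℂ × Vec m ℂ => D.row p.2.1) :=
    D.dra_continuous_row.comp (continuous_fst.comp continuous_snd)
  have hrow' : Continuous (fun p : Vec m ℂ × Vec m ℂ × Vec m ℂ => D.row p.2.2) :=
    D.dra_continuous_row.comp (continuous_snd.comp continuous_snd)
  have hpv : Continuous (fun p : Vec m ℂ × Vec m ℂ × Vec m ℂ => pv (D.row p.2.1) w) :=
    continuous_pi fun j => (dra_continuous_plu w (Pi.single j 1)).comp hrow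
  have hdpv : Continuous (fun p : Vec m ℂ × Vec m ℂ × Vec m ℂ => D.dpv w p.2.1 p.2.2) := by
    refine continuous_pi fun j => ?_
    refine continuous_finsetSum _ fun i _ => ?_
    exact (dra_continuous_plu w (Pi.single j 1)).comp
      (hrow.update i ((continuous_apply i).comp hrow'))
  unfold gam
  exact (continuous_const.mul (D.dra_continuous_B continuous_fst hpv
    (continuous_fst.comp continuous_snd) (continuous_snd.comp continuous_snd))).add
    (D.dra_continuous_B continuous_fst hdpv (continuous_fst.comp continuous_snd)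
      (continuous_fst.comp continuous_snd))

end Dat

end Pool.Agent.MP_1209e6_cy
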