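import Mathlib

set_option autoImplicit false

open Polynomial

namespace Pool.Agent.CYDelta

variable {O : Type} [CommRing O] [Algebra ℂ O]

/-- the derivation `δ` applied to the coefficients of a polynomial -/
noncomputable def cder (δ : Derivation ℂ O O) : Derivation ℂ O[X] O[X] :=
  PolynomialModule.equivPolynomialSelf.compDer δ.mapCoeffs

theorem coeff_cder (δ : Derivation ℂ O O) (p : O[X]) (i : ℕ) :
    (cder δ p).coeff i = δ (p.coeff i) := rfl

theorem cder_C (δ : Derivation ℂ O O) (a : O) : cder δ (C a) = C (δ a) := by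
  ext i
  rw [coeff_cder, coeff_C, coeff_C]
  split_ifs
  · rfl
  · exact map_zero δ

theorem cder_X (δ : Derivation ℂ O O) : cder δ (X : O[X]) = 0 := by
  ext i
  rw [coeff_cder, coeff_X, coeff_zero]
  split_ifs
  · exact δ.map_one_eq_zero
  · exact map_zero δ

theorem natDegree_cder_le (δ : Derivation ℂ O O) (p : O[X]) {d : ℕ} (h : p.natDegree ≤ d) :
    (cder δ p).natDegree ≤ d := by
  rw [natDegree_le_iff_coeff_eq_zero]
  intro N hN
  rw [coeff_cder, coeff_eq_zero_of_natDegree_lt (h.trans_lt hN), map_zero]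

/-- chain rule for a derivation and a polynomial in several variables -/
theorem der_aeval {S ι : Type} [Fintype ι] [CommRing S] [Algebra ℂ S] (D : Derivation ℂ S S)
    (g : ι → S) (f : MvPolynomial ι ℂ) :
    D (MvPolynomial.aeval g f) =
      ∑ j, MvPolynomial.aeval g (MvPolynomial.pderiv j f) * D (g j) := by
  classical
  induction f using MvPolynomial.induction_on with
  | C a => simp
  | add p q hp hq =>
    rw [map_add, map_add, hp, hq, ← Finset.sum_add_distrib]
    refine Finset.sum_congr rfl fun j _ => ?_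
    rw [map_add, map_add, add_mul]
  | mul_X p i hp =>
    rw [map_mul, MvPolynomial.aeval_X, Derivation.leibniz, hp]
    have h1 : ∀ j, MvPolynomial.aeval g (MvPolynomial.pderiv j (p * MvPolynomial.X i)) * D (g j) =
        MvPolynomial.aeval g (MvPolynomial.pderiv j p) * D (g j) * g i +
          (if i = j then MvPolynomial.aeval g p * D (g j) else 0) := by
      intro j
      rw [Derivation.leibniz, MvPolynomial.pderiv_X, map_add, smul_eq_mul, smul_eq_mul, map_mul,
        map_mul, MvPolynomial.aeval_X]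
      by_cases h : i = j
      · subst h
        simp
        ring
      · have h2 : (Pi.single j (1 : MvPolynomial ι ℂ) : ι → MvPolynomial ι ℂ) i = 0 := by
          rw [Pi.single_eq_of_ne h]
        rw [h2, if_neg h]
        simp
        ring
    rw [Finset.sum_congr rfl fun j _ => h1 j, Finset.sum_add_distrib, Finset.sum_ite_eq,
      if_pos (Finset.mem_univ _), ← Finset.sum_mul, smul_eq_mul, smul_eq_mul]
    ring

/-- the point `x + (T - x_i) v` of the line -/
noncomputable def linePt {n : ℕ} (i : Fin n) (x v : Fin n → O) (j : Fin n) : O[X] :=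
  C (x j) + (X - C (x i)) * C (v j)

/-- differentiating the identity `f (x + (T - x_i) v) = G ^ 2 Q` along `δ x = v` -/
theorem delta_eq {n : ℕ} (δ : Derivation ℂ O O) (i : Fin n) (x v : Fin n → O)
    (hx : ∀ j, δ (x j) = v j) (hv : v i = 1) (f : MvPolynomial (Fin n) ℂ) (G Q : O[X])
    (h : MvPolynomial.aeval (linePt i x v) f = G ^ 2 * Q) :
    (X - C (x i)) * ∑ j, MvPolynomial.aeval (linePt i x v) (MvPolynomial.pderiv j f) *
      C (δ (v j)) - 2 * G * Q * cder δ G - G ^ 2 * cder δ Q = 0 := by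
  have h1 := congrArg (cder δ) h
  have hpt : ∀ j, cder δ (linePt i x v j) = (X - C (x i)) * C (δ (v j)) := by
    intro j
    unfold linePt
    rw [map_add, Derivation.leibniz, map_sub, cder_C, cder_C, cder_C, cder_X, hx, hx, hv]
    simp only [smul_eq_mul, map_one]
    ring
  rw [der_aeval] at h1
  simp only [hpt] at h1
  rw [Derivation.leibniz, Derivation.leibniz_pow] at h1
  simp only [smul_eq_mul, nsmul_eq_mul] at h1
  have h2 : (X - C (x i)) * ∑ j, MvPolynomial.aeval (linePt i x v) (MvPolynomial.pderiv j f) *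
      C (δ (v j)) = ∑ j, MvPolynomial.aeval (linePt i x v) (MvPolynomial.pderiv j f) *
      ((X - C (x i)) * C (δ (v j))) := by
    rw [Finset.mul_sum]
    exact Finset.sum_congr rfl fun j _ => by ring
  rw [h2, h1]
  push_cast
  ring

/-- `δ` kills the unknowns `v, G, Q` of a nondegenerate solution -/
theorem delta_kills {n : ℕ} (δ : Derivation ℂ O O) (i : Fin n) (x v : Fin n → O)
    (hx : ∀ j, δ (x j) = v j) (hv : v i = 1) (f : MvPolynomial (Fin n) ℂ) (G Q : O[X])
    (h : MvPolynomial.aeval (linePt i x v) f = G ^ 2 * Q)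
    {d e : ℕ} (hG : G.natDegree ≤ d) (hG0 : G.coeff 0 = 1) (hQ : Q.natDegree ≤ e)
    (hinj : ∀ (η : Fin n → O) (γ κ : O[X]), η i = 0 → γ.coeff 0 = 0 → γ.natDegree ≤ d →
      κ.natDegree ≤ e →
      (X - C (x i)) * ∑ j, MvPolynomial.aeval (linePt i x v) (MvPolynomial.pderiv j f) * C (η j)
        - 2 * G * Q * γ - G ^ 2 * κ = 0 → η = 0 ∧ γ = 0 ∧ κ = 0) :
    (∀ j, δ (v j) = 0) ∧ (∀ m, δ (G.coeff m) = 0) ∧ ∀ m, δ (Q.coeff m) = 0 := by
  obtain ⟨h1, h2, h3⟩ := hinj (fun j => δ (v j)) (cder δ G) (cder δ Q)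
    (by show δ (v i) = 0; rw [hv]; exact δ.map_one_eq_zero)
    (by rw [coeff_cder, hG0]; exact δ.map_one_eq_zero)
    (natDegree_cder_le δ G hG) (natDegree_cder_le δ Q hQ)
    (delta_eq δ i x v hx hv f G Q h)
  refine ⟨fun j => congrFun h1 j, fun m => ?_, fun m => ?_⟩
  · rw [← coeff_cder, h2, coeff_zero]
  · rw [← coeff_cder, h3, coeff_zero]

end Pool.Agent.CYDelta
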