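import Pool.Agent.Lib_MP_1209e6_cy.Extend

/-!
Generic solvability of a square polynomial system with a nondegenerate solution
(parameters `σ`, unknowns `ι`, `k` of characteristic `0`).
-/

set_option autoImplicit false

namespace Pool.Agent.CalabiYauN

open MvPolynomial

section inj

variable {k σ ι : Type*} [Field k] [CharZero k] [Fintype ι] [DecidableEq ι]

/-- the Jacobian matrix in the unknowns -/
noncomputable def jac20 (P : ι → MvPolynomial (σ ⊕ ι) k) :
    Matrix ι ι (MvPolynomial (σ ⊕ ι) k) :=
  Matrix.of fun i j => pderiv (Sum.inr j) (P i)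

/-- the derivation which extends `∂ / ∂ s` and kills the equations -/
noncomputable def lift20 (P : ι → MvPolynomial (σ ⊕ ι) k) (s : σ) :
    Derivation k (MvPolynomial (σ ⊕ ι) k) (MvPolynomial (σ ⊕ ι) k) :=
  (jac20 P).det • pderiv (Sum.inl s) -
    ∑ j, ((jac20 P).adjugate.mulVec fun l => pderiv (Sum.inl s) (P l)) j • pderiv (Sum.inr j)

theorem lift20_apply (P : ι → MvPolynomial (σ ⊕ ι) k) (s : σ) (f : MvPolynomial (σ ⊕ ι) k) :
    lift20 P s f = (jac20 P).det * pderiv (Sum.inl s) f -
      ∑ j, ((jac20 P).adjugate.mulVec fun l => pderiv (Sum.inl s) (P l)) j *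
        pderiv (Sum.inr j) f := by
  have hs : ∀ (t : Finset ι)
      (D : ι → Derivation k (MvPolynomial (σ ⊕ ι) k) (MvPolynomial (σ ⊕ ι) k)),
      (∑ j ∈ t, D j) f = ∑ j ∈ t, D j f := by
    classical
    intro t D
    induction t using Finset.induction_on with
    | empty => simp
    | insert a t ha ih => rw [Finset.sum_insert ha, Finset.sum_insert ha, Derivation.add_apply, ih]
  unfold lift20
  rw [Derivation.sub_apply, Derivation.smul_apply, smul_eq_mul, hs]
  simp only [Derivation.smul_apply, smul_eq_mul]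

theorem lift20_eq (P : ι → MvPolynomial (σ ⊕ ι) k) (s : σ) (i : ι) :
    lift20 P s (P i) = 0 := by
  rw [lift20_apply]
  have h : ∑ j, ((jac20 P).adjugate.mulVec fun l => pderiv (Sum.inl s) (P l)) j *
      pderiv (Sum.inr j) (P i) = (jac20 P).mulVec ((jac20 P).adjugate.mulVec
        fun l => pderiv (Sum.inl s) (P l)) i := by
    simp only [Matrix.mulVec, dotProduct, jac20, Matrix.of_apply]
    exact Finset.sum_congr rfl fun j _ => mul_comm _ _
  rw [h, Matrix.mulVec_mulVec, Matrix.mul_adjugate, Matrix.smul_mulVec, Matrix.one_mulVec]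
  simp

theorem lift20_rename (P : ι → MvPolynomial (σ ⊕ ι) k) (s : σ) (h : MvPolynomial σ k) :
    lift20 P s (rename Sum.inl h) = (jac20 P).det * rename Sum.inl (pderiv s h) := by
  rw [lift20_apply, pderiv_rename Sum.inl_injective]
  have h0 : ∀ j : ι, pderiv (Sum.inr j) (rename (Sum.inl : σ → σ ⊕ ι) h) = 0 := by
    intro j
    induction h using MvPolynomial.induction_on with
    | C a => simp
    | add p q hp hq => rw [map_add, map_add, hp, hq, add_zero]
    | mul_X p i hp =>
      rw [map_mul, rename_X, Derivation.leibniz, hp, pderiv_X_of_ne (by simp)]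
      simp
  simp [h0]

theorem lift20_mem (P : ι → MvPolynomial (σ ⊕ ι) k) (s : σ) {f : MvPolynomial (σ ⊕ ι) k}
    (hf : f ∈ Ideal.span (Set.range P)) : lift20 P s f ∈ Ideal.span (Set.range P) := by
  refine Submodule.span_induction ?_ ?_ ?_ ?_ hf
  · rintro _ ⟨i, rfl⟩
    rw [lift20_eq]
    exact Ideal.zero_mem _
  · rw [map_zero]
    exact Ideal.zero_mem _
  · intro x y _ _ hx hy
    rw [map_add]
    exact Ideal.add_mem _ hx hy
  · intro a x hx hx'
    rw [smul_eq_mul, Derivation.leibniz, smul_eq_mul, smul_eq_mul]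
    exact Ideal.add_mem _ (Ideal.mul_mem_left _ _ hx') (Ideal.mul_mem_right _ _ hx)

/-- closed under all derivatives and vanishing at a point: zero -/
theorem eq_zero_of_closed20 (S : Set (MvPolynomial σ k)) (hd : ∀ h ∈ S, ∀ s, pderiv s h ∈ S)
    (a : σ → k) (ha : ∀ h ∈ S, eval a h = 0) : ∀ (n : ℕ) (h : MvPolynomial σ k), h ∈ S →
      h.totalDegree ≤ n → h = 0 := by
  classical
  intro n
  induction n with
  | zero =>
    intro h hh hn
    have h1 : h = C (coeff 0 h) := (totalDegree_eq_zero_iff_eq_C).1 (Nat.le_zero.1 hn)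
    have h2 := ha h hh
    rw [h1, eval_C] at h2
    rw [h1, h2, map_zero]
  | succ n ih =>
    intro h hh hn
    have h1 : ∀ s, pderiv s h = 0 := by
      intro s
      refine ih _ (hd h hh s) ?_
      unfold totalDegree
      refine Finset.sup_le fun m hm => ?_
      rw [mem_support_iff, coeff_pderiv] at hm
      have hm' : m + Finsupp.single s 1 ∈ h.support := by
        rw [mem_support_iff]
        exact left_ne_zero_of_mul hm
      have h3 := (le_totalDegree hm').trans hn
      rw [Finsupp.sum_add_index' (fun _ => rfl) (fun _ _ _ => rfl)] at h3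
      simp only [Finsupp.sum_single_index] at h3
      omega
    by_contra hne
    have hsup : ∀ m ∈ h.support, m = 0 := by
      intro m hm
      by_contra hm0
      obtain ⟨s, hs⟩ : ∃ s, m s ≠ 0 := by
        by_contra hcon
        push Not at hcon
        exact hm0 (Finsupp.ext hcon)
      have h2 : coeff (m - Finsupp.single s 1) (pderiv s h) = 0 := by rw [h1 s, coeff_zero]
      have h4 : m - Finsupp.single s 1 + Finsupp.single s 1 = m := by
        apply tsub_add_cancel_of_le
        rw [Finsupp.single_le_iff]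
        omega
      rw [coeff_pderiv, h4] at h2
      rcases mul_eq_zero.1 h2 with h5 | h5
      · exact (mem_support_iff.1 hm) h5
      · generalize (m - Finsupp.single s 1 : σ →₀ ℕ) s = u at h5
        have h6 : ((u + 1 : ℕ) : k) = 0 := by push_cast; exact h5
        exact Nat.succ_ne_zero _ (Nat.cast_eq_zero.1 h6)
    have h7 : h = C (coeff 0 h) := by
      ext m
      rw [coeff_C]
      split_ifs with h8
      · rw [h8]
      · by_contra h9
        exact h8 (hsup m (mem_support_iff.2 h9)).symm
    have h2 := ha h hh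
    rw [h7, eval_C] at h2
    rw [h2, map_zero] at h7
    exact hne h7

/-- the parameters are algebraically independent modulo the equations, at a nondegenerate point -/
theorem param_inj20 (P : ι → MvPolynomial (σ ⊕ ι) k) (g : MvPolynomial (σ ⊕ ι) k)
    (a : σ → k) (y : ι → k) (h0 : ∀ i, eval (Sum.elim a y) (P i) = 0)
    (hJ : eval (Sum.elim a y) (jac20 P).det ≠ 0) (hg : eval (Sum.elim a y) g ≠ 0)
    (h : MvPolynomial σ k) (N : ℕ)
    (hh : ((jac20 P).det * g) ^ N * rename Sum.inl h ∈ Ideal.span (Set.range P)) : h = 0 := by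
  have hev : ∀ f ∈ Ideal.span (Set.range P), eval (Sum.elim a y) f = 0 := by
    intro f hf
    have h1 : Ideal.span (Set.range P) ≤ RingHom.ker (eval (Sum.elim a y)) := by
      rw [Ideal.span_le]
      rintro _ ⟨i, rfl⟩
      exact h0 i
    exact h1 hf
  refine eq_zero_of_closed20 {h | ∃ N, ((jac20 P).det * g) ^ N * rename Sum.inl h ∈
    Ideal.span (Set.range P)} ?_ a ?_ _ h ⟨N, hh⟩ le_rfl
  · rintro h ⟨N, hN⟩ s
    refine ⟨N + 2, ?_⟩
    have h1 := lift20_mem P s hN
    rw [Derivation.leibniz, lift20_rename, smul_eq_mul, smul_eq_mul, Derivation.leibniz_pow] at h1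
    have h2 := Ideal.mul_mem_left _ (((jac20 P).det * g) * g) h1
    rw [mul_add] at h2
    have h3 : (jac20 P).det * g * g * (rename Sum.inl h * (N • ((jac20 P).det * g) ^ (N - 1) •
        lift20 P s ((jac20 P).det * g))) ∈ Ideal.span (Set.range P) := by
      rcases N with _ | N
      · simp
      · have h4 : (jac20 P).det * g * g * (rename Sum.inl h * ((N + 1) • ((jac20 P).det * g) ^
            (N + 1 - 1) • lift20 P s ((jac20 P).det * g))) =
            (((jac20 P).det * g) ^ (N + 1) * rename Sum.inl h) *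
              (g * ((N + 1 : ℕ) : MvPolynomial (σ ⊕ ι) k) * lift20 P s ((jac20 P).det * g)) := by
          simp only [Nat.add_sub_cancel, smul_eq_mul, nsmul_eq_mul]
          push_cast
          ring
        rw [h4]
        exact Ideal.mul_mem_right _ _ hN
    have h5 := (Ideal.add_mem_iff_left _ h3).1 h2
    convert h5 using 1
    ring
  · rintro h ⟨N, hN⟩
    have h1 := hev _ hN
    rw [map_mul, map_pow, map_mul, eval_rename] at h1
    have h2 : (Sum.elim a y ∘ Sum.inl : σ → k) = a := by ext; rfl
    rw [h2] at h1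
    exact (mul_eq_zero.1 h1).resolve_left (pow_ne_zero _ (mul_ne_zero hJ hg))

end inj

/-- **Generic solvability**: a square system of polynomial equations over a field of characteristic
zero with a nondegenerate solution over one point of the parameter space has a nondegenerate
solution over the general point of the parameter space, with values in any algebraically closed
field. -/
theorem generic_solutions {k σ ι : Type} [Field k] [CharZero k] [Finite σ] [Fintype ι]
    [DecidableEq ι] (P : ι → MvPolynomial (σ ⊕ ι) k) (g : MvPolynomial (σ ⊕ ι) k)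
    (a : σ → k) (y : ι → k) (h0 : ∀ i, eval (Sum.elim a y) (P i) = 0)
    (hJ : eval (Sum.elim a y) (jac20 P).det ≠ 0) (hg : eval (Sum.elim a y) g ≠ 0) :
    ∃ s : MvPolynomial σ k, s ≠ 0 ∧ ∀ (Ω : Type) [Field Ω] [IsAlgClosed Ω] (φ : k →+* Ω)
      (b : σ → Ω), eval₂ φ b s ≠ 0 → ∃ z : ι → Ω, (∀ i, eval₂ φ (Sum.elim b z) (P i) = 0) ∧
        eval₂ φ (Sum.elim b z) (jac20 P).det ≠ 0 ∧ eval₂ φ (Sum.elim b z) g ≠ 0 := by
  classical
  set I := Ideal.span (Set.range P) with hI
  let G : MvPolynomial (σ ⊕ ι) k ⧸ I := Ideal.Quotient.mk I ((jac20 P).det * g)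
  let B := Localization.Away G
  let f : MvPolynomial σ k →+* B := (algebraMap (MvPolynomial (σ ⊕ ι) k ⧸ I) B).comp
    ((Ideal.Quotient.mk I).comp (rename (R := k) (Sum.inl : σ → σ ⊕ ι)).toRingHom)
  let _ : Algebra (MvPolynomial σ k) B := f.toAlgebra
  have hf : ∀ x, algebraMap (MvPolynomial σ k) B x = algebraMap _ B
    (Ideal.Quotient.mk I (rename Sum.inl x)) := fun x => rfl
  have hinj : Function.Injective (algebraMap (MvPolynomial σ k) B) := by
    rw [injective_iff_map_eq_zero]
    intro h hh
    rw [hf, IsLocalization.map_eq_zero_iff (Submonoid.powers G)] at hh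
    obtain ⟨⟨m, N, hN⟩, hm⟩ := hh
    refine param_inj20 P g a y h0 hJ hg h N ?_
    rw [← Ideal.Quotient.eq_zero_iff_mem, map_mul, map_pow]
    have hN' : G ^ N = m := hN
    change G ^ N * _ = 0
    rw [hN']
    exact hm
  have _ : IsScalarTower k (MvPolynomial σ k) B := by
    refine IsScalarTower.of_algebraMap_eq fun x => ?_
    rw [hf, algebraMap_eq, rename_C]
    rfl
  have _ : Algebra.FinitePresentation k (MvPolynomial (σ ⊕ ι) k ⧸ I) :=
    Algebra.FinitePresentation.quotient ⟨Set.toFinset (Set.range P) , by simp [hI]⟩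
  have _ : Algebra.FinitePresentation (MvPolynomial (σ ⊕ ι) k ⧸ I) B :=
    IsLocalization.Away.finitePresentation G
  have _ : Algebra.FinitePresentation k B :=
    Algebra.FinitePresentation.trans k (MvPolynomial (σ ⊕ ι) k ⧸ I) B
  have _ : Algebra.FinitePresentation (MvPolynomial σ k) B :=
    Algebra.FinitePresentation.of_restrict_scalars_finitePresentation k (MvPolynomial σ k) B
  obtain ⟨s, hs, H⟩ := extend_hom (A := MvPolynomial σ k) (B := B) hinj
  refine ⟨s, hs, fun Ω _ _ φ b hb => ?_⟩
  obtain ⟨ψ, hψ⟩ := H Ω (eval₂Hom φ b) hb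
  let ψ' : MvPolynomial (σ ⊕ ι) k →+* Ω := ψ.comp ((algebraMap _ B).comp (Ideal.Quotient.mk I))
  have hψ' : ψ' = eval₂Hom φ (Sum.elim b fun j => ψ' (X (Sum.inr j))) := by
    apply MvPolynomial.ringHom_ext
    · intro r
      have h1 : ψ' (C r) = ψ (algebraMap (MvPolynomial σ k) B (C r)) := by
        rw [hf, rename_C]; rfl
      have h2 := congrArg (fun θ : MvPolynomial σ k →+* Ω => θ (C r)) hψ
      simp only [RingHom.comp_apply, coe_eval₂Hom, eval₂_C] at h2
      rw [h1, h2]
      simp
    · rintro (s | j)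
      · have h1 : ψ' (X (Sum.inl s)) = ψ (algebraMap (MvPolynomial σ k) B (X s)) := by
          rw [hf, rename_X]; rfl
        have h2 := congrArg (fun θ : MvPolynomial σ k →+* Ω => θ (X s)) hψ
        simp only [RingHom.comp_apply, coe_eval₂Hom, eval₂_X] at h2
        rw [h1, h2]
        simp
      · simp
  have hP : ∀ i, ψ' (P i) = 0 := by
    intro i
    have h1 : Ideal.Quotient.mk I (P i) = 0 :=
      Ideal.Quotient.eq_zero_iff_mem.2 (Ideal.subset_span ⟨i, rfl⟩)
    change ψ (algebraMap _ B (Ideal.Quotient.mk I (P i))) = 0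
    rw [h1, map_zero, map_zero]
  have hG : ψ' ((jac20 P).det * g) ≠ 0 := by
    have h1 : IsUnit (algebraMap _ B G) := IsLocalization.Away.algebraMap_isUnit G
    exact (h1.map ψ).ne_zero
  rw [map_mul] at hG
  have key : ∀ q, ψ' q = eval₂ φ (Sum.elim b fun j => ψ' (X (Sum.inr j))) q := by
    intro q
    conv_lhs => rw [hψ']
    rfl
  refine ⟨fun j => ψ' (X (Sum.inr j)), fun i => by rw [← key]; exact hP i, ?_, ?_⟩
  · rw [← key]; exact left_ne_zero_of_mul hG
  · rw [← key]; exact right_ne_zero_of_mul hG

end Pool.Agent.CalabiYauN
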