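import Pool.Agent.Lib_MP_1209e6_cy.ExDef

/-!
PIECE [XCA] (MP_1209e6_ag).  Points with at least three points over them, case by case.
-/

open Matrix

namespace Pool.Agent.MP_1209e6_cy

/-- there are at least three points over `x` -/
def Three (β : Fin 4 → Fin 4 → ℂ) (x : Vec 2 ℂ) : Prop :=
  ∃ y₁ y₂ y₃ : Vec 2 ℂ, (dg β).In x y₁ ∧ (dg β).In x y₂ ∧ (dg β).In x y₃ ∧
    Indep y₁ y₂ ∧ Indep y₁ y₃ ∧ Indep y₂ y₃

/-- `B_l(X) = ∑_j β_jl X_j`, `X_j = x_j^2` -/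
def Bl (β : Fin 4 → Fin 4 → ℂ) (x : Vec 2 ℂ) (l : Fin 4) : ℂ := ∑ j, β j l * x j ^ 2

/-- the numbers `-1, 3, -3, 1` (third divided difference, up to a factor) -/
def dd : Fin 4 → ℂ := ![-1, 3, -3, 1]

/-- A binary quadratic form with three pairwise independent zeros vanishes. -/
theorem quadratic_zero {g₀ g₁ g₂ : ℂ} (a b : Fin 3 → ℂ) (h : ∀ i, g₀ * a i ^ 2 + 2 * g₁ * a i * b i + g₂ * b i ^ 2 = 0)
    (h01 : a 0 * b 1 ≠ a 1 * b 0) (h02 : a 0 * b 2 ≠ a 2 * b 0) (h12 : a 1 * b 2 ≠ a 2 * b 1) :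
    g₀ = 0 ∧ g₁ = 0 ∧ g₂ = 0 := by
  have e0 := h 0
  have e1 := h 1
  have e2 := h 2
  have d01 : a 0 * b 1 - a 1 * b 0 ≠ 0 := sub_ne_zero.2 h01
  have d02 : a 0 * b 2 - a 2 * b 0 ≠ 0 := sub_ne_zero.2 h02
  have d12 : a 1 * b 2 - a 2 * b 1 ≠ 0 := sub_ne_zero.2 h12
  have hD : (a 0 * b 1 - a 1 * b 0) * (a 0 * b 2 - a 2 * b 0) * (a 1 * b 2 - a 2 * b 1) ≠ 0 :=
    mul_ne_zero (mul_ne_zero d01 d02) d12
  refine ⟨?_, ?_, ?_⟩
  · refine (mul_eq_zero.1 ?_).resolve_left hD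
    linear_combination (b 1 * b 2 * (a 1 * b 2 - a 2 * b 1)) * e0 -
      (b 0 * b 2 * (a 0 * b 2 - a 2 * b 0)) * e1 + (b 0 * b 1 * (a 0 * b 1 - a 1 * b 0)) * e2
  · refine (mul_eq_zero.1 ?_).resolve_left (mul_ne_zero (two_ne_zero (α := ℂ)) hD)
    linear_combination (-(a 1 * b 2 - a 2 * b 1) * (a 1 * b 2 + a 2 * b 1)) * e0 +
      ((a 0 * b 2 - a 2 * b 0) * (a 0 * b 2 + a 2 * b 0)) * e1 -
      ((a 0 * b 1 - a 1 * b 0) * (a 0 * b 1 + a 1 * b 0)) * e2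
  · refine (mul_eq_zero.1 ?_).resolve_left hD
    linear_combination (a 1 * a 2 * (a 1 * b 2 - a 2 * b 1)) * e0 -
      (a 0 * a 2 * (a 0 * b 2 - a 2 * b 0)) * e1 + (a 0 * a 1 * (a 0 * b 1 - a 1 * b 0)) * e2

/-- independence of two points over `x` in terms of the progressions -/
theorem indep_prog {x y y' : Vec 2 ℂ} (hx : ∀ j, x j ≠ 0) {a b a' b' : ℂ}
    (hy : ∀ j, x j * y j = a + b * ss j) (hy' : ∀ j, x j * y' j = a' + b' * ss j)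
    (hi : Indep y y') : a * b' ≠ a' * b := by
  intro he
  obtain ⟨i, j, hij⟩ := hi
  apply hij
  have h1 : x i * x j * (y i * y' j) = x i * x j * (y j * y' i) := by
    linear_combination (x j * y' j) * hy i + (a + b * ss i) * hy' j - (x i * y' i) * hy j -
      (a + b * ss j) * hy' i + (ss j - ss i) * he
  exact mul_left_cancel₀ (mul_ne_zero (hx i) (hx j)) h1

/-- the quadratic equation for the progression -/
theorem quad_prog (β : Fin 4 → Fin 4 → ℂ) {x y : Vec 2 ℂ} (hx : ∀ j, x j ≠ 0) {a b : ℂ}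
    (hy : ∀ j, x j * y j = a + b * ss j) (hB : (dg β).B x x y y = 0) :
    (∑ l, Bl β x l / x l ^ 2) * a ^ 2 + 2 * (∑ l, Bl β x l / x l ^ 2 * ss l) * a * b +
      (∑ l, Bl β x l / x l ^ 2 * ss l ^ 2) * b ^ 2 = 0 := by
  rw [dg_B] at hB
  have h1 : (∑ j, ∑ l, β j l * x j * x j * y l * y l) = ∑ l, Bl β x l / x l ^ 2 * (a + b * ss l) ^ 2 := by
    rw [Finset.sum_comm]
    refine Finset.sum_congr rfl fun l _ => ?_
    rw [← hy l]
    have h2 : Bl β x l / x l ^ 2 * (x l * y l) ^ 2 = Bl β x l * y l ^ 2 := by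
      have := hx l
      field_simp
    rw [h2]
    unfold Bl
    rw [Finset.sum_mul]
    refine Finset.sum_congr rfl fun j _ => ?_
    ring
  rw [← hB, h1]
  simp only [Fin.sum_univ_four]
  ring

/-- Case 0: all coordinates of `x` are nonzero.

Proof.  `y_j = (a + b s_j) / x_j` (`dg_A_iff`) and `B(x, x, y, y) = ∑_l B_l y_l^2 = ∑_l (B_l / X_l) (a + b s_l)^2`, a
binary quadratic form in `(a, b)` with three pairwise independent zeros; so `φ_l = B_l / X_l` satisfies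
`∑ φ_l = ∑ φ_l s_l = ∑ φ_l s_l^2 = 0`; for `s = (-3, -1, 1, 3)` the solutions are the multiples of `(-1, 3, -3, 1)`. -/
theorem three_case0 (β : Fin 4 → Fin 4 → ℂ) {x : Vec 2 ℂ} (h : Three β x) (hx : ∀ j, x j ≠ 0) :
    ∃ ζ : ℂ, ∀ l, Bl β x l = ζ * dd l * x l ^ 2 := by
  obtain ⟨y₁, y₂, y₃, ⟨hA1, hB1⟩, ⟨hA2, hB2⟩, ⟨hA3, hB3⟩, h12, h13, h23⟩ := h
  obtain ⟨a1, b1, hy1⟩ := (dg_A_iff β x y₁).1 hA1
  obtain ⟨a2, b2, hy2⟩ := (dg_A_iff β x y₂).1 hA2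
  obtain ⟨a3, b3, hy3⟩ := (dg_A_iff β x y₃).1 hA3
  have q1 := quad_prog β hx hy1 hB1
  have q2 := quad_prog β hx hy2 hB2
  have q3 := quad_prog β hx hy3 hB3
  have i12 := indep_prog hx hy1 hy2 h12
  have i13 := indep_prog hx hy1 hy3 h13
  have i23 := indep_prog hx hy2 hy3 h23
  obtain ⟨g0, g1, g2⟩ := quadratic_zero (g₀ := ∑ l, Bl β x l / x l ^ 2)
    (g₁ := ∑ l, Bl β x l / x l ^ 2 * ss l) (g₂ := ∑ l, Bl β x l / x l ^ 2 * ss l ^ 2)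
    ![a1, a2, a3] ![b1, b2, b3] (by
      intro i
      fin_cases i
      · exact q1
      · exact q2
      · exact q3) i12 i13 i23
  simp only [Fin.sum_univ_four, ss0, ss1, ss2, ss3] at g0 g1 g2
  set f0 := Bl β x 0 / x 0 ^ 2 with hf0
  set f1 := Bl β x 1 / x 1 ^ 2 with hf1
  set f2 := Bl β x 2 / x 2 ^ 2 with hf2
  set f3 := Bl β x 3 / x 3 ^ 2 with hf3
  have k0 : Bl β x 0 = f0 * x 0 ^ 2 := by
    rw [hf0, div_mul_cancel₀ _ (pow_ne_zero 2 (hx 0))]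
  have k1 : Bl β x 1 = f1 * x 1 ^ 2 := by
    rw [hf1, div_mul_cancel₀ _ (pow_ne_zero 2 (hx 1))]
  have k2 : Bl β x 2 = f2 * x 2 ^ 2 := by
    rw [hf2, div_mul_cancel₀ _ (pow_ne_zero 2 (hx 2))]
  have k3 : Bl β x 3 = f3 * x 3 ^ 2 := by
    rw [hf3, div_mul_cancel₀ _ (pow_ne_zero 2 (hx 3))]
  have e3 : f3 = -f0 := by linear_combination (g2 - g0) / 8
  have e1 : f1 = -3 * f0 := by linear_combination (-1/2 : ℂ) * g1 + (1/8 : ℂ) * (g2 - g0) + (1/2 : ℂ) * g0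
  have e2 : f2 = 3 * f0 := by linear_combination (1/2 : ℂ) * g1 - (1/4 : ℂ) * (g2 - g0) + (1/2 : ℂ) * g0
  refine ⟨-f0, fun l => ?_⟩
  fin_cases l
  · show Bl β x 0 = -f0 * (-1) * x 0 ^ 2
    rw [k0]; ring
  · show Bl β x 1 = -f0 * 3 * x 1 ^ 2
    rw [k1, e1]; ring
  · show Bl β x 2 = -f0 * (-3) * x 2 ^ 2
    rw [k2, e2]; ring
  · show Bl β x 3 = -f0 * 1 * x 3 ^ 2
    rw [k3, e3]; ring

end Pool.Agent.MP_1209e6_cy
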