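import Pool.Agent.Lib_MP_1209e6_cy.ExCases

/-!
PIECE [XCB] (MP_1209e6_ag).  Points with at least three points over them: one or two vanishing coordinates.
-/

open Matrix

namespace Pool.Agent.MP_1209e6_cy

private theorem xcb_eq {β : Fin 4 → Fin 4 → ℂ} {x y : Vec 2 ℂ} (h : (dg β).In x y) :
    ∑ l, Bl β x l * y l ^ 2 = 0 := by
  have h1 := h.2
  rw [dg_B, Finset.sum_comm] at h1
  rw [← h1]
  refine Finset.sum_congr rfl fun l _ => ?_
  unfold Bl
  rw [Finset.sum_mul]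
  exact Finset.sum_congr rfl fun j _ => by ring

private theorem xcb_one {β : Fin 4 → Fin 4 → ℂ} {x y : Vec 2 ℂ} (h : (dg β).In x y) {j : Fin 4}
    (hj : x j = 0) (hx : ∀ l, l ≠ j → x l ≠ 0) :
    ∃ b : ℂ, (∀ l, x l * y l = b * (ss l - ss j)) ∧ Bl β x j * y j ^ 2 + 2 * 0 * y j * b +
      (∑ l ∈ Finset.univ.erase j, (ss l - ss j) ^ 2 * Bl β x l / x l ^ 2) * b ^ 2 = 0 := by
  obtain ⟨a, b, hab⟩ := (dg_A_iff β x y).1 h.1
  have h0 := hab j
  rw [hj, zero_mul] at h0
  have h1 : ∀ l, x l * y l = b * (ss l - ss j) := fun l => by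
    rw [hab l]
    linear_combination -h0
  refine ⟨b, h1, ?_⟩
  have h2 := xcb_eq h
  rw [← Finset.add_sum_erase _ _ (Finset.mem_univ j)] at h2
  rw [Finset.sum_mul, mul_zero, zero_mul, zero_mul, add_zero, ← h2]
  congr 1
  refine Finset.sum_congr rfl fun l hl => ?_
  have h3 := hx l (Finset.ne_of_mem_erase hl)
  have h4 : y l = b * (ss l - ss j) / x l := by
    rw [eq_div_iff h3, mul_comm]
    exact h1 l
  rw [h4]
  field_simp

private theorem xcb_indep_one {x y y' : Vec 2 ℂ} {j : Fin 4} (hx : ∀ l, l ≠ j → x l ≠ 0) {b b' : ℂ}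
    (h : ∀ l, x l * y l = b * (ss l - ss j)) (h' : ∀ l, x l * y' l = b' * (ss l - ss j))
    (hi : Indep y y') : y j * b' ≠ y' j * b := by
  intro he
  obtain ⟨p, q, hpq⟩ := hi
  apply hpq
  have key : ∀ q, q ≠ j → y j * y' q = y q * y' j := by
    intro q hq
    refine mul_left_cancel₀ (hx q hq) ?_
    calc x q * (y j * y' q) = y j * (x q * y' q) := by ring
      _ = (ss q - ss j) * (y j * b') := by rw [h' q]; ring
      _ = (ss q - ss j) * (y' j * b) := by rw [he]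
      _ = y' j * (x q * y q) := by rw [h q]; ring
      _ = x q * (y q * y' j) := by ring
  by_cases hp : p = j
  · subst hp
    by_cases hq : q = p
    · subst hq
      rfl
    · exact key q hq
  · by_cases hq : q = j
    · subst hq
      have := key p hp
      linear_combination -this
    · refine mul_left_cancel₀ (mul_ne_zero (hx p hp) (hx q hq)) ?_
      calc x p * x q * (y p * y' q) = (x p * y p) * (x q * y' q) := by ring
        _ = (x q * y q) * (x p * y' p) := by rw [h, h', h, h']; ring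
        _ = x p * x q * (y q * y' p) := by ring

/-- Case 1: exactly one coordinate `x_j` is zero.

Proof.  `0 = x_j y_j = a + b s_j`, so `x_l y_l = b (s_l - s_j)`; the points over `x` are given by `(y_j, b)` and
`∑_l B_l y_l^2 = B_j y_j^2 + b^2 ∑_{l ≠ j} (s_l - s_j)^2 B_l / X_l`; both coefficients vanish; multiply the second one by
the product of the `X_l`, `l ≠ j`. -/
theorem three_case1 (β : Fin 4 → Fin 4 → ℂ) {x : Vec 2 ℂ} (h : Three β x) {j : Fin 4} (hj : x j = 0)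
    (hx : ∀ l, l ≠ j → x l ≠ 0) :
    Bl β x j = 0 ∧ ∑ l ∈ Finset.univ.erase j, (ss l - ss j) ^ 2 * Bl β x l *
      ∏ k ∈ (Finset.univ.erase j).erase l, x k ^ 2 = 0 := by
  obtain ⟨y₁, y₂, y₃, h1, h2, h3, h12, h13, h23⟩ := h
  obtain ⟨b₁, g1, k1⟩ := xcb_one h1 hj hx
  obtain ⟨b₂, g2, k2⟩ := xcb_one h2 hj hx
  obtain ⟨b₃, g3, k3⟩ := xcb_one h3 hj hx
  have hq := quadratic_zero (g₀ := Bl β x j) (g₁ := 0)
    (g₂ := ∑ l ∈ Finset.univ.erase j, (ss l - ss j) ^ 2 * Bl β x l / x l ^ 2)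
    ![y₁ j, y₂ j, y₃ j] ![b₁, b₂, b₃] (by
      intro i
      fin_cases i
      · exact k1
      · exact k2
      · exact k3) (xcb_indep_one hx g1 g2 h12) (xcb_indep_one hx g1 g3 h13)
      (xcb_indep_one hx g2 g3 h23)
  refine ⟨hq.1, ?_⟩
  have h4 : ∑ l ∈ Finset.univ.erase j, (ss l - ss j) ^ 2 * Bl β x l *
      ∏ k ∈ (Finset.univ.erase j).erase l, x k ^ 2 = (∏ k ∈ Finset.univ.erase j, x k ^ 2) *
      ∑ l ∈ Finset.univ.erase j, (ss l - ss j) ^ 2 * Bl β x l / x l ^ 2 := by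
    rw [Finset.mul_sum]
    refine Finset.sum_congr rfl fun l hl => ?_
    have h5 := hx l (Finset.ne_of_mem_erase hl)
    rw [← Finset.mul_prod_erase _ _ hl]
    field_simp
  rw [h4, hq.2.2, mul_zero]

private theorem ss_ne {i j : Fin 4} (h : i ≠ j) : ss i ≠ ss j := by
  fin_cases i <;> fin_cases j <;> first | exact absurd rfl h | (simp [ss]; try norm_num)

private theorem xcb_two {β : Fin 4 → Fin 4 → ℂ} {x y : Vec 2 ℂ} (h : (dg β).In x y) {i j : Fin 4}
    (hij : i ≠ j) (hi : x i = 0) (hj : x j = 0) (hx : ∀ l, l ≠ i → l ≠ j → x l ≠ 0) :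
    (∀ l, l ≠ i → l ≠ j → y l = 0) ∧
      Bl β x i * y i ^ 2 + 2 * 0 * y i * y j + Bl β x j * y j ^ 2 = 0 := by
  obtain ⟨a, b, hab⟩ := (dg_A_iff β x y).1 h.1
  have h0 := hab i
  have h1 := hab j
  rw [hi, zero_mul] at h0
  rw [hj, zero_mul] at h1
  have hb : b = 0 := by
    have h2 : b * (ss i - ss j) = 0 := by linear_combination h1 - h0
    exact (mul_eq_zero.1 h2).resolve_right (sub_ne_zero.2 (ss_ne hij))
  have ha : a = 0 := by
    rw [hb] at h0
    linear_combination -h0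
  have h3 : ∀ l, l ≠ i → l ≠ j → y l = 0 := by
    intro l hli hlj
    have h4 := hab l
    rw [ha, hb, zero_mul, add_zero] at h4
    exact (mul_eq_zero.1 h4).resolve_left (hx l hli hlj)
  refine ⟨h3, ?_⟩
  have h2 := xcb_eq h
  rw [← Finset.add_sum_erase _ _ (Finset.mem_univ i),
    ← Finset.add_sum_erase _ _ (Finset.mem_erase.2 ⟨hij.symm, Finset.mem_univ j⟩),
    Finset.sum_eq_zero, add_zero] at h2
  · linear_combination h2
  · intro l hl
    rw [Finset.mem_erase, Finset.mem_erase] at hl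
    rw [h3 l hl.2.1 hl.1]
    ring

private theorem xcb_indep_two {y y' : Vec 2 ℂ} {i j : Fin 4} (h : ∀ l, l ≠ i → l ≠ j → y l = 0)
    (h' : ∀ l, l ≠ i → l ≠ j → y' l = 0) (hi : Indep y y') : y i * y' j ≠ y' i * y j := by
  intro he
  obtain ⟨p, q, hpq⟩ := hi
  apply hpq
  have h0 : ∀ p q, (p ≠ i ∧ p ≠ j) → y p * y' q = y q * y' p := by
    intro p q hp
    rw [h p hp.1 hp.2, h' p hp.1 hp.2, mul_zero, zero_mul]
  by_cases hp : p ≠ i ∧ p ≠ j
  · exact h0 p q hp
  · by_cases hq : q ≠ i ∧ q ≠ j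
    · exact (h0 q p hq).symm
    · have hp' : p = i ∨ p = j := by tauto
      have hq' : q = i ∨ q = j := by tauto
      rcases hp' with rfl | rfl <;> rcases hq' with rfl | rfl
      · rfl
      · linear_combination he
      · linear_combination -he
      · rfl

/-- Case 2: exactly two coordinates are zero.

Proof.  `a + b s_i = a + b s_j = 0`, so `a = b = 0`, `y_l = 0` for `l ≠ i, j`, and the equation is
`B_i y_i^2 + B_j y_j^2 = 0`; both coefficients vanish. -/
theorem three_case2 (β : Fin 4 → Fin 4 → ℂ) {x : Vec 2 ℂ} (h : Three β x) {i j : Fin 4} (hij : i ≠ j)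
    (hi : x i = 0) (hj : x j = 0) (hx : ∀ l, l ≠ i → l ≠ j → x l ≠ 0) :
    Bl β x i = 0 ∧ Bl β x j = 0 := by
  obtain ⟨y₁, y₂, y₃, h1, h2, h3, h12, h13, h23⟩ := h
  obtain ⟨g1, k1⟩ := xcb_two h1 hij hi hj hx
  obtain ⟨g2, k2⟩ := xcb_two h2 hij hi hj hx
  obtain ⟨g3, k3⟩ := xcb_two h3 hij hi hj hx
  have hq := quadratic_zero (g₀ := Bl β x i) (g₁ := 0) (g₂ := Bl β x j)
    ![y₁ i, y₂ i, y₃ i] ![y₁ j, y₂ j, y₃ j] (by
      intro i
      fin_cases i
      · exact k1
      · exact k2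
      · exact k3) (xcb_indep_two g1 g2 h12) (xcb_indep_two g1 g3 h13) (xcb_indep_two g2 g3 h23)
  exact ⟨hq.1, hq.2.2⟩

end Pool.Agent.MP_1209e6_cy
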