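import Pool.Agent.Lib_MP_1209e6_cy.FixedA

/-!
Definitions (MP_1209e6_ag).  The saddle hypothesis.
-/

open Matrix Filter Topology

namespace Pool.Agent.MP_1209e6_cy

variable {m : ℕ}

/-- the derivative at `(x, y)` of the equations of the set of fixed points (the `m` bilinear forms, the
`(2,2)`-form, the two ramification equations) and of two coordinates -/
noncomputable def jac (D : Dat m ℂ) (w w' x y : Vec m ℂ) (i₀ j₀ : Fin (m + 2))
    (p : Vec m ℂ × Vec m ℂ) : (Fin m → ℂ) × ℂ × ℂ × ℂ × ℂ × ℂ :=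
  (fun i => D.A i p.1 y + D.A i x p.2,
    2 * D.B x p.1 y y + 2 * D.B x x y p.2,
    D.B p.1 (pv (D.row y) w) y y + D.gam w x y p.2,
    D.B x x p.2 (pv (D.swap.row x) w') + D.swap.gam w' y x p.1,
    p.1 i₀, p.2 j₀)

/-- The natural form of the hypothesis on the fixed point. -/
structure Saddle (D : Dat m ℂ) (x y u v : Vec m ℂ) (μ ν : Fin m → ℂ) : Prop where
  indY : LinearIndependent ℂ (D.row y)
  indX : LinearIndependent ℂ (D.swap.row x)
  hxy : ∀ i, D.A i x y = 0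
  hu : ∀ i, D.A i u y = 0
  hv : ∀ i, D.A i x v = 0
  hν : ∀ ξ, 2 * D.B x ξ y y = ∑ i, ν i * D.A i ξ y
  hμ : ∀ η, 2 * D.B x x y η = ∑ i, μ i * D.A i x η
  smooth : μ ≠ ν
  Qu : D.B u u y y ≠ 0
  Qv : D.B x x v v ≠ 0
  tau : ∀ t : ℝ, 0 ≤ t → t ≤ 4 →
    (4 * D.B x u y v - ∑ i, μ i * D.A i u v) * (4 * D.B x u y v - ∑ i, ν i * D.A i u v) ≠
      t * D.B u u y y * D.B x x v v

end Pool.Agent.MP_1209e6_cy
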