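import Pool.Agent.Lib_MP_1209e6_cy.Ident
import Pool.Agent.Lib_MP_1209e6_cy.SaddleDef
import Pool.Agent.Lib_MP_1209e6_cy.Thin

/-!
# An explicit threefold

`x_0 y_0 - 2 x_1 y_1 + x_2 y_2 = 0`, `x_1 y_1 - 2 x_2 y_2 + x_3 y_3 = 0`, `∑ β_jl x_j^2 y_l^2 = 0`.
-/

open Matrix

namespace Pool.Agent.MP_1209e6_cy

/-- the coefficients of the two diagonal bilinear forms -/
def da : Fin 2 → Fin 4 → ℂ := ![![1, -2, 1, 0], ![0, 1, -2, 1]]

/-- the diagonal data with the coefficients `β` -/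
noncomputable def dg (β : Fin 4 → Fin 4 → ℂ) : Dat 2 ℂ :=
  ⟨fun i j l => if j = l then da i j else 0, fun j k l p => if j = k ∧ l = p then β j l else 0⟩

/-- the matrix of the example -/
def be : Fin 4 → Fin 4 → ℂ := ![![0, -2, -1, 1], ![-1, 0, 1, 2], ![2, 1, 0, -1], ![1, -1, -2, 0]]

/-- the transposed matrix -/
def tr4 (β : Fin 4 → Fin 4 → ℂ) : Fin 4 → Fin 4 → ℂ := fun j l => β l j

/-- the numbers `-3, -1, 1, 3` -/
def ss : Fin 4 → ℂ := ![-3, -1, 1, 3]

theorem dg_swap (β : Fin 4 → Fin 4 → ℂ) : (dg β).swap = dg (tr4 β) := by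
  unfold dg Dat.swap tr4
  congr 1
  · funext i j l
    by_cases h : j = l
    · subst h
      rfl
    · simp [h, Ne.symm h]
  · funext j k l p
    by_cases h : j = k ∧ l = p
    · simp [h]
    · have h' : ¬ (l = p ∧ j = k) := fun h2 => h ⟨h2.2, h2.1⟩
      simp [h, h']

theorem dg_symm (β : Fin 4 → Fin 4 → ℂ) : (dg β).Symm := by
  constructor
  · intro j k l p
    show (if j = k ∧ l = p then β j l else 0) = if k = j ∧ l = p then β k l else 0
    by_cases h : j = k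
    · subst h
      rfl
    · simp [h, Ne.symm h]
  · intro j k l p
    show (if j = k ∧ l = p then β j l else 0) = if j = k ∧ p = l then β j p else 0
    by_cases h : l = p
    · subst h
      rfl
    · simp [h, Ne.symm h]

theorem dg_A0 (β : Fin 4 → Fin 4 → ℂ) (x y : Vec 2 ℂ) :
    (dg β).A 0 x y = x 0 * y 0 - 2 * x 1 * y 1 + x 2 * y 2 := by
  unfold Dat.A dg da
  simp [Fin.sum_univ_four]
  ring

theorem dg_A1 (β : Fin 4 → Fin 4 → ℂ) (x y : Vec 2 ℂ) :
    (dg β).A 1 x y = x 1 * y 1 - 2 * x 2 * y 2 + x 3 * y 3 := by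
  unfold Dat.A dg da
  simp [Fin.sum_univ_four]
  ring

theorem dg_B (β : Fin 4 → Fin 4 → ℂ) (x x' y y' : Vec 2 ℂ) :
    (dg β).B x x' y y' = ∑ j, ∑ l, β j l * x j * x' j * y l * y' l := by
  unfold Dat.B dg
  refine Finset.sum_congr rfl fun j _ => ?_
  rw [Finset.sum_eq_single j]
  · refine Finset.sum_congr rfl fun l _ => ?_
    rw [Finset.sum_eq_single l]
    · simp
    · intro p _ hp
      simp [Ne.symm hp]
    · intro h
      exact absurd (Finset.mem_univ _) h
  · intro k _ hk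
    refine Finset.sum_eq_zero fun l _ => Finset.sum_eq_zero fun p _ => ?_
    simp [Ne.symm hk]
  · intro h
    exact absurd (Finset.mem_univ _) h

theorem ss0 : ss 0 = -3 := rfl
theorem ss1 : ss 1 = -1 := rfl
theorem ss2 : ss 2 = 1 := rfl
theorem ss3 : ss 3 = 3 := rfl

/-- the products `x_j y_j` form an arithmetic progression -/
theorem dg_A_iff (β : Fin 4 → Fin 4 → ℂ) (x y : Vec 2 ℂ) :
    (∀ i, (dg β).A i x y = 0) ↔ ∃ a b : ℂ, ∀ j, x j * y j = a + b * ss j := by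
  constructor
  · intro h
    have h0 := h 0
    have h1 := h 1
    rw [dg_A0] at h0
    rw [dg_A1] at h1
    refine ⟨(x 1 * y 1 + x 2 * y 2) / 2, (x 2 * y 2 - x 1 * y 1) / 2, ?_⟩
    intro j
    fin_cases j
    · show x 0 * y 0 = (x 1 * y 1 + x 2 * y 2) / 2 + (x 2 * y 2 - x 1 * y 1) / 2 * ss 0
      rw [ss0]
      linear_combination h0
    · show x 1 * y 1 = (x 1 * y 1 + x 2 * y 2) / 2 + (x 2 * y 2 - x 1 * y 1) / 2 * ss 1
      rw [ss1]
      ring
    · show x 2 * y 2 = (x 1 * y 1 + x 2 * y 2) / 2 + (x 2 * y 2 - x 1 * y 1) / 2 * ss 2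
      rw [ss2]
      ring
    · show x 3 * y 3 = (x 1 * y 1 + x 2 * y 2) / 2 + (x 2 * y 2 - x 1 * y 1) / 2 * ss 3
      rw [ss3]
      linear_combination h1
  · rintro ⟨a, b, h⟩ i
    have h0 := h 0
    have h1 := h 1
    have h2 := h 2
    have h3 := h 3
    rw [ss0] at h0
    rw [ss1] at h1
    rw [ss2] at h2
    rw [ss3] at h3
    fin_cases i
    · show (dg β).A 0 x y = 0
      rw [dg_A0]
      linear_combination h0 - 2 * h1 + h2
    · show (dg β).A 1 x y = 0
      rw [dg_A1]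
      linear_combination h1 - 2 * h2 + h3

end Pool.Agent.MP_1209e6_cy
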