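import Pool.Agent.Lib_MP_1209e6_cy.ProjA
import Pool.Agent.Lib_MP_1209e6_cy.EPoly

/-!
PIECE [XIA] (MP_1209e6_ag).  The polynomials `g_ij`.
-/

open Matrix MvPolynomial

namespace Pool.Agent.MP_1209e6_cy

variable {m : ℕ}

/-- the vector `u_w(x)` of polynomials in `x` (for the projection to `x`) -/
noncomputable def uP (D : Dat m ℂ) (w : Vec m ℂ) : Vec m (MvPolynomial (Fin (m + 2)) ℂ) :=
  pv ((D.swap.map (C : ℂ →+* MvPolynomial (Fin (m + 2)) ℂ)).row (fun l => X l)) (fun i => C (w i))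

/-- the polynomials `g_ij(x) = b(x, x, u_i, u_j)` -/
noncomputable def gP (D : Dat m ℂ) (w w' : Vec m ℂ) : MvPolynomial (Fin (m + 2)) ℂ :=
  (D.map (C : ℂ →+* MvPolynomial (Fin (m + 2)) ℂ)).B (fun l => X l) (fun l => X l) (uP D w) (uP D w')

private theorem xia_map (D : Dat m ℂ) (x : Vec m ℂ) :
    (D.map (C : ℂ →+* MvPolynomial (Fin (m + 2)) ℂ)).map
      ((aeval x : MvPolynomial (Fin (m + 2)) ℂ →ₐ[ℂ] ℂ) :
        MvPolynomial (Fin (m + 2)) ℂ →+* ℂ) = D := by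
  obtain ⟨a, b⟩ := D
  unfold Dat.map
  congr 1
  · funext i j l
    simp
  · funext i j l p
    simp

private theorem xia_fun (D : Dat m ℂ) (w x : Vec m ℂ) :
    (fun j => ((aeval x : MvPolynomial (Fin (m + 2)) ℂ →ₐ[ℂ] ℂ) :
        MvPolynomial (Fin (m + 2)) ℂ →+* ℂ) (uP D w j)) = pv (D.swap.row x) w := by
  set f : MvPolynomial (Fin (m + 2)) ℂ →+* ℂ :=
    ((aeval x : MvPolynomial (Fin (m + 2)) ℂ →ₐ[ℂ] ℂ) : MvPolynomial (Fin (m + 2)) ℂ →+* ℂ)
    with hf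
  have h1 := Dat.map_pv ((D.swap.map (C : ℂ →+* MvPolynomial (Fin (m + 2)) ℂ)).row
    (fun l => X l)) f (fun i => C (w i))
  have h2 : (fun i j => f ((D.swap.map (C : ℂ →+* MvPolynomial (Fin (m + 2)) ℂ)).row
      (fun l => X l) i j)) = D.swap.row x := by
    funext i
    have h3 := Dat.map_row (D.swap.map (C : ℂ →+* MvPolynomial (Fin (m + 2)) ℂ)) f
      (fun l => X l) i
    rw [hf, xia_map] at h3
    simpa [hf] using h3.symm
  have h4 : (fun i => f (C (w i))) = w := by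
    funext i
    simp [hf]
  have h5 : (fun j => f (uP D w j)) =
      pv (fun i j => f ((D.swap.map (C : ℂ →+* MvPolynomial (Fin (m + 2)) ℂ)).row
        (fun l => X l) i j)) (fun i => f (C (w i))) := h1.symm
  rw [h2, h4] at h5
  exact h5

/-- PIECE [XIA].  `plu`, `pv` commute with ring homomorphisms (see `EPoly.lean`). -/
theorem aeval_uP (D : Dat m ℂ) (w x : Vec m ℂ) (j : Fin (m + 2)) :
    aeval x (uP D w j) = pv (D.swap.row x) w j :=
  congrFun (xia_fun D w x) j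

/-- PIECE [XIA]. -/
theorem aeval_gP (D : Dat m ℂ) (w w' x : Vec m ℂ) :
    aeval x (gP D w w') = D.B x x (pv (D.swap.row x) w) (pv (D.swap.row x) w') := by
  have h1 := Dat.map_B (D.map (C : ℂ →+* MvPolynomial (Fin (m + 2)) ℂ))
    ((aeval x : MvPolynomial (Fin (m + 2)) ℂ →ₐ[ℂ] ℂ) : MvPolynomial (Fin (m + 2)) ℂ →+* ℂ)
    (fun l => X l) (fun l => X l) (uP D w) (uP D w')
  rw [xia_map, xia_fun, xia_fun] at h1
  have h2 : (fun j : Fin (m + 2) => ((aeval x : MvPolynomial (Fin (m + 2)) ℂ →ₐ[ℂ] ℂ) :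
      MvPolynomial (Fin (m + 2)) ℂ →+* ℂ) (X j)) = x := by
    funext j
    simp
  rw [h2] at h1
  exact h1.symm

end Pool.Agent.MP_1209e6_cy
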