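import Pool.Agent.Lib_MP_1209e6_cy.ExDef
import Pool.Agent.Lib_MP_1209e6_cy.IrrA

/-!
# The discriminant of the example is not a square
-/

open Matrix MvPolynomial

namespace Pool.Agent.MP_1209e6_cy

/-- the line `(1 + t, 1, 1, 1)` -/
def xl (t : ℂ) : Vec 2 ℂ := ![1 + t, 1, 1, 1]

theorem swap_row_xl (t : ℂ) :
    (dg be).swap.row (xl t) = ![![1 + t, -2, 1, 0], ![0, 1, -2, 1]] := by
  rw [dg_swap]
  funext i l
  unfold Dat.row dg xl da
  fin_cases i <;> fin_cases l <;> simp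

theorem pv_xl_one (t : ℂ) :
    pv ((dg be).swap.row (xl t)) (Pi.single 0 1) = ![0, 1, 2, 3] := by
  rw [swap_row_xl]
  funext j
  unfold pv plu
  fin_cases j <;>
    (simp [Matrix.det_succ_row_zero, Fin.sum_univ_succ, Fin.succAbove, Pi.single_apply]; try norm_num)

theorem pv_xl_two (t : ℂ) :
    pv ((dg be).swap.row (xl t)) (Pi.single 1 1) = ![-1, 0, 1 + t, 2 + 2 * t] := by
  rw [swap_row_xl]
  funext j
  unfold pv plu
  fin_cases j <;>
    (simp [Matrix.det_succ_row_zero, Fin.sum_univ_succ, Fin.succAbove, Pi.single_apply]; try ring)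

/-- restriction to the line -/
noncomputable def rl : MvPolynomial (Fin 4) ℂ →ₐ[ℂ] Polynomial ℂ :=
  aeval ![1 + Polynomial.X, 1, 1, 1]

theorem eval_rl (p : MvPolynomial (Fin 4) ℂ) (t : ℂ) :
    Polynomial.eval t (rl p) = aeval (xl t) p := by
  have h : ((Polynomial.aeval t).comp rl : MvPolynomial (Fin 4) ℂ →ₐ[ℂ] ℂ) = aeval (xl t) := by
    apply MvPolynomial.algHom_ext
    intro j
    rw [AlgHom.comp_apply]
    unfold rl
    rw [aeval_X, aeval_X]
    unfold xl
    fin_cases j <;> simp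
  have h2 := congrArg (fun f : MvPolynomial (Fin 4) ℂ →ₐ[ℂ] ℂ => f p) h
  simpa [Polynomial.coe_aeval_eq_eval] using h2

theorem rl_g (w w' : Vec 2 ℂ) (G : Polynomial ℂ)
    (h : ∀ t : ℂ, (dg be).B (xl t) (xl t) (pv ((dg be).swap.row (xl t)) w)
      (pv ((dg be).swap.row (xl t)) w') = Polynomial.eval t G) :
    rl (gP (dg be) w w') = G := by
  apply Polynomial.funext
  intro t
  rw [eval_rl, aeval_gP, h]

theorem rl_g11 : rl (gP (dg be) (Pi.single 0 1) (Pi.single 0 1)) =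
    8 + 6 * Polynomial.X + 3 * Polynomial.X ^ 2 := by
  apply rl_g
  intro t
  rw [pv_xl_one, dg_B]
  simp [Fin.sum_univ_four, be, xl]
  ring

theorem rl_g12 : rl (gP (dg be) (Pi.single 0 1) (Pi.single 1 1)) =
    8 + 16 * Polynomial.X + 12 * Polynomial.X ^ 2 + 4 * Polynomial.X ^ 3 := by
  apply rl_g
  intro t
  rw [pv_xl_one, pv_xl_two, dg_B]
  simp [Fin.sum_univ_four, be, xl]
  ring

theorem rl_g22 : rl (gP (dg be) (Pi.single 1 1) (Pi.single 1 1)) =
    8 + 18 * Polynomial.X + 21 * Polynomial.X ^ 2 + 12 * Polynomial.X ^ 3 +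
      3 * Polynomial.X ^ 4 := by
  apply rl_g
  intro t
  rw [pv_xl_two, dg_B]
  simp [Fin.sum_univ_four, be, xl]
  ring

/-- the discriminant is not a square: it has a simple zero on the line at `t = 0` -/
theorem be_disc : ¬ ∃ R : MvPolynomial (Fin (2 + 2)) ℂ,
    R ^ 2 = gP (dg be) (Pi.single 0 1) (Pi.single 1 1) ^ 2 -
      gP (dg be) (Pi.single 0 1) (Pi.single 0 1) * gP (dg be) (Pi.single 1 1) (Pi.single 1 1) := by
  rintro ⟨R, hR⟩
  have h := congrArg rl hR
  rw [map_pow, map_sub, map_pow, map_mul, rl_g11, rl_g12, rl_g22] at h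
  have h2 : rl R ^ 2 = Polynomial.X * (64 + Polynomial.X * (148 + 172 * Polynomial.X +
      113 * Polynomial.X ^ 2 + 42 * Polynomial.X ^ 3 + 7 * Polynomial.X ^ 4)) := by
    rw [h]
    ring
  have h3 : Polynomial.X ∣ rl R := by
    apply Polynomial.prime_X.dvd_of_dvd_pow (n := 2)
    rw [h2]
    exact Dvd.intro _ rfl
  obtain ⟨q, hq⟩ := h3
  rw [hq] at h2
  have h4 : Polynomial.X * (Polynomial.X * q ^ 2) = Polynomial.X * (64 + Polynomial.X *
      (148 + 172 * Polynomial.X + 113 * Polynomial.X ^ 2 + 42 * Polynomial.X ^ 3 +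
        7 * Polynomial.X ^ 4)) := by
    rw [← h2]
    ring
  have h5 := mul_left_cancel₀ Polynomial.X_ne_zero h4
  have h6 := congrArg (Polynomial.eval 0) h5
  simp at h6

end Pool.Agent.MP_1209e6_cy
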