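import Mathlib

/-!
# Extension of homomorphisms into algebraically closed fields (`MP_1209e6_ag`, piece E0 of line CY)

Atiyah-Macdonald 5.23: if `A` is a domain and `A → B` is injective and of finite type, then there is
`S ≠ 0` in `A` such that every homomorphism from `A` into an algebraically closed field which does not
vanish at `S` extends to `B`.
-/

set_option autoImplicit false

namespace Pool.Agent.CY

/-- Integral extensions: a homomorphism into an algebraically closed field extends. -/
theorem extend_of_integral {A C : Type} [CommRing A] [CommRing C] [Algebra A C]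
    [Algebra.IsIntegral A C] {Ω : Type} [Field Ω] [IsAlgClosed Ω] (φ : A →+* Ω)
    (hker : RingHom.ker (algebraMap A C) ≤ RingHom.ker φ) :
    ∃ ψ : C →+* Ω, ψ.comp (algebraMap A C) = φ := by
  have hP : (RingHom.ker φ).IsPrime := RingHom.ker_isPrime φ
  obtain ⟨Q, -, hQ, hQp⟩ := Ideal.exists_ideal_over_prime_of_isIntegral (R := A) (S := C)
    (RingHom.ker φ) ⊥ (by
      intro a ha
      exact hker (by simpa using ha))
  let f : A ⧸ RingHom.ker φ →+* C ⧸ Q :=
    Ideal.quotientMap Q (algebraMap A C) (by rw [hQp])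
  have hf : Function.Injective f := Ideal.quotientMap_injective' (by rw [hQp])
  let _ : Algebra (A ⧸ RingHom.ker φ) (C ⧸ Q) := f.toAlgebra
  let _ : Algebra (A ⧸ RingHom.ker φ) Ω := (RingHom.kerLift φ).toAlgebra
  have h1 : Algebra.IsIntegral (A ⧸ RingHom.ker φ) (C ⧸ Q) := by
    refine ⟨fun x => ?_⟩
    obtain ⟨c, rfl⟩ := Ideal.Quotient.mk_surjective x
    obtain ⟨p, hp, hpc⟩ := Algebra.IsIntegral.isIntegral (R := A) c
    refine ⟨p.map (Ideal.Quotient.mk _), hp.map _, ?_⟩
    rw [Polynomial.eval₂_map]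
    have h2 : (algebraMap (A ⧸ RingHom.ker φ) (C ⧸ Q)).comp (Ideal.Quotient.mk _) =
        (Ideal.Quotient.mk Q).comp (algebraMap A C) := by
      ext a; rfl
    rw [h2, ← Polynomial.hom_eval₂, hpc, map_zero]
  have h3 : Module.IsTorsionFree (A ⧸ RingHom.ker φ) (C ⧸ Q) :=
    Module.isTorsionFree_iff_algebraMap_injective.2 hf
  have h4 : Module.IsTorsionFree (A ⧸ RingHom.ker φ) Ω :=
    Module.isTorsionFree_iff_algebraMap_injective.2 (RingHom.kerLift_injective φ)
  have h5 : Algebra.IsAlgebraic (A ⧸ RingHom.ker φ) (C ⧸ Q) := inferInstance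
  let g : C ⧸ Q →ₐ[A ⧸ RingHom.ker φ] Ω := IsAlgClosed.lift
  refine ⟨(g : C ⧸ Q →+* Ω).comp (Ideal.Quotient.mk Q), ?_⟩
  ext a
  show g (algebraMap (A ⧸ RingHom.ker φ) (C ⧸ Q) (Ideal.Quotient.mk _ a)) = φ a
  rw [g.commutes]
  rfl

/-- Atiyah-Macdonald 5.23: extension of homomorphisms from a domain `A` to an algebra `B ⊇ A` of finite
type into algebraically closed fields, off a hypersurface `S = 0` of `A`. -/
theorem exists_extend {A B : Type} [CommRing A] [IsDomain A] [CommRing B] [Algebra A B]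
    [Algebra.FiniteType A B] (hinj : Function.Injective (algebraMap A B)) :
    ∃ S : A, S ≠ 0 ∧ ∀ (Ω : Type) [Field Ω] [IsAlgClosed Ω] (φ : A →+* Ω), φ S ≠ 0 →
      ∃ ψ : B →+* Ω, ψ.comp (algebraMap A B) = φ := by
  classical
  let K := FractionRing A
  let BK := TensorProduct A K B
  have hi : Function.Injective (Algebra.TensorProduct.includeLeft : K →ₐ[A] BK) :=
    Algebra.TensorProduct.includeLeft_injective hinj
  have hBK : Nontrivial BK := hi.nontrivial
  obtain ⟨M, hM⟩ := Ideal.exists_maximal BK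
  let _ : Field (BK ⧸ M) := Ideal.Quotient.field M
  have hfin : Module.Finite K (BK ⧸ M) := finite_of_finite_type_of_isJacobsonRing K (BK ⧸ M)
  let β : B →ₐ[A] BK ⧸ M :=
    (Ideal.Quotient.mkₐ A M).comp (Algebra.TensorProduct.includeRight : B →ₐ[A] BK)
  have hAL : Function.Injective (algebraMap A (BK ⧸ M)) := by
    have h1 : algebraMap A (BK ⧸ M) = (algebraMap K (BK ⧸ M)).comp (algebraMap A K) :=
      IsScalarTower.algebraMap_eq A K (BK ⧸ M)
    rw [h1]
    exact (algebraMap K (BK ⧸ M)).injective.comp (IsFractionRing.injective A K)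
  have halg : ∀ l : BK ⧸ M, ∃ s : A, s ≠ 0 ∧ IsIntegral A (s • l) := by
    intro l
    have h1 : IsAlgebraic K l := (IsIntegral.of_finite K l).isAlgebraic
    have h2 : IsAlgebraic A l := (IsFractionRing.isAlgebraic_iff A K (BK ⧸ M)).2 h1
    obtain ⟨s, hs, h⟩ := h2.exists_integral_multiple
    exact ⟨s, hs, h⟩
  obtain ⟨T, hT⟩ := (inferInstance : Algebra.FiniteType A B).out
  choose s hs hsi using halg
  refine ⟨∏ b ∈ T, s (β b), Finset.prod_ne_zero_iff.2 fun b _ => hs _, ?_⟩
  intro Ω _ _ φ hφ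
  set S : A := ∏ b ∈ T, s (β b) with hS
  have hS0 : S ≠ 0 := Finset.prod_ne_zero_iff.2 fun b _ => hs _
  let AS := Localization.Away S
  have hSu : IsUnit (algebraMap A (BK ⧸ M) S) :=
    isUnit_iff_ne_zero.2 fun h => hS0 (hAL (by rw [h, map_zero]))
  let θ : AS →+* BK ⧸ M := IsLocalization.Away.lift S hSu
  have hθ : ∀ a : A, θ (algebraMap A AS a) = algebraMap A (BK ⧸ M) a := fun a =>
    IsLocalization.Away.lift_eq S hSu a
  let _ : Algebra AS (BK ⧸ M) := θ.toAlgebra
  have htow : IsScalarTower A AS (BK ⧸ M) := IsScalarTower.of_algebraMap_eq fun a => (hθ a).symm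
  have hθi : Function.Injective θ := by
    rw [injective_iff_map_eq_zero]
    intro x hx
    obtain ⟨⟨a, m⟩, ha⟩ := IsLocalization.surj (Submonoid.powers S) x
    have h1 : algebraMap A (BK ⧸ M) a = 0 := by
      rw [← hθ, ← ha, map_mul, hx, zero_mul]
    have h2 : a = 0 := hAL (by rw [h1, map_zero])
    have h3 : IsUnit (algebraMap A AS (m : A)) := IsLocalization.map_units AS m
    have h4 : x * algebraMap A AS (m : A) = 0 := by rw [ha]; simp [h2]
    exact (h3.mul_left_eq_zero).1 h4
  have hbi : ∀ b : B, β b ∈ integralClosure AS (BK ⧸ M) := by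
    intro b
    have hb : b ∈ Algebra.adjoin A (T : Set B) := by rw [hT]; exact Algebra.mem_top
    induction hb using Algebra.adjoin_induction with
    | mem b hb =>
      have h1 : IsIntegral AS (s (β b) • β b) := (hsi (β b)).tower_top
      have h2 : s (β b) ∣ S := Finset.dvd_prod_of_mem _ hb
      have h3 : IsUnit (algebraMap A AS (s (β b))) :=
        isUnit_of_dvd_unit (map_dvd (algebraMap A AS) h2)
          (IsLocalization.Away.algebraMap_isUnit S)
      obtain ⟨u, hu⟩ := h3
      have h4 : β b = (↑u⁻¹ : AS) • (s (β b) • β b) := by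
        rw [← algebraMap_smul AS (s (β b)) (β b), ← hu, smul_smul, Units.inv_mul, one_smul]
      rw [h4]
      exact h1.smul _
    | algebraMap a =>
      rw [β.commutes, ← hθ]
      exact isIntegral_algebraMap (R := AS) (A := BK ⧸ M)
    | add x y _ _ hx hy => rw [map_add]; exact hx.add hy
    | mul x y _ _ hx hy => rw [map_mul]; exact hx.mul hy
  let βC : B →+* integralClosure AS (BK ⧸ M) :=
    RingHom.codRestrict (β : B →+* BK ⧸ M) (integralClosure AS (BK ⧸ M)) hbi
  have hφu : IsUnit (φ S) := isUnit_iff_ne_zero.2 hφ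
  let φ' : AS →+* Ω := IsLocalization.Away.lift S hφu
  obtain ⟨χ, hχ⟩ := extend_of_integral (A := AS) (C := integralClosure AS (BK ⧸ M)) φ' (by
    intro x hx
    have h1 : θ x = 0 := by
      have h2 : algebraMap AS (integralClosure AS (BK ⧸ M)) x = 0 := hx
      exact congrArg Subtype.val h2
    have h3 : x = 0 := hθi (by rw [h1, map_zero])
    rw [h3]; exact Ideal.zero_mem _)
  refine ⟨χ.comp βC, ?_⟩
  ext a
  have h1 : βC (algebraMap A B a) = algebraMap AS (integralClosure AS (BK ⧸ M)) (algebraMap A AS a) := by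
    apply Subtype.ext
    show β (algebraMap A B a) = θ (algebraMap A AS a)
    rw [β.commutes, hθ]
  show χ (βC (algebraMap A B a)) = φ a
  rw [h1]
  show (χ.comp (algebraMap AS (integralClosure AS (BK ⧸ M)))) (algebraMap A AS a) = φ a
  rw [hχ]
  exact IsLocalization.Away.lift_eq S hφu a

end Pool.Agent.CY
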