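import Mathlib

/-!
PIECE [FXB] (MP_1209e6_ag).  Linear algebra at the fixed point.
-/

namespace Pool.Agent.MP_1209e6_cy

/-- PIECE [FXB].  Linear algebra at the fixed point.  `T = T₂ T₁` on `V × V`,
`T₁(ξ, η) = (ξ - ℓ(ξ) x - f(ξ, η) u, η)`, `T₂(ξ, η) = (ξ, η - ℓ'(η) y - f'(ξ, η) v)`, where
`f(ξ, η) = (2/Qu)(b(ξ, u) + γ(η))`, `f(x, 0) = 0`, `f(u, 0) = 2`, `f(0, y) = 0`, `f(0, v) = g`;
`f'(0, y) = 0`, `f'(0, v) = 2`, `f'(x, 0) = 0`, `f'(u, 0) = g'`; `ℓ(x) = 1, ℓ(u) = 0, ℓ'(y) = 1, ℓ'(v) = 0`;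
`g g' λ = (λ + 1)^2`.  Then `T(x, 0) = T(0, y) = 0`, `T(u, 0) = (-u, g' v)`,
`T(0, v) = (-g u, (g g' - 1) v)`, `T - 1` maps into the span `W` of these four vectors.  On the span of
`(u, 0), (0, v)`: `T^2 - (g g' - 2) T + 1 = (T - λ)(T - λ⁻¹) = 0`.  So `(T - λ)(T - λ⁻¹) T (T - 1) = 0`, and
`T e = λ e` for `e = (-g u, (1 + λ) v)`. -/
theorem linear_part {V : Type*} [NormedAddCommGroup V] [NormedSpace ℂ V]
    (T₁ T₂ : V × V →L[ℂ] V × V) (x u y v : V) (ℓ ℓ' : V →L[ℂ] ℂ) (f f' : V × V →ₗ[ℂ] ℂ)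
    (g g' lam : ℂ) (hlam : lam ≠ 0) (hg : g * g' * lam = (lam + 1) ^ 2)
    (h₁ : ∀ ξ η, T₁ (ξ, η) = (ξ - ℓ ξ • x - f (ξ, η) • u, η))
    (h₂ : ∀ ξ η, T₂ (ξ, η) = (ξ, η - ℓ' η • y - f' (ξ, η) • v))
    (hℓx : ℓ x = 1) (hℓu : ℓ u = 0) (hℓy : ℓ' y = 1) (hℓv : ℓ' v = 0)
    (f1 : f (x, 0) = 0) (f2 : f (u, 0) = 2) (f3 : f (0, y) = 0) (f4 : f (0, v) = g)
    (f1' : f' (0, y) = 0) (f2' : f' (0, v) = 2) (f3' : f' (x, 0) = 0) (f4' : f' (u, 0) = g') :
    (T₂ * T₁) (-g • u, (1 + lam) • v) = lam • (-g • u, (1 + lam) • v) ∧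
    (T₂ * T₁) * (T₂ * T₁ - 1) * (T₂ * T₁ - lam • (1 : V × V →L[ℂ] V × V)) *
      (T₂ * T₁ - lam⁻¹ • (1 : V × V →L[ℂ] V × V)) = 0 := by
  set T := T₂ * T₁ with hT
  have hTapp : ∀ ξ η, T (ξ, η) = (ξ - ℓ ξ • x - f (ξ, η) • u, η - ℓ' η • y -
      f' (ξ - ℓ ξ • x - f (ξ, η) • u, η) • v) := by
    intro ξ η
    show T₂ (T₁ (ξ, η)) = _
    rw [h₁, h₂]
  have t1 : T (x, 0) = 0 := by
    have z : f' ((0 : V), (0 : V)) = 0 := map_zero f'
    rw [hTapp, hℓx, f1]
    simp [z]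
  have t3 : T (0, y) = 0 := by
    rw [hTapp, hℓy, f3]
    simp [f1']
  have e2 : f' (-u, 0) = -g' := by
    have : ((-u, 0) : V × V) = (-1 : ℂ) • (u, 0) := by simp
    rw [this, map_smul, f4']
    simp
  have e4 : f' (-(g • u), v) = -(g * g') + 2 := by
    have : ((-(g • u), v) : V × V) = (-g : ℂ) • (u, 0) + (0, v) := by simp
    rw [this, map_add, map_smul, f4', f2']
    simp
  have t2 : T (u, 0) = -(u, 0) + g' • (0, v) := by
    rw [hTapp, hℓu, f2]
    have : u - (0 : ℂ) • x - (2 : ℂ) • u = -u := by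
      rw [zero_smul, sub_zero, two_smul]
      abel
    rw [this, e2]
    simp
  have t4 : T (0, v) = -g • (u, 0) + (g * g' - 1) • (0, v) := by
    rw [hTapp, hℓv, f4]
    have : (0 : V) - ℓ 0 • x - g • u = -(g • u) := by simp
    rw [this, e4]
    refine Prod.ext ?_ ?_
    · simp
    · simp only [zero_smul, sub_zero, Prod.snd_add, Prod.smul_snd, smul_zero, zero_add]
      module
  have hpair : ∀ a b : ℂ, ((a • u, b • v) : V × V) = a • (u, 0) + b • (0, v) := by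
    intro a b
    simp
  have key : ∀ a b : ℂ, T (a • (u, 0) + b • (0, v)) =
      (-a - b * g) • (u, 0) + (a * g' + b * (g * g' - 1)) • (0, v) := by
    intro a b
    rw [map_add, map_smul, map_smul, t2, t4]
    module
  refine ⟨?_, ?_⟩
  · rw [hpair, key, smul_add, smul_smul, smul_smul]
    congr 1
    · congr 1
      ring
    · congr 1
      linear_combination hg
  · refine ContinuousLinearMap.ext fun p => ?_
    have hcomm : T * (T - 1) * (T - lam • (1 : V × V →L[ℂ] V × V)) *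
        (T - lam⁻¹ • (1 : V × V →L[ℂ] V × V)) =
        (T - lam • (1 : V × V →L[ℂ] V × V)) * (T - lam⁻¹ • (1 : V × V →L[ℂ] V × V)) *
          T * (T - 1) := by
      have c1 : Commute (T * (T - 1)) ((T - lam • (1 : V × V →L[ℂ] V × V)) *
          (T - lam⁻¹ • (1 : V × V →L[ℂ] V × V))) := by
        have a1 : Commute T (T - 1) := (Commute.refl T).sub_right (Commute.one_right T)
        have a2 : ∀ μ : ℂ, Commute T (T - μ • (1 : V × V →L[ℂ] V × V)) := fun μ =>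
          (Commute.refl T).sub_right ((Commute.one_right T).smul_right μ)
        have a3 : ∀ μ : ℂ, Commute (T - 1) (T - μ • (1 : V × V →L[ℂ] V × V)) := fun μ =>
          (a2 μ).sub_left (Commute.one_left _)
        exact (((a2 lam).mul_right (a2 lam⁻¹))).mul_left ((a3 lam).mul_right (a3 lam⁻¹))
      rw [mul_assoc (T * (T - 1)), c1.eq]
      simp only [mul_assoc]
    rw [hcomm]
    obtain ⟨ξ, η⟩ := p
    have hw : ∃ a b c d : ℂ, (T - 1) (ξ, η) = a • (x, 0) + b • (u, 0) + c • (0, y) + d • (0, v) := by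
      refine ⟨-ℓ ξ, -f (ξ, η), -ℓ' η, -f' (ξ - ℓ ξ • x - f (ξ, η) • u, η), ?_⟩
      show T (ξ, η) - (ξ, η) = _
      rw [hTapp]
      refine Prod.ext ?_ ?_
      · simp only [Prod.fst_sub, Prod.fst_add, Prod.smul_fst, smul_zero, add_zero]
        module
      · simp only [Prod.snd_sub, Prod.snd_add, Prod.smul_snd, smul_zero, zero_add]
        module
    obtain ⟨a, b, c, d, hw⟩ := hw
    show (T - lam • (1 : V × V →L[ℂ] V × V)) ((T - lam⁻¹ • (1 : V × V →L[ℂ] V × V))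
      (T ((T - 1) (ξ, η)))) = 0
    rw [hw]
    have h5 : T (a • (x, 0) + b • (u, 0) + c • (0, y) + d • (0, v)) =
        (-b - d * g) • (u, 0) + (b * g' + d * (g * g' - 1)) • (0, v) := by
      rw [← key b d, map_add, map_add, map_add, map_smul, map_smul, map_smul, map_smul, t1, t3,
        map_add, map_smul, map_smul]
      simp
    rw [h5]
    set A := -b - d * g
    set B := b * g' + d * (g * g' - 1)
    have h6 : (T - lam⁻¹ • (1 : V × V →L[ℂ] V × V)) (A • (u, 0) + B • (0, v)) =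
        (-A - B * g - lam⁻¹ * A) • (u, 0) + (A * g' + B * (g * g' - 1) - lam⁻¹ * B) • (0, v) := by
      show T (A • (u, 0) + B • (0, v)) - lam⁻¹ • (A • (u, 0) + B • (0, v)) = _
      rw [key]
      module
    rw [h6]
    set A' := -A - B * g - lam⁻¹ * A
    set B' := A * g' + B * (g * g' - 1) - lam⁻¹ * B
    have h7 : (T - lam • (1 : V × V →L[ℂ] V × V)) (A' • (u, 0) + B' • (0, v)) =
        (-A' - B' * g - lam * A') • (u, 0) + (A' * g' + B' * (g * g' - 1) - lam * B') • (0, v) := by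
      show T (A' • (u, 0) + B' • (0, v)) - lam • (A' • (u, 0) + B' • (0, v)) = _
      rw [key]
      module
    rw [h7]
    have hgg : g * g' = lam + 2 + lam⁻¹ := by
      field_simp
      linear_combination hg
    have z1 : -A' - B' * g - lam * A' = 0 := by
      have e : -A' - B' * g - lam * A' = -(-A - B * g - lam⁻¹ * A) -
        (A * g' + B * (g * g' - 1) - lam⁻¹ * B) * g - lam * (-A - B * g - lam⁻¹ * A) := rfl
      rw [e]
      have hl : lam * lam⁻¹ = 1 := mul_inv_cancel₀ hlam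
      linear_combination (-A - B * g) * hgg + A * hl
    have z2 : A' * g' + B' * (g * g' - 1) - lam * B' = 0 := by
      have e : A' * g' + B' * (g * g' - 1) - lam * B' = (-A - B * g - lam⁻¹ * A) * g' +
        (A * g' + B * (g * g' - 1) - lam⁻¹ * B) * (g * g' - 1) -
        lam * (A * g' + B * (g * g' - 1) - lam⁻¹ * B) := rfl
      rw [e]
      have hl : lam * lam⁻¹ = 1 := mul_inv_cancel₀ hlam
      linear_combination (A * g' + B * (g * g' - 1)) * hgg + B * hl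
    rw [z1, z2]
    simp


end Pool.Agent.MP_1209e6_cy
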