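import Mathlib

/-!
PIECE [PNB] (MP_1209e6_ag).  Uniqueness of the unstable curve.
-/

open Filter Topology

namespace Pool.Agent.MP_1209e6_cy

variable {E : Type*} [NormedAddCommGroup E] [NormedSpace ℂ E] [CompleteSpace E]

/-- PIECE [PNB].  Uniqueness of the unstable curve when `‖T‖ < |λ|^2`.

Proof.  `δ = φ - ψ` satisfies `‖δ(z)‖ ≤ C |z|^2` for `|z| ≤ 1` (same value and derivative at `0`,
Taylor).  For `|z| ≤ r`, `r` small, `‖δ(λ z)‖ = ‖F(φ z) - F(ψ z)‖ ≤ κ ‖δ(z)‖`, `κ < |λ|^2`.  Put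
`M(s) = sup_{0 < |z| ≤ s} ‖δ(z)‖ / |z|^2 < ∞`; then `M(s) ≤ (κ / |λ|^2) M(s / |λ|) ≤ (κ/|λ|^2) M(s)` for
small `s` (every `z` with `|z| ≤ s` is `λ z'` with `|z'| ≤ s / |λ|`), so `M(s) = 0`.  (Alternatively iterate:
`‖δ(z)‖ ≤ κ^j ‖δ(z/λ^j)‖ ≤ C κ^j |z|^2 / |λ|^{2j} → 0`.)  So `δ = 0` near `0` and everywhere by the identity
theorem (or by the functional equation). -/
theorem poincare_unique {F : E → E} (hF : ContDiff ℂ 2 F) {c : E} {lam : ℂ}
    (hlam : 1 < ‖lam‖) {T : E →L[ℂ] E} (hT : HasFDerivAt F T c) (hTn : ‖T‖ < ‖lam‖ ^ 2)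
    {φ ψ : ℂ → E} (hφ : Differentiable ℂ φ) (hψ : Differentiable ℂ ψ) (h0 : φ 0 = c)
    (h0' : ψ 0 = c) (h1 : deriv φ 0 = deriv ψ 0) (hφe : ∀ z, φ (lam * z) = F (φ z))
    (hψe : ∀ z, ψ (lam * z) = F (ψ z)) : φ = ψ := by
  have hST : HasStrictFDerivAt F T c := hF.contDiffAt.hasStrictFDerivAt' hT (by norm_num)
  obtain ⟨κ, hκ1, hκ2⟩ := exists_between hTn
  have hκ0 : 0 ≤ κ := (norm_nonneg _).trans hκ1.le
  lift κ to NNReal using hκ0
  obtain ⟨s, hs, hLip⟩ := hST.exists_lipschitzOnWith_of_nnnorm_lt κ (by exact_mod_cast hκ1)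
  have hφc : ∀ᶠ z in 𝓝 (0 : ℂ), φ z ∈ s := by
    refine (hφ 0).continuousAt.eventually ?_
    rw [h0]; exact hs
  have hψc : ∀ᶠ z in 𝓝 (0 : ℂ), ψ z ∈ s := by
    refine (hψ 0).continuousAt.eventually ?_
    rw [h0']; exact hs
  obtain ⟨r, hr, hball⟩ := Metric.eventually_nhds_iff_ball.1 (hφc.and hψc)
  have hlam0 : lam ≠ 0 := by
    intro h; rw [h, norm_zero] at hlam; linarith
  have hlp : 0 < ‖lam‖ := by linarith
  set δ : ℂ → E := fun z => φ z - ψ z with hδdef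
  have hδ : Differentiable ℂ δ := hφ.sub hψ
  have hds : ∀ f : ℂ → E, Differentiable ℂ f → Differentiable ℂ (dslope f 0) := by
    intro f hf
    rw [← differentiableOn_univ] at hf ⊢
    exact (Complex.differentiableOn_dslope Filter.univ_mem).2 hf
  have hg : Differentiable ℂ (dslope (dslope δ 0) 0) := hds _ (hds _ hδ)
  have hδ0 : δ 0 = 0 := by simp [hδdef, h0, h0']
  have hδ1 : deriv δ 0 = 0 := by
    have : deriv δ 0 = deriv φ 0 - deriv ψ 0 := ((hφ 0).hasDerivAt.sub (hψ 0).hasDerivAt).deriv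
    rw [this, h1, sub_self]
  have hδg : ∀ z, δ z = z ^ 2 • dslope (dslope δ 0) 0 z := by
    intro z
    have e1 := sub_smul_dslope δ 0 z
    have e2 := sub_smul_dslope (dslope δ 0) 0 z
    rw [dslope_same, hδ1, sub_zero, sub_zero] at e2
    rw [hδ0, sub_zero, sub_zero, ← e2, smul_smul] at e1
    rw [← e1, pow_two]
  obtain ⟨C, hC⟩ := (isCompact_closedBall (0 : ℂ) r).exists_bound_of_continuousOn
    hg.continuous.continuousOn
  have hstep : ∀ z ∈ Metric.ball (0 : ℂ) r, ‖δ z‖ ≤ κ * ‖δ (z / lam)‖ := by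
    intro z hz
    have hz' : z / lam ∈ Metric.ball (0 : ℂ) r := by
      rw [mem_ball_zero_iff] at hz ⊢
      rw [norm_div, div_lt_iff₀ hlp]
      nlinarith [norm_nonneg z]
    obtain ⟨ha, hb⟩ := hball _ hz'
    have e : z = lam * (z / lam) := by field_simp
    have e1 : δ z = F (φ (z / lam)) - F (ψ (z / lam)) := by
      simp only [hδdef]
      rw [← hφe, ← hψe, ← e]
    have h2 := hLip.dist_le_mul _ ha _ hb
    rw [dist_eq_norm, dist_eq_norm] at h2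
    rw [e1]
    exact h2
  have hiter : ∀ j : ℕ, ∀ z ∈ Metric.ball (0 : ℂ) r, ‖δ z‖ ≤ κ ^ j * ‖δ (z / lam ^ j)‖ := by
    intro j
    induction j with
    | zero => intro z hz; simp
    | succ j ih =>
      intro z hz
      have hz' : z / lam ^ j ∈ Metric.ball (0 : ℂ) r := by
        rw [mem_ball_zero_iff] at hz ⊢
        rw [norm_div, norm_pow, div_lt_iff₀ (by positivity)]
        have h3 : 1 ≤ ‖lam‖ ^ j := one_le_pow₀ hlam.le
        nlinarith [norm_nonneg z]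
      refine (ih z hz).trans ?_
      have h4 := hstep _ hz'
      rw [div_div, ← pow_succ] at h4
      calc (κ : ℝ) ^ j * ‖δ (z / lam ^ j)‖ ≤ κ ^ j * (κ * ‖δ (z / lam ^ (j + 1))‖) := by gcongr
        _ = κ ^ (j + 1) * ‖δ (z / lam ^ (j + 1))‖ := by ring
  have hzero : ∀ z ∈ Metric.ball (0 : ℂ) r, δ z = 0 := by
    intro z hz
    have hzr : ‖z‖ < r := by rwa [mem_ball_zero_iff] at hz
    have hb : ∀ j : ℕ, ‖δ z‖ ≤ (κ / ‖lam‖ ^ 2) ^ j * (r ^ 2 * C) := by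
      intro j
      refine (hiter j z hz).trans ?_
      have h3 : 1 ≤ ‖lam‖ ^ j := one_le_pow₀ hlam.le
      have hle : ‖z / lam ^ j‖ ≤ r := by
        rw [norm_div, norm_pow, div_le_iff₀ (by positivity)]
        nlinarith [norm_nonneg z]
      have h5 := hC (z / lam ^ j) (by rw [mem_closedBall_zero_iff]; exact hle)
      rw [hδg, norm_smul, norm_pow, norm_div, norm_pow]
      have hC0 : 0 ≤ C := (norm_nonneg _).trans h5
      calc (κ : ℝ) ^ j * ((‖z‖ / ‖lam‖ ^ j) ^ 2 * ‖dslope (dslope δ 0) 0 (z / lam ^ j)‖)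
          ≤ κ ^ j * ((r / ‖lam‖ ^ j) ^ 2 * C) := by gcongr
        _ = (κ / ‖lam‖ ^ 2) ^ j * (r ^ 2 * C) := by
          rw [div_pow, div_pow, ← pow_mul, ← pow_mul, mul_comm j 2]
          ring
    have hlt : (κ : ℝ) / ‖lam‖ ^ 2 < 1 := by
      rw [div_lt_one (by positivity)]; exact hκ2
    have ht : Tendsto (fun j : ℕ => ((κ : ℝ) / ‖lam‖ ^ 2) ^ j * (r ^ 2 * C)) atTop (𝓝 (0 * (r ^ 2 * C))) :=
      (tendsto_pow_atTop_nhds_zero_of_lt_one (by positivity) hlt).mul_const _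
    rw [zero_mul] at ht
    have h6 : ‖δ z‖ ≤ 0 := ge_of_tendsto' ht hb
    exact norm_le_zero_iff.1 h6
  have hA : ∀ f : ℂ → E, Differentiable ℂ f → AnalyticOnNhd ℂ f Set.univ :=
    fun f hf => fun z _ => hf.analyticAt z
  refine (hA φ hφ).eq_of_eventuallyEq (hA ψ hψ) (z₀ := 0) ?_
  filter_upwards [Metric.ball_mem_nhds (0 : ℂ) hr] with z hz
  exact sub_eq_zero.1 (hzero z hz)

end Pool.Agent.MP_1209e6_cy
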