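import Pool.Agent.Lib_MP_1209e6_cy.PoincareA
import Pool.Agent.Lib_MP_1209e6_cy.PoincareB

/-!
PIECE [PNC] (MP_1209e6_ag).  Entire unstable curves of a fixed point.
-/

open Filter Topology

namespace Pool.Agent.MP_1209e6_cy

variable {E : Type*} [NormedAddCommGroup E] [NormedSpace ℂ E] [CompleteSpace E]

omit [CompleteSpace E] in
private theorem pnc_contDiff {F : E → E} (hF : ContDiff ℂ 2 F) (n : ℕ) :
    ContDiff ℂ 2 F^[n] := by
  induction n with
  | zero => exact contDiff_id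
  | succ n ih =>
    rw [Function.iterate_succ]
    exact ih.comp hF

omit [CompleteSpace E] in
private theorem pnc_eigen {e : E} {lam : ℂ} {T : E →L[ℂ] E} (he : T e = lam • e) (n : ℕ) :
    (T ^ n) e = lam ^ n • e := by
  induction n with
  | zero =>
    rw [pow_zero, pow_zero, one_smul]
    rfl
  | succ n ih =>
    have h1 : (T ^ (n + 1)) e = (T ^ n) (T e) := by
      rw [pow_succ]
      rfl
    rw [h1, he, map_smul, ih, smul_smul, pow_succ, mul_comm]

/-- PIECE [PNC].  Existence of the unstable curve when `‖T ^ n‖ < |λ|^(2 n)` for some `n ≥ 1`.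

Proof.  Apply `exists_poincare_one` to `F^[n]`, `λ^n`, `T^n`: there is `φ` with `φ(λ^n z) = F^[n](φ z)`.
`ψ(z) = F(φ(z / λ))` satisfies `ψ(0) = c`, `ψ'(0) = T e / λ = e`, `ψ(λ^n z) = F^[n](ψ z)`.  By
`poincare_unique` (for `F^[n]`) `ψ = φ`, i.e. `φ(λ z) = F(φ(z))`. -/
theorem exists_poincare {F : E → E} (hF : ContDiff ℂ 2 F) {c e : E} {lam : ℂ}
    (hlam : 1 < ‖lam‖) (hc : F c = c) {T : E →L[ℂ] E} (hT : HasFDerivAt F T c)
    (he : T e = lam • e) {n : ℕ} (hn : 1 ≤ n) (hTn : ‖T ^ n‖ < ‖lam‖ ^ (2 * n)) :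
    ∃ φ : ℂ → E, Differentiable ℂ φ ∧ φ 0 = c ∧ deriv φ 0 = e ∧ ∀ z, φ (lam * z) = F (φ z) := by
  have hlam0 : lam ≠ 0 := by
    rintro rfl
    rw [norm_zero] at hlam
    linarith
  have h1 : 1 < ‖lam ^ n‖ := by
    rw [norm_pow]
    exact one_lt_pow₀ hlam (by omega)
  have h2 : ‖T ^ n‖ < ‖lam ^ n‖ ^ 2 := by
    rw [norm_pow lam n, ← pow_mul, mul_comm n 2]
    exact hTn
  have hTn' : HasFDerivAt F^[n] (T ^ n) c := hT.iterate hc n
  have hcn : F^[n] c = c := Function.iterate_fixed hc n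
  obtain ⟨φ, hφ, hφ0, hφ1, hφe⟩ := exists_poincare_one (pnc_contDiff hF n) h1 hcn hTn'
    (pnc_eigen he n) h2
  have hFd : Differentiable ℂ F := hF.differentiable two_ne_zero
  have hd : HasDerivAt (fun z : ℂ => φ (lam⁻¹ * z)) (lam⁻¹ • e) 0 := by
    have e1 : HasDerivAt φ e (lam⁻¹ * 0) := by
      rw [mul_zero, ← hφ1]
      exact (hφ 0).hasDerivAt
    have e2 : HasDerivAt (fun z : ℂ => lam⁻¹ * z) (lam⁻¹ * 1) 0 :=
      (hasDerivAt_id (0 : ℂ)).const_mul lam⁻¹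
    have e3 := e1.scomp (0 : ℂ) e2
    rwa [mul_one] at e3
  have key : φ = fun z => F (φ (lam⁻¹ * z)) := by
    refine poincare_unique (pnc_contDiff hF n) h1 hTn' h2 hφ ?_ hφ0 ?_ ?_ hφe ?_
    · exact hFd.comp (hφ.comp (differentiable_id.const_mul lam⁻¹))
    · show F (φ (lam⁻¹ * 0)) = c
      rw [mul_zero, hφ0, hc]
    · have e1 : HasFDerivAt F T (φ (lam⁻¹ * 0)) := by
        rw [mul_zero, hφ0]
        exact hT
      have e2 := e1.comp_hasDerivAt (0 : ℂ) hd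
      have e3 : T (lam⁻¹ • e) = e := by
        rw [map_smul, he, smul_smul, inv_mul_cancel₀ hlam0, one_smul]
      rw [e3] at e2
      rw [hφ1]
      exact e2.deriv.symm
    · intro z
      show F (φ (lam⁻¹ * (lam ^ n * z))) = F^[n] (F (φ (lam⁻¹ * z)))
      rw [mul_left_comm, hφe, ← Function.iterate_succ_apply' F, Function.iterate_succ_apply]
  refine ⟨φ, hφ, hφ0, hφ1, fun z => ?_⟩
  have e1 := congrFun key (lam * z)
  rw [e1]
  show F (φ (lam⁻¹ * (lam * z))) = F (φ z)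
  rw [inv_mul_cancel_left₀ hlam0]

end Pool.Agent.MP_1209e6_cy
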