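import Mathlib

/-!
PIECE [SPE] (MP_1209e6_ag).  Norms of powers.
-/

open Filter Topology

namespace Pool.Agent.MP_1209e6_cy

variable {E : Type*} [NormedAddCommGroup E] [NormedSpace ℂ E] [CompleteSpace E]

/-- PIECE [SPE].  An operator killed by `X (X - 1) (X - λ) (X - λ⁻¹)`, `|λ| > 1`.

Proof.  By the polynomial spectral mapping theorem (`spectrum.subset_polynomial_aeval` or
`spectrum.map_polynomial_aeval`) the spectrum is contained in `{0, 1, λ, λ⁻¹}`, so the spectral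
radius is at most `|λ| < |λ|^2`; conclude with Gelfand's formula
(`spectrum.pow_nnnorm_pow_one_div_tendsto_nhds_spectralRadius`).  (Or directly: `T^n`, `n ≥ 1`, is a
linear combination of three fixed operators with coefficients `1, λ^n, λ^{-n}` (partial
fractions), so `‖T^n‖ ≤ C |λ|^n`.) -/
theorem exists_pow_norm_lt (T : E →L[ℂ] E) {lam : ℂ} (hlam : 1 < ‖lam‖)
    (h : T * (T - 1) * (T - lam • (1 : E →L[ℂ] E)) * (T - lam⁻¹ • (1 : E →L[ℂ] E)) = 0) :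
    ∃ n : ℕ, 1 ≤ n ∧ ‖T ^ n‖ < ‖lam‖ ^ (2 * n) := by
  have hl0 : lam ≠ 0 := by
    intro h0
    rw [h0, norm_zero] at hlam
    linarith
  have hlpos : 0 < ‖lam‖ := by linarith
  -- recursive bound: ‖T^(n+1)‖ grows at most like |lam|^n
  -- A = T*(T-1)*(T-lam): then T^n A = lam^{-n} A; B = T (T-1): T^(n+1) B = lam T^n B + lam^{-n} A
  set A : E →L[ℂ] E := T * (T - 1) * (T - lam • (1 : E →L[ℂ] E)) with hA
  set B : E →L[ℂ] E := T * (T - 1) with hB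
  have hBT : B * T = T * B := by
    rw [hB]
    simp only [mul_sub, sub_mul, mul_one, ← mul_assoc]
  have hAc : T * A = lam⁻¹ • A := by
    have h1 : A * (T - lam⁻¹ • (1 : E →L[ℂ] E)) = 0 := h
    have h2 : A * T = T * A := by
      rw [hA]
      rw [mul_sub, mul_smul_comm, mul_one, sub_mul, mul_sub, smul_mul_assoc, mul_smul_comm,
        mul_assoc B T T, ← mul_assoc T B T, ← hBT, mul_assoc B T T]
    rw [mul_sub, h2, mul_smul_comm, mul_one, sub_eq_zero] at h1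
    exact h1
  have hBc : T * B = lam • B + A := by
    rw [hA, mul_sub, hBT, mul_smul_comm, mul_one]
    abel
  have hTc : T * T = T + B := by
    rw [hB, mul_sub, mul_one]
    abel
  -- norms
  have hAn : ∀ n : ℕ, ‖T ^ n * A‖ ≤ ‖A‖ := by
    intro n
    induction n with
    | zero => simp
    | succ n ih =>
      rw [pow_succ, mul_assoc, hAc, mul_smul_comm, norm_smul]
      calc ‖lam⁻¹‖ * ‖T ^ n * A‖ ≤ 1 * ‖T ^ n * A‖ := by
            refine mul_le_mul_of_nonneg_right ?_ (norm_nonneg _)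
            rw [norm_inv]
            exact inv_le_one_of_one_le₀ hlam.le
        _ ≤ ‖A‖ := by rw [one_mul]; exact ih
  have hBn : ∀ n : ℕ, ‖T ^ n * B‖ ≤ ‖lam‖ ^ n * (‖B‖ + n * ‖A‖) := by
    intro n
    induction n with
    | zero => simp
    | succ n ih =>
      rw [pow_succ, mul_assoc, hBc, mul_add, mul_smul_comm]
      have h1 : (1 : ℝ) ≤ ‖lam‖ ^ (n + 1) := one_le_pow₀ hlam.le
      calc ‖lam • (T ^ n * B) + T ^ n * A‖ ≤ ‖lam‖ * ‖T ^ n * B‖ + ‖T ^ n * A‖ := by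
            refine (norm_add_le _ _).trans ?_
            rw [norm_smul]
        _ ≤ ‖lam‖ * (‖lam‖ ^ n * (‖B‖ + n * ‖A‖)) + ‖A‖ := by
            gcongr
            exact hAn n
        _ ≤ ‖lam‖ * (‖lam‖ ^ n * (‖B‖ + n * ‖A‖)) + ‖lam‖ ^ (n + 1) * ‖A‖ := by
            gcongr
            exact le_mul_of_one_le_left (norm_nonneg _) h1
        _ = ‖lam‖ ^ (n + 1) * (‖B‖ + ((n + 1 : ℕ) : ℝ) * ‖A‖) := by
            push_cast
            ring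
  have hTn : ∀ n : ℕ, ‖T ^ (n + 1)‖ ≤ ‖T‖ + n * (‖lam‖ ^ n * (‖B‖ + n * ‖A‖)) := by
    intro n
    induction n with
    | zero => simp
    | succ n ih =>
      have e : T ^ (n + 1 + 1) = T ^ (n + 1) + T ^ n * B := by
        rw [pow_succ, pow_succ, mul_assoc, hTc, mul_add]
      rw [e]
      have h2 : ‖lam‖ ^ n * (‖B‖ + n * ‖A‖) ≤
          ‖lam‖ ^ (n + 1) * (‖B‖ + ((n + 1 : ℕ) : ℝ) * ‖A‖) := by
        have : (n : ℝ) ≤ ((n + 1 : ℕ) : ℝ) := by push_cast; linarith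
        have h3 : ‖lam‖ ^ n ≤ ‖lam‖ ^ (n + 1) := pow_le_pow_right₀ hlam.le (by omega)
        gcongr
      have h4 : 0 ≤ ‖lam‖ ^ n * (‖B‖ + n * ‖A‖) := by positivity
      calc ‖T ^ (n + 1) + T ^ n * B‖ ≤ ‖T ^ (n + 1)‖ + ‖T ^ n * B‖ := norm_add_le _ _
        _ ≤ (‖T‖ + n * (‖lam‖ ^ n * (‖B‖ + n * ‖A‖))) + ‖lam‖ ^ n * (‖B‖ + n * ‖A‖) :=
            add_le_add ih (hBn n)
        _ = ‖T‖ + ((n + 1 : ℕ) : ℝ) * (‖lam‖ ^ n * (‖B‖ + n * ‖A‖)) := by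
            push_cast
            ring
        _ ≤ ‖T‖ + ((n + 1 : ℕ) : ℝ) * (‖lam‖ ^ (n + 1) * (‖B‖ + ((n + 1 : ℕ) : ℝ) * ‖A‖)) := by
            gcongr
  -- limit
  have hlim : Tendsto (fun n : ℕ => ((n : ℝ) ^ 2 * (‖T‖ + ‖B‖ + ‖A‖)) * (‖lam‖⁻¹) ^ n) atTop
      (𝓝 0) := by
    have h1 := tendsto_pow_const_mul_const_pow_of_abs_lt_one 2 (r := ‖lam‖⁻¹) (by
      rw [abs_of_pos (inv_pos.2 hlpos)]
      exact inv_lt_one_of_one_lt₀ hlam)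
    have h2 := h1.mul_const (‖T‖ + ‖B‖ + ‖A‖)
    rw [zero_mul] at h2
    refine h2.congr fun n => ?_
    ring
  have hev : ∀ᶠ n : ℕ in atTop, ((n : ℝ) ^ 2 * (‖T‖ + ‖B‖ + ‖A‖)) * (‖lam‖⁻¹) ^ n < 1 :=
    hlim.eventually_lt_const one_pos
  obtain ⟨n, hn, hn1⟩ := (hev.and (eventually_ge_atTop 1)).exists
  refine ⟨n + 1, by omega, ?_⟩
  have hn1' : (1 : ℝ) ≤ n := by exact_mod_cast hn1
  have hpow : 0 < ‖lam‖ ^ n := by positivity
  have h5 : ((n : ℝ) ^ 2 * (‖T‖ + ‖B‖ + ‖A‖)) < ‖lam‖ ^ n := by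
    rw [inv_pow, ← div_eq_mul_inv, div_lt_one hpow] at hn
    exact hn
  have h6 : (1 : ℝ) ≤ ‖lam‖ ^ n := one_le_pow₀ hlam.le
  have h7 : ‖T‖ + n * (‖lam‖ ^ n * (‖B‖ + n * ‖A‖)) ≤
      ‖lam‖ ^ n * ((n : ℝ) ^ 2 * (‖T‖ + ‖B‖ + ‖A‖)) := by
    have a1 : ‖T‖ ≤ ‖lam‖ ^ n * ((n : ℝ) ^ 2 * ‖T‖) := by
      have : (1 : ℝ) ≤ ‖lam‖ ^ n * (n : ℝ) ^ 2 := by
        have : (1 : ℝ) ≤ (n : ℝ) ^ 2 := one_le_pow₀ hn1'
        nlinarith
      calc ‖T‖ = 1 * ‖T‖ := (one_mul _).symm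
        _ ≤ (‖lam‖ ^ n * (n : ℝ) ^ 2) * ‖T‖ := mul_le_mul_of_nonneg_right this (norm_nonneg _)
        _ = _ := by ring
    have a2 : (n : ℝ) * (‖lam‖ ^ n * ‖B‖) ≤ ‖lam‖ ^ n * ((n : ℝ) ^ 2 * ‖B‖) := by
      have h0 : (n : ℝ) ≤ (n : ℝ) ^ 2 := by nlinarith
      have h00 : 0 ≤ ‖lam‖ ^ n * ‖B‖ := by positivity
      nlinarith
    nlinarith [norm_nonneg A]
  calc ‖T ^ (n + 1)‖ ≤ ‖T‖ + n * (‖lam‖ ^ n * (‖B‖ + n * ‖A‖)) := hTn n
    _ ≤ ‖lam‖ ^ n * ((n : ℝ) ^ 2 * (‖T‖ + ‖B‖ + ‖A‖)) := h7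
    _ < ‖lam‖ ^ n * ‖lam‖ ^ n := mul_lt_mul_of_pos_left h5 hpow
    _ = ‖lam‖ ^ (2 * n) := by rw [← pow_add]; congr 1; ring
    _ ≤ ‖lam‖ ^ (2 * (n + 1)) := pow_le_pow_right₀ hlam.le (by omega)

end Pool.Agent.MP_1209e6_cy
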