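import Pool.Agent.Lib_MP_1209e6_cy.FixedA
import Pool.Agent.Lib_MP_1209e6_cy.Deriv
import Pool.Agent.Lib_MP_1209e6_cy.Poincare
import Pool.Agent.Lib_MP_1209e6_cy.SpecRad
import Pool.Agent.Lib_MP_1209e6_cy.LinPart

/-!
PIECE [FXC] (MP_1209e6_ag).  The invariant curve through a fixed point.
-/

open Matrix Filter Topology

namespace Pool.Agent.MP_1209e6_cy

variable {m : ℕ}

private theorem fxc_lin {V : Type*} [NormedAddCommGroup V] [NormedSpace ℂ V]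
    (L : V × V →L[ℂ] V × V) (x u : V) (hu : u ≠ 0) (ℓ : V →L[ℂ] ℂ) (c : V → V → ℂ)
    (h : ∀ ξ η, L (ξ, η) = (ξ - ℓ ξ • x - c ξ η • u, η)) :
    ∃ f : V × V →ₗ[ℂ] ℂ, ∀ ξ η, f (ξ, η) = c ξ η := by
  have hc : ∀ p : V × V, c p.1 p.2 • u = p.1 - ℓ p.1 • x - (L p).1 := by
    intro p
    have h1 := h p.1 p.2
    have h2 : (L p).1 = p.1 - ℓ p.1 • x - c p.1 p.2 • u := by
      have := congrArg Prod.fst h1
      simpa using this
    rw [h2]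
    abel
  refine ⟨{ toFun := fun p => c p.1 p.2, map_add' := fun p q => ?_, map_smul' := fun r p => ?_ },
    fun ξ η => rfl⟩
  · apply smul_left_injective ℂ hu
    show c (p + q).1 (p + q).2 • u = (c p.1 p.2 + c q.1 q.2) • u
    rw [hc (p + q), add_smul, hc p, hc q, map_add, Prod.fst_add, Prod.fst_add, map_add, add_smul]
    abel
  · apply smul_left_injective ℂ hu
    show c (r • p).1 (r • p).2 • u = (r • c p.1 p.2) • u
    rw [hc (r • p), smul_assoc, hc p, map_smul, Prod.smul_fst, Prod.smul_fst, map_smul, smul_sub,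
      smul_sub, smul_assoc]

private theorem fxc_ell {N : ℕ} {x u : Fin N → ℂ} (h : Indep x u) :
    ∃ ℓ : (Fin N → ℂ) →L[ℂ] ℂ, ℓ x = 1 ∧ ℓ u = 0 := by
  obtain ⟨i, j, hij⟩ := h
  have hd : x i * u j - x j * u i ≠ 0 := sub_ne_zero.mpr hij
  refine ⟨(x i * u j - x j * u i)⁻¹ • (u j • ContinuousLinearMap.proj i -
    u i • ContinuousLinearMap.proj j), ?_, ?_⟩
  · show (x i * u j - x j * u i)⁻¹ * (u j * x i - u i * x j) = 1
    rw [show u j * x i - u i * x j = x i * u j - x j * u i by ring]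
    exact inv_mul_cancel₀ hd
  · show (x i * u j - x j * u i)⁻¹ * (u j * u i - u i * u j) = 0
    ring

private theorem fxc_indep_smul {N : ℕ} {x u : Fin N → ℂ} (h : Indep x u) {c : ℂ} (hc : c ≠ 0) :
    Indep x (c • u) := by
  obtain ⟨i, j, hij⟩ := h
  refine ⟨i, j, fun h2 => hij ?_⟩
  have h3 : c * (x i * u j) = c * (x j * u i) := by
    have : x i * (c * u j) = x j * (c * u i) := h2
    linear_combination this
  exact mul_left_cancel₀ hc h3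

private theorem fxc_ne_zero {N : ℕ} {x u : Fin N → ℂ} (h : Indep x u) : u ≠ 0 := by
  rintro rfl
  obtain ⟨i, j, hij⟩ := h
  simp at hij

private theorem fxc_S {D : Dat m ℂ} {w x y : Vec m ℂ} (h : D.B x (pv (D.row y) w) y y = 0) :
    D.S w x y = D.B (pv (D.row y) w) (pv (D.row y) w) y y • x := by
  funext j
  show D.B (pv (D.row y) w) (pv (D.row y) w) y y * x j -
    2 * D.B x (pv (D.row y) w) y y * pv (D.row y) w j = _
  rw [h]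
  simp

/-- PIECE [FXC].  Existence of the invariant curve.

Proof.  Choose `ℓ` with `ℓ(x) = 1, ℓ(u) = 0` and `ℓ'` with `ℓ'(y) = 1`, `ℓ'(v) = 0` (`Sad.indep_u`,
`Sad.indep_v`).  `exists_scalar` for `D` gives `α` and the map `G₁(x, y) = (α S, y)`; for `D.swap` (with the
two factors exchanged, `Prod.swap`) it gives `β` and `G₂(x, y) = (x, β S')`.  Both fix `(x₀, y₀)`
(`S w x₀ y₀ = Qu x₀`).  `F = G₂ ∘ G₁` is `C^2`, with derivative `T₂ T₁`; the functionals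
`f(ξ, η) = (2/Qu)(b(ξ, u, y, y) + γ(η))` have the values required in `linear_part`
(`f(x,0) = 0` by `hu`, `f(u,0) = 2`, `f(0,y) = 0` by `gam_self`, `g = 2 γ(v)/Qu`, and `g' = 2 γ'(u)/Qv`),
`g g' = 4 γ(v) γ'(u) / (Qu Qv) = τ ∉ [0, 4]`, `exists_multiplier` gives `λ`.  `g ≠ 0` since `τ ≠ 0`,
`1 + λ ≠ 0` since `|λ| > 1`.  `exists_pow_norm_lt` and `exists_poincare` give `φ = (x, y)`;
`x'(0) = -g u`, `y'(0) = (1 + λ) v`.  `a(z) = α(x(z), y(z))` and `b(z) = β(y(z), x(λ z))`. -/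
theorem Sad.exists_curve {D : Dat m ℂ} (hD : D.Symm) {w w' x₀ y₀ : Vec m ℂ}
    (h : Sad D w w' x₀ y₀) : ∃ (lam : ℂ) (x y : ℂ → Vec m ℂ) (a b : ℂ → ℂ),
      Curve D w w' x₀ y₀ lam x y a b := by
  set u : Vec m ℂ := pv (D.row y₀) w with hudef
  set v : Vec m ℂ := pv (D.swap.row x₀) w' with hvdef
  have iu : Indep x₀ u := h.indep_u hD
  have iv : Indep y₀ v := h.indep_v hD
  have hu0 : u ≠ 0 := fxc_ne_zero iu
  have hv0 : v ≠ 0 := fxc_ne_zero iv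
  obtain ⟨ℓ, hℓx, hℓu⟩ := fxc_ell iu
  obtain ⟨ℓ', hℓy, hℓv⟩ := fxc_ell iv
  have hu : D.B x₀ u y₀ y₀ = 0 := h.hu
  have hv : D.B x₀ x₀ y₀ v = 0 := h.hv
  have hQu : D.B u u y₀ y₀ ≠ 0 := h.Qu
  have hQv : D.B x₀ x₀ v v ≠ 0 := h.Qv
  have hsv : D.swap.B y₀ v x₀ x₀ = 0 := by rw [Dat.swap_B]; exact hv
  have hsq : D.swap.B v v x₀ x₀ = D.B x₀ x₀ v v := Dat.swap_B D x₀ x₀ v v
  have hsQ : D.swap.B v v x₀ x₀ ≠ 0 := by rw [hsq]; exact hQv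
  obtain ⟨α, hα, hα0, T₁, hT₁, hT₁'⟩ := Dat.exists_scalar hD hu hQu ℓ hℓx
  obtain ⟨β, hβ, hβ0, T', hT', hT''⟩ := Dat.exists_scalar hD.swap hsv hsQ ℓ' hℓy
  rw [← hudef] at hT₁' hα0
  rw [← hvdef] at hT'' hβ0
  obtain ⟨f, hf⟩ := fxc_lin T₁ x₀ u hu0 ℓ _ hT₁'
  obtain ⟨f₂, hf₂⟩ := fxc_lin T' y₀ v hv0 ℓ' _ hT''
  -- the swapped second derivative
  let sw : Vec m ℂ × Vec m ℂ →L[ℂ] Vec m ℂ × Vec m ℂ :=
    (ContinuousLinearMap.snd ℂ (Vec m ℂ) (Vec m ℂ)).prod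
      (ContinuousLinearMap.fst ℂ (Vec m ℂ) (Vec m ℂ))
  have hsw : ∀ p, sw p = (p.2, p.1) := fun p => rfl
  let f' : Vec m ℂ × Vec m ℂ →ₗ[ℂ] ℂ := f₂.comp sw.toLinearMap
  have hf' : ∀ ξ η, f' (ξ, η) = f₂ (η, ξ) := fun ξ η => rfl
  let T₂ : Vec m ℂ × Vec m ℂ →L[ℂ] Vec m ℂ × Vec m ℂ := sw.comp (T'.comp sw)
  have hT₂ : ∀ ξ η, T₂ (ξ, η) = (ξ, η - ℓ' η • y₀ - f' (ξ, η) • v) := by
    intro ξ η
    show sw (T' (η, ξ)) = _
    rw [hT'', hsw, hf', hf₂]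
  have hT₁2 : ∀ ξ η, T₁ (ξ, η) = (ξ - ℓ ξ • x₀ - f (ξ, η) • u, η) := by
    intro ξ η
    rw [hT₁', hf]
  -- values of the functionals
  have hc : (2 : ℂ) / D.B u u y₀ y₀ ≠ 0 := div_ne_zero two_ne_zero hQu
  have hc' : (2 : ℂ) / D.swap.B v v x₀ x₀ ≠ 0 := div_ne_zero two_ne_zero hsQ
  have hg0 : D.gam w x₀ y₀ 0 = 0 := by
    have h1 := hf 0 0
    rw [show ((0 : Vec m ℂ), (0 : Vec m ℂ)) = 0 from rfl, map_zero, Dat.B_zero₁, zero_add] at h1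
    exact (mul_eq_zero.mp h1.symm).resolve_left hc
  have hg0' : D.swap.gam w' y₀ x₀ 0 = 0 := by
    have h1 := hf₂ 0 0
    rw [show ((0 : Vec m ℂ), (0 : Vec m ℂ)) = 0 from rfl, map_zero, Dat.B_zero₁, zero_add] at h1
    exact (mul_eq_zero.mp h1.symm).resolve_left hc'
  have f1 : f (x₀, 0) = 0 := by rw [hf, hu, hg0, add_zero, mul_zero]
  have f2 : f (u, 0) = 2 := by rw [hf, hg0, add_zero, div_mul_cancel₀ _ hQu]
  have f3 : f (0, y₀) = 0 := by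
    rw [hf, Dat.B_zero₁, hD.gam_self hu, add_zero, mul_zero]
  have f1' : f' (0, y₀) = 0 := by rw [hf', hf₂, hsv, hg0', add_zero, mul_zero]
  have f2' : f' (0, v) = 2 := by rw [hf', hf₂, hg0', add_zero, div_mul_cancel₀ _ hsQ]
  have f3' : f' (x₀, 0) = 0 := by
    rw [hf', hf₂, Dat.B_zero₁, hD.swap.gam_self hsv, add_zero, mul_zero]
  set g : ℂ := f (0, v) with hg
  set g' : ℂ := f' (u, 0) with hg'
  have hgv : g = 2 / D.B u u y₀ y₀ * D.gam w x₀ y₀ v := by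
    rw [hg, hf, Dat.B_zero₁, zero_add]
  have hgv' : g' = 2 / D.B x₀ x₀ v v * D.swap.gam w' y₀ x₀ u := by
    rw [hg', hf', hf₂, Dat.B_zero₁, zero_add, hsq]
  have hgg : g * g' * (D.B u u y₀ y₀ * D.B x₀ x₀ v v) =
      4 * D.gam w x₀ y₀ v * D.swap.gam w' y₀ x₀ u := by
    rw [hgv, hgv']
    field_simp
    ring
  have hτ : ∀ t : ℝ, 0 ≤ t → t ≤ 4 → g * g' ≠ t := by
    intro t h0 h4 heq
    apply h.tau t h0 h4
    rw [← hudef, ← hvdef, ← hgg, heq]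
    ring
  obtain ⟨lam, hlam, hlam2⟩ := exists_multiplier hτ
  have hlam0 : lam ≠ 0 := by
    rintro rfl
    rw [norm_zero] at hlam
    linarith
  obtain ⟨hTe, hTp⟩ := linear_part T₁ T₂ x₀ u y₀ v ℓ ℓ' f f' g g' lam hlam0 hlam2 hT₁2 hT₂
    hℓx hℓu hℓy hℓv f1 f2 f3 rfl f1' f2' f3' rfl
  obtain ⟨n, hn, hTn⟩ := exists_pow_norm_lt (T₂ * T₁) hlam hTp
  -- the map
  let G₁ : Vec m ℂ × Vec m ℂ → Vec m ℂ × Vec m ℂ := fun p => (α p • D.S w p.1 p.2, p.2)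
  let H₂ : Vec m ℂ × Vec m ℂ → Vec m ℂ × Vec m ℂ := fun p => (β p • D.swap.S w' p.1 p.2, p.2)
  let G₂ : Vec m ℂ × Vec m ℂ → Vec m ℂ × Vec m ℂ := fun p => sw (H₂ (sw p))
  have hG₁c : ContDiff ℂ 2 G₁ := (hα.smul (D.contDiff_S w)).prodMk contDiff_snd
  have hH₂c : ContDiff ℂ 2 H₂ := (hβ.smul (D.swap.contDiff_S w')).prodMk contDiff_snd
  have hG₂c : ContDiff ℂ 2 G₂ := sw.contDiff.comp (hH₂c.comp sw.contDiff)
  have hG₁0 : G₁ (x₀, y₀) = (x₀, y₀) := by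
    show (α (x₀, y₀) • D.S w x₀ y₀, y₀) = (x₀, y₀)
    rw [fxc_S hu, smul_smul, hα0, one_smul]
  have hH₂0 : H₂ (y₀, x₀) = (y₀, x₀) := by
    show (β (y₀, x₀) • D.swap.S w' y₀ x₀, x₀) = (y₀, x₀)
    rw [fxc_S hsv, smul_smul, hβ0, one_smul]
  have hG₂0 : G₂ (x₀, y₀) = (x₀, y₀) := by
    show sw (H₂ (y₀, x₀)) = (x₀, y₀)
    rw [hH₂0]
    rfl
  have hdG₂ : HasFDerivAt G₂ T₂ (x₀, y₀) := by
    have h1 : HasFDerivAt H₂ T' (sw (x₀, y₀)) := hT'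
    have h2 : HasFDerivAt (fun p => H₂ (sw p)) (T'.comp sw) (x₀, y₀) :=
      HasFDerivAt.comp (x₀, y₀) h1 sw.hasFDerivAt
    exact HasFDerivAt.comp (x₀, y₀) (sw.hasFDerivAt) h2
  have hdF : HasFDerivAt (fun p => G₂ (G₁ p)) (T₂ * T₁) (x₀, y₀) := by
    have h1 : HasFDerivAt G₂ T₂ (G₁ (x₀, y₀)) := by rw [hG₁0]; exact hdG₂
    exact HasFDerivAt.comp (g := G₂) (f := G₁) (x₀, y₀) h1 hT₁
  obtain ⟨φ, hφ, hφ0, hφ1, hφ2⟩ := exists_poincare (hG₂c.comp hG₁c) hlam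
    (by show G₂ (G₁ (x₀, y₀)) = (x₀, y₀); rw [hG₁0, hG₂0]) hdF hTe hn hTn
  have hg_ne : g ≠ 0 := by
    intro h0
    apply hτ 0 le_rfl (by norm_num)
    rw [h0]
    simp
  have hlam1 : 1 + lam ≠ 0 := by
    intro h0
    have : lam = -1 := by linear_combination h0
    rw [this] at hlam
    simp at hlam
  have hx1 : deriv (fun z => (φ z).1) 0 = -g • u := by
    have h1 : HasDerivAt φ (-g • u, (1 + lam) • v) 0 := by
      rw [← hφ1]; exact (hφ 0).hasDerivAt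
    exact ((ContinuousLinearMap.fst ℂ (Vec m ℂ) (Vec m ℂ)).hasFDerivAt.comp_hasDerivAt 0 h1).deriv
  have hy1 : deriv (fun z => (φ z).2) 0 = (1 + lam) • v := by
    have h1 : HasDerivAt φ (-g • u, (1 + lam) • v) 0 := by
      rw [← hφ1]; exact (hφ 0).hasDerivAt
    exact ((ContinuousLinearMap.snd ℂ (Vec m ℂ) (Vec m ℂ)).hasFDerivAt.comp_hasDerivAt 0 h1).deriv
  have hdx : Differentiable ℂ (fun z => (φ z).1) := hφ.fst
  have hdy : Differentiable ℂ (fun z => (φ z).2) := hφ.snd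
  refine ⟨lam, fun z => (φ z).1, fun z => (φ z).2, fun z => α (φ z),
    fun z => β ((φ z).2, (φ (lam * z)).1), ?_⟩
  refine ⟨hlam, hdx, hdy, (hα.differentiable (by norm_num)).comp hφ, ?_, ?_, ?_, ?_, ?_, ?_, ?_,
    ?_, ?_⟩
  · refine (hβ.differentiable (by norm_num)).comp (hdy.prodMk ?_)
    exact hdx.comp ((differentiable_id).const_mul lam)
  · show (φ 0).1 = x₀
    rw [hφ0]
  · show (φ 0).2 = y₀
    rw [hφ0]
  · rw [hx1]
    exact fxc_indep_smul iu (neg_ne_zero.mpr hg_ne)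
  · rw [hy1]
    exact fxc_indep_smul iv hlam1
  · show α (φ 0) * D.B (pv (D.row y₀) w) (pv (D.row y₀) w) y₀ y₀ = 1
    rw [hφ0]
    exact hα0
  · show β ((φ 0).2, (φ (lam * 0)).1) * D.B x₀ x₀ (pv (D.swap.row x₀) w')
      (pv (D.swap.row x₀) w') = 1
    rw [mul_zero, hφ0, ← hvdef, ← hsq]
    exact hβ0
  · intro z
    show (φ (lam * z)).1 = α (φ z) • D.S w (φ z).1 (φ z).2
    rw [hφ2 z]
    rfl
  · intro z
    show (φ (lam * z)).2 = β ((φ z).2, (φ (lam * z)).1) • D.swap.S w' (φ z).2 (φ (lam * z)).1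
    rw [hφ2 z]
    rfl

end Pool.Agent.MP_1209e6_cy
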