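import Pool.Agent.Lib_MP_1209e6_cy.DerivA

/-!
PIECE [FXA] (MP_1209e6_ag).  The invariant curve through a fixed point.
-/

open Matrix Filter Topology

namespace Pool.Agent.MP_1209e6_cy

variable {m : ℕ}

/-- A fixed point `(x, y)` of the composition of the two involutions at which both projections
ramify, with multiplier not of modulus one; `u = pv (row y) w`, `v = pv (swap.row x) w'`. -/
structure Sad (D : Dat m ℂ) (w w' x y : Vec m ℂ) : Prop where
  hin : D.In x y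
  hu : D.B x (pv (D.row y) w) y y = 0
  hv : D.B x x y (pv (D.swap.row x) w') = 0
  Qu : D.B (pv (D.row y) w) (pv (D.row y) w) y y ≠ 0
  Qv : D.B x x (pv (D.swap.row x) w') (pv (D.swap.row x) w') ≠ 0
  tau : ∀ t : ℝ, 0 ≤ t → t ≤ 4 →
    4 * D.gam w x y (pv (D.swap.row x) w') * D.swap.gam w' y x (pv (D.row y) w) ≠
      t * D.B (pv (D.row y) w) (pv (D.row y) w) y y *
        D.B x x (pv (D.swap.row x) w') (pv (D.swap.row x) w')

/-- PIECE [FXA].  `x, u` are independent, and so are `y, v`.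

Proof.  `x ≠ 0` by `Qv`.  If all `x_i u_j = x_j u_i` then `u = c x` for some `c` (as `x ≠ 0`), so
`Qu = b(u, u, y, y) = c b(x, u, y, y) = 0`, contradiction. -/
theorem Sad.indep_u {D : Dat m ℂ} (hD : D.Symm) {w w' x y : Vec m ℂ} (h : Sad D w w' x y) :
    Indep x (pv (D.row y) w) := by
  have hx : x ≠ 0 := by
    intro h0
    refine h.Qv ?_
    rw [h0, D.B_zero₁]
  obtain ⟨i, hi⟩ := Function.ne_iff.mp hx
  by_contra hcon
  unfold Indep at hcon
  push Not at hcon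
  have hc : pv (D.row y) w = (pv (D.row y) w i / x i) • x := by
    funext j
    rw [Pi.smul_apply, smul_eq_mul, div_mul_eq_mul_div, eq_div_iff hi]
    have h1 := hcon i j
    linear_combination h1
  refine h.Qu ?_
  have h2 : D.B ((pv (D.row y) w i / x i) • x) (pv (D.row y) w) y y = 0 := by
    rw [D.B_smul₁, h.hu, mul_zero]
  rwa [← hc] at h2

theorem Sad.indep_v {D : Dat m ℂ} (hD : D.Symm) {w w' x y : Vec m ℂ} (h : Sad D w w' x y) :
    Indep y (pv (D.swap.row x) w') := by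
  have hy : y ≠ 0 := by
    intro h0
    refine h.Qu ?_
    have h1 := D.B_smul₃ (pv (D.row y) w) (pv (D.row y) w) y y 0
    rw [zero_smul, zero_mul] at h1
    nth_rewrite 3 [h0]
    exact h1
  obtain ⟨i, hi⟩ := Function.ne_iff.mp hy
  by_contra hcon
  unfold Indep at hcon
  push Not at hcon
  have hc : pv (D.swap.row x) w' = (pv (D.swap.row x) w' i / y i) • y := by
    funext j
    rw [Pi.smul_apply, smul_eq_mul, div_mul_eq_mul_div, eq_div_iff hi]
    have h1 := hcon i j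
    linear_combination h1
  refine h.Qv ?_
  have h2 : D.B x x ((pv (D.swap.row x) w' i / y i) • y) (pv (D.swap.row x) w') = 0 := by
    rw [D.B_smul₃, h.hv, mul_zero]
  rwa [← hc] at h2

/-- PIECE [FXA].  A number `τ` outside `[0, 4]` is `λ + 2 + 1/λ` with `|λ| > 1`.

Proof.  Let `λ` be a root of `λ^2 - (τ - 2) λ + 1`, the other root is `1/λ`; if `|λ| = 1` then
`τ = 2 + 2 Re λ ∈ [0, 4]`.  Take the root of larger modulus. -/
theorem exists_multiplier {τ : ℂ} (h : ∀ t : ℝ, 0 ≤ t → t ≤ 4 → τ ≠ t) :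
    ∃ lam : ℂ, 1 < ‖lam‖ ∧ τ * lam = (lam + 1) ^ 2 := by
  obtain ⟨s, hs⟩ : ∃ s : ℂ, s ^ 2 = (τ - 2) ^ 2 - 4 := IsAlgClosed.exists_pow_nat_eq _ two_pos
  obtain ⟨l₁, hl₁⟩ : ∃ l₁ : ℂ, l₁ = ((τ - 2) + s) / 2 := ⟨_, rfl⟩
  obtain ⟨l₂, hl₂⟩ : ∃ l₂ : ℂ, l₂ = ((τ - 2) - s) / 2 := ⟨_, rfl⟩
  have hprod : l₁ * l₂ = 1 := by
    rw [hl₁, hl₂]
    linear_combination (-1 / 4 : ℂ) * hs
  have hsum : l₁ + l₂ = τ - 2 := by
    rw [hl₁, hl₂]
    ring
  have e1 : τ * l₁ = (l₁ + 1) ^ 2 := by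
    linear_combination (-l₁) * hsum + hprod
  have e2 : τ * l₂ = (l₂ + 1) ^ 2 := by
    linear_combination (-l₂) * hsum + hprod
  have hn : ‖l₁‖ * ‖l₂‖ = 1 := by
    rw [← norm_mul, hprod, norm_one]
  rcases lt_trichotomy 1 ‖l₁‖ with h1 | h1 | h1
  · exact ⟨l₁, h1, e1⟩
  · exfalso
    have h2 : l₂ = (starRingEnd ℂ) l₁ := by
      have h3 : l₁ * (starRingEnd ℂ) l₁ = 1 := by
        rw [Complex.mul_conj, Complex.normSq_eq_norm_sq, ← h1]
        norm_num
      have h4 : l₁ ≠ 0 := left_ne_zero_of_mul_eq_one hprod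
      exact mul_left_cancel₀ h4 (hprod.trans h3.symm)
    have h3 : τ = ((2 + 2 * l₁.re : ℝ) : ℂ) := by
      have h4 : l₁ + (starRingEnd ℂ) l₁ = ((2 * l₁.re : ℝ) : ℂ) := Complex.add_conj l₁
      have h5 : τ = 2 + (l₁ + l₂) := by
        rw [hsum]
        ring
      rw [h5, h2, h4]
      push_cast
      ring
    have h4 := Complex.abs_re_le_norm l₁
    rw [← h1] at h4
    have h5 := abs_le.1 h4
    exact h (2 + 2 * l₁.re) (by linarith) (by linarith) h3
  · refine ⟨l₂, ?_, e2⟩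
    by_contra h2
    rw [not_lt] at h2
    have h3 := norm_nonneg l₁
    have h4 := norm_nonneg l₂
    nlinarith

/-- the data of an invariant curve -/
structure Curve (D : Dat m ℂ) (w w' x₀ y₀ : Vec m ℂ) (lam : ℂ) (x y : ℂ → Vec m ℂ)
    (a b : ℂ → ℂ) : Prop where
  hlam : 1 < ‖lam‖
  dx : Differentiable ℂ x
  dy : Differentiable ℂ y
  da : Differentiable ℂ a
  db : Differentiable ℂ b
  x0 : x 0 = x₀
  y0 : y 0 = y₀
  ix : Indep x₀ (deriv x 0)
  iy : Indep y₀ (deriv y 0)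
  a0 : a 0 * D.B (pv (D.row y₀) w) (pv (D.row y₀) w) y₀ y₀ = 1
  b0 : b 0 * D.B x₀ x₀ (pv (D.swap.row x₀) w') (pv (D.swap.row x₀) w') = 1
  fx : ∀ z, x (lam * z) = a z • D.S w (x z) (y z)
  fy : ∀ z, y (lam * z) = b z • D.swap.S w' (y z) (x (lam * z))

end Pool.Agent.MP_1209e6_cy
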