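import Pool.Agent.Lib_MP_1209e6_cy.SaddleDef

/-!
PIECE [GNA] (MP_1209e6_ag).  Elementary consequences of the saddle hypothesis.
-/

open Matrix Filter Topology

namespace Pool.Agent.MP_1209e6_cy

variable {m : ℕ}

theorem gna_row_smul (D : Dat m ℂ) (d : ℂ) (y : Vec m ℂ) (i : Fin m) :
    D.row (d • y) i = d • D.row y i := by
  funext j
  simp only [Dat.row, Pi.smul_apply, smul_eq_mul, Finset.mul_sum]
  refine Finset.sum_congr rfl fun l _ => ?_
  ring

theorem gna_indep_row {D : Dat m ℂ} {d : ℂ} (hd : d ≠ 0) {y : Vec m ℂ}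
    (h : LinearIndependent ℂ (D.row y)) : LinearIndependent ℂ (D.row (d • y)) := by
  have h1 : D.row (d • y) = (fun _ : Fin m => Units.mk0 d hd) • D.row y := by
    funext i
    rw [gna_row_smul]
    rfl
  rw [h1]
  exact h.units_smul _

/-- PIECE [GNA].  Rescaling the two points. -/
theorem Saddle.smul {D : Dat m ℂ} (hD : D.Symm) {x y u v : Vec m ℂ} {μ ν : Fin m → ℂ}
    (h : Saddle D x y u v μ ν) {c d : ℂ} (hc : c ≠ 0) (hd : d ≠ 0) :
    Saddle D (c • x) (d • y) u v ((c * d) • μ) ((c * d) • ν) := by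
  have hcd : c * d ≠ 0 := mul_ne_zero hc hd
  constructor
  · exact gna_indep_row hd h.indY
  · exact gna_indep_row hc h.indX
  · intro i
    rw [Dat.A_smul_left, Dat.A_smul_right, h.hxy i]
    ring
  · intro i
    rw [Dat.A_smul_right, h.hu i, mul_zero]
  · intro i
    rw [Dat.A_smul_left, h.hv i, mul_zero]
  · intro ξ
    rw [Dat.B_smul₁, Dat.B_smul₃, hD.B_smul₄]
    have h1 := h.hν ξ
    simp only [Dat.A_smul_right, Pi.smul_apply, smul_eq_mul]
    have h2 : ∑ i, c * d * ν i * (d * D.A i ξ y) = c * d * d * ∑ i, ν i * D.A i ξ y := by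
      rw [Finset.mul_sum]
      refine Finset.sum_congr rfl fun i _ => ?_
      ring
    rw [h2, ← h1]
    ring
  · intro η
    rw [Dat.B_smul₁, hD.B_smul₂, Dat.B_smul₃]
    have h1 := h.hμ η
    simp only [Dat.A_smul_left, Pi.smul_apply, smul_eq_mul]
    have h2 : ∑ i, c * d * μ i * (c * D.A i x η) = c * d * c * ∑ i, μ i * D.A i x η := by
      rw [Finset.mul_sum]
      refine Finset.sum_congr rfl fun i _ => ?_
      ring
    rw [h2, ← h1]
    ring
  · intro he
    exact h.smooth (smul_right_injective _ hcd he)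
  · rw [Dat.B_smul₃, hD.B_smul₄]
    exact mul_ne_zero hd (mul_ne_zero hd h.Qu)
  · rw [Dat.B_smul₁, hD.B_smul₂]
    exact mul_ne_zero hc (mul_ne_zero hc h.Qv)
  · intro t ht ht'
    have h1 := h.tau t ht ht'
    rw [Dat.B_smul₁, Dat.B_smul₃, Dat.B_smul₃ (y := y), hD.B_smul₄, Dat.B_smul₁, hD.B_smul₂]
    simp only [Pi.smul_apply, smul_eq_mul]
    have h2 : ∀ κ : Fin m → ℂ, ∑ i, c * d * κ i * D.A i u v = c * d * ∑ i, κ i * D.A i u v := by
      intro κ
      rw [Finset.mul_sum]
      refine Finset.sum_congr rfl fun i _ => ?_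
      ring
    rw [h2, h2]
    intro h3
    apply h1
    have h4 : (c * d) ^ 2 ≠ 0 := pow_ne_zero _ hcd
    apply mul_left_cancel₀ h4
    linear_combination h3

theorem gna_indep {D : Dat m ℂ} (hD : D.Symm) {x y u v : Vec m ℂ} {μ ν : Fin m → ℂ}
    (h : Saddle D x y u v μ ν) : Indep x u := by
  have hB : D.B x u y y = 0 := by
    have := h.hν u
    simp only [h.hu, mul_zero, Finset.sum_const_zero] at this
    exact (mul_eq_zero.1 this).resolve_left two_ne_zero
  have hx : x ≠ 0 := by
    rintro rfl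
    apply h.Qv
    rw [Dat.B_zero₁]
  obtain ⟨i, hi⟩ : ∃ i, x i ≠ 0 := by
    by_contra hcon
    push Not at hcon
    exact hx (funext hcon)
  by_contra hcon
  unfold Indep at hcon
  push Not at hcon
  have hu : u = (u i / x i) • x := by
    funext j
    simp only [Pi.smul_apply, smul_eq_mul]
    have := hcon i j
    field_simp
    linear_combination this
  apply h.Qu
  have : D.B u u y y = (u i / x i) * D.B x u y y := by
    conv_lhs => rw [hu]
    rw [Dat.B_smul₁, ← hu]
  rw [this, hB, mul_zero]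

/-- PIECE [GNA].  The vectors killed by `row y` are the combinations of `x` and `u`, and `u` is a
nonzero multiple of `pv (row y) w` for a suitable `w` with `w · x ≠ 0`, `w · u = 0`.

Proof.  `x, u` are independent (as in `Sad.indep_u`: `B(x, u, y, y) = 0` by `hν` and `hu`, `Qu ≠ 0`, `x ≠ 0`).
Choose `w` with `w·x = 1`, `w·u = 0`.  Since the `m` rows are independent, the kernel of `row y` has
dimension 2, so it is spanned by `x` and `u`, and some `π_ij = plu (row y) e_i e_j` is not zero (the rows can be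
completed to a basis by two coordinate forms).  By `plu_single`, `π_ij = x_i p_j - x_j p_i` with
`p = pv (row y) w`, so `p ≠ 0`; `p` is in the kernel and `w · p = 0`, so `p = c u`, `c ≠ 0`. -/
theorem Saddle.exists_w {D : Dat m ℂ} (hD : D.Symm) {x y u v : Vec m ℂ} {μ ν : Fin m → ℂ}
    (h : Saddle D x y u v μ ν) : ∃ (w : Vec m ℂ) (c : ℂ), c ≠ 0 ∧ pv (D.row y) w = c • u := by
  obtain ⟨i, j, hij⟩ := gna_indep hD h
  set Δ := x i * u j - x j * u i with hΔ
  have hΔ0 : Δ ≠ 0 := sub_ne_zero.2 hij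
  set w : Vec m ℂ := Δ⁻¹ • (u j • Pi.single i 1 - u i • Pi.single j 1) with hw
  have hdot : ∀ z : Vec m ℂ, w ⬝ᵥ z = Δ⁻¹ * (u j * z i - u i * z j) := by
    intro z
    rw [hw, smul_dotProduct, sub_dotProduct, smul_dotProduct, smul_dotProduct,
      single_one_dotProduct, single_one_dotProduct]
    simp only [smul_eq_mul]
  have hwx : w ⬝ᵥ x = 1 := by
    rw [hdot]
    field_simp
    rw [hΔ]
    ring
  have hwu : w ⬝ᵥ u = 0 := by
    rw [hdot]
    ring
  have hrx : ∀ i, D.row y i ⬝ᵥ x = 0 := fun i => by rw [← Dat.A_eq_dot]; exact h.hxy i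
  have hru : ∀ i, D.row y i ⬝ᵥ u = 0 := fun i => by rw [← Dat.A_eq_dot]; exact h.hu i
  set p := pv (D.row y) w with hp
  have hpu : ∀ a b, u a * p b = u b * p a := by
    intro a b
    have := Dat.plu_single (D.row y) w u hru a b
    rw [hwu, mul_zero] at this
    linear_combination -this
  -- the vector `p` is not zero
  have hp0 : p ≠ 0 := by
    intro hp0
    have hall : ∀ w₁ w₂ : Vec m ℂ, plu (D.row y) w₁ w₂ = 0 := by
      intro w₁ w₂
      have h1 := plu_cramer (D.row y) w x w₁ w₂ hrx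
      have h2 : plu (D.row y) w w₂ = 0 := by
        rw [← dot_pv, ← hp, hp0, dotProduct_zero]
      have h3 : plu (D.row y) w₁ w = 0 := by
        rw [plu_antisymm, ← dot_pv, ← hp, hp0, dotProduct_zero, neg_zero]
      rw [hwx, h2, h3] at h1
      simpa using h1
    have hfr : Module.finrank ℂ (Vec m ℂ) = m + 2 := by simp
    obtain ⟨w₂, hw₂⟩ := exists_linearIndependent_cons_of_lt_finrank h.indY (by rw [hfr]; omega)
    obtain ⟨w₁, hw₁⟩ := exists_linearIndependent_cons_of_lt_finrank hw₂ (by rw [hfr]; omega)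
    have hdet := hall w₁ w₂
    unfold plu at hdet
    have hli : LinearIndependent ℂ
        (Matrix.of (vecCons w₁ (vecCons w₂ (D.row y)) : Fin (m + 2) → Vec m ℂ)).row := hw₁
    rw [Matrix.linearIndependent_rows_iff_isUnit, Matrix.isUnit_iff_isUnit_det, hdet] at hli
    exact not_isUnit_zero hli
  have hu0 : u ≠ 0 := by
    rintro rfl
    apply h.Qu
    rw [Dat.B_zero₁]
  obtain ⟨a, ha⟩ : ∃ a, u a ≠ 0 := by
    by_contra hcon
    push Not at hcon
    exact hu0 (funext hcon)
  have hpc : p = (p a / u a) • u := by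
    funext b
    simp only [Pi.smul_apply, smul_eq_mul]
    have := hpu a b
    field_simp
    linear_combination this
  refine ⟨w, p a / u a, ?_, hpc⟩
  intro h0
  apply hp0
  rw [hpc, h0, zero_smul]

theorem Saddle.swap {D : Dat m ℂ} (hD : D.Symm) {x y u v : Vec m ℂ} {μ ν : Fin m → ℂ}
    (h : Saddle D x y u v μ ν) : Saddle D.swap y x v u ν μ := by
  constructor
  · exact h.indX
  · exact h.indY
  · intro i
    rw [Dat.swap_A]
    exact h.hxy i
  · intro i
    rw [Dat.swap_A]
    exact h.hv i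
  · intro i
    rw [Dat.swap_A]
    exact h.hu i
  · intro ξ
    simp only [Dat.swap_A, Dat.swap_B]
    exact h.hμ ξ
  · intro η
    simp only [Dat.swap_A, Dat.swap_B]
    exact h.hν η
  · exact h.smooth.symm
  · rw [Dat.swap_B]
    exact h.Qv
  · rw [Dat.swap_B]
    exact h.Qu
  · intro t ht ht'
    simp only [Dat.swap_A, Dat.swap_B]
    intro h1
    apply h.tau t ht ht'
    linear_combination h1

end Pool.Agent.MP_1209e6_cy
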