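import Pool.Agent.Lib_MP_1209e6_cy.SaddleDef

/-!
PIECE [GNB] (MP_1209e6_ag).  From the natural hypothesis to `Sad`; surjectivity.
-/

open Matrix Filter Topology

namespace Pool.Agent.MP_1209e6_cy

variable {m : ℕ}

theorem gnb_gam {D : Dat m ℂ} (hD : D.Symm) {x y : Vec m ℂ} {ν : Fin m → ℂ}
    (hν : ∀ ξ, 2 * D.B x ξ y y = ∑ i, ν i * D.A i ξ y) (w η : Vec m ℂ) :
    2 * D.gam w x y η = 4 * D.B x (pv (D.row y) w) y η -
      ∑ i, ν i * D.A i (pv (D.row y) w) η := by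
  have h1 : ∑ i, ν i * D.A i (D.dpv w y η) y = -∑ i, ν i * D.A i (pv (D.row y) w) η := by
    rw [← Finset.sum_neg_distrib]
    refine Finset.sum_congr rfl fun i _ => ?_
    have := D.A_dpv i w y η
    linear_combination (ν i) * this
  have h2 := hν (D.dpv w y η)
  rw [h1] at h2
  unfold Dat.gam
  linear_combination h2

theorem gnb_gam' {D : Dat m ℂ} (hD : D.Symm) {x y : Vec m ℂ} {μ : Fin m → ℂ}
    (hμ : ∀ η, 2 * D.B x x y η = ∑ i, μ i * D.A i x η) (w' ξ : Vec m ℂ) :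
    2 * D.swap.gam w' y x ξ = 4 * D.B x ξ y (pv (D.swap.row x) w') -
      ∑ i, μ i * D.A i ξ (pv (D.swap.row x) w') := by
  have h := gnb_gam hD.swap (x := y) (y := x) (ν := μ) (fun η => by
    rw [Dat.swap_B, hμ η]
    refine Finset.sum_congr rfl fun i _ => ?_
    rw [Dat.swap_A]) w' ξ
  rw [h, Dat.swap_B]
  congr 1
  refine Finset.sum_congr rfl fun i _ => ?_
  rw [Dat.swap_A]

/-- PIECE [GNB].  From the natural hypothesis to `Sad`.

Proof.  `gam w x y η = 2 B(x, p, y, η) + B(x, dpv, y, y)`, `p = pv (row y) w = c u`, and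
`2 B(x, dpv, y, y) = ∑ ν_i A_i(dpv, y) = - ∑ ν_i A_i(p, η)` (`A_dpv`); so
`2 gam w x y v = c (4 B(x,u,y,v) - ∑ ν_i A_i(u, v))`; similarly for `D.swap`, with `μ` and `c'`
(`pv (swap.row x) w' = c' v`).  With `v' = c' v`, `u' = c u` all terms of `tau` are multiplied by `c^2 c'^2`. -/
theorem Saddle.sad {D : Dat m ℂ} (hD : D.Symm) {x y u v : Vec m ℂ} {μ ν : Fin m → ℂ}
    (h : Saddle D x y u v μ ν) {w w' : Vec m ℂ} {c c' : ℂ} (hc : c ≠ 0) (hc' : c' ≠ 0)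
    (hw : pv (D.row y) w = c • u) (hw' : pv (D.swap.row x) w' = c' • v) : Sad D w w' x y := by
  have h0 : D.B x x y y = 0 := by
    have h1 := h.hν x
    rw [Finset.sum_eq_zero (fun i _ => by rw [h.hxy i, mul_zero])] at h1
    linear_combination (1 / 2) * h1
  have hBu : D.B x u y y = 0 := by
    have h1 := h.hν u
    rw [Finset.sum_eq_zero (fun i _ => by rw [h.hu i, mul_zero])] at h1
    linear_combination (1 / 2) * h1
  have hBv : D.B x x y v = 0 := by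
    have h1 := h.hμ v
    rw [Finset.sum_eq_zero (fun i _ => by rw [h.hv i, mul_zero])] at h1
    linear_combination (1 / 2) * h1
  have hg := gnb_gam hD h.hν w (c' • v)
  have hg' := gnb_gam' hD h.hμ w' (c • u)
  have e1 : ∑ i, ν i * D.A i (c • u) (c' • v) = c * c' * ∑ i, ν i * D.A i u v := by
    rw [Finset.mul_sum]
    refine Finset.sum_congr rfl fun i _ => ?_
    rw [Dat.A_smul_left, Dat.A_smul_right]
    ring
  have e2 : ∑ i, μ i * D.A i (c • u) (c' • v) = c * c' * ∑ i, μ i * D.A i u v := by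
    rw [Finset.mul_sum]
    refine Finset.sum_congr rfl fun i _ => ?_
    rw [Dat.A_smul_left, Dat.A_smul_right]
    ring
  rw [hw, e1, hD.B_smul₂, hD.B_smul₄] at hg
  rw [hw', e2, hD.B_smul₂, hD.B_smul₄] at hg'
  have q1 : D.B (c • u) (c • u) y y = c ^ 2 * D.B u u y y := by
    rw [Dat.B_smul₁, hD.B_smul₂]
    ring
  have q2 : D.B x x (c' • v) (c' • v) = c' ^ 2 * D.B x x v v := by
    rw [Dat.B_smul₃, hD.B_smul₄]
    ring
  refine ⟨⟨h.hxy, h0⟩, ?_, ?_, ?_, ?_, ?_⟩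
  · rw [hw, hD.B_smul₂, hBu, mul_zero]
  · rw [hw', hD.B_smul₄, hBv, mul_zero]
  · rw [hw, q1]
    exact mul_ne_zero (pow_ne_zero 2 hc) h.Qu
  · rw [hw', q2]
    exact mul_ne_zero (pow_ne_zero 2 hc') h.Qv
  · intro t ht ht4 heq
    rw [hw, hw', q1, q2] at heq
    refine h.tau t ht ht4 ?_
    have h3 : (c * c') ^ 2 * ((4 * D.B x u y v - ∑ i, μ i * D.A i u v) *
        (4 * D.B x u y v - ∑ i, ν i * D.A i u v)) =
        (c * c') ^ 2 * (t * D.B u u y y * D.B x x v v) := by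
      have h4 : (c * c') ^ 2 * ((4 * D.B x u y v - ∑ i, μ i * D.A i u v) *
        (4 * D.B x u y v - ∑ i, ν i * D.A i u v)) =
        (4 * (c * (c' * D.B x u y v)) - c * c' * ∑ i, μ i * D.A i u v) *
        (4 * (c * (c' * D.B x u y v)) - c * c' * ∑ i, ν i * D.A i u v) := by ring
      rw [h4, ← hg, ← hg']
      linear_combination heq
    exact mul_left_cancel₀ (pow_ne_zero 2 (mul_ne_zero hc hc')) h3

/-- linearly independent rows: the linear map is onto -/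
theorem gnb_onto {r : Fin m → Vec m ℂ} (h : LinearIndependent ℂ r) (a : Fin m → ℂ) :
    ∃ ξ : Vec m ℂ, ∀ i, r i ⬝ᵥ ξ = a i := by
  have h1 : (Matrix.of r).rank = Fintype.card (Fin m) := LinearIndependent.rank_matrix h
  have h2 : LinearMap.range (Matrix.of r).mulVecLin = ⊤ := by
    apply Submodule.eq_top_of_finrank_eq
    rw [Module.finrank_fintype_fun_eq_card]
    exact h1
  obtain ⟨ξ, hξ⟩ := LinearMap.range_eq_top.1 h2 a
  exact ⟨ξ, fun i => congrFun hξ i⟩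

/-- PIECE [GNB].  Surjectivity of the derivative.

Proof.  `(ξ, η) ↦ ((A_i(ξ, y))_i, (A_i(x, η))_i)` is onto `ℂ^m × ℂ^m` (`indY`, `indX`).  By `hν, hμ` the first `m + 1`
components of `jac` are `a + a'` and `ν·a + μ·a'` with `a = (A_i(ξ, y))`, `a' = (A_i(x, η))`: onto `ℂ^m × ℂ`
as `μ ≠ ν`.  On the kernel of `(a, a')`, which contains `(x,0), (u,0), (0,y), (0,v)`, the last four components take
the values (for `p = c u`, `q = c' v`): `(x,0) ↦ (0, swap.gam w' y x x = 0, x_{i₀}, 0)`,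
`(0,y) ↦ (gam w x y y = 0, 0, 0, y_{j₀})`, `(p,0) ↦ (Qp, γ', *, 0)`, `(0,q) ↦ (γ, Qq, 0, *)`; the determinant is
`x_{i₀} y_{j₀} (Qp Qq - γ γ') ≠ 0` because `4 γ γ' ≠ 4 Qp Qq` (`tau` with `t = 4`). -/
theorem Saddle.jac_surj {D : Dat m ℂ} (hD : D.Symm) {x y u v : Vec m ℂ} {μ ν : Fin m → ℂ}
    (h : Saddle D x y u v μ ν) {w w' : Vec m ℂ} {c c' : ℂ} (hc : c ≠ 0) (hc' : c' ≠ 0)
    (hw : pv (D.row y) w = c • u) (hw' : pv (D.swap.row x) w' = c' • v)
    {i₀ j₀ : Fin (m + 2)} (hi : x i₀ ≠ 0) (hj : y j₀ ≠ 0) :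
    Function.Surjective (jac D w w' x y i₀ j₀) := by
  have hs := h.sad hD hc hc' hw hw'
  rintro ⟨f, s, s₁, s₂, s₃, s₄⟩
  -- the first components
  obtain ⟨k, hk⟩ : ∃ k, μ k ≠ ν k := by
    by_contra hcon
    push Not at hcon
    exact h.smooth (funext hcon)
  have hk' : μ k - ν k ≠ 0 := sub_ne_zero.2 hk
  obtain ⟨t, ht⟩ : ∃ t : ℂ, t * (μ k - ν k) = s - ∑ i, ν i * f i :=
    ⟨(s - ∑ i, ν i * f i) / (μ k - ν k), div_mul_cancel₀ _ hk'⟩
  obtain ⟨ξ₀, hξ₀⟩ := gnb_onto h.indY (f - Pi.single k t)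
  obtain ⟨η₀, hη₀⟩ := gnb_onto h.indX (Pi.single k t)
  have hξ : ∀ i, D.A i ξ₀ y = f i - (Pi.single k t : Fin m → ℂ) i := fun i => by
    rw [Dat.A_eq_dot]
    exact hξ₀ i
  have hη : ∀ i, D.A i x η₀ = (Pi.single k t : Fin m → ℂ) i := fun i => by
    rw [← Dat.swap_A, Dat.A_eq_dot]
    exact hη₀ i
  obtain ⟨p, hp⟩ : ∃ p, p = pv (D.row y) w := ⟨_, rfl⟩
  obtain ⟨q, hq⟩ : ∃ q, q = pv (D.swap.row x) w' := ⟨_, rfl⟩
  have hgam := gnb_gam hD h.hν w
  have hgam' := gnb_gam' hD h.hμ w'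
  obtain ⟨⟨hA, hB⟩, hu, hv, Qu, Qv, tau⟩ := hs
  have hAp : ∀ i, D.A i p y = 0 := fun i => by rw [hp, Dat.A_pv]
  have hAq : ∀ i, D.A i x q = 0 := fun i => by rw [hq, ← Dat.swap_A, Dat.A_pv]
  rw [← hp] at hu Qu
  rw [← hq] at hv Qv
  rw [← hp, ← hq] at tau
  have tau4 := tau 4 (by norm_num) le_rfl
  obtain ⟨γ₁, hγ₁⟩ : ∃ γ₁, γ₁ = D.gam w x y q := ⟨_, rfl⟩
  obtain ⟨γ₂, hγ₂⟩ : ∃ γ₂, γ₂ = D.swap.gam w' y x p := ⟨_, rfl⟩
  rw [← hγ₁, ← hγ₂] at tau4
  have hdet : D.B p p y y * D.B x x q q - γ₁ * γ₂ ≠ 0 := by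
    intro h0
    apply tau4
    push_cast
    linear_combination (-4) * h0
  -- linearity
  have gadd : ∀ a b, D.gam w x y (a + b) = D.gam w x y a + D.gam w x y b := by
    intro a b
    have h1 := hgam a
    have h2 := hgam b
    have h3 := hgam (a + b)
    rw [hD.B_add₄] at h3
    have h4 : ∑ i, ν i * D.A i (pv (D.row y) w) (a + b) = ∑ i, ν i * D.A i (pv (D.row y) w) a +
        ∑ i, ν i * D.A i (pv (D.row y) w) b := by
      rw [← Finset.sum_add_distrib]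
      refine Finset.sum_congr rfl fun i _ => ?_
      rw [Dat.A_add_right]
      ring
    rw [h4] at h3
    linear_combination (1 / 2) * h3 - (1 / 2) * h1 - (1 / 2) * h2
  have gsmul : ∀ (r : ℂ) a, D.gam w x y (r • a) = r * D.gam w x y a := by
    intro r a
    have h1 := hgam a
    have h3 := hgam (r • a)
    rw [hD.B_smul₄] at h3
    have h4 : ∑ i, ν i * D.A i (pv (D.row y) w) (r • a) =
        r * ∑ i, ν i * D.A i (pv (D.row y) w) a := by
      rw [Finset.mul_sum]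
      refine Finset.sum_congr rfl fun i _ => ?_
      rw [Dat.A_smul_right]
      ring
    rw [h4] at h3
    linear_combination (1 / 2) * h3 - (1 / 2) * r * h1
  have gadd' : ∀ a b, D.swap.gam w' y x (a + b) = D.swap.gam w' y x a + D.swap.gam w' y x b := by
    intro a b
    have h1 := hgam' a
    have h2 := hgam' b
    have h3 := hgam' (a + b)
    rw [hD.B_add₂] at h3
    have h4 : ∑ i, μ i * D.A i (a + b) (pv (D.swap.row x) w') =
        ∑ i, μ i * D.A i a (pv (D.swap.row x) w') + ∑ i, μ i * D.A i b (pv (D.swap.row x) w') := by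
      rw [← Finset.sum_add_distrib]
      refine Finset.sum_congr rfl fun i _ => ?_
      rw [Dat.A_add_left]
      ring
    rw [h4] at h3
    linear_combination (1 / 2) * h3 - (1 / 2) * h1 - (1 / 2) * h2
  have gsmul' : ∀ (r : ℂ) a, D.swap.gam w' y x (r • a) = r * D.swap.gam w' y x a := by
    intro r a
    have h1 := hgam' a
    have h3 := hgam' (r • a)
    rw [hD.B_smul₂] at h3
    have h4 : ∑ i, μ i * D.A i (r • a) (pv (D.swap.row x) w') =
        r * ∑ i, μ i * D.A i a (pv (D.swap.row x) w') := by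
      rw [Finset.mul_sum]
      refine Finset.sum_congr rfl fun i _ => ?_
      rw [Dat.A_smul_left]
      ring
    rw [h4] at h3
    linear_combination (1 / 2) * h3 - (1 / 2) * r * h1
  have gy : D.gam w x y y = 0 := by
    have h1 := hgam y
    rw [← hp, hu, Finset.sum_eq_zero (fun i _ => by rw [hAp i, mul_zero])] at h1
    linear_combination (1 / 2) * h1
  have gx : D.swap.gam w' y x x = 0 := by
    have h1 := hgam' x
    rw [← hq, hv, Finset.sum_eq_zero (fun i _ => by rw [hAq i, mul_zero])] at h1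
    linear_combination (1 / 2) * h1
  -- the solution
  obtain ⟨r₁, hr₁⟩ : ∃ r₁, r₁ = s₁ - (D.B ξ₀ p y y + D.gam w x y η₀) := ⟨_, rfl⟩
  obtain ⟨r₂, hr₂⟩ : ∃ r₂, r₂ = s₂ - (D.B x x η₀ q + D.swap.gam w' y x ξ₀) := ⟨_, rfl⟩
  obtain ⟨β, δ, hβ, hδ⟩ : ∃ β δ : ℂ, β * D.B p p y y + δ * γ₁ = r₁ ∧
      δ * D.B x x q q + β * γ₂ = r₂ := by
    refine ⟨(r₁ * D.B x x q q - r₂ * γ₁) / (D.B p p y y * D.B x x q q - γ₁ * γ₂),
      (r₂ * D.B p p y y - r₁ * γ₂) / (D.B p p y y * D.B x x q q - γ₁ * γ₂), ?_, ?_⟩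
    · rw [div_mul_eq_mul_div, div_mul_eq_mul_div, ← add_div, div_eq_iff hdet]
      ring
    · rw [div_mul_eq_mul_div, div_mul_eq_mul_div, ← add_div, div_eq_iff hdet]
      ring
  obtain ⟨α, hα⟩ : ∃ α : ℂ, α * x i₀ = s₃ - ξ₀ i₀ - β * p i₀ :=
    ⟨(s₃ - ξ₀ i₀ - β * p i₀) / x i₀, div_mul_cancel₀ _ hi⟩
  obtain ⟨γ, hγ⟩ : ∃ γ : ℂ, γ * y j₀ = s₄ - η₀ j₀ - δ * q j₀ :=
    ⟨(s₄ - η₀ j₀ - δ * q j₀) / y j₀, div_mul_cancel₀ _ hj⟩
  have hξy : ∀ i, D.A i (ξ₀ + α • x + β • p) y = f i - (Pi.single k t : Fin m → ℂ) i := by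
    intro i
    rw [Dat.A_add_left, Dat.A_add_left, Dat.A_smul_left, Dat.A_smul_left, hξ i, hA i, hAp i]
    ring
  have hxη : ∀ i, D.A i x (η₀ + γ • y + δ • q) = (Pi.single k t : Fin m → ℂ) i := by
    intro i
    rw [Dat.A_add_right, Dat.A_add_right, Dat.A_smul_right, Dat.A_smul_right, hη i, hA i, hAq i]
    ring
  refine ⟨(ξ₀ + α • x + β • p, η₀ + γ • y + δ • q), ?_⟩
  unfold jac
  refine Prod.ext ?_ (Prod.ext ?_ (Prod.ext ?_ (Prod.ext ?_ (Prod.ext ?_ ?_))))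
  · funext i
    show D.A i (ξ₀ + α • x + β • p) y + D.A i x (η₀ + γ • y + δ • q) = f i
    rw [hξy, hxη]
    ring
  · show 2 * D.B x (ξ₀ + α • x + β • p) y y + 2 * D.B x x y (η₀ + γ • y + δ • q) = s
    rw [h.hν, h.hμ]
    simp only [hξy, hxη, mul_sub, Finset.sum_sub_distrib]
    have e1 : ∀ (g : Fin m → ℂ), ∑ i, g i * (Pi.single k t : Fin m → ℂ) i = g k * t := by
      intro g
      rw [Finset.sum_eq_single k]
      · rw [Pi.single_eq_same]
      · intro i _ hik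
        rw [Pi.single_eq_of_ne hik, mul_zero]
      · intro hk
        exact absurd (Finset.mem_univ k) hk
    rw [e1, e1]
    linear_combination ht
  · show D.B (ξ₀ + α • x + β • p) (pv (D.row y) w) y y + D.gam w x y (η₀ + γ • y + δ • q) = s₁
    rw [← hp, Dat.B_add₁, Dat.B_add₁, Dat.B_smul₁, Dat.B_smul₁, gadd, gadd, gsmul, gsmul, gy, hu,
      ← hγ₁]
    linear_combination hβ + hr₁
  · show D.B x x (η₀ + γ • y + δ • q) (pv (D.swap.row x) w') +
      D.swap.gam w' y x (ξ₀ + α • x + β • p) = s₂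
    rw [← hq, Dat.B_add₃, Dat.B_add₃, Dat.B_smul₃, Dat.B_smul₃, gadd', gadd', gsmul', gsmul', gx,
      hv, ← hγ₂]
    linear_combination hδ + hr₂
  · show ξ₀ i₀ + α * x i₀ + β * p i₀ = s₃
    linear_combination hα
  · show η₀ j₀ + γ * y j₀ + δ * q j₀ = s₄
    linear_combination hγ

end Pool.Agent.MP_1209e6_cy
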