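import Mathlib

/-!
PIECE [GNC] (MP_1209e6_ag).  Algebraically independent points in open sets; a countable field.
-/

namespace Pool.Agent.MP_1209e6_cy

/-- PIECE [GNC].  A nonempty open set contains a point with coordinates algebraically independent
over a countable field.

Proof.  Baire: the zero set of a nonzero polynomial is closed with dense complement, and there are
countably many polynomials.  Or by induction: the elements algebraic over a countable field form a
countable set, an open subset of `ℂ` is uncountable. -/
theorem exists_algebraicIndependent {ι : Type} [Fintype ι] (k : IntermediateField ℚ ℂ)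
    (hk : (k : Set ℂ).Countable) (U : Set (ι → ℂ)) (hU : IsOpen U) (hne : U.Nonempty) :
    ∃ z ∈ U, AlgebraicIndependent k z := by
  classical
  have : Countable k := hk.to_subtype
  have : Countable (MvPolynomial ι k) := by
    have hinj : Function.Injective
        (fun p : MvPolynomial ι k => (AddMonoidAlgebra.coeff p : (ι →₀ ℕ) →₀ k)) := by
      intro p q h
      cases p
      cases q
      simp only at h
      rw [h]
    exact hinj.countable
  have hopen : ∀ p : {p : MvPolynomial ι k // p ≠ 0},
      IsOpen {z : ι → ℂ | MvPolynomial.aeval z p.1 ≠ 0} := by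
    intro p
    refine isOpen_ne_fun ?_ continuous_const
    have h1 : (fun z : ι → ℂ => MvPolynomial.aeval z p.1) =
        fun z => MvPolynomial.eval z (MvPolynomial.map (algebraMap k ℂ) p.1) := by
      funext z
      rw [MvPolynomial.eval_map]
      rfl
    rw [h1]
    exact MvPolynomial.continuous_eval _
  have hdense : ∀ p : {p : MvPolynomial ι k // p ≠ 0},
      Dense {z : ι → ℂ | MvPolynomial.aeval z p.1 ≠ 0} := by
    rintro ⟨p, hp⟩
    rw [dense_iff_inter_open]
    intro V hV hVn
    by_contra hcon
    rw [Set.not_nonempty_iff_eq_empty] at hcon
    obtain ⟨x, hx⟩ := hVn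
    obtain ⟨I, u, hu, huV⟩ := isOpen_pi_iff.1 hV x hx
    apply hp
    have h1 : MvPolynomial.map (algebraMap k ℂ) p = 0 := by
      refine MvPolynomial.funext_set (fun i => if i ∈ I then u i else Set.univ) ?_ ?_
      · intro i
        by_cases hi : i ∈ I
        · simp only [hi, if_true]
          exact infinite_of_mem_nhds (x i) ((hu i hi).1.mem_nhds (hu i hi).2)
        · simp only [hi, if_false]
          exact Set.infinite_univ
      · intro z hz
        rw [map_zero, MvPolynomial.eval_map]
        by_contra hne
        have hzV : z ∈ V := by
          apply huV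
          intro i hi
          have := hz i (Set.mem_univ i)
          simp only at this
          rwa [if_pos (by exact_mod_cast hi)] at this
        have : z ∈ V ∩ {z : ι → ℂ | MvPolynomial.aeval z p ≠ 0} := ⟨hzV, hne⟩
        rw [hcon] at this
        exact this
    exact (map_eq_zero_iff _ (MvPolynomial.map_injective _ (algebraMap k ℂ).injective)).1 h1
  have hD := dense_iInter_of_isOpen hopen hdense
  obtain ⟨z, hzU, hz⟩ := hD.inter_open_nonempty U hU hne
  refine ⟨z, hzU, ?_⟩
  rw [algebraicIndependent_iff]
  intro p hp
  by_contra hne'
  rw [Set.mem_iInter] at hz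
  exact hz ⟨p, hne'⟩ hp

end Pool.Agent.MP_1209e6_cy
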