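import Mathlib

/-!
PIECE [GNE] (MP_1209e6_ag).  Completing a surjective linear map by coordinates.
-/

namespace Pool.Agent.MP_1209e6_cy

/-- PIECE [GNE].  A surjective linear map can be completed to a bijective one by coordinates.

Proof.  Extend the (independent) components of `L` to a basis of the dual by coordinate functionals. -/
theorem exists_coordinates {ι κ : Type} [Fintype ι] [Fintype κ] [DecidableEq ι]
    (L : (ι → ℂ) →ₗ[ℂ] (κ → ℂ)) (hL : Function.Surjective L) :
    ∃ J : Finset ι, J.card + Fintype.card κ = Fintype.card ι ∧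
      Function.Bijective (fun z : ι → ℂ => (L z, fun j : J => z j)) := by
  classical
  obtain ⟨b, -, -, hspan, hb⟩ := exists_linearIndepOn_extension
    (linearIndepOn_empty ℂ (fun i : ι => L (Pi.single i 1))) (Set.subset_univ (∅ : Set ι))
  have hLsum : ∀ z : ι → ℂ, L z = ∑ i, z i • L (Pi.single i 1) := by
    intro z
    conv_lhs => rw [show z = ∑ i, z i • (Pi.single i 1 : ι → ℂ) from by
      funext j
      simp [Finset.sum_apply, Pi.single_apply]]
    rw [map_sum]
    exact Finset.sum_congr rfl fun i _ => map_smul _ _ _
  have htop : ⊤ ≤ Submodule.span ℂ (Set.range (fun i : b => L (Pi.single (i : ι) 1))) := by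
    intro w _
    obtain ⟨z, rfl⟩ := hL w
    have hrange : (Set.range (fun i : b => L (Pi.single (i : ι) 1)))
        = (fun i : ι => L (Pi.single i 1)) '' b := by
      ext y
      simp
    rw [hrange, hLsum z]
    refine Submodule.sum_mem _ fun i _ => Submodule.smul_mem _ _ ?_
    exact hspan ⟨i, Set.mem_univ _, rfl⟩
  have hlin : LinearIndependent ℂ (fun i : b => L (Pi.single (i : ι) 1)) := hb
  have hcard : Fintype.card b = Fintype.card κ := by
    have h1 := Module.finrank_eq_card_basis (Module.Basis.mk hlin htop)
    rw [← h1]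
    simp
  refine ⟨b.toFinsetᶜ, ?_, ?_⟩
  · rw [Finset.card_compl, Set.toFinset_card, hcard]
    have : Fintype.card κ ≤ Fintype.card ι := by
      rw [← hcard]
      exact set_fintype_card_le_univ b
    omega
  · set M : (ι → ℂ) →ₗ[ℂ] (κ → ℂ) × ((b.toFinsetᶜ : Finset ι) → ℂ) :=
      L.prod (LinearMap.funLeft ℂ ℂ (Subtype.val : (b.toFinsetᶜ : Finset ι) → ι)) with hM
    have hinj : Function.Injective M := by
      rw [← LinearMap.ker_eq_bot, LinearMap.ker_eq_bot']
      intro z hz
      have h1 : L z = 0 := congrArg Prod.fst hz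
      have h2 : ∀ j : ι, j ∉ b → z j = 0 := by
        intro j hj
        have h3 := congrFun (congrArg Prod.snd hz)
          (⟨j, by simp [hj]⟩ : (b.toFinsetᶜ : Finset ι))
        exact h3
      have h4 : ∑ i : b, z i • L (Pi.single (i : ι) 1) = 0 := by
        have h5 : ∑ i ∈ b.toFinset, z i • L (Pi.single (i : ι) 1) = 0 := by
          rw [← h1, hLsum z]
          refine Finset.sum_subset (Finset.subset_univ _) fun i _ hi => ?_
          rw [h2 i (by simpa using hi), zero_smul]
        rw [← h5]
        exact Finset.sum_set_coe (f := fun i : ι => z i • L (Pi.single i 1)) b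
      have h6 := Fintype.linearIndependent_iff.1 hlin (fun i => z i) h4
      funext j
      by_cases hj : j ∈ b
      · exact h6 ⟨j, hj⟩
      · exact h2 j hj
    have hfr : Module.finrank ℂ (ι → ℂ)
        = Module.finrank ℂ ((κ → ℂ) × ((b.toFinsetᶜ : Finset ι) → ℂ)) := by
      rw [Module.finrank_prod, Module.finrank_fintype_fun_eq_card,
        Module.finrank_fintype_fun_eq_card, Module.finrank_fintype_fun_eq_card,
        Fintype.card_coe, Finset.card_compl, Set.toFinset_card, hcard]
      have : Fintype.card κ ≤ Fintype.card ι := by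
        rw [← hcard]
        exact set_fintype_card_le_univ b
      omega
    have hsurj := (LinearMap.injective_iff_surjective_of_finrank_eq_finrank hfr).1 hinj
    exact ⟨hinj, hsurj⟩

end Pool.Agent.MP_1209e6_cy
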