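import Pool.Agent.Lib_MP_1209e6_cy.Extend

/-!
Generic solutions of a square system of polynomial equations which has one nondegenerate
solution.
-/

set_option autoImplicit false

namespace Pool.Agent.CalabiYauN

open MvPolynomial

/-- An ideal of a polynomial ring over a field of characteristic zero which is stable under all
partial derivatives and does not contain `1` is zero. -/
theorem eq_zero_of_stable {σ k : Type*} [Field k] [CharZero k] (J : Ideal (MvPolynomial σ k))
    (h1 : (1 : MvPolynomial σ k) ∉ J) (hst : ∀ (s : σ), ∀ h ∈ J, pderiv s h ∈ J) :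
    ∀ h ∈ J, h = 0 := by
  classical
  have hconst : ∀ h ∈ J, (∀ m, m ≠ 0 → coeff m h = 0) → h = 0 := by
    intro h hh hm
    have hC : h = C (coeff 0 h) := by
      ext m
      rw [coeff_C]
      by_cases h0 : m = 0
      · subst h0; simp
      · rw [if_neg (fun hh => h0 hh.symm), hm m h0]
    by_contra hne
    have ha : coeff 0 h ≠ 0 := by
      intro h0
      rw [h0, C_0] at hC
      exact hne hC
    apply h1
    have : (1 : MvPolynomial σ k) = C ((coeff 0 h)⁻¹) * h := by
      conv_rhs => rw [hC]
      rw [coeff_C, if_pos rfl, ← C_mul, inv_mul_cancel₀ ha, C_1]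
    rw [this]
    exact J.mul_mem_left _ hh
  have key : ∀ n : ℕ, ∀ h ∈ J, (∀ m, coeff m h ≠ 0 → m.degree ≤ n) → h = 0 := by
    intro n
    induction n with
    | zero =>
      intro h hh hm
      refine hconst h hh (fun m hm0 => ?_)
      by_contra hc
      have := hm m hc
      exact hm0 ((Finsupp.degree_eq_zero_iff m).mp (Nat.le_zero.mp this))
    | succ n ih =>
      intro h hh hm
      have hd : ∀ s, pderiv s h = 0 := by
        intro s
        refine ih _ (hst s h hh) (fun m hc => ?_)
        rw [coeff_pderiv] at hc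
        have h2 := hm (m + Finsupp.single s 1) (left_ne_zero_of_mul hc)
        rw [map_add, Finsupp.degree_single] at h2
        omega
      refine hconst h hh (fun m hm0 => ?_)
      obtain ⟨s, hs⟩ := Finsupp.ne_iff.mp hm0
      have hs' : m s ≠ 0 := hs
      have hmm : m = (m - Finsupp.single s 1) + Finsupp.single s 1 := by
        rw [tsub_add_cancel_of_le]
        rw [Finsupp.single_le_iff]
        omega
      have h3 := coeff_pderiv (i := s) h (m - Finsupp.single s 1)
      rw [hd s, coeff_zero, ← hmm] at h3
      have h4 : ((((m - Finsupp.single s 1 : σ →₀ ℕ) s) + 1 : ℕ) : k) ≠ 0 := by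
        exact Nat.cast_ne_zero.mpr (Nat.succ_ne_zero _)
      push_cast at h4
      rcases mul_eq_zero.mp h3.symm with h5 | h5
      · exact h5
      · exact absurd h5 h4
  intro h hh
  refine key h.totalDegree h hh (fun m hm => ?_)
  exact le_totalDegree (mem_support_iff.mpr hm)

/-- Chain rule: a derivation of `k[(X_v), Z]` on a polynomial without `Z`. -/
theorem derivation_rename {ρ k B : Type*} [Field k] [CommRing B]
    [Algebra k B] [Algebra (MvPolynomial (Option ρ) k) B]
    [IsScalarTower k (MvPolynomial (Option ρ) k) B] [Fintype ρ]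
    (D : Derivation k (MvPolynomial (Option ρ) k) B) (q : MvPolynomial ρ k) :
    D (rename some q) = ∑ v : ρ, algebraMap (MvPolynomial (Option ρ) k) B
      (rename some (pderiv v q)) * D (X (some v)) := by
  classical
  induction q using MvPolynomial.induction_on with
  | C a => simp [derivation_C]
  | add p q hp hq => simp [map_add, hp, hq, add_mul, Finset.sum_add_distrib]
  | mul_X p v hp =>
    rw [map_mul, rename_X, D.leibniz, hp]
    simp only [Derivation.leibniz, pderiv_X, map_add, smul_eq_mul, map_mul, rename_X,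
      Algebra.smul_def, add_mul, Finset.sum_add_distrib]
    congr 1
    · rw [Finset.sum_eq_single v]
      · simp
      · intro b _ hb
        simp [hb]
      · intro h; exact absurd (Finset.mem_univ _) h
    · rw [Finset.mul_sum]
      refine Finset.sum_congr rfl (fun b _ => ?_)
      ring

/-- A derivation into an algebra `B` which kills the generators of an ideal that acts as zero
kills the ideal. -/
theorem derivation_span {R k B : Type*} [CommRing k] [CommRing R] [CommRing B] [Algebra k R]
    [Algebra k B] [Algebra R B] [IsScalarTower k R B] (D : Derivation k R B) (S : Set R)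
    (h0 : ∀ x ∈ S, algebraMap R B x = 0) (hD : ∀ x ∈ S, D x = 0) :
    ∀ x ∈ Ideal.span S, D x = 0 := by
  intro x hx
  have hx' : ∀ x ∈ Ideal.span S, algebraMap R B x = 0 := by
    intro x hx
    have : Ideal.span S ≤ RingHom.ker (algebraMap R B) := Ideal.span_le.mpr h0
    exact this hx
  refine Submodule.span_induction (p := fun x _ => D x = 0) (fun x h => hD x h) (map_zero D)
    (fun x y _ _ hx hy => by rw [map_add, hx, hy, add_zero]) (fun a x hx1 hx2 => ?_) hx
  rw [smul_eq_mul, D.leibniz, hx2, smul_zero, zero_add, Algebra.smul_def, hx' x hx1, zero_mul]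

section Main

variable {k : Type*} [Field k] {σ τ : Type*} [Fintype σ] [Fintype τ] [DecidableEq τ]

/-- The Jacobian matrix of the system. -/
noncomputable def jacM (F : τ → MvPolynomial (σ ⊕ τ) k) : Matrix τ τ (MvPolynomial (σ ⊕ τ) k) :=
  Matrix.of fun i j => pderiv (Sum.inr j) (F i)

/-- The relations: `F i = 0` and `Z (J d) = 1`. -/
noncomputable def relSet (F : τ → MvPolynomial (σ ⊕ τ) k) (d : MvPolynomial (σ ⊕ τ) k) :
    Set (MvPolynomial (Option (σ ⊕ τ)) k) :=
  Set.range (fun i => rename some (F i)) ∪
    {X none * rename some ((jacM F).det * d) - 1}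

/-- The ring of nondegenerate solutions. -/
abbrev solRing (F : τ → MvPolynomial (σ ⊕ τ) k) (d : MvPolynomial (σ ⊕ τ) k) : Type _ :=
  MvPolynomial (Option (σ ⊕ τ)) k ⧸ Ideal.span (relSet F d)

/-- The coefficients in the ring of nondegenerate solutions. -/
noncomputable def solMap (F : τ → MvPolynomial (σ ⊕ τ) k) (d : MvPolynomial (σ ⊕ τ) k) :
    MvPolynomial σ k →ₐ[k] solRing F d :=
  (Ideal.Quotient.mkₐ k (Ideal.span (relSet F d))).comp (rename (fun s => some (Sum.inl s)))

theorem solMap_stable (F : τ → MvPolynomial (σ ⊕ τ) k) (d : MvPolynomial (σ ⊕ τ) k) (s : σ)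
    (h : MvPolynomial σ k) (hh : solMap F d h = 0) : solMap F d (pderiv s h) = 0 := by
  classical
  set I := Ideal.span (relSet F d) with hI
  let π : MvPolynomial (Option (σ ⊕ τ)) k →+* solRing F d :=
    algebraMap (MvPolynomial (Option (σ ⊕ τ)) k) (solRing F d)
  have hπ : ∀ x, π x = Ideal.Quotient.mk I x := fun x => rfl
  let M : Matrix τ τ (solRing F d) := (jacM F).map (fun q => π (rename some q))
  let g : MvPolynomial (σ ⊕ τ) k := (jacM F).det * d
  have hz : π (X none) * π (rename some g) = 1 := by
    have h1 : X none * rename some g - 1 ∈ I :=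
      Ideal.subset_span (Or.inr rfl)
    have h2 : π (X none * rename some g - 1) = 0 := Ideal.Quotient.eq_zero_iff_mem.mpr h1
    rw [map_sub, map_mul, map_one, sub_eq_zero] at h2
    exact h2
  have hMdet : M.det = π (rename some (jacM F).det) := by
    have : M = ((π.comp (rename some : MvPolynomial (σ ⊕ τ) k →ₐ[k]
      MvPolynomial (Option (σ ⊕ τ)) k).toRingHom).mapMatrix (jacM F)) := rfl
    rw [this, ← RingHom.map_det]
    rfl
  have hMu : IsUnit M.det := by
    rw [hMdet]
    refine IsUnit.of_mul_eq_one (π (rename some d) * π (X none)) ?_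
    calc π (rename some (jacM F).det) * (π (rename some d) * π (X none))
        = π (X none) * π (rename some g) := by
          simp only [g, map_mul]; ring
      _ = 1 := hz
  let w : τ → solRing F d := fun i => - π (rename some (pderiv (Sum.inl s) (F i)))
  let b : τ → solRing F d := M⁻¹.mulVec w
  have hb : M.mulVec b = w := by
    change M.mulVec (M⁻¹.mulVec w) = w
    rw [Matrix.mulVec_mulVec, Matrix.mul_nonsing_inv _ hMu, Matrix.one_mulVec]
  let f0 : σ ⊕ τ → solRing F d := Sum.elim (Pi.single s 1) b
  let Eg : solRing F d := ∑ v : σ ⊕ τ, π (rename some (pderiv v g)) * f0 v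
  let f : Option (σ ⊕ τ) → solRing F d := fun o => o.elim (-(π (X none) * π (X none) * Eg)) f0
  let D : Derivation k (MvPolynomial (Option (σ ⊕ τ)) k) (solRing F d) := mkDerivation k f
  have hDX : ∀ v, D (X (some v)) = f0 v := fun v => mkDerivation_X k f (some v)
  have hDq : ∀ q : MvPolynomial (σ ⊕ τ) k, D (rename some q)
      = ∑ v : σ ⊕ τ, π (rename some (pderiv v q)) * f0 v := by
    intro q
    rw [derivation_rename D q]
    refine Finset.sum_congr rfl (fun v _ => ?_)
    rw [hDX]
  have hDF : ∀ i, D (rename some (F i)) = 0 := by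
    intro i
    rw [hDq, Fintype.sum_sum_type]
    have h1 : ∑ t : σ, π (rename some (pderiv (Sum.inl t) (F i))) * f0 (Sum.inl t)
        = π (rename some (pderiv (Sum.inl s) (F i))) := by
      rw [Finset.sum_eq_single s]
      · simp [f0]
      · intro t _ ht
        simp [f0, ht]
      · intro h; exact absurd (Finset.mem_univ _) h
    have h2 : ∑ j : τ, π (rename some (pderiv (Sum.inr j) (F i))) * f0 (Sum.inr j)
        = - π (rename some (pderiv (Sum.inl s) (F i))) := by
      have := congrFun hb i
      exact this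
    rw [h1, h2, add_neg_cancel]
  have hDZ : D (X none * rename some g - 1) = 0 := by
    rw [map_sub, D.leibniz, hDq]
    have h1 : D (1 : MvPolynomial (Option (σ ⊕ τ)) k) = 0 := D.map_one_eq_zero
    have h2 : D (X none) = -(π (X none) * π (X none) * Eg) := mkDerivation_X k f none
    rw [h1, h2, sub_zero]
    have hsm : ∀ (a : MvPolynomial (Option (σ ⊕ τ)) k) (x : solRing F d), a • x = π a * x :=
      fun a x => Algebra.smul_def (R := MvPolynomial (Option (σ ⊕ τ)) k) (A := solRing F d) a x
    refine (congrArg₂ (· + ·) (hsm (X none) _) (hsm (rename some g) _)).trans ?_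
    change π (X none) * Eg + π (rename some g) * -(π (X none) * π (X none) * Eg) = 0
    linear_combination (-(π (X none) * Eg)) * hz
  have hker : ∀ x ∈ I, D x = 0 := by
    refine derivation_span D (relSet F d) ?_ ?_
    · intro x hx
      exact Ideal.Quotient.eq_zero_iff_mem.mpr (Ideal.subset_span hx)
    · rintro x (⟨i, rfl⟩ | hx)
      · exact hDF i
      · rw [Set.mem_singleton_iff] at hx
        rw [hx]
        exact hDZ
  have hmem : rename (fun t => some (Sum.inl t)) h ∈ I := by
    exact Ideal.Quotient.eq_zero_iff_mem.mp hh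
  have h0 := hker _ hmem
  have hr : (rename (fun t => some (Sum.inl t)) h : MvPolynomial (Option (σ ⊕ τ)) k)
      = rename some (rename Sum.inl h) := by
    rw [rename_rename]; rfl
  rw [hr, hDq, Fintype.sum_sum_type] at h0
  have h1 : ∑ t : σ, π (rename some (pderiv (Sum.inl t) (rename Sum.inl h))) * f0 (Sum.inl t)
      = π (rename some (rename Sum.inl (pderiv s h))) := by
    rw [Finset.sum_eq_single s]
    · rw [pderiv_rename Sum.inl_injective]
      simp [f0]
    · intro t _ ht
      simp [f0, ht]
    · intro h; exact absurd (Finset.mem_univ _) h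
  have h2 : ∑ j : τ, π (rename some (pderiv (Sum.inr j) (rename Sum.inl h))) * f0 (Sum.inr j)
      = 0 := by
    refine Finset.sum_eq_zero (fun j _ => ?_)
    have : pderiv (Sum.inr j) (rename (Sum.inl : σ → σ ⊕ τ) h) = 0 := by
      refine pderiv_eq_zero_of_notMem_vars (fun hj => ?_)
      have := vars_rename (Sum.inl : σ → σ ⊕ τ) h hj
      rw [Finset.mem_image] at this
      obtain ⟨a, _, ha⟩ := this
      exact absurd ha (by simp)
    rw [this]
    simp
  rw [h1, h2, add_zero] at h0
  change π (rename (fun t => some (Sum.inl t)) (pderiv s h)) = 0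
  rw [← h0, rename_rename]
  rfl

theorem solMap_injective [CharZero k] (F : τ → MvPolynomial (σ ⊕ τ) k)
    (d : MvPolynomial (σ ⊕ τ) k) (hnt : Nontrivial (solRing F d)) :
    Function.Injective (solMap F d) := by
  rw [injective_iff_map_eq_zero]
  intro h hh
  refine eq_zero_of_stable (RingHom.ker (solMap F d)) ?_ ?_ h hh
  · intro h1
    have h2 : solMap F d 1 = 0 := h1
    rw [map_one] at h2
    exact one_ne_zero h2
  · intro s x hx
    exact solMap_stable F d s x hx

omit [Fintype σ] in
/-- A point of the ring of nondegenerate solutions. -/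
theorem exists_point_hom (F : τ → MvPolynomial (σ ⊕ τ) k) (d : MvPolynomial (σ ⊕ τ) k)
    (p : σ ⊕ τ → k) (hF : ∀ i, eval p (F i) = 0) (hJ : eval p (jacM F).det ≠ 0)
    (hd : eval p d ≠ 0) : Nontrivial (solRing F d) := by
  let o : Option (σ ⊕ τ) → k := fun v => v.elim ((eval p ((jacM F).det * d))⁻¹) p
  have ho : ∀ q : MvPolynomial (σ ⊕ τ) k, eval o (rename some q) = eval p q := by
    intro q
    rw [eval_rename]
    rfl
  let ψ : solRing F d →+* k := Ideal.Quotient.lift _ (eval o) (by
    intro x hx
    have : Ideal.span (relSet F d) ≤ RingHom.ker (eval o) := by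
      rw [Ideal.span_le]
      rintro x (⟨i, rfl⟩ | hx)
      · change eval o (rename some (F i)) = 0
        rw [ho, hF]
      · rw [Set.mem_singleton_iff] at hx
        rw [hx]
        change eval o (X none * rename some ((jacM F).det * d) - 1) = 0
        rw [map_sub, map_mul, ho, eval_X, map_one]
        change (eval p ((jacM F).det * d))⁻¹ * _ - 1 = 0
        rw [inv_mul_cancel₀ (by rw [map_mul]; exact mul_ne_zero hJ hd), sub_self]
    exact this hx)
  exact RingHom.domain_nontrivial ψ

omit [Fintype σ] in
/-- The Jacobian determinant at a point, by injectivity of the linearised system. -/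
theorem det_ne_zero_of_inj {Ω : Type*} [Field Ω] [Algebra k Ω] (F : τ → MvPolynomial (σ ⊕ τ) k)
    (p : σ ⊕ τ → Ω)
    (hJ : ∀ η : τ → Ω, (∀ i, ∑ j, aeval p (pderiv (Sum.inr j) (F i)) * η j = 0) → η = 0) :
    aeval p (jacM F).det ≠ 0 := by
  intro h0
  have h1 : ((aeval p).toRingHom.mapMatrix (jacM F)).det = 0 := by
    rw [← RingHom.map_det]
    exact h0
  obtain ⟨η, hη, h2⟩ := Matrix.exists_mulVec_eq_zero_iff.mpr h1
  exact hη (hJ η (fun i => congrFun h2 i))

omit [Fintype σ] in
theorem inj_of_det_ne_zero {Ω : Type*} [Field Ω] [Algebra k Ω] (F : τ → MvPolynomial (σ ⊕ τ) k)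
    (p : σ ⊕ τ → Ω) (hJ : aeval p (jacM F).det ≠ 0) (η : τ → Ω)
    (h : ∀ i, ∑ j, aeval p (pderiv (Sum.inr j) (F i)) * η j = 0) : η = 0 := by
  by_contra hη
  apply hJ
  have h1 : ((aeval p).toRingHom.mapMatrix (jacM F)).det = 0 := by
    refine Matrix.exists_mulVec_eq_zero_iff.mp ⟨η, hη, ?_⟩
    funext i
    exact h i
  rw [← RingHom.map_det] at h1
  exact h1

end Main

/-- **Generic solutions.** If a square system of polynomial equations has one nondegenerate
solution, then it has a nondegenerate solution for generic values of the coefficients, in every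
algebraically closed field. -/
theorem exists_generic_solution {k : Type*} [Field k] [CharZero k] {σ τ : Type*} [Finite σ]
    [Fintype τ] [DecidableEq τ] (F : τ → MvPolynomial (σ ⊕ τ) k) (d : MvPolynomial (σ ⊕ τ) k)
    (p : σ ⊕ τ → k) (hF : ∀ i, eval p (F i) = 0)
    (hJ : ∀ η : τ → k, (∀ i, ∑ j, eval p (pderiv (Sum.inr j) (F i)) * η j = 0) → η = 0)
    (hd : eval p d ≠ 0) :
    ∃ S : MvPolynomial σ k, S ≠ 0 ∧ ∀ (Ω : Type*) [Field Ω] [IsAlgClosed Ω] [Algebra k Ω]
      (x : σ → Ω), aeval x S ≠ 0 → ∃ y : τ → Ω, (∀ i, aeval (Sum.elim x y) (F i) = 0) ∧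
        (∀ η : τ → Ω, (∀ i, ∑ j, aeval (Sum.elim x y) (pderiv (Sum.inr j) (F i)) * η j = 0) →
          η = 0) ∧ aeval (Sum.elim x y) d ≠ 0 := by
  classical
  have _ : Fintype σ := Fintype.ofFinite σ
  have hJ' : eval p (jacM F).det ≠ 0 := det_ne_zero_of_inj F p hJ
  have hnt := exists_point_hom F d p hF hJ' hd
  have hinj := solMap_injective F d hnt
  let _ : Algebra (MvPolynomial σ k) (solRing F d) := (solMap F d).toRingHom.toAlgebra
  have _ : IsScalarTower k (MvPolynomial σ k) (solRing F d) :=
    IsScalarTower.of_algebraMap_eq (fun a => ((solMap F d).commutes a).symm)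
  have _ : Algebra.FiniteType k (solRing F d) := inferInstance
  have _ : Algebra.FiniteType (MvPolynomial σ k) (solRing F d) :=
    Algebra.FiniteType.of_restrictScalars_finiteType k (MvPolynomial σ k) (solRing F d)
  have _ : Algebra.FinitePresentation (MvPolynomial σ k) (solRing F d) :=
    Algebra.FinitePresentation.of_finiteType.mp inferInstance
  obtain ⟨S, hS, H⟩ := extend_hom (A := MvPolynomial σ k) (B := solRing F d) hinj
  refine ⟨S, hS, ?_⟩
  intro Ω _ _ _ x hx
  obtain ⟨ψ, hψ⟩ := H Ω (aeval x : MvPolynomial σ k →ₐ[k] Ω).toRingHom hx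
  let π : MvPolynomial (Option (σ ⊕ τ)) k →+* solRing F d := Ideal.Quotient.mk _
  let y : τ → Ω := fun j => ψ (π (X (some (Sum.inr j))))
  have hψ' : ∀ a : MvPolynomial σ k, ψ (π (rename (fun t => some (Sum.inl t)) a)) = aeval x a := by
    intro a
    exact congrArg (fun φ => φ a) hψ
  have hq : ∀ q : MvPolynomial (σ ⊕ τ) k, aeval (Sum.elim x y) q = ψ (π (rename some q)) := by
    intro q
    induction q using MvPolynomial.induction_on with
    | C a =>
      have := hψ' (C a)
      rw [rename_C] at this
      rw [rename_C, this, aeval_C, aeval_C]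
    | add p q hp hq => simp only [map_add, hp, hq]
    | mul_X p v hp =>
      rw [map_mul, map_mul, map_mul, map_mul, hp, aeval_X, rename_X]
      congr 1
      rcases v with t | j
      · have := hψ' (X t)
        rw [rename_X, aeval_X] at this
        exact this.symm
      · rfl
  have hrel : ∀ r ∈ relSet F d, ψ (π r) = 0 := by
    intro r hr
    have : π r = 0 := Ideal.Quotient.eq_zero_iff_mem.mpr (Ideal.subset_span hr)
    rw [this, map_zero]
  have hg : aeval (Sum.elim x y) ((jacM F).det * d) ≠ 0 := by
    intro h0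
    have h1 := hrel _ (Or.inr rfl)
    rw [map_sub, map_sub, map_mul, map_mul, ← hq, h0, mul_zero, map_one, map_one, zero_sub] at h1
    exact one_ne_zero (neg_eq_zero.mp h1)
  rw [map_mul] at hg
  refine ⟨y, fun i => ?_, fun η hη => ?_, right_ne_zero_of_mul hg⟩
  · rw [hq]
    exact hrel _ (Or.inl ⟨i, rfl⟩)
  · exact inj_of_det_ne_zero F _ (left_ne_zero_of_mul hg) η hη

end Pool.Agent.CalabiYauN
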