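import Pool.Agent.Lib_MP_1209e6_cy.GenA
import Pool.Agent.Lib_MP_1209e6_cy.GenB
import Pool.Agent.Lib_MP_1209e6_cy.GenC
import Pool.Agent.Lib_MP_1209e6_cy.GenC2

/-!
PIECE [GND] (MP_1209e6_ag).  A generic fixed point.
-/

open Matrix Filter Topology

namespace Pool.Agent.MP_1209e6_cy

variable {m : ℕ}

/-! ### smoothness of the vector `pv (row y) w` and of the forms -/

theorem contDiff_pv_row (D : Dat m ℂ) (w : Vec m ℂ) (n : WithTop ℕ∞) :
    ContDiff ℂ n (fun y : Vec m ℂ => pv (D.row y) w) := by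
  rw [contDiff_pi]
  intro j
  have hrow : ∀ (i : Fin m) (l : Fin (m + 2)),
      ContDiff ℂ n (fun y : Vec m ℂ => D.row y i l) := by
    intro i l
    unfold Dat.row
    refine ContDiff.sum fun p _ => ?_
    exact contDiff_const.mul (contDiff_apply ℂ ℂ p)
  have he : (fun y : Vec m ℂ => pv (D.row y) w j) = fun y : Vec m ℂ =>
      ∑ σ : Equiv.Perm (Fin (m + 2)), (Equiv.Perm.sign σ : ℂ) *
        ∏ i, (Matrix.of (vecCons w (vecCons (Pi.single j 1) (D.row y)) :
          Fin (m + 2) → Vec m ℂ)) (σ i) i := by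
    funext y
    unfold pv plu
    rw [Matrix.det_apply']
  rw [he]
  refine ContDiff.sum fun σ _ => ?_
  refine contDiff_const.mul ?_
  refine contDiff_prod fun i _ => ?_
  generalize σ i = q
  refine Fin.cases ?_ (fun q => ?_) q
  · exact contDiff_const
  · refine Fin.cases ?_ (fun q => ?_) q
    · exact contDiff_const
    · exact hrow q i

theorem contDiff_A {E : Type*} [NormedAddCommGroup E] [NormedSpace ℂ E] (D : Dat m ℂ) (i : Fin m)
    {n : WithTop ℕ∞} {x y : E → Vec m ℂ} (hx : ContDiff ℂ n x) (hy : ContDiff ℂ n y) :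
    ContDiff ℂ n (fun e => D.A i (x e) (y e)) := by
  unfold Dat.A
  refine ContDiff.sum fun j _ => ContDiff.sum fun l _ => ?_
  exact (contDiff_const.mul (contDiff_pi.1 hx j)).mul (contDiff_pi.1 hy l)

theorem contDiff_B {E : Type*} [NormedAddCommGroup E] [NormedSpace ℂ E] (D : Dat m ℂ)
    {n : WithTop ℕ∞} {x x' y y' : E → Vec m ℂ} (hx : ContDiff ℂ n x) (hx' : ContDiff ℂ n x')
    (hy : ContDiff ℂ n y) (hy' : ContDiff ℂ n y') :
    ContDiff ℂ n (fun e => D.B (x e) (x' e) (y e) (y' e)) := by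
  unfold Dat.B
  refine ContDiff.sum fun j _ => ContDiff.sum fun k _ => ContDiff.sum fun l _ =>
    ContDiff.sum fun p _ => ?_
  exact (((contDiff_const.mul (contDiff_pi.1 hx j)).mul (contDiff_pi.1 hx' k)).mul
    (contDiff_pi.1 hy l)).mul (contDiff_pi.1 hy' p)

theorem hasDerivAt_A (D : Dat m ℂ) (i : Fin m) {x y : ℂ → Vec m ℂ} {x₁ y₁ : Vec m ℂ} {t : ℂ}
    (hx : HasDerivAt x x₁ t) (hy : HasDerivAt y y₁ t) :
    HasDerivAt (fun t => D.A i (x t) (y t)) (D.A i x₁ (y t) + D.A i (x t) y₁) t := by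
  rw [hasDerivAt_pi] at hx hy
  have : HasDerivAt (fun t => D.A i (x t) (y t))
      (∑ j, ∑ l, (D.a i j l * x₁ j * y t l + D.a i j l * x t j * y₁ l)) t := by
    unfold Dat.A
    refine HasDerivAt.fun_sum fun j _ => HasDerivAt.fun_sum fun l _ => ?_
    exact ((hx j).const_mul (D.a i j l)).mul (hy l)
  convert this using 1
  unfold Dat.A
  simp only [← Finset.sum_add_distrib]

theorem hasDerivAt_B (D : Dat m ℂ) {x x' y y' : ℂ → Vec m ℂ} {x₁ x₁' y₁ y₁' : Vec m ℂ} {t : ℂ}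
    (hx : HasDerivAt x x₁ t) (hx' : HasDerivAt x' x₁' t) (hy : HasDerivAt y y₁ t)
    (hy' : HasDerivAt y' y₁' t) :
    HasDerivAt (fun t => D.B (x t) (x' t) (y t) (y' t))
      (D.B x₁ (x' t) (y t) (y' t) + D.B (x t) x₁' (y t) (y' t) + D.B (x t) (x' t) y₁ (y' t) +
        D.B (x t) (x' t) (y t) y₁') t := by
  rw [hasDerivAt_pi] at hx hx' hy hy'
  have : HasDerivAt (fun t => D.B (x t) (x' t) (y t) (y' t))
      (∑ j, ∑ k, ∑ l, ∑ p, (((D.b j k l p * x₁ j * x' t k + D.b j k l p * x t j * x₁' k) * y t l +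
        D.b j k l p * x t j * x' t k * y₁ l) * y' t p +
          D.b j k l p * x t j * x' t k * y t l * y₁' p)) t := by
    unfold Dat.B
    refine HasDerivAt.fun_sum fun j _ => HasDerivAt.fun_sum fun k _ =>
      HasDerivAt.fun_sum fun l _ => HasDerivAt.fun_sum fun p _ => ?_
    exact ((((hx j).const_mul (D.b j k l p)).mul (hx' k)).mul (hy l)).mul (hy' p)
  convert this using 1
  unfold Dat.B
  simp only [← Finset.sum_add_distrib]
  refine Finset.sum_congr rfl fun j _ => Finset.sum_congr rfl fun k _ =>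
    Finset.sum_congr rfl fun l _ => Finset.sum_congr rfl fun p _ => ?_
  ring

/-! ### the equations of the set of fixed points -/

/-- the equations of the set of fixed points together with two coordinates -/
noncomputable def psi (D : Dat m ℂ) (w w' : Vec m ℂ) (i₀ j₀ : Fin (m + 2))
    (p : Vec m ℂ × Vec m ℂ) : (Fin m → ℂ) × ℂ × ℂ × ℂ × ℂ × ℂ :=
  (fun i => D.A i p.1 p.2,
    D.B p.1 p.1 p.2 p.2,
    D.B p.1 (pv (D.row p.2) w) p.2 p.2,
    D.B p.1 p.1 p.2 (pv (D.swap.row p.1) w'),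
    p.1 i₀, p.2 j₀)

theorem contDiff_psi (D : Dat m ℂ) (w w' : Vec m ℂ) (i₀ j₀ : Fin (m + 2)) :
    ContDiff ℂ 1 (psi D w w' i₀ j₀) := by
  have h1 : ContDiff ℂ 1 (fun p : Vec m ℂ × Vec m ℂ => p.1) := contDiff_fst
  have h2 : ContDiff ℂ 1 (fun p : Vec m ℂ × Vec m ℂ => p.2) := contDiff_snd
  have hu : ContDiff ℂ 1 (fun p : Vec m ℂ × Vec m ℂ => pv (D.row p.2) w) :=
    (contDiff_pv_row D w 1).comp h2
  have hv : ContDiff ℂ 1 (fun p : Vec m ℂ × Vec m ℂ => pv (D.swap.row p.1) w') :=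
    (contDiff_pv_row D.swap w' 1).comp h1
  unfold psi
  refine ContDiff.prodMk (contDiff_pi.2 fun i => contDiff_A D i h1 h2) ?_
  refine ContDiff.prodMk (contDiff_B D h1 h1 h2 h2) ?_
  refine ContDiff.prodMk (contDiff_B D h1 hu h2 h2) ?_
  refine ContDiff.prodMk (contDiff_B D h1 h1 h2 hv) ?_
  exact ContDiff.prodMk (contDiff_pi.1 h1 i₀) (contDiff_pi.1 h2 j₀)

theorem hasDerivAt_pv_line (D : Dat m ℂ) (w y η : Vec m ℂ) :
    HasDerivAt (fun t : ℂ => pv (D.row (y + t • η)) w) (D.dpv w y η) 0 := by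
  obtain ⟨L, hL, hL'⟩ := D.hasFDerivAt_pv w y
  have hline : HasDerivAt (fun t : ℂ => y + t • η) η 0 := by
    have := ((hasDerivAt_id (0 : ℂ)).smul_const η).const_add y
    simpa using this
  have hL2 : HasFDerivAt (fun y => pv (D.row y) w) L (y + (0 : ℂ) • η) := by
    simpa using hL
  have := hL2.comp_hasDerivAt (0 : ℂ) hline
  rw [hL'] at this
  exact this

theorem hasDerivAt_psi_line {D : Dat m ℂ} (hD : D.Symm) (w w' x y : Vec m ℂ)
    (i₀ j₀ : Fin (m + 2)) (q : Vec m ℂ × Vec m ℂ) :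
    HasDerivAt (fun t : ℂ => psi D w w' i₀ j₀ ((x, y) + t • q)) (jac D w w' x y i₀ j₀ q) 0 := by
  obtain ⟨ξ, η⟩ := q
  have hx : HasDerivAt (fun t : ℂ => x + t • ξ) ξ 0 := by
    have := ((hasDerivAt_id (0 : ℂ)).smul_const ξ).const_add x
    simpa using this
  have hy : HasDerivAt (fun t : ℂ => y + t • η) η 0 := by
    have := ((hasDerivAt_id (0 : ℂ)).smul_const η).const_add y
    simpa using this
  have hu := hasDerivAt_pv_line D w y η
  have hv := hasDerivAt_pv_line D.swap w' x ξ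
  have e1 : ∀ i, HasDerivAt (fun t : ℂ => D.A i (x + t • ξ) (y + t • η))
      (D.A i ξ y + D.A i x η) 0 := by
    intro i
    have := hasDerivAt_A D i hx hy
    simpa using this
  have e2 : HasDerivAt (fun t : ℂ => D.B (x + t • ξ) (x + t • ξ) (y + t • η) (y + t • η))
      (2 * D.B x ξ y y + 2 * D.B x x y η) 0 := by
    have := hasDerivAt_B D hx hx hy hy
    convert this using 1
    simp only [zero_smul, add_zero]
    rw [hD.B_comm ξ x y y, hD.B_comm' x x η y]
    ring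
  have e3 : HasDerivAt (fun t : ℂ => D.B (x + t • ξ) (pv (D.row (y + t • η)) w) (y + t • η)
      (y + t • η)) (D.B ξ (pv (D.row y) w) y y + D.gam w x y η) 0 := by
    have := hasDerivAt_B D hx hu hy hy
    convert this using 1
    simp only [zero_smul, add_zero]
    unfold Dat.gam
    rw [hD.B_comm' x _ η y]
    ring
  have e4 : HasDerivAt (fun t : ℂ => D.B (x + t • ξ) (x + t • ξ) (y + t • η)
      (pv (D.swap.row (x + t • ξ)) w'))
      (D.B x x η (pv (D.swap.row x) w') + D.swap.gam w' y x ξ) 0 := by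
    have := hasDerivAt_B D hx hx hy hv
    convert this using 1
    simp only [zero_smul, add_zero]
    unfold Dat.gam
    rw [hD.B_comm ξ x, D.swap_B, D.swap_B]
    ring
  have e5 : HasDerivAt (fun t : ℂ => (x + t • ξ) i₀) (ξ i₀) 0 := (hasDerivAt_pi.1 hx) i₀
  have e6 : HasDerivAt (fun t : ℂ => (y + t • η) j₀) (η j₀) 0 := (hasDerivAt_pi.1 hy) j₀
  exact (hasDerivAt_pi.2 e1).prodMk (e2.prodMk (e3.prodMk (e4.prodMk (e5.prodMk e6))))

theorem fderiv_psi {D : Dat m ℂ} (hD : D.Symm) (w w' x y : Vec m ℂ)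
    (i₀ j₀ : Fin (m + 2)) (q : Vec m ℂ × Vec m ℂ) :
    fderiv ℂ (psi D w w' i₀ j₀) (x, y) q = jac D w w' x y i₀ j₀ q := by
  have h1 : HasFDerivAt (psi D w w' i₀ j₀) (fderiv ℂ (psi D w w' i₀ j₀) (x, y)) (x, y) :=
    ((contDiff_psi D w w' i₀ j₀).differentiable (by simp)).differentiableAt.hasFDerivAt
  have hline : HasDerivAt (fun t : ℂ => ((x, y) : Vec m ℂ × Vec m ℂ) + t • q) q 0 := by
    have := ((hasDerivAt_id (0 : ℂ)).smul_const q).const_add ((x, y) : Vec m ℂ × Vec m ℂ)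
    simpa using this
  have h2 : HasFDerivAt (psi D w w' i₀ j₀) (fderiv ℂ (psi D w w' i₀ j₀) (x, y))
      (((x, y) : Vec m ℂ × Vec m ℂ) + (0 : ℂ) • q) := by
    simpa using h1
  have h3 := h2.comp_hasDerivAt (0 : ℂ) hline
  exact h3.unique (hasDerivAt_psi_line hD w w' x y i₀ j₀ q)

/-! ### completing by coordinates -/

/-- the coordinates in `J`, as a continuous linear map -/
noncomputable def coordJ (J : Finset (Fin (m + 2) ⊕ Fin (m + 2))) :
    Vec m ℂ × Vec m ℂ →L[ℂ] (J → ℂ) :=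
  LinearMap.toContinuousLinearMap
    { toFun := fun p j => Sum.elim p.1 p.2 j.1
      map_add' := by
        intro p q
        funext j
        rcases j with ⟨j | j, hj⟩ <;> rfl
      map_smul' := by
        intro c p
        funext j
        rcases j with ⟨j | j, hj⟩ <;> rfl }

theorem coordJ_apply (J : Finset (Fin (m + 2) ⊕ Fin (m + 2))) (p : Vec m ℂ × Vec m ℂ) :
    coordJ J p = fun j => Sum.elim p.1 p.2 j.1 := rfl

/-- the target as a space of functions -/
def tgt : ((Fin m → ℂ) × ℂ × ℂ × ℂ × ℂ × ℂ) →ₗ[ℂ] (Fin m ⊕ Fin 5 → ℂ) where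
  toFun := fun t => Sum.elim t.1 ![t.2.1, t.2.2.1, t.2.2.2.1, t.2.2.2.2.1, t.2.2.2.2.2]
  map_add' := by
    intro p q
    funext j
    rcases j with j | j
    · rfl
    · fin_cases j <;> rfl
  map_smul' := by
    intro c p
    funext j
    rcases j with j | j
    · rfl
    · fin_cases j <;> rfl

theorem tgt_injective : Function.Injective (tgt (m := m)) := by
  rintro ⟨a, b1, b2, b3, b4, b5⟩ ⟨a', b1', b2', b3', b4', b5'⟩ h
  have ha : a = a' := by
    funext i
    exact congrFun h (Sum.inl i)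
  have h1 : b1 = b1' := congrFun h (Sum.inr 0)
  have h2 : b2 = b2' := congrFun h (Sum.inr 1)
  have h3 : b3 = b3' := congrFun h (Sum.inr 2)
  have h4 : b4 = b4' := congrFun h (Sum.inr 3)
  have h5 : b5 = b5' := congrFun h (Sum.inr 4)
  subst ha h1 h2 h3 h4 h5
  rfl

theorem tgt_surjective : Function.Surjective (tgt (m := m)) := by
  intro f
  refine ⟨(fun i => f (Sum.inl i), f (Sum.inr 0), f (Sum.inr 1), f (Sum.inr 2), f (Sum.inr 3),
    f (Sum.inr 4)), ?_⟩
  funext j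
  rcases j with j | j
  · rfl
  · fin_cases j <;> rfl

/-- splitting a family of coordinates -/
def spl : ((Fin (m + 2) ⊕ Fin (m + 2)) → ℂ) →ₗ[ℂ] (Vec m ℂ × Vec m ℂ) where
  toFun := fun z => (fun i => z (Sum.inl i), fun i => z (Sum.inr i))
  map_add' := by
    intro p q
    rfl
  map_smul' := by
    intro c p
    rfl

theorem spl_surjective : Function.Surjective (spl (m := m)) := by
  rintro ⟨x, y⟩
  exact ⟨Sum.elim x y, rfl⟩

theorem exists_coord_surj (F : Vec m ℂ × Vec m ℂ →L[ℂ] ((Fin m → ℂ) × ℂ × ℂ × ℂ × ℂ × ℂ))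
    (hF : Function.Surjective F) :
    ∃ J : Finset (Fin (m + 2) ⊕ Fin (m + 2)), J.card + 1 = m ∧
      Function.Surjective (F.prod (coordJ J)) := by
  let L : ((Fin (m + 2) ⊕ Fin (m + 2)) → ℂ) →ₗ[ℂ] (Fin m ⊕ Fin 5 → ℂ) :=
    (tgt (m := m)).comp ((F : Vec m ℂ × Vec m ℂ →ₗ[ℂ] _).comp (spl (m := m)))
  have hL : Function.Surjective L := by
    have : (L : ((Fin (m + 2) ⊕ Fin (m + 2)) → ℂ) → (Fin m ⊕ Fin 5 → ℂ)) =
        tgt ∘ F ∘ spl := rfl
    rw [this]
    exact tgt_surjective.comp (hF.comp spl_surjective)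
  obtain ⟨J, hcard, hbij⟩ := exists_coordinates L hL
  refine ⟨J, ?_, ?_⟩
  · simp only [Fintype.card_sum, Fintype.card_fin] at hcard
    omega
  · rintro ⟨τ, ζ⟩
    obtain ⟨z, hz⟩ := hbij.2 (tgt τ, ζ)
    have hz1 : L z = tgt τ := congrArg Prod.fst hz
    have hz2 : (fun j : J => z j) = ζ := congrArg Prod.snd hz
    refine ⟨spl z, ?_⟩
    have h1 : F (spl z) = τ := tgt_injective hz1
    have h2 : coordJ J (spl z) = ζ := by
      rw [← hz2, coordJ_apply]
      funext j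
      rcases j with ⟨j | j, hj⟩ <;> rfl
    exact Prod.ext h1 h2

/-! ### the open conditions -/

theorem continuous_pv_row (D : Dat m ℂ) (w : Vec m ℂ) :
    Continuous (fun y : Vec m ℂ => pv (D.row y) w) :=
  (contDiff_pv_row D w 0).continuous

theorem continuous_B {E : Type*} [NormedAddCommGroup E] [NormedSpace ℂ E] (D : Dat m ℂ)
    {x x' y y' : E → Vec m ℂ} (hx : Continuous x) (hx' : Continuous x')
    (hy : Continuous y) (hy' : Continuous y') :
    Continuous (fun e => D.B (x e) (x' e) (y e) (y' e)) := by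
  unfold Dat.B
  refine continuous_finsetSum _ fun j _ => continuous_finsetSum _ fun k _ =>
    continuous_finsetSum _ fun l _ => continuous_finsetSum _ fun p _ => ?_
  exact (((continuous_const.mul (continuous_pi_iff.1 hx j)).mul (continuous_pi_iff.1 hx' k)).mul
    (continuous_pi_iff.1 hy l)).mul (continuous_pi_iff.1 hy' p)

theorem ev_aux {E : Type*} [TopologicalSpace E] {F G H : E → ℂ} (hF : Continuous F)
    (hG : Continuous G) (hH : Continuous H) {p₀ : E} (hG0 : G p₀ ≠ 0) (hH0 : H p₀ ≠ 0)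
    (ht : ∀ t : ℝ, 0 ≤ t → t ≤ 4 → F p₀ ≠ t * G p₀ * H p₀) :
    ∀ᶠ p in 𝓝 p₀, G p ≠ 0 ∧ H p ≠ 0 ∧ ∀ t : ℝ, 0 ≤ t → t ≤ 4 → F p ≠ t * G p * H p := by
  refine (hG.continuousAt.eventually_ne hG0).and ((hH.continuousAt.eventually_ne hH0).and ?_)
  have hK : IsCompact (Set.Icc (0 : ℝ) 4) := isCompact_Icc
  have := hK.eventually_forall_of_forall_eventually (x₀ := p₀)
    (P := fun (p : E) (t : ℝ) => F p ≠ t * G p * H p) ?_
  · filter_upwards [this] with p hp t ht0 ht4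
    exact hp t ⟨ht0, ht4⟩
  · intro t ht'
    have hcl : Continuous (fun z : E × ℝ => F z.1) := hF.comp continuous_fst
    have hcr : Continuous (fun z : E × ℝ => (z.2 : ℂ) * G z.1 * H z.1) :=
      ((Complex.continuous_ofReal.comp continuous_snd).mul (hG.comp continuous_fst)).mul
        (hH.comp continuous_fst)
    have hne := ht t ht'.1 ht'.2
    exact (isOpen_ne_fun hcl hcr).mem_nhds (show (p₀, t) ∈ _ from hne)

theorem eventually_open (D : Dat m ℂ) {w w' x y : Vec m ℂ} (hS : Sad D w w' x y) :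
    ∀ᶠ p : Vec m ℂ × Vec m ℂ in 𝓝 (x, y),
      D.B (pv (D.row p.2) w) (pv (D.row p.2) w) p.2 p.2 ≠ 0 ∧
      D.B p.1 p.1 (pv (D.swap.row p.1) w') (pv (D.swap.row p.1) w') ≠ 0 ∧
      ∀ t : ℝ, 0 ≤ t → t ≤ 4 →
        4 * D.gam w p.1 p.2 (pv (D.swap.row p.1) w') * D.swap.gam w' p.2 p.1 (pv (D.row p.2) w) ≠
          t * D.B (pv (D.row p.2) w) (pv (D.row p.2) w) p.2 p.2 *
            D.B p.1 p.1 (pv (D.swap.row p.1) w') (pv (D.swap.row p.1) w') := by
  have h1 : Continuous (fun p : Vec m ℂ × Vec m ℂ => p.1) := continuous_fst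
  have h2 : Continuous (fun p : Vec m ℂ × Vec m ℂ => p.2) := continuous_snd
  have hu : Continuous (fun p : Vec m ℂ × Vec m ℂ => pv (D.row p.2) w) :=
    (continuous_pv_row D w).comp h2
  have hv : Continuous (fun p : Vec m ℂ × Vec m ℂ => pv (D.swap.row p.1) w') :=
    (continuous_pv_row D.swap w').comp h1
  have hQu : Continuous (fun p : Vec m ℂ × Vec m ℂ =>
      D.B (pv (D.row p.2) w) (pv (D.row p.2) w) p.2 p.2) := continuous_B D hu hu h2 h2
  have hQv : Continuous (fun p : Vec m ℂ × Vec m ℂ =>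
      D.B p.1 p.1 (pv (D.swap.row p.1) w') (pv (D.swap.row p.1) w')) := continuous_B D h1 h1 hv hv
  have hg : Continuous (fun p : Vec m ℂ × Vec m ℂ =>
      D.gam w p.1 p.2 (pv (D.swap.row p.1) w')) := by
    have := (D.continuous_gam w).comp (h1.prodMk (h2.prodMk hv))
    exact this
  have hg' : Continuous (fun p : Vec m ℂ × Vec m ℂ =>
      D.swap.gam w' p.2 p.1 (pv (D.row p.2) w)) := by
    have := (D.swap.continuous_gam w').comp (h2.prodMk (h1.prodMk hu))
    exact this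
  exact ev_aux (F := fun p : Vec m ℂ × Vec m ℂ => 4 * D.gam w p.1 p.2 (pv (D.swap.row p.1) w') *
      D.swap.gam w' p.2 p.1 (pv (D.row p.2) w))
    (G := fun p : Vec m ℂ × Vec m ℂ => D.B (pv (D.row p.2) w) (pv (D.row p.2) w) p.2 p.2)
    (H := fun p : Vec m ℂ × Vec m ℂ =>
      D.B p.1 p.1 (pv (D.swap.row p.1) w') (pv (D.swap.row p.1) w'))
    ((continuous_const.mul hg).mul hg') hQu hQv hS.Qu hS.Qv hS.tau

/-- PIECE [GND].  A generic fixed point near a given one.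

Proof.  Let `Ψ(ξ, η) = (A_i(ξ, η), B(ξ, ξ, η, η), B(ξ, u(η), η, η), B(ξ, ξ, η, v(ξ)), ξ_{i₀}, η_{j₀})`,
`u(η) = pv (row η) w`, `v(ξ) = pv (swap.row ξ) w'`; a `C^1` map with derivative `jac` at `(x, y)` (`hasFDerivAt_pv` and
the definition of `gam`).  Complete `jac` by `m - 1` coordinates `J` (`exists_coordinates`; the source has dimension
`2 m + 4`, the target `m + 5`) to a bijective map; by the inverse (open mapping) theorem
(`HasStrictFDerivAt.map_nhds_eq_of_surj`) for every `ζ` close to the `J`-coordinates of `(x, y)` there is a point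
`(x₁, y₁)` close to `(x, y)` with `Ψ(x₁, y₁) = (0, 0, 0, 0, 1, 1)` and `J`-coordinates `ζ`.  Choose `ζ` algebraically
independent (`exists_algebraicIndependent`).  All conditions of `Sad` other than the equations are open:
continuity of the `B`'s and of `gam`; for `tau` note that `{(p, q) : ∀ t ∈ [0,4], p ≠ t q}` is open
(compactness of `[0, 4]`). -/
theorem exists_generic {D : Dat m ℂ} (hD : D.Symm) (hm : 1 ≤ m) {w w' x y : Vec m ℂ}
    (hS : Sad D w w' x y) {i₀ j₀ : Fin (m + 2)} (hx : x i₀ = 1) (hy : y j₀ = 1)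
    (hjac : Function.Surjective (jac D w w' x y i₀ j₀)) (k : IntermediateField ℚ ℂ)
    (hk : (k : Set ℂ).Countable) :
    ∃ x₁ y₁ : Vec m ℂ, Sad D w w' x₁ y₁ ∧ x₁ i₀ = 1 ∧ y₁ j₀ = 1 ∧
      ∃ J : Finset (Fin (m + 2) ⊕ Fin (m + 2)), J.card + 1 = m ∧
        AlgebraicIndependent k (fun j : J => Sum.elim x₁ y₁ j) := by
  have hF : Function.Surjective (fderiv ℂ (psi D w w' i₀ j₀) (x, y)) := by
    intro τ
    obtain ⟨q, hq⟩ := hjac τ
    exact ⟨q, by rw [fderiv_psi hD, hq]⟩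
  obtain ⟨J, hJ, hsurj⟩ := exists_coord_surj _ hF
  have hstr : HasStrictFDerivAt (fun p => (psi D w w' i₀ j₀ p, coordJ J p))
      ((fderiv ℂ (psi D w w' i₀ j₀) (x, y)).prod (coordJ J)) (x, y) :=
    ((contDiff_psi D w w' i₀ j₀).contDiffAt.hasStrictFDerivAt (by simp)).prodMk
      (coordJ J).hasStrictFDerivAt
  have hmap := hstr.map_nhds_eq_of_surj (LinearMap.range_eq_top.2 hsurj)
  have hpsi0 : psi D w w' i₀ j₀ (x, y) = (0, 0, 0, 0, 1, 1) := by
    unfold psi
    simp only [hS.hin.2, hS.hu, hS.hv, hx, hy]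
    have : (fun i => D.A i x y) = 0 := funext fun i => hS.hin.1 i
    rw [this]
  set N : Set (Vec m ℂ × Vec m ℂ) := {p |
      D.B (pv (D.row p.2) w) (pv (D.row p.2) w) p.2 p.2 ≠ 0 ∧
      D.B p.1 p.1 (pv (D.swap.row p.1) w') (pv (D.swap.row p.1) w') ≠ 0 ∧
      ∀ t : ℝ, 0 ≤ t → t ≤ 4 →
        4 * D.gam w p.1 p.2 (pv (D.swap.row p.1) w') * D.swap.gam w' p.2 p.1 (pv (D.row p.2) w) ≠
          t * D.B (pv (D.row p.2) w) (pv (D.row p.2) w) p.2 p.2 *
            D.B p.1 p.1 (pv (D.swap.row p.1) w') (pv (D.swap.row p.1) w')} with hN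
  have hNmem : N ∈ 𝓝 ((x, y) : Vec m ℂ × Vec m ℂ) := eventually_open D hS
  have himg : (fun p => (psi D w w' i₀ j₀ p, coordJ J p)) '' N ∈
      𝓝 (psi D w w' i₀ j₀ (x, y), coordJ J (x, y)) := by
    rw [← hmap]
    exact image_mem_map hNmem
  rw [hpsi0] at himg
  have hcont : Continuous (fun ζ : J → ℂ =>
      (((0, 0, 0, 0, 1, 1) : (Fin m → ℂ) × ℂ × ℂ × ℂ × ℂ × ℂ), ζ)) :=
    continuous_const.prodMk continuous_id
  have hpre : (fun ζ : J → ℂ =>
      (((0, 0, 0, 0, 1, 1) : (Fin m → ℂ) × ℂ × ℂ × ℂ × ℂ × ℂ), ζ)) ⁻¹'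
      ((fun p => (psi D w w' i₀ j₀ p, coordJ J p)) '' N) ∈ 𝓝 (coordJ J (x, y)) :=
    hcont.continuousAt.preimage_mem_nhds himg
  obtain ⟨U, hUsub, hU, hUmem⟩ := mem_nhds_iff.1 hpre
  obtain ⟨z, hzU, hz⟩ := exists_algebraicIndependent k hk U hU ⟨_, hUmem⟩
  obtain ⟨⟨x₁, y₁⟩, hpN, hp⟩ := hUsub hzU
  have hp1 : psi D w w' i₀ j₀ (x₁, y₁) = (0, 0, 0, 0, 1, 1) := congrArg Prod.fst hp
  have hp2 : coordJ J (x₁, y₁) = z := congrArg Prod.snd hp
  unfold psi at hp1
  simp only [Prod.mk.injEq] at hp1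
  obtain ⟨ha, hb, hc, hd, he, hf⟩ := hp1
  refine ⟨x₁, y₁, ⟨⟨fun i => congrFun ha i, hb⟩, hc, hd, hpN.1, hpN.2.1, hpN.2.2⟩, he, hf,
    J, hJ, ?_⟩
  rw [coordJ_apply] at hp2
  rw [← hp2] at hz
  exact hz

/-- A countable field containing the coefficients and finitely many more numbers. -/
theorem exists_countable_field (D : Dat m ℂ) (w : Vec m ℂ) : ∃ k : IntermediateField ℚ ℂ,
    (k : Set ℂ).Countable ∧ (∀ i j l, D.a i j l ∈ k) ∧ (∀ j l p q, D.b j l p q ∈ k) ∧
      ∀ i, w i ∈ k := by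
  set s : Set ℂ := (Set.range fun t : Fin m × Fin (m + 2) × Fin (m + 2) => D.a t.1 t.2.1 t.2.2) ∪
    ((Set.range fun t : Fin (m + 2) × Fin (m + 2) × Fin (m + 2) × Fin (m + 2) =>
      D.b t.1 t.2.1 t.2.2.1 t.2.2.2) ∪ Set.range w) with hs
  have hfin : s.Finite := (Set.finite_range _).union ((Set.finite_range _).union
    (Set.finite_range _))
  refine ⟨IntermediateField.adjoin ℚ s, ?_, ?_, ?_, ?_⟩
  · have h := IntermediateField.lift_cardinalMk_adjoin_le ℚ s
    have h2 : Cardinal.mk (IntermediateField.adjoin ℚ s) ≤ Cardinal.aleph0 := by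
      have := IntermediateField.cardinalMk_adjoin_le ℚ s
      refine this.trans ?_
      simp
    have h3 : Countable (IntermediateField.adjoin ℚ s) := Cardinal.mk_le_aleph0_iff.1 h2
    exact h3
  · intro i j l
    exact IntermediateField.subset_adjoin ℚ s (Or.inl ⟨(i, j, l), rfl⟩)
  · intro j l p q
    exact IntermediateField.subset_adjoin ℚ s (Or.inr (Or.inl ⟨(j, l, p, q), rfl⟩))
  · intro i
    exact IntermediateField.subset_adjoin ℚ s (Or.inr (Or.inr ⟨i, rfl⟩))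

end Pool.Agent.MP_1209e6_cy
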