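import Mathlib

/-!
PIECE [GRM] (MP_1209e6_ag).  The ring of germs at `0` of holomorphic functions, as a quotient of the
algebra of functions analytic at `0`.
-/

open Filter Topology MvPolynomial

namespace Pool.Agent.MP_1209e6_cy

/-- functions analytic at `0` -/
def AF : Subalgebra ℂ (ℂ → ℂ) where
  carrier := {f | AnalyticAt ℂ f 0}
  mul_mem' := fun hf hg => hf.mul hg
  add_mem' := fun hf hg => hf.add hg
  algebraMap_mem' := fun c => (analyticAt_const : AnalyticAt ℂ (fun _ : ℂ => c) 0)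

/-- functions vanishing near `0` -/
def AI : Ideal AF where
  carrier := {f | ∀ᶠ z in 𝓝 (0 : ℂ), f.1 z = 0}
  add_mem' := by
    intro f g hf hg
    filter_upwards [hf, hg] with z h1 h2
    show f.1 z + g.1 z = 0
    rw [h1, h2, add_zero]
  zero_mem' := by
    show ∀ᶠ z in 𝓝 (0 : ℂ), (0 : ℂ) = 0
    simp
  smul_mem' := by
    intro c f hf
    filter_upwards [hf] with z h1
    show c.1 z * f.1 z = 0
    rw [h1, mul_zero]

/-- Identity theorem: `AnalyticAt.eventually_eq_zero_or_eventually_ne_zero`. -/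
instance AI_prime : AI.IsPrime := by
  refine ⟨?_, ?_⟩
  · intro h
    have h1 : (1 : AF) ∈ AI := by rw [h]; trivial
    have h2 : ∀ᶠ z in 𝓝 (0 : ℂ), (1 : AF).1 z = 0 := h1
    have h3 : (1 : ℂ) = 0 := h2.self_of_nhds
    exact one_ne_zero h3
  · intro f g hfg
    have h : ∀ᶠ z in 𝓝 (0 : ℂ), f.1 z * g.1 z = 0 := hfg
    rcases f.2.eventually_eq_zero_or_eventually_ne_zero with hf | hf
    · exact Or.inl hf
    · rcases g.2.eventually_eq_zero_or_eventually_ne_zero with hg | hg
      · exact Or.inr hg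
      · exfalso
        have h' : ∀ᶠ z in 𝓝[≠] (0 : ℂ), f.1 z * g.1 z = 0 := h.filter_mono nhdsWithin_le_nhds
        obtain ⟨z, h1, h2, h3⟩ := (hf.and (hg.and h')).exists
        exact (mul_ne_zero h1 h2) h3

/-- the ring of germs -/
def AO : Type := AF ⧸ AI

noncomputable instance : CommRing AO := inferInstanceAs (CommRing (AF ⧸ AI))

noncomputable instance : Algebra ℂ AO := inferInstanceAs (Algebra ℂ (AF ⧸ AI))

instance : IsDomain AO := inferInstanceAs (IsDomain (AF ⧸ AI))

/-- the quotient map -/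
noncomputable def mkO : AF →ₐ[ℂ] AO := Ideal.Quotient.mkₐ ℂ AI

theorem mkO_surjective : Function.Surjective mkO := Ideal.Quotient.mk_surjective

theorem mkO_eq_zero_iff (f : AF) : mkO f = 0 ↔ ∀ᶠ z in 𝓝 (0 : ℂ), f.1 z = 0 := by
  have h : mkO f = 0 ↔ f ∈ AI := Ideal.Quotient.eq_zero_iff_mem
  rw [h]
  rfl

/-- the germ of a function -/
noncomputable def gm (f : ℂ → ℂ) (hf : AnalyticAt ℂ f 0) : AO := mkO ⟨f, hf⟩

theorem gm_eq_iff {f g : ℂ → ℂ} (hf : AnalyticAt ℂ f 0) (hg : AnalyticAt ℂ g 0) :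
    gm f hf = gm g hg ↔ ∀ᶠ z in 𝓝 (0 : ℂ), f z = g z := by
  have h : gm f hf = gm g hg ↔ mkO (⟨f, hf⟩ - ⟨g, hg⟩) = 0 := by
    rw [map_sub, sub_eq_zero]
    rfl
  rw [h, mkO_eq_zero_iff]
  constructor
  · intro h1
    filter_upwards [h1] with z hz
    exact sub_eq_zero.1 hz
  · intro h1
    filter_upwards [h1] with z hz
    exact sub_eq_zero.2 hz

theorem gm_eq_zero_iff {f : ℂ → ℂ} (hf : AnalyticAt ℂ f 0) :
    gm f hf = 0 ↔ ∀ᶠ z in 𝓝 (0 : ℂ), f z = 0 := mkO_eq_zero_iff _

/-- evaluation at `0` -/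
noncomputable def evO : AO →ₐ[ℂ] ℂ :=
  Ideal.Quotient.liftₐ AI
    { toFun := fun f : AF => f.1 0
      map_one' := rfl
      map_mul' := fun _ _ => rfl
      map_zero' := rfl
      map_add' := fun _ _ => rfl
      commutes' := fun _ => rfl }
    (fun f (hf : ∀ᶠ z in 𝓝 (0 : ℂ), f.1 z = 0) => hf.self_of_nhds)

theorem evO_gm {f : ℂ → ℂ} (hf : AnalyticAt ℂ f 0) : evO (gm f hf) = f 0 := rfl

/-- evaluation of polynomials -/
theorem aeval_gm {ι : Type*} (x : ι → ℂ → ℂ) (hx : ∀ i, AnalyticAt ℂ (x i) 0)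
    (p : MvPolynomial ι ℂ) (h : AnalyticAt ℂ (fun z => aeval (fun i => x i z) p) 0) :
    aeval (fun i => gm (x i) (hx i)) p = gm (fun z => aeval (fun i => x i z) p) h := by
  have h1 : aeval (fun i => gm (x i) (hx i)) p
      = mkO (aeval (fun i => (⟨x i, hx i⟩ : AF)) p) := by
    have := MvPolynomial.comp_aeval_apply (fun i => (⟨x i, hx i⟩ : AF)) mkO p
    rw [this]
    rfl
  rw [h1]
  unfold gm
  congr 1
  apply Subtype.ext
  funext z
  have h2 : ∀ (q : MvPolynomial ι ℂ) (z : ℂ), (aeval (fun i => (⟨x i, hx i⟩ : AF)) q).1 z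
      = aeval (fun i => x i z) q := by
    intro q z
    induction q using MvPolynomial.induction_on with
    | C a =>
      rw [aeval_C, aeval_C]
      rfl
    | add p q hp hq =>
      rw [map_add, map_add, ← hp, ← hq]
      rfl
    | mul_X p i hp =>
      rw [map_mul, map_mul, ← hp, aeval_X, aeval_X]
      rfl
  exact h2 p z

/-- a germ with nonzero value is a unit -/
theorem isUnit_gm {f : ℂ → ℂ} (hf : AnalyticAt ℂ f 0) (h0 : f 0 ≠ 0) : IsUnit (gm f hf) := by
  refine IsUnit.of_mul_eq_one (gm (fun z => (f z)⁻¹) (hf.inv h0)) ?_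
  have h1 : gm f hf * gm (fun z => (f z)⁻¹) (hf.inv h0)
      = gm (fun z => f z * (f z)⁻¹) (hf.mul (hf.inv h0)) := by
    unfold gm
    rw [← map_mul]
    rfl
  have h2 : (1 : AO) = gm (fun _ => 1) analyticAt_const := by
    unfold gm
    exact (map_one mkO).symm
  rw [h1, h2, gm_eq_iff]
  filter_upwards [hf.continuousAt.eventually_ne h0] with z hz
  exact mul_inv_cancel₀ hz

/-- the field of germs of meromorphic functions -/
def AK : Type := FractionRing AO

noncomputable instance : Field AK := inferInstanceAs (Field (FractionRing AO))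

noncomputable instance : Algebra AO AK := inferInstanceAs (Algebra AO (FractionRing AO))

noncomputable instance : Algebra ℂ AK := inferInstanceAs (Algebra ℂ (FractionRing AO))

instance : IsScalarTower ℂ AO AK := inferInstanceAs (IsScalarTower ℂ AO (FractionRing AO))

instance : IsFractionRing AO AK := inferInstanceAs (IsFractionRing AO (FractionRing AO))

instance : CharZero AK := charZero_of_injective_algebraMap (algebraMap ℂ AK).injective

/-- the germ of a function in the field of fractions -/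
noncomputable def gk (f : ℂ → ℂ) (hf : AnalyticAt ℂ f 0) : AK := algebraMap AO AK (gm f hf)

theorem gk_eq_iff {f g : ℂ → ℂ} (hf : AnalyticAt ℂ f 0) (hg : AnalyticAt ℂ g 0) :
    gk f hf = gk g hg ↔ ∀ᶠ z in 𝓝 (0 : ℂ), f z = g z := by
  unfold gk
  rw [(IsFractionRing.injective AO AK).eq_iff, gm_eq_iff]

theorem gk_eq_zero_iff {f : ℂ → ℂ} (hf : AnalyticAt ℂ f 0) :
    gk f hf = 0 ↔ ∀ᶠ z in 𝓝 (0 : ℂ), f z = 0 := by
  unfold gk
  rw [map_eq_zero_iff _ (IsFractionRing.injective AO AK), gm_eq_zero_iff]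

end Pool.Agent.MP_1209e6_cy
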