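import Pool.Agent.Lib_MP_1209e6_cy.Germ

/-!
PIECE [GSI] (MP_1209e6_ag).  The automorphism `z ↦ λ z`.
-/

open Filter Topology MvPolynomial

namespace Pool.Agent.MP_1209e6_cy

/-- analyticity of the rescaled function -/
private theorem gsi_analytic (c : ℂ) {f : ℂ → ℂ} (hf : AnalyticAt ℂ f 0) :
    AnalyticAt ℂ (fun z => f (c * z)) 0 := by
  have h1 : AnalyticAt ℂ (fun z : ℂ => c * z) 0 := analyticAt_const.mul analyticAt_id
  have h2 : AnalyticAt ℂ f (c * 0) := by rwa [mul_zero]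
  exact AnalyticAt.fun_comp h2 h1

private theorem gsi_tendsto (c : ℂ) : Tendsto (fun z : ℂ => c * z) (𝓝 0) (𝓝 0) := by
  have h : Continuous (fun z : ℂ => c * z) := by fun_prop
  have h2 := h.tendsto 0
  rwa [mul_zero] at h2

/-- rescaling on functions -/
private noncomputable def gsiF (c : ℂ) : AF →ₐ[ℂ] AF where
  toFun := fun f => ⟨fun z => f.1 (c * z), gsi_analytic c f.2⟩
  map_one' := rfl
  map_mul' := fun _ _ => rfl
  map_zero' := rfl
  map_add' := fun _ _ => rfl
  commutes' := fun _ => rfl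

private theorem gsiF_mem (c : ℂ) (f : AF) (hf : f ∈ AI) : gsiF c f ∈ AI :=
  (gsi_tendsto c).eventually hf

/-- rescaling on germs -/
private noncomputable def gsiO (c : ℂ) : AO →ₐ[ℂ] AO :=
  Ideal.Quotient.liftₐ AI (mkO.comp (gsiF c)) (fun f hf => by
    show mkO (gsiF c f) = 0
    rw [mkO_eq_zero_iff]
    exact gsiF_mem c f hf)

private theorem gsiO_mkO (c : ℂ) (f : AF) : gsiO c (mkO f) = mkO (gsiF c f) := rfl

private theorem gsiO_comp (c d : ℂ) (h : c * d = 1) (x : AO) : gsiO c (gsiO d x) = x := by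
  obtain ⟨f, rfl⟩ := mkO_surjective x
  rw [gsiO_mkO, gsiO_mkO]
  congr 1
  apply Subtype.ext
  funext z
  show f.1 (d * (c * z)) = f.1 z
  rw [← mul_assoc, mul_comm d c, h, one_mul]

/-- The automorphism `z ↦ λ z` of the ring of germs, extended to the fraction field. -/
theorem exists_sigma {lam : ℂ} (hlam : lam ≠ 0) : ∃ σ : AK ≃ₐ[ℂ] AK,
    ∀ (f : ℂ → ℂ) (hf : AnalyticAt ℂ f 0) (hf' : AnalyticAt ℂ (fun z => f (lam * z)) 0),
      σ (gk f hf) = gk (fun z => f (lam * z)) hf' := by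
  have h1 : lam * lam⁻¹ = 1 := mul_inv_cancel₀ hlam
  have h2 : lam⁻¹ * lam = 1 := inv_mul_cancel₀ hlam
  let e : AO ≃+* AO :=
    { toFun := gsiO lam
      invFun := gsiO lam⁻¹
      left_inv := gsiO_comp _ _ h2
      right_inv := gsiO_comp _ _ h1
      map_mul' := map_mul _
      map_add' := map_add _ }
  let E : AK ≃+* AK := IsFractionRing.ringEquivOfRingEquiv e
  have hE : ∀ x : AO, E (algebraMap AO AK x) = algebraMap AO AK (gsiO lam x) := fun x =>
    IsFractionRing.ringEquivOfRingEquiv_algebraMap e x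
  refine ⟨AlgEquiv.ofRingEquiv (f := E) (fun c => ?_), fun f hf hf' => ?_⟩
  · rw [IsScalarTower.algebraMap_apply ℂ AO AK, hE, AlgHom.commutes]
  · show E (gk f hf) = gk (fun z => f (lam * z)) hf'
    unfold gk
    rw [hE]
    rfl

end Pool.Agent.MP_1209e6_cy
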