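import Pool.Agent.Lib_MP_1209e6_cy.Basic

/-!
# The identities behind the covering involutions
-/

open Matrix

namespace Pool.Agent.MP_1209e6_cy

namespace Dat

variable {m : ℕ} {R T : Type*} [CommRing R] [CommRing T]

theorem A_pv (D : Dat m R) (i : Fin m) (w y : Vec m R) : D.A i (pv (D.row y) w) y = 0 := by
  rw [A_eq_dot, row_dot_pv]

theorem S_eq (D : Dat m R) (w x y : Vec m R) :
    D.S w x y = D.B (pv (D.row y) w) (pv (D.row y) w) y y • x -
      (2 * D.B x (pv (D.row y) w) y y) • pv (D.row y) w := by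
  funext j
  simp [S]

theorem A_S (D : Dat m R) (i : Fin m) (w x y : Vec m R) :
    D.A i (D.S w x y) y = D.B (pv (D.row y) w) (pv (D.row y) w) y y * D.A i x y := by
  rw [S_eq, A_sub_left, A_smul_left, A_smul_left, A_pv, mul_zero, sub_zero]

theorem Symm.B_S {D : Dat m R} (h : D.Symm) (w x y : Vec m R) :
    D.B (D.S w x y) (D.S w x y) y y =
      D.B (pv (D.row y) w) (pv (D.row y) w) y y ^ 2 * D.B x x y y := by
  rw [S_eq]
  set u := pv (D.row y) w
  rw [B_sub₁, h.B_sub₂, h.B_sub₂, B_smul₁, B_smul₁, B_smul₁, B_smul₁, h.B_smul₂, h.B_smul₂,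
    h.B_smul₂, h.B_smul₂, h.B_comm u x y y]
  ring

theorem Symm.In_S {D : Dat m R} (h : D.Symm) {w x y : Vec m R} (hin : D.In x y) :
    D.In (D.S w x y) y := by
  refine ⟨fun i => ?_, ?_⟩
  · rw [A_S, hin.1 i, mul_zero]
  · rw [h.B_S, hin.2, mul_zero]

/-- `w(x) π_ij = x_i u_j - x_j u_i` -/
theorem plu_single (r : Fin m → Vec m R) (w x : Vec m R) (hx : ∀ i, r i ⬝ᵥ x = 0)
    (i j : Fin (m + 2)) :
    plu r (Pi.single i 1) (Pi.single j 1) * (w ⬝ᵥ x) = x i * pv r w j - x j * pv r w i := by
  rw [plu_cramer r w x _ _ hx, single_one_dotProduct, single_one_dotProduct,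
    plu_antisymm r (Pi.single i 1) w]
  unfold pv
  ring

theorem sum_sub_mul (Q : Fin (m + 2) → Fin (m + 2) → R) (a b c d : R) (x u : Vec m R) :
    ∑ k, ∑ l, (a * u k - x k * b) * Q k l * (c * u l - x l * d) =
      a * c * (∑ k, ∑ l, u k * Q k l * u l) - a * d * (∑ k, ∑ l, u k * Q k l * x l) -
      b * c * (∑ k, ∑ l, x k * Q k l * u l) + b * d * (∑ k, ∑ l, x k * Q k l * x l) := by
  simp only [Finset.mul_sum, ← Finset.sum_sub_distrib, ← Finset.sum_add_distrib]
  refine Finset.sum_congr rfl fun k _ => Finset.sum_congr rfl fun l _ => ?_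
  ring

theorem Symm.E_eq {D : Dat m R} (h : D.Symm) (w x y : Vec m R) (hx : ∀ i, D.A i x y = 0)
    (i j : Fin (m + 2)) :
    (w ⬝ᵥ x) ^ 2 * D.E y i j =
      x i * x j * D.B (pv (D.row y) w) (pv (D.row y) w) y y -
      (x i * pv (D.row y) w j + pv (D.row y) w i * x j) * D.B x (pv (D.row y) w) y y +
      pv (D.row y) w i * pv (D.row y) w j * D.B x x y y := by
  have hr : ∀ i, D.row y i ⬝ᵥ x = 0 := fun i => by rw [← A_eq_dot]; exact hx i
  set u := pv (D.row y) w with hu
  have h1 : (w ⬝ᵥ x) ^ 2 * D.E y i j =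
      ∑ k, ∑ l, (x i * u k - x k * u i) * D.Q y k l * (x j * u l - x l * u j) := by
    unfold E
    rw [Finset.mul_sum]
    refine Finset.sum_congr rfl fun k _ => ?_
    rw [Finset.mul_sum]
    refine Finset.sum_congr rfl fun l _ => ?_
    rw [hu, ← plu_single (D.row y) w x hr i k, ← plu_single (D.row y) w x hr j l]
    ring
  rw [h1, sum_sub_mul, ← B_eq_Q, ← B_eq_Q, ← B_eq_Q, ← B_eq_Q, h.B_comm u x]
  ring

/-- The key identity: `2 w(x)^2 E(y) = x ⊗ S + S ⊗ x`. -/
theorem Symm.key {D : Dat m R} (h : D.Symm) {x y : Vec m R} (hin : D.In x y) (w : Vec m R)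
    (i j : Fin (m + 2)) :
    2 * (w ⬝ᵥ x) ^ 2 * D.E y i j = x i * D.S w x y j + x j * D.S w x y i := by
  have h1 := h.E_eq w x y hin.1 i j
  rw [hin.2] at h1
  rw [mul_assoc, h1]
  unfold S
  ring

theorem Symm.E_comm {D : Dat m R} (h : D.Symm) (y : Vec m R) (i j : Fin (m + 2)) :
    D.E y i j = D.E y j i := by
  unfold E
  rw [Finset.sum_comm]
  refine Finset.sum_congr rfl fun k _ => Finset.sum_congr rfl fun l _ => ?_
  have : D.Q y l k = D.Q y k l := by
    unfold Q
    refine Finset.sum_congr rfl fun p _ => Finset.sum_congr rfl fun q _ => ?_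
    rw [h.left]
  rw [this]
  ring

/-! naturality -/

theorem map_A (D : Dat m R) (f : R →+* T) (i : Fin m) (x y : Vec m R) :
    (D.map f).A i (fun j => f (x j)) (fun j => f (y j)) = f (D.A i x y) := by
  simp only [A, map, map_sum, map_mul]

theorem map_B (D : Dat m R) (f : R →+* T) (x x' y y' : Vec m R) :
    (D.map f).B (fun j => f (x j)) (fun j => f (x' j)) (fun j => f (y j)) (fun j => f (y' j)) =
      f (D.B x x' y y') := by
  simp only [B, map, map_sum, map_mul]

theorem map_In {D : Dat m R} (f : R →+* T) {x y : Vec m R} (h : D.In x y) :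
    (D.map f).In (fun j => f (x j)) (fun j => f (y j)) := by
  refine ⟨fun i => ?_, ?_⟩
  · rw [map_A, h.1 i, map_zero]
  · rw [map_B, h.2, map_zero]

theorem map_row (D : Dat m R) (f : R →+* T) (y : Vec m R) (i : Fin m) :
    (D.map f).row (fun j => f (y j)) i = fun j => f (D.row y i j) := by
  funext j
  simp only [row, map, map_sum, map_mul]

theorem map_Q (D : Dat m R) (f : R →+* T) (y : Vec m R) (j k : Fin (m + 2)) :
    (D.map f).Q (fun j => f (y j)) j k = f (D.Q y j k) := by
  simp only [Q, map, map_sum, map_mul]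

theorem map_plu (r : Fin m → Vec m R) (f : R →+* T) (w ξ : Vec m R) :
    plu (fun i j => f (r i j)) (fun j => f (w j)) (fun j => f (ξ j)) = f (plu r w ξ) := by
  unfold plu
  rw [RingHom.map_det]
  congr 1
  ext i j
  refine Fin.cases ?_ (fun i => ?_) i
  · rfl
  · refine Fin.cases ?_ (fun i => ?_) i
    · rfl
    · rfl

theorem map_single (f : R →+* T) (i : Fin (m + 2)) :
    (fun j => f ((Pi.single i 1 : Vec m R) j)) = (Pi.single i 1 : Vec m T) := by
  funext j
  by_cases h : j = i
  · subst h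
    simp
  · simp [Pi.single_eq_of_ne h]

theorem map_pv (r : Fin m → Vec m R) (f : R →+* T) (w : Vec m R) :
    pv (fun i j => f (r i j)) (fun j => f (w j)) = fun j => f (pv r w j) := by
  funext j
  unfold pv
  rw [← map_plu, map_single]

theorem map_E (D : Dat m R) (f : R →+* T) (y : Vec m R) (i j : Fin (m + 2)) :
    (D.map f).E (fun j => f (y j)) i j = f (D.E y i j) := by
  unfold E
  rw [map_sum]
  refine Finset.sum_congr rfl fun k _ => ?_
  rw [map_sum]
  refine Finset.sum_congr rfl fun l _ => ?_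
  have hr : (D.map f).row (fun j => f (y j)) = fun i j => f (D.row y i j) :=
    funext fun i => map_row D f y i
  rw [map_mul, map_mul, ← map_plu, ← map_plu, map_Q, hr]
  simp only [map_single]

theorem map_S (D : Dat m R) (f : R →+* T) (w x y : Vec m R) (j : Fin (m + 2)) :
    (D.map f).S (fun j => f (w j)) (fun j => f (x j)) (fun j => f (y j)) j = f (D.S w x y j) := by
  have hp : pv ((D.map f).row fun j => f (y j)) (fun j => f (w j)) =
      fun j => f (pv (D.row y) w j) := by
    have hr : (D.map f).row (fun j => f (y j)) = fun i j => f (D.row y i j) :=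
      funext fun i => map_row D f y i
    rw [← map_pv, hr]
  unfold S
  rw [hp, map_B, map_B]
  simp only [map_sub, map_mul, map_ofNat]

end Dat

end Pool.Agent.MP_1209e6_cy
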