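import Pool.Agent.Lib_MP_1209e6_cy.OrbB

/-!
# No homogeneous relation between the coordinates of the curve
-/

open Matrix MvPolynomial Filter Topology

namespace Pool.Agent.MP_1209e6_cy

variable {m : ℕ}

/-- Conclusion: no homogeneous relation between the coordinates of `x(z)`. -/
theorem Curve.no_relation (hm : 1 ≤ m) {D : Dat m ℂ} (hD : D.Symm) (hSm : SmallE D)
    (hSm' : SmallE D.swap) {w w' x₀ y₀ : Vec m ℂ} {lam : ℂ}
    {x y : ℂ → Vec m ℂ} {a b : ℂ → ℂ} (h : Curve D w w' x₀ y₀ lam x y a b)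
    (hS : Sad D w w' x₀ y₀) (k : IntermediateField ℚ ℂ) (hk : D.Over k) (hw : ∀ i, w i ∈ k)
    {i₀ j₀ : Fin (m + 2)} (hx : x₀ i₀ = 1) (hy : y₀ j₀ = 1)
    (J : Finset (Fin (m + 2) ⊕ Fin (m + 2))) (hJ : J.card + 1 = m)
    (hind : AlgebraicIndependent k (fun j : J => Sum.elim x₀ y₀ j))
    (d : ℕ) (p : MvPolynomial (Fin (m + 2)) ℂ) (hp : p.IsHomogeneous d)
    (hpx : ∀ z, aeval (x z) p = 0) : p = 0 := by
  obtain ⟨σ, hO⟩ := h.exists_orb hD hS.hin
  have htr := h.le_tr hD hS k hk hw hx hy J hJ hind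
  refine no_rel_complex hm hD hSm hSm' hO k hk htr d p hp ?_
  have hx' : Differentiable ℂ (fun z => aeval (x z) p) := by
    have h1 : ∀ i, Differentiable ℂ (fun z => x z i) := fun i z => (differentiableAt_pi.1 (h.dx z)) i
    have h2 : (fun z => aeval (x z) p) = fun z => ∑ s ∈ p.support, p.coeff s *
        ∏ i ∈ s.support, x z i ^ s i := by
      funext z
      rw [aeval_def, eval₂_eq]
      simp
    rw [h2]
    fun_prop
  have e1 := aeval_gm (fun i z => x z i) (fun i => analyticAt_comp h.dx i) p (hx'.analyticAt 0)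
  have e2 : aeval (gv x (analyticAt_comp h.dx)) p =
      algebraMap AO AK (aeval (fun i => gm (fun z => x z i) (analyticAt_comp h.dx i)) p) := by
    rw [← MvPolynomial.aeval_algebraMap_apply]
    rfl
  rw [e2, e1]
  have e3 : gm (fun z => aeval (fun i => x z i) p) (hx'.analyticAt 0) = 0 := by
    rw [gm_eq_zero_iff]
    exact Filter.Eventually.of_forall hpx
  rw [e3, map_zero]

end Pool.Agent.MP_1209e6_cy
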