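import Pool.Agent.Lib_MP_1209e6_cy.ProjA
import Pool.Agent.Lib_MP_1209e6_cy.Thin
import Pool.Agent.Lib_MP_1209e6_cy.Points3

/-!
PIECE [PRB] (MP_1209e6_ag).  Smallness.
-/

open Matrix MvPolynomial Filter Topology

namespace Pool.Agent.MP_1209e6_cy

variable {m : ℕ}

theorem prb_aeval_smul {F : MvPolynomial (Fin (m + 2)) ℂ} {d : ℕ} (hF : F.IsHomogeneous d)
    (a : ℂ) (y : Vec m ℂ) : aeval (a • y) F = a ^ d * aeval y F := by
  have h1 : aeval (a • y) F = eval (a • y) F := rfl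
  have h2 : aeval y F = eval y F := rfl
  rw [h1, h2, eval_eq, eval_eq, Finset.mul_sum]
  refine Finset.sum_congr rfl fun s hs => ?_
  have hdeg : ∑ i ∈ s.support, s i = d := by
    have := hF (mem_support_iff.1 hs)
    rw [← this]
    simp [Finsupp.weight_apply, Finsupp.sum]
  simp only [Pi.smul_apply, smul_eq_mul, mul_pow]
  rw [Finset.prod_mul_distrib, Finset.prod_pow_eq_pow_sum, hdeg]
  ring

theorem prb_thin {S : Set (PP m)} (hS : Codim2 S) {T : Set (Vec m ℂ)}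
    (hT : ∀ y ∈ T, ∃ hy : y ≠ 0, Projectivization.mk ℂ y hy ∈ S) : Thin T := by
  obtain ⟨F, G, d, e, hF, hG, hr, hz⟩ := hS
  refine ⟨F, G, ⟨d, hF⟩, ⟨e, hG⟩, hr, fun y hy => ?_⟩
  obtain ⟨hy0, hyS⟩ := hT y hy
  obtain ⟨a, ha⟩ := Projectivization.exists_smul_eq_mk_rep ℂ y hy0
  have h := hz _ hyS
  rw [← ha] at h
  have ha0 : (a : ℂ) ≠ 0 := a.ne_zero
  have e1 : aeval ((a : ℂ) • y) F = (a : ℂ) ^ d * aeval y F := prb_aeval_smul hF _ _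
  have e2 : aeval ((a : ℂ) • y) G = (a : ℂ) ^ e * aeval y G := prb_aeval_smul hG _ _
  have h1 : aeval ((a : ℂ) • y) F = 0 := h.1
  have h2 : aeval ((a : ℂ) • y) G = 0 := h.2
  rw [e1] at h1
  rw [e2] at h2
  exact ⟨(mul_eq_zero.1 h1).resolve_left (pow_ne_zero _ ha0),
    (mul_eq_zero.1 h2).resolve_left (pow_ne_zero _ ha0)⟩

theorem Indep.prb_left {N : ℕ} {x x' : Fin N → ℂ} (h : Indep x x') : x ≠ 0 := by
  rintro rfl
  obtain ⟨i, j, hij⟩ := h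
  simp at hij

theorem Indep.prb_right {N : ℕ} {x x' : Fin N → ℂ} (h : Indep x x') : x' ≠ 0 := by
  rintro rfl
  obtain ⟨i, j, hij⟩ := h
  simp at hij

theorem Indep.prb_mk_ne {x x' : Vec m ℂ} (h : Indep x x') (hx : x ≠ 0) (hx' : x' ≠ 0) :
    Projectivization.mk ℂ x hx ≠ Projectivization.mk ℂ x' hx' := by
  intro he
  rw [Projectivization.mk_eq_mk_iff'] at he
  obtain ⟨a, ha⟩ := he
  obtain ⟨i, j, hij⟩ := h
  apply hij
  rw [← ha]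
  simp only [Pi.smul_apply, smul_eq_mul]
  ring

/-- three points over `y` -/
theorem prb_three {D : Dat m ℂ} (hD : D.Symm) {y : Vec m ℂ} (hy : y ≠ 0)
    (hE : ∀ i j, D.E y i j = 0) :
    ∃ q₁ q₂ q₃ : PP m, q₁ ≠ q₂ ∧ q₁ ≠ q₃ ∧ q₂ ≠ q₃ ∧
      (q₁, Projectivization.mk ℂ y hy) ∈ D.X ∧ (q₂, Projectivization.mk ℂ y hy) ∈ D.X ∧
      (q₃, Projectivization.mk ℂ y hy) ∈ D.X := by
  obtain ⟨x₁, x₂, x₃, h1, h2, h3, i12, i13, i23⟩ := hD.three_points y hE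
  refine ⟨Projectivization.mk ℂ x₁ i12.prb_left, Projectivization.mk ℂ x₂ i12.prb_right,
    Projectivization.mk ℂ x₃ i13.prb_right, i12.prb_mk_ne _ _, i13.prb_mk_ne _ _, i23.prb_mk_ne _ _,
    (mem_X_mk hD _ _).2 h1, (mem_X_mk hD _ _).2 h2, (mem_X_mk hD _ _).2 h3⟩

theorem prb_three_swap {D : Dat m ℂ} (hD : D.Symm) {x : Vec m ℂ} (hx : x ≠ 0)
    (hE : ∀ i j, D.swap.E x i j = 0) :
    ∃ q₁ q₂ q₃ : PP m, q₁ ≠ q₂ ∧ q₁ ≠ q₃ ∧ q₂ ≠ q₃ ∧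
      (Projectivization.mk ℂ x hx, q₁) ∈ D.X ∧ (Projectivization.mk ℂ x hx, q₂) ∈ D.X ∧
      (Projectivization.mk ℂ x hx, q₃) ∈ D.X := by
  obtain ⟨y₁, y₂, y₃, h1, h2, h3, i12, i13, i23⟩ := hD.swap.three_points x hE
  refine ⟨Projectivization.mk ℂ y₁ i12.prb_left, Projectivization.mk ℂ y₂ i12.prb_right,
    Projectivization.mk ℂ y₃ i13.prb_right, i12.prb_mk_ne _ _, i13.prb_mk_ne _ _, i23.prb_mk_ne _ _,
    (mem_X_mk hD _ _).2 ((D.swap_In _ _).1 h1), (mem_X_mk hD _ _).2 ((D.swap_In _ _).1 h2),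
    (mem_X_mk hD _ _).2 ((D.swap_In _ _).1 h3)⟩

/-- PIECE [PRB].  The smallness hypotheses in terms of `E`: `E(y) = 0` implies that there are at least
three points over `y` (`Symm.three_points`). -/
theorem Dat.Small.smallE {D : Dat m ℂ} (hD : D.Symm) (h : D.Small) : SmallE D := by
  constructor
  · refine prb_thin h.h4 ?_
    rintro y ⟨hy, hE⟩
    obtain ⟨q₁, q₂, q₃, h12, h13, h23, m1, m2, m3⟩ := prb_three hD hy hE
    exact ⟨hy, (q₁, Projectivization.mk ℂ y hy), ⟨m1, q₁, q₂, q₃, h12, h13, h23, m1, m2, m3⟩, rfl⟩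
  · refine prb_thin h.h2 ?_
    rintro y ⟨hy, x, hx, hin, hE⟩
    obtain ⟨q₁, q₂, q₃, h12, h13, h23, m1, m2, m3⟩ := prb_three_swap hD hx hE
    exact ⟨hy, (Projectivization.mk ℂ x hx, Projectivization.mk ℂ y hy),
      ⟨(mem_X_mk hD _ _).2 hin, q₁, q₂, q₃, h12, h13, h23, m1, m2, m3⟩, rfl⟩

theorem Dat.Small.smallE_swap {D : Dat m ℂ} (hD : D.Symm) (h : D.Small) : SmallE D.swap := by
  constructor
  · refine prb_thin h.h1 ?_
    rintro x ⟨hx, hE⟩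
    obtain ⟨q₁, q₂, q₃, h12, h13, h23, m1, m2, m3⟩ := prb_three_swap hD hx hE
    exact ⟨hx, (Projectivization.mk ℂ x hx, q₁), ⟨m1, q₁, q₂, q₃, h12, h13, h23, m1, m2, m3⟩, rfl⟩
  · refine prb_thin h.h3 ?_
    rintro x ⟨hx, y, hy, hin, hE⟩
    rw [Dat.swap_swap] at hE
    obtain ⟨q₁, q₂, q₃, h12, h13, h23, m1, m2, m3⟩ := prb_three hD hy hE
    exact ⟨hx, (Projectivization.mk ℂ x hx, Projectivization.mk ℂ y hy),
      ⟨(mem_X_mk hD _ _).2 ((D.swap_In _ _).1 hin), q₁, q₂, q₃, h12, h13, h23, m1, m2, m3⟩, rfl⟩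

end Pool.Agent.MP_1209e6_cy
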