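import Pool.Agent.Lib_MP_1209e6_cy.ProjA

/-!
PIECE [PRC] (MP_1209e6_ag).  From vector functions to an entire curve.
-/

open Matrix MvPolynomial Filter Topology

namespace Pool.Agent.MP_1209e6_cy

variable {m : ℕ}

/-- local normal form of a vector function -/
theorem prc_local {x : ℂ → Vec m ℂ} (hx : Differentiable ℂ x) (hx0 : x 0 ≠ 0) (z₀ : ℂ) :
    ∃ (g : ℂ → Vec m ℂ) (n : ℕ), AnalyticAt ℂ g z₀ ∧ g z₀ ≠ 0 ∧
      ∀ᶠ z in 𝓝 z₀, x z = (z - z₀) ^ n • g z := by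
  have han : AnalyticOnNhd ℂ x Set.univ :=
    (hx.differentiableOn).analyticOnNhd isOpen_univ
  have h := (han z₀ (Set.mem_univ _)).exists_eventuallyEq_pow_smul_nonzero_iff
  have hne : ¬ ∀ᶠ z in 𝓝 z₀, x z = 0 := by
    intro hz
    have h0 : AnalyticOnNhd ℂ (fun _ : ℂ => (0 : Vec m ℂ)) Set.univ := analyticOnNhd_const
    have := han.eq_of_eventuallyEq h0 (z₀ := z₀) hz
    exact hx0 (congrFun this 0)
  obtain ⟨n, g, h1, h2, h3⟩ := h.2 hne
  exact ⟨g, n, h1, h2, h3⟩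

theorem prc_self {x g : ℂ → Vec m ℂ} {n : ℕ} {z : ℂ}
    (he : ∀ᶠ w in 𝓝 z, x w = (w - z) ^ n • g w) (hz : x z ≠ 0) : g z = x z := by
  have h := he.self_of_nhds
  rcases Nat.eq_zero_or_pos n with hn | hn
  · rw [hn, pow_zero, one_smul] at h
    exact h.symm
  · exfalso
    rw [sub_self, zero_pow (by omega), zero_smul] at h
    exact hz h

theorem prc_In_smul {D : Dat m ℂ} (hD : D.Symm) {x y : Vec m ℂ} {s t : ℂ} (hs : s ≠ 0)
    (ht : t ≠ 0) (h : D.In (s • x) (t • y)) : D.In x y := by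
  refine ⟨fun i => ?_, ?_⟩
  · have := h.1 i
    rw [Dat.A_smul_left, Dat.A_smul_right] at this
    rcases mul_eq_zero.1 this with h1 | h1
    · exact absurd h1 hs
    · rcases mul_eq_zero.1 h1 with h2 | h2
      · exact absurd h2 ht
      · exact h2
  · have := h.2
    rw [Dat.B_smul₁, hD.B_smul₂, Dat.B_smul₃, hD.B_smul₄] at this
    rcases mul_eq_zero.1 this with h1 | h1
    · exact absurd h1 hs
    rcases mul_eq_zero.1 h1 with h2 | h2
    · exact absurd h2 hs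
    rcases mul_eq_zero.1 h2 with h3 | h3
    · exact absurd h3 ht
    rcases mul_eq_zero.1 h3 with h4 | h4
    · exact absurd h4 ht
    exact h4

theorem prc_cont_zero {F : ℂ → ℂ} {z₀ : ℂ} (hF : ContinuousAt F z₀)
    (h : ∀ᶠ z in 𝓝[≠] z₀, F z = 0) : F z₀ = 0 := by
  have h1 : Tendsto F (𝓝[≠] z₀) (𝓝 (F z₀)) := hF.tendsto.mono_left nhdsWithin_le_nhds
  have h2 : Tendsto F (𝓝[≠] z₀) (𝓝 0) := by
    refine (tendsto_congr' ?_).2 tendsto_const_nhds
    exact h
  exact tendsto_nhds_unique h1 h2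

theorem prc_contA (D : Dat m ℂ) (i : Fin m) {a b : ℂ → Vec m ℂ} {z₀ : ℂ}
    (ha : ContinuousAt a z₀) (hb : ContinuousAt b z₀) :
    ContinuousAt (fun z => D.A i (a z) (b z)) z₀ := by
  unfold Dat.A
  have ha' : ∀ j, ContinuousAt (fun z => a z j) z₀ := fun j =>
    (continuous_apply j).continuousAt.comp ha
  have hb' : ∀ j, ContinuousAt (fun z => b z j) z₀ := fun j =>
    (continuous_apply j).continuousAt.comp hb
  refine tendsto_finsetSum _ fun j _ => tendsto_finsetSum _ fun l _ => ?_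
  exact (tendsto_const_nhds.mul (ha' j)).mul (hb' l)

theorem prc_contB (D : Dat m ℂ) {a b : ℂ → Vec m ℂ} {z₀ : ℂ}
    (ha : ContinuousAt a z₀) (hb : ContinuousAt b z₀) :
    ContinuousAt (fun z => D.B (a z) (a z) (b z) (b z)) z₀ := by
  unfold Dat.B
  have ha' : ∀ j, ContinuousAt (fun z => a z j) z₀ := fun j =>
    (continuous_apply j).continuousAt.comp ha
  have hb' : ∀ j, ContinuousAt (fun z => b z j) z₀ := fun j =>
    (continuous_apply j).continuousAt.comp hb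
  refine tendsto_finsetSum _ fun j _ => tendsto_finsetSum _ fun k _ =>
    tendsto_finsetSum _ fun l _ => tendsto_finsetSum _ fun p _ => ?_
  exact (((tendsto_const_nhds.mul (ha' j)).mul (ha' k)).mul (hb' l)).mul (hb' p)

theorem prc_ne {x g : ℂ → Vec m ℂ} {n : ℕ} {z₀ : ℂ} (hg : ContinuousAt g z₀) (hg0 : g z₀ ≠ 0)
    (he : ∀ᶠ w in 𝓝 z₀, x w = (w - z₀) ^ n • g w) :
    ∀ᶠ z in 𝓝[≠] z₀, x z = (z - z₀) ^ n • g z ∧ (z - z₀) ^ n ≠ 0 ∧ g z ≠ 0 ∧ x z ≠ 0 := by
  have h1 : ∀ᶠ z in 𝓝[≠] z₀, x z = (z - z₀) ^ n • g z := he.filter_mono nhdsWithin_le_nhds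
  have h2 : ∀ᶠ z in 𝓝[≠] z₀, g z ≠ 0 := (hg.eventually_ne hg0).filter_mono nhdsWithin_le_nhds
  have h3 : ∀ᶠ z in 𝓝[≠] z₀, z ≠ z₀ := eventually_mem_nhdsWithin
  filter_upwards [h1, h2, h3] with z hz1 hz2 hz3
  have h4 : (z - z₀) ^ n ≠ 0 := pow_ne_zero _ (sub_ne_zero.2 hz3)
  refine ⟨hz1, h4, hz2, ?_⟩
  rw [hz1]
  exact smul_ne_zero h4 hz2

/-- PIECE [PRC].  From entire vector functions to a holomorphic map to the projective spaces.

Proof.  Near `z₀`, `x(z) = (z - z₀)^n x̂(z)` with `x̂` analytic at `z₀`, `x̂(z₀) ≠ 0`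
(`AnalyticAt.exists_eventuallyEq_pow_smul_nonzero_iff`; `x` does not vanish identically near `z₀` by the identity
theorem).  Put `f(z₀) = ([x̂(z₀)], [ŷ(z₀)])`; for `z ≠ z₀` near `z₀`, `f(z) = ([x(z)], [y(z)]) = ([x̂(z)], [ŷ(z)])`.
`In (x̂ z₀) (ŷ z₀)` by continuity from `In (x̂ z) (ŷ z)`, `z ≠ z₀` (scaling).  If `p` vanishes on the curve then
`p(x(z), y(z)) = 0` whenever `x(z), y(z) ≠ 0`, and everywhere by continuity. -/
theorem exists_entire {D : Dat m ℂ} (hD : D.Symm) {x y : ℂ → Vec m ℂ} (hx : Differentiable ℂ x)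
    (hy : Differentiable ℂ y) (hx0 : x 0 ≠ 0) (hy0 : y 0 ≠ 0) (hin : ∀ z, D.In (x z) (y z)) :
    ∃ f : ℂ → PP m × PP m, IsEntire f ∧ (∀ z, f z ∈ D.X) ∧
      ∀ (p : MvPolynomial (Fin (m + 2) ⊕ Fin (m + 2)) ℂ) (d e : ℕ), BiHom p d e →
        (∀ z, Vanish p (f z)) → ∀ z, aeval (Sum.elim (x z) (y z)) p = 0 := by
  choose gx nx hgx hgx0 hxe using prc_local hx hx0
  choose gy ny hgy hgy0 hye using prc_local hy hy0
  refine ⟨fun z => (Projectivization.mk ℂ (gx z z) (hgx0 z), Projectivization.mk ℂ (gy z z) (hgy0 z)),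
    ?_, ?_, ?_⟩
  · intro z₀
    refine ⟨gx z₀, gy z₀, hgx z₀, hgy z₀, ?_⟩
    have hX := prc_ne (hgx z₀).continuousAt (hgx0 z₀) (hxe z₀)
    have hY := prc_ne (hgy z₀).continuousAt (hgy0 z₀) (hye z₀)
    have hXY := hX.and hY
    rw [eventually_nhdsWithin_iff] at hXY
    filter_upwards [hXY] with z hz
    by_cases hzz : z = z₀
    · subst hzz
      exact ⟨hgx0 z, hgy0 z, rfl⟩
    · obtain ⟨⟨a1, a2, a3, a4⟩, ⟨b1, b2, b3, b4⟩⟩ := hz hzz
      refine ⟨a3, b3, ?_⟩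
      have e1 := prc_self (hxe z) a4
      have e2 := prc_self (hye z) b4
      refine Prod.ext ?_ ?_
      · show Projectivization.mk ℂ (gx z z) _ = Projectivization.mk ℂ (gx z₀ z) _
        rw [Projectivization.mk_eq_mk_iff]
        refine ⟨Units.mk0 _ a2, ?_⟩
        rw [e1, a1]
        rfl
      · show Projectivization.mk ℂ (gy z z) _ = Projectivization.mk ℂ (gy z₀ z) _
        rw [Projectivization.mk_eq_mk_iff]
        refine ⟨Units.mk0 _ b2, ?_⟩
        rw [e2, b1]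
        rfl
  · intro z₀
    show (Projectivization.mk ℂ (gx z₀ z₀) (hgx0 z₀),
      Projectivization.mk ℂ (gy z₀ z₀) (hgy0 z₀)) ∈ D.X
    rw [mem_X_mk hD]
    have hX := prc_ne (hgx z₀).continuousAt (hgx0 z₀) (hxe z₀)
    have hY := prc_ne (hgy z₀).continuousAt (hgy0 z₀) (hye z₀)
    have key : ∀ᶠ z in 𝓝[≠] z₀, D.In (gx z₀ z) (gy z₀ z) := by
      filter_upwards [hX, hY] with z ⟨a1, a2, a3, a4⟩ ⟨b1, b2, b3, b4⟩
      have := hin z
      rw [a1, b1] at this
      exact prc_In_smul hD a2 b2 this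
    refine ⟨fun i => ?_, ?_⟩
    · exact prc_cont_zero (prc_contA D i (hgx z₀).continuousAt (hgy z₀).continuousAt)
        (key.mono fun z hz => hz.1 i)
    · exact prc_cont_zero (prc_contB D (hgx z₀).continuousAt (hgy z₀).continuousAt)
        (key.mono fun z hz => hz.2)
  · intro p d e hp hv z₀
    have hX := prc_ne (hgx z₀).continuousAt (hgx0 z₀) (hxe z₀)
    have hY := prc_ne (hgy z₀).continuousAt (hgy0 z₀) (hye z₀)
    have hc : Continuous (fun z => aeval (Sum.elim (x z) (y z)) p) := by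
      have h1 : Continuous (fun v : (Fin (m + 2) ⊕ Fin (m + 2)) → ℂ => aeval v p) := by
        have : (fun v : (Fin (m + 2) ⊕ Fin (m + 2)) → ℂ => aeval v p) =
            fun v => eval v p := by
          funext v
          rw [← MvPolynomial.coe_aeval_eq_eval]
          rfl
        rw [this]
        exact MvPolynomial.continuous_eval p
      refine h1.comp ?_
      refine continuous_pi fun i => ?_
      rcases i with i | i
      · exact (continuous_apply i).comp hx.continuous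
      · exact (continuous_apply i).comp hy.continuous
    refine prc_cont_zero hc.continuousAt ?_
    filter_upwards [hX, hY] with z ⟨a1, a2, a3, a4⟩ ⟨b1, b2, b3, b4⟩
    have e1 := prc_self (hxe z) a4
    have e2 := prc_self (hye z) b4
    have := (vanish_mk hp (hgx0 z) (hgy0 z)).1 (hv z)
    rwa [e1, e2] at this

end Pool.Agent.MP_1209e6_cy
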