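import Pool.Agent.Lib_MP_1209e6_cy.Density
import Pool.Agent.Lib_MP_1209e6_cy.OrbC
import Pool.Agent.Lib_MP_1209e6_cy.Fixed
import Pool.Agent.Lib_MP_1209e6_cy.Generic
import Pool.Agent.Lib_MP_1209e6_cy.ProjB
import Pool.Agent.Lib_MP_1209e6_cy.ProjC

/-!
# The main theorem
-/

open Matrix MvPolynomial Filter Topology

namespace Pool.Agent.MP_1209e6_cy

variable {m : ℕ}

theorem brodySpecial_of_saddle' (hm : 1 ≤ m) (D : Dat m ℂ) (hD : D.Symm) (hirr : D.Irred)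
    (hSE : SmallE D) (hSE' : SmallE D.swap) {x y u v : Vec m ℂ} {μ ν : Fin m → ℂ}
    (hs : Saddle D x y u v μ ν) : D.BrodySpecial := by
  -- normalise the coordinates
  have hx : x ≠ 0 := by
    rintro rfl
    exact hs.Qv (D.B_zero₁ _ _ _)
  have hy : y ≠ 0 := by
    rintro rfl
    have := hs.swap hD
    exact this.Qv (D.swap.B_zero₁ _ _ _)
  obtain ⟨i₀, hi⟩ := Function.ne_iff.1 hx
  obtain ⟨j₀, hj⟩ := Function.ne_iff.1 hy
  simp only [Pi.zero_apply] at hi hj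
  have hs' := hs.smul hD (inv_ne_zero hi) (inv_ne_zero hj)
  have hx1 : ((x i₀)⁻¹ • x) i₀ = 1 := by simp [hi]
  have hy1 : ((y j₀)⁻¹ • y) j₀ = 1 := by simp [hj]
  obtain ⟨w, c, hc, hw⟩ := hs'.exists_w hD
  obtain ⟨w', c', hc', hw'⟩ := (hs'.swap hD).exists_w hD.swap
  have hSad := hs'.sad hD hc hc' hw hw'
  have hjac := hs'.jac_surj hD hc hc' hw hw' (i₀ := i₀) (j₀ := j₀) (by rw [hx1]; exact one_ne_zero)
    (by rw [hy1]; exact one_ne_zero)
  obtain ⟨k, hkc, hka, hkb, hkw⟩ := exists_countable_field D w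
  obtain ⟨x₁, y₁, hSad₁, hx₁, hy₁, J, hJ, hind⟩ := exists_generic hD hm hSad hx1 hy1 hjac k hkc
  obtain ⟨lam, X, Y, a, b, hC⟩ := hSad₁.exists_curve hD
  have hin := hC.mem hD hSad₁.hin
  have hX0 : X 0 ≠ 0 := by
    rw [hC.x0]
    intro h
    rw [h] at hx₁
    exact zero_ne_one hx₁
  have hY0 : Y 0 ≠ 0 := by
    rw [hC.y0]
    intro h
    rw [h] at hy₁
    exact zero_ne_one hy₁
  obtain ⟨f, hf, hfX, hfp⟩ := exists_entire hD hC.dx hC.dy hX0 hY0 hin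
  refine ⟨f, hf, hfX, fun p d e hp hpf => ?_⟩
  have hrel := hC.no_relation hm hD hSE hSE' hSad₁ k ⟨hka, hkb⟩ hkw hx₁ hy₁ J hJ hind
  exact dense_of_no_relation hD hirr hSE' hC.dx hC.dy hX0 hY0 hin hrel hp (hfp p d e hp hpf)

theorem brodySpecial_of_saddle (hm : 1 ≤ m) (D : Dat m ℂ) (hD : D.Symm) (hirr : D.Irred)
    (hsm : D.Small) {x y u v : Vec m ℂ} {μ ν : Fin m → ℂ} (hs : Saddle D x y u v μ ν) :
    D.BrodySpecial :=
  brodySpecial_of_saddle' hm D hD hirr (hsm.smallE hD) (hsm.smallE_swap hD) hs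

end Pool.Agent.MP_1209e6_cy
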