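import Pool.Agent.Lib_MP_1209e6_cy.Tr

/-!
PIECE [TRD] (MP_1209e6_ag).  Points related by a correspondence of degree two.
-/

open MvPolynomial

namespace Pool.Agent.MP_1209e6_cy

variable {N : ℕ} {k K : Type*} [Field k] [Field K] [CharZero K] [Algebra k K]

omit [CharZero K] in
/-- Homogeneity for the evaluation at a point. -/
theorem trd_aeval_eq (x : Fin N → K) {d : ℕ} {p : MvPolynomial (Fin N) k} (hp : p.IsHomogeneous d)
    {s : Fin N} (hs : x s ≠ 0) : aeval x p = x s ^ d * aeval (fun i => x i / x s) p := by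
  have h1 : ∀ (m : Fin N →₀ ℕ), m.degree = d →
      (∏ i, x i ^ m i) = x s ^ d * ∏ i, (x i / x s) ^ m i := by
    intro m hm
    have h2 : x s ^ d = ∏ i, x s ^ m i := by
      rw [Finset.prod_pow_eq_pow_sum, ← hm, Finsupp.degree_eq_sum]
    rw [h2, ← Finset.prod_mul_distrib]
    refine Finset.prod_congr rfl fun i _ => ?_
    rw [← mul_pow, mul_div_cancel₀ _ hs]
  rw [aeval_def, aeval_def, eval₂_eq', eval₂_eq', Finset.mul_sum]
  refine Finset.sum_congr rfl fun m hm => ?_
  have h3 : m.degree = d := by
    have h4 := hp (mem_support_iff.1 hm)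
    rw [Finsupp.degree_eq_weight_one]
    exact h4
  rw [h1 m h3]
  ring

omit [CharZero K] in
/-- The value at the ratios is in `rf`. -/
theorem trd_aeval_mem (x : Fin N → K) (p : MvPolynomial (Fin N) k) {s : Fin N} (hs : x s ≠ 0) :
    aeval (fun i => x i / x s) p ∈ rf k x := by
  have h1 : aeval (fun i => x i / x s) p ∈ Algebra.adjoin k (Set.range fun i => x i / x s) := by
    rw [Algebra.adjoin_range_eq_range_aeval]
    exact ⟨p, rfl⟩
  rw [rf_eq x hs]
  exact IntermediateField.algebra_adjoin_le_adjoin _ _ h1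

omit [CharZero K] in
/-- Quotients of values of forms of the same degree are in `rf`. -/
theorem trd_div_mem (x : Fin N → K) {d : ℕ} {p q : MvPolynomial (Fin N) k}
    (hp : p.IsHomogeneous d) (hq : q.IsHomogeneous d) : aeval x p / aeval x q ∈ rf k x := by
  by_cases hx : ∃ s, x s ≠ 0
  · obtain ⟨s, hs⟩ := hx
    rw [trd_aeval_eq x hp hs, trd_aeval_eq x hq hs, mul_div_mul_left _ _ (pow_ne_zero d hs)]
    exact div_mem (trd_aeval_mem x p hs) (trd_aeval_mem x q hs)
  · push Not at hx
    have h0 : x = 0 := funext hx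
    have h1 : ∀ r : MvPolynomial (Fin N) k, aeval x r ∈ rf k x := by
      intro r
      rw [h0]
      rw [aeval_zero]
      exact (rf k _).algebraMap_mem _
    exact div_mem (h1 p) (h1 q)

/-- If the symmetric product of `y` and `y'` is given, up to a scalar, by forms in `x` then the
ratios of the coordinates of `y` are algebraic over the field of ratios of `x`.

Proof.  Let `F = rf k x` and `e_ij = β (y_i y'_j + y_j y'_i) = P_ij(x)`; for `e_kl ≠ 0` all ratios
`e_ij / e_kl` lie in `F` (forms of the same degree).  Let `y_j ≠ 0`.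
Case `y'_j ≠ 0`: `e_jj ≠ 0`, and `t = y_i / y_j` is a root of `T^2 - 2 (e_ij / e_jj) T + e_ii / e_jj`.
Case `y'_j = 0`: take `l` with `y'_l ≠ 0`; `e_jl = β y_j y'_l ≠ 0`, `e_ij / e_jl = y'_i / y'_l ∈ F`,
`e_ll / e_jl = 2 y_l / y_j ∈ F`, `e_il / e_jl = y_i / y_j + (y_l / y_j) (y'_i / y'_l) ∈ F`. -/
theorem isAlgebraic_ratio (x y y' : Fin N → K) {d : ℕ}
    (P : Fin N → Fin N → MvPolynomial (Fin N) k) (hP : ∀ i j, (P i j).IsHomogeneous d)
    {β : K} (hβ : β ≠ 0) (h : ∀ i j, aeval x (P i j) = β * (y i * y' j + y j * y' i))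
    (hy' : ∃ j, y' j ≠ 0) (i j : Fin N) (hj : y j ≠ 0) :
    IsAlgebraic (rf k x) (y i / y j) := by
  have h2 : (2 : K) ≠ 0 := two_ne_zero
  have hm : ∀ a b c e : Fin N, (β * (y a * y' b + y b * y' a)) / (β * (y c * y' e + y e * y' c)) ∈
      rf k x := by
    intro a b c e
    rw [← h, ← h]
    exact trd_div_mem x (hP _ _) (hP _ _)
  by_cases hj' : y' j = 0
  · obtain ⟨l, hl⟩ := hy'
    have e1 : y' i / y' l ∈ rf k x := by
      have h3 := hm i j j l
      rw [hj'] at h3
      have h4 : β * (y i * 0 + y j * y' i) / (β * (y j * y' l + y l * 0)) = y' i / y' l := by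
        field_simp
        ring
      rwa [h4] at h3
    have e2 : y l / y j ∈ rf k x := by
      have h3 := hm l l j l
      rw [hj'] at h3
      have h4 : β * (y l * y' l + y l * y' l) / (β * (y j * y' l + y l * 0)) = 2 * (y l / y j) := by
        field_simp
        ring
      rw [h4] at h3
      have h5 : (2 : K) ∈ rf k x := by
        have := (rf k x).natCast_mem 2
        exact_mod_cast this
      have h6 := div_mem h3 h5
      rwa [mul_div_cancel_left₀ _ h2] at h6
    have e3 : y i / y j ∈ rf k x := by
      have h3 := hm i l j l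
      rw [hj'] at h3
      have h4 : β * (y i * y' l + y l * y' i) / (β * (y j * y' l + y l * 0)) =
          y i / y j + (y l / y j) * (y' i / y' l) := by
        field_simp
        ring
      rw [h4] at h3
      have h5 := sub_mem h3 (mul_mem e2 e1)
      rwa [add_sub_cancel_right] at h5
    have h6 : y i / y j = algebraMap (rf k x) K ⟨_, e3⟩ := rfl
    rw [h6]
    exact isAlgebraic_algebraMap _
  · have e1 : (y i / y j + y' i / y' j) / 2 ∈ rf k x := by
      have h3 := hm i j j j
      have h4 : β * (y i * y' j + y j * y' i) / (β * (y j * y' j + y j * y' j)) =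
          (y i / y j + y' i / y' j) / 2 := by
        field_simp
        ring
      rwa [h4] at h3
    have e2 : (y i / y j) * (y' i / y' j) ∈ rf k x := by
      have h3 := hm i i j j
      have h4 : β * (y i * y' i + y i * y' i) / (β * (y j * y' j + y j * y' j)) =
          (y i / y j) * (y' i / y' j) := by
        field_simp
      rwa [h4] at h3
    have e3 : y i / y j + y' i / y' j ∈ rf k x := by
      have h5 : (2 : K) ∈ rf k x := by
        have := (rf k x).natCast_mem 2
        exact_mod_cast this
      have h6 := mul_mem e1 h5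
      rwa [div_mul_cancel₀ _ h2] at h6
    set t := y i / y j with ht
    set t' := y' i / y' j with ht'
    refine ⟨Polynomial.X ^ 2 - Polynomial.C ⟨_, e3⟩ * Polynomial.X + Polynomial.C ⟨_, e2⟩, ?_, ?_⟩
    · intro h0
      have h7 := congrArg (fun q => Polynomial.coeff q 2) h0
      simp at h7
    · simp only [map_add, map_sub, map_mul, map_pow, Polynomial.aeval_X, Polynomial.aeval_C]
      show t ^ 2 - (t + t') * t + t * t' = 0
      ring

/-- Consequence for the transcendence degrees: `rf k y` is algebraic over `rf k x` (inside `K`):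
compare both with the compositum `rf k x ⊔ rf k y`, which is algebraic over `rf k x`. -/
theorem tr_le_of_quad (x y y' : Fin N → K) {d : ℕ}
    (P : Fin N → Fin N → MvPolynomial (Fin N) k) (hP : ∀ i j, (P i j).IsHomogeneous d)
    {β : K} (hβ : β ≠ 0) (h : ∀ i j, aeval x (P i j) = β * (y i * y' j + y j * y' i))
    (hy' : ∃ j, y' j ≠ 0) : tr k y ≤ tr k x := by
  have hle : rf k y ≤ (algebraicClosure (rf k x) K).restrictScalars k := by
    show IntermediateField.adjoin k {z : K | ∃ i j, y j ≠ 0 ∧ z = y i / y j} ≤ _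
    rw [IntermediateField.adjoin_le_iff]
    rintro z ⟨i, j, hj, rfl⟩
    exact mem_algebraicClosure_iff.2 (isAlgebraic_ratio x y y' P hP hβ h hy' i j hj)
  have h1 : tr k y ≤ Algebra.trdeg k ((algebraicClosure (rf k x) K).restrictScalars k) :=
    trdeg_le_of_injective (IntermediateField.inclusion hle) (IntermediateField.inclusion_injective hle)
  have i1 : FaithfulSMul (rf k x) (algebraicClosure (rf k x) K) :=
    (faithfulSMul_iff_algebraMap_injective _ _).2 (algebraMap (rf k x) _).injective
  have i2 : IsScalarTower k (rf k x) (algebraicClosure (rf k x) K) :=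
    IsScalarTower.of_algebraMap_eq fun _ => rfl
  have h2 := trdeg_add_eq k (rf k x) (A := algebraicClosure (rf k x) K)
  have h3 : Algebra.trdeg (rf k x) (algebraicClosure (rf k x) K) = 0 := trdeg_eq_zero
  rw [h3, add_zero] at h2
  unfold tr at h1 ⊢
  rw [h2]
  exact h1

end Pool.Agent.MP_1209e6_cy
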