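import Pool.Agent.Lib_MP_1209e6_cy.Tr

/-!
PIECE [TRA] (MP_1209e6_ag).  Transcendence degree and homogeneous relations.
-/

open MvPolynomial

namespace Pool.Agent.MP_1209e6_cy

variable {n : ℕ} {k K : Type*} [Field k] [Field K] [Algebra k K]

/-- dehomogenisation -/
noncomputable def traDh (k : Type*) [Field k] {n : ℕ} (j : Fin (n + 1)) :
    MvPolynomial (Fin (n + 1)) k →ₐ[k] MvPolynomial {i : Fin (n + 1) // i ≠ j} k :=
  aeval (fun i => if h : i = j then 1 else X ⟨i, h⟩)

theorem traDh_aeval (x : Fin (n + 1) → K) {j : Fin (n + 1)} (hj : x j ≠ 0)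
    (p : MvPolynomial (Fin (n + 1)) k) :
    aeval (fun i : {i : Fin (n + 1) // i ≠ j} => x i / x j) (traDh k j p) =
      aeval (fun i => x i / x j) p := by
  have h : ((aeval (fun i : {i : Fin (n + 1) // i ≠ j} => x i / x j)).comp (traDh k j) :
      MvPolynomial (Fin (n + 1)) k →ₐ[k] K) = aeval (fun i => x i / x j) := by
    apply MvPolynomial.algHom_ext
    intro i
    rw [AlgHom.comp_apply]
    unfold traDh
    rw [aeval_X, aeval_X]
    by_cases hi : i = j
    · rw [dif_pos hi, map_one, hi, div_self hj]
    · rw [dif_neg hi, aeval_X]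
  exact congrArg (fun f : MvPolynomial (Fin (n + 1)) k →ₐ[k] K => f p) h

theorem traHomog (x : Fin (n + 1) → K) {d : ℕ} {p : MvPolynomial (Fin (n + 1)) k}
    (hp : p.IsHomogeneous d) {s : Fin (n + 1)} (hs : x s ≠ 0) :
    aeval x p = x s ^ d * aeval (fun i => x i / x s) p := by
  rw [aeval_def, aeval_def, eval₂_eq', eval₂_eq', Finset.mul_sum]
  refine Finset.sum_congr rfl fun m hm => ?_
  have hdeg : ∑ i, m i = d := by
    have h := hp (mem_support_iff.1 hm)
    rw [Finsupp.weight_apply, Finsupp.sum_fintype _ _ (fun i => by simp)] at h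
    simpa using h
  have h : (∏ i, x i ^ m i) = x s ^ d * ∏ i, (x i / x s) ^ m i := by
    rw [← hdeg, ← Finset.prod_pow_eq_pow_sum, ← Finset.prod_mul_distrib]
    refine Finset.prod_congr rfl fun i _ => ?_
    rw [div_pow, mul_div_cancel₀]
    exact pow_ne_zero _ hs
  rw [h]
  ring

theorem traDh_ne_zero {j : Fin (n + 1)} {d : ℕ} {p : MvPolynomial (Fin (n + 1)) k}
    (hp : p.IsHomogeneous d) (h0 : p ≠ 0) : traDh k j p ≠ 0 := by
  intro h
  let L := FractionRing (MvPolynomial (Fin (n + 1)) k)
  let x : Fin (n + 1) → L := fun i => algebraMap (MvPolynomial (Fin (n + 1)) k) L (X i)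
  have hxj : x j ≠ 0 := by
    intro hx
    exact X_ne_zero j ((map_eq_zero_iff _ (IsFractionRing.injective _ L)).1 hx)
  have h1 : aeval x p = algebraMap (MvPolynomial (Fin (n + 1)) k) L p := by
    have h2 : (aeval x : MvPolynomial (Fin (n + 1)) k →ₐ[k] L) =
        IsScalarTower.toAlgHom k (MvPolynomial (Fin (n + 1)) k) L := by
      apply MvPolynomial.algHom_ext
      intro i
      rw [aeval_X]
      rfl
    rw [h2]
    rfl
  have h3 := traHomog x hp hxj
  rw [← traDh_aeval x hxj p, h, map_zero, mul_zero, h1] at h3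
  exact h0 ((map_eq_zero_iff _ (IsFractionRing.injective _ L)).1 h3)

/-- homogenisation -/
noncomputable def traH (j : Fin (n + 1)) (P : MvPolynomial {i : Fin (n + 1) // i ≠ j} k) :
    MvPolynomial (Fin (n + 1)) k :=
  ∑ e ∈ Finset.range (P.totalDegree + 1),
    X j ^ (P.totalDegree - e) * rename Subtype.val (homogeneousComponent e P)

theorem traH_homog (j : Fin (n + 1)) (P : MvPolynomial {i : Fin (n + 1) // i ≠ j} k) :
    (traH j P).IsHomogeneous P.totalDegree := by
  unfold traH
  refine IsHomogeneous.sum _ _ _ fun e he => ?_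
  have h1 : (X j ^ (P.totalDegree - e) : MvPolynomial (Fin (n + 1)) k).IsHomogeneous
      (P.totalDegree - e) := by
    have := (isHomogeneous_X k j).pow (P.totalDegree - e)
    rwa [one_mul] at this
  have h2 : (rename (Subtype.val : {i : Fin (n + 1) // i ≠ j} → Fin (n + 1))
      (homogeneousComponent e P)).IsHomogeneous e :=
    (homogeneousComponent_isHomogeneous e P).rename_isHomogeneous
  have h3 := h1.mul h2
  rw [Finset.mem_range] at he
  have e1 : P.totalDegree - e + e = P.totalDegree := by omega
  rwa [e1] at h3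

theorem traDh_traH (j : Fin (n + 1)) (P : MvPolynomial {i : Fin (n + 1) // i ≠ j} k) :
    traDh k j (traH j P) = P := by
  have h1 : ∀ Q : MvPolynomial {i : Fin (n + 1) // i ≠ j} k,
      traDh k j (rename Subtype.val Q) = Q := by
    intro Q
    unfold traDh
    rw [aeval_rename]
    have h2 : ((fun i : Fin (n + 1) => if h : i = j then (1 : MvPolynomial _ k)
        else X (⟨i, h⟩ : {i : Fin (n + 1) // i ≠ j})) ∘ Subtype.val) = X := by
      funext i
      rw [Function.comp_apply, dif_neg i.2]
    rw [h2, aeval_X_left]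
    rfl
  unfold traH
  rw [map_sum]
  conv_rhs => rw [← sum_homogeneousComponent P]
  refine Finset.sum_congr rfl fun e _ => ?_
  rw [map_mul, map_pow, h1]
  have h3 : traDh k j (X j) = 1 := by
    unfold traDh
    rw [aeval_X, dif_pos rfl]
  rw [h3, one_pow, one_mul]

/-- the ratios as elements of `rf` -/
noncomputable def traZ (k : Type*) {K : Type*} [Field k] [Field K] [Algebra k K] {n : ℕ}
    (x : Fin (n + 1) → K) {j : Fin (n + 1)} (hj : x j ≠ 0) :
    {i : Fin (n + 1) // i ≠ j} → rf k x := fun i => ⟨x i / x j, ratio_mem x hj⟩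

/-- PIECE [TRA].  If there is no nonzero homogeneous relation then the transcendence degree is
(at least) `n` (`n + 1` homogeneous coordinates). -/
theorem le_tr_of_no_rel (x : Fin (n + 1) → K)
    (h : ∀ (d : ℕ) (p : MvPolynomial (Fin (n + 1)) k), p.IsHomogeneous d → aeval x p = 0 → p = 0) :
    (n : Cardinal) ≤ tr k x := by
  have hj : x 0 ≠ 0 := by
    intro hx
    exact X_ne_zero (R := k) (0 : Fin (n + 1)) (h 1 (X 0) (isHomogeneous_X k 0) (by rw [aeval_X, hx]))
  have hind : AlgebraicIndependent k (traZ k x hj) := by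
    rw [algebraicIndependent_iff]
    intro P hP
    have h1 : aeval (fun i : {i : Fin (n + 1) // i ≠ 0} => x i / x 0) P = 0 := by
      have h2 := congrArg (rf k x).val hP
      rw [map_zero, ← AlgHom.comp_apply, comp_aeval] at h2
      exact h2
    have h3 : aeval x (traH 0 P) = 0 := by
      rw [traHomog x (traH_homog 0 P) hj, ← traDh_aeval x hj, traDh_traH, h1, mul_zero]
    have h4 := h _ _ (traH_homog 0 P) h3
    rw [← traDh_traH 0 P, h4, map_zero]
  have h5 := hind.lift_cardinalMk_le_trdeg
  have h6 : Cardinal.mk {i : Fin (n + 1) // i ≠ 0} = n := by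
    rw [Cardinal.mk_fintype, Fintype.card_subtype_compl]
    simp
  rw [h6, Cardinal.lift_natCast] at h5
  unfold tr
  simpa using h5

/-- PIECE [TRA], second part.  If there is a nonzero homogeneous relation and `x ≠ 0` then the
transcendence degree is less than `n`. -/
theorem tr_lt_of_rel (x : Fin (n + 1) → K) (hx : ∃ j, x j ≠ 0) {d : ℕ}
    {p : MvPolynomial (Fin (n + 1)) k} (hp : p.IsHomogeneous d) (h0 : p ≠ 0)
    (hpx : aeval x p = 0) : tr k x < n := by
  obtain ⟨j, hj⟩ := hx
  by_contra hcon
  rw [not_lt] at hcon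
  have halg : Algebra.IsAlgebraic (Algebra.adjoin k (Set.range (traZ k x hj))) (rf k x) := by
    have htop : IntermediateField.adjoin k (Set.range (traZ k x hj)) = ⊤ := by
      rw [eq_top_iff]
      have h1 : rf k x ≤ (IntermediateField.adjoin k (Set.range (traZ k x hj))).map
          (rf k x).val := by
        refine (rf_eq (k := k) x hj).le.trans ?_
        refine IntermediateField.adjoin_le_iff.2 ?_
        rintro _ ⟨i, rfl⟩
        by_cases hi : i = j
        · subst hi
          simp only [div_self hj]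
          exact one_mem _
        · exact ⟨traZ k x hj ⟨i, hi⟩, IntermediateField.subset_adjoin _ _ ⟨⟨i, hi⟩, rfl⟩, rfl⟩
      intro z _
      have h2 : (z : K) ∈ (IntermediateField.adjoin k (Set.range (traZ k x hj))).map
          (rf k x).val := h1 z.2
      obtain ⟨z', hz', hzz⟩ := h2
      have h3 : z' = z := Subtype.ext hzz
      rw [← h3]
      exact hz'
    refine ⟨fun z => ?_⟩
    have hz : z ∈ IntermediateField.adjoin k (Set.range (traZ k x hj)) := by
      rw [htop]
      trivial
    induction hz using IntermediateField.adjoin_induction with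
    | mem z hz =>
      exact isAlgebraic_algebraMap (⟨z, Algebra.subset_adjoin hz⟩ :
        Algebra.adjoin k (Set.range (traZ k x hj)))
    | algebraMap c =>
      exact isAlgebraic_algebraMap (algebraMap k (Algebra.adjoin k (Set.range (traZ k x hj))) c)
    | add z w _ _ hz hw => exact hz.add hw
    | inv z _ hz => exact hz.inv
    | mul z w _ _ hz hw => exact hz.mul hw
  have h6 : Cardinal.mk {i : Fin (n + 1) // i ≠ j} = n := by
    rw [Cardinal.mk_fintype, Fintype.card_subtype_compl]
    simp
  have hb := Algebra.IsAlgebraic.isTranscendenceBasis_of_lift_le_trdeg_of_finite k (traZ k x hj) (by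
    rw [h6, Cardinal.lift_natCast]
    unfold tr at hcon
    simpa using hcon)
  have h7 := hb.1
  rw [algebraicIndependent_iff] at h7
  apply traDh_ne_zero (j := j) hp h0
  apply h7
  have h8 := traHomog x hp hj
  rw [hpx, ← traDh_aeval x hj] at h8
  have h9 := (mul_eq_zero.1 h8.symm).resolve_left (pow_ne_zero _ hj)
  have h10 : (rf k x).val (aeval (traZ k x hj) (traDh k j p)) = 0 := by
    rw [← h9, ← AlgHom.comp_apply, comp_aeval]
    rfl
  exact (map_eq_zero_iff _ (rf k x).val.injective).1 h10

end Pool.Agent.MP_1209e6_cy
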