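import Pool.Agent.Lib_MP_1209e6_cy.Tr

/-!
PIECE [TRB] (MP_1209e6_ag).  Transcendence degree and homogeneous relations.
-/

open MvPolynomial

namespace Pool.Agent.MP_1209e6_cy

section

variable {k : Type*} [Field k]

/-- if all but one of the `a j` are algebraically independent then the relations are principal -/
theorem trb_dvd {ι L : Type*} [Field L] [Algebra k L] {a : ι → L} (i : ι)
    (H : AlgebraicIndependent k fun x : {j // j ≠ i} => a x) {g q : MvPolynomial ι k}
    (hg : Irreducible g) (hga : aeval a g = 0) (hqa : aeval a q = 0) : g ∣ q := by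
  classical
  let A := Algebra.adjoin k (Set.range fun x : {j // j ≠ i} => a x)
  let E : MvPolynomial ι k ≃ₐ[k] Polynomial A :=
    (renameEquiv k (Equiv.optionSubtypeNe i).symm).trans
      ((optionEquivLeft k _).trans (Polynomial.mapAlgEquiv H.aevalEquiv))
  have hE : ∀ F : MvPolynomial ι k, Polynomial.aeval (a i) (E F) = aeval a F := by
    intro F
    have h1 : ((Polynomial.aeval (R := A) (a i)).restrictScalars k).comp (E : _ →ₐ[k] _) =
        (aeval a : MvPolynomial ι k →ₐ[k] L) := by
      apply MvPolynomial.algHom_ext
      intro j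
      by_cases hj : j = i
      · subst hj
        simp [E, optionEquivLeft_X_none]
      · simp [E, hj, optionEquivLeft_X_some]
        have h2 := H.algebraMap_aevalEquiv (X ⟨j, hj⟩)
        rw [aeval_X] at h2
        exact h2
    exact DFunLike.congr_fun h1 F
  have : UniqueFactorizationMonoid A := H.aevalEquiv.uniqueFactorizationMonoid inferInstance
  let F := FractionRing A
  let : Algebra F L := FractionRing.liftAlgebra A L
  have : IsScalarTower A F L := FractionRing.isScalarTower_liftAlgebra A L
  have hEg : Irreducible (E g) := hg.map E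
  have hdeg : (E g).natDegree ≠ 0 := by
    intro h0
    have h1 := Polynomial.eq_C_of_natDegree_eq_zero h0
    have h2 := hE g
    rw [hga, h1, Polynomial.aeval_C] at h2
    have h3 : (E g).coeff 0 = 0 := by
      apply (FaithfulSMul.algebraMap_injective A L)
      rw [h2, map_zero]
    rw [h3, Polynomial.C_0] at h1
    exact hEg.ne_zero h1
  have hprim := hEg.isPrimitive hdeg
  have hirr : Irreducible ((E g).map (algebraMap A F)) :=
    (hprim.irreducible_iff_irreducible_map_fraction_map (K := F)).1 hEg
  have hr1 : Polynomial.aeval (a i) ((E g).map (algebraMap A F)) = 0 := by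
    rw [Polynomial.aeval_map_algebraMap, hE, hga]
  have hr2 : Polynomial.aeval (a i) ((E q).map (algebraMap A F)) = 0 := by
    rw [Polynomial.aeval_map_algebraMap, hE, hqa]
  have hint : IsIntegral F (a i) := by
    rw [← isAlgebraic_iff_isIntegral]
    exact ⟨_, hirr.ne_zero, hr1⟩
  have h3 : minpoly F (a i) ∣ (E g).map (algebraMap A F) := minpoly.dvd F _ hr1
  have h4 : (E g).map (algebraMap A F) ∣ minpoly F (a i) :=
    (minpoly.irreducible hint).dvd_symm hirr h3
  have h5 : (E g).map (algebraMap A F) ∣ (E q).map (algebraMap A F) :=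
    h4.trans (minpoly.dvd F _ hr2)
  have h6 : E g ∣ E q := hprim.dvd_of_fraction_map_dvd_fraction_map (K := F) h5
  obtain ⟨r, hr⟩ := h6
  refine ⟨E.symm r, ?_⟩
  apply E.injective
  rw [map_mul, hr, AlgEquiv.apply_symm_apply]

theorem trb_smul {ι L : Type*} [Fintype ι] [CommRing L] [Algebra k L] (x : ι → L) (s : L)
    {q : MvPolynomial ι k} {e : ℕ} (hq : q.IsHomogeneous e) :
    aeval (fun i => x i * s) q = aeval x q * s ^ e := by
  rw [aeval_def, aeval_def, eval₂_eq', eval₂_eq', Finset.sum_mul]
  apply Finset.sum_congr rfl
  intro m hm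
  have h1 : ∑ i, m i = e := by
    have h2 := hq (mem_support_iff.1 hm)
    rw [← h2]
    simp [Finsupp.weight_apply, Finsupp.sum_fintype]
  rw [mul_assoc]
  congr 1
  rw [← h1, ← Finset.prod_pow_eq_pow_sum, ← Finset.prod_mul_distrib]
  exact Finset.prod_congr rfl fun i _ => mul_pow _ _ _

/-- many independent elements among the `y i` -/
theorem trb_exists_index {L : Type*} [Field L] [Algebra k L] {n : ℕ} (y : Fin (n + 2) → L)
    (h : ((n + 1 : ℕ) : ℕ∞) ≤ (AlgebraicIndependent.matroid k L).eRk (Set.range y)) :
    ∃ i, AlgebraicIndependent k fun x : {j // j ≠ i} => y x.1 := by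
  classical
  obtain ⟨t, ht⟩ := (AlgebraicIndependent.matroid k L).exists_isBasis (Set.range y)
  rw [← ht.encard_eq_eRk] at h
  have htsub : t ⊆ Set.range y := ht.subset
  have hind : AlgebraicIndepOn k id t := AlgebraicIndependent.matroid_indep_iff.1 ht.indep
  -- preimages
  have hch : ∀ u : t, ∃ j, y j = u := fun u => htsub u.2
  choose f hf using hch
  have hfinj : Function.Injective f := by
    intro u v huv
    apply Subtype.ext
    rw [← hf u, ← hf v, huv]
  have hfin : Finite t := Finite.of_injective f hfinj
  have hcard : n + 1 ≤ (Set.range f).ncard := by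
    have h1 : ((Set.range f).ncard : ℕ∞) = t.encard := by
      rw [Set.Finite.cast_ncard_eq (Set.toFinite _)]
      rw [← Set.image_univ, hfinj.encard_image, Set.encard_univ, ENat.card_coe_set_eq]
    rw [← h1] at h
    exact_mod_cast h
  -- the omitted index
  have hcompl : ((Set.range f)ᶜ).ncard ≤ 1 := by
    have h1 := Set.ncard_add_ncard_compl (Set.range f)
    rw [Nat.card_eq_fintype_card, Fintype.card_fin] at h1
    omega
  obtain ⟨i, hi⟩ : ∃ i, ∀ j, j ≠ i → j ∈ Set.range f := by
    rw [Set.ncard_le_one_iff] at hcompl
    by_cases hne : ((Set.range f)ᶜ).Nonempty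
    · obtain ⟨i, hi⟩ := hne
      refine ⟨i, fun j hj => ?_⟩
      by_contra hcon
      exact hj (hcompl hcon hi)
    · refine ⟨0, fun j _ => ?_⟩
      by_contra hcon
      exact hne ⟨j, hcon⟩
  refine ⟨i, ?_⟩
  choose e he using fun j : {j // j ≠ i} => hi j j.2
  have heinj : Function.Injective e := by
    intro u v huv
    apply Subtype.ext
    rw [← he u, ← he v, huv]
  have h2 : (fun x : {j // j ≠ i} => y x.1) = (fun u : t => (id (u : L))) ∘ e := by
    funext x
    show y x.1 = (e x : L)
    rw [← hf (e x), he x]
  rw [h2]
  exact AlgebraicIndependent.comp hind e heinj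

theorem trb_mem_closure {K L : Type*} [Field K] [Algebra k K] [Field L] [Algebra k L] [Algebra K L]
    [IsScalarTower k K L] {N : ℕ} (x : Fin N → K) {s : L} (hs : s ≠ 0) {z : K} (hz : z ∈ rf k x) :
    IsAlgebraic (Algebra.adjoin k (Set.range fun i => algebraMap K L (x i) * s))
      (algebraMap K L z) := by
  set y : Fin N → L := fun i => algebraMap K L (x i) * s with hy
  have hyalg : ∀ i, IsAlgebraic (Algebra.adjoin k (Set.range y)) (y i) := fun i =>
    isAlgebraic_algebraMap (⟨y i, Algebra.subset_adjoin ⟨i, rfl⟩⟩ : Algebra.adjoin k (Set.range y))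
  unfold rf at hz
  induction hz using IntermediateField.adjoin_induction with
  | mem z hz =>
    obtain ⟨i, j, hj, rfl⟩ := hz
    have h1 : algebraMap K L (x i / x j) = y i * (y j)⁻¹ := by
      have h2 : algebraMap K L (x j) ≠ 0 := by
        simpa using hj
      rw [map_div₀, hy]
      field_simp
    rw [h1]
    exact (hyalg i).mul (hyalg j).inv
  | algebraMap c =>
    rw [← IsScalarTower.algebraMap_apply k K L]
    exact isAlgebraic_algebraMap (A := L) (algebraMap k (Algebra.adjoin k (Set.range y)) c)
  | add z w _ _ hz hw =>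
    rw [map_add]
    exact hz.add hw
  | inv z _ hz =>
    rw [map_inv₀]
    exact hz.inv
  | mul z w _ _ hz hw =>
    rw [map_mul]
    exact hz.mul hw

theorem trb_rank {K L : Type*} [Field K] [Algebra k K] [Field L] [Algebra k L] [Algebra K L]
    [IsScalarTower k K L] {n N : ℕ} (x : Fin N → K) {j : Fin N} (hj : x j ≠ 0)
    (htr : (n : Cardinal) ≤ tr k x) {s : L} (hs : Transcendental K s) :
    ((n + 1 : ℕ) : ℕ∞) ≤ (AlgebraicIndependent.matroid k L).eRk
      (Set.range fun i => algebraMap K L (x i) * s) := by
  have hs0 : s ≠ 0 := by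
    rintro rfl
    exact hs isAlgebraic_zero
  set y : Fin N → L := fun i => algebraMap K L (x i) * s with hy
  obtain ⟨b, hb⟩ := exists_isTranscendenceBasis k (rf k x)
  have hcard : Cardinal.mk b = tr k x := hb.cardinalMk_eq_trdeg
  have hb' : AlgebraicIndependent k (fun u : b => (((u : rf k x)) : K)) :=
    hb.1.map' (f := (rf k x).val) (rf k x).val.injective
  have hys : AlgebraicIndependent K (fun _ : Unit => y j) := by
    rw [algebraicIndependent_unique_type_iff]
    intro h
    apply hs
    have h1 : s = algebraMap K L (x j)⁻¹ * y j := by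
      have h2 : algebraMap K L (x j) ≠ 0 := by
        simpa using hj
      rw [hy, map_inv₀]
      field_simp
    rw [h1]
    exact (isAlgebraic_algebraMap _).mul h
  have H := hb'.sumElim_comp hys
  set f := Sum.elim (fun _ : Unit => y j) (algebraMap K L ∘ fun u : b => (((u : rf k x)) : K))
    with hf
  have hI : (AlgebraicIndependent.matroid k L).Indep (Set.range f) := by
    rw [AlgebraicIndependent.matroid_indep_iff]
    exact H.to_subtype_range
  have hencard : ((n + 1 : ℕ) : ℕ∞) ≤ (Set.range f).encard := by
    rw [← Set.image_univ, H.injective.encard_image, Set.encard_univ, ENat.card_sum]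
    rw [hcard.symm] at htr
    have h1 : (n : ℕ∞) ≤ ENat.card b := by
      rw [ENat.card, Cardinal.natCast_le_toENat]
      exact htr
    have h2 : ENat.card Unit = 1 := by simp
    rw [h2]
    push_cast
    rw [add_comm]
    gcongr
  have hsub : Set.range f ⊆ (AlgebraicIndependent.matroid k L).closure (Set.range y) := by
    rw [AlgebraicIndependent.matroid_closure_eq]
    rintro _ ⟨u, rfl⟩
    rcases u with u | u
    · exact isAlgebraic_algebraMap
        (⟨y j, Algebra.subset_adjoin ⟨j, rfl⟩⟩ : Algebra.adjoin k (Set.range y))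
    · exact trb_mem_closure x hs0 (u : rf k x).2
  rw [← Matroid.eRk_closure_eq]
  exact hencard.trans (hI.encard_le_eRk_of_subset hsub)

end

variable {n : ℕ} {k K : Type*} [Field k] [Field K] [Algebra k K]

/-- PIECE [TRB].  If the transcendence degree is at least `n - 1` and there is a nonzero
homogeneous relation, then the homogeneous relations are the multiples of one irreducible form.

Proof.  Let `x_j ≠ 0`.  By `exists_isTranscendenceBasis_subset` at least `n - 1` of the ratios `x_i / x_j`,
`i ≠ j`, are algebraically independent over `k`; so there is an index `i₁ ≠ j` such that the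
`z_i`, `i ≠ i₁, j` are algebraically independent, hence no nonzero form in the variables `X_i`,
`i ≠ i₁`, vanishes at `x` (put `X_j = 1`).  Take a nonzero form vanishing at `x` and factor it: factors
of forms are forms and one irreducible factor `g` vanishes at `x`.  Let `p` be a form with
`p(x) = 0`, not divisible by `g`.  Then `g, p` are coprime in `k[X]`; view them as polynomials in
`X_{i₁}` over `A = k[X_i : i ≠ i₁]`: by Gauss' lemma they are coprime over `Frac A`, so
`a g + b p = q` with `a, b ∈ k[X]`, `0 ≠ q ∈ A`.  Every homogeneous component of `q` vanishes at `x`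
(evaluate at `s x`, `s` a variable: `g(s x) = s^r g(x) = 0` and `p(s x) = 0`, so `q(s x) = 0`): contradiction.
-/
theorem exists_principal (x : Fin (n + 2) → K) (htr : (n : Cardinal) ≤ tr k x) {d : ℕ}
    {p : MvPolynomial (Fin (n + 2)) k} (hp : p.IsHomogeneous d) (h0 : p ≠ 0)
    (hpx : aeval x p = 0) (hx : ∃ j, x j ≠ 0) :
    ∃ (r : ℕ) (g : MvPolynomial (Fin (n + 2)) k), Irreducible g ∧ g.IsHomogeneous r ∧
      ∀ (e : ℕ) (q : MvPolynomial (Fin (n + 2)) k), q.IsHomogeneous e →
        (aeval x q = 0 ↔ g ∣ q) := by
  classical
  obtain ⟨j, hj⟩ := hx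
  let L := FractionRing (Polynomial K)
  set s : L := algebraMap (Polynomial K) L Polynomial.X with hs
  have hinjL : Function.Injective (algebraMap (Polynomial K) L) := IsFractionRing.injective _ _
  have hst : Transcendental K s := by
    rw [hs, transcendental_algebraMap_iff hinjL]
    exact Polynomial.transcendental_X K
  have hs0 : s ≠ 0 := by
    intro h0
    exact hst (h0 ▸ isAlgebraic_zero)
  set y : Fin (n + 2) → L := fun i => algebraMap K L (x i) * s with hy
  obtain ⟨i, hind⟩ := trb_exists_index y (trb_rank x hj htr hst)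
  -- homogeneous forms
  have hhom : ∀ (e : ℕ) (q : MvPolynomial (Fin (n + 2)) k), q.IsHomogeneous e →
      aeval y q = algebraMap K L (aeval x q) * s ^ e := by
    intro e q hq
    rw [hy, trb_smul (fun i => algebraMap K L (x i)) s hq]
    congr 1
    rw [← aeval_algebraMap_apply]
    rfl
  have hhom0 : ∀ (e : ℕ) (q : MvPolynomial (Fin (n + 2)) k), q.IsHomogeneous e →
      (aeval y q = 0 ↔ aeval x q = 0) := by
    intro e q hq
    rw [hhom e q hq, mul_eq_zero, map_eq_zero]
    have h1 : s ^ e ≠ 0 := pow_ne_zero _ hs0
    simp only [h1, or_false]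
  -- the prime ideal of relations
  let P : Ideal (MvPolynomial (Fin (n + 2)) k) := RingHom.ker (aeval y : _ →ₐ[k] L)
  have hPprime : P.IsPrime := RingHom.ker_isPrime _
  have hPne : P ≠ ⊥ := by
    intro hbot
    have h1 : p ∈ P := (hhom0 d p hp).2 hpx
    rw [hbot, Ideal.mem_bot] at h1
    exact h0 h1
  obtain ⟨g, hgP, hgprime⟩ := hPprime.exists_mem_prime_of_ne_bot hPne
  have hg : Irreducible g := hgprime.irreducible
  have hga : aeval y g = 0 := hgP
  have hdvd : ∀ q : MvPolynomial (Fin (n + 2)) k, aeval y q = 0 → g ∣ q := fun q hq =>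
    trb_dvd i hind hg hga hq
  -- the homogeneous components of `g`
  have hcomp : ∀ e : ℕ, aeval x (homogeneousComponent e g) = 0 := by
    have h1 : ∑ e ∈ Finset.range (g.totalDegree + 1),
        algebraMap K L (aeval x (homogeneousComponent e g)) * s ^ e = 0 := by
      rw [← hga]
      conv_rhs => rw [← sum_homogeneousComponent g, map_sum]
      apply Finset.sum_congr rfl
      intro e _
      rw [hhom e _ (homogeneousComponent_isHomogeneous e g)]
    have h2 : ∑ e ∈ Finset.range (g.totalDegree + 1),
        Polynomial.C (aeval x (homogeneousComponent e g)) * Polynomial.X ^ e =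
        (0 : Polynomial K) := by
      apply hinjL
      rw [map_sum, map_zero, ← h1]
      apply Finset.sum_congr rfl
      intro e _
      rw [map_mul, map_pow, ← hs]
      congr 1
    intro e
    by_cases he : e ∈ Finset.range (g.totalDegree + 1)
    · have h3 := congrArg (fun q : Polynomial K => q.coeff e) h2
      simp only [Polynomial.finsetSum_coeff, Polynomial.coeff_C_mul, Polynomial.coeff_X_pow,
        Polynomial.coeff_zero] at h3
      rw [Finset.sum_eq_single_of_mem e he] at h3
      · simpa using h3
      · intro e' _ hne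
        rw [if_neg (Ne.symm hne), mul_zero]
    · rw [homogeneousComponent_eq_zero, map_zero]
      simp only [Finset.mem_range, not_lt] at he
      omega
  have hcomp2 : ∀ e : ℕ, homogeneousComponent e g ≠ 0 → e = g.totalDegree := by
    intro e he
    have h1 : g ∣ homogeneousComponent e g := by
      apply hdvd
      rw [hhom0 e _ (homogeneousComponent_isHomogeneous e g)]
      exact hcomp e
    have h2 : g.totalDegree ≤ e := by
      rw [← (homogeneousComponent_isHomogeneous e g).totalDegree he]
      obtain ⟨r, hr⟩ := h1
      have hr0 : r ≠ 0 := by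
        rintro rfl
        rw [mul_zero] at hr
        exact he hr
      rw [hr, totalDegree_mul_of_isDomain hg.ne_zero hr0]
      omega
    by_contra hne
    exact he (homogeneousComponent_eq_zero e g (by omega))
  have hghom : g.IsHomogeneous g.totalDegree := by
    have h1 : g = homogeneousComponent g.totalDegree g := by
      conv_lhs => rw [← sum_homogeneousComponent g]
      rw [Finset.sum_eq_single_of_mem g.totalDegree (by simp)]
      intro e _ hne
      by_contra hcon
      exact hne (hcomp2 e hcon)
    have h2 := homogeneousComponent_isHomogeneous g.totalDegree g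
    rwa [← h1] at h2
  refine ⟨g.totalDegree, g, hg, hghom, fun e q hq => ?_⟩
  rw [← hhom0 e q hq]
  constructor
  · exact hdvd q
  · rintro ⟨r, rfl⟩
    rw [map_mul, hga, zero_mul]

end Pool.Agent.MP_1209e6_cy
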