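import Pool.Agent.Lib_MP_1209e6_cy.Tr

/-!
PIECE [TRC] (MP_1209e6_ag).  Enlarging the ground field by one element.
-/

open MvPolynomial

namespace Pool.Agent.MP_1209e6_cy

variable {N n : ℕ}

/-- Enlarging the ground field by one element lowers the transcendence degree by at most one.

Proof.  `k ⊆ k' = k(t)`, everything inside `K`.  Choose among the ratios `z_i = x_i / x_j` a set `B` of
`n + 1` elements algebraically independent over `k`.  If `t` is algebraic over `k`, `B` stays
independent over `k'`.  If `t` is transcendental over `k(B)`, then `B ∪ {t}` is independent over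
`k`, so `B` is independent over `k(t)`.  Otherwise, by exchange, there is `b ∈ B` such that
`(B \ {b}) ∪ {t}` is independent over `k`, and `B \ {b}` is independent over `k(t)`.  (Mathlib:
`AlgebraicIndependent.matroid` and its lemmas, `AlgebraicIndependent.adjoin_of_disjoint`,
`Algebra.trdeg_add_eq`; or: `trdeg_k k'(x) = trdeg_k k' + trdeg_{k'} k'(x)`, `trdeg_k k' ≤ 1` and
`rf k x ⊆ rf k' x`.) -/
theorem le_tr_adjoin {k k' K : Type*} [Field k] [Field k'] [Field K] [Algebra k k'] [Algebra k K]
    [Algebra k' K] [IsScalarTower k k' K] (t : k') (ht : IntermediateField.adjoin k {t} = ⊤)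
    (x : Fin N → K) (h : ((n + 1 : ℕ) : Cardinal) ≤ tr k x) : (n : Cardinal) ≤ tr k' x := by
  classical
  -- `trdeg k k' ≤ 1`
  have hlow : Algebra.trdeg k k' ≤ 1 := by
    have : Algebra.IsAlgebraic (Algebra.adjoin k ({t} : Set k')) k' := by
      rw [← IntermediateField.isAlgebraic_adjoin_iff_top, ht, Algebra.isAlgebraic_iff_isIntegral]
      exact Algebra.isIntegral_of_surjective IntermediateField.topEquiv.surjective
    refine (Algebra.IsAlgebraic.trdeg_le_cardinalMk k ({t} : Set k')).trans ?_
    simp
  -- the inclusion `rf k x ⊆ rf k' x`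
  have hmem : ∀ z ∈ rf k x, z ∈ rf k' x := by
    have h1 : rf k x ≤ (rf k' x).restrictScalars k := by
      unfold rf
      rw [IntermediateField.adjoin_le_iff]
      rintro z ⟨i, j, hj, rfl⟩
      exact ratio_mem x hj
    intro z hz
    exact h1 hz
  let f : rf k x →ₐ[k] rf k' x :=
    { toFun := fun z => ⟨z.1, hmem z.1 z.2⟩
      map_one' := rfl
      map_mul' := fun _ _ => rfl
      map_zero' := rfl
      map_add' := fun _ _ => rfl
      commutes' := fun r => by
        apply Subtype.ext
        show algebraMap k K r = ((algebraMap k (rf k' x) r : rf k' x) : K)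
        rfl }
  have hf : Function.Injective f := by
    intro a b hab
    exact Subtype.ext (congrArg (fun z : rf k' x => (z : K)) hab)
  have h2 : tr k x ≤ Algebra.trdeg k (rf k' x) := trdeg_le_of_injective f hf
  have h3 := lift_trdeg_add_eq k k' (rf k' x)
  have h4 : ((n + 1 : ℕ) : Cardinal) ≤ Cardinal.lift (Algebra.trdeg k (rf k' x)) := by
    have := Cardinal.lift_le.2 (h.trans h2)
    rwa [Cardinal.lift_natCast] at this
  rw [← h3] at h4
  have h5 : ((n : Cardinal) + 1) ≤ Cardinal.lift (Algebra.trdeg k' (rf k' x)) + 1 := by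
    calc ((n : Cardinal) + 1) = ((n + 1 : ℕ) : Cardinal) := by push_cast; rfl
      _ ≤ _ := h4
      _ ≤ 1 + Cardinal.lift (Algebra.trdeg k' (rf k' x)) := by
        refine add_le_add ?_ le_rfl
        exact (Cardinal.lift_le.2 hlow).trans_eq Cardinal.lift_one
      _ = _ := add_comm _ _
  have h6 := Cardinal.add_one_le_add_one_iff.1 h5
  exact Cardinal.nat_le_lift_iff.1 h6

end Pool.Agent.MP_1209e6_cy
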