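import Pool.Agent.Lib_MP_1209e6_cy.Degree
import Pool.Agent.Lib_MP_1209e6_cy.TrRelA
import Pool.Agent.Lib_MP_1209e6_cy.TrRelB
import Pool.Agent.Lib_MP_1209e6_cy.TrTower
import Pool.Agent.Lib_MP_1209e6_cy.TrQuad

/-!
# No homogeneous relation between the coordinates of `x`
-/

open Matrix MvPolynomial

namespace Pool.Agent.MP_1209e6_cy

variable {m : ℕ}

theorem Indep.exists_ne_left {N : ℕ} {K : Type*} [CommRing K] {x x' : Fin N → K} (h : Indep x x') :
    ∃ j, x j ≠ 0 := by
  obtain ⟨i, j, hij⟩ := h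
  by_contra hc
  push Not at hc
  exact hij (by rw [hc i, hc j, zero_mul, zero_mul])

theorem Indep.exists_ne_right {N : ℕ} {K : Type*} [CommRing K] {x x' : Fin N → K}
    (h : Indep x x') : ∃ j, x' j ≠ 0 := by
  obtain ⟨i, j, hij⟩ := h
  by_contra hc
  push Not at hc
  exact hij (by rw [hc i, hc j, mul_zero, mul_zero])

/-- The algebraic lemma: the transcendence degree of `x` over `k` is never equal to `m = n - 1`. -/
theorem no_rel {k K Ω : Type*} [Field k] [CharZero k] [Field K] [CharZero K] [Algebra k K]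
    [Field Ω] [IsAlgClosed Ω] [Algebra k Ω] {D : Dat m k}
    (hm : 1 ≤ m) (hD : D.Symm) (hS : SmallE (D.map (algebraMap k Ω)))
    (hS' : SmallE (D.swap.map (algebraMap k Ω))) {σ : K ≃ₐ[k] K} {x y : Vec m K}
    (hO : Orb D σ x y) (htr : (m : Cardinal) ≤ tr k x) (d : ℕ)
    (p : MvPolynomial (Fin (m + 2)) k) (hp : p.IsHomogeneous d) (hpx : aeval x p = 0) : p = 0 := by
  by_contra h0
  have hx0 := hO.indx.exists_ne_left
  have hy0 := hO.indy.exists_ne_left
  obtain ⟨r, g, hg, hgh, Ig⟩ := exists_principal x htr hp h0 hpx hx0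
  have h1 : tr k x < ((m + 1 : ℕ) : Cardinal) := tr_lt_of_rel (n := m + 1) x hx0 hp h0 hpx
  have h2 : tr k x ≤ tr k y := by
    obtain ⟨α, hα, hE⟩ := hO.hE
    refine tr_le_of_quad y x (fun l => σ (x l)) (fun i j => D.EP i j) (fun i j => D.EP_homog i j)
      hα (fun i j => ?_) hO.indx.exists_ne_right
    rw [D.aeval_EP, hE]
  have h3 : tr k y ≤ tr k x := by
    obtain ⟨β, hβ, hE⟩ := hO.hE'
    rw [← tr_map x σ]
    refine tr_le_of_quad (fun l => σ (x l)) y (fun l => σ (y l)) (fun i j => D.swap.EP i j)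
      (fun i j => D.swap.EP_homog i j) hβ (fun i j => ?_) hO.indy.exists_ne_right
    rw [D.swap.aeval_EP, hE]
  have h4 : ∃ (e : ℕ) (q : MvPolynomial (Fin (m + 2)) k), q.IsHomogeneous e ∧ q ≠ 0 ∧
      aeval y q = 0 := by
    by_contra hc
    push Not at hc
    have := le_tr_of_no_rel (n := m + 1) (k := k) y (fun e q hq hqy => by
      by_contra hq0
      exact hc e q hq hq0 hqy)
    exact absurd (this.trans h3) (not_le.2 h1)
  obtain ⟨e, q, hq, hq0, hqy⟩ := h4
  obtain ⟨r', g', hg', hgh', Ig'⟩ := exists_principal y (htr.trans h2) hq hq0 hqy hy0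
  exact not_principal hm hD hS hS' hO hg hg' hgh hgh' Ig Ig'

end Pool.Agent.MP_1209e6_cy
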