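import Mathlib

/-!
PIECE [NSA] (MP_1209e6_ag).  Coprime polynomials stay coprime over a larger field.
-/

open MvPolynomial

namespace Pool.Agent.MP_1209e6_cy

/-- the coefficientwise application of a linear functional -/
private noncomputable def rpComp {N : ℕ} {k K : Type*} [Field k] [Field K]
    (l : K →+ k) (c : MvPolynomial (Fin N) K) : MvPolynomial (Fin N) k :=
  ∑ m ∈ c.support, monomial m (l (coeff m c))

private theorem rpComp_coeff {N : ℕ} {k K : Type*} [Field k] [Field K]
    (l : K →+ k) (c : MvPolynomial (Fin N) K) (m : Fin N →₀ ℕ) :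
    coeff m (rpComp l c) = l (coeff m c) := by
  classical
  unfold rpComp
  rw [coeff_sum]
  simp only [coeff_monomial]
  rw [Finset.sum_ite_eq' c.support m (fun m => l (coeff m c))]
  split_ifs with h
  · rfl
  · rw [notMem_support_iff.1 h, map_zero]

private theorem rpComp_mul {N : ℕ} {k K : Type*} [Field k] [Field K] (f : k →+* K)
    (l : K →+ k) (hl : ∀ a b, l (f a * b) = a * l b)
    (h : MvPolynomial (Fin N) k) (c : MvPolynomial (Fin N) K) :
    rpComp l (MvPolynomial.map f h * c) = h * rpComp l c := by
  classical
  ext m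
  rw [rpComp_coeff, coeff_mul, coeff_mul, map_sum]
  refine Finset.sum_congr rfl fun x _ => ?_
  rw [coeff_map, hl, rpComp_coeff]

/-- division by a polynomial which is coprime to the multiplier descends to the larger field -/
private theorem rpDvd {N : ℕ} {k K : Type*} [Field k] [Field K] (f : k →+* K)
    {g h : MvPolynomial (Fin N) k} (hgh : IsRelPrime g h) (c : MvPolynomial (Fin N) K)
    (hc : MvPolynomial.map f g ∣ MvPolynomial.map f h * c) : MvPolynomial.map f g ∣ c := by
  classical
  letI : Algebra k K := f.toAlgebra
  let b := Module.Basis.ofVectorSpace k K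
  obtain ⟨q, hq⟩ := hc
  let l : Module.Basis.ofVectorSpaceIndex k K → (K →+ k) := fun i => (b.coord i).toAddMonoidHom
  have hl : ∀ i, ∀ a x, l i (f a * x) = a * l i x := by
    intro i a x
    change b.coord i (f a * x) = a * b.coord i x
    have : f a * x = a • x := by rw [Algebra.smul_def]; rfl
    rw [this, map_smul, smul_eq_mul]
  have hdv : ∀ i, g ∣ rpComp (l i) c := by
    intro i
    have h1 : h * rpComp (l i) c = g * rpComp (l i) q := by
      rw [← rpComp_mul f (l i) (hl i), ← rpComp_mul f (l i) (hl i), hq]
    exact hgh.dvd_of_dvd_mul_left ⟨_, h1⟩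
  let S : Finset (Module.Basis.ofVectorSpaceIndex k K) :=
    c.support.biUnion fun m => (b.repr (coeff m c)).support
  have hcs : c = ∑ i ∈ S, C (b i) * MvPolynomial.map f (rpComp (l i) c) := by
    ext m
    rw [coeff_sum]
    simp only [coeff_C_mul, coeff_map, rpComp_coeff]
    by_cases hm : m ∈ c.support
    · have h1 : coeff m c = ∑ i ∈ (b.repr (coeff m c)).support,
          b.repr (coeff m c) i • b i := by
        conv_lhs => rw [← b.linearCombination_repr (coeff m c)]
        rw [Finsupp.linearCombination_apply, Finsupp.sum]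
      have h2 : (b.repr (coeff m c)).support ⊆ S :=
        Finset.subset_biUnion_of_mem (fun m => (b.repr (coeff m c)).support) hm
      have h3 : coeff m c = ∑ i ∈ S, b.repr (coeff m c) i • b i := by
        conv_lhs => rw [h1]
        refine Finset.sum_subset h2 fun i _ hi => ?_
        rw [Finsupp.notMem_support_iff.1 hi, zero_smul]
      conv_lhs => rw [h3]
      refine Finset.sum_congr rfl fun i _ => ?_
      rw [Algebra.smul_def, mul_comm]
      rfl
    · rw [notMem_support_iff.1 hm]
      symm
      refine Finset.sum_eq_zero fun i _ => ?_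
      rw [map_zero, map_zero, mul_zero]
  rw [hcs]
  refine Finset.dvd_sum fun i _ => ?_
  exact Dvd.dvd.mul_left (map_dvd (MvPolynomial.map f) (hdv i)) _

/-- PIECE [NSA].  Two coprime (non-associated irreducible) polynomials over `k` stay coprime over
an extension field `K`.

Proof.  Let `p` be a common irreducible factor over `K` (it is not a constant, so some variable
`X_i` occurs in `p`).  Over `k(X_j : j ≠ i)` the polynomials `g, h` are coprime (Gauss), hence
`a g + b h = d` with `a, b ∈ k[X]` and `0 ≠ d ∈ k[X_j : j ≠ i]`.  Then `p ∣ d` over `K`, impossible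
since `X_i` occurs in `p` but not in `d`. -/
theorem isRelPrime_map {N : ℕ} {k K : Type*} [Field k] [Field K] (f : k →+* K)
    {g h : MvPolynomial (Fin N) k} (hgh : IsRelPrime g h) :
    IsRelPrime (MvPolynomial.map f g) (MvPolynomial.map f h) := by
  by_cases hg : g = 0
  · subst hg
    have hu : IsUnit h := hgh (dvd_zero _) dvd_rfl
    intro d _ hd
    exact isUnit_of_dvd_unit hd (hu.map (MvPolynomial.map f))
  · have hg' : MvPolynomial.map f g ≠ 0 := by
      intro h0
      exact hg (MvPolynomial.map_injective f f.injective (by rw [h0, map_zero]))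
    rintro p ⟨g', hg1⟩ ⟨h', hh1⟩
    have h1 : MvPolynomial.map f g ∣ MvPolynomial.map f h * g' := by
      refine ⟨h', ?_⟩
      rw [hg1, hh1]
      ring
    obtain ⟨e, he⟩ := rpDvd f hgh g' h1
    have hg0 : g' ≠ 0 := by
      rintro rfl
      rw [mul_zero] at hg1
      exact hg' hg1
    refine IsUnit.of_mul_eq_one e ?_
    have h2 : g' * (p * e) = g' * 1 := by
      rw [mul_one]
      conv_rhs => rw [he, hg1]
      ring
    exact mul_left_cancel₀ hg0 h2

end Pool.Agent.MP_1209e6_cy
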