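import Pool.Agent.Lib_MP_1209e6_cy.Thin
import Pool.Agent.Lib_MP_1209e6_cy.RelPrime

/-!
PIECE [NSB] (MP_1209e6_ag).  The norm has only one prime factor.
-/

open Matrix MvPolynomial

namespace Pool.Agent.MP_1209e6_cy

variable {m : ℕ}

/-- Nullstellensatz for an irreducible polynomial. -/
theorem nsb_null {N : ℕ} {Ω : Type*} [Field Ω] [IsAlgClosed Ω] {p q : MvPolynomial (Fin N) Ω}
    (hp : Irreducible p) (h : ∀ y : Fin N → Ω, aeval y p = 0 → aeval y q = 0) : p ∣ q := by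
  have hpr : Prime p := hp.prime
  have : (Ideal.span {p}).IsPrime := (Ideal.span_singleton_prime hp.ne_zero).mpr hpr
  have h1 := IsPrime.vanishingIdeal_zeroLocus (K := Ω) (Ideal.span {p})
  rw [← Ideal.mem_span_singleton, ← h1, mem_vanishingIdeal_iff]
  intro y hy
  exact h y (hy p (Ideal.mem_span_singleton_self p))

/-- A non-constant polynomial is not a unit over a larger field. -/
theorem nsb_not_unit {N : ℕ} {k Ω : Type*} [Field k] [Field Ω] (f : k →+* Ω)
    {p : MvPolynomial (Fin N) k} (hp : Irreducible p) : ¬ IsUnit (MvPolynomial.map f p) := by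
  intro hu
  obtain ⟨c, hc, e⟩ := isUnit_iff_eq_C_of_isReduced.mp hu
  refine hp.not_isUnit (isUnit_iff_eq_C_of_isReduced.mpr ⟨p.coeff 0, ?_, ?_⟩)
  · refine isUnit_iff_ne_zero.mpr fun h0 => ?_
    have h1 := congrArg (MvPolynomial.coeff 0) e
    rw [coeff_map, h0, map_zero, coeff_C, if_pos rfl] at h1
    exact hc.ne_zero h1.symm
  · ext n
    rw [coeff_C]
    split_ifs with h
    · rw [h]
    · have h1 := congrArg (MvPolynomial.coeff n) e
      rw [coeff_map, coeff_C, if_neg h] at h1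
      exact (map_eq_zero f).mp h1

/-- The key claim. -/
theorem nsb_claim {k Ω : Type*} [Field k] [CharZero k] [Field Ω] [IsAlgClosed Ω] [Algebra k Ω]
    {D : Dat m k} (hD : D.Symm) {F : MvPolynomial (Fin (m + 2)) Ω}
    (hF : ∀ y ∈ {y : Vec m Ω | y ≠ 0 ∧ ∃ x : Vec m Ω, x ≠ 0 ∧ (D.map (algebraMap k Ω)).In x y ∧
      ∀ i j, (D.map (algebraMap k Ω)).swap.E x i j = 0}, aeval y F = 0) {r r' : ℕ}
    {g g' : MvPolynomial (Fin (m + 2)) k} (hg : g.IsHomogeneous r) (hg' : g'.IsHomogeneous r')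
    (hr' : 1 ≤ r')
    (hdiv : ∀ h : MvPolynomial (Fin (m + 2)) k, h.IsHomogeneous r' → g ∣ D.swap.N2 r' g' h)
    (y : Vec m Ω) (hy : aeval y (D.N2 r g g) = 0) (i j : Fin (m + 2)) :
    aeval y g' * ((D.map (algebraMap k Ω)).E y i j * aeval y F) = 0 := by
  have : CharZero Ω := charZero_of_injective_algebraMap (algebraMap k Ω).injective
  have h2 : IsUnit (2 : k) := isUnit_iff_ne_zero.mpr two_ne_zero
  have h2Ω : (2 : Ω) ≠ 0 := two_ne_zero
  by_contra hne
  have hg'y : aeval y g' ≠ 0 := left_ne_zero_of_mul hne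
  have hEF := right_ne_zero_of_mul hne
  have hE : (D.map (algebraMap k Ω)).E y i j ≠ 0 := left_ne_zero_of_mul hEF
  have hFy : aeval y F ≠ 0 := right_ne_zero_of_mul hEF
  have hDΩ : (D.map (algebraMap k Ω)).Symm := hD.map _
  have hy0 : y ≠ 0 := by
    rintro rfl
    refine hE ?_
    have h := (D.map (algebraMap k Ω)).E_smul 0 (0 : Vec m Ω) i j
    rw [smul_zero, zero_pow (by omega), zero_mul] at h
    exact h
  -- a vector with `w · x = 1`
  have hdual : ∀ x : Vec m Ω, x ≠ 0 → ∃ w : Vec m Ω, w ⬝ᵥ x = 1 := by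
    intro x hx
    obtain ⟨l, hl⟩ := Function.ne_iff.mp hx
    refine ⟨Pi.single l (x l)⁻¹, ?_⟩
    rw [single_dotProduct]
    exact inv_mul_cancel₀ hl
  -- a point over `y` with `g = 0`
  obtain ⟨x, hx0, hin, hgx⟩ : ∃ x : Vec m Ω, x ≠ 0 ∧ (D.map (algebraMap k Ω)).In x y ∧
      aeval x g = 0 := by
    obtain ⟨x, hx0, hin⟩ := Dat.Symm.exists_In hDΩ y
    obtain ⟨w, hw⟩ := hdual x hx0
    have h := Dat.N2_spec hD h2 hg hg w x y hin
    rw [hy, mul_zero] at h
    have h3 : aeval x g * aeval ((D.map (algebraMap k Ω)).S w x y) g = 0 := by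
      have h4 : 2 * (aeval x g * aeval ((D.map (algebraMap k Ω)).S w x y) g) = 0 := by
        rw [two_mul]
        rw [mul_comm (aeval ((D.map (algebraMap k Ω)).S w x y) g)] at h
        exact h.symm
      exact (mul_eq_zero.mp h4).resolve_left h2Ω
    rcases mul_eq_zero.mp h3 with h5 | h5
    · exact ⟨x, hx0, hin, h5⟩
    · refine ⟨_, ?_, hDΩ.In_S hin, h5⟩
      intro h6
      have h7 := hDΩ.key hin w i j
      rw [hw, h6] at h7
      simp only [Pi.zero_apply, mul_zero, add_zero, one_pow, mul_one] at h7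
      exact hE ((mul_eq_zero.mp h7).resolve_left h2Ω)
  -- `E₁ x ≠ 0`
  obtain ⟨a, b, hab⟩ : ∃ a b, (D.map (algebraMap k Ω)).swap.E x a b ≠ 0 := by
    by_contra hcon
    push Not at hcon
    exact hFy (hF y ⟨hy0, x, hx0, hin, hcon⟩)
  obtain ⟨w', hw'⟩ := hdual y hy0
  have hin' : (D.map (algebraMap k Ω)).swap.In y x := (Dat.swap_In _ _ _).mpr hin
  have hy' : (D.map (algebraMap k Ω)).swap.S w' y x ≠ 0 := by
    intro h6
    have h7 := hDΩ.swap.key hin' w' a b
    rw [hw', h6] at h7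
    simp only [Pi.zero_apply, mul_zero, add_zero, one_pow, mul_one] at h7
    exact hab ((mul_eq_zero.mp h7).resolve_left h2Ω)
  have hall : ∀ h : MvPolynomial (Fin (m + 2)) k, h.IsHomogeneous r' →
      aeval y g' * aeval ((D.map (algebraMap k Ω)).swap.S w' y x) h +
        aeval ((D.map (algebraMap k Ω)).swap.S w' y x) g' * aeval y h = 0 := by
    intro h hh
    have h1 := Dat.N2_spec hD.swap h2 hg' hh w' y x hin'
    obtain ⟨q, hq⟩ := hdiv h hh
    rw [hq, map_mul, hgx, zero_mul, mul_zero] at h1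
    exact h1.symm
  have h8 : aeval ((D.map (algebraMap k Ω)).swap.S w' y x) g' = 0 := by
    have h9 := hall g' hg'
    rw [mul_comm (aeval y g')] at h9
    have h10 : 2 * (aeval ((D.map (algebraMap k Ω)).swap.S w' y x) g' * aeval y g') = 0 := by
      rw [two_mul]
      exact h9
    exact (mul_eq_zero.mp ((mul_eq_zero.mp h10).resolve_left h2Ω)).resolve_right hg'y
  refine hy' (funext fun l => ?_)
  have h11 := hall (X l ^ r') (isHomogeneous_X_pow l r')
  rw [h8, zero_mul, add_zero, map_pow, aeval_X] at h11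
  exact pow_eq_zero_iff (by omega) |>.mp ((mul_eq_zero.mp h11).resolve_left hg'y)

/-- PIECE [NSB].  Let `g` be a form of degree `r` in `x` and `g'` an irreducible form of degree
`r'` in `y` such that all norms `N(g', h)(x)` are divisible by `g`.  Then `g'` is the only prime
factor of the norm `N(g, g)(y)`.

Proof.  Let `Ω` be algebraically closed, `p ∈ k[y]` irreducible with `p ∣ N(g, g)`, and suppose
that `p` and `g'` are not associated; by [NSA] they are coprime over `Ω`.  Let `p₁ ∈ Ω[y]` be an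
irreducible factor of `p`.  CLAIM: for all `y₁` with `p₁(y₁) = 0`, all `i, j` and `F = F₁, F₂` (the
forms of `SmallE.e2`): `g'(y₁) E_ij(y₁) F(y₁) = 0`.  Assume `E_ij(y₁) ≠ 0` and `F(y₁) ≠ 0`.  Then
`y₁ ≠ 0`.  Choose `x ≠ 0` with `(x, y₁) ∈ X` (`Symm.exists_In`), `w` with `w · x = 1` and
`x' = S w x y₁`; by `N2_spec`, `2 g(x) g(x') = 2 ^ r N(g,g)(y₁) = 0`; also `x' ≠ 0` by `Symm.key` and
`(x', y₁) ∈ X` by `Symm.In_S`.  So there is `x* ≠ 0` with `(x*, y₁) ∈ X` and `g(x*) = 0`.  Since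
`F(y₁) ≠ 0`, `E₁(x*) ≠ 0` (`E₁ = D.swap.E`).  Choose `w'` with `w' · y₁ = 1`,
`y' = D.swap.S w' y₁ x*`, which is `≠ 0`.  For every form `h` of degree `r'`, `N(g', h)(x*) = 0`
(it is divisible by `g`), so `g'(y₁) h(y') + g'(y') h(y₁) = 0` (`N2_spec` for `D.swap`).  If
`g'(y₁) ≠ 0` then `g'(y') = 0` (take `h = g'`), hence `h(y') = 0` for all forms `h` of degree `r'`
and `y' = 0` (take `h = X_l ^ r'`), contradiction.  This proves the claim.
By the Nullstellensatz `p₁ ∣ g' E_ij F_l` for all `i, j, l`.  As `p₁ ∤ g'`, either `p₁ ∣ F_1` and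
`p₁ ∣ F_2`, impossible, or `p₁ ∣ E_ij` for all `i, j`; then on `p₁ = 0`, away from `0`, the two
coprime forms `F'_1, F'_2` of `SmallE.e1` vanish, so `p₁ ∣ X_a F'_l` for all `a, l` and again
`p₁ ∣ F'_1, F'_2` (at most one `X_a` is divisible by `p₁`): contradiction. -/
theorem prime_factor {k Ω : Type*} [Field k] [CharZero k] [Field Ω] [IsAlgClosed Ω] [Algebra k Ω]
    {D : Dat m k} (hD : D.Symm) (hS : SmallE (D.map (algebraMap k Ω))) {r r' : ℕ}
    {g g' : MvPolynomial (Fin (m + 2)) k} (hg : g.IsHomogeneous r) (hg' : g'.IsHomogeneous r')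
    (hr' : 1 ≤ r') (hgi : Irreducible g')
    (hdiv : ∀ h : MvPolynomial (Fin (m + 2)) k, h.IsHomogeneous r' → g ∣ D.swap.N2 r' g' h)
    {p : MvPolynomial (Fin (m + 2)) k} (hp : Irreducible p) (hpd : p ∣ D.N2 r g g) :
    Associated p g' := by
  classical
  by_contra hna
  have hrel : IsRelPrime p g' :=
    hp.isRelPrime_iff_not_dvd.mpr fun h => hna (hp.associated_of_dvd hgi h)
  have hrelΩ := isRelPrime_map (algebraMap k Ω) hrel
  have hp0 : MvPolynomial.map (algebraMap k Ω) p ≠ 0 := by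
    intro h
    refine hp.ne_zero (MvPolynomial.map_injective _ (algebraMap k Ω).injective ?_)
    rw [h, map_zero]
  obtain ⟨p₁, hp₁, hp₁d⟩ := WfDvdMonoid.exists_irreducible_factor
    (nsb_not_unit (algebraMap k Ω) hp) hp0
  have hpr : Prime p₁ := hp₁.prime
  have hg'n : ¬ p₁ ∣ MvPolynomial.map (algebraMap k Ω) g' :=
    fun h => hp₁.not_isUnit (hrelΩ hp₁d h)
  have haev : ∀ (y : Vec m Ω) (q : MvPolynomial (Fin (m + 2)) k),
      aeval y (MvPolynomial.map (algebraMap k Ω) q) = aeval y q := fun y q =>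
    aeval_map_algebraMap Ω y q
  have hN : ∀ y : Vec m Ω, aeval y p₁ = 0 → aeval y (D.N2 r g g) = 0 := by
    intro y hy
    have h1 : aeval y p = 0 := by
      rw [← haev]
      obtain ⟨q, hq⟩ := hp₁d
      rw [hq, map_mul, hy, zero_mul]
    obtain ⟨q, hq⟩ := hpd
    rw [hq, map_mul, h1, zero_mul]
  have hEP : ∀ (y : Vec m Ω) (i j : Fin (m + 2)),
      aeval y ((D.map (algebraMap k Ω)).EP i j) = (D.map (algebraMap k Ω)).E y i j := by
    intro y i j
    have h := (D.map (algebraMap k Ω)).aeval_EP y i j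
    have e : (D.map (algebraMap k Ω)).map (algebraMap Ω Ω) = D.map (algebraMap k Ω) := rfl
    rw [e] at h
    exact h
  obtain ⟨F₁, F₂, -, -, hF12, hFz⟩ := hS.e2
  obtain ⟨G₁, G₂, -, -, hG12, hGz⟩ := hS.e1
  have key : ∀ F : MvPolynomial (Fin (m + 2)) Ω,
      (∀ y ∈ {y : Vec m Ω | y ≠ 0 ∧ ∃ x : Vec m Ω, x ≠ 0 ∧ (D.map (algebraMap k Ω)).In x y ∧
        ∀ i j, (D.map (algebraMap k Ω)).swap.E x i j = 0}, aeval y F = 0) →
      ¬ p₁ ∣ F → ∀ i j, p₁ ∣ (D.map (algebraMap k Ω)).EP i j := by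
    intro F hF hnd i j
    have h1 : p₁ ∣ MvPolynomial.map (algebraMap k Ω) g' *
        ((D.map (algebraMap k Ω)).EP i j * F) := by
      refine nsb_null hp₁ fun y hy => ?_
      rw [map_mul, map_mul, haev, hEP]
      exact nsb_claim hD hF hg hg' hr' hdiv y (hN y hy) i j
    exact (hpr.dvd_or_dvd ((hpr.dvd_or_dvd h1).resolve_left hg'n)).resolve_right hnd
  have hE : ∀ i j, p₁ ∣ (D.map (algebraMap k Ω)).EP i j := by
    by_cases h1 : p₁ ∣ F₁
    · by_cases h2 : p₁ ∣ F₂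
      · exact absurd (hF12 h1 h2) hp₁.not_isUnit
      · exact key F₂ (fun y hy => (hFz y hy).2) h2
    · exact key F₁ (fun y hy => (hFz y hy).1) h1
  have hEz : ∀ y : Vec m Ω, aeval y p₁ = 0 → ∀ i j, (D.map (algebraMap k Ω)).E y i j = 0 := by
    intro y hy i j
    rw [← hEP]
    obtain ⟨q, hq⟩ := hE i j
    rw [hq, map_mul, hy, zero_mul]
  obtain ⟨a, ha⟩ : ∃ a : Fin (m + 2), ¬ p₁ ∣ (X a : MvPolynomial (Fin (m + 2)) Ω) := by
    by_contra hcon
    push Not at hcon
    have h0 := hcon 0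
    have h1 := hcon 1
    have h3 : Associated p₁ (X 0 : MvPolynomial (Fin (m + 2)) Ω) :=
      hp₁.associated_of_dvd X_prime.irreducible h0
    have h4 : (X 0 : MvPolynomial (Fin (m + 2)) Ω) ∣ X 1 := h3.symm.dvd.trans h1
    have h5 : (0 : Fin (m + 2)) = 1 := X_dvd_X.mp h4
    have h6 := congrArg Fin.val h5
    simp at h6
  have fin : ∀ G : MvPolynomial (Fin (m + 2)) Ω,
      (∀ y ∈ {y : Vec m Ω | y ≠ 0 ∧ ∀ i j, (D.map (algebraMap k Ω)).E y i j = 0}, aeval y G = 0) →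
      p₁ ∣ G := by
    intro G hG
    have h1 : p₁ ∣ X a * G := by
      refine nsb_null hp₁ fun y hy => ?_
      rw [map_mul, aeval_X]
      by_cases hy0 : y = 0
      · rw [hy0, Pi.zero_apply, zero_mul]
      · rw [hG y ⟨hy0, hEz y hy⟩, mul_zero]
    exact (hpr.dvd_or_dvd h1).resolve_left ha
  exact hp₁.not_isUnit (hG12 (fin G₁ fun y hy => (hGz y hy).1) (fin G₂ fun y hy => (hGz y hy).2))

end Pool.Agent.MP_1209e6_cy
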