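import Pool.Agent.Lib_MP_1209e6_cy.Van
import Pool.Agent.Lib_MP_1209e6_cy.GermS
import Pool.Agent.Lib_MP_1209e6_cy.Orbit

/-!
PIECE [OCA] (MP_1209e6_ag).  The germs of the curve form an orbit.
-/

open Matrix MvPolynomial Filter Topology

namespace Pool.Agent.MP_1209e6_cy

variable {m : ℕ}

/-- the vector of germs of a vector of functions -/
noncomputable def gv (x : ℂ → Vec m ℂ) (hx : ∀ i, AnalyticAt ℂ (fun z => x z i) 0) : Vec m AK :=
  fun i => gk (fun z => x z i) (hx i)

theorem analyticAt_comp {x : ℂ → Vec m ℂ} (hx : Differentiable ℂ x) (i : Fin (m + 2)) :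
    AnalyticAt ℂ (fun z => x z i) 0 := by
  have h : Differentiable ℂ (fun z => x z i) := fun z => (differentiableAt_pi.1 (hx z)) i
  exact h.analyticAt 0

/-! Transfer of identities between functions and germs. -/

/-- the evaluation of a function at a point -/
def evz (z : ℂ) : AF →+* ℂ where
  toFun := fun f => f.1 z
  map_one' := rfl
  map_mul' := fun _ _ => rfl
  map_zero' := rfl
  map_add' := fun _ _ => rfl

/-- the germ map -/
noncomputable def phiK : AF →+* AK := (algebraMap AO AK).comp (mkO : AF →+* AO)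

theorem phiK_mk (f : ℂ → ℂ) (hf : AnalyticAt ℂ f 0) : phiK ⟨f, hf⟩ = gk f hf := rfl

theorem AF_ext {f g : AF} (h : ∀ z, evz z f = evz z g) : f = g := Subtype.ext (funext h)

theorem evz_algebraMap (z : ℂ) : (evz z).comp (algebraMap ℂ AF) = RingHom.id ℂ := rfl

theorem phiK_algebraMap : phiK.comp (algebraMap ℂ AF) = algebraMap ℂ AK := by
  ext c
  have h1 : (mkO : AF →+* AO) (algebraMap ℂ AF c) = algebraMap ℂ AO c := mkO.commutes c
  show algebraMap AO AK ((mkO : AF →+* AO) (algebraMap ℂ AF c)) = algebraMap ℂ AK c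
  rw [h1, ← IsScalarTower.algebraMap_apply ℂ AO AK c]

theorem map_map_evz (D : Dat m ℂ) (z : ℂ) : (D.map (algebraMap ℂ AF)).map (evz z) = D := rfl

theorem map_map_phiK (D : Dat m ℂ) :
    (D.map (algebraMap ℂ AF)).map phiK = D.map (algebraMap ℂ AK) := by
  have h : ∀ c, phiK (algebraMap ℂ AF c) = algebraMap ℂ AK c := fun c =>
    RingHom.congr_fun phiK_algebraMap c
  unfold Dat.map
  simp only [h]

/-- the vector in `AF` -/
def vF (x : ℂ → Vec m ℂ) (hx : ∀ i, AnalyticAt ℂ (fun z => x z i) 0) : Vec m AF :=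
  fun i => ⟨fun z => x z i, hx i⟩

theorem In_germ {D : Dat m ℂ} {x y : ℂ → Vec m ℂ} (hx : ∀ i, AnalyticAt ℂ (fun z => x z i) 0)
    (hy : ∀ i, AnalyticAt ℂ (fun z => y z i) 0) (h : ∀ z, D.In (x z) (y z)) :
    (D.map (algebraMap ℂ AK)).In (gv x hx) (gv y hy) := by
  have h1 : (D.map (algebraMap ℂ AF)).In (vF x hx) (vF y hy) := by
    refine ⟨fun i => ?_, ?_⟩
    · refine AF_ext fun z => ?_
      rw [← Dat.map_A, map_zero, map_map_evz]
      exact (h z).1 i
    · refine AF_ext fun z => ?_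
      rw [← Dat.map_B, map_zero, map_map_evz]
      exact (h z).2
  have h2 := Dat.map_In phiK h1
  rw [map_map_phiK] at h2
  exact h2

theorem S_germ (D : Dat m ℂ) (w : Vec m ℂ) {x y x' : ℂ → Vec m ℂ} {a : ℂ → ℂ}
    (hx : ∀ i, AnalyticAt ℂ (fun z => x z i) 0) (hy : ∀ i, AnalyticAt ℂ (fun z => y z i) 0)
    (hx' : ∀ i, AnalyticAt ℂ (fun z => x' z i) 0) (ha : AnalyticAt ℂ a 0)
    (h : ∀ z, x' z = a z • D.S w (x z) (y z)) (i : Fin (m + 2)) :
    gv x' hx' i = gk a ha * (D.map (algebraMap ℂ AK)).S (fun j => algebraMap ℂ AK (w j))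
      (gv x hx) (gv y hy) i := by
  have h1 : vF x' hx' i = (⟨a, ha⟩ : AF) * (D.map (algebraMap ℂ AF)).S
      (fun j => algebraMap ℂ AF (w j)) (vF x hx) (vF y hy) i := by
    refine AF_ext fun z => ?_
    rw [map_mul, ← Dat.map_S, map_map_evz]
    have := congrFun (h z) i
    exact this
  have h2 := congrArg phiK h1
  rw [map_mul, ← Dat.map_S, map_map_phiK] at h2
  have h3 : (fun j => phiK (algebraMap ℂ AF (w j))) = fun j => algebraMap ℂ AK (w j) :=
    funext fun j => RingHom.congr_fun phiK_algebraMap (w j)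
  rw [h3] at h2
  exact h2

theorem indep_germ {x x' : ℂ → Vec m ℂ} (hx : ∀ i, AnalyticAt ℂ (fun z => x z i) 0)
    (hx' : ∀ i, AnalyticAt ℂ (fun z => x' z i) 0) {i j : Fin (m + 2)}
    (h : ¬ ∀ᶠ z in 𝓝 (0 : ℂ), x z i * x' z j = x z j * x' z i) :
    Indep (gv x hx) (gv x' hx') := by
  refine ⟨i, j, fun he => h ?_⟩
  have h1 : gk (fun z => x z i * x' z j) ((hx i).mul (hx' j)) =
      gk (fun z => x z j * x' z i) ((hx j).mul (hx' i)) := by
    have e1 : ∀ p q : AF, phiK p * phiK q = phiK (p * q) := fun p q => (map_mul phiK p q).symm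
    have e2 : phiK (vF x hx i) * phiK (vF x' hx' j) = phiK (vF x hx j) * phiK (vF x' hx' i) := he
    rw [e1, e1] at e2
    exact e2
  exact (gk_eq_iff _ _).1 h1

/-- the derivative of the `2 × 2` minors of `x(z), x(λ z)` -/
theorem not_eventually_minor {x : ℂ → Vec m ℂ} (hx : Differentiable ℂ x) {lam : ℂ}
    (hlam : 1 < ‖lam‖) {i j : Fin (m + 2)}
    (h : x 0 i * deriv x 0 j ≠ x 0 j * deriv x 0 i) :
    ¬ ∀ᶠ z in 𝓝 (0 : ℂ), x z i * x (lam * z) j = x z j * x (lam * z) i := by
  intro he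
  have hd : ∀ l, HasDerivAt (fun z => x z l) (deriv x 0 l) 0 := fun l =>
    (hasDerivAt_pi.1 (hx 0).hasDerivAt) l
  have hl : HasDerivAt (fun z : ℂ => lam * z) lam 0 := by
    simpa using (hasDerivAt_id (0 : ℂ)).const_mul lam
  have hd' : ∀ l, HasDerivAt (fun z => x (lam * z) l) (deriv x 0 l * lam) 0 := by
    intro l
    have h1 : HasDerivAt (fun z => x z l) (deriv x 0 l) (lam * 0) := by
      rw [mul_zero]
      exact hd l
    exact h1.comp 0 hl
  have e1 : HasDerivAt (fun z => x z i * x (lam * z) j - x z j * x (lam * z) i)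
      (deriv x 0 i * x (lam * 0) j + x 0 i * (deriv x 0 j * lam) -
        (deriv x 0 j * x (lam * 0) i + x 0 j * (deriv x 0 i * lam))) 0 :=
    ((hd i).mul (hd' j)).sub ((hd j).mul (hd' i))
  have e2 : HasDerivAt (fun z => x z i * x (lam * z) j - x z j * x (lam * z) i) 0 0 := by
    refine (hasDerivAt_const (0 : ℂ) (0 : ℂ)).congr_of_eventuallyEq ?_
    filter_upwards [he] with z hz
    rw [hz, sub_self]
  have e3 := e1.unique e2
  rw [mul_zero] at e3
  have e4 : (lam - 1) * (x 0 i * deriv x 0 j - x 0 j * deriv x 0 i) = 0 := by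
    refine Eq.trans ?_ e3
    ring
  have e5 : lam - 1 ≠ 0 := by
    intro h1
    rw [sub_eq_zero.1 h1] at hlam
    simp at hlam
  rcases mul_eq_zero.1 e4 with h1 | h1
  · exact e5 h1
  · exact h (sub_eq_zero.1 h1)

/-- from the key identity to the form of `Orb` -/
theorem orb_E {K : Type*} [Field K] [CharZero K] {D : Dat m K} (hD : D.Symm) {w X Y X' : Vec m K}
    {c : K} (hin : D.In X Y) (hX' : ∀ i, X' i = c * D.S w X Y i)
    (hne : ∃ i, X i * X' i ≠ 0) :
    ∃ α : K, α ≠ 0 ∧ ∀ i j, D.E Y i j = α * (X i * X' j + X j * X' i) := by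
  have key : ∀ i j, 2 * c * (w ⬝ᵥ X) ^ 2 * D.E Y i j = X i * X' j + X j * X' i := by
    intro i j
    have h := hD.key hin w i j
    rw [hX', hX']
    calc 2 * c * (w ⬝ᵥ X) ^ 2 * D.E Y i j = c * (2 * (w ⬝ᵥ X) ^ 2 * D.E Y i j) := by ring
      _ = c * (X i * D.S w X Y j + X j * D.S w X Y i) := by rw [h]
      _ = X i * (c * D.S w X Y j) + X j * (c * D.S w X Y i) := by ring
  obtain ⟨i, hi⟩ := hne
  have hc : 2 * c * (w ⬝ᵥ X) ^ 2 ≠ 0 := by
    intro h0
    have h := key i i
    rw [h0, zero_mul, ← two_mul] at h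
    rcases mul_eq_zero.1 h.symm with h1 | h1
    · exact two_ne_zero h1
    · exact hi h1
  refine ⟨(2 * c * (w ⬝ᵥ X) ^ 2)⁻¹, inv_ne_zero hc, fun i j => ?_⟩
  rw [← key i j, inv_mul_cancel_left₀ hc]

/-- PIECE [OCA].  The germs of the curve form an orbit in the sense of `Orb`.

Proof.  `σ` is given by `exists_sigma`, so `σ (gv x) = gv (x (λ ·))`.
`hin`: pointwise `In` (`Curve.mem`) gives `In` in the ring `AF` (apply `map_A`, `map_B` to the evaluations
`AF → ℂ` at the points `z`), then in `AK` by `map_In`.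
`fx` gives `σ X = a S w X Y` in `AK` (again by `map_S` and evaluations; `w` is constant), so `Symm.key` gives
`2 a (w·X)^2 E(Y) = X ⊗ σX + σX ⊗ X`; here `a ≠ 0` (`a0`) and `w·X ≠ 0` because the right side is not zero
(`X_i σX_j + X_j σX_i = 0` for all `i, j` would give `X = 0` or `σX = 0`).
`(σX, Y)` satisfies `In` (pointwise from `A_S`, `B_S` and `fx`), and `fy` together with `Symm.key` for `D.swap` gives
`2 b (w'·Y)^2 E'(σX) = Y ⊗ σY + σY ⊗ Y`.
`indx`: the derivative at `0` of `x_i(z) x_j(λ z) - x_j(z) x_i(λ z)` is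
`(λ - 1)(x₀_i x'_j(0) - x₀_j x'_i(0))`, nonzero for suitable `i, j` by `ix`.  Same for `indy`. -/
theorem Curve.exists_orb {D : Dat m ℂ} (hD : D.Symm) {w w' x₀ y₀ : Vec m ℂ} {lam : ℂ}
    {x y : ℂ → Vec m ℂ} {a b : ℂ → ℂ} (h : Curve D w w' x₀ y₀ lam x y a b)
    (hin : D.In x₀ y₀) : ∃ σ : AK ≃ₐ[ℂ] AK,
      Orb D σ (gv x (analyticAt_comp h.dx)) (gv y (analyticAt_comp h.dy)) := by
  have hl0 : lam ≠ 0 := by
    intro h0
    have := h.hlam
    rw [h0, norm_zero] at this
    exact absurd this (by norm_num)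
  obtain ⟨σ, hσ⟩ := exists_sigma hl0
  have hmem := h.mem hD hin
  have hxl : Differentiable ℂ (fun z => x (lam * z)) :=
    h.dx.comp ((differentiable_const lam).mul differentiable_id)
  have hyl : Differentiable ℂ (fun z => y (lam * z)) :=
    h.dy.comp ((differentiable_const lam).mul differentiable_id)
  set X := gv x (analyticAt_comp h.dx) with hX
  set Y := gv y (analyticAt_comp h.dy) with hY
  have sx : (fun l => σ (X l)) = gv (fun z => x (lam * z)) (analyticAt_comp hxl) :=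
    funext fun l => hσ _ _ _
  have sy : (fun l => σ (Y l)) = gv (fun z => y (lam * z)) (analyticAt_comp hyl) :=
    funext fun l => hσ _ _ _
  have hinl : ∀ z, D.In (x (lam * z)) (y z) := by
    intro z
    have h1 := hD.In_S (w := w) (hmem z)
    rw [h.fx z]
    refine ⟨fun i => ?_, ?_⟩
    · rw [Dat.A_smul_left, h1.1 i, mul_zero]
    · rw [Dat.B_smul₁, hD.B_smul₂, h1.2, mul_zero, mul_zero]
  have indx : Indep X (fun l => σ (X l)) := by
    rw [sx]
    obtain ⟨i, j, hij⟩ := h.ix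
    refine indep_germ _ _ (i := i) (j := j) (not_eventually_minor h.dx h.hlam ?_)
    rw [h.x0]
    exact hij
  have indy : Indep Y (fun l => σ (Y l)) := by
    rw [sy]
    obtain ⟨i, j, hij⟩ := h.iy
    refine indep_germ _ _ (i := i) (j := j) (not_eventually_minor h.dy h.hlam ?_)
    rw [h.y0]
    exact hij
  have ne_of_indep : ∀ Z : Vec m AK, Indep Z (fun l => σ (Z l)) → ∃ i, Z i * σ (Z i) ≠ 0 := by
    intro Z hZ
    by_contra hcon
    push Not at hcon
    have hz : ∀ i, Z i = 0 := by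
      intro i
      rcases mul_eq_zero.1 (hcon i) with h1 | h1
      · exact h1
      · exact (map_eq_zero_iff σ σ.injective).1 h1
    obtain ⟨i, j, hij⟩ := hZ
    apply hij
    rw [hz i, hz j, zero_mul, zero_mul]
  have hDK : (D.map (algebraMap ℂ AK)).Symm := hD.map _
  have hinK : (D.map (algebraMap ℂ AK)).In X Y := In_germ _ _ hmem
  have hinK' : (D.map (algebraMap ℂ AK)).In (fun l => σ (X l)) Y := by
    rw [sx]
    exact In_germ _ _ hinl
  refine ⟨σ, hinK, ?_, ?_, indx, indy⟩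
  · refine orb_E (X' := fun l => σ (X l)) hDK (w := fun j => algebraMap ℂ AK (w j))
      (c := gk a (h.da.analyticAt 0)) hinK ?_ (ne_of_indep X indx)
    intro i
    have h1 : σ (X i) = gv (fun z => x (lam * z)) (analyticAt_comp hxl) i := congrFun sx i
    rw [h1]
    exact S_germ D w (analyticAt_comp h.dx) (analyticAt_comp h.dy) (analyticAt_comp hxl)
      (h.da.analyticAt 0) h.fx i
  · have hinS : (D.swap.map (algebraMap ℂ AK)).In Y (fun l => σ (X l)) :=
      ((D.map (algebraMap ℂ AK)).swap_In (fun l => σ (X l)) Y).2 hinK'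
    refine orb_E (X' := fun l => σ (Y l)) (hD.swap.map _) (w := fun j => algebraMap ℂ AK (w' j))
      (c := gk b (h.db.analyticAt 0)) hinS ?_ (ne_of_indep Y indy)
    intro i
    have h1 : σ (Y i) = gv (fun z => y (lam * z)) (analyticAt_comp hyl) i := congrFun sy i
    rw [h1, sx]
    exact S_germ D.swap w' (analyticAt_comp h.dy) (analyticAt_comp hxl) (analyticAt_comp hyl)
      (h.db.analyticAt 0) h.fy i

end Pool.Agent.MP_1209e6_cy
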