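import Pool.Agent.Lib_MP_1209e6_cy.NoRel

/-!
# From a countable ground field to the complex numbers
-/

open Matrix MvPolynomial

namespace Pool.Agent.MP_1209e6_cy

variable {m : ℕ}

/-- the coefficients of `D` lie in `k` -/
structure Dat.Over (D : Dat m ℂ) (k : IntermediateField ℚ ℂ) : Prop where
  a : ∀ i j l, D.a i j l ∈ k
  b : ∀ j l p q, D.b j l p q ∈ k

theorem Dat.Over.mono {D : Dat m ℂ} {k k' : IntermediateField ℚ ℂ} (h : D.Over k) (hk : k ≤ k') :
    D.Over k' := ⟨fun i j l => hk (h.a i j l), fun j l p q => hk (h.b j l p q)⟩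

/-- descent of the data -/
def Dat.Over.desc {D : Dat m ℂ} {k : IntermediateField ℚ ℂ} (h : D.Over k) : Dat m k :=
  ⟨fun i j l => ⟨D.a i j l, h.a i j l⟩, fun j l p q => ⟨D.b j l p q, h.b j l p q⟩⟩

theorem Dat.Over.desc_map {D : Dat m ℂ} {k : IntermediateField ℚ ℂ} (h : D.Over k) :
    h.desc.map (algebraMap k ℂ) = D := rfl

theorem Dat.Over.swap {D : Dat m ℂ} {k : IntermediateField ℚ ℂ} (h : D.Over k) :
    D.swap.Over k := ⟨fun i j l => h.a i l j, fun j l p q => h.b p q j l⟩

theorem Dat.Over.desc_symm {D : Dat m ℂ} {k : IntermediateField ℚ ℂ} (h : D.Over k)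
    (hD : D.Symm) : h.desc.Symm := by
  refine ⟨fun j l p q => ?_, fun j l p q => ?_⟩
  · exact Subtype.ext (hD.left j l p q)
  · exact Subtype.ext (hD.right j l p q)

variable {K : Type} [Field K] [CharZero K] [Algebra ℂ K]

theorem no_rel_over (hm : 1 ≤ m) {D : Dat m ℂ} (hD : D.Symm) (hS : SmallE D) (hS' : SmallE D.swap)
    {σ : K ≃ₐ[ℂ] K} {x y : Vec m K} (hO : Orb D σ x y) (k : IntermediateField ℚ ℂ) (hk : D.Over k)
    (htr : (m : Cardinal) ≤ tr k x) (d : ℕ)
    (p : MvPolynomial (Fin (m + 2)) k) (hp : p.IsHomogeneous d) (hpx : aeval x p = 0) : p = 0 := by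
  have hO' : Orb hk.desc (σ.restrictScalars k) x y := by
    refine Orb.restrict (k := k) (k' := ℂ) (D := hk.desc) (σ := σ) ?_
    rw [hk.desc_map]
    exact hO
  exact no_rel (Ω := ℂ) hm (hk.desc_symm hD) (by rw [hk.desc_map]; exact hS)
    (by
      have : hk.desc.swap.map (algebraMap k ℂ) = D.swap := rfl
      rw [this]; exact hS') hO' htr d p hp hpx

theorem tower_step (hm : 1 ≤ m) {D : Dat m ℂ} (hD : D.Symm) (hS : SmallE D) (hS' : SmallE D.swap)
    {σ : K ≃ₐ[ℂ] K} {x y : Vec m K} (hO : Orb D σ x y) (k : IntermediateField ℚ ℂ) (hk : D.Over k)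
    (htr : (m : Cardinal) ≤ tr k x) (t : ℂ) :
    (m : Cardinal) ≤ tr (IntermediateField.restrictScalars ℚ (IntermediateField.adjoin k {t})) x := by
  have h1 : ((m + 1 : ℕ) : Cardinal) ≤ tr k x := le_tr_of_no_rel (n := m + 1) x
    (fun d p hp hpx => no_rel_over hm hD hS hS' hO k hk htr d p hp hpx)
  set F : IntermediateField k ℂ := IntermediateField.adjoin k {t} with hF
  have htF : t ∈ F := IntermediateField.mem_adjoin_simple_self k t
  have : IsScalarTower k F K := by
    refine IsScalarTower.of_algebraMap_eq (fun z => ?_)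
    rfl
  have ht : IntermediateField.adjoin k {(⟨t, htF⟩ : F)} = ⊤ := by
    apply IntermediateField.lift_injective F
    rw [IntermediateField.lift_adjoin_simple, IntermediateField.lift_top]
  exact le_tr_adjoin (k := k) (k' := F) (⟨t, htF⟩ : F) ht x h1

theorem tower (hm : 1 ≤ m) {D : Dat m ℂ} (hD : D.Symm) (hS : SmallE D) (hS' : SmallE D.swap)
    {σ : K ≃ₐ[ℂ] K} {x y : Vec m K} (hO : Orb D σ x y) (k : IntermediateField ℚ ℂ) (hk : D.Over k)
    (htr : (m : Cardinal) ≤ tr k x) (s : Finset ℂ) :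
    ∃ k' : IntermediateField ℚ ℂ, k ≤ k' ∧ (∀ t ∈ s, t ∈ k') ∧ (m : Cardinal) ≤ tr k' x := by
  induction s using Finset.induction_on with
  | empty => exact ⟨k, le_rfl, by simp, htr⟩
  | insert t s _ ih =>
    obtain ⟨k', hkk', hs, htr'⟩ := ih
    refine ⟨IntermediateField.restrictScalars ℚ (IntermediateField.adjoin k' {t}), ?_, ?_,
      tower_step hm hD hS hS' hO k' (hk.mono hkk') htr' t⟩
    · intro z hz
      have : algebraMap k' ℂ ⟨z, hkk' hz⟩ ∈ IntermediateField.adjoin k' {t} :=
        IntermediateField.algebraMap_mem _ _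
      exact this
    · intro u hu
      rw [Finset.mem_insert] at hu
      rcases hu with rfl | hu
      · exact IntermediateField.mem_adjoin_simple_self k' u
      · have : algebraMap k' ℂ ⟨u, hs u hu⟩ ∈ IntermediateField.adjoin k' {t} :=
          IntermediateField.algebraMap_mem _ _
        exact this

/-- There is no homogeneous relation over the complex numbers. -/
theorem no_rel_complex (hm : 1 ≤ m) {D : Dat m ℂ} (hD : D.Symm) (hS : SmallE D)
    (hS' : SmallE D.swap) {σ : K ≃ₐ[ℂ] K} {x y : Vec m K} (hO : Orb D σ x y)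
    (k : IntermediateField ℚ ℂ) (hk : D.Over k) (htr : (m : Cardinal) ≤ tr k x) (d : ℕ)
    (p : MvPolynomial (Fin (m + 2)) ℂ) (hp : p.IsHomogeneous d) (hpx : aeval x p = 0) : p = 0 := by
  obtain ⟨k', hkk', hs, htr'⟩ := tower hm hD hS hS' hO k hk htr (p.support.image fun s => p.coeff s)
  have hc : ∀ s, p.coeff s ∈ k' := by
    intro s
    by_cases h : s ∈ p.support
    · exact hs _ (Finset.mem_image_of_mem _ h)
    · rw [notMem_support_iff.1 h]
      exact zero_mem k'
  have hex : ∃ q : MvPolynomial (Fin (m + 2)) k', MvPolynomial.map (algebraMap k' ℂ) q = p := by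
    have : p ∈ Set.range (MvPolynomial.map (algebraMap k' ℂ)) := by
      rw [MvPolynomial.mem_range_map_iff_coeffs_subset]
      intro c hc'
      rw [Finset.mem_coe, MvPolynomial.mem_coeffs_iff] at hc'
      obtain ⟨s, _, rfl⟩ := hc'
      exact ⟨⟨_, hc s⟩, rfl⟩
    exact this
  obtain ⟨q, rfl⟩ := hex
  have hinj : Function.Injective (algebraMap k' ℂ) := (algebraMap k' ℂ).injective
  have hq : q.IsHomogeneous d := by
    intro s hs
    apply hp
    rw [MvPolynomial.coeff_map]
    intro h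
    exact hs ((map_eq_zero_iff _ hinj).1 h)
  have hqx : aeval x q = 0 := by
    rw [MvPolynomial.aeval_map_algebraMap] at hpx
    exact hpx
  rw [no_rel_over hm hD hS hS' hO k' (hk.mono hkk') htr' d q hq hqx, map_zero]

end Pool.Agent.MP_1209e6_cy
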