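import Mathlib

/-!
PIECE [TEA] (MP_1209e6_ag).  One more independent element.
-/

open MvPolynomial

namespace Pool.Agent.MP_1209e6_cy

/-- PIECE [TEA].  Elements `f_j` of a domain `O` whose images under `ev : O → Ω` are algebraically
independent, together with a nonzero element `h` of the kernel, are algebraically independent.

Proof.  Suppose `P(f, h) = 0` with `P = ∑ P_i(T) H^i ≠ 0` of minimal degree in `H` (write a nonzero
`P` as a polynomial in `H` over `k[T]`, `MvPolynomial.optionEquivLeft`).  If `P_0 = 0` divide by `H`
(`h ≠ 0`, `O` a domain).  Otherwise apply `ev`: `P_0(ev f) = 0`, so `P_0 = 0`. -/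
theorem algebraicIndependent_option {k O Ω ι : Type*} [Field k] [CommRing O] [IsDomain O]
    [Algebra k O] [Field Ω] [Algebra k Ω] (ev : O →ₐ[k] Ω) (f : ι → O)
    (hf : AlgebraicIndependent k (fun j => ev (f j))) {h : O} (h0 : h ≠ 0) (hev : ev h = 0) :
    AlgebraicIndependent k (fun o : Option ι => o.elim h f) := by
  have hf' : AlgebraicIndependent k f := AlgebraicIndependent.of_comp ev hf
  rw [hf'.option_iff_transcendental]
  -- `ev` is injective on the algebra generated by the `f j`
  have hinj : ∀ c : Algebra.adjoin k (Set.range f), ev (c : O) = 0 → c = 0 := by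
    intro c hc
    obtain ⟨p, hp⟩ := hf'.aevalEquiv.surjective c
    have h1 : (c : O) = MvPolynomial.aeval f p := by
      rw [← hp]
      exact hf'.algebraMap_aevalEquiv p
    have h2 : MvPolynomial.aeval (fun j => ev (f j)) p = 0 := by
      have h3 : MvPolynomial.aeval (fun j => ev (f j)) p = ev (MvPolynomial.aeval f p) := by
        rw [← MvPolynomial.comp_aeval_apply]
      rw [h3, ← h1, hc]
    have h4 : p = 0 := hf.eq_zero_of_aeval_eq_zero p h2
    rw [← hp, h4, map_zero]
  -- no nonzero polynomial vanishes at `h`, by induction on the degree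
  have key : ∀ (n : ℕ) (p : Polynomial (Algebra.adjoin k (Set.range f))), p.natDegree ≤ n →
      Polynomial.aeval h p = 0 → p = 0 := by
    intro n
    induction n with
    | zero =>
      intro p hp h1
      rw [Polynomial.eq_C_of_natDegree_le_zero hp] at h1 ⊢
      rw [Polynomial.aeval_C] at h1
      have h2 : p.coeff 0 = 0 := Subtype.ext h1
      rw [h2, map_zero]
    | succ n ih =>
      intro p hp h1
      have h2 : p.coeff 0 = 0 := by
        apply hinj
        have h3 := congrArg ev h1
        rw [← Polynomial.divX_mul_X_add p] at h3
        simp only [map_add, map_mul, Polynomial.aeval_X, hev, mul_zero, zero_add,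
          Polynomial.aeval_C, map_zero] at h3
        exact h3
      have h3 : p = p.divX * Polynomial.X := by
        conv_lhs => rw [← Polynomial.divX_mul_X_add p]
        rw [h2, map_zero, add_zero]
      have h4 : Polynomial.aeval h p.divX = 0 := by
        rw [h3, map_mul, Polynomial.aeval_X] at h1
        exact (mul_eq_zero.mp h1).resolve_right h0
      have h5 : p.divX = 0 := by
        apply ih _ _ h4
        rw [Polynomial.natDegree_divX_eq_natDegree_tsub_one]
        omega
      rw [h3, h5, zero_mul]
  rw [transcendental_iff]
  intro p hp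
  exact key p.natDegree p le_rfl hp

end Pool.Agent.MP_1209e6_cy
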