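import Pool.Agent.Lib_MP_1209e6_cy.Tr
import Pool.Agent.Lib_MP_1209e6_cy.TrBaseA

/-!
PIECE [TEB] (MP_1209e6_ag).  Transcendence degree of a generic curve.
-/

open MvPolynomial

namespace Pool.Agent.MP_1209e6_cy

/-- PIECE [TEB].  The transcendence degree of a curve through a point of transcendence degree
`m - 1`, along which some polynomial vanishes at the point but not identically.

Proof.  The coordinates of `x, y` in `J` and `h = p(x, y)` are `m` algebraically independent elements
([TEA]) of `F' = k(x_i, y_j) ⊆ K`; `F'` is algebraic over `rf k x` (`hquad`; note `x_i = x_i / x_{i₀}`,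
`y_j = y_j / y_{j₀}`), so `m ≤ trdeg_k F' = tr k x`. -/
theorem le_tr_base {k O K Ω : Type*} {N m : ℕ} [Field k] [CommRing O] [IsDomain O]
    [Algebra k O] [Field K] [Algebra O K] [IsFractionRing O K] [Algebra k K] [IsScalarTower k O K]
    [Field Ω] [Algebra k Ω] (ev : O →ₐ[k] Ω) (x y : Fin N → O) {i₀ j₀ : Fin N}
    (hx : x i₀ = 1) (hy : y j₀ = 1) (J : Finset (Fin N ⊕ Fin N)) (hJ : J.card + 1 = m)
    (hind : AlgebraicIndependent k (fun j : J => ev (Sum.elim x y j)))
    (p : MvPolynomial (Fin N ⊕ Fin N) k) (hp0 : aeval (Sum.elim x y) p ≠ 0)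
    (hp1 : ev (aeval (Sum.elim x y) p) = 0)
    (hquad : ∀ j, IsAlgebraic (rf k (fun i => algebraMap O K (x i))) (algebraMap O K (y j))) :
    (m : Cardinal) ≤ tr k (fun i => algebraMap O K (x i)) := by
  classical
  have hOK : Function.Injective (algebraMap O K) := IsFractionRing.injective O K
  -- the independent family in `O`
  have h1 := algebraicIndependent_option ev (fun j : J => Sum.elim x y (j : Fin N ⊕ Fin N)) hind
    hp0 hp1
  -- in `K`
  let φ : O →ₐ[k] K := IsScalarTower.toAlgHom k O K
  have hφ : Function.Injective φ := hOK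
  have h2 : AlgebraicIndependent k (fun o : Option J => φ (o.elim (aeval (Sum.elim x y) p)
      (fun j : J => Sum.elim x y (j : Fin N ⊕ Fin N)))) := h1.map' hφ
  -- the algebraic closure of `rf` in `K`
  set E : IntermediateField k K := rf k (fun i => algebraMap O K (x i)) with hE
  let A : IntermediateField E K := algebraicClosure E K
  have hxE : ∀ i, algebraMap O K (x i) ∈ E := by
    intro i
    have h3 : algebraMap O K (x i₀) ≠ 0 := by
      rw [hx, map_one]
      exact one_ne_zero
    have h4 := ratio_mem (k := k) (fun i => algebraMap O K (x i)) (i := i) (j := i₀) h3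
    simp only [hx, map_one, div_one] at h4
    exact h4
  have hxA : ∀ i, algebraMap O K (x i) ∈ A := by
    intro i
    exact A.algebraMap_mem ⟨_, hxE i⟩
  have hyA : ∀ j, algebraMap O K (y j) ∈ A := by
    intro j
    exact (mem_algebraicClosure_iff).2 (hquad j)
  let A' : IntermediateField k K := A.restrictScalars k
  have hxyA : ∀ s : Fin N ⊕ Fin N, φ (Sum.elim x y s) ∈ A' := by
    rintro (i | j)
    · exact hxA i
    · exact hyA j
  have hhA : φ (aeval (Sum.elim x y) p) ∈ A' := by
    have h5 : φ (aeval (Sum.elim x y) p) = aeval (fun s => φ (Sum.elim x y s)) p := by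
      rw [← AlgHom.comp_apply, MvPolynomial.comp_aeval]
    rw [h5]
    have h6 : aeval (fun s => φ (Sum.elim x y s)) p
        = A'.val (aeval (fun s => (⟨φ (Sum.elim x y s), hxyA s⟩ : A')) p) := by
      rw [← AlgHom.comp_apply, MvPolynomial.comp_aeval]
      rfl
    rw [h6]
    exact (aeval (fun s => (⟨φ (Sum.elim x y s), hxyA s⟩ : A')) p).2
  have hmem : ∀ o : Option J, φ (o.elim (aeval (Sum.elim x y) p)
      (fun j : J => Sum.elim x y (j : Fin N ⊕ Fin N))) ∈ A' := by
    rintro (_ | j)
    · exact hhA
    · exact hxyA _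
  have h7 : AlgebraicIndependent k (fun o : Option J => (⟨_, hmem o⟩ : A')) :=
    AlgebraicIndependent.of_comp A'.val h2
  have h8 := h7.lift_cardinalMk_le_trdeg
  -- the transcendence degree of `A'`
  have h9 : Algebra.trdeg k E + Algebra.trdeg E A = Algebra.trdeg k A := trdeg_add_eq k E
  have h10 : Algebra.trdeg E A = 0 := trdeg_eq_zero
  rw [h10, add_zero] at h9
  have h11 : Algebra.trdeg k A' = Algebra.trdeg k A := rfl
  rw [h11, ← h9] at h8
  have h12 : Cardinal.mk (Option J) = (m : Cardinal) := by
    rw [Cardinal.mk_option, Cardinal.mk_fintype, Fintype.card_coe, ← hJ]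
    push_cast
    rfl
  rw [h12, Cardinal.lift_natCast] at h8
  show (m : Cardinal) ≤ Algebra.trdeg k E
  simpa using h8

end Pool.Agent.MP_1209e6_cy
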