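import Pool.Agent.Lib_MP_1209e6_cy.OrbA
import Pool.Agent.Lib_MP_1209e6_cy.Tower
import Pool.Agent.Lib_MP_1209e6_cy.TrBase

/-!
PIECE [OCB] (MP_1209e6_ag).  The transcendence degree over a field of definition.
-/

open Matrix MvPolynomial Filter Topology

namespace Pool.Agent.MP_1209e6_cy

variable {m : ℕ}

/-- the variables of both factors -/
abbrev OcbS (m : ℕ) := Fin (m + 2) ⊕ Fin (m + 2)

/-- evaluation of functions at a point -/
def ocbEv (z : ℂ) : AF →+* ℂ where
  toFun f := f.1 z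
  map_one' := rfl
  map_mul' _ _ := rfl
  map_zero' := rfl
  map_add' _ _ := rfl

theorem ocb_map_mkO (D : Dat m ℂ) :
    (D.map (algebraMap ℂ AF)).map (mkO : AF →+* AO) = D.map (algebraMap ℂ AO) := by
  exact congrArg₂ Dat.mk (funext fun i => funext fun j => funext fun l => mkO.commutes _)
    (funext fun i => funext fun j => funext fun l => funext fun q => mkO.commutes _)

theorem ocb_map_ev (D : Dat m ℂ) (z : ℂ) : (D.map (algebraMap ℂ AF)).map (ocbEv z) = D := rfl

/-- the vector of germs in the ring of germs -/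
noncomputable def ocbV (x : ℂ → Vec m ℂ) (hx : ∀ i, AnalyticAt ℂ (fun z => x z i) 0) : Vec m AO :=
  fun i => gm (fun z => x z i) (hx i)

theorem ocb_A (D : Dat m ℂ) (i : Fin m) (x y : ℂ → Vec m ℂ)
    (hx : ∀ i, AnalyticAt ℂ (fun z => x z i) 0) (hy : ∀ i, AnalyticAt ℂ (fun z => y z i) 0)
    (h : ∀ᶠ z in 𝓝 (0 : ℂ), D.A i (x z) (y z) = 0) :
    (D.map (algebraMap ℂ AO)).A i (ocbV x hx) (ocbV y hy) = 0 := by
  set X : Vec m AF := fun i => ⟨fun z => x z i, hx i⟩ with hX
  set Y : Vec m AF := fun i => ⟨fun z => y z i, hy i⟩ with hY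
  have h1 := Dat.map_A (D.map (algebraMap ℂ AF)) (mkO : AF →+* AO) i X Y
  rw [ocb_map_mkO] at h1
  refine h1.trans ?_
  refine (mkO_eq_zero_iff _).2 ?_
  filter_upwards [h] with z hz
  have h2 := Dat.map_A (D.map (algebraMap ℂ AF)) (ocbEv z) i X Y
  rw [ocb_map_ev] at h2
  exact h2.symm.trans hz

theorem ocb_B (D : Dat m ℂ) (x y : ℂ → Vec m ℂ)
    (hx : ∀ i, AnalyticAt ℂ (fun z => x z i) 0) (hy : ∀ i, AnalyticAt ℂ (fun z => y z i) 0)
    (h : ∀ᶠ z in 𝓝 (0 : ℂ), D.B (x z) (x z) (y z) (y z) = 0) :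
    (D.map (algebraMap ℂ AO)).B (ocbV x hx) (ocbV x hx) (ocbV y hy) (ocbV y hy) = 0 := by
  set X : Vec m AF := fun i => ⟨fun z => x z i, hx i⟩ with hX
  set Y : Vec m AF := fun i => ⟨fun z => y z i, hy i⟩ with hY
  have h1 := Dat.map_B (D.map (algebraMap ℂ AF)) (mkO : AF →+* AO) X X Y Y
  rw [ocb_map_mkO] at h1
  refine h1.trans ?_
  refine (mkO_eq_zero_iff _).2 ?_
  filter_upwards [h] with z hz
  have h2 := Dat.map_B (D.map (algebraMap ℂ AF)) (ocbEv z) X X Y Y
  rw [ocb_map_ev] at h2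
  exact h2.symm.trans hz

theorem ocb_map_pv {R T : Type*} [CommRing R] [CommRing T] (D : Dat m R) (f : R →+* T)
    (w y : Vec m R) (j : Fin (m + 2)) :
    pv ((D.map f).row fun l => f (y l)) (fun l => f (w l)) j = f (pv (D.row y) w j) := by
  have hr : (D.map f).row (fun l => f (y l)) = fun i l => f (D.row y i l) :=
    funext fun i => Dat.map_row D f y i
  rw [hr]
  exact congrFun (Dat.map_pv (D.row y) f w) j

theorem ocb_map_G {R T : Type*} [CommRing R] [CommRing T] (D : Dat m R) (f : R →+* T)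
    (w x y : Vec m R) :
    (D.map f).B (fun l => f (x l)) (pv ((D.map f).row fun l => f (y l)) (fun l => f (w l)))
      (fun l => f (y l)) (fun l => f (y l)) = f (D.B x (pv (D.row y) w) y y) := by
  have h : pv ((D.map f).row fun l => f (y l)) (fun l => f (w l)) =
      fun l => f (pv (D.row y) w l) := funext fun j => ocb_map_pv D f w y j
  rw [h]
  exact Dat.map_B D f x (pv (D.row y) w) y y

theorem ocb_G (D : Dat m ℂ) (w : Vec m ℂ) (x y : ℂ → Vec m ℂ)
    (hx : ∀ i, AnalyticAt ℂ (fun z => x z i) 0) (hy : ∀ i, AnalyticAt ℂ (fun z => y z i) 0)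
    (h : (D.map (algebraMap ℂ AO)).B (ocbV x hx)
      (pv ((D.map (algebraMap ℂ AO)).row (ocbV y hy)) (fun l => algebraMap ℂ AO (w l)))
      (ocbV y hy) (ocbV y hy) = 0) :
    ∀ᶠ z in 𝓝 (0 : ℂ), D.B (x z) (pv (D.row (y z)) w) (y z) (y z) = 0 := by
  set X : Vec m AF := fun i => ⟨fun z => x z i, hx i⟩ with hX
  set Y : Vec m AF := fun i => ⟨fun z => y z i, hy i⟩ with hY
  set W : Vec m AF := fun i => algebraMap ℂ AF (w i) with hW
  have h1 := ocb_map_G (D.map (algebraMap ℂ AF)) (mkO : AF →+* AO) W X Y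
  rw [ocb_map_mkO] at h1
  have e : (fun l => (mkO : AF →+* AO) (W l)) = fun l => algebraMap ℂ AO (w l) :=
    funext fun l => mkO.commutes _
  rw [e] at h1
  have h3 := (mkO_eq_zero_iff _).1 (h1.symm.trans h)
  filter_upwards [h3] with z hz
  have h2 := ocb_map_G (D.map (algebraMap ℂ AF)) (ocbEv z) W X Y
  rw [ocb_map_ev] at h2
  exact h2.trans hz

theorem ocb_pv_smul {R : Type*} [CommRing R] (r : Fin m → Vec m R) (w : Vec m R) (c : R) :
    pv (fun i => c • r i) w = c ^ m • pv r w := by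
  funext j
  show plu (fun i => c • r i) w (Pi.single j 1) = c ^ m * plu r w (Pi.single j 1)
  unfold plu
  set v : Fin (m + 2) → R := vecCons 1 (vecCons 1 (fun _ : Fin m => c)) with hv
  have h := Matrix.det_mul_column v
    (Matrix.of (vecCons w (vecCons (Pi.single j 1) r) : Fin (m + 2) → Vec m R))
  have hp : ∏ i, v i = c ^ m := by
    rw [Fin.prod_univ_succ, Fin.prod_univ_succ]
    simp [hv]
  rw [hp] at h
  rw [← h]
  congr 1
  ext i l
  refine Fin.cases ?_ (fun i => ?_) i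
  · simp [hv]
  · refine Fin.cases ?_ (fun i => ?_) i
    · simp [hv]
    · simp [hv]

theorem ocb_row_smul {R : Type*} [CommRing R] (D : Dat m R) (c : R) (y : Vec m R) :
    D.row (c • y) = fun i => c • D.row y i := by
  funext i j
  show ∑ l, D.a i j l * (c * y l) = c * ∑ l, D.a i j l * y l
  rw [Finset.mul_sum]
  refine Finset.sum_congr rfl fun l _ => ?_
  ring

/-- homogeneity of `b(x, u_w(y), y, y)` -/
theorem ocb_G_smul {D : Dat m ℂ} (hD : D.Symm) (w x y : Vec m ℂ) (c d : ℂ) :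
    D.B (c • x) (pv (D.row (d • y)) w) (d • y) (d • y) =
      c * d ^ m * d * d * D.B x (pv (D.row y) w) y y := by
  rw [ocb_row_smul, ocb_pv_smul, Dat.B_smul₁, hD.B_smul₂, Dat.B_smul₃, hD.B_smul₄]
  ring

/-- the point `x(λ z)` is not proportional to `x(z)` -/
theorem ocb_not_prop {D : Dat m ℂ} {w w' x₀ y₀ : Vec m ℂ} {lam : ℂ}
    {x y : ℂ → Vec m ℂ} {a b : ℂ → ℂ} (h : Curve D w w' x₀ y₀ lam x y a b)
    (hp : ∀ᶠ z in 𝓝 (0 : ℂ), D.B (x z) (pv (D.row (y z)) w) (y z) (y z) = 0) : False := by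
  have h1 : ∀ᶠ z in 𝓝 (0 : ℂ), ∀ i j, x z i * x (lam * z) j - x z j * x (lam * z) i = 0 := by
    filter_upwards [hp] with z hz i j
    rw [h.fx z, Dat.S_eq, hz]
    simp only [mul_zero, zero_smul, sub_zero, Pi.smul_apply, smul_eq_mul]
    ring
  obtain ⟨i, j, hij⟩ := h.ix
  have hd : ∀ l, HasDerivAt (fun z => x z l) (deriv x 0 l) 0 := fun l =>
    (hasDerivAt_pi.1 (h.dx 0).hasDerivAt) l
  have hd' : ∀ l, HasDerivAt (fun z => x (lam * z) l) (deriv x 0 l * lam) 0 := by
    intro l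
    have e1 : HasDerivAt (fun z : ℂ => lam * z) lam 0 := by
      simpa using (hasDerivAt_id (0 : ℂ)).const_mul lam
    have e2 : HasDerivAt (fun z => x z l) (deriv x 0 l) (lam * 0) := by
      rw [mul_zero]
      exact hd l
    exact HasDerivAt.comp (0 : ℂ) e2 e1
  have h2 := ((hd i).mul (hd' j)).sub ((hd j).mul (hd' i))
  have h3 : HasDerivAt (fun _ : ℂ => (0 : ℂ)) (deriv x 0 i * x (lam * 0) j +
      x 0 i * (deriv x 0 j * lam) - (deriv x 0 j * x (lam * 0) i + x 0 j * (deriv x 0 i * lam)))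
      0 := by
    refine h2.congr_of_eventuallyEq ?_
    filter_upwards [h1] with z hz
    exact (hz i j).symm
  have h4 := h3.unique (hasDerivAt_const (0 : ℂ) (0 : ℂ))
  rw [mul_zero, h.x0] at h4
  have hl : lam - 1 ≠ 0 := by
    intro e
    have := h.hlam
    rw [sub_eq_zero.1 e, norm_one] at this
    exact lt_irrefl _ this
  apply hij
  have h5 : (lam - 1) * (x₀ i * deriv x 0 j - x₀ j * deriv x 0 i) = 0 := by
    linear_combination h4
  exact sub_eq_zero.1 ((mul_eq_zero.1 h5).resolve_left hl)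

/-- PIECE [OCB].  The transcendence degree over a field `k` of definition, if `n - 2 = m - 1` coordinates
of the fixed point are algebraically independent over `k`.

Proof.  Apply `le_tr_base` with `O = AO`, `K = AK`, `Ω = ℂ`, `ev = evO` (restricted to `k`), to the germs of
`x_i / x_{i₀}` and `y_j / y_{j₀}` (`x_{i₀}(0) = 1`, so the germ of `x_{i₀}` is a unit), which take the values
`x₀_i`, `y₀_j` at `0`; `tr` does not change (`tr_smul`).  `p` is the polynomial `b(X, u_w(Y), Y, Y)` with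
coefficients in `k` (`w` has coordinates in `k`); it vanishes at `(x₀, y₀)` by `Sad.hu`.  If it vanished on the germs then
`S w X Y` would be a multiple of `X` and `σ X` (proportional to `S w X Y`, see [OCA]) a multiple of `X`, contrary to
`Orb.indx` (`B(x, u_w(y), y, y)` is homogeneous in `x` and in `y`, so normalising the coordinates does not matter).
`hquad` follows from `isAlgebraic_ratio` (over `k`) with `P_ij = D.swap.EP` (descended to `k`) and
`2 (w'·Y)^2 E'(X) = Y ⊗ S' + S' ⊗ Y`. -/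
theorem Curve.le_tr {D : Dat m ℂ} (hD : D.Symm) {w w' x₀ y₀ : Vec m ℂ} {lam : ℂ}
    {x y : ℂ → Vec m ℂ} {a b : ℂ → ℂ} (h : Curve D w w' x₀ y₀ lam x y a b)
    (hS : Sad D w w' x₀ y₀) (k : IntermediateField ℚ ℂ) (hk : D.Over k) (hw : ∀ i, w i ∈ k)
    {i₀ j₀ : Fin (m + 2)} (hx : x₀ i₀ = 1) (hy : y₀ j₀ = 1)
    (J : Finset (Fin (m + 2) ⊕ Fin (m + 2))) (hJ : J.card + 1 = m)
    (hind : AlgebraicIndependent k (fun j : J => Sum.elim x₀ y₀ j)) :
    (m : Cardinal) ≤ tr k (gv x (analyticAt_comp h.dx)) := by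
  have hxa := analyticAt_comp h.dx
  have hya := analyticAt_comp h.dy
  have hx0 : x 0 i₀ = 1 := by rw [h.x0, hx]
  have hy0 : y 0 j₀ = 1 := by rw [h.y0, hy]
  -- normalised coordinates
  set ξ : ℂ → Vec m ℂ := fun z => (x z i₀)⁻¹ • x z with hξ
  set η : ℂ → Vec m ℂ := fun z => (y z j₀)⁻¹ • y z with hη
  have hξa : ∀ i, AnalyticAt ℂ (fun z => ξ z i) 0 := fun i =>
    ((hxa i₀).inv (by rw [hx0]; exact one_ne_zero)).mul (hxa i)
  have hηa : ∀ i, AnalyticAt ℂ (fun z => η z i) 0 := fun i =>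
    ((hya j₀).inv (by rw [hy0]; exact one_ne_zero)).mul (hya i)
  have hxne : ∀ᶠ z in 𝓝 (0 : ℂ), x z i₀ ≠ 0 :=
    (hxa i₀).continuousAt.eventually_ne (by rw [hx0]; exact one_ne_zero)
  have hyne : ∀ᶠ z in 𝓝 (0 : ℂ), y z j₀ ≠ 0 :=
    (hya j₀).continuousAt.eventually_ne (by rw [hy0]; exact one_ne_zero)
  set Ξ : Vec m AO := ocbV ξ hξa with hΞ
  set Η : Vec m AO := ocbV η hηa with hΗ
  have hΞ1 : Ξ i₀ = 1 := by
    have : (1 : AO) = gm (fun _ => 1) analyticAt_const := rfl
    rw [this]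
    refine (gm_eq_iff _ _).2 ?_
    filter_upwards [hxne] with z hz
    exact inv_mul_cancel₀ hz
  have hΗ1 : Η j₀ = 1 := by
    have : (1 : AO) = gm (fun _ => 1) analyticAt_const := rfl
    rw [this]
    refine (gm_eq_iff _ _).2 ?_
    filter_upwards [hyne] with z hz
    exact inv_mul_cancel₀ hz
  have hΞev : ∀ i, evO (Ξ i) = x₀ i := by
    intro i
    show (x 0 i₀)⁻¹ * x 0 i = x₀ i
    rw [hx0, h.x0, inv_one, one_mul]
  have hΗev : ∀ i, evO (Η i) = y₀ i := by
    intro i
    show (y 0 j₀)⁻¹ * y 0 i = y₀ i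
    rw [hy0, h.y0, inv_one, one_mul]
  -- the transcendence degree does not change
  have htr : tr k (gv x hxa) = tr k (fun i => algebraMap AO AK (Ξ i)) := by
    have hc : gk (fun z => x z i₀) (hxa i₀) ≠ 0 := by
      intro h0
      have := ((gk_eq_zero_iff _).1 h0).self_of_nhds
      rw [hx0] at this
      exact one_ne_zero this
    have he : gv x hxa = gk (fun z => x z i₀) (hxa i₀) • (fun i => algebraMap AO AK (Ξ i)) := by
      funext i
      show algebraMap AO AK (gm (fun z => x z i) (hxa i)) =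
        algebraMap AO AK (gm (fun z => x z i₀) (hxa i₀)) * algebraMap AO AK (Ξ i)
      rw [← map_mul]
      congr 1
      have e : gm (fun z => x z i₀) (hxa i₀) * Ξ i =
          gm (fun z => x z i₀ * ξ z i) ((hxa i₀).mul (hξa i)) := (map_mul mkO _ _).symm
      rw [e]
      refine (gm_eq_iff _ _).2 ?_
      filter_upwards [hxne] with z hz
      show x z i = x z i₀ * ((x z i₀)⁻¹ * x z i)
      rw [← mul_assoc, mul_inv_cancel₀ hz, one_mul]
    rw [he, tr_smul _ hc]
  rw [htr]
  -- the points of X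
  have hmem := h.mem hD hS.hin
  have hscale : ∀ z, D.In (ξ z) (η z) := by
    intro z
    refine ⟨fun i => ?_, ?_⟩
    · show D.A i ((x z i₀)⁻¹ • x z) ((y z j₀)⁻¹ • y z) = 0
      rw [Dat.A_smul_left, Dat.A_smul_right, (hmem z).1 i, mul_zero, mul_zero]
    · show D.B ((x z i₀)⁻¹ • x z) ((x z i₀)⁻¹ • x z) ((y z j₀)⁻¹ • y z) ((y z j₀)⁻¹ • y z) = 0
      rw [Dat.B_smul₁, hD.B_smul₂, Dat.B_smul₃, hD.B_smul₄, (hmem z).2]
      ring
  have hinO : (D.map (algebraMap ℂ AO)).In Ξ Η :=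
    ⟨fun i => ocb_A D i ξ η hξa hηa (Eventually.of_forall fun z => (hscale z).1 i),
      ocb_B D ξ η hξa hηa (Eventually.of_forall fun z => (hscale z).2)⟩
  have hdesc : hk.desc.map (algebraMap k AO) = D.map (algebraMap ℂ AO) := rfl
  -- the polynomial
  set wk : Vec m k := fun i => ⟨w i, hw i⟩ with hwk
  set DP : Dat m (MvPolynomial (OcbS m) k) := hk.desc.map (C : k →+* MvPolynomial (OcbS m) k) with hDP
  set XX : Vec m (MvPolynomial (OcbS m) k) := fun i => X (Sum.inl i) with hXX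
  set YY : Vec m (MvPolynomial (OcbS m) k) := fun i => X (Sum.inr i) with hYY
  set WW : Vec m (MvPolynomial (OcbS m) k) := fun i => C (wk i) with hWW
  set p : MvPolynomial (OcbS m) k := DP.B XX (pv (DP.row YY) WW) YY YY with hp
  have hpe : ∀ {R : Type} [CommRing R] [Algebra k R] (u v : Vec m R),
      aeval (Sum.elim u v) p = (hk.desc.map (algebraMap k R)).B u
        (pv ((hk.desc.map (algebraMap k R)).row v) (fun l => algebraMap k R (wk l))) v v := by
    intro R _ _ u v
    have h1 := ocb_map_G DP ((aeval (Sum.elim u v) : MvPolynomial (OcbS m) k →ₐ[k] R) :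
      MvPolynomial (OcbS m) k →+* R) WW XX YY
    have e1 : DP.map ((aeval (Sum.elim u v) : MvPolynomial (OcbS m) k →ₐ[k] R) :
        MvPolynomial (OcbS m) k →+* R) = hk.desc.map (algebraMap k R) := by
      rw [hDP]
      unfold Dat.map
      congr 1
      · funext i j l
        exact aeval_C (Sum.elim u v) (hk.desc.a i j l)
      · funext i j l q
        exact aeval_C (Sum.elim u v) (hk.desc.b i j l q)
    rw [e1] at h1
    have e2 : (fun l => ((aeval (Sum.elim u v) : MvPolynomial (OcbS m) k →ₐ[k] R) :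
        MvPolynomial (OcbS m) k →+* R) (XX l)) = u := by
      funext l
      exact aeval_X (Sum.elim u v) (Sum.inl l)
    have e3 : (fun l => ((aeval (Sum.elim u v) : MvPolynomial (OcbS m) k →ₐ[k] R) :
        MvPolynomial (OcbS m) k →+* R) (YY l)) = v := by
      funext l
      exact aeval_X (Sum.elim u v) (Sum.inr l)
    have e4 : (fun l => ((aeval (Sum.elim u v) : MvPolynomial (OcbS m) k →ₐ[k] R) :
        MvPolynomial (OcbS m) k →+* R) (WW l)) = fun l => algebraMap k R (wk l) := by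
      funext l
      exact aeval_C (Sum.elim u v) (wk l)
    rw [e2, e3, e4] at h1
    exact h1.symm
  have hp0 : aeval (Sum.elim Ξ Η) p ≠ 0 := by
    intro h0
    rw [hpe Ξ Η] at h0
    have h1 := ocb_G D w ξ η hξa hηa h0
    refine ocb_not_prop h ?_
    filter_upwards [h1, hxne, hyne] with z hz hz1 hz2
    have h2 := ocb_G_smul hD w (ξ z) (η z) (x z i₀) (y z j₀)
    rw [hz, mul_zero] at h2
    have e1 : x z i₀ • ξ z = x z := by
      show x z i₀ • ((x z i₀)⁻¹ • x z) = x z
      rw [smul_smul, mul_inv_cancel₀ hz1, one_smul]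
    have e2 : y z j₀ • η z = y z := by
      show y z j₀ • ((y z j₀)⁻¹ • y z) = y z
      rw [smul_smul, mul_inv_cancel₀ hz2, one_smul]
    rwa [e1, e2] at h2
  set ev : AO →ₐ[k] ℂ := evO.restrictScalars k with hev
  have hev1 : ∀ i, ev (Ξ i) = x₀ i := hΞev
  have hev2 : ∀ i, ev (Η i) = y₀ i := hΗev
  have hevel : ∀ q : MvPolynomial (OcbS m) k, ev (aeval (Sum.elim Ξ Η) q) = aeval (Sum.elim x₀ y₀) q := by
    intro q
    have e : ev.comp (aeval (Sum.elim Ξ Η)) = aeval (Sum.elim x₀ y₀) := by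
      apply MvPolynomial.algHom_ext
      rintro (i | i)
      · simp only [AlgHom.comp_apply, aeval_X, Sum.elim_inl]
        exact hev1 i
      · simp only [AlgHom.comp_apply, aeval_X, Sum.elim_inr]
        exact hev2 i
    exact DFunLike.congr_fun e q
  have hp1 : ev (aeval (Sum.elim Ξ Η) p) = 0 := by
    rw [hevel, hpe x₀ y₀]
    exact hS.hu
  have hind' : AlgebraicIndependent k (fun j : J => ev (Sum.elim Ξ Η j)) := by
    have e : (fun j : J => ev (Sum.elim Ξ Η j)) = fun j : J => Sum.elim x₀ y₀ j := by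
      funext j
      rcases j with ⟨j | j, hj⟩
      · exact hev1 j
      · exact hev2 j
    rw [e]
    exact hind
  -- the matrix E'
  have hsub : hk.desc.swap.map (algebraMap k AK) = (D.swap.map (algebraMap ℂ AO)).map
      (algebraMap AO AK) := by
    unfold Dat.map
    congr 1
  have hE0 : D.swap.E x₀ j₀ j₀ ≠ 0 := by
    intro h0
    have h1 := hD.swap.key ((Dat.swap_In D x₀ y₀).2 hS.hin) w' j₀ j₀
    rw [h0, hy, mul_zero, one_mul] at h1
    have h2 : D.swap.S w' y₀ x₀ j₀ = D.B x₀ x₀ (pv (D.swap.row x₀) w') (pv (D.swap.row x₀) w') := by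
      unfold Dat.S
      rw [Dat.swap_B, Dat.swap_B, hS.hv, hy]
      ring
    rw [h2] at h1
    apply hS.Qv
    have h3 : (2 : ℂ) * D.B x₀ x₀ (pv (D.swap.row x₀) w') (pv (D.swap.row x₀) w') = 0 := by
      linear_combination -h1
    exact (mul_eq_zero.1 h3).resolve_left two_ne_zero
  have hE1 : (D.swap.map (algebraMap ℂ AO)).E Ξ j₀ j₀ ≠ 0 := by
    intro h0
    have h1 := Dat.map_E (D.swap.map (algebraMap ℂ AO)) (evO : AO →+* ℂ) Ξ j₀ j₀
    rw [h0, map_zero] at h1
    have e1 : (D.swap.map (algebraMap ℂ AO)).map (evO : AO →+* ℂ) = D.swap := by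
      exact congrArg₂ Dat.mk (funext fun i => funext fun j => funext fun l => evO.commutes _)
        (funext fun i => funext fun j => funext fun l => funext fun q => evO.commutes _)
    have e2 : (fun j => (evO : AO →+* ℂ) (Ξ j)) = x₀ := funext hΞev
    rw [e1, e2] at h1
    exact hE0 h1
  set XK : Vec m AK := fun i => algebraMap AO AK (Ξ i) with hXK
  set YK : Vec m AK := fun i => algebraMap AO AK (Η i) with hYK
  set DK : Dat m AK := (D.swap.map (algebraMap ℂ AO)).map (algebraMap AO AK) with hDK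
  have hE2 : DK.E XK j₀ j₀ ≠ 0 := by
    rw [hDK, hXK, Dat.map_E]
    intro h0
    exact hE1 ((map_eq_zero_iff _ (IsFractionRing.injective AO AK)).1 h0)
  have hinK : DK.In YK XK := by
    refine Dat.map_In (algebraMap AO AK) ?_
    have := (Dat.swap_In (D.map (algebraMap ℂ AO)) Ξ Η).2 hinO
    exact this
  have hDKs : DK.Symm := (hD.swap.map _).map _
  have hYK1 : YK j₀ = 1 := by rw [hYK]; simp only [hΗ1, map_one]
  have hkey : ∀ i j, 2 * DK.E XK i j = YK i * DK.S (Pi.single j₀ 1) YK XK j +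
      YK j * DK.S (Pi.single j₀ 1) YK XK i := by
    intro i j
    have h1 := hDKs.key hinK (Pi.single j₀ 1) i j
    rw [single_one_dotProduct, hYK1, one_pow, mul_one] at h1
    exact h1
  refine le_tr_base ev Ξ Η hΞ1 hΗ1 J hJ hind' p hp0 hp1 (fun j => ?_)
  have halg := isAlgebraic_ratio (k := k) XK YK (DK.S (Pi.single j₀ 1) YK XK) (d := 2 * m + 2)
    (fun i j => hk.desc.swap.EP i j) (fun i j => Dat.EP_homog _ i j) (β := 2⁻¹)
    (inv_ne_zero two_ne_zero) (fun i j => by
      rw [Dat.aeval_EP, hsub, ← hkey i j, ← mul_assoc, inv_mul_cancel₀ two_ne_zero, one_mul])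
    (by
      refine ⟨j₀, fun h0 => hE2 ?_⟩
      have h1 := hkey j₀ j₀
      rw [h0, mul_zero, add_zero] at h1
      exact (mul_eq_zero.1 h1).resolve_left two_ne_zero) j j₀ (by rw [hYK1]; exact one_ne_zero)
  rw [hYK1, div_one] at halg
  exact halg

end Pool.Agent.MP_1209e6_cy
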