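import Mathlib

/-!
PIECE [PNA] (MP_1209e6_ag).  Existence of the unstable curve.
-/

open Filter Topology

namespace Pool.Agent.MP_1209e6_cy

section

variable {E : Type*} [NormedAddCommGroup E] [NormedSpace ℂ E]

theorem pna_lip {F : E → E} (hF : ContDiff ℂ 2 F) {c : E} {T : E →L[ℂ] E}
    (hT : HasFDerivAt F T c) {κ : ℝ} (hκ : ‖T‖ < κ) :
    ∃ δ > 0, ∀ a ∈ Metric.ball c δ, ∀ b ∈ Metric.ball c δ, ‖F a - F b‖ ≤ κ * ‖a - b‖ := by
  have hs : HasStrictFDerivAt F T c :=
    (hF.contDiffAt).hasStrictFDerivAt' hT (by norm_num)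
  have hκ0 : 0 ≤ κ := le_trans (norm_nonneg _) hκ.le
  have hk : ‖T‖₊ < (⟨κ, hκ0⟩ : NNReal) := by
    rw [← NNReal.coe_lt_coe]
    exact hκ
  obtain ⟨s, hs1, hs2⟩ := hs.exists_lipschitzOnWith_of_nnnorm_lt _ hk
  obtain ⟨δ, hδ, hb⟩ := Metric.mem_nhds_iff.1 hs1
  refine ⟨δ, hδ, fun a ha b hb' => ?_⟩
  exact hs2.norm_sub_le (hb ha) (hb hb')

theorem pna_quad {F : E → E} (hF : ContDiff ℂ 2 F) {c : E} {T : E →L[ℂ] E}
    (hT : HasFDerivAt F T c) (hc : F c = c) :
    ∃ δ > 0, ∃ C : ℝ, 0 ≤ C ∧ ∀ h : E, ‖h‖ < δ → ‖F (c + h) - c - T h‖ ≤ C * ‖h‖ ^ 2 := by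
  have h1 : ContDiff ℂ 1 (fderiv ℂ F) := hF.fderiv_right (by norm_num)
  obtain ⟨K, t, ht, hlip⟩ := h1.contDiffAt.exists_lipschitzOnWith (x := c)
  obtain ⟨δ, hδ, hb⟩ := Metric.mem_nhds_iff.1 ht
  refine ⟨δ, hδ, K, K.2, fun h hh => ?_⟩
  have hTe : fderiv ℂ F c = T := hT.fderiv
  have hconv : Convex ℝ (Metric.closedBall c ‖h‖) := convex_closedBall _ _
  have hsub : Metric.closedBall c ‖h‖ ⊆ Metric.ball c δ := Metric.closedBall_subset_ball hh
  have key := hconv.norm_image_sub_le_of_norm_hasFDerivWithin_le' (f := F) (f' := fderiv ℂ F)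
    (φ := T) (C := K * ‖h‖) (x := c) (y := c + h) (𝕜 := ℂ)
    (fun x _ => ((hF.differentiable (by norm_num)) x).hasFDerivAt.hasFDerivWithinAt)
    (fun x hx => by
      rw [← hTe]
      have h3 := hlip.norm_sub_le (hb (hsub hx)) (hb (Metric.mem_ball_self hδ))
      refine h3.trans ?_
      apply mul_le_mul_of_nonneg_left _ K.2
      rw [← dist_eq_norm]
      exact hx)
    (Metric.mem_closedBall_self (norm_nonneg _))
    (by rw [Metric.mem_closedBall, dist_eq_norm]; simp)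
  rw [hc] at key
  simp only [add_sub_cancel_left] at key
  rw [sq, ← mul_assoc]
  exact key


/-- the Picard iterates -/
noncomputable def pnaSeq (F : E → E) (c e : E) (lam : ℂ) : ℕ → ℂ → E
  | 0 => fun z => c + z • e
  | k + 1 => fun z => F (pnaSeq F c e lam k (z / lam))

theorem pnaSeq_diff {F : E → E} (hF : Differentiable ℂ F) (c e : E) (lam : ℂ) (k : ℕ) :
    Differentiable ℂ (pnaSeq F c e lam k) := by
  induction k with
  | zero =>
    show Differentiable ℂ (fun z : ℂ => c + z • e)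
    exact (differentiable_id.smul_const e).const_add c
  | succ k ih =>
    show Differentiable ℂ (fun z => F (pnaSeq F c e lam k (z / lam)))
    exact hF.comp (ih.comp (differentiable_id.div_const lam))

theorem pnaSeq_zero {F : E → E} {c : E} (e : E) (lam : ℂ) (hc : F c = c) (k : ℕ) :
    pnaSeq F c e lam k 0 = c := by
  induction k with
  | zero => simp [pnaSeq]
  | succ k ih =>
    show F (pnaSeq F c e lam k (0 / lam)) = c
    rw [zero_div, ih, hc]

/-- the estimates near `0` -/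
theorem pnaSeq_est {F : E → E} (hF : ContDiff ℂ 2 F) {c e : E} {lam : ℂ}
    (hlam : 1 < ‖lam‖) (hc : F c = c) {T : E →L[ℂ] E} (hT : HasFDerivAt F T c)
    (he : T e = lam • e) (hTn : ‖T‖ < ‖lam‖ ^ 2) :
    ∃ r > 0, ∃ C : ℝ, 0 ≤ C ∧ ∃ θ : ℝ, 0 ≤ θ ∧ θ < 1 ∧ ∀ k : ℕ, ∀ z : ℂ, ‖z‖ ≤ r →
      ‖pnaSeq F c e lam (k + 1) z - pnaSeq F c e lam k z‖ ≤ C * ‖z‖ ^ 2 * θ ^ k := by
  obtain ⟨κ, hκ1, hκ2⟩ := exists_between hTn
  have hκ0 : 0 < κ := lt_of_le_of_lt (norm_nonneg _) hκ1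
  have hl0 : 0 < ‖lam‖ := by linarith
  have hl2 : 0 < ‖lam‖ ^ 2 := by positivity
  have hlamne : lam ≠ 0 := norm_pos_iff.1 hl0
  obtain ⟨δ₁, hδ₁, hlip⟩ := pna_lip hF hT hκ1
  obtain ⟨δ₂, hδ₂, C₀, hC₀, hquad⟩ := pna_quad hF hT hc
  set θ : ℝ := κ / ‖lam‖ ^ 2 with hθ
  have hθ0 : 0 ≤ θ := by positivity
  have hθ1 : θ < 1 := by
    rw [hθ, div_lt_one hl2]
    exact hκ2
  set C : ℝ := C₀ * (‖e‖ ^ 2) with hCdef
  have hC : 0 ≤ C := by positivity
  have h1θ : 0 < 1 - θ := by linarith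
  -- the radius
  obtain ⟨r, hr0, hr1, hr2, hr3⟩ : ∃ r : ℝ, 0 < r ∧ r ≤ 1 ∧ r * ‖e‖ < δ₂ ∧
      r * (‖e‖ + C / (1 - θ)) < δ₁ := by
    have hA : 0 ≤ ‖e‖ + C / (1 - θ) := by positivity
    refine ⟨min 1 (min (δ₂ / (‖e‖ + 1)) (δ₁ / (‖e‖ + C / (1 - θ) + 1))), by positivity,
      min_le_left _ _, ?_, ?_⟩
    · have h1 : min 1 (min (δ₂ / (‖e‖ + 1)) (δ₁ / (‖e‖ + C / (1 - θ) + 1))) ≤ δ₂ / (‖e‖ + 1) :=
        (min_le_right _ _).trans (min_le_left _ _)
      have h2 : δ₂ / (‖e‖ + 1) * ‖e‖ < δ₂ := by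
        rw [div_mul_eq_mul_div, div_lt_iff₀ (by positivity)]
        nlinarith [norm_nonneg e]
      exact lt_of_le_of_lt (mul_le_mul_of_nonneg_right h1 (norm_nonneg _)) h2
    · have h1 : min 1 (min (δ₂ / (‖e‖ + 1)) (δ₁ / (‖e‖ + C / (1 - θ) + 1))) ≤
          δ₁ / (‖e‖ + C / (1 - θ) + 1) :=
        (min_le_right _ _).trans (min_le_right _ _)
      have h2 : δ₁ / (‖e‖ + C / (1 - θ) + 1) * (‖e‖ + C / (1 - θ)) < δ₁ := by
        rw [div_mul_eq_mul_div, div_lt_iff₀ (by positivity)]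
        nlinarith
      exact lt_of_le_of_lt (mul_le_mul_of_nonneg_right h1 hA) h2
  refine ⟨r, hr0, C, hC, θ, hθ0, hθ1, ?_⟩
  have hdiv : ∀ z : ℂ, ‖z‖ ≤ r → ‖z / lam‖ ≤ r := by
    intro z hz
    rw [norm_div]
    exact (div_le_self (norm_nonneg _) hlam.le).trans hz
  -- the induction
  have key : ∀ k : ℕ, ∀ z : ℂ, ‖z‖ ≤ r →
      ‖pnaSeq F c e lam k z - pnaSeq F c e lam 0 z‖ ≤
        C * ‖z‖ ^ 2 * ∑ j ∈ Finset.range k, θ ^ j ∧
      ‖pnaSeq F c e lam (k + 1) z - pnaSeq F c e lam k z‖ ≤ C * ‖z‖ ^ 2 * θ ^ k := by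
    -- points stay in the ball
    have hball : ∀ k : ℕ, ∀ z : ℂ, ‖z‖ ≤ r →
        ‖pnaSeq F c e lam k z - pnaSeq F c e lam 0 z‖ ≤
        C * ‖z‖ ^ 2 * ∑ j ∈ Finset.range k, θ ^ j → pnaSeq F c e lam k z ∈ Metric.ball c δ₁ := by
      intro k z hz h
      rw [Metric.mem_ball, dist_eq_norm]
      have hsum : ∑ j ∈ Finset.range k, θ ^ j ≤ 1 / (1 - θ) := by
        rw [one_div, ← tsum_geometric_of_lt_one hθ0 hθ1]
        exact (summable_geometric_of_lt_one hθ0 hθ1).sum_le_tsum _ (fun i _ => pow_nonneg hθ0 i)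
      have h0 : pnaSeq F c e lam 0 z - c = z • e := by
        show (c + z • e) - c = z • e
        abel
      calc ‖pnaSeq F c e lam k z - c‖ = ‖(pnaSeq F c e lam k z - pnaSeq F c e lam 0 z) +
            (pnaSeq F c e lam 0 z - c)‖ := by congr 1; abel
        _ ≤ ‖pnaSeq F c e lam k z - pnaSeq F c e lam 0 z‖ + ‖pnaSeq F c e lam 0 z - c‖ :=
            norm_add_le _ _
        _ ≤ C * ‖z‖ ^ 2 * (1 / (1 - θ)) + ‖z‖ * ‖e‖ := by
            rw [h0, norm_smul]
            apply add_le_add _ le_rfl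
            exact h.trans (mul_le_mul_of_nonneg_left hsum (by positivity))
        _ ≤ C * r * (1 / (1 - θ)) + r * ‖e‖ := by
            have h4 : ‖z‖ ^ 2 ≤ r := by
              have := norm_nonneg z
              nlinarith
            apply add_le_add
            · apply mul_le_mul_of_nonneg_right _ (by positivity)
              exact mul_le_mul_of_nonneg_left h4 hC
            · exact mul_le_mul_of_nonneg_right hz (norm_nonneg _)
        _ = r * (‖e‖ + C / (1 - θ)) := by ring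
        _ < δ₁ := hr3
    intro k
    induction k with
    | zero =>
      intro z hz
      refine ⟨by simp, ?_⟩
      show ‖F (c + (z / lam) • e) - (c + z • e)‖ ≤ C * ‖z‖ ^ 2 * θ ^ 0
      have h5 : ‖(z / lam) • e‖ < δ₂ := by
        rw [norm_smul]
        exact lt_of_le_of_lt (mul_le_mul_of_nonneg_right (hdiv z hz) (norm_nonneg _)) hr2
      have h6 := hquad _ h5
      have h7 : T ((z / lam) • e) = z • e := by
        rw [map_smul, he, smul_smul, div_mul_cancel₀ _ hlamne]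
      rw [h7, sub_sub] at h6
      refine h6.trans ?_
      rw [norm_smul, mul_pow, hCdef, pow_zero, mul_one]
      have h8 : ‖z / lam‖ ^ 2 ≤ ‖z‖ ^ 2 := by
        apply pow_le_pow_left₀ (norm_nonneg _)
        rw [norm_div]
        exact div_le_self (norm_nonneg _) hlam.le
      have h9 : 0 ≤ C₀ * ‖e‖ ^ 2 := by positivity
      nlinarith
    | succ k ih =>
      intro z hz
      have hz' := hdiv z hz
      obtain ⟨ih1, ih2⟩ := ih z hz
      have hstep : ‖pnaSeq F c e lam (k + 1) z - pnaSeq F c e lam 0 z‖ ≤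
          C * ‖z‖ ^ 2 * ∑ j ∈ Finset.range (k + 1), θ ^ j := by
        calc ‖pnaSeq F c e lam (k + 1) z - pnaSeq F c e lam 0 z‖
            = ‖(pnaSeq F c e lam (k + 1) z - pnaSeq F c e lam k z) +
              (pnaSeq F c e lam k z - pnaSeq F c e lam 0 z)‖ := by congr 1; abel
          _ ≤ _ := (norm_add_le _ _).trans (add_le_add ih2 ih1)
          _ = _ := by rw [Finset.sum_range_succ]; ring
      refine ⟨hstep, ?_⟩
      obtain ⟨ih1', ih2'⟩ := ih (z / lam) hz'
      have hb1 : pnaSeq F c e lam k (z / lam) ∈ Metric.ball c δ₁ := hball k _ hz' ih1'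
      have hb2 : pnaSeq F c e lam (k + 1) (z / lam) ∈ Metric.ball c δ₁ := by
        apply hball (k + 1) _ hz'
        calc ‖pnaSeq F c e lam (k + 1) (z / lam) - pnaSeq F c e lam 0 (z / lam)‖
            = ‖(pnaSeq F c e lam (k + 1) (z / lam) - pnaSeq F c e lam k (z / lam)) +
              (pnaSeq F c e lam k (z / lam) - pnaSeq F c e lam 0 (z / lam))‖ := by congr 1; abel
          _ ≤ _ := (norm_add_le _ _).trans (add_le_add ih2' ih1')
          _ = _ := by rw [Finset.sum_range_succ]; ring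
      show ‖F (pnaSeq F c e lam (k + 1) (z / lam)) - F (pnaSeq F c e lam k (z / lam))‖ ≤ _
      refine (hlip _ hb2 _ hb1).trans ?_
      calc κ * ‖pnaSeq F c e lam (k + 1) (z / lam) - pnaSeq F c e lam k (z / lam)‖
          ≤ κ * (C * ‖z / lam‖ ^ 2 * θ ^ k) := mul_le_mul_of_nonneg_left ih2' hκ0.le
        _ = C * ‖z‖ ^ 2 * θ ^ (k + 1) := by
            have hκθ : κ = θ * ‖lam‖ ^ 2 := by
              rw [hθ]
              field_simp
            rw [norm_div, hκθ]
            field_simp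
            ring
  exact fun k z hz => (key k z hz).2

end

variable {E : Type*} [NormedAddCommGroup E] [NormedSpace ℂ E] [CompleteSpace E]

/-- PIECE [PNA].  Existence of the unstable curve when `‖T‖ < |λ|^2`.

Proof.  Put `φ_k(z) = F^k(c + (z / λ^k) e)` (entire).  Choose `κ` with `‖T‖ < κ < |λ|^2` and `δ > 0` such
that `‖F a - F b‖ ≤ κ ‖a - b‖` for `a, b` in the ball `B(c, δ)` (`HasStrictFDerivAt`, since `F` is `C^1`)
and `‖F(c + h) - c - T h‖ ≤ C ‖h‖^2` for `‖h‖ ≤ δ` (`F` is `C^2`).  Let `θ = κ / |λ|^2 < 1`.  Claim: for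
some `r > 0`, all `k` and `|z| ≤ r`: `‖φ_k(z) - c‖ < δ` and `‖φ_{k+1}(z) - φ_k(z)‖ ≤ C' θ^k |z|^2`.
Induction: `φ_{k+1}(z) = F^k(F(c + (z/λ^{k+1}) e))`, `φ_k(z) = F^k(c + (z/λ^k) e)`; the starting
points differ by at most `C ‖e‖^2 |z/λ^{k+1}|^2` since `T e = λ e`; the two orbits under `F^j`, `j < k`,
are `φ_{j+1}(z/λ^{k-j})` and `φ_j(z/λ^{k-j})`, which lie in `B(c, δ)` by induction, so the distance is
multiplied by at most `κ` at each step.  Summing, `‖φ_k(z) - c - z e‖ ≤ C'' |z|^2`, which is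
`< δ - ...` for `r` small.  Hence `φ_k` converges uniformly on `|z| ≤ r` to `φ`, holomorphic on
`|z| < r`, with `φ(0) = c`, `‖φ(z) - c - z e‖ ≤ C'' |z|^2`.  Since `φ_{k+1}(λ z) = F(φ_k(z))`, the
sequence converges at every point of `ℂ` (`φ_{k+j}(λ^j z) = F^j(φ_k(z))`), the limit satisfies
`φ(λ z) = F(φ(z))`, and it is differentiable everywhere because
`φ(z) = F^j(φ(z / λ^j))`. -/
theorem exists_poincare_one {F : E → E} (hF : ContDiff ℂ 2 F) {c e : E} {lam : ℂ}
    (hlam : 1 < ‖lam‖) (hc : F c = c) {T : E →L[ℂ] E} (hT : HasFDerivAt F T c)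
    (he : T e = lam • e) (hTn : ‖T‖ < ‖lam‖ ^ 2) :
    ∃ φ : ℂ → E, Differentiable ℂ φ ∧ φ 0 = c ∧ deriv φ 0 = e ∧ ∀ z, φ (lam * z) = F (φ z) := by
  have hl0 : 0 < ‖lam‖ := by linarith
  have hlamne : lam ≠ 0 := norm_pos_iff.1 hl0
  obtain ⟨r, hr, C, hC, θ, hθ0, hθ1, hest⟩ := pnaSeq_est hF hlam hc hT he hTn
  have h1θ : 0 < 1 - θ := by linarith
  have hFd : Differentiable ℂ F := hF.differentiable (by norm_num)
  set S := pnaSeq F c e lam with hS
  -- local convergence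
  have hloc : ∀ z : ℂ, ‖z‖ ≤ r → ∃ w, Tendsto (fun k => S k z) atTop (𝓝 w) := by
    intro z hz
    apply cauchySeq_tendsto_of_complete
    refine cauchySeq_of_le_geometric θ (C * ‖z‖ ^ 2) hθ1 (fun k => ?_)
    rw [dist_comm, dist_eq_norm]
    exact hest k z hz
  -- shifting
  have hshift : ∀ j k : ℕ, ∀ z : ℂ, S (k + j) z = F^[j] (S k (z / lam ^ j)) := by
    intro j
    induction j with
    | zero => intro k z; simp
    | succ j ih =>
      intro k z
      have h1 : S (k + (j + 1)) z = F (S (k + j) (z / lam)) := rfl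
      rw [h1, ih, Function.iterate_succ_apply', div_div, pow_succ']
  -- global convergence
  have hsmall : ∀ z : ℂ, ∃ j : ℕ, ‖z / lam ^ j‖ < r := by
    intro z
    obtain ⟨j, hj⟩ := pow_unbounded_of_one_lt (‖z‖ / r) hlam
    refine ⟨j, ?_⟩
    rw [norm_div, norm_pow, div_lt_iff₀ (by positivity)]
    rw [div_lt_iff₀ hr] at hj
    linarith
  have hglob : ∀ z : ℂ, ∃ w, Tendsto (fun k => S k z) atTop (𝓝 w) := by
    intro z
    obtain ⟨j, hj⟩ := hsmall z
    obtain ⟨w, hw⟩ := hloc _ hj.le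
    refine ⟨F^[j] w, ?_⟩
    rw [← tendsto_add_atTop_iff_nat j]
    simp only [hshift]
    exact ((hFd.continuous.iterate j).tendsto w).comp hw
  choose φ hφ using hglob
  have hfun : ∀ z, φ (lam * z) = F (φ z) := by
    intro z
    have h1 : Tendsto (fun k => S (k + 1) (lam * z)) atTop (𝓝 (φ (lam * z))) :=
      (tendsto_add_atTop_iff_nat 1).2 (hφ (lam * z))
    have h2 : Tendsto (fun k => S (k + 1) (lam * z)) atTop (𝓝 (F (φ z))) := by
      have h3 : (fun k => S (k + 1) (lam * z)) = fun k => F (S k z) := by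
        funext k
        show F (S k (lam * z / lam)) = _
        rw [mul_div_cancel_left₀ _ hlamne]
      rw [h3]
      exact (hFd.continuous.tendsto _).comp (hφ z)
    exact tendsto_nhds_unique h1 h2
  have hfunj : ∀ j : ℕ, ∀ z, φ z = F^[j] (φ (z / lam ^ j)) := by
    intro j
    induction j with
    | zero => intro z; simp
    | succ j ih =>
      intro z
      rw [ih z, Function.iterate_succ_apply, ← hfun]
      congr 2
      rw [pow_succ]
      field_simp
  have hdist : ∀ k : ℕ, ∀ z : ℂ, ‖z‖ ≤ r → dist (S k z) (φ z) ≤ C * ‖z‖ ^ 2 * θ ^ k / (1 - θ) := by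
    intro k z hz
    exact dist_le_of_le_geometric_of_tendsto θ (C * ‖z‖ ^ 2) hθ1
      (fun k => by rw [dist_comm, dist_eq_norm]; exact hest k z hz) (hφ z) k
  have hdiffloc : DifferentiableOn ℂ φ (Metric.ball 0 r) := by
    have hu : TendstoLocallyUniformlyOn S φ atTop (Metric.ball 0 r) := by
      apply TendstoUniformlyOn.tendstoLocallyUniformlyOn
      rw [Metric.tendstoUniformlyOn_iff]
      intro ε hε
      have h1 : Tendsto (fun k : ℕ => C * r ^ 2 * θ ^ k / (1 - θ)) atTop (𝓝 0) := by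
        have h2 := ((tendsto_pow_atTop_nhds_zero_of_lt_one hθ0 hθ1).const_mul
          (C * r ^ 2)).div_const (1 - θ)
        simpa using h2
      filter_upwards [h1.eventually (gt_mem_nhds hε)] with k hk z hz
      rw [Metric.mem_ball, dist_zero_right] at hz
      rw [dist_comm]
      refine lt_of_le_of_lt (hdist k z hz.le) (lt_of_le_of_lt ?_ hk)
      apply div_le_div_of_nonneg_right _ h1θ.le
      apply mul_le_mul_of_nonneg_right _ (pow_nonneg hθ0 _)
      apply mul_le_mul_of_nonneg_left _ hC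
      exact pow_le_pow_left₀ (norm_nonneg _) hz.le 2
    exact hu.differentiableOn
      (Eventually.of_forall fun k => (pnaSeq_diff hFd c e lam k).differentiableOn)
      Metric.isOpen_ball
  have hφ0 : φ 0 = c := by
    have h1 := hφ 0
    have h2 : (fun k => S k 0) = fun _ => c := by
      funext k
      exact pnaSeq_zero e lam hc k
    rw [h2] at h1
    exact (tendsto_nhds_unique h1 tendsto_const_nhds)
  refine ⟨φ, ?_, hφ0, ?_, hfun⟩
  · intro z
    obtain ⟨j, hj⟩ := hsmall z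
    have h1 : φ = F^[j] ∘ φ ∘ (fun z => z / lam ^ j) := by
      funext w
      exact hfunj j w
    rw [h1]
    have h2 : DifferentiableAt ℂ φ (z / lam ^ j) := by
      apply hdiffloc.differentiableAt
      apply Metric.isOpen_ball.mem_nhds
      rw [Metric.mem_ball, dist_zero_right]
      exact hj
    have h3 : DifferentiableAt ℂ (fun z : ℂ => z / lam ^ j) z :=
      (differentiable_id.div_const _) z
    exact (hFd.iterate j _).comp z (h2.comp z h3)
  · apply HasDerivAt.deriv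
    rw [hasDerivAt_iff_isLittleO]
    have h1 : (fun x' : ℂ => φ x' - φ 0 - (x' - 0) • e) =O[𝓝 0] fun x' => ‖x'‖ ^ 2 := by
      apply Asymptotics.IsBigO.of_bound (C / (1 - θ))
      filter_upwards [Metric.closedBall_mem_nhds (0 : ℂ) hr] with z hz
      rw [Metric.mem_closedBall, dist_zero_right] at hz
      have h2 := hdist 0 z hz
      rw [hφ0, sub_zero]
      have h3 : φ z - c - z • e = φ z - S 0 z := by
        show _ = φ z - (c + z • e)
        abel
      rw [h3, ← dist_eq_norm, dist_comm]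
      refine h2.trans (le_of_eq ?_)
      rw [norm_pow, norm_norm]
      ring
    refine h1.trans_isLittleO ?_
    simp only [sub_zero]
    have h4 : (fun x' : ℂ => ‖x'‖ ^ 2) =o[𝓝 0] fun x' => ‖x'‖ ^ 1 :=
      (Asymptotics.isLittleO_pow_pow (𝕜 := ℝ) (by norm_num : 1 < 2)).comp_tendsto
        (tendsto_norm_zero (E := ℂ))
    refine h4.trans_isBigO ?_
    simp only [pow_one]
    exact (Asymptotics.isBigO_refl _ _).norm_left

end Pool.Agent.MP_1209e6_cy
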