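import Pool.Agent.Lib_MP_1209e6_cy.Defs

/-!
# Projective formulation
-/

open Matrix MvPolynomial Filter Topology

namespace Pool.Agent.MP_1209e6_cy

variable {m : ℕ}

/-- the projective space of dimension `m + 1` over the complex numbers -/
abbrev PP (m : ℕ) := Projectivization ℂ (Vec m ℂ)

/-- the variety `X` in `P^(m+1) x P^(m+1)` -/
def Dat.X (D : Dat m ℂ) : Set (PP m × PP m) := {c | D.In c.1.rep c.2.rep}

/-- `p` is homogeneous of degree `d` in the first and of degree `e` in the second variables -/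
def BiHom (p : MvPolynomial (Fin (m + 2) ⊕ Fin (m + 2)) ℂ) (d e : ℕ) : Prop :=
  ∀ s ∈ p.support, ∑ i, s (Sum.inl i) = d ∧ ∑ i, s (Sum.inr i) = e

/-- a bihomogeneous polynomial vanishes at a point of the product of projective spaces -/
def Vanish (p : MvPolynomial (Fin (m + 2) ⊕ Fin (m + 2)) ℂ) (c : PP m × PP m) : Prop :=
  aeval (Sum.elim c.1.rep c.2.rep) p = 0

/-- `X` is irreducible in the Zariski topology -/
def Dat.Irred (D : Dat m ℂ) : Prop :=
  ∀ (p q : MvPolynomial (Fin (m + 2) ⊕ Fin (m + 2)) ℂ) (d e d' e' : ℕ), BiHom p d e →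
    BiHom q d' e' → (∀ c ∈ D.X, Vanish p c ∨ Vanish q c) →
    (∀ c ∈ D.X, Vanish p c) ∨ (∀ c ∈ D.X, Vanish q c)

/-- a subset of the projective space contained in the zero set of two coprime forms, that is, in a
closed subset of codimension at least two -/
def Codim2 (S : Set (PP m)) : Prop :=
  ∃ (F G : MvPolynomial (Fin (m + 2)) ℂ) (d e : ℕ), F.IsHomogeneous d ∧ G.IsHomogeneous e ∧
    IsRelPrime F G ∧ ∀ c ∈ S, aeval c.rep F = 0 ∧ aeval c.rep G = 0

/-- the points of `X` whose fibre under the first projection has at least three points -/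
def Dat.Exc (D : Dat m ℂ) : Set (PP m × PP m) :=
  {c | c ∈ D.X ∧ ∃ q₁ q₂ q₃ : PP m, q₁ ≠ q₂ ∧ q₁ ≠ q₃ ∧ q₂ ≠ q₃ ∧ (c.1, q₁) ∈ D.X ∧
    (c.1, q₂) ∈ D.X ∧ (c.1, q₃) ∈ D.X}

/-- the points of `X` whose fibre under the second projection has at least three points -/
def Dat.Exc' (D : Dat m ℂ) : Set (PP m × PP m) :=
  {c | c ∈ D.X ∧ ∃ q₁ q₂ q₃ : PP m, q₁ ≠ q₂ ∧ q₁ ≠ q₃ ∧ q₂ ≠ q₃ ∧ (q₁, c.2) ∈ D.X ∧
    (q₂, c.2) ∈ D.X ∧ (q₃, c.2) ∈ D.X}

/-- the exceptional loci of the two projections have images of codimension at least two -/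
structure Dat.Small (D : Dat m ℂ) : Prop where
  h1 : Codim2 (Prod.fst '' D.Exc)
  h2 : Codim2 (Prod.snd '' D.Exc)
  h3 : Codim2 (Prod.fst '' D.Exc')
  h4 : Codim2 (Prod.snd '' D.Exc')

/-- a holomorphic map from the complex plane to the product of the projective spaces -/
def IsEntire (f : ℂ → PP m × PP m) : Prop :=
  ∀ z₀, ∃ a b : ℂ → Vec m ℂ, AnalyticAt ℂ a z₀ ∧ AnalyticAt ℂ b z₀ ∧
    ∀ᶠ z in 𝓝 z₀, ∃ (ha : a z ≠ 0) (hb : b z ≠ 0),
      f z = (Projectivization.mk ℂ (a z) ha, Projectivization.mk ℂ (b z) hb)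

/-- `X` contains a Zariski dense entire curve -/
def Dat.BrodySpecial (D : Dat m ℂ) : Prop :=
  ∃ f : ℂ → PP m × PP m, IsEntire f ∧ (∀ z, f z ∈ D.X) ∧
    ∀ (p : MvPolynomial (Fin (m + 2) ⊕ Fin (m + 2)) ℂ) (d e : ℕ), BiHom p d e →
      (∀ z, Vanish p (f z)) → ∀ c ∈ D.X, Vanish p c

end Pool.Agent.MP_1209e6_cy
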