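import Pool.Agent.Lib_MP_1209e6_cy.Points
import Pool.Agent.Lib_MP_1209e6_cy.DerivA
import Pool.Agent.Lib_MP_1209e6_cy.RootA

/-!
PIECE [XRC] (MP_1209e6_ag).  Continuity of the points of the fibres.
-/

open Matrix Filter Topology

namespace Pool.Agent.MP_1209e6_cy

variable {m : ℕ}

/-- a vector killed by the rows is some `pv r ζ` -/
private theorem xrc_pv {r : Fin m → Vec m ℂ} {w₁ w₂ : Vec m ℂ} (hc : plu r w₁ w₂ ≠ 0)
    {u : Vec m ℂ} (hu : ∀ i, r i ⬝ᵥ u = 0) : ∃ ζ : Vec m ℂ, u = pv r ζ := by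
  refine ⟨(plu r w₁ w₂)⁻¹ • ((w₂ ⬝ᵥ u) • w₁ + (-(w₁ ⬝ᵥ u)) • w₂), ?_⟩
  have key : ∀ w : Vec m ℂ, w ⬝ᵥ u = w ⬝ᵥ
      pv r ((plu r w₁ w₂)⁻¹ • ((w₂ ⬝ᵥ u) • w₁ + (-(w₁ ⬝ᵥ u)) • w₂)) := by
    intro w
    rw [dot_pv, plu_smul_left, plu_add_left, plu_smul_left, plu_smul_left]
    have h1 := plu_cramer (r := r) (w := w) (x := u) w₁ w₂ hu
    have h2 : plu r w w₂ = - plu r w₂ w := plu_antisymm _ _ _
    rw [h2] at h1
    field_simp
    linear_combination h1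
  funext j
  have h1 := key (Pi.single j 1)
  rw [single_one_dotProduct, single_one_dotProduct] at h1
  exact h1

/-- the form of bidegree `(2, 2)` is not degenerate in the directions of `u₁`, `pv r ω` -/
private theorem xrc_dir {F : Dat m ℂ} (hF : F.Symm) {z : Vec m ℂ} (u₁ : Vec m ℂ)
    (hE : ∃ i j, F.E z i j ≠ 0) :
    ∃ ω : Vec m ℂ, F.B u₁ (pv (F.row z) ω) z z ≠ 0 ∨
      F.B (pv (F.row z) ω) (pv (F.row z) ω) z z ≠ 0 := by
  by_contra hcon
  push Not at hcon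
  obtain ⟨i, j, hij⟩ := hE
  apply hij
  have h1 : F.E z i j = F.B (pv (F.row z) (Pi.single i 1)) (pv (F.row z) (Pi.single j 1)) z z := by
    rw [Dat.B_eq_Q]
    refine Finset.sum_congr rfl fun k _ => Finset.sum_congr rfl fun l _ => ?_
    show plu (F.row z) (Pi.single i 1) (Pi.single k 1) * F.Q z k l *
      plu (F.row z) (Pi.single j 1) (Pi.single l 1) =
      plu (F.row z) (Pi.single i 1) (Pi.single k 1) * F.Q z k l *
      plu (F.row z) (Pi.single j 1) (Pi.single l 1)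
    rfl
  have hadd : ∀ ω ω' : Vec m ℂ, pv (F.row z) (ω + ω') = pv (F.row z) ω + pv (F.row z) ω' := by
    intro ω ω'
    funext k
    show plu (F.row z) (ω + ω') (Pi.single k 1) = plu (F.row z) ω (Pi.single k 1) +
      plu (F.row z) ω' (Pi.single k 1)
    exact plu_add_left _ _ _ _
  have h2 := (hcon (Pi.single i 1 + Pi.single j 1)).2
  rw [hadd, Dat.B_add₁, hF.B_add₂, hF.B_add₂, (hcon (Pi.single i 1)).2,
    (hcon (Pi.single j 1)).2, hF.B_comm (x := pv (F.row z) (Pi.single j 1))] at h2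
  rw [h1]
  have h3 : 2 * F.B (pv (F.row z) (Pi.single i 1)) (pv (F.row z) (Pi.single j 1)) z z = 0 := by
    linear_combination h2
  exact (mul_eq_zero.1 h3).resolve_left two_ne_zero

private theorem xrc_near {F : Dat m ℂ} (hF : F.Symm) {u₁ z₁ : Vec m ℂ} (hin : F.In u₁ z₁)
    (hE : ∃ i j, F.E z₁ i j ≠ 0) {ε : ℝ} (hε : 0 < ε) :
    ∀ᶠ z in 𝓝 z₁, ∃ u, ‖u - u₁‖ < ε ∧ F.In u z := by
  obtain ⟨ω, hω⟩ := xrc_dir hF u₁ hE
  have hplu : ∃ w₁ w₂ : Vec m ℂ, plu (F.row z₁) w₁ w₂ ≠ 0 := by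
    by_contra hcon
    push Not at hcon
    obtain ⟨i, j, hij⟩ := hE
    apply hij
    unfold Dat.E
    refine Finset.sum_eq_zero fun k _ => Finset.sum_eq_zero fun l _ => ?_
    rw [hcon, zero_mul, zero_mul]
  obtain ⟨w₁, w₂, hc⟩ := hplu
  obtain ⟨ζ, hζ⟩ := xrc_pv hc (u := u₁) (fun i => by
    rw [← Dat.A_eq_dot]
    exact hin.1 i)
  have hYc : Continuous (fun z => pv (F.row z) ζ) := (Dat.dra_contDiff_pv F ζ).continuous
  have hUc : Continuous (fun z => pv (F.row z) ω) := (Dat.dra_contDiff_pv F ω).continuous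
  have hAc : Continuous (fun z => F.B (pv (F.row z) ζ) (pv (F.row z) ζ) z z) :=
    Dat.dra_continuous_B F hYc hYc continuous_id continuous_id
  have hBc : Continuous (fun z => F.B (pv (F.row z) ζ) (pv (F.row z) ω) z z) :=
    Dat.dra_continuous_B F hYc hUc continuous_id continuous_id
  have hCc : Continuous (fun z => F.B (pv (F.row z) ω) (pv (F.row z) ω) z z) :=
    Dat.dra_continuous_B F hUc hUc continuous_id continuous_id
  have hA0 : F.B (pv (F.row z₁) ζ) (pv (F.row z₁) ζ) z₁ z₁ = 0 := by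
    rw [← hζ]
    exact hin.2
  have hδ : 0 < ε / (2 * (‖pv (F.row z₁) ω‖ + 1)) := by positivity
  rw [hζ] at hω
  have h1 := eventually_small_root hω hδ
  have h2 : Tendsto (fun z => (F.B (pv (F.row z) ζ) (pv (F.row z) ζ) z z,
      F.B (pv (F.row z) ζ) (pv (F.row z) ω) z z, F.B (pv (F.row z) ω) (pv (F.row z) ω) z z))
      (𝓝 z₁) (𝓝 ((0 : ℂ), F.B (pv (F.row z₁) ζ) (pv (F.row z₁) ω) z₁ z₁,
        F.B (pv (F.row z₁) ω) (pv (F.row z₁) ω) z₁ z₁)) := by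
    have h3 := (hAc.prodMk (hBc.prodMk hCc)).tendsto z₁
    rw [hA0] at h3
    exact h3
  have h3 : ∀ᶠ z in 𝓝 z₁, ‖pv (F.row z) ζ - u₁‖ < ε / 2 := by
    have h4 : Tendsto (fun z => ‖pv (F.row z) ζ - u₁‖) (𝓝 z₁) (𝓝 0) := by
      have h5 : Tendsto (fun z => ‖pv (F.row z) ζ - u₁‖) (𝓝 z₁)
          (𝓝 ‖pv (F.row z₁) ζ - u₁‖) := (hYc.sub continuous_const).norm.tendsto z₁
      rw [← hζ, sub_self, norm_zero] at h5
      exact h5
    exact h4.eventually (gt_mem_nhds (by positivity))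
  have h4 : ∀ᶠ z in 𝓝 z₁, ‖pv (F.row z) ω‖ < ‖pv (F.row z₁) ω‖ + 1 :=
    (hUc.norm.tendsto z₁).eventually (gt_mem_nhds (by linarith))
  filter_upwards [h2.eventually h1, h3, h4] with z g1 g2 g3
  obtain ⟨s, hs1, hs2⟩ := g1
  refine ⟨pv (F.row z) ζ + s • pv (F.row z) ω, ?_, ?_, ?_⟩
  · have e1 : pv (F.row z) ζ + s • pv (F.row z) ω - u₁ =
        (pv (F.row z) ζ - u₁) + s • pv (F.row z) ω := by
      abel
    have e2 : ‖s • pv (F.row z) ω‖ ≤ ε / 2 := by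
      rw [norm_smul]
      have e3 : ‖s‖ * ‖pv (F.row z) ω‖ ≤
          ε / (2 * (‖pv (F.row z₁) ω‖ + 1)) * (‖pv (F.row z₁) ω‖ + 1) :=
        mul_le_mul hs1.le g3.le (norm_nonneg _) hδ.le
      refine e3.trans (le_of_eq ?_)
      have : ‖pv (F.row z₁) ω‖ + 1 ≠ 0 := by positivity
      field_simp
    rw [e1]
    calc ‖(pv (F.row z) ζ - u₁) + s • pv (F.row z) ω‖ ≤ ‖pv (F.row z) ζ - u₁‖ +
          ‖s • pv (F.row z) ω‖ := norm_add_le _ _
      _ < ε := by linarith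
  · intro i
    rw [Dat.A_add_left, Dat.A_smul_left, Dat.A_eq_dot, Dat.A_eq_dot, row_dot_pv, row_dot_pv,
      mul_zero, add_zero]
  · rw [Dat.B_add₁, Dat.B_smul₁, hF.B_add₂, hF.B_add₂, hF.B_smul₂, hF.B_smul₂,
      hF.B_comm (x := pv (F.row z) ω) (x' := pv (F.row z) ζ)]
    linear_combination hs2

/-- PIECE [XRC].  Let `(x₁, y₁)` be a point of `X` with `E'(x₁) ≠ 0`.  For `x` close to `x₁` there is a point
`(x, y)` of `X` with `y` close to `y₁`.

Proof.  Some `π_ij = plu (swap.row x₁) e_i e_j` is not zero (otherwise `E'(x₁) = 0`).  So the kernel of the forms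
`A_i(x₁, ·)` has dimension 2 (`plu_cramer`: a vector `y` of the kernel is determined by `y_i, y_j`) and it is spanned by
`pv (swap.row x₁) e_i`, `pv (swap.row x₁) e_j`.  Hence `y₁ = pv (swap.row x₁) w₁` for some `w₁` (linear in `w`), and there
is `w₂` such that `y₁` and `pv (swap.row x₁) w₂` are a basis.  Put `Y(x) = pv (swap.row x) w₁`, `U(x) = pv (swap.row x) w₂`
(continuous) and consider `B(x, x, Y + s U, Y + s U) = A(x) + 2 B(x) s + C(x) s^2`.  `A(x₁) = 0`, and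
`(B(x₁), C(x₁)) ≠ (0, 0)`: otherwise the quadratic form vanishes on the kernel and `E'(x₁) = 0` (`Symm.key` or `E_eq`:
choose `w` with `w·y₁ ≠ 0`; `S` would vanish).  Use `eventually_small_root`. -/
theorem exists_near {D : Dat m ℂ} (hD : D.Symm) {x₁ y₁ : Vec m ℂ} (hin : D.In x₁ y₁)
    (hE : ∃ i j, D.swap.E x₁ i j ≠ 0) {ε : ℝ} (hε : 0 < ε) :
    ∀ᶠ x in 𝓝 x₁, ∃ y, ‖y - y₁‖ < ε ∧ D.In x y := by
  have h1 : D.swap.In y₁ x₁ := (Dat.swap_In D x₁ y₁).2 hin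
  filter_upwards [xrc_near hD.swap h1 hE hε] with x hx
  obtain ⟨y, hy1, hy2⟩ := hx
  exact ⟨y, hy1, (Dat.swap_In D x y).1 hy2⟩

end Pool.Agent.MP_1209e6_cy
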