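import Mathlib

/-!
# Transcendence degree of a point of projective space
-/

open MvPolynomial

namespace Pool.Agent.MP_1209e6_cy

variable {N : ℕ} (k : Type*) {K : Type*} [Field k] [Field K] [Algebra k K]

/-- the field generated by the ratios of the coordinates -/
def rf (x : Fin N → K) : IntermediateField k K :=
  IntermediateField.adjoin k {z : K | ∃ i j, x j ≠ 0 ∧ z = x i / x j}

/-- the transcendence degree of the point with homogeneous coordinates `x` -/
noncomputable def tr (x : Fin N → K) : Cardinal := Algebra.trdeg k (rf k x)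

variable {k}

theorem ratio_mem (x : Fin N → K) {i j : Fin N} (hj : x j ≠ 0) : x i / x j ∈ rf k x :=
  IntermediateField.subset_adjoin _ _ ⟨i, j, hj, rfl⟩

/-- the ratios with a fixed denominator generate `rf` -/
theorem rf_eq (x : Fin N → K) {j : Fin N} (hj : x j ≠ 0) :
    rf k x = IntermediateField.adjoin k (Set.range fun i => x i / x j) := by
  apply le_antisymm
  · unfold rf
    rw [IntermediateField.adjoin_le_iff]
    rintro z ⟨i, l, hl, rfl⟩
    have h1 : x i / x j ∈ IntermediateField.adjoin k (Set.range fun i => x i / x j) :=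
      IntermediateField.subset_adjoin _ _ ⟨i, rfl⟩
    have h2 : x l / x j ∈ IntermediateField.adjoin k (Set.range fun i => x i / x j) :=
      IntermediateField.subset_adjoin _ _ ⟨l, rfl⟩
    have h3 : x i / x l = (x i / x j) / (x l / x j) := by
      field_simp
    show x i / x l ∈ IntermediateField.adjoin k (Set.range fun i => x i / x j)
    rw [h3]
    exact div_mem h1 h2
  · rw [IntermediateField.adjoin_le_iff]
    rintro z ⟨i, rfl⟩
    exact ratio_mem x hj

theorem rf_smul (x : Fin N → K) {c : K} (hc : c ≠ 0) : rf k (c • x) = rf k x := by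
  unfold rf
  congr 1
  ext z
  constructor
  · rintro ⟨i, j, hj, rfl⟩
    have hj' : x j ≠ 0 := by
      intro h
      exact hj (by simp [h])
    refine ⟨i, j, hj', ?_⟩
    simp only [Pi.smul_apply, smul_eq_mul]
    field_simp
  · rintro ⟨i, j, hj, rfl⟩
    refine ⟨i, j, ?_, ?_⟩
    · simp only [Pi.smul_apply, smul_eq_mul]
      exact mul_ne_zero hc hj
    · simp only [Pi.smul_apply, smul_eq_mul]
      field_simp

theorem tr_smul (x : Fin N → K) {c : K} (hc : c ≠ 0) : tr k (c • x) = tr k x := by
  unfold tr
  rw [rf_smul x hc]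

/-- `x` and `σ x` have the same transcendence degree -/
theorem tr_map (x : Fin N → K) (σ : K ≃ₐ[k] K) : tr k (fun i => σ (x i)) = tr k x := by
  unfold tr
  have h : rf k (fun i => σ (x i)) = (rf k x).map (σ : K →ₐ[k] K) := by
    unfold rf
    rw [IntermediateField.adjoin_map]
    congr 1
    ext z
    constructor
    · rintro ⟨i, j, hj, rfl⟩
      refine ⟨x i / x j, ⟨i, j, ?_, rfl⟩, ?_⟩
      · intro h
        exact hj (by simp [h])
      · simp
    · rintro ⟨_, ⟨i, j, hj, rfl⟩, rfl⟩
      refine ⟨i, j, ?_, ?_⟩
      · intro h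
        exact hj ((map_eq_zero_iff σ σ.injective).1 h)
      · simp
  rw [h]
  exact (AlgEquiv.trdeg_eq (IntermediateField.intermediateFieldMap σ (rf k x))).symm

end Pool.Agent.MP_1209e6_cy
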