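import Pool.Agent.Lib_MP_1209e6_cy.GenC

/-!
PIECE [VAU] (MP_1209e6_ag).  Automorphisms of the complex numbers.
-/

open Filter Topology

namespace Pool.Agent.MP_1209e6_cy

/-- PIECE [VAU].  Two finite families of algebraically independent complex numbers are conjugate under an automorphism
of `ℂ`.

Proof.  Complete the families to transcendence bases `ι ⊕ s → ℂ`, `ι ⊕ s' → ℂ` over `ℚ` (`exists_isTranscendenceBasis_superset` or
similar).  `ℂ` is not countable, so the bases have the cardinality of `ℂ` (`IsAlgClosed.cardinal_eq_cardinal_transcendence_basis_of_aleph0_lt`),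
so `s` and `s'` are equinumerous (`ι` is finite) and there is a bijection between the two index sets compatible with `ι`.
It extends to the algebraic closures: `IsAlgClosed.equivOfTranscendenceBasis`. -/
theorem exists_ringEquiv {ι : Type} [Finite ι] {c c' : ι → ℂ} (hc : AlgebraicIndependent ℚ c)
    (hc' : AlgebraicIndependent ℚ c') : ∃ σ : ℂ ≃+* ℂ, ∀ i, σ (c i) = c' i := by
  classical
  -- complete to transcendence bases
  obtain ⟨t, hct, ht⟩ := exists_isTranscendenceBasis_superset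
    (s := Set.range c) hc.coe_range
  obtain ⟨t', hct', ht'⟩ := exists_isTranscendenceBasis_superset
    (s := Set.range c') hc'.coe_range
  have hC : Cardinal.aleph0 < Cardinal.mk ℂ := by
    rw [Cardinal.mk_complex]
    exact Cardinal.aleph0_lt_continuum
  have hQ : Cardinal.mk ℚ ≤ Cardinal.aleph0 := Cardinal.mk_le_aleph0
  have e1 : Cardinal.mk ℂ = Cardinal.mk t :=
    IsAlgClosed.cardinal_eq_cardinal_transcendence_basis_of_aleph0_lt' _ ht hQ hC
  have e2 : Cardinal.mk ℂ = Cardinal.mk t' :=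
    IsAlgClosed.cardinal_eq_cardinal_transcendence_basis_of_aleph0_lt' _ ht' hQ hC
  -- a bijection of the bases compatible with the families
  have hex : ∀ x : {x : t | (x : ℂ) ∈ Set.range c}, ∃ i, c i = ((x : t) : ℂ) := fun x => x.2
  choose ix hix using hex
  have hinj : Function.Injective (fun x : {x : t | (x : ℂ) ∈ Set.range c} =>
      (⟨c' (ix x), hct' ⟨ix x, rfl⟩⟩ : t')) := by
    intro x y hxy
    have h1 : c' (ix x) = c' (ix y) := congrArg Subtype.val hxy
    have h2 : ix x = ix y := hc'.injective h1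
    apply Subtype.ext
    apply Subtype.ext
    rw [← hix x, ← hix y, h2]
  have hlt : Cardinal.mk {x : t | (x : ℂ) ∈ Set.range c} < Cardinal.mk t := by
    rw [← e1]
    refine lt_trans ?_ hC
    rw [Cardinal.lt_aleph0_iff_finite]
    exact Finite.of_injective ix fun x y hxy => by
      apply Subtype.ext
      apply Subtype.ext
      rw [← hix x, ← hix y, hxy]
  obtain ⟨g, hg⟩ := Cardinal.extend_function_of_lt
    (⟨_, hinj⟩ : {x : t | (x : ℂ) ∈ Set.range c} ↪ t') hlt (Cardinal.eq.1 (e1.symm.trans e2))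
  have hgc : ∀ i, ((g ⟨c i, hct ⟨i, rfl⟩⟩ : t') : ℂ) = c' i := by
    intro i
    have h1 := hg ⟨⟨c i, hct ⟨i, rfl⟩⟩, ⟨i, rfl⟩⟩
    have h2 := hix ⟨⟨c i, hct ⟨i, rfl⟩⟩, ⟨i, rfl⟩⟩
    have h3 := hc.injective h2
    have h4 := congrArg Subtype.val h1
    have h5 : ((g ⟨c i, hct ⟨i, rfl⟩⟩ : t') : ℂ) =
        c' (ix ⟨⟨c i, hct ⟨i, rfl⟩⟩, ⟨i, rfl⟩⟩) := h4
    rw [h5, h3]
  -- extend to the algebraic closures
  have i1 := IsAlgClosed.isAlgClosure_of_transcendence_basis _ ht
  have i2 := IsAlgClosed.isAlgClosure_of_transcendence_basis _ ht'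
  let e : Algebra.adjoin ℚ (Set.range ((↑) : t → ℂ)) ≃ₐ[ℚ]
      Algebra.adjoin ℚ (Set.range ((↑) : t' → ℂ)) :=
    ht.1.aevalEquiv.symm.trans ((MvPolynomial.renameEquiv ℚ g).trans ht'.1.aevalEquiv)
  refine ⟨IsAlgClosure.equivOfEquiv ℂ ℂ e.toRingEquiv, fun i => ?_⟩
  have h1 : c i = algebraMap (Algebra.adjoin ℚ (Set.range ((↑) : t → ℂ))) ℂ
      (ht.1.aevalEquiv (MvPolynomial.X ⟨c i, hct ⟨i, rfl⟩⟩)) := by
    rw [AlgebraicIndependent.algebraMap_aevalEquiv, MvPolynomial.aeval_X]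
  rw [h1, IsAlgClosure.equivOfEquiv_algebraMap]
  have h2 : e.toRingEquiv (ht.1.aevalEquiv (MvPolynomial.X ⟨c i, hct ⟨i, rfl⟩⟩)) =
      ht'.1.aevalEquiv (MvPolynomial.X (g ⟨c i, hct ⟨i, rfl⟩⟩)) := by
    show ht'.1.aevalEquiv (MvPolynomial.renameEquiv ℚ g
      (ht.1.aevalEquiv.symm (ht.1.aevalEquiv (MvPolynomial.X ⟨c i, hct ⟨i, rfl⟩⟩)))) = _
    rw [AlgEquiv.symm_apply_apply, MvPolynomial.renameEquiv_apply, MvPolynomial.rename_X]
  rw [h2, AlgebraicIndependent.algebraMap_aevalEquiv, MvPolynomial.aeval_X, hgc]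

/-- PIECE [VAU].  Generic points near a given point (`exists_algebraicIndependent` with `k = ⊥`). -/
theorem exists_generic_near {ι : Type} [Fintype ι] {c₀ : ι → ℂ} {U : Set (ι → ℂ)} (hU : U ∈ 𝓝 c₀) :
    ∃ c ∈ U, AlgebraicIndependent ℚ c := by
  obtain ⟨c, hcU, hc⟩ := exists_algebraicIndependent (⊥ : IntermediateField ℚ ℂ) (by
    rw [IntermediateField.coe_bot]
    exact Set.countable_range _) (interior U) isOpen_interior
    ⟨c₀, mem_interior_iff_mem_nhds.2 hU⟩
  refine ⟨c, interior_subset hcU, ?_⟩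
  exact hc.restrictScalars (algebraMap ℚ (⊥ : IntermediateField ℚ ℂ)).injective

end Pool.Agent.MP_1209e6_cy
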