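import Pool.Agent.Lib_MP_1209e6_cy.VDef

/-!
PIECE [VB0] (MP_1209e6_ag).  A special member of the family.

With the coordinates `x_0, ..., x_{m+1}`, `n = m + 1`, it is given by `x_i y_0 - x_0 y_i = 0` (`i = 1, ..., m`) and
`x_0 x_1 y_0^2 + x_n^2 y_0^2 - x_0^2 y_n^2 + x_2 x_n y_0 y_n = 0`.
-/

open Matrix

namespace Pool.Agent.MP_1209e6_cy

variable {m : ℕ}

/-- the index `i + 1` -/
def sx (i : Fin m) : Fin (m + 2) := i.succ.castSucc

/-- the coefficients of the special member: `x_{a+1} y_0 - x_0 y_{a+1}` for `a ∈ Fin m`, and for the form of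
bidegree `(2, 2)`: `x_0 x_1 y_0^2` (coefficient `1/2` at `({0, 1}, {0, 0})`), `x_n^2 y_0^2`, `-x_0^2 y_n^2`, `x_2 x_n y_0 y_n`
(coefficient `1/4` at `({2, n}, {0, n})`) -/
noncomputable def c0 (m : ℕ) : Ix m → ℂ :=
  Sum.elim (fun t => if t.2.1 = sx t.1 ∧ t.2.2 = 0 then 1 else
      if t.2.1 = 0 ∧ t.2.2 = sx t.1 then -1 else 0)
    (fun t => (if t = (s(0, 1), s(0, 0)) then 1 / 2 else 0) +
      (if t = (s(Fin.last (m + 1), Fin.last (m + 1)), s(0, 0)) then 1 else 0) -
      (if t = (s(0, 0), s(Fin.last (m + 1), Fin.last (m + 1))) then 1 else 0) +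
      (if t = (s(2, Fin.last (m + 1)), s(0, Fin.last (m + 1))) then 1 / 4 else 0))

theorem sx_ne_zero (i : Fin m) : sx i ≠ 0 := by
  intro h
  have := congrArg Fin.val h
  simp [sx] at this

/-- the sum over the ordered pairs representing an unordered pair of distinct elements -/
theorem vb_pair {n : ℕ} {a b : Fin n} (hab : a ≠ b) (x x' : Fin n → ℂ) :
    ∑ j, ∑ k, (if s(j, k) = s(a, b) then x j * x' k else 0) = x a * x' b + x b * x' a := by
  have h : ∀ j k : Fin n, (if s(j, k) = s(a, b) then x j * x' k else 0) =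
      (if j = a then (if k = b then x j * x' k else 0) else 0) +
        (if j = b then (if k = a then x j * x' k else 0) else 0) := by
    intro j k
    by_cases h1 : j = a
    · subst h1
      by_cases h2 : k = b
      · subst h2
        simp [hab]
      · simp [Sym2.eq_iff, h2, hab]
    · by_cases h2 : j = b
      · subst h2
        by_cases h3 : k = a
        · subst h3
          simp [Sym2.eq_iff, h1]
        · simp [Sym2.eq_iff, h1, h3]
      · simp [Sym2.eq_iff, h1, h2]
  simp only [h, Finset.sum_add_distrib]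
  congr 1
  · rw [Finset.sum_eq_single a, Finset.sum_eq_single b] <;> simp +contextual
  · rw [Finset.sum_eq_single b, Finset.sum_eq_single a] <;> simp +contextual

/-- the sum over the ordered pairs representing a diagonal unordered pair -/
theorem vb_diag {n : ℕ} (a : Fin n) (x x' : Fin n → ℂ) :
    ∑ j, ∑ k, (if s(j, k) = s(a, a) then x j * x' k else 0) = x a * x' a := by
  have h : ∀ j k : Fin n, (if s(j, k) = s(a, a) then x j * x' k else 0) =
      (if j = a then (if k = a then x j * x' k else 0) else 0) := by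
    intro j k
    by_cases h1 : j = a
    · subst h1
      by_cases h2 : k = j
      · subst h2
        simp
      · simp [Sym2.eq_iff, h2]
    · simp [Sym2.eq_iff, h1]
  simp only [h]
  rw [Finset.sum_eq_single a, Finset.sum_eq_single a] <;> simp +contextual

/-- factorisation of the fourfold sum -/
theorem vb_fac {n : ℕ} (w : ℂ) (s₀ t₀ : Sym2 (Fin n)) (x x' y y' : Fin n → ℂ) :
    ∑ j, ∑ k, ∑ l, ∑ p, (if ((s(j, k), s(l, p)) : Sym2 (Fin n) × Sym2 (Fin n)) = (s₀, t₀)
      then w else 0) * x j * x' k * y l * y' p =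
      w * (∑ j, ∑ k, (if s(j, k) = s₀ then x j * x' k else 0)) *
        (∑ l, ∑ p, (if s(l, p) = t₀ then y l * y' p else 0)) := by
  have h : ∀ j k l p, (if ((s(j, k), s(l, p)) : Sym2 (Fin n) × Sym2 (Fin n)) = (s₀, t₀)
      then w else 0) * x j * x' k * y l * y' p =
      w * (if s(j, k) = s₀ then x j * x' k else 0) * (if s(l, p) = t₀ then y l * y' p else 0) := by
    intro j k l p
    by_cases h1 : s(j, k) = s₀
    · by_cases h2 : s(l, p) = t₀
      · rw [if_pos (by rw [h1, h2]), if_pos h1, if_pos h2]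
        ring
      · rw [if_neg (fun h => h2 (congrArg Prod.snd h)), if_neg h2]
        ring
    · rw [if_neg (fun h => h1 (congrArg Prod.fst h)), if_neg h1]
      ring
  simp only [h, ← Finset.mul_sum, ← Finset.sum_mul]

/-- PIECE [VB0]. -/
theorem c0_A (i : Fin m) (x y : Vec m ℂ) :
    (datOf (c0 m)).A i x y = x (sx i) * y 0 - x 0 * y (sx i) := by
  have h0 := sx_ne_zero i
  have h : ∀ j l : Fin (m + 2), (datOf (c0 m)).a i j l * x j * y l =
      (if j = sx i then (if l = 0 then x j * y l else 0) else 0) -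
        (if j = 0 then (if l = sx i then x j * y l else 0) else 0) := by
    intro j l
    have h1 : (datOf (c0 m)).a i j l = if j = sx i ∧ l = 0 then 1 else
      if j = 0 ∧ l = sx i then -1 else 0 := rfl
    rw [h1]
    by_cases h2 : j = sx i
    · subst h2
      by_cases h3 : l = 0
      · subst h3
        simp [h0]
      · simp [h0, h3]
    · by_cases h3 : j = 0
      · subst h3
        by_cases h4 : l = sx i
        · subst h4
          simp [h2]
        · simp [h2, h4]
      · simp [h2, h3]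
  unfold Dat.A
  simp only [h, Finset.sum_sub_distrib]
  congr 1
  · rw [Finset.sum_eq_single (sx i), Finset.sum_eq_single 0] <;> simp +contextual
  · rw [Finset.sum_eq_single 0, Finset.sum_eq_single (sx i)] <;> simp +contextual

/-- PIECE [VB0].  Note that for `m ≥ 2` the indices `0, 1, 2, n = m + 1` are distinct.  (The sum over `(j, k)` with
`s(j, k) = s(0, 1)` has the two terms `(0, 1)`, `(1, 0)`, and so on.) -/
theorem c0_B (hm : 2 ≤ m) (x x' y y' : Vec m ℂ) :
    (datOf (c0 m)).B x x' y y' = (x 0 * x' 1 + x 1 * x' 0) / 2 * (y 0 * y' 0) +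
      x (Fin.last (m + 1)) * x' (Fin.last (m + 1)) * (y 0 * y' 0) -
      x 0 * x' 0 * (y (Fin.last (m + 1)) * y' (Fin.last (m + 1))) +
      (x 2 * x' (Fin.last (m + 1)) + x (Fin.last (m + 1)) * x' 2) *
        (y 0 * y' (Fin.last (m + 1)) + y (Fin.last (m + 1)) * y' 0) / 4 := by
  have e1 : (0 : Fin (m + 2)) ≠ 1 := by
    intro h
    have := congrArg Fin.val h
    simp at this
  have e2 : (2 : Fin (m + 2)) ≠ Fin.last (m + 1) := by
    intro h
    have h1 := congrArg Fin.val h
    have h2 : ((2 : Fin (m + 2)) : ℕ) = 2 := by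
      show 2 % (m + 2) = 2
      exact Nat.mod_eq_of_lt (by omega)
    rw [h2, Fin.val_last] at h1
    omega
  have e3 : (0 : Fin (m + 2)) ≠ Fin.last (m + 1) := by
    intro h
    have := congrArg Fin.val h
    simp at this
  have h : ∀ j k l p, (datOf (c0 m)).b j k l p * x j * x' k * y l * y' p =
      (if ((s(j, k), s(l, p)) : Sym2 (Fin (m + 2)) × Sym2 (Fin (m + 2))) = (s(0, 1), s(0, 0))
        then 1 / 2 else 0) * x j * x' k * y l * y' p +
      (if ((s(j, k), s(l, p)) : Sym2 (Fin (m + 2)) × Sym2 (Fin (m + 2))) =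
        (s(Fin.last (m + 1), Fin.last (m + 1)), s(0, 0)) then 1 else 0) * x j * x' k * y l * y' p +
      (if ((s(j, k), s(l, p)) : Sym2 (Fin (m + 2)) × Sym2 (Fin (m + 2))) =
        (s(0, 0), s(Fin.last (m + 1), Fin.last (m + 1))) then -1 else 0) *
          x j * x' k * y l * y' p +
      (if ((s(j, k), s(l, p)) : Sym2 (Fin (m + 2)) × Sym2 (Fin (m + 2))) =
        (s(2, Fin.last (m + 1)), s(0, Fin.last (m + 1))) then 1 / 4 else 0) *
          x j * x' k * y l * y' p := by
    intro j k l p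
    have h1 : (datOf (c0 m)).b j k l p =
      (if ((s(j, k), s(l, p)) : Sym2 (Fin (m + 2)) × Sym2 (Fin (m + 2))) = (s(0, 1), s(0, 0))
        then 1 / 2 else 0) +
      (if ((s(j, k), s(l, p)) : Sym2 (Fin (m + 2)) × Sym2 (Fin (m + 2))) =
        (s(Fin.last (m + 1), Fin.last (m + 1)), s(0, 0)) then 1 else 0) -
      (if ((s(j, k), s(l, p)) : Sym2 (Fin (m + 2)) × Sym2 (Fin (m + 2))) =
        (s(0, 0), s(Fin.last (m + 1), Fin.last (m + 1))) then 1 else 0) +
      (if ((s(j, k), s(l, p)) : Sym2 (Fin (m + 2)) × Sym2 (Fin (m + 2))) =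
        (s(2, Fin.last (m + 1)), s(0, Fin.last (m + 1))) then 1 / 4 else 0) := rfl
    have h2 : (if ((s(j, k), s(l, p)) : Sym2 (Fin (m + 2)) × Sym2 (Fin (m + 2))) =
        (s(0, 0), s(Fin.last (m + 1), Fin.last (m + 1))) then (-1 : ℂ) else 0) =
        - (if ((s(j, k), s(l, p)) : Sym2 (Fin (m + 2)) × Sym2 (Fin (m + 2))) =
        (s(0, 0), s(Fin.last (m + 1), Fin.last (m + 1))) then (1 : ℂ) else 0) := by
      split_ifs <;> simp
    rw [h1, h2]
    ring
  unfold Dat.B
  simp only [h, Finset.sum_add_distrib]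
  rw [vb_fac, vb_fac, vb_fac, vb_fac, vb_pair e1, vb_diag, vb_diag, vb_diag, vb_diag,
    vb_pair e2, vb_pair e3]
  ring

end Pool.Agent.MP_1209e6_cy
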