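import Pool.Agent.Lib_MP_1209e6_cy.VDef

/-!
# The field generated by the coefficients
-/

open Matrix

namespace Pool.Agent.MP_1209e6_cy

variable {m : ℕ}

theorem indep_sum {ι ω : Type} {c : ι → ℂ} (hc : AlgebraicIndependent ℚ c)
    {k : IntermediateField ℚ ℂ} (hk : ∀ t, c t ∈ k) {w : ω → ℂ} (hw : AlgebraicIndependent k w) :
    AlgebraicIndependent ℚ (Sum.elim c w) := by
  have h1 : Set.range c ⊆ Set.range (algebraMap k ℂ) := by
    rintro _ ⟨t, rfl⟩
    exact ⟨⟨c t, hk t⟩, rfl⟩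
  have h2 := hc.sumElim_of_tower h1 hw
  have h3 := h2.comp (Sum.swap : ι ⊕ ω → ω ⊕ ι) (Equiv.sumComm ι ω).injective
  have h4 : Sum.elim w c ∘ (Sum.swap : ι ⊕ ω → ω ⊕ ι) = Sum.elim c w := by
    funext t
    rcases t with t | t <;> rfl
  rw [h4] at h3
  exact h3

/-- the field generated by the coefficients -/
noncomputable def Fc (c : Ix m → ℂ) : IntermediateField ℚ ℂ := IntermediateField.adjoin ℚ (Set.range c)

theorem mem_Fc (c : Ix m → ℂ) (t : Ix m) : c t ∈ Fc c :=
  IntermediateField.subset_adjoin ℚ _ ⟨t, rfl⟩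

theorem Fc_countable (c : Ix m → ℂ) : (Fc c : Set ℂ).Countable := by
  have h2 : Cardinal.mk (IntermediateField.adjoin ℚ (Set.range c)) ≤ Cardinal.aleph0 := by
    have := IntermediateField.cardinalMk_adjoin_le ℚ (Set.range c)
    refine this.trans ?_
    have : Cardinal.mk (Set.range c) ≤ Cardinal.aleph0 := Cardinal.mk_le_aleph0
    simp [this]
  exact Cardinal.mk_le_aleph0_iff.1 h2

/-- the coefficients as elements of `Fc c` -/
noncomputable def cF (c : Ix m → ℂ) : Ix m → Fc c := fun t => ⟨c t, mem_Fc c t⟩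

theorem datOf_cF_map (c : Ix m → ℂ) : (datOf (cF c)).map (algebraMap (Fc c) ℂ) = datOf c := rfl

end Pool.Agent.MP_1209e6_cy
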