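import Mathlib

/-!
PIECE [VCN] (MP_1209e6_ag).  Counting parameters.
-/

namespace Pool.Agent.MP_1209e6_cy

/-- the numbers algebraic over the ring generated by `S`, as a field -/
private noncomputable def clF (S : Set ℂ) : Subfield ℂ where
  carrier := {x | IsAlgebraic (Algebra.adjoin ℚ S) x}
  mul_mem' := fun ha hb => ha.mul hb
  one_mem' := isAlgebraic_one
  add_mem' := fun ha hb => ha.add hb
  zero_mem' := isAlgebraic_zero
  neg_mem' := fun ha => ha.neg
  inv_mem' := fun _ ha => ha.inv

/-- PIECE [VCN].  Suppose that the numbers `c t` (`t ∈ ι`) and `w s` (`s ∈ ω`) are algebraically independent and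
that all of them are rational functions of the numbers `c t`, `t ∉ T`, and of the numbers `z s`, `s ∈ κ`.  Then
`|T| + |ω| ≤ |κ|`.

Proof.  Let `S = {c t | t ∉ T} ∪ {z s}` and let `L = ℚ(S)` (`IntermediateField.adjoin ℚ S`, and `hT` for its
`toSubfield`).  `Sum.elim c w` takes values in `L` and is independent, so `|ι| + |ω| ≤ trdeg_ℚ L ≤ |S| ≤ |ι| - |T| + |κ|`.
(For the second inequality: `L` is algebraic over `ℚ[S]`, so `S` contains a transcendence basis,
`exists_isTranscendenceBasis_subset`; or use the matroid `AlgebraicIndependent.matroid ℚ ℂ` and `matroid_closure_eq`.) -/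
theorem card_le_of_indep {ι κ ω : Type} [Fintype ι] [Fintype κ] [Fintype ω] (c : ι → ℂ) (z : κ → ℂ)
    (w : ω → ℂ) (T : Finset ι) (h : AlgebraicIndependent ℚ (Sum.elim c w))
    (hT : ∀ L : Subfield ℂ, (∀ t, t ∉ T → c t ∈ L) → (∀ s, z s ∈ L) →
      (∀ t ∈ T, c t ∈ L) ∧ ∀ s, w s ∈ L) :
    T.card + Fintype.card ω ≤ Fintype.card κ := by
  classical
  set S : Set ℂ := c '' {t | t ∉ T} ∪ Set.range z with hS
  have hmem : ∀ x ∈ S, x ∈ clF S := fun x hx =>
    isAlgebraic_algebraMap (⟨x, Algebra.subset_adjoin hx⟩ : Algebra.adjoin ℚ S)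
  have h1 : ∀ t, t ∉ T → c t ∈ clF S := fun t ht => hmem _ (Or.inl ⟨t, ht, rfl⟩)
  have h2 : ∀ s, z s ∈ clF S := fun s => hmem _ (Or.inr ⟨s, rfl⟩)
  obtain ⟨h3, h4⟩ := hT (clF S) h1 h2
  have h5 : ∀ i, Sum.elim c w i ∈ clF S := by
    rintro (t | s)
    · by_cases ht : t ∈ T
      · exact h3 t ht
      · exact h1 t ht
    · exact h4 s
  have h6 : Set.range (Sum.elim c w) ⊆ (AlgebraicIndependent.matroid ℚ ℂ).closure S := by
    rw [AlgebraicIndependent.matroid_closure_eq]
    rintro _ ⟨i, rfl⟩
    exact h5 i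
  have h7 : (AlgebraicIndependent.matroid ℚ ℂ).Indep (Set.range (Sum.elim c w)) :=
    AlgebraicIndependent.matroid_indep_iff.2 h.coe_range
  have h8 : (Set.range (Sum.elim c w)).encard ≤ S.encard := by
    rw [← h7.eRk_eq_encard]
    refine ((AlgebraicIndependent.matroid ℚ ℂ).eRk_mono h6).trans ?_
    rw [Matroid.eRk_closure_eq]
    exact Matroid.eRk_le_encard _ _
  have h9 : ((Fintype.card ι + Fintype.card ω : ℕ) : ℕ∞) ≤ (Set.range (Sum.elim c w)).encard := by
    have h' := h.injective.encard_range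
    rwa [ENat.card_eq_coe_fintype_card, Fintype.card_sum] at h'
  have h10 : S.encard ≤ ((Fintype.card ι - T.card + Fintype.card κ : ℕ) : ℕ∞) := by
    rw [hS]
    refine (Set.encard_union_le _ _).trans ?_
    rw [Nat.cast_add]
    refine add_le_add ?_ ?_
    · refine (Set.encard_image_le _ _).trans ?_
      have : {t | t ∉ T} = ((Tᶜ : Finset ι) : Set ι) := by
        ext t
        simp
      rw [this, Set.encard_coe_eq_coe_finsetCard, Finset.card_compl]
    · have : Set.range z = ((Finset.univ.image z : Finset ℂ) : Set ℂ) := by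
        ext t
        simp
      rw [this, Set.encard_coe_eq_coe_finsetCard]
      exact_mod_cast Finset.card_image_le
  have h11 : Fintype.card ι + Fintype.card ω ≤ Fintype.card ι - T.card + Fintype.card κ := by
    exact_mod_cast h9.trans (h8.trans h10)
  have h12 : T.card ≤ Fintype.card ι := Finset.card_le_univ T
  omega

end Pool.Agent.MP_1209e6_cy
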