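import Pool.Agent.Lib_MP_1209e6_cy.VDef

/-!
PIECE [VEA] (MP_1209e6_ag).  Elimination, first case: the kernel of the forms `A_i(x, ·)` has dimension two.
-/

open Matrix

namespace Pool.Agent.MP_1209e6_cy

variable {m : ℕ}

/-- one term of a sum is in the subfield if the sum and the other terms are -/
private theorem ela_solve {ι : Type*} [Fintype ι] [DecidableEq ι] (L : Subfield ℂ) (f : ι → ℂ) (a : ι)
    (hs : ∑ i, f i ∈ L) (h : ∀ i, i ≠ a → f i ∈ L) : f a ∈ L := by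
  have h1 : ∑ i, f i = f a + ∑ i ∈ Finset.univ.erase a, f i := by
    rw [Finset.add_sum_erase _ _ (Finset.mem_univ a)]
  have h2 : ∑ i ∈ Finset.univ.erase a, f i ∈ L :=
    L.sum_mem fun i hi => h i (Finset.ne_of_mem_erase hi)
  have h3 : f a = ∑ i, f i - ∑ i ∈ Finset.univ.erase a, f i := by rw [h1]; ring
  rw [h3]
  exact L.sub_mem hs h2

private theorem ela_plu (L : Subfield ℂ) {r : Fin m → Vec m ℂ} {w ξ : Vec m ℂ}
    (hr : ∀ i j, r i j ∈ L) (hw : ∀ j, w j ∈ L) (hξ : ∀ j, ξ j ∈ L) : plu r w ξ ∈ L := by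
  have h := Dat.map_plu (m := m) (R := L) (T := ℂ) (fun i j => (⟨r i j, hr i j⟩ : L)) L.subtype
    (fun j => ⟨w j, hw j⟩) (fun j => ⟨ξ j, hξ j⟩)
  have h2 : plu r w ξ = L.subtype (plu (fun i j => (⟨r i j, hr i j⟩ : L)) (fun j => ⟨w j, hw j⟩)
      (fun j => ⟨ξ j, hξ j⟩)) := h
  rw [h2]
  exact Subtype.mem _

private theorem ela_single (L : Subfield ℂ) (k j : Fin (m + 2)) :
    (Pi.single k 1 : Vec m ℂ) j ∈ L := by
  rw [Pi.single_apply]
  split_ifs
  · exact L.one_mem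
  · exact L.zero_mem

/-- PIECE [VEA].  Let `(x, y)` be a point of `X`, `x_{i₀} = y_{j₀} = 1`, `E'(x) = 0`, and suppose that some
`plu (swap.row x) e_k e_l ≠ 0`.  Then `m + 3` of the coefficients are rational functions of the others and of `x, y`.

Proof.  `D = datOf c`, `r = D.swap.row x` (`r_i = A_i(x, ·)`), `u = pv r e_{j₀}`, so `A_i(x, u) = 0` (`row_dot_pv` or `A_pv` for
`D.swap`) and `u_{j₀} = e_{j₀} · u = 0` (`dot_pv_self`).  `u ≠ 0`: by `plu_cramer` / `plu_single` (with `w = e_{j₀}`, and `y` in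
place of `x` there, `r_i · y = 0`, `e_{j₀} · y = 1`): `plu r e_k e_l = y_k u_l - y_l u_k`.  So there is `j₁ ≠ j₀` with
`u_{j₁} ≠ 0`.  `T` consists of the `inl (i, i₀, j₀)` (`i ∈ Fin m`) and of `inr (s(i₀, i₀), s(j₀, j₀))`,
`inr (s(i₀, i₀), s(j₀, j₁))`, `inr (s(i₀, i₀), s(j₁, j₁))`: `m + 3` elements.
Quadratic form `q(η, η') = B(x, x, η, η') = ∑_lp q_lp η_l η'_p`, `q_lp = ∑_jk x_j x_k b_jklp`.  `q(y, y) = 0`.  By `E_eq` for
`D.swap` (with `w = e_{j₀}`, `w · y = 1`) and `E' = 0`: `y_i y_j q(u, u) = (y_i u_j + u_i y_j) q(y, u)` for all `i, j`;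
`i = j = j₀` gives `q(u, u) = 0`, `i = j₀, j = j₁` gives `u_{j₁} q(y, u) = 0`, so `q(y, u) = 0`.
Let `L` be a subfield as in the statement.  `0 = A_i(x, y) = ∑ a_ijl x_j y_l` gives
`a_{i i₀ j₀} = -∑_{(j,l) ≠ (i₀, j₀)} a_ijl x_j y_l ∈ L`.  So all `a_ijl ∈ L` and `u ∈ L^(m+2)` (a determinant).  The `q_lp` with
`{l, p}` not among `{j₀, j₀}, {j₀, j₁}, {j₁, j₁}` are in `L`.  `0 = q(u, u) = u_{j₁}^2 q_{j₁j₁} + (terms in L)` (`u_{j₀} = 0`), so
`q_{j₁j₁} ∈ L`; `0 = q(y, u) = u_{j₁} q_{j₀j₁} + y_{j₁} u_{j₁} q_{j₁j₁} + (terms in L)`, so `q_{j₀j₁} ∈ L`;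
`0 = q(y, y) = q_{j₀j₀} + 2 y_{j₁} q_{j₀j₁} + ...`, so `q_{j₀j₀} ∈ L`.  Finally
`q_lp = b_{i₀i₀lp} + ∑_{(j,k) ≠ (i₀,i₀)} x_j x_k b_jklp` gives the three coefficients `b_{i₀i₀lp}`. -/
theorem elimA {c : Ix m → ℂ} {x y : Vec m ℂ} {i₀ j₀ : Fin (m + 2)} (hx : x i₀ = 1) (hy : y j₀ = 1)
    (hin : (datOf c).In x y) (hE : ∀ i j, (datOf c).swap.E x i j = 0)
    (hπ : ∃ k l, plu ((datOf c).swap.row x) (Pi.single k 1) (Pi.single l 1) ≠ 0) :
    ∃ T : Finset (Ix m), T.card = m + 3 ∧ ∀ L : Subfield ℂ, (∀ t, t ∉ T → c t ∈ L) →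
      (∀ j, x j ∈ L) → (∀ l, y l ∈ L) → ∀ t ∈ T, c t ∈ L := by
  classical
  set D := datOf c with hD
  set r := D.swap.row x with hr
  set u := pv r (Pi.single j₀ 1) with hu
  have hrA : ∀ i η, r i ⬝ᵥ η = D.A i x η := by
    intro i η
    rw [hr, ← Dat.A_eq_dot, Dat.swap_A]
  have hry : ∀ i, r i ⬝ᵥ y = 0 := fun i => by rw [hrA]; exact hin.1 i
  have huj₀ : u j₀ = 0 := by
    rw [hu]
    exact plu_self _ _
  have hey : (Pi.single j₀ 1 : Vec m ℂ) ⬝ᵥ y = 1 := by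
    rw [single_one_dotProduct, hy]
  -- a nonzero coordinate of `u`
  obtain ⟨j₁, hj₁⟩ : ∃ j₁, u j₁ ≠ 0 := by
    by_contra hcon
    push Not at hcon
    obtain ⟨k, l, hkl⟩ := hπ
    apply hkl
    have h1 := Dat.plu_single r (Pi.single j₀ 1) y hry k l
    rw [hey, mul_one, ← hu, hcon, hcon] at h1
    rw [h1]
    ring
  have hne : j₀ ≠ j₁ := by
    rintro rfl
    exact hj₁ huj₀
  -- the quadratic form
  have hsymm : D.swap.Symm := (datOf_symm c).swap
  have hyy : D.swap.B y y x x = 0 := by rw [Dat.swap_B]; exact hin.2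
  have hEq : ∀ i j, y i * y j * D.swap.B u u x x =
      (y i * u j + u i * y j) * D.swap.B y u x x := by
    intro i j
    have h1 := hsymm.E_eq (Pi.single j₀ 1) y x (fun i => by rw [Dat.swap_A]; exact hin.1 i) i j
    rw [hE, hyy, ← hr, ← hu] at h1
    linear_combination -h1
  have huu : D.swap.B u u x x = 0 := by
    have h1 := hEq j₀ j₀
    rw [hy, huj₀] at h1
    linear_combination h1
  have hyu : D.swap.B y u x x = 0 := by
    have h1 := hEq j₀ j₁
    rw [hy, huj₀, huu] at h1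
    have h2 : u j₁ * D.swap.B y u x x = 0 := by linear_combination -h1
    exact (mul_eq_zero.1 h2).resolve_left hj₁
  rw [Dat.B_eq_Q] at huu hyu hyy
  have hq : ∀ l p, D.swap.Q x l p = ∑ t : Fin (m + 2) × Fin (m + 2),
      c (Sum.inr (s(t.1, t.2), s(l, p))) * x t.1 * x t.2 := by
    intro l p
    rw [Fintype.sum_prod_type]
    rfl
  have hqs : ∀ l p, D.swap.Q x l p = D.swap.Q x p l := by
    intro l p
    rw [hq, hq, Sym2.eq_swap (a := l)]
  -- the set `T`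
  let T₁ : Finset (Ix m) := Finset.univ.image (fun i : Fin m => Sum.inl (i, i₀, j₀))
  let T₂ : Finset (Ix m) := {Sum.inr (s(i₀, i₀), s(j₀, j₀)), Sum.inr (s(i₀, i₀), s(j₀, j₁)),
    Sum.inr (s(i₀, i₀), s(j₁, j₁))}
  have hT₁ : T₁.card = m := by
    rw [Finset.card_image_of_injective, Finset.card_fin]
    intro a b hab
    have := Sum.inl_injective hab
    exact (Prod.ext_iff.1 this).1
  have hs1 : s(j₀, j₀) ≠ s(j₀, j₁) := by
    intro h
    rcases Sym2.eq_iff.1 h with ⟨_, h2⟩ | ⟨h1, h2⟩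
    · exact hne h2
    · exact hne h1
  have hs2 : s(j₀, j₀) ≠ s(j₁, j₁) := by
    intro h
    rcases Sym2.eq_iff.1 h with ⟨h1, _⟩ | ⟨h1, _⟩ <;> exact hne h1
  have hs3 : s(j₀, j₁) ≠ s(j₁, j₁) := by
    intro h
    rcases Sym2.eq_iff.1 h with ⟨h1, _⟩ | ⟨h1, _⟩ <;> exact hne h1
  have hT₂ : T₂.card = 3 := by
    rw [Finset.card_eq_three]
    refine ⟨_, _, _, ?_, ?_, ?_, rfl⟩
    · intro h
      exact hs1 (Prod.ext_iff.1 (Sum.inr_injective h)).2
    · intro h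
      exact hs2 (Prod.ext_iff.1 (Sum.inr_injective h)).2
    · intro h
      exact hs3 (Prod.ext_iff.1 (Sum.inr_injective h)).2
  have hdisj : Disjoint T₁ T₂ := by
    rw [Finset.disjoint_left]
    intro t h1 h2
    obtain ⟨i, _, rfl⟩ := Finset.mem_image.1 h1
    simp [T₂] at h2
  refine ⟨T₁ ∪ T₂, by rw [Finset.card_union_of_disjoint hdisj, hT₁, hT₂], ?_⟩
  intro L hL hxL hyL
  -- the coefficients `a`
  have hinl : ∀ i j l, ¬ (j = i₀ ∧ l = j₀) → c (Sum.inl (i, j, l)) ∈ L := by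
    intro i j l hjl
    apply hL
    intro hmem
    rcases Finset.mem_union.1 hmem with h | h
    · obtain ⟨i', _, h'⟩ := Finset.mem_image.1 h
      have h2 := Sum.inl_injective h'
      have h3 := (Prod.ext_iff.1 h2).2
      exact hjl ⟨(Prod.ext_iff.1 h3).1.symm, (Prod.ext_iff.1 h3).2.symm⟩
    · simp [T₂] at h
  have hinr : ∀ a b, (a ≠ s(i₀, i₀) ∨ (b ≠ s(j₀, j₀) ∧ b ≠ s(j₀, j₁) ∧ b ≠ s(j₁, j₁))) →
      c (Sum.inr (a, b)) ∈ L := by
    intro a b hab
    apply hL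
    intro hmem
    rcases Finset.mem_union.1 hmem with h | h
    · obtain ⟨i', _, h'⟩ := Finset.mem_image.1 h
      exact absurd h' (by simp)
    · simp only [T₂, Finset.mem_insert, Finset.mem_singleton, Sum.inr.injEq, Prod.mk.injEq] at h
      rcases hab with hab | ⟨h1, h2, h3⟩
      · rcases h with h | h | h <;> exact hab h.1
      · rcases h with h | h | h
        · exact h1 h.2
        · exact h2 h.2
        · exact h3 h.2
  have ha : ∀ i j l, c (Sum.inl (i, j, l)) ∈ L := by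
    intro i j l
    by_cases hjl : j = i₀ ∧ l = j₀
    · obtain ⟨rfl, rfl⟩ := hjl
      have h1 : ∑ t : Fin (m + 2) × Fin (m + 2), c (Sum.inl (i, t.1, t.2)) * x t.1 * y t.2 = 0 := by
        rw [Fintype.sum_prod_type]
        exact hin.1 i
      have h2 := ela_solve L (fun t : Fin (m + 2) × Fin (m + 2) =>
        c (Sum.inl (i, t.1, t.2)) * x t.1 * y t.2) (j, l) (by rw [h1]; exact L.zero_mem) (by
          rintro ⟨j', l'⟩ ht
          refine L.mul_mem (L.mul_mem (hinl i j' l' ?_) (hxL _)) (hyL _)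
          rintro ⟨rfl, rfl⟩
          exact ht rfl)
      simpa [hx, hy] using h2
    · exact hinl i j l hjl
  -- the vector `u`
  have hrL : ∀ i j, r i j ∈ L := by
    intro i j
    exact L.sum_mem fun l _ => L.mul_mem (ha i l j) (hxL l)
  have huL : ∀ l, u l ∈ L := fun l =>
    ela_plu L hrL (fun j => ela_single L j₀ j) (fun j => ela_single L l j)
  -- the form `q`
  have hqL : ∀ l p, s(l, p) ≠ s(j₀, j₀) → s(l, p) ≠ s(j₀, j₁) → s(l, p) ≠ s(j₁, j₁) →
      D.swap.Q x l p ∈ L := by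
    intro l p h1 h2 h3
    rw [hq]
    exact L.sum_mem fun t _ =>
      L.mul_mem (L.mul_mem (hinr _ _ (Or.inr ⟨h1, h2, h3⟩)) (hxL _)) (hxL _)
  have hq11 : D.swap.Q x j₁ j₁ ∈ L := by
    have h2 := ela_solve L (fun t : Fin (m + 2) × Fin (m + 2) =>
      u t.1 * D.swap.Q x t.1 t.2 * u t.2) (j₁, j₁)
      (by rw [Fintype.sum_prod_type, huu]; exact L.zero_mem) (by
        rintro ⟨l, p⟩ ht
        by_cases hl : l = j₀
        · subst hl
          simp only [huj₀, zero_mul]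
          exact L.zero_mem
        by_cases hp : p = j₀
        · subst hp
          simp only [huj₀, mul_zero]
          exact L.zero_mem
        refine L.mul_mem (L.mul_mem (huL _) (hqL _ _ ?_ ?_ ?_)) (huL _)
        · intro h
          rcases Sym2.eq_iff.1 h with ⟨h1, _⟩ | ⟨h1, _⟩ <;> exact hl h1
        · intro h
          rcases Sym2.eq_iff.1 h with ⟨h1, _⟩ | ⟨_, h1⟩
          · exact hl h1
          · exact hp h1
        · intro h
          apply ht
          rcases Sym2.eq_iff.1 h with ⟨h1, h2⟩ | ⟨h1, h2⟩ <;> exact Prod.ext h1 h2)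
    have h3 : D.swap.Q x j₁ j₁ = (u j₁)⁻¹ * (u j₁ * D.swap.Q x j₁ j₁ * u j₁) * (u j₁)⁻¹ := by
      field_simp
    rw [h3]
    exact L.mul_mem (L.mul_mem (L.inv_mem (huL _)) h2) (L.inv_mem (huL _))
  have hq01 : D.swap.Q x j₀ j₁ ∈ L := by
    have h2 := ela_solve L (fun t : Fin (m + 2) × Fin (m + 2) =>
      y t.1 * D.swap.Q x t.1 t.2 * u t.2) (j₀, j₁)
      (by rw [Fintype.sum_prod_type, hyu]; exact L.zero_mem) (by
        rintro ⟨l, p⟩ ht
        by_cases hp : p = j₀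
        · subst hp
          simp only [huj₀, mul_zero]
          exact L.zero_mem
        by_cases hlp : l = j₁ ∧ p = j₁
        · obtain ⟨rfl, rfl⟩ := hlp
          exact L.mul_mem (L.mul_mem (hyL _) hq11) (huL _)
        refine L.mul_mem (L.mul_mem (hyL _) (hqL _ _ ?_ ?_ ?_)) (huL _)
        · intro h
          rcases Sym2.eq_iff.1 h with ⟨_, h1⟩ | ⟨_, h1⟩ <;> exact hp h1
        · intro h
          rcases Sym2.eq_iff.1 h with ⟨h1, h2⟩ | ⟨_, h1⟩
          · exact ht (Prod.ext h1 h2)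
          · exact hp h1
        · intro h
          apply hlp
          rcases Sym2.eq_iff.1 h with ⟨h1, h2⟩ | ⟨h1, h2⟩ <;> exact ⟨h1, h2⟩)
    have h3 : D.swap.Q x j₀ j₁ = (y j₀ * D.swap.Q x j₀ j₁ * u j₁) * (u j₁)⁻¹ := by
      rw [hy]
      field_simp
    rw [h3]
    exact L.mul_mem h2 (L.inv_mem (huL _))
  have hq00 : D.swap.Q x j₀ j₀ ∈ L := by
    have h2 := ela_solve L (fun t : Fin (m + 2) × Fin (m + 2) =>
      y t.1 * D.swap.Q x t.1 t.2 * y t.2) (j₀, j₀)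
      (by rw [Fintype.sum_prod_type, hyy]; exact L.zero_mem) (by
        rintro ⟨l, p⟩ ht
        refine L.mul_mem (L.mul_mem (hyL _) ?_) (hyL _)
        by_cases h1 : s(l, p) = s(j₀, j₁)
        · rcases Sym2.eq_iff.1 h1 with ⟨rfl, rfl⟩ | ⟨rfl, rfl⟩
          · exact hq01
          · rw [hqs]
            exact hq01
        by_cases h2 : s(l, p) = s(j₁, j₁)
        · rcases Sym2.eq_iff.1 h2 with ⟨rfl, rfl⟩ | ⟨rfl, rfl⟩ <;> exact hq11
        refine hqL _ _ ?_ h1 h2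
        intro h
        apply ht
        rcases Sym2.eq_iff.1 h with ⟨h1, h2⟩ | ⟨h1, h2⟩ <;> exact Prod.ext h1 h2)
    simpa [hy] using h2
  -- the three coefficients `b`
  have hb : ∀ l p, D.swap.Q x l p ∈ L → c (Sum.inr (s(i₀, i₀), s(l, p))) ∈ L := by
    intro l p hlp
    rw [hq] at hlp
    have h2 := ela_solve L (fun t : Fin (m + 2) × Fin (m + 2) =>
      c (Sum.inr (s(t.1, t.2), s(l, p))) * x t.1 * x t.2) (i₀, i₀) hlp (by
        rintro ⟨j, k⟩ ht
        refine L.mul_mem (L.mul_mem (hinr _ _ (Or.inl ?_)) (hxL _)) (hxL _)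
        intro h
        apply ht
        rcases Sym2.eq_iff.1 h with ⟨h1, h2⟩ | ⟨h1, h2⟩ <;> exact Prod.ext h1 h2)
    simpa [hx] using h2
  intro t ht
  rcases Finset.mem_union.1 ht with h | h
  · obtain ⟨i, _, rfl⟩ := Finset.mem_image.1 h
    exact ha _ _ _
  · simp only [T₂, Finset.mem_insert, Finset.mem_singleton] at h
    rcases h with rfl | rfl | rfl
    · exact hb _ _ hq00
    · exact hb _ _ hq01
    · exact hb _ _ hq11

end Pool.Agent.MP_1209e6_cy
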