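import Mathlib

/-!
PIECE [VEL] (MP_1209e6_ag).  Linear algebra over a subfield.
-/

namespace Pool.Agent.MP_1209e6_cy

/-- PIECE [VEL].  Linear algebra over a subfield.  Let `r i ∈ L^N` (`i ∈ ι`) and let `s = ∑ d_i r_i` be a complex
linear combination.  There is a set `K` of at most `|ι|` coordinates, depending only on the `r_i`, such that `s ∈ L^N` as
soon as `s_l ∈ L` for `l ∈ K`.

Proof.  `W = span_ℂ (r_i)`, `dim W ≤ |ι|`.  There is a set `K` of `dim W` coordinates such that the restriction `W → ℂ^K` is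
injective (the coordinate functionals span the dual of `W`; choose a basis of the dual among them, for instance
`exists_linearIndependent_extension` or `Basis` from a spanning family).  Let `φ : ℂ → L` be an `L`-linear map with
`φ = id` on `L` (`LinearMap.exists_leftInverse_of_injective` for `L → ℂ`).  `s' = ∑ φ(d_i) r_i` is in `L^N ∩ W` and for `l ∈ K`
`s'_l = ∑ φ(d_i) r_il = φ(∑ d_i r_il) = φ(s_l) = s_l`, so `s' - s ∈ W` vanishes on `K` and `s = s'`. -/
theorem exists_coords_subfield {ι : Type} [Fintype ι] {N : ℕ} (r : ι → Fin N → ℂ) :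
    ∃ K : Finset (Fin N), K.card ≤ Fintype.card ι ∧ ∀ (L : Subfield ℂ), (∀ i l, r i l ∈ L) →
      ∀ (d : ι → ℂ), (∀ l ∈ K, ∑ i, d i * r i l ∈ L) → ∀ l, ∑ i, d i * r i l ∈ L := by
  classical
  obtain ⟨κ, a, ha, hspan, hli⟩ := exists_linearIndependent' ℂ (fun (l : Fin N) (i : ι) => r i l)
  have hκ : Finite κ := Finite.of_injective a ha
  have hκ' : Fintype κ := Fintype.ofFinite κ
  refine ⟨Finset.univ.image a, ?_, ?_⟩
  · rw [Finset.card_image_of_injective _ ha, Finset.card_univ]
    have h1 := hli.fintype_card_le_finrank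
    rwa [Module.finrank_fintype_fun_eq_card] at h1
  · intro L hL d hd l
    -- a functional vanishing on the chosen columns vanishes on all columns
    have hvan : ∀ e : ι → ℂ, (∀ j : κ, ∑ i, e i * r i (a j) = 0) → ∀ l, ∑ i, e i * r i l = 0 := by
      intro e he l
      let F : (ι → ℂ) →ₗ[ℂ] ℂ := ∑ i, e i • LinearMap.proj i
      have hF : ∀ v : ι → ℂ, F v = ∑ i, e i * v i := by
        intro v
        simp [F]
      have h1 : Submodule.span ℂ (Set.range ((fun (l : Fin N) (i : ι) => r i l) ∘ a)) ≤
          LinearMap.ker F := by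
        rw [Submodule.span_le]
        rintro _ ⟨j, rfl⟩
        show F _ = 0
        rw [hF]
        exact he j
      rw [hspan] at h1
      have h2 := h1 (Submodule.subset_span ⟨l, rfl⟩)
      have h3 : F (fun i => r i l) = 0 := h2
      rwa [hF] at h3
    obtain ⟨φ, hφ⟩ := LinearMap.exists_leftInverse_of_injective (Algebra.linearMap L ℂ)
      (LinearMap.ker_eq_bot.2 (algebraMap L ℂ).injective)
    have hφ' : ∀ x : L, φ (x : ℂ) = x := fun x => LinearMap.congr_fun hφ x
    have hsum : ∀ l, φ (∑ i, d i * r i l) = ∑ i, φ (d i) * ⟨r i l, hL i l⟩ := by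
      intro l
      rw [map_sum]
      refine Finset.sum_congr rfl fun i _ => ?_
      have h1 : d i * r i l = (⟨r i l, hL i l⟩ : L) • d i := by
        rw [Subfield.smul_def, smul_eq_mul, mul_comm]
      rw [h1, map_smul, smul_eq_mul, mul_comm]
    have hdiff : ∀ l, ∑ i, (d i - (φ (d i) : ℂ)) * r i l = 0 := by
      apply hvan
      intro j
      have h1 := hd (a j) (Finset.mem_image_of_mem a (Finset.mem_univ j))
      have h2 := hφ' ⟨_, h1⟩
      rw [hsum] at h2
      have h3 := congrArg (fun x : L => (x : ℂ)) h2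
      simp only [AddSubmonoidClass.coe_finsetSum, MulMemClass.coe_mul] at h3
      simp only [sub_mul, Finset.sum_sub_distrib]
      rw [h3, sub_self]
    have h1 := hdiff l
    simp only [sub_mul, Finset.sum_sub_distrib] at h1
    rw [sub_eq_zero.1 h1]
    exact sum_mem fun i _ => mul_mem (φ (d i)).2 (hL i l)

end Pool.Agent.MP_1209e6_cy
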