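import Pool.Agent.Lib_MP_1209e6_cy.VDef
import Pool.Agent.Lib_MP_1209e6_cy.VElimL

/-!
PIECE [VEB] (MP_1209e6_ag).  Elimination, second case: the forms `A_i(x, ·)` are linearly dependent.
-/

open Matrix

namespace Pool.Agent.MP_1209e6_cy

variable {m : ℕ}

/-- isolate one term of a sum -/
private theorem veb_iso {α : Type*} [Fintype α] [DecidableEq α] (L : Subfield ℂ) (f : α → ℂ) (a : α)
    (hs : ∑ b, f b ∈ L) (hb : ∀ b, b ≠ a → f b ∈ L) : f a ∈ L := by
  have h1 : f a = ∑ b, f b - ∑ b ∈ Finset.univ.erase a, f b := by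
    rw [← Finset.add_sum_erase Finset.univ f (Finset.mem_univ a)]
    ring
  rw [h1]
  exact L.sub_mem hs (L.sum_mem fun b hb' => hb b (Finset.ne_of_mem_erase hb'))

private theorem veb_indep {r : Fin m → Vec m ℂ}
    (hpi : ∀ k l, plu r (Pi.single k 1) (Pi.single l 1) = 0) : ¬ LinearIndependent ℂ r := by
  have hall : ∀ w ξ : Vec m ℂ, plu r w ξ = 0 := by
    intro w ξ
    rw [← dot_pv]
    unfold dotProduct
    refine Finset.sum_eq_zero fun j _ => ?_
    have h1 : pv r w j = - (w ⬝ᵥ pv r (Pi.single j 1)) := by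
      rw [dot_pv]
      exact plu_antisymm _ _ _
    have h2 : w ⬝ᵥ pv r (Pi.single j 1) = 0 := by
      unfold dotProduct
      refine Finset.sum_eq_zero fun i _ => ?_
      have h3 : pv r (Pi.single j 1) i = 0 := hpi j i
      rw [h3, mul_zero]
    rw [h1, h2, neg_zero, mul_zero]
  intro hli
  have hex : ∀ (n : ℕ) (v : Fin n → Vec m ℂ), n < m + 2 →
      ∃ x, x ∉ Submodule.span ℂ (Set.range v) := by
    intro n v hn
    by_contra hcon
    push Not at hcon
    have h1 : Submodule.span ℂ (Set.range v) = ⊤ := by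
      rw [eq_top_iff]
      exact fun x _ => hcon x
    have h2 := finrank_range_le_card (R := ℂ) v
    unfold Set.finrank at h2
    rw [h1, finrank_top, Module.finrank_fin_fun, Fintype.card_fin] at h2
    omega
  obtain ⟨ξ, hξ⟩ := hex m r (by omega)
  have h1 : LinearIndependent ℂ (vecCons ξ r : Fin (m + 1) → Vec m ℂ) :=
    linearIndependent_finCons.mpr ⟨hli, hξ⟩
  obtain ⟨w, hw⟩ := hex (m + 1) (vecCons ξ r) (by omega)
  have h2 : LinearIndependent ℂ (vecCons w (vecCons ξ r) : Fin (m + 2) → Vec m ℂ) :=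
    linearIndependent_finCons.mpr ⟨h1, hw⟩
  have h3 := hall w ξ
  unfold plu at h3
  have h4 : IsUnit (Matrix.of (vecCons w (vecCons ξ r)) : Matrix (Fin (m + 2)) (Fin (m + 2)) ℂ) :=
    Matrix.linearIndependent_rows_iff_isUnit.mp h2
  rw [Matrix.isUnit_iff_isUnit_det, h3] at h4
  exact not_isUnit_zero h4

/-- PIECE [VEB].  Let `(x, y)` be a point of `X`, `x_{i₀} = y_{j₀} = 1`, and suppose that all
`plu (swap.row x) e_k e_l` vanish.  Then at least `m + 3` of the coefficients are rational functions of the others and of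
`x, y`.

Proof.  `D = datOf c`, `r_i = D.swap.row x i = A_i(x, ·) ∈ ℂ^(m+2)`.  These `m` vectors are linearly dependent: otherwise
(`m` independent vectors in an `(m+2)`-dimensional space) two coordinate vectors `e_k, e_l` would complete them to a
basis and the determinant `plu r e_k e_l` would not be zero (see the proof of `Symm.three_points` in `Points3.lean`,
case 2).  So there is `i₁` with `r_{i₁} = ∑_{i ≠ i₁} d_i r_i`.  Let `K`, `|K| ≤ m - 1`, be the set of `exists_coords_subfield` for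
the family `(r_i)_{i ≠ i₁}`.  `T` consists of the `inl (i, i₀, j₀)`, `i ≠ i₁` (`m - 1` elements), of the `inl (i₁, i₀, l)`,
`l ∉ K` (at least `3` elements) and of `inr (s(i₀, i₀), s(j₀, j₀))`.
For a subfield `L`: `0 = A_i(x, y)` gives `a_{i i₀ j₀} ∈ L` for `i ≠ i₁`, so `r_i ∈ L^(m+2)` for `i ≠ i₁`; `r_{i₁ l} ∈ L` for `l ∈ K`
(no coefficient `a_{i₁ j l}`, `l ∈ K`, is in `T`), so `r_{i₁} ∈ L^(m+2)`, and `r_{i₁ l} = a_{i₁ i₀ l} + ∑_{j ≠ i₀} x_j a_{i₁ j l}`
gives `a_{i₁ i₀ l} ∈ L`.  `0 = B(x, x, y, y) = b_{i₀i₀j₀j₀} + ...` gives the last one. -/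
theorem elimB {c : Ix m → ℂ} {x y : Vec m ℂ} {i₀ j₀ : Fin (m + 2)} (hx : x i₀ = 1) (hy : y j₀ = 1)
    (hin : (datOf c).In x y)
    (hπ : ∀ k l, plu ((datOf c).swap.row x) (Pi.single k 1) (Pi.single l 1) = 0) :
    ∃ T : Finset (Ix m), m + 3 ≤ T.card ∧ ∀ L : Subfield ℂ, (∀ t, t ∉ T → c t ∈ L) →
      (∀ j, x j ∈ L) → (∀ l, y l ∈ L) → ∀ t ∈ T, c t ∈ L := by
  classical
  have hrow : ∀ i l, (datOf c).swap.row x i l = ∑ j, c (Sum.inl (i, j, l)) * x j := fun _ _ => rfl
  obtain ⟨g, hg, i₁, hg₁⟩ := Fintype.not_linearIndependent_iff.1 (veb_indep hπ)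
  obtain ⟨K, hK, hKL⟩ := exists_coords_subfield
    (fun i : {i : Fin m // i ≠ i₁} => (datOf c).swap.row x i.1)
  -- the dependent row
  have hdep : ∀ l, ∑ i : {i : Fin m // i ≠ i₁}, (-(g i.1) / g i₁) * (datOf c).swap.row x i.1 l
      = (datOf c).swap.row x i₁ l := by
    intro l
    have h1 : ∑ i, g i * (datOf c).swap.row x i l = 0 := by
      have h2 := congrFun hg l
      rw [Finset.sum_apply] at h2
      exact h2
    rw [← Finset.add_sum_erase Finset.univ _ (Finset.mem_univ i₁)] at h1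
    have h3 : ∑ i : {i : Fin m // i ≠ i₁}, (-(g i.1) / g i₁) * (datOf c).swap.row x i.1 l
        = ∑ i ∈ Finset.univ.erase i₁, (-(g i) / g i₁) * (datOf c).swap.row x i l := by
      refine (Finset.sum_subtype (Finset.univ.erase i₁) (fun i => ?_)
        (fun i => (-(g i) / g i₁) * (datOf c).swap.row x i l)).symm
      simp
    have h4 : ∑ i ∈ Finset.univ.erase i₁, (-(g i) / g i₁) * (datOf c).swap.row x i l
        = -(g i₁)⁻¹ * ∑ i ∈ Finset.univ.erase i₁, g i * (datOf c).swap.row x i l := by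
      rw [Finset.mul_sum]
      refine Finset.sum_congr rfl fun i _ => ?_
      rw [div_eq_mul_inv]
      ring
    rw [h3, h4]
    have h5 : ∑ i ∈ Finset.univ.erase i₁, g i * (datOf c).swap.row x i l
        = - (g i₁ * (datOf c).swap.row x i₁ l) := by linear_combination h1
    rw [h5]
    field_simp
  -- the set of coefficients
  let G : ({i : Fin m // i ≠ i₁} ⊕ ({l : Fin (m + 2) // l ∉ K} ⊕ Unit)) → Ix m := fun t =>
    match t with
    | Sum.inl i => Sum.inl (i.1, i₀, j₀)
    | Sum.inr (Sum.inl l) => Sum.inl (i₁, i₀, l.1)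
    | Sum.inr (Sum.inr _) => Sum.inr (s(i₀, i₀), s(j₀, j₀))
  have hG : Function.Injective G := by
    rintro (i | l | u) (i' | l' | u') h
    · have h1 : (Sum.inl (i.1, i₀, j₀) : Ix m) = Sum.inl (i'.1, i₀, j₀) := h
      have h2 : i.1 = i'.1 := by
        have := Sum.inl.inj h1
        exact congrArg Prod.fst this
      rw [Subtype.ext h2]
    · exfalso
      have h1 : (Sum.inl (i.1, i₀, j₀) : Ix m) = Sum.inl (i₁, i₀, l'.1) := h
      exact i.2 (congrArg Prod.fst (Sum.inl.inj h1))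
    · exact absurd h (by intro h; cases h)
    · exfalso
      have h1 : (Sum.inl (i₁, i₀, l.1) : Ix m) = Sum.inl (i'.1, i₀, j₀) := h
      exact i'.2 (congrArg Prod.fst (Sum.inl.inj h1)).symm
    · have h1 : (Sum.inl (i₁, i₀, l.1) : Ix m) = Sum.inl (i₁, i₀, l'.1) := h
      have h2 : l.1 = l'.1 := congrArg (fun t => t.2.2) (Sum.inl.inj h1)
      rw [Subtype.ext h2]
    · exact absurd h (by intro h; cases h)
    · exact absurd h (by intro h; cases h)
    · exact absurd h (by intro h; cases h)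
    · rfl
  have hT1 : ∀ i j l, i ≠ i₁ → (j, l) ≠ (i₀, j₀) →
      (Sum.inl (i, j, l) : Ix m) ∉ Finset.univ.map ⟨G, hG⟩ := by
    intro i j l hi hjl hmem
    rw [Finset.mem_map] at hmem
    obtain ⟨t, -, ht⟩ := hmem
    rcases t with t | t | t
    · have h1 : (Sum.inl (t.1, i₀, j₀) : Ix m) = Sum.inl (i, j, l) := ht
      exact hjl (congrArg Prod.snd (Sum.inl.inj h1)).symm
    · have h1 : (Sum.inl (i₁, i₀, t.1) : Ix m) = Sum.inl (i, j, l) := ht
      exact hi (congrArg Prod.fst (Sum.inl.inj h1)).symm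
    · have h1 : (Sum.inr (s(i₀, i₀), s(j₀, j₀)) : Ix m) = Sum.inl (i, j, l) := ht
      cases h1
  have hT2 : ∀ j l, (j ≠ i₀ ∨ l ∈ K) →
      (Sum.inl (i₁, j, l) : Ix m) ∉ Finset.univ.map ⟨G, hG⟩ := by
    intro j l hjl hmem
    rw [Finset.mem_map] at hmem
    obtain ⟨t, -, ht⟩ := hmem
    rcases t with t | t | t
    · have h1 : (Sum.inl (t.1, i₀, j₀) : Ix m) = Sum.inl (i₁, j, l) := ht
      exact t.2 (congrArg Prod.fst (Sum.inl.inj h1))
    · have h1 : (Sum.inl (i₁, i₀, t.1) : Ix m) = Sum.inl (i₁, j, l) := ht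
      have h2 : i₀ = j := congrArg (fun t => t.2.1) (Sum.inl.inj h1)
      have h3 : t.1 = l := congrArg (fun t => t.2.2) (Sum.inl.inj h1)
      rcases hjl with hj | hl
      · exact hj h2.symm
      · rw [← h3] at hl
        exact t.2 hl
    · have h1 : (Sum.inr (s(i₀, i₀), s(j₀, j₀)) : Ix m) = Sum.inl (i₁, j, l) := ht
      cases h1
  have hT3 : ∀ j k l q, (j, k, l, q) ≠ (i₀, i₀, j₀, j₀) →
      (Sum.inr (s(j, k), s(l, q)) : Ix m) ∉ Finset.univ.map ⟨G, hG⟩ := by
    intro j k l q hne hmem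
    rw [Finset.mem_map] at hmem
    obtain ⟨t, -, ht⟩ := hmem
    rcases t with t | t | t
    · have h1 : (Sum.inl (t.1, i₀, j₀) : Ix m) = Sum.inr (s(j, k), s(l, q)) := ht
      cases h1
    · have h1 : (Sum.inl (i₁, i₀, t.1) : Ix m) = Sum.inr (s(j, k), s(l, q)) := ht
      cases h1
    · have h1 : (Sum.inr (s(i₀, i₀), s(j₀, j₀)) : Ix m) = Sum.inr (s(j, k), s(l, q)) := ht
      have h2 := Sum.inr.inj h1
      have h3 : s(i₀, i₀) = s(j, k) := congrArg Prod.fst h2
      have h4 : s(j₀, j₀) = s(l, q) := congrArg Prod.snd h2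
      rw [Sym2.eq_iff] at h3 h4
      apply hne
      rcases h3 with ⟨h3, h3'⟩ | ⟨h3, h3'⟩ <;> rcases h4 with ⟨h4, h4'⟩ | ⟨h4, h4'⟩ <;>
        rw [← h3, ← h3', ← h4, ← h4']
  refine ⟨Finset.univ.map ⟨G, hG⟩, ?_, ?_⟩
  · rw [Finset.card_map, Finset.card_univ, Fintype.card_sum, Fintype.card_sum, Fintype.card_unit]
    have h1 : Fintype.card {i : Fin m // i ≠ i₁} = m - 1 := by
      rw [Fintype.card_subtype_compl, Fintype.card_fin, Fintype.card_subtype_eq]
    have h2 : Fintype.card {l : Fin (m + 2) // l ∉ K} = m + 2 - K.card := by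
      rw [Fintype.card_subtype_compl, Fintype.card_fin, Fintype.card_coe]
    rw [h1] at hK
    rw [h1, h2]
    have h3 : 0 < m := i₁.pos
    omega
  · intro L hc hxL hyL
    -- the coefficients of the forms `i ≠ i₁`
    have ha : ∀ i, i ≠ i₁ → ∀ j l, c (Sum.inl (i, j, l)) ∈ L := by
      intro i hi
      have h0 : c (Sum.inl (i, i₀, j₀)) ∈ L := by
        have h1 := veb_iso L (fun p : Fin (m + 2) × Fin (m + 2) =>
          c (Sum.inl (i, p.1, p.2)) * x p.1 * y p.2) (i₀, j₀) (by
            have h2 := hin.1 i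
            unfold Dat.A at h2
            rw [Fintype.sum_prod_type]
            have h3 : ∑ j, ∑ l, c (Sum.inl (i, j, l)) * x j * y l = 0 := h2
            rw [h3]
            exact L.zero_mem) (by
            rintro ⟨j, l⟩ hjl
            exact L.mul_mem (L.mul_mem (hc _ (hT1 i j l hi hjl)) (hxL j)) (hyL l))
        simp only [hx, hy, mul_one] at h1
        exact h1
      intro j l
      by_cases hjl : (j, l) = (i₀, j₀)
      · have h1 : j = i₀ := congrArg Prod.fst hjl
        have h2 : l = j₀ := congrArg Prod.snd hjl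
        rw [h1, h2]
        exact h0
      · exact hc _ (hT1 i j l hi hjl)
    have hr : ∀ (i : {i : Fin m // i ≠ i₁}) l, (datOf c).swap.row x i.1 l ∈ L := by
      intro i l
      rw [hrow]
      exact L.sum_mem fun j _ => L.mul_mem (ha i.1 i.2 j l) (hxL j)
    have hr₁ : ∀ l, (datOf c).swap.row x i₁ l ∈ L := by
      intro l
      rw [← hdep]
      refine hKL L hr _ (fun l hl => ?_) l
      rw [hdep, hrow]
      exact L.sum_mem fun j _ => L.mul_mem (hc _ (hT2 j l (Or.inr hl))) (hxL j)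
    have ha₁ : ∀ l, c (Sum.inl (i₁, i₀, l)) ∈ L := by
      intro l
      have h1 := veb_iso L (fun j => c (Sum.inl (i₁, j, l)) * x j) i₀ (by
        rw [← hrow]
        exact hr₁ l) (by
        intro j hj
        exact L.mul_mem (hc _ (hT2 j l (Or.inl hj))) (hxL j))
      simp only [hx, mul_one] at h1
      exact h1
    have hb : c (Sum.inr (s(i₀, i₀), s(j₀, j₀))) ∈ L := by
      have h1 := veb_iso L
        (fun p : Fin (m + 2) × Fin (m + 2) × Fin (m + 2) × Fin (m + 2) =>
          c (Sum.inr (s(p.1, p.2.1), s(p.2.2.1, p.2.2.2))) * x p.1 * x p.2.1 * y p.2.2.1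
            * y p.2.2.2) (i₀, i₀, j₀, j₀) (by
          have h2 := hin.2
          unfold Dat.B at h2
          rw [Fintype.sum_prod_type]
          have h3 : ∑ j, ∑ p : Fin (m + 2) × Fin (m + 2) × Fin (m + 2),
              c (Sum.inr (s(j, p.1), s(p.2.1, p.2.2))) * x j * x p.1 * y p.2.1 * y p.2.2
              = ∑ j, ∑ k, ∑ l, ∑ q, c (Sum.inr (s(j, k), s(l, q))) * x j * x k * y l * y q := by
            refine Finset.sum_congr rfl fun j _ => ?_
            rw [Fintype.sum_prod_type]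
            refine Finset.sum_congr rfl fun k _ => ?_
            rw [Fintype.sum_prod_type]
          have h4 : ∑ j, ∑ k, ∑ l, ∑ q, c (Sum.inr (s(j, k), s(l, q))) * x j * x k * y l * y q
              = 0 := h2
          have h5 := h3.trans h4
          rw [h5]
          exact L.zero_mem) (by
          rintro ⟨j, k, l, q⟩ hne
          exact L.mul_mem (L.mul_mem (L.mul_mem (L.mul_mem (hc _ (hT3 j k l q hne)) (hxL j))
            (hxL k)) (hyL l)) (hyL q))
      simp only [hx, hy, mul_one] at h1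
      exact h1
    intro t ht
    rw [Finset.mem_map] at ht
    obtain ⟨t', -, rfl⟩ := ht
    rcases t' with t' | t' | t'
    · exact ha t'.1 t'.2 i₀ j₀
    · exact ha₁ t'.1
    · exact hb

end Pool.Agent.MP_1209e6_cy
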