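import Pool.Agent.Lib_MP_1209e6_cy.VCnt
import Pool.Agent.Lib_MP_1209e6_cy.VElimA
import Pool.Agent.Lib_MP_1209e6_cy.VElimB

/-!
# Exceptional points of a variety with generic coefficients
-/

open Matrix

namespace Pool.Agent.MP_1209e6_cy

variable {m : ℕ}

theorem exists_elim {c : Ix m → ℂ} {x y : Vec m ℂ} {i₀ j₀ : Fin (m + 2)} (hx : x i₀ = 1)
    (hy : y j₀ = 1) (hin : (datOf c).In x y) (hE : ∀ i j, (datOf c).swap.E x i j = 0) :
    ∃ T : Finset (Ix m), m + 3 ≤ T.card ∧ ∀ L : Subfield ℂ, (∀ t, t ∉ T → c t ∈ L) →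
      (∀ j, x j ∈ L) → (∀ l, y l ∈ L) → ∀ t ∈ T, c t ∈ L := by
  by_cases hπ : ∃ k l, plu ((datOf c).swap.row x) (Pi.single k 1) (Pi.single l 1) ≠ 0
  · obtain ⟨T, hT, h⟩ := elimA hx hy hin hE hπ
    exact ⟨T, hT.ge, h⟩
  · push Not at hπ
    exact elimB hx hy hin hπ

/-- Over the field generated by the coefficients, a point over an exceptional point has transcendence degree less
than `m`. -/
theorem count_exc {c : Ix m → ℂ} {x y : Vec m ℂ} {i₀ j₀ : Fin (m + 2)} (hx : x i₀ = 1)
    (hy : y j₀ = 1) (hin : (datOf c).In x y) (hE : ∀ i j, (datOf c).swap.E x i j = 0)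
    {J : Finset (Fin (m + 2) ⊕ Fin (m + 2))} (hJ : m ≤ J.card) :
    ¬ AlgebraicIndependent ℚ (Sum.elim c (fun j : J => Sum.elim x y j)) := by
  intro h
  obtain ⟨T, hT, hL⟩ := exists_elim hx hy hin hE
  have key := card_le_of_indep c
    (Sum.elim (fun j : {j : Fin (m + 2) // j ≠ i₀} => x j)
      (fun j : {j : Fin (m + 2) // j ≠ j₀} => y j)) (fun j : J => Sum.elim x y j) T h (by
      intro L h1 h2
      have hxL : ∀ j, x j ∈ L := by
        intro j
        by_cases hj : j = i₀
        · rw [hj, hx]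
          exact L.one_mem
        · exact h2 (Sum.inl ⟨j, hj⟩)
      have hyL : ∀ j, y j ∈ L := by
        intro j
        by_cases hj : j = j₀
        · rw [hj, hy]
          exact L.one_mem
        · exact h2 (Sum.inr ⟨j, hj⟩)
      refine ⟨hL L h1 hxL hyL, ?_⟩
      rintro ⟨j | j, hj⟩
      · exact hxL j
      · exact hyL j)
  rw [Fintype.card_sum, Fintype.card_subtype_compl, Fintype.card_subtype_compl] at key
  simp only [Fintype.card_fin, Fintype.card_unique, Fintype.card_coe] at key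
  omega

end Pool.Agent.MP_1209e6_cy
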