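import Pool.Agent.Lib_MP_1209e6_cy.Ident
import Pool.Agent.Lib_MP_1209e6_cy.ProjDef

/-!
# Varieties with generic coefficients
-/

open Matrix MvPolynomial

namespace Pool.Agent.MP_1209e6_cy

variable {m : ℕ} {R S : Type*} [CommRing R] [CommRing S]

set_option linter.unusedSectionVars false

/-- The index set of the coefficients: `(i, j, l)` for the coefficient of `x_j y_l` in the `i`-th bilinear
form, `({j, k}, {l, p})` for the coefficient of `x_j x_k y_l y_p` in the form of bidegree `(2, 2)`. -/
abbrev Ix (m : ℕ) := (Fin m × Fin (m + 2) × Fin (m + 2)) ⊕ (Sym2 (Fin (m + 2)) × Sym2 (Fin (m + 2)))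

/-- the data with the coefficients `c` -/
def datOf (c : Ix m → R) : Dat m R :=
  ⟨fun i j l => c (Sum.inl (i, j, l)), fun j k l p => c (Sum.inr (s(j, k), s(l, p)))⟩

theorem datOf_a (c : Ix m → R) (i : Fin m) (j l : Fin (m + 2)) :
    (datOf c).a i j l = c (Sum.inl (i, j, l)) := rfl

theorem datOf_b (c : Ix m → R) (j k l p : Fin (m + 2)) :
    (datOf c).b j k l p = c (Sum.inr (s(j, k), s(l, p))) := rfl

theorem datOf_symm (c : Ix m → R) : (datOf c).Symm := by
  constructor
  · intro j k l p
    rw [datOf_b, datOf_b, Sym2.eq_swap]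
  · intro j k l p
    rw [datOf_b, datOf_b, Sym2.eq_swap (a := l)]

/-- exchange of the two factors -/
def swapIx (m : ℕ) : Ix m → Ix m :=
  Sum.map (fun t => (t.1, t.2.2, t.2.1)) (fun t => (t.2, t.1))

theorem swapIx_swapIx (t : Ix m) : swapIx m (swapIx m t) = t := by
  rcases t with t | t <;> rfl

theorem swapIx_injective : Function.Injective (swapIx m) :=
  Function.LeftInverse.injective swapIx_swapIx

theorem datOf_swap (c : Ix m → R) : (datOf c).swap = datOf (c ∘ swapIx m) := rfl

theorem datOf_map (c : Ix m → R) (f : R →+* S) : (datOf c).map f = datOf (f ∘ c) := rfl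

end Pool.Agent.MP_1209e6_cy
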