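import Mathlib

/-!
PIECE [VFH] (MP_1209e6_ag).  A countable field of definition; evaluation on a line through the origin.
-/

open MvPolynomial

namespace Pool.Agent.MP_1209e6_cy

/-- PIECE [VFH].  A countable field containing finitely many numbers and the coefficients of a polynomial.

Proof.  Adjoin them to `ℚ` (`IntermediateField.cardinalMk_adjoin_le`; see `exists_countable_field` in `Generic.lean`). -/
theorem exists_field_poly {ι : Type} [Finite ι] {N : ℕ} (c : ι → ℂ) (H : MvPolynomial (Fin N) ℂ) :
    ∃ k : IntermediateField ℚ ℂ, (k : Set ℂ).Countable ∧ (∀ t, c t ∈ k) ∧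
      ∃ H₀ : MvPolynomial (Fin N) k, MvPolynomial.map (algebraMap k ℂ) H₀ = H := by
  set s : Set ℂ := Set.range c ∪ ((fun d => coeff d H) '' (H.support : Set (Fin N →₀ ℕ))) with hs
  have hfin : s.Finite := (Set.finite_range _).union ((Finset.finite_toSet _).image _)
  refine ⟨IntermediateField.adjoin ℚ s, ?_, ?_, ?_⟩
  · have h2 : Cardinal.mk (IntermediateField.adjoin ℚ s) ≤ Cardinal.aleph0 := by
      have h3 := IntermediateField.cardinalMk_adjoin_le ℚ s
      have h4 : Cardinal.mk s ≤ Cardinal.aleph0 := Cardinal.mk_le_aleph0_iff.2 hfin.countable.to_subtype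
      refine h3.trans ?_
      simp [h4]
    have h3 : Countable (IntermediateField.adjoin ℚ s) := Cardinal.mk_le_aleph0_iff.1 h2
    exact h3
  · intro t
    exact IntermediateField.subset_adjoin ℚ s (Or.inl ⟨t, rfl⟩)
  · have hc : ∀ d ∈ H.support, coeff d H ∈ IntermediateField.adjoin ℚ s := fun d hd =>
      IntermediateField.subset_adjoin ℚ s (Or.inr ⟨d, hd, rfl⟩)
    refine ⟨∑ d ∈ H.support.attach, monomial d.1 ⟨coeff d.1 H, hc d.1 d.2⟩, ?_⟩
    rw [map_sum]
    conv_rhs => rw [← H.support_sum_monomial_coeff]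
    rw [← Finset.sum_attach H.support (fun d => monomial d (coeff d H))]
    refine Finset.sum_congr rfl fun d _ => ?_
    rw [map_monomial]
    rfl

/-- evaluation of a homogeneous polynomial at a multiple -/
theorem vfh_aeval_smul {N : ℕ} {G : MvPolynomial (Fin N) ℂ} {e : ℕ} (hG : G.IsHomogeneous e)
    (x : Fin N → ℂ) (s : ℂ) : aeval (s • x) G = s ^ e * aeval x G := by
  rw [aeval_def, aeval_def, eval₂_eq, eval₂_eq, Finset.mul_sum]
  refine Finset.sum_congr rfl fun d hd => ?_
  have h1 : d.degree = e := by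
    have h2 := hG (mem_support_iff.1 hd)
    rw [← h2, Finsupp.degree_eq_weight_one]
    rfl
  have h3 : ∏ i ∈ d.support, (s • x) i ^ d i = s ^ e * ∏ i ∈ d.support, x i ^ d i := by
    have h4 : ∀ i ∈ d.support, (s • x) i ^ d i = s ^ d i * x i ^ d i := fun i _ => by
      rw [Pi.smul_apply, smul_eq_mul, mul_pow]
    rw [Finset.prod_congr rfl h4, Finset.prod_mul_distrib, Finset.prod_pow_eq_pow_sum, ← h1]
    rfl
  rw [h3]
  ring

/-- PIECE [VFH].  If `H(s x) = 0` for all `s ≠ 0` then the homogeneous components of `H` vanish at `x`.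

Proof.  `H(s x) = ∑_e s^e H_e(x)` is a polynomial in `s` with infinitely many zeros. -/
theorem component_eq_zero {N : ℕ} (H : MvPolynomial (Fin N) ℂ) (x : Fin N → ℂ)
    (h : ∀ s : ℂ, s ≠ 0 → aeval (s • x) H = 0) (e : ℕ) : aeval x (homogeneousComponent e H) = 0 := by
  set p : Polynomial ℂ := ∑ i ∈ Finset.range (H.totalDegree + 1),
    Polynomial.C (aeval x (homogeneousComponent i H)) * Polynomial.X ^ i with hp
  have hev : ∀ s : ℂ, p.eval s = aeval (s • x) H := by
    intro s
    conv_rhs => rw [← sum_homogeneousComponent H]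
    rw [hp, Polynomial.eval_finsetSum, map_sum]
    refine Finset.sum_congr rfl fun i _ => ?_
    rw [vfh_aeval_smul (homogeneousComponent_isHomogeneous i H), Polynomial.eval_mul,
      Polynomial.eval_C, Polynomial.eval_pow, Polynomial.eval_X, mul_comm]
  have hp0 : p = 0 := by
    refine Polynomial.eq_zero_of_infinite_isRoot p ?_
    refine Set.Infinite.mono (s := {s : ℂ | s ≠ 0}) ?_ ?_
    · intro s hs
      show p.eval s = 0
      rw [hev]
      exact h s hs
    · exact (Set.finite_singleton (0 : ℂ)).infinite_compl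
  by_cases he : e ≤ H.totalDegree
  · have h1 : p.coeff e = aeval x (homogeneousComponent e H) := by
      rw [hp, Polynomial.finsetSum_coeff, Finset.sum_eq_single e]
      · rw [Polynomial.coeff_C_mul_X_pow, if_pos rfl]
      · intro i _ hi
        rw [Polynomial.coeff_C_mul_X_pow, if_neg (Ne.symm hi)]
      · intro h2
        exact absurd (Finset.mem_range.2 (Nat.lt_succ_of_le he)) h2
    rw [← h1, hp0, Polynomial.coeff_zero]
  · rw [homogeneousComponent_eq_zero _ _ (not_le.1 he), map_zero]

end Pool.Agent.MP_1209e6_cy
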