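import Pool.Agent.Lib_MP_1209e6_cy.VSmo
import Pool.Agent.Lib_MP_1209e6_cy.Generic

/-!
PIECE [VGP] (MP_1209e6_ag).  Generic points near a smooth point.
-/

open Matrix Filter Topology

namespace Pool.Agent.MP_1209e6_cy

variable {m : ℕ}

/-- the equations of `X` together with two coordinates -/
noncomputable def vpsi (D : Dat m ℂ) (i₀ j₀ : Fin (m + 2))
    (p : Vec m ℂ × Vec m ℂ) : (Fin m → ℂ) × ℂ × ℂ × ℂ :=
  (fun i => D.A i p.1 p.2, D.B p.1 p.1 p.2 p.2, p.1 i₀, p.2 j₀)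

/-- its derivative -/
noncomputable def vjac (D : Dat m ℂ) (x y : Vec m ℂ) (i₀ j₀ : Fin (m + 2))
    (q : Vec m ℂ × Vec m ℂ) : (Fin m → ℂ) × ℂ × ℂ × ℂ :=
  (fun i => D.A i q.1 y + D.A i x q.2, 2 * D.B x q.1 y y + 2 * D.B x x y q.2, q.1 i₀, q.2 j₀)

theorem contDiff_vpsi (D : Dat m ℂ) (i₀ j₀ : Fin (m + 2)) :
    ContDiff ℂ 1 (vpsi D i₀ j₀) := by
  have h1 : ContDiff ℂ 1 (fun p : Vec m ℂ × Vec m ℂ => p.1) := contDiff_fst
  have h2 : ContDiff ℂ 1 (fun p : Vec m ℂ × Vec m ℂ => p.2) := contDiff_snd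
  unfold vpsi
  refine ContDiff.prodMk (contDiff_pi.2 fun i => contDiff_A D i h1 h2) ?_
  refine ContDiff.prodMk (contDiff_B D h1 h1 h2 h2) ?_
  exact ContDiff.prodMk (contDiff_pi.1 h1 i₀) (contDiff_pi.1 h2 j₀)

theorem hasDerivAt_vpsi_line {D : Dat m ℂ} (hD : D.Symm) (x y : Vec m ℂ)
    (i₀ j₀ : Fin (m + 2)) (q : Vec m ℂ × Vec m ℂ) :
    HasDerivAt (fun t : ℂ => vpsi D i₀ j₀ ((x, y) + t • q)) (vjac D x y i₀ j₀ q) 0 := by
  obtain ⟨ξ, η⟩ := q
  have hx : HasDerivAt (fun t : ℂ => x + t • ξ) ξ 0 := by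
    have := ((hasDerivAt_id (0 : ℂ)).smul_const ξ).const_add x
    simpa using this
  have hy : HasDerivAt (fun t : ℂ => y + t • η) η 0 := by
    have := ((hasDerivAt_id (0 : ℂ)).smul_const η).const_add y
    simpa using this
  have e1 : ∀ i, HasDerivAt (fun t : ℂ => D.A i (x + t • ξ) (y + t • η))
      (D.A i ξ y + D.A i x η) 0 := by
    intro i
    have := hasDerivAt_A D i hx hy
    simpa using this
  have e2 : HasDerivAt (fun t : ℂ => D.B (x + t • ξ) (x + t • ξ) (y + t • η) (y + t • η))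
      (2 * D.B x ξ y y + 2 * D.B x x y η) 0 := by
    have := hasDerivAt_B D hx hx hy hy
    convert this using 1
    simp only [zero_smul, add_zero]
    rw [hD.B_comm ξ x y y, hD.B_comm' x x η y]
    ring
  have e5 : HasDerivAt (fun t : ℂ => (x + t • ξ) i₀) (ξ i₀) 0 := (hasDerivAt_pi.1 hx) i₀
  have e6 : HasDerivAt (fun t : ℂ => (y + t • η) j₀) (η j₀) 0 := (hasDerivAt_pi.1 hy) j₀
  exact (hasDerivAt_pi.2 e1).prodMk (e2.prodMk (e5.prodMk e6))

theorem fderiv_vpsi {D : Dat m ℂ} (hD : D.Symm) (x y : Vec m ℂ)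
    (i₀ j₀ : Fin (m + 2)) (q : Vec m ℂ × Vec m ℂ) :
    fderiv ℂ (vpsi D i₀ j₀) (x, y) q = vjac D x y i₀ j₀ q := by
  have h1 : HasFDerivAt (vpsi D i₀ j₀) (fderiv ℂ (vpsi D i₀ j₀) (x, y)) (x, y) :=
    ((contDiff_vpsi D i₀ j₀).differentiable (by simp)).differentiableAt.hasFDerivAt
  have hline : HasDerivAt (fun t : ℂ => ((x, y) : Vec m ℂ × Vec m ℂ) + t • q) q 0 := by
    have := ((hasDerivAt_id (0 : ℂ)).smul_const q).const_add ((x, y) : Vec m ℂ × Vec m ℂ)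
    simpa using this
  have h2 : HasFDerivAt (vpsi D i₀ j₀) (fderiv ℂ (vpsi D i₀ j₀) (x, y))
      (((x, y) : Vec m ℂ × Vec m ℂ) + (0 : ℂ) • q) := by
    simpa using h1
  have h3 := h2.comp_hasDerivAt (0 : ℂ) hline
  exact h3.unique (hasDerivAt_vpsi_line hD x y i₀ j₀ q)

theorem vjac_surjective {D : Dat m ℂ} (hD : D.Symm) {x y : Vec m ℂ} {i₀ j₀ : Fin (m + 2)}
    (hx : x i₀ = 1) (hy : y j₀ = 1) (hin : D.In x y) (hs : Function.Surjective (D.dEq x y)) :
    Function.Surjective (vjac D x y i₀ j₀) := by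
  rintro ⟨s, b, c₁, c₂⟩
  obtain ⟨⟨ξ, η⟩, hq⟩ := hs (s, b)
  have hq1 : (fun i => D.A i ξ y + D.A i x η) = s := congrArg Prod.fst hq
  have hq2 : 2 * D.B x ξ y y + 2 * D.B x x y η = b := congrArg Prod.snd hq
  refine ⟨(ξ + (c₁ - ξ i₀) • x, η + (c₂ - η j₀) • y), ?_⟩
  unfold vjac
  refine Prod.ext ?_ (Prod.ext ?_ (Prod.ext ?_ ?_))
  · funext i
    have h := congrFun hq1 i
    simp only at h ⊢
    rw [Dat.A_add_left, Dat.A_smul_left, Dat.A_add_right, Dat.A_smul_right, hin.1 i, ← h]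
    ring
  · simp only
    rw [hD.B_add₂, hD.B_smul₂, hD.B_add₄, hD.B_smul₄, hin.2, ← hq2]
    ring
  · simp [hx]
  · simp [hy]

/-- the target as a space of functions -/
def vtgt : ((Fin m → ℂ) × ℂ × ℂ × ℂ) →ₗ[ℂ] (Fin m ⊕ Fin 3 → ℂ) where
  toFun := fun t => Sum.elim t.1 ![t.2.1, t.2.2.1, t.2.2.2]
  map_add' := by
    intro p q
    funext j
    rcases j with j | j
    · rfl
    · fin_cases j <;> rfl
  map_smul' := by
    intro c p
    funext j
    rcases j with j | j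
    · rfl
    · fin_cases j <;> rfl

theorem vtgt_injective : Function.Injective (vtgt (m := m)) := by
  rintro ⟨a, b1, b2, b3⟩ ⟨a', b1', b2', b3'⟩ h
  have ha : a = a' := by
    funext i
    exact congrFun h (Sum.inl i)
  have h1 : b1 = b1' := congrFun h (Sum.inr 0)
  have h2 : b2 = b2' := congrFun h (Sum.inr 1)
  have h3 : b3 = b3' := congrFun h (Sum.inr 2)
  subst ha h1 h2 h3
  rfl

theorem vtgt_surjective : Function.Surjective (vtgt (m := m)) := by
  intro f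
  refine ⟨(fun i => f (Sum.inl i), f (Sum.inr 0), f (Sum.inr 1), f (Sum.inr 2)), ?_⟩
  funext j
  rcases j with j | j
  · rfl
  · fin_cases j <;> rfl

theorem exists_vcoord_surj (F : Vec m ℂ × Vec m ℂ →L[ℂ] ((Fin m → ℂ) × ℂ × ℂ × ℂ))
    (hF : Function.Surjective F) :
    ∃ J : Finset (Fin (m + 2) ⊕ Fin (m + 2)), J.card = m + 1 ∧
      Function.Surjective (F.prod (coordJ J)) := by
  let L : ((Fin (m + 2) ⊕ Fin (m + 2)) → ℂ) →ₗ[ℂ] (Fin m ⊕ Fin 3 → ℂ) :=
    (vtgt (m := m)).comp ((F : Vec m ℂ × Vec m ℂ →ₗ[ℂ] _).comp (spl (m := m)))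
  have hL : Function.Surjective L := by
    have : (L : ((Fin (m + 2) ⊕ Fin (m + 2)) → ℂ) → (Fin m ⊕ Fin 3 → ℂ)) =
        vtgt ∘ F ∘ spl := rfl
    rw [this]
    exact vtgt_surjective.comp (hF.comp spl_surjective)
  obtain ⟨J, hcard, hbij⟩ := exists_coordinates L hL
  refine ⟨J, ?_, ?_⟩
  · simp only [Fintype.card_sum, Fintype.card_fin] at hcard
    omega
  · rintro ⟨τ, ζ⟩
    obtain ⟨z, hz⟩ := hbij.2 (vtgt τ, ζ)
    have hz1 : L z = vtgt τ := congrArg Prod.fst hz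
    have hz2 : (fun j : J => z j) = ζ := congrArg Prod.snd hz
    refine ⟨spl z, ?_⟩
    have h1 : F (spl z) = τ := vtgt_injective hz1
    have h2 : coordJ J (spl z) = ζ := by
      rw [← hz2, coordJ_apply]
      funext j
      rcases j with ⟨j | j, hj⟩ <;> rfl
    exact Prod.ext h1 h2

/-- PIECE [VGP].  Near a smooth point of `X` there are points of `X` with `m + 1 = n` algebraically independent
coordinates over a given countable field.

Proof.  The same as `exists_generic` in `Generic.lean` with fewer equations.  Let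
`Ψ(ξ, η) = (A_i(ξ, η), B(ξ, ξ, η, η), ξ_{i₀}, η_{j₀})`; its derivative at `(x, y)` is `p ↦ (dEq x y p, p.1 i₀, p.2 j₀)`, which is
surjective: `dEq x y (x, 0) = (A_i(x, y), 2 B(x, x, y, y)) = 0`, also `dEq x y (0, y) = 0`, so one can add multiples of `(x, 0)` and
`(0, y)` to obtain the right coordinates `i₀`, `j₀`.  By `exists_coordinates` there is a set `J` of coordinates,
`|J| = 2 (m + 2) - (m + 1 + 2) = m + 1`, such that `(Ψ, coordinates in J)` has a bijective derivative; hence it maps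
neighbourhoods of `(x, y)` onto neighbourhoods of the image (`HasStrictFDerivAt.map_nhds_eq_of_surj`); by
`exists_algebraicIndependent` choose a point near the image, with the same first components, whose `J`-coordinates are
independent over `k`. -/
theorem exists_generic_point {D : Dat m ℂ} (hD : D.Symm) {x y : Vec m ℂ} {i₀ j₀ : Fin (m + 2)}
    (hx : x i₀ = 1) (hy : y j₀ = 1) (hin : D.In x y) (hs : Function.Surjective (D.dEq x y))
    (k : IntermediateField ℚ ℂ) (hk : (k : Set ℂ).Countable) {U : Set (Vec m ℂ × Vec m ℂ)}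
    (hU : U ∈ 𝓝 (x, y)) :
    ∃ x' y' : Vec m ℂ, (x', y') ∈ U ∧ x' i₀ = 1 ∧ y' j₀ = 1 ∧ D.In x' y' ∧
      ∃ J : Finset (Fin (m + 2) ⊕ Fin (m + 2)), J.card = m + 1 ∧
        AlgebraicIndependent k (fun j : J => Sum.elim x' y' j) := by
  have hF : Function.Surjective (fderiv ℂ (vpsi D i₀ j₀) (x, y)) := by
    intro τ
    obtain ⟨q, hq⟩ := vjac_surjective hD hx hy hin hs τ
    exact ⟨q, by rw [fderiv_vpsi hD, hq]⟩
  obtain ⟨J, hJ, hsurj⟩ := exists_vcoord_surj _ hF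
  have hstr : HasStrictFDerivAt (fun p => (vpsi D i₀ j₀ p, coordJ J p))
      ((fderiv ℂ (vpsi D i₀ j₀) (x, y)).prod (coordJ J)) (x, y) :=
    ((contDiff_vpsi D i₀ j₀).contDiffAt.hasStrictFDerivAt (by simp)).prodMk
      (coordJ J).hasStrictFDerivAt
  have hmap := hstr.map_nhds_eq_of_surj (LinearMap.range_eq_top.2 hsurj)
  have hpsi0 : vpsi D i₀ j₀ (x, y) = (0, 0, 1, 1) := by
    unfold vpsi
    simp only [hin.2, hx, hy]
    have : (fun i => D.A i x y) = 0 := funext fun i => hin.1 i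
    rw [this]
  have himg : (fun p => (vpsi D i₀ j₀ p, coordJ J p)) '' U ∈
      𝓝 (vpsi D i₀ j₀ (x, y), coordJ J (x, y)) := by
    rw [← hmap]
    exact image_mem_map hU
  rw [hpsi0] at himg
  have hcont : Continuous (fun ζ : J → ℂ =>
      (((0, 0, 1, 1) : (Fin m → ℂ) × ℂ × ℂ × ℂ), ζ)) :=
    continuous_const.prodMk continuous_id
  have hpre : (fun ζ : J → ℂ =>
      (((0, 0, 1, 1) : (Fin m → ℂ) × ℂ × ℂ × ℂ), ζ)) ⁻¹'
      ((fun p => (vpsi D i₀ j₀ p, coordJ J p)) '' U) ∈ 𝓝 (coordJ J (x, y)) :=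
    hcont.continuousAt.preimage_mem_nhds himg
  obtain ⟨W, hWsub, hW, hWmem⟩ := mem_nhds_iff.1 hpre
  obtain ⟨z, hzW, hz⟩ := exists_algebraicIndependent k hk W hW ⟨_, hWmem⟩
  obtain ⟨⟨x₁, y₁⟩, hpU, hp⟩ := hWsub hzW
  have hp1 : vpsi D i₀ j₀ (x₁, y₁) = (0, 0, 1, 1) := congrArg Prod.fst hp
  have hp2 : coordJ J (x₁, y₁) = z := congrArg Prod.snd hp
  unfold vpsi at hp1
  simp only [Prod.mk.injEq] at hp1
  obtain ⟨ha, hb, he, hf⟩ := hp1
  refine ⟨x₁, y₁, hpU, he, hf, ⟨fun i => congrFun ha i, hb⟩, J, hJ, ?_⟩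
  rw [coordJ_apply] at hp2
  rw [← hp2] at hz
  exact hz

end Pool.Agent.MP_1209e6_cy
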