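import Mathlib

/-!
PIECE [VHF] (MP_1209e6_ag).  Divisors of forms are forms.
-/

open MvPolynomial

namespace Pool.Agent.MP_1209e6_cy

/-- the homogeneous components as coefficients -/
private theorem vhf_coeff {σ F : Type*} [Field F] (q : MvPolynomial σ F) (e : ℕ) :
    (aeval (fun i => (Polynomial.C (X i) * Polynomial.X : Polynomial (MvPolynomial σ F))) q).coeff e =
      homogeneousComponent e q := by
  induction q using MvPolynomial.induction_on' with
  | monomial s a =>
    have h1 : (aeval (fun i => (Polynomial.C (X i) * Polynomial.X : Polynomial (MvPolynomial σ F)))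
        (monomial s a)) = Polynomial.monomial s.degree (monomial s a) := by
      rw [aeval_monomial, ← Polynomial.C_mul_X_pow_eq_monomial, monomial_eq, map_mul]
      simp only [mul_pow, Finsupp.prod_mul]
      have h2 : (s.prod fun _ k => (Polynomial.X : Polynomial (MvPolynomial σ F)) ^ k) =
          Polynomial.X ^ s.degree := by
        rw [Finsupp.prod, Finset.prod_pow_eq_pow_sum]
        rfl
      have h3 : (Polynomial.C (s.prod fun n e => (X n : MvPolynomial σ F) ^ e)) =
          s.prod fun i k => (Polynomial.C (X i : MvPolynomial σ F)) ^ k := by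
        rw [Finsupp.prod, Finsupp.prod, map_prod]
        simp only [map_pow]
      rw [h2, h3, ← mul_assoc]
      rfl
    rw [h1, Polynomial.coeff_monomial,
      homogeneousComponent_of_mem (isHomogeneous_monomial a (rfl : s.degree = s.degree))]
    by_cases h : e = s.degree
    · rw [if_pos h, if_pos h.symm]
    · rw [if_neg h, if_neg (Ne.symm h)]
  | add p q hp hq => rw [map_add, Polynomial.coeff_add, hp, hq, map_add]

/-- PIECE [VHF].  A divisor of a nonzero form is a form.

Proof.  `p = q r`.  Let `q_a, q_b` be the nonzero homogeneous components of `q` of lowest and highest degree, `r_a', r_b'` the same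
for `r`.  The components of `p` of degrees `a + a'` and `b + b'` are `q_a r_a'` and `q_b r_b'`, not zero, so
`a + a' = d = b + b'` and `a = b`. -/
theorem isHomogeneous_of_dvd {σ F : Type*} [Field F] {p q : MvPolynomial σ F} {d : ℕ}
    (hp : p.IsHomogeneous d) (h0 : p ≠ 0) (hq : q ∣ p) : ∃ e, q.IsHomogeneous e := by
  obtain ⟨r, rfl⟩ := hq
  have hq0 : q ≠ 0 := left_ne_zero_of_mul h0
  have hr0 : r ≠ 0 := right_ne_zero_of_mul h0
  set φ := aeval (R := F) (fun i : σ =>
    (Polynomial.C (X i) * Polynomial.X : Polynomial (MvPolynomial σ F))) with hφ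
  have hz : ∀ q : MvPolynomial σ F, φ q = 0 → q = 0 := by
    intro q h
    rw [← sum_homogeneousComponent q]
    refine Finset.sum_eq_zero fun i _ => ?_
    rw [← vhf_coeff, ← hφ, h, Polynomial.coeff_zero]
  have h1 : φ q * φ r = Polynomial.monomial d (q * r) := by
    rw [← map_mul]
    ext1 e
    rw [vhf_coeff, Polynomial.coeff_monomial, homogeneousComponent_of_mem hp]
    by_cases h : e = d
    · rw [if_pos h, if_pos h.symm]
    · rw [if_neg h, if_neg (Ne.symm h)]
  have hq1 : φ q ≠ 0 := fun h => hq0 (hz q h)
  have hr1 : φ r ≠ 0 := fun h => hr0 (hz r h)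
  have h2 := Polynomial.natDegree_mul hq1 hr1
  have h3 := Polynomial.natTrailingDegree_mul hq1 hr1
  rw [h1, Polynomial.natDegree_monomial_eq d h0] at h2
  rw [h1, Polynomial.natTrailingDegree_monomial h0] at h3
  have h4 := Polynomial.natTrailingDegree_le_natDegree (φ q)
  have h5 := Polynomial.natTrailingDegree_le_natDegree (φ r)
  refine ⟨(φ q).natDegree, ?_⟩
  have h6 : ∀ i, i ≠ (φ q).natDegree → homogeneousComponent i q = 0 := by
    intro i hi
    rw [← vhf_coeff, ← hφ]
    rcases lt_or_gt_of_ne hi with h | h
    · exact Polynomial.coeff_eq_zero_of_lt_natTrailingDegree (by omega)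
    · exact Polynomial.coeff_eq_zero_of_natDegree_lt h
  have h7 : q = homogeneousComponent (φ q).natDegree q := by
    conv_lhs => rw [← sum_homogeneousComponent q]
    refine Finset.sum_eq_single _ (fun i _ hi => h6 i hi) fun h => ?_
    apply homogeneousComponent_eq_zero
    rw [Finset.mem_range, not_lt] at h
    omega
  have h8 := homogeneousComponent_isHomogeneous (φ q).natDegree q
  rw [← h7] at h8
  exact h8

end Pool.Agent.MP_1209e6_cy
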