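import Pool.Agent.Lib_MP_1209e6_cy.VSmall

/-!
# Smallness for generic coefficients, second part
-/

open Matrix MvPolynomial

namespace Pool.Agent.MP_1209e6_cy

variable {m : ℕ}

theorem exists_dot_one {x : Vec m ℂ} (hx : x ≠ 0) : ∃ w : Vec m ℂ, w ⬝ᵥ x = 1 := by
  obtain ⟨i₀, hi⟩ := Function.ne_iff.1 hx
  simp only [Pi.zero_apply] at hi
  refine ⟨Pi.single i₀ (x i₀)⁻¹, ?_⟩
  rw [single_dotProduct, inv_mul_cancel₀ hi]

theorem aeval_EP_cF (c : Ix m → ℂ) (y : Vec m ℂ) (i j : Fin (m + 2)) :
    aeval y ((datOf (cF c)).EP i j) = (datOf c).E y i j := by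
  rw [Dat.aeval_EP, datOf_cF_map]

theorem aeval_EP_cF_swap (c : Ix m → ℂ) (x : Vec m ℂ) (i j : Fin (m + 2)) :
    aeval x ((datOf (cF c)).swap.EP i j) = (datOf c).swap.E x i j := by
  rw [Dat.aeval_EP]
  rfl

/-- the norm of two entries of `E'` -/
noncomputable def NE (c : Ix m → ℂ) (p : (Fin (m + 2) × Fin (m + 2)) × (Fin (m + 2) × Fin (m + 2))) :
    MvPolynomial (Fin (m + 2)) (Fc c) :=
  (datOf (cF c)).N2 (2 * m + 2) ((datOf (cF c)).swap.EP p.1.1 p.1.2)
    ((datOf (cF c)).swap.EP p.2.1 p.2.2)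

theorem isUnit_two' (c : Ix m → ℂ) : IsUnit (2 : Fc c) := by
  rw [isUnit_iff_ne_zero]
  exact two_ne_zero

theorem NE_eval (c : Ix m → ℂ) {x y : Vec m ℂ} (hin : (datOf c).In x y) {w : Vec m ℂ}
    (hw : w ⬝ᵥ x = 1) (p : (Fin (m + 2) × Fin (m + 2)) × (Fin (m + 2) × Fin (m + 2))) :
    2 ^ (2 * m + 2) * aeval y (NE c p) =
      (datOf c).swap.E x p.1.1 p.1.2 * (datOf c).swap.E ((datOf c).S w x y) p.2.1 p.2.2 +
      (datOf c).swap.E ((datOf c).S w x y) p.1.1 p.1.2 * (datOf c).swap.E x p.2.1 p.2.2 := by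
  have h := Dat.N2_spec (datOf_symm (cF c)) (isUnit_two' c) (r := 2 * m + 2)
    (g := (datOf (cF c)).swap.EP p.1.1 p.1.2) (h := (datOf (cF c)).swap.EP p.2.1 p.2.2)
    ((datOf (cF c)).swap.EP_homog _ _) ((datOf (cF c)).swap.EP_homog _ _) (R := ℂ) w x y
    (by rw [datOf_cF_map]; exact hin)
  rw [datOf_cF_map, hw, aeval_EP_cF_swap, aeval_EP_cF_swap, aeval_EP_cF_swap,
    aeval_EP_cF_swap] at h
  have e : (2 * (1 : ℂ) ^ 2) = 2 := by norm_num
  rw [e] at h
  exact h

theorem thin_e2 {c : Ix m → ℂ} (hc : AlgebraicIndependent ℚ c) :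
    Thin {y : Vec m ℂ | y ≠ 0 ∧ ∃ x : Vec m ℂ, x ≠ 0 ∧ (datOf c).In x y ∧
      ∀ i j, (datOf c).swap.E x i j = 0} := by
  have h := thin_of_indep (m := m) (Fc_countable c)
    (Submodule.span (Fc c) (Set.range (NE c))) (d := (2 * m + 2) * (2 * m + 2)) (by
      intro P hP
      have hle : Submodule.span (Fc c) (Set.range (NE c)) ≤
          homogeneousSubmodule (Fin (m + 2)) (Fc c) ((2 * m + 2) * (2 * m + 2)) := by
        rw [Submodule.span_le]
        rintro _ ⟨p, rfl⟩
        exact (datOf (cF c)).N2_homog _ _ _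
      exact hle hP) (by
      intro y l₀ hy hV J hJ
      have hV' : ∀ p, aeval y (NE c p) = 0 := fun p => hV _ (Submodule.subset_span ⟨p, rfl⟩)
      obtain ⟨x, hx, hin⟩ := (datOf_symm c).exists_In y
      obtain ⟨w, hw⟩ := exists_dot_one hx
      set S := (datOf c).S w x y with hS
      by_cases hS0 : S = 0
      · refine not_indep_exc' hc hy (fun i j => ?_) J hJ
        have h2 := (datOf_symm c).key hin w i j
        rw [← hS, hS0, hw] at h2
        simp only [Pi.zero_apply, mul_zero, add_zero] at h2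
        have h3 : (2 : ℂ) * 1 ^ 2 * (datOf c).E y i j = 0 := h2
        simpa using h3
      · have hpq : ∀ p q : Fin (m + 2) × Fin (m + 2),
            (datOf c).swap.E x p.1 p.2 * (datOf c).swap.E S q.1 q.2 +
            (datOf c).swap.E S p.1 p.2 * (datOf c).swap.E x q.1 q.2 = 0 := by
          intro p q
          have h2 := NE_eval c hin hw (p, q)
          rw [hV', mul_zero] at h2
          exact h2.symm
        by_cases hEx : ∀ i j, (datOf c).swap.E x i j = 0
        · exact not_indep_exc hc hx hy hin hEx J hJ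
        · push Not at hEx
          obtain ⟨i, j, hij⟩ := hEx
          have hES : ∀ k l, (datOf c).swap.E S k l = 0 := by
            have h3 := hpq (i, j) (i, j)
            have h4 : (datOf c).swap.E S i j = 0 := by
              have h5 : 2 * ((datOf c).swap.E x i j * (datOf c).swap.E S i j) = 0 := by
                linear_combination h3
              have h6 := (mul_eq_zero.1 h5).resolve_left two_ne_zero
              exact (mul_eq_zero.1 h6).resolve_left hij
            intro k l
            have h5 := hpq (i, j) (k, l)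
            simp only [h4, zero_mul, add_zero] at h5
            exact (mul_eq_zero.1 h5).resolve_left hij
          exact not_indep_exc hc hS0 hy ((datOf_symm c).In_S hin) hES J hJ)
  refine h.mono ?_
  rintro y ⟨-, x, hx, hin, hE⟩ P hP
  obtain ⟨w, hw⟩ := exists_dot_one hx
  induction hP using Submodule.span_induction with
  | mem P hP =>
    obtain ⟨p, rfl⟩ := hP
    have h2 := NE_eval c hin hw p
    rw [hE, hE, zero_mul, mul_zero, add_zero] at h2
    exact (mul_eq_zero.1 h2).resolve_left (pow_ne_zero _ two_ne_zero)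
  | zero => exact map_zero _
  | add P Q _ _ hP hQ => rw [map_add, hP, hQ, add_zero]
  | smul a P _ hP => rw [map_smul, hP, smul_zero]

/-- smallness for generic coefficients -/
theorem smallE_generic {c : Ix m → ℂ} (hc : AlgebraicIndependent ℚ c) : SmallE (datOf c) :=
  ⟨thin_e1 hc, thin_e2 hc⟩

theorem smallE_generic_swap {c : Ix m → ℂ} (hc : AlgebraicIndependent ℚ c) :
    SmallE (datOf c).swap := by
  rw [datOf_swap]
  exact smallE_generic (hc.comp _ swapIx_injective)

end Pool.Agent.MP_1209e6_cy
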