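import Pool.Agent.Lib_MP_1209e6_cy.VSmo

/-!
PIECE [VSS] (MP_1209e6_ag).  Smoothness in terms of surjectivity.
-/

open Matrix

namespace Pool.Agent.MP_1209e6_cy

variable {m : ℕ}

/-- PIECE [VSS].  A variety with generic coefficients is smooth.

Proof.  Let `(x, y)` be a point, `x_{i₀} ≠ 0`, `y_{j₀} ≠ 0`.  Replacing `x, y` by multiples (`dEq` at `(s x, t y)` in the direction
`(s ξ, t η)` is `(s t (..), s^2 t^2 (..))`, so surjectivity is not affected) assume `x_{i₀} = y_{j₀} = 1`.  If the linear map
`dEq` is not surjective there is a nonzero linear functional `(lam, κ)` on `(Fin m → ℂ) × ℂ` vanishing on its range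
(`Submodule.exists_le_ker_of_lt_top`, or `Module.exists_dual_forall_apply_eq_zero..`): `∑ lam_i A_i(ξ, y) + 2 κ B(x, ξ, y, y) = 0`
for all `ξ` and `∑ lam_i A_i(x, η) + 2 κ B(x, x, y, η) = 0` for all `η`.  By `no_lin_rel` `lam = 0`, `2 κ = 0`. -/
theorem smooth_generic {c : Ix m → ℂ} (hc : AlgebraicIndependent ℚ c) : (datOf c).Smooth := by
  intro x y hx0 hy0 hin
  set D := datOf c with hD
  have hs : D.Symm := datOf_symm c
  obtain ⟨i₀, hi₀⟩ : ∃ i, x i ≠ 0 := by
    by_contra h
    push Not at h
    exact hx0 (funext h)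
  obtain ⟨j₀, hj₀⟩ : ∃ j, y j ≠ 0 := by
    by_contra h
    push Not at h
    exact hy0 (funext h)
  -- the linear map
  let L : (Vec m ℂ × Vec m ℂ) →ₗ[ℂ] (Fin m → ℂ) × ℂ :=
    { toFun := D.dEq x y
      map_add' := by
        intro p q
        apply Prod.ext
        · funext i
          simp only [Dat.dEq, Prod.fst_add, Prod.snd_add, Pi.add_apply, D.A_add_left, D.A_add_right]
          ring
        · simp only [Dat.dEq, Prod.fst_add, Prod.snd_add, hs.B_add₂, hs.B_add₄]
          ring
      map_smul' := by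
        intro r p
        apply Prod.ext
        · funext i
          simp only [Dat.dEq, Prod.smul_fst, Prod.smul_snd, Pi.smul_apply, smul_eq_mul,
            D.A_smul_left, D.A_smul_right, RingHom.id_apply]
          ring
        · simp only [Dat.dEq, Prod.smul_fst, Prod.smul_snd, smul_eq_mul, hs.B_smul₂, hs.B_smul₄,
            RingHom.id_apply]
          ring }
  have hL : ∀ p, L p = D.dEq x y p := fun _ => rfl
  by_contra hns
  have hr : LinearMap.range L ≠ ⊤ := by
    intro h
    apply hns
    intro q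
    have : q ∈ LinearMap.range L := by rw [h]; trivial
    obtain ⟨p, hp⟩ := this
    exact ⟨p, hp⟩
  obtain ⟨f, hf0, hf⟩ := Submodule.exists_le_ker_of_lt_top _ (lt_top_iff_ne_top.mpr hr)
  set lam : Fin m → ℂ := fun i => f (Pi.single i 1, 0) with hlam
  set κ : ℂ := f (0, 1) with hκ
  have hfe : ∀ q : (Fin m → ℂ) × ℂ, f q = ∑ i, lam i * q.1 i + κ * q.2 := by
    intro q
    have h1 : q = ∑ i, q.1 i • ((Pi.single i 1, 0) : (Fin m → ℂ) × ℂ) +
        q.2 • ((0, 1) : (Fin m → ℂ) × ℂ) := by
      apply Prod.ext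
      · funext k
        simp only [Prod.fst_add, Prod.fst_sum, Prod.smul_fst, smul_zero, add_zero,
          Finset.sum_apply, Pi.smul_apply, smul_eq_mul]
        rw [Finset.sum_eq_single k]
        · simp
        · intro b _ hb
          rw [Pi.single_eq_of_ne (Ne.symm hb), mul_zero]
        · intro h
          exact absurd (Finset.mem_univ k) h
      · simp [Prod.snd_sum]
    conv_lhs => rw [h1]
    rw [map_add, map_sum, map_smul, smul_eq_mul]
    congr 1
    · apply Finset.sum_congr rfl
      intro i _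
      rw [map_smul, smul_eq_mul, mul_comm]
    · rw [mul_comm]
  have hker : ∀ p, f (D.dEq x y p) = 0 := by
    intro p
    have : D.dEq x y p ∈ LinearMap.range L := ⟨p, rfl⟩
    exact hf this
  have r1 : ∀ ξ, ∑ i, lam i * D.A i ξ y + κ * (2 * D.B x ξ y y) = 0 := by
    intro ξ
    have h := hker (ξ, 0)
    rw [hfe] at h
    have e1 : ∀ i, D.A i x 0 = 0 := by
      intro i
      have := D.A_smul_right i x 0 (0 : ℂ)
      simpa using this
    have e2 : D.B x x y 0 = 0 := by
      have := hs.B_smul₄ x x y 0 (0 : ℂ)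
      simpa using this
    simpa [Dat.dEq, e1, e2] using h
  have r2 : ∀ η, ∑ i, lam i * D.A i x η + κ * (2 * D.B x x y η) = 0 := by
    intro η
    have h := hker (0, η)
    rw [hfe] at h
    have e1 : ∀ i, D.A i 0 y = 0 := by
      intro i
      have := D.A_smul_left i 0 y (0 : ℂ)
      simpa using this
    have e2 : D.B x 0 y y = 0 := by
      have := hs.B_smul₂ x 0 y y (0 : ℂ)
      simpa using this
    simpa [Dat.dEq, e1, e2] using h
  -- scaling
  set s := (x i₀)⁻¹ with hsdef
  set t := (y j₀)⁻¹ with htdef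
  have hs0 : s ≠ 0 := inv_ne_zero hi₀
  have ht0 : t ≠ 0 := inv_ne_zero hj₀
  have hin' : D.In (s • x) (t • y) := by
    refine ⟨fun i => ?_, ?_⟩
    · rw [D.A_smul_left, D.A_smul_right, hin.1 i]
      ring
    · rw [D.B_smul₁, hs.B_smul₂, D.B_smul₃, hs.B_smul₄, hin.2]
      ring
  have key := no_lin_rel hc (x := s • x) (y := t • y) (i₀ := i₀) (j₀ := j₀)
    (by simp [hsdef, hi₀]) (by simp [htdef, hj₀]) hin' (fun i => s * t * lam i) (2 * κ) (by
      intro ξ
      have h := r1 ξ
      have e : ∑ i, s * t * lam i * D.A i ξ (t • y) =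
          s * t ^ 2 * ∑ i, lam i * D.A i ξ y := by
        rw [Finset.mul_sum]
        apply Finset.sum_congr rfl
        intro i _
        rw [D.A_smul_right]
        ring
      rw [e, D.B_smul₁, D.B_smul₃, hs.B_smul₄]
      linear_combination s * t ^ 2 * h) (by
      intro η
      have h := r2 η
      have e : ∑ i, s * t * lam i * D.A i (s • x) η =
          s ^ 2 * t * ∑ i, lam i * D.A i x η := by
        rw [Finset.mul_sum]
        apply Finset.sum_congr rfl
        intro i _
        rw [D.A_smul_left]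
        ring
      rw [e, D.B_smul₁, hs.B_smul₂, D.B_smul₃]
      linear_combination s ^ 2 * t * h)
  apply hf0
  apply LinearMap.ext
  intro q
  rw [hfe]
  have h1 : ∀ i, lam i = 0 := by
    intro i
    have := key.1 i
    simpa [hs0, ht0] using this
  have h2 : κ = 0 := by
    have := key.2
    simpa using this
  simp [h1, h2]

end Pool.Agent.MP_1209e6_cy
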