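import Pool.Agent.Lib_MP_1209e6_cy.Tr

/-!
PIECE [VTR] (MP_1209e6_ag).  A lower bound for the transcendence degree of the first point.
-/

open MvPolynomial

namespace Pool.Agent.MP_1209e6_cy

/-- PIECE [VTR].  Independent coordinates of `x, y`, where `y` is algebraic over the field of ratios of `x`.

Proof.  The coordinates `x_i = x_i / x_{i₀}` are in `rf k x` and the `y_j` are algebraic over it, so the independent family
takes values in the relative algebraic closure `A` of `rf k x` in `K` and `|J| ≤ trdeg_k A = trdeg_k (rf k x) = tr k x` (compare the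
end of the proof of `le_tr_base` in `TrBase.lean`). -/
theorem card_le_tr {k K : Type} {N : ℕ} [Field k] [Field K] [Algebra k K] (x y : Fin N → K)
    {i₀ : Fin N} (hx : x i₀ = 1) (hy : ∀ j, IsAlgebraic (rf k x) (y j))
    (J : Finset (Fin N ⊕ Fin N)) (hind : AlgebraicIndependent k (fun j : J => Sum.elim x y j)) :
    (J.card : Cardinal) ≤ tr k x := by
  classical
  set E : IntermediateField k K := rf k x with hE
  let A : IntermediateField E K := algebraicClosure E K
  have hxE : ∀ i, x i ∈ E := by
    intro i
    have h3 : x i₀ ≠ 0 := by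
      rw [hx]
      exact one_ne_zero
    have h4 := ratio_mem (k := k) x (i := i) (j := i₀) h3
    rw [hx, div_one] at h4
    exact h4
  have hxA : ∀ i, x i ∈ A := by
    intro i
    exact A.algebraMap_mem ⟨_, hxE i⟩
  have hyA : ∀ j, y j ∈ A := by
    intro j
    exact (mem_algebraicClosure_iff).2 (hy j)
  let A' : IntermediateField k K := A.restrictScalars k
  have hmem : ∀ s : J, Sum.elim x y (s : Fin N ⊕ Fin N) ∈ A' := by
    rintro ⟨i | j, _⟩
    · exact hxA i
    · exact hyA j
  have h7 : AlgebraicIndependent k (fun j : J => (⟨_, hmem j⟩ : A')) :=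
    AlgebraicIndependent.of_comp A'.val hind
  have h8 := h7.lift_cardinalMk_le_trdeg
  have h9 : Algebra.trdeg k E + Algebra.trdeg E A = Algebra.trdeg k A := trdeg_add_eq k E
  have h10 : Algebra.trdeg E A = 0 := trdeg_eq_zero
  rw [h10, add_zero] at h9
  have h11 : Algebra.trdeg k A' = Algebra.trdeg k A := rfl
  rw [h11, ← h9] at h8
  have h12 : Cardinal.mk J = (J.card : Cardinal) := by
    rw [Cardinal.mk_fintype, Fintype.card_coe]
  rw [h12, Cardinal.lift_natCast] at h8
  show (J.card : Cardinal) ≤ Algebra.trdeg k E
  simpa using h8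

end Pool.Agent.MP_1209e6_cy
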