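import Pool.Agent.Lib_MP_1209e6_cy.VCount
import Pool.Agent.Lib_MP_1209e6_cy.VBase
import Pool.Agent.Lib_MP_1209e6_cy.VSmoC
import Pool.Agent.Lib_MP_1209e6_cy.VGen
import Pool.Agent.Lib_MP_1209e6_cy.VTr
import Pool.Agent.Lib_MP_1209e6_cy.VField
import Pool.Agent.Lib_MP_1209e6_cy.IrrB
import Pool.Agent.Lib_MP_1209e6_cy.TrQuad
import Pool.Agent.Lib_MP_1209e6_cy.TrRelA
import Pool.Agent.Lib_MP_1209e6_cy.VSmallB

/-!
# Irreducibility for generic coefficients
-/

open Matrix MvPolynomial Filter Topology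

namespace Pool.Agent.MP_1209e6_cy

variable {m : ℕ}

/-- a generic point of `X` over `k` has a generic first coordinate -/
theorem le_tr_generic {c : Ix m → ℂ} (hc : AlgebraicIndependent ℚ c) {k : IntermediateField ℚ ℂ}
    (hck : ∀ t, c t ∈ k) {x y : Vec m ℂ} {i₀ j₀ : Fin (m + 2)} (hx : x i₀ = 1) (hy : y j₀ = 1)
    (hin : (datOf c).In x y) {J : Finset (Fin (m + 2) ⊕ Fin (m + 2))} (hJ : J.card = m + 1)
    (hind : AlgebraicIndependent k (fun j : J => Sum.elim x y j)) :
    ((m + 1 : ℕ) : Cardinal) ≤ tr k x := by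
  have hE : ∃ i j, (datOf c).swap.E x i j ≠ 0 := by
    by_contra hcon
    push Not at hcon
    exact count_exc hx hy hin hcon (J := J) (by omega) (indep_sum hc hck hind)
  have hy0 : y ≠ 0 := by
    rintro rfl
    exact zero_ne_one hy
  obtain ⟨w, hw⟩ := exists_dot_one hy0
  set y' := (datOf c).swap.S w y x with hy'
  have hin' : (datOf c).swap.In y x := (Dat.swap_In _ _ _).2 hin
  have hkey : ∀ i j, (datOf c).swap.E x i j = 1 / 2 * (y i * y' j + y j * y' i) := by
    intro i j
    have h2 := (datOf_symm c).swap.key hin' w i j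
    rw [hw] at h2
    rw [hy']
    linear_combination (1 / 2 : ℂ) * h2
  have hy'0 : ∃ j, y' j ≠ 0 := by
    by_contra hcon
    push Not at hcon
    obtain ⟨i, j, hij⟩ := hE
    apply hij
    rw [hkey, hcon, hcon]
    ring
  let ck : Ix m → k := fun t => ⟨c t, hck t⟩
  have hmap : (datOf ck).map (algebraMap k ℂ) = datOf c := rfl
  have halg : ∀ j, IsAlgebraic (rf k x) (y j) := by
    intro j
    have h := isAlgebraic_ratio (k := k) x y y' (fun i j => (datOf ck).swap.EP i j)
      (fun i j => (datOf ck).swap.EP_homog i j) (β := 1 / 2) (by norm_num) (fun i j => by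
        rw [Dat.aeval_EP]
        exact hkey i j) hy'0 j j₀ (by rw [hy]; exact one_ne_zero)
    rw [hy, div_one] at h
    exact h
  have := card_le_tr x y hx halg J hind
  rw [hJ] at this
  exact this

theorem vanish_of_generic {c : Ix m → ℂ} (hc : AlgebraicIndependent ℚ c)
    {p : MvPolynomial (Fin (m + 2) ⊕ Fin (m + 2)) ℂ} {d e : ℕ} (hp : BiHom p d e)
    {H : MvPolynomial (Fin (m + 2)) ℂ} (hH : H ≠ 0)
    (h : ∀ x y : Vec m ℂ, x ≠ 0 → y ≠ 0 → (datOf c).In x y → aeval x H ≠ 0 →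
      aeval (Sum.elim x y) p = 0)
    {x y : Vec m ℂ} {i₀ j₀ : Fin (m + 2)} (hx : x i₀ = 1) (hy : y j₀ = 1)
    (hin : (datOf c).In x y) : aeval (Sum.elim x y) p = 0 := by
  by_contra hne
  have hx0 : x ≠ 0 := by
    rintro rfl
    exact zero_ne_one hx
  have hy0 : y ≠ 0 := by
    rintro rfl
    exact zero_ne_one hy
  obtain ⟨k, hk, hck, H₀, hH₀⟩ := exists_field_poly c H
  have hcont : Continuous (fun q : Vec m ℂ × Vec m ℂ => aeval (Sum.elim q.1 q.2) p) := by
    have h1 : (fun q : Vec m ℂ × Vec m ℂ => aeval (Sum.elim q.1 q.2) p) =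
        fun q => eval (Sum.elim q.1 q.2) p := by
      funext q
      rw [aeval_eq_eval]
    rw [h1]
    refine (MvPolynomial.continuous_eval p).comp ?_
    refine continuous_pi fun s => ?_
    rcases s with s | s
    · exact (continuous_apply s).comp continuous_fst
    · exact (continuous_apply s).comp continuous_snd
  have hU : {q : Vec m ℂ × Vec m ℂ | aeval (Sum.elim q.1 q.2) p ≠ 0} ∈ 𝓝 (x, y) :=
    (isOpen_ne_fun hcont continuous_const).mem_nhds hne
  obtain ⟨x', y', hmem, hx', hy', hin', J, hJ, hind⟩ :=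
    exists_generic_point (datOf_symm c) hx hy hin (smooth_generic hc x y hx0 hy0 hin) k hk hU
  have htr := le_tr_generic hc hck hx' hy' hin' hJ hind
  have hx'0 : x' ≠ 0 := by
    rintro rfl
    exact zero_ne_one hx'
  have hy'0 : y' ≠ 0 := by
    rintro rfl
    exact zero_ne_one hy'
  have hs : ∀ s : ℂ, s ≠ 0 → aeval (s • x') H = 0 := by
    intro s hs
    by_contra hne2
    have h2 := h (s • x') y' (smul_ne_zero hs hx'0) hy'0 (by
      refine ⟨fun i => ?_, ?_⟩
      · rw [Dat.A_smul_left, hin'.1 i, mul_zero]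
      · rw [Dat.B_smul₁, (datOf_symm c).B_smul₂, hin'.2, mul_zero, mul_zero]) hne2
    have h3 := hp.smul x' y' s 1
    rw [one_smul, h2, one_pow, mul_one] at h3
    exact mul_ne_zero (pow_ne_zero _ hs) hmem h3.symm
  obtain ⟨e', he'⟩ : ∃ e', homogeneousComponent e' H₀ ≠ 0 := by
    by_contra hcon
    push Not at hcon
    apply hH
    rw [← hH₀, ← sum_homogeneousComponent H₀]
    simp [hcon]
  have hz : aeval x' (homogeneousComponent e' H₀) = 0 := by
    have h4 := component_eq_zero H x' hs e'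
    have h5 : homogeneousComponent e' H = MvPolynomial.map (algebraMap k ℂ)
        (homogeneousComponent e' H₀) := by
      rw [← hH₀]
      ext s
      rw [coeff_homogeneousComponent, coeff_map, coeff_map, coeff_homogeneousComponent]
      split_ifs
      · rfl
      · exact (map_zero _).symm
    rw [h5, aeval_map_algebraMap] at h4
    exact h4
  have hlt := tr_lt_of_rel (n := m + 1) (k := k) x' ⟨i₀, by rw [hx']; exact one_ne_zero⟩
    (homogeneousComponent_isHomogeneous e' H₀) he' hz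
  exact absurd htr (not_le.2 hlt)

/-- irreducibility -/
theorem irred_generic {c : Ix m → ℂ} (hc : AlgebraicIndependent ℚ c) (w₁ w₂ : Vec m ℂ)
    (hsq : ¬ ∃ R : MvPolynomial (Fin (m + 2)) ℂ, R ^ 2 =
      gP (datOf c) w₁ w₂ ^ 2 - gP (datOf c) w₁ w₁ * gP (datOf c) w₂ w₂) : (datOf c).Irred := by
  intro p q d e d' e' hp hq hpq
  have hD := datOf_symm c
  have key : ∀ x y : Vec m ℂ, x ≠ 0 → y ≠ 0 → (datOf c).In x y →
      aeval (Sum.elim x y) p = 0 ∨ aeval (Sum.elim x y) q = 0 := by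
    intro x y hx hy hin
    have h := hpq _ ((mem_X_mk hD hx hy).2 hin)
    rw [vanish_mk hp, vanish_mk hq] at h
    exact h
  have fin : ∀ {p : MvPolynomial (Fin (m + 2) ⊕ Fin (m + 2)) ℂ} {d e : ℕ}, BiHom p d e →
      ∀ {H : MvPolynomial (Fin (m + 2)) ℂ}, H ≠ 0 →
      (∀ x y : Vec m ℂ, x ≠ 0 → y ≠ 0 → (datOf c).In x y → aeval x H ≠ 0 →
      aeval (Sum.elim x y) p = 0) → ∀ a ∈ (datOf c).X, Vanish p a := by
    intro p d e hp H hH h a ha
    have hx := Projectivization.rep_nonzero a.1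
    have hy := Projectivization.rep_nonzero a.2
    obtain ⟨i₀, hi⟩ := Function.ne_iff.1 hx
    obtain ⟨j₀, hj⟩ := Function.ne_iff.1 hy
    simp only [Pi.zero_apply] at hi hj
    have h1 := vanish_of_generic hc hp hH h (x := (a.1.rep i₀)⁻¹ • a.1.rep)
      (y := (a.2.rep j₀)⁻¹ • a.2.rep) (i₀ := i₀) (j₀ := j₀) (by simp [hi]) (by simp [hj]) (by
        have hin : (datOf c).In a.1.rep a.2.rep := ha
        refine ⟨fun i => ?_, ?_⟩
        · rw [Dat.A_smul_left, Dat.A_smul_right, hin.1 i, mul_zero, mul_zero]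
        · rw [Dat.B_smul₁, hD.B_smul₂, Dat.B_smul₃, hD.B_smul₄, hin.2]
          ring)
    rw [hp.smul] at h1
    exact (mul_eq_zero.1 h1).resolve_left
      (mul_ne_zero (pow_ne_zero _ (inv_ne_zero hi)) (pow_ne_zero _ (inv_ne_zero hj)))
  obtain ⟨H, hH, h⟩ := irr_generic hD _ _ hsq hp hq key
  rcases h with h | h
  · left
    exact fin hp hH h
  · right
    exact fin hq hH h

end Pool.Agent.MP_1209e6_cy
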