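import Pool.Agent.Lib_MP_1209e6_cy.VSad
import Pool.Agent.Lib_MP_1209e6_cy.SaddleDef

/-!
PIECE [VDF] (MP_1209e6_ag).  Good solutions are saddle points.
-/

open Matrix MvPolynomial Filter Topology

namespace Pool.Agent.MP_1209e6_cy

variable {m : ℕ}

/-- independence of the rows from a nonvanishing determinant -/
theorem vdf_ind {r : Fin m → Vec m ℂ} {w ξ : Vec m ℂ} (h : plu r w ξ ≠ 0) :
    LinearIndependent ℂ r := by
  unfold plu at h
  have h1 : LinearIndependent ℂ (vecCons w (vecCons ξ r) : Fin (m + 2) → Vec m ℂ) := by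
    have h2 := Matrix.linearIndependent_rows_of_det_ne_zero h
    exact h2
  have h3 := (linearIndependent_finCons.mp h1).1
  exact (linearIndependent_finCons.mp h3).1

/-- a linear functional is determined by the coordinate vectors -/
theorem vdf_sum (f : Vec m ℂ → ℂ) (hadd : ∀ a b, f (a + b) = f a + f b)
    (hsmul : ∀ (c : ℂ) a, f (c • a) = c * f a) (ξ : Vec m ℂ) : f ξ = ∑ j, ξ j * f (ev1 j) := by
  have h := LinearMap.pi_apply_eq_sum_univ
    ({ toFun := f, map_add' := hadd, map_smul' := hsmul } : (Fin (m + 2) → ℂ) →ₗ[ℂ] ℂ) ξ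
  have h2 : f ξ = ∑ i, ξ i • f (fun j => if i = j then 1 else 0) := h
  rw [h2]
  refine Finset.sum_congr rfl fun j _ => ?_
  rw [smul_eq_mul]
  congr 2
  funext k
  unfold ev1
  rw [Pi.single_apply]
  by_cases hk : j = k
  · rw [if_pos hk, if_pos hk.symm]
  · rw [if_neg hk, if_neg (Ne.symm hk)]

/-- PIECE [VDF].  A good solution is a saddle point.

Proof.  `indY`, `indX`: if the rows were dependent then the determinants `plu` would vanish (`Matrix.det_ne_zero..`,
`Matrix.linearIndependent_rows_of_det_ne_zero`).  `hxy, hu, hv`: components 1, 4, 5 of the equation.  `hν`: component 2 and linearity in `ξ`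
(`ξ = ∑ ξ_j e_j`).  `hμ`: `g(η) = 2 B(x, x, y, η) - ∑ μ_i A_i(x, η)` is linear, vanishes at `e_l`, `l ≥ 1` (component 3) and at `η = y`
(`2 B(x, x, y, y) = ∑ ν_i A_i(x, y) = 0` by `hν` with `ξ = x`, and `A_i(x, y) = 0`), and `y_0 ≠ 0`, so it vanishes at `e_0` also.
`tau`: component 6 gives `P * Q = - Quu * Qvv`, and `t ≠ -1`. -/
theorem Good.saddle {D : Dat m ℂ} (hD : D.Symm) {z : ZZ m} (h : Good D z) :
    Saddle D z.1 z.2.1 z.2.2.1 z.2.2.2.1 z.2.2.2.2.1 z.2.2.2.2.2 := by
  obtain ⟨x, y, u, v, μ, ν⟩ := z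
  obtain ⟨heqn, hy0, hry, hrx, hne, hQu, hQv⟩ := h
  simp only at hy0 hry hrx hne hQu hQv ⊢
  have e1 : ∀ i, D.A i x y = 0 := fun i => congrFun (congrArg Prod.fst heqn) i
  have e2 : ∀ j, 2 * D.B x (ev1 j) y y - ∑ i, ν i * D.A i (ev1 j) y = 0 := fun j =>
    congrFun (congrArg (fun t : TT m => t.2.1) heqn) j
  have e3 : ∀ l : Fin (m + 1), 2 * D.B x x y (ev1 l.succ) - ∑ i, μ i * D.A i x (ev1 l.succ) = 0 :=
    fun l => congrFun (congrArg (fun t : TT m => t.2.2.1) heqn) l
  have e4 : ∀ i, D.A i u y = 0 := fun i => congrFun (congrArg (fun t : TT m => t.2.2.2.1) heqn) i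
  have e5 : ∀ i, D.A i x v = 0 := fun i => congrFun (congrArg (fun t : TT m => t.2.2.2.2.1) heqn) i
  have e6 : (4 * D.B x u y v - ∑ i, μ i * D.A i u v) * (4 * D.B x u y v - ∑ i, ν i * D.A i u v) +
      D.B u u y y * D.B x x v v = 0 := congrArg (fun t : TT m => t.2.2.2.2.2) heqn
  have hν : ∀ ξ, 2 * D.B x ξ y y = ∑ i, ν i * D.A i ξ y := by
    intro ξ
    have h1 := vdf_sum (fun ξ => 2 * D.B x ξ y y - ∑ i, ν i * D.A i ξ y) ?_ ?_ ξ
    · have h2 : ∑ j, ξ j * (2 * D.B x (ev1 j) y y - ∑ i, ν i * D.A i (ev1 j) y) = 0 := by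
        apply Finset.sum_eq_zero
        intro j _
        rw [e2 j, mul_zero]
      have h3 : 2 * D.B x ξ y y - ∑ i, ν i * D.A i ξ y = 0 := h1.trans h2
      exact sub_eq_zero.mp h3
    · intro a b
      simp only [hD.B_add₂, Dat.A_add_left, mul_add, Finset.sum_add_distrib]
      ring
    · intro c a
      simp only [hD.B_smul₂, Dat.A_smul_left, mul_sub, Finset.mul_sum]
      congr 1
      · ring
      · refine Finset.sum_congr rfl fun i _ => ?_
        ring
  have hμ : ∀ η, 2 * D.B x x y η = ∑ i, μ i * D.A i x η := by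
    have hs := vdf_sum (fun η => 2 * D.B x x y η - ∑ i, μ i * D.A i x η) ?_ ?_
    · have hyy : 2 * D.B x x y y - ∑ i, μ i * D.A i x y = 0 := by
        rw [hν x]
        simp [e1]
      have h0 : 2 * D.B x x y (ev1 0) - ∑ i, μ i * D.A i x (ev1 0) = 0 := by
        have h1 := hs y
        rw [hyy, Fin.sum_univ_succ] at h1
        have h2 : ∑ l : Fin (m + 1), y l.succ * (2 * D.B x x y (ev1 l.succ) -
            ∑ i, μ i * D.A i x (ev1 l.succ)) = 0 := by
          apply Finset.sum_eq_zero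
          intro l _
          rw [e3 l, mul_zero]
        rw [h2, add_zero] at h1
        rcases mul_eq_zero.mp h1.symm with h3 | h3
        · exact absurd h3 hy0
        · exact h3
      intro η
      have h1 := hs η
      have h2 : ∑ j, η j * (2 * D.B x x y (ev1 j) - ∑ i, μ i * D.A i x (ev1 j)) = 0 := by
        apply Finset.sum_eq_zero
        intro j _
        refine Fin.cases ?_ (fun l => ?_) j
        · rw [h0, mul_zero]
        · rw [e3 l, mul_zero]
      exact sub_eq_zero.mp (h1.trans h2)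
    · intro a b
      simp only [hD.B_add₄, Dat.A_add_right, mul_add, Finset.sum_add_distrib]
      ring
    · intro c a
      simp only [hD.B_smul₄, Dat.A_smul_right, mul_sub, Finset.mul_sum]
      congr 1
      · ring
      · refine Finset.sum_congr rfl fun i _ => ?_
        ring
  refine ⟨vdf_ind hry, vdf_ind hrx, e1, e4, e5, hν, hμ, hne, hQu, hQv, ?_⟩
  intro t ht _ hcon
  rw [hcon] at e6
  have h1 : ((t : ℂ) + 1) * (D.B u u y y * D.B x x v v) = 0 := by
    rw [← e6]
    ring
  rcases mul_eq_zero.mp h1 with h2 | h2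
  · have h3 : (t + 1 : ℝ) = 0 := by exact_mod_cast h2
    linarith
  · exact (mul_ne_zero hQu hQv) h2

end Pool.Agent.MP_1209e6_cy
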