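import Pool.Agent.Lib_MP_1209e6_cy.VSad

/-!
PIECE [VDE] (MP_1209e6_ag).  Transport of good solutions.
-/

open Matrix MvPolynomial Filter Topology

namespace Pool.Agent.MP_1209e6_cy

variable {m : ℕ}

/-- PIECE [VDE].  Transport by an automorphism (`map_A`, `map_B`, `map_row`, `map_plu` in `Ident.lean`). -/
theorem Good.map {c : Ix m → ℂ} {z : ZZ m} (h : Good (datOf c) z) (σ : ℂ ≃+* ℂ) :
    Good (datOf fun t => σ (c t)) (fun j => σ (z.1 j), fun j => σ (z.2.1 j),
      fun j => σ (z.2.2.1 j), fun j => σ (z.2.2.2.1 j), fun i => σ (z.2.2.2.2.1 i),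
      fun i => σ (z.2.2.2.2.2 i)) := by
  obtain ⟨x, y, u, v, μ, ν⟩ := z
  have hA : ∀ (i : Fin m) (x y : Vec m ℂ),
      (datOf fun t => σ (c t)).A i (fun j => σ (x j)) (fun j => σ (y j)) =
        σ ((datOf c).A i x y) := fun i x y => Dat.map_A (datOf c) (σ : ℂ →+* ℂ) i x y
  have hB : ∀ x x' y y' : Vec m ℂ,
      (datOf fun t => σ (c t)).B (fun j => σ (x j)) (fun j => σ (x' j)) (fun j => σ (y j))
        (fun j => σ (y' j)) = σ ((datOf c).B x x' y y') := fun x x' y y' =>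
    Dat.map_B (datOf c) (σ : ℂ →+* ℂ) x x' y y'
  have he : ∀ j : Fin (m + 2), (fun k => σ ((ev1 j : Vec m ℂ) k)) = ev1 j := fun j =>
    Dat.map_single (σ : ℂ →+* ℂ) j
  have hr : (datOf fun t => σ (c t)).row (fun j => σ (y j)) =
      fun i j => σ ((datOf c).row y i j) :=
    funext fun i => Dat.map_row (datOf c) (σ : ℂ →+* ℂ) y i
  have hr' : (datOf fun t => σ (c t)).swap.row (fun j => σ (x j)) =
      fun i j => σ ((datOf c).swap.row x i j) :=
    funext fun i => Dat.map_row (datOf c).swap (σ : ℂ →+* ℂ) x i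
  have hp : ∀ (r : Fin m → Vec m ℂ) (a b : Fin (m + 2)),
      plu (fun i j => σ (r i j)) (ev1 a) (ev1 b) = σ (plu r (ev1 a) (ev1 b)) := by
    intro r a b
    have h1 := Dat.map_plu r (σ : ℂ →+* ℂ) (ev1 a) (ev1 b)
    have h2 : plu (fun i j => σ (r i j)) (fun k => σ ((ev1 a : Vec m ℂ) k))
        (fun k => σ ((ev1 b : Vec m ℂ) k)) = σ (plu r (ev1 a) (ev1 b)) := h1
    rw [he, he] at h2
    exact h2
  have key : FF (datOf fun t => σ (c t)) (fun j => σ (x j), fun j => σ (y j), fun j => σ (u j),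
      fun j => σ (v j), fun i => σ (μ i), fun i => σ (ν i)) =
      (fun i => σ ((FF (datOf c) (x, y, u, v, μ, ν)).1 i),
        fun j => σ ((FF (datOf c) (x, y, u, v, μ, ν)).2.1 j),
        fun l => σ ((FF (datOf c) (x, y, u, v, μ, ν)).2.2.1 l),
        fun i => σ ((FF (datOf c) (x, y, u, v, μ, ν)).2.2.2.1 i),
        fun i => σ ((FF (datOf c) (x, y, u, v, μ, ν)).2.2.2.2.1 i),
        σ ((FF (datOf c) (x, y, u, v, μ, ν)).2.2.2.2.2)) := by
    simp only [FF, map_sub, map_add, map_mul, map_ofNat, map_sum, ← hA, ← hB, he]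
  have h0 := h.eqn
  refine ⟨?_, ?_, ?_, ?_, ?_, ?_, ?_⟩
  · rw [key, h0]
    simp only [Prod.fst_zero, Prod.snd_zero, Pi.zero_apply, map_zero]
    rfl
  · exact (map_ne_zero σ).2 h.y0
  · change plu ((datOf fun t => σ (c t)).row (fun j => σ (y j))) (ev1 (Fin.last (m + 1)))
      (ev1 0) ≠ 0
    rw [hr, hp]
    exact (map_ne_zero σ).2 h.ry
  · change plu ((datOf fun t => σ (c t)).swap.row (fun j => σ (x j))) (ev1 (Fin.last (m + 1)))
      (ev1 0) ≠ 0
    rw [hr', hp]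
    exact (map_ne_zero σ).2 h.rx
  · intro h1
    refine h.ne (funext fun i => σ.injective (congrFun h1 i))
  · change (datOf fun t => σ (c t)).B (fun j => σ (u j)) (fun j => σ (u j)) (fun j => σ (y j))
      (fun j => σ (y j)) ≠ 0
    rw [hB]
    exact (map_ne_zero σ).2 h.Qu
  · change (datOf fun t => σ (c t)).B (fun j => σ (x j)) (fun j => σ (x j)) (fun j => σ (v j))
      (fun j => σ (v j)) ≠ 0
    rw [hB]
    exact (map_ne_zero σ).2 h.Qv

end Pool.Agent.MP_1209e6_cy
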