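import Pool.Agent.Lib_MP_1209e6_cy.VSadN
import Pool.Agent.Lib_MP_1209e6_cy.VSadM
import Pool.Agent.Lib_MP_1209e6_cy.VSadF
import Pool.Agent.Lib_MP_1209e6_cy.VAut

/-!
# Saddle points for generic coefficients
-/

open Matrix MvPolynomial Filter Topology

namespace Pool.Agent.MP_1209e6_cy

variable {m : ℕ}

theorem saddle_generic (hm : 2 ≤ m) {c : Ix m → ℂ} (hc : AlgebraicIndependent ℚ c) :
    ∃ x y u v μ ν, Saddle (datOf c) x y u v μ ν := by
  obtain ⟨c₁, ⟨z, hz⟩, h2⟩ := exists_generic_near (good_near hm)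
  obtain ⟨σ, hσ⟩ := exists_ringEquiv h2 hc
  have h3 := hz.map σ
  have h4 : (fun t => σ (c₁ t)) = c := funext hσ
  rw [h4] at h3
  exact ⟨_, _, _, _, _, _, h3.saddle (datOf_symm c)⟩

end Pool.Agent.MP_1209e6_cy
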