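import Pool.Agent.Lib_MP_1209e6_cy.VSqB
import Pool.Agent.Lib_MP_1209e6_cy.VAut

/-!
PIECE [VQC] (MP_1209e6_ag).  The discriminant is not a square for generic coefficients.
-/

open Matrix MvPolynomial Filter Topology

namespace Pool.Agent.MP_1209e6_cy

variable {m : ℕ}

private theorem vqc_map (c : Ix m → ℂ) (σ : ℂ →+* ℂ) :
    ((datOf c).map (C : ℂ →+* MvPolynomial (Fin (m + 2)) ℂ)).map (MvPolynomial.map σ) =
      (datOf (fun t => σ (c t))).map C := by
  unfold Dat.map
  congr 1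
  · funext i j l
    exact MvPolynomial.map_C _ _
  · funext i j l p
    exact MvPolynomial.map_C _ _

private theorem vqc_X (σ : ℂ →+* ℂ) :
    (fun l : Fin (m + 2) => MvPolynomial.map σ (X l : MvPolynomial (Fin (m + 2)) ℂ)) =
      fun l => X l :=
  funext fun l => MvPolynomial.map_X _ _

private theorem vqc_u (c : Ix m → ℂ) (σ : ℂ →+* ℂ) (w : Vec m ℂ) (hw : ∀ i, σ (w i) = w i) :
    (fun j => MvPolynomial.map σ (uP (datOf c) w j)) = uP (datOf (fun t => σ (c t))) w := by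
  have h1 := Dat.map_pv (((datOf c).swap.map (C : ℂ →+* MvPolynomial (Fin (m + 2)) ℂ)).row
    (fun l => X l)) (MvPolynomial.map σ) (fun i => C (w i))
  have h2 : (fun i j => MvPolynomial.map σ (((datOf c).swap.map
      (C : ℂ →+* MvPolynomial (Fin (m + 2)) ℂ)).row (fun l => X l) i j)) =
      ((datOf (fun t => σ (c t))).swap.map C).row (fun l => X l) := by
    funext i
    have h3 := Dat.map_row ((datOf c).swap.map (C : ℂ →+* MvPolynomial (Fin (m + 2)) ℂ))
      (MvPolynomial.map σ) (fun l => X l) i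
    have h4 := vqc_map (c ∘ swapIx m) σ
    rw [datOf_swap, h4, vqc_X] at h3
    exact h3.symm
  have h5 : (fun i : Fin (m + 2) => MvPolynomial.map σ
      (C (w i) : MvPolynomial (Fin (m + 2)) ℂ)) = fun i => C (w i) := by
    funext i
    rw [MvPolynomial.map_C, hw]
  rw [h2, h5] at h1
  exact h1.symm

private theorem vqc_g (c : Ix m → ℂ) (σ : ℂ →+* ℂ) (w w' : Vec m ℂ) (hw : ∀ i, σ (w i) = w i)
    (hw' : ∀ i, σ (w' i) = w' i) :
    MvPolynomial.map σ (gP (datOf c) w w') = gP (datOf (fun t => σ (c t))) w w' := by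
  have h1 := Dat.map_B ((datOf c).map (C : ℂ →+* MvPolynomial (Fin (m + 2)) ℂ))
    (MvPolynomial.map σ) (fun l => X l) (fun l => X l) (uP (datOf c) w) (uP (datOf c) w')
  rw [vqc_map, vqc_u c σ w hw, vqc_u c σ w' hw', vqc_X] at h1
  exact h1.symm

private theorem vqc_single (σ : ℂ →+* ℂ) (i j : Fin (m + 2)) :
    σ ((Pi.single i 1 : Vec m ℂ) j) = (Pi.single i 1 : Vec m ℂ) j := by
  by_cases h : j = i
  · subst h
    simp
  · simp [Pi.single_eq_of_ne h]

/-- PIECE [VQC].  Transport by an automorphism.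

Proof.  `MvPolynomial.map σ (gP (datOf c) w w') = gP (datOf (σ ∘ c)) w w'` for `w, w'` with coordinates `0, 1` (use `map_B`, `map_pv`
from `Ident.lean` with the ring homomorphism `MvPolynomial.map σ`, which fixes the `X l`).  Apply `MvPolynomial.map σ` to `R`. -/
theorem IsSq.map {c : Ix m → ℂ} (h : IsSq c) (σ : ℂ ≃+* ℂ) : IsSq (fun t => σ (c t)) := by
  obtain ⟨R, hR⟩ := h
  refine ⟨MvPolynomial.map (σ : ℂ →+* ℂ) R, ?_⟩
  have h1 := congrArg (MvPolynomial.map (σ : ℂ →+* ℂ)) hR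
  rw [map_pow, map_sub, map_pow, map_mul, vqc_g _ _ _ _ (vqc_single _ _) (vqc_single _ _),
    vqc_g _ _ _ _ (vqc_single _ _) (vqc_single _ _),
    vqc_g _ _ _ _ (vqc_single _ _) (vqc_single _ _)] at h1
  exact h1

theorem not_isSq_generic (hm : 2 ≤ m) {c : Ix m → ℂ} (hc : AlgebraicIndependent ℚ c) : ¬ IsSq c := by
  intro h
  obtain ⟨c₁, h1, h2⟩ := exists_generic_near (not_isSq_near hm)
  obtain ⟨σ, hσ⟩ := exists_ringEquiv hc h2
  apply h1
  have h3 := h.map σ
  have h4 : (fun t => σ (c t)) = c₁ := funext hσ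
  rw [h4] at h3
  exact h3

end Pool.Agent.MP_1209e6_cy
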