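import Pool.Agent.Lib_MP_1209e6_cy.Main
import Pool.Agent.Lib_MP_1209e6_cy.VIrr
import Pool.Agent.Lib_MP_1209e6_cy.VSqC
import Pool.Agent.Lib_MP_1209e6_cy.VSadC

/-!
# Very general varieties are smooth, irreducible and contain Zariski dense entire curves
-/

open Matrix MvPolynomial Filter Topology

namespace Pool.Agent.MP_1209e6_cy

variable {m : ℕ}

theorem brodySpecial_generic (hm : 2 ≤ m) {c : Ix m → ℂ} (hc : AlgebraicIndependent ℚ c) :
    (datOf c).Smooth ∧ (datOf c).Irred ∧ (datOf c).BrodySpecial := by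
  have hirr := irred_generic hc _ _ (not_isSq_generic hm hc)
  obtain ⟨x, y, u, v, μ, ν, hs⟩ := saddle_generic hm hc
  exact ⟨smooth_generic hc, hirr, brodySpecial_of_saddle' (by omega) (datOf c) (datOf_symm c) hirr
    (smallE_generic hc) (smallE_generic_swap hc) hs⟩

end Pool.Agent.MP_1209e6_cy
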