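import Mathlib

/-!
PIECE [VOP] (MP_1209e6_ag).  Solutions of equations depending on parameters.
-/

open Filter Topology

namespace Pool.Agent.MP_1209e6_cy

/-- PIECE [VOP].  If the derivative in the direction of the unknowns is surjective at a solution `(e₀, z₀)` then for all
`e` near `e₀` there is a solution `z` near `z₀`.

Proof.  `Φ(e, z) = (e, F(e, z))` has a strict derivative at `(e₀, z₀)`, `(ε, ζ) ↦ (ε, F'(ε, ζ))`, which is surjective.  So `Φ` maps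
neighbourhoods of `(e₀, z₀)` to neighbourhoods of `(e₀, 0)` (`HasStrictFDerivAt.map_nhds_eq_of_surj`); apply it to
`univ ×ˢ N`. -/
theorem eventually_exists_zero {E G H : Type*} [NormedAddCommGroup E] [NormedSpace ℂ E]
    [CompleteSpace E] [NormedAddCommGroup G] [NormedSpace ℂ G] [CompleteSpace G]
    [NormedAddCommGroup H] [NormedSpace ℂ H] [CompleteSpace H] {F : E × G → H}
    (hF : ContDiff ℂ 1 F) {e₀ : E} {z₀ : G} (h0 : F (e₀, z₀) = 0)
    (hs : ∀ w : H, ∃ ζ : G, fderiv ℂ F (e₀, z₀) (0, ζ) = w) {N : Set G} (hN : N ∈ 𝓝 z₀) :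
    ∀ᶠ e in 𝓝 e₀, ∃ z ∈ N, F (e, z) = 0 := by
  have hd : HasStrictFDerivAt F (fderiv ℂ F (e₀, z₀)) (e₀, z₀) :=
    hF.contDiffAt.hasStrictFDerivAt one_ne_zero
  have hΦ : HasStrictFDerivAt (fun p : E × G => (p.1, F p))
      ((ContinuousLinearMap.fst ℂ E G).prod (fderiv ℂ F (e₀, z₀))) (e₀, z₀) :=
    hasStrictFDerivAt_fst.prodMk hd
  have hsurj : ((ContinuousLinearMap.fst ℂ E G).prod (fderiv ℂ F (e₀, z₀))).range = ⊤ := by
    rw [LinearMap.range_eq_top]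
    rintro ⟨ε, w⟩
    obtain ⟨ζ, hζ⟩ := hs (w - fderiv ℂ F (e₀, z₀) (ε, 0))
    refine ⟨(ε, ζ), ?_⟩
    refine Prod.ext rfl ?_
    change fderiv ℂ F (e₀, z₀) (ε, ζ) = w
    have h1 : ((ε, ζ) : E × G) = (ε, 0) + (0, ζ) := by simp
    rw [h1, map_add, hζ, add_sub_cancel]
  have hmap := hΦ.map_nhds_eq_of_surj hsurj
  have hmem : (Set.univ : Set E) ×ˢ N ∈ 𝓝 (e₀, z₀) := prod_mem_nhds univ_mem hN
  have himg : (fun p : E × G => (p.1, F p)) '' ((Set.univ : Set E) ×ˢ N) ∈ 𝓝 (e₀, F (e₀, z₀)) := by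
    rw [← hmap]
    exact image_mem_map hmem
  rw [h0] at himg
  have hcont : Tendsto (fun e : E => (e, (0 : H))) (𝓝 e₀) (𝓝 (e₀, 0)) :=
    (continuous_id.prodMk continuous_const).tendsto e₀
  filter_upwards [hcont himg] with e he
  obtain ⟨⟨e', z⟩, ⟨_, hz⟩, h1⟩ := he
  obtain ⟨h2, h3⟩ := Prod.ext_iff.1 h1
  simp only at h2 h3
  subst h2
  exact ⟨z, hz, h3⟩

end Pool.Agent.MP_1209e6_cy
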