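import Pool.Agent.Lib_MP_1209e6_cy.VBas
import Pool.Agent.Lib_MP_1209e6_cy.Generic

/-!
# The equations of a saddle point
-/

open Matrix MvPolynomial Filter Topology

namespace Pool.Agent.MP_1209e6_cy

/-- the unknowns `(x, y, u, v, μ, ν)` -/
abbrev ZZ (m : ℕ) := Vec m ℂ × Vec m ℂ × Vec m ℂ × Vec m ℂ × (Fin m → ℂ) × (Fin m → ℂ)

/-- the values of the equations -/
abbrev TT (m : ℕ) := (Fin m → ℂ) × Vec m ℂ × (Fin (m + 1) → ℂ) × (Fin m → ℂ) × (Fin m → ℂ) × ℂ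

variable {m : ℕ}

/-- the coordinate vectors -/
def ev1 (j : Fin (m + 2)) : Vec m ℂ := Pi.single j 1

/-- the equations; the last one says that the invariant `τ` of the fixed point is `-1` -/
def FF (D : Dat m ℂ) (z : ZZ m) : TT m :=
  (fun i => D.A i z.1 z.2.1,
    fun j => 2 * D.B z.1 (ev1 j) z.2.1 z.2.1 - ∑ i, z.2.2.2.2.2 i * D.A i (ev1 j) z.2.1,
    fun l => 2 * D.B z.1 z.1 z.2.1 (ev1 l.succ) - ∑ i, z.2.2.2.2.1 i * D.A i z.1 (ev1 l.succ),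
    fun i => D.A i z.2.2.1 z.2.1,
    fun i => D.A i z.1 z.2.2.2.1,
    (4 * D.B z.1 z.2.2.1 z.2.1 z.2.2.2.1 - ∑ i, z.2.2.2.2.1 i * D.A i z.2.2.1 z.2.2.2.1) *
        (4 * D.B z.1 z.2.2.1 z.2.1 z.2.2.2.1 - ∑ i, z.2.2.2.2.2 i * D.A i z.2.2.1 z.2.2.2.1) +
      D.B z.2.2.1 z.2.2.1 z.2.1 z.2.1 * D.B z.1 z.1 z.2.2.2.1 z.2.2.2.1)

/-- the derivative of the equations at `z = (x, y, u, v, μ, ν)` in the direction `ζ = (x', y', u', v', μ', ν')` -/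
def DFF (D : Dat m ℂ) (z ζ : ZZ m) : TT m :=
  (fun i => D.A i ζ.1 z.2.1 + D.A i z.1 ζ.2.1,
    fun j => 2 * D.B ζ.1 (ev1 j) z.2.1 z.2.1 + 4 * D.B z.1 (ev1 j) z.2.1 ζ.2.1 -
      ∑ i, (ζ.2.2.2.2.2 i * D.A i (ev1 j) z.2.1 + z.2.2.2.2.2 i * D.A i (ev1 j) ζ.2.1),
    fun l => 4 * D.B z.1 ζ.1 z.2.1 (ev1 l.succ) + 2 * D.B z.1 z.1 ζ.2.1 (ev1 l.succ) -
      ∑ i, (ζ.2.2.2.2.1 i * D.A i z.1 (ev1 l.succ) + z.2.2.2.2.1 i * D.A i ζ.1 (ev1 l.succ)),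
    fun i => D.A i ζ.2.2.1 z.2.1 + D.A i z.2.2.1 ζ.2.1,
    fun i => D.A i ζ.1 z.2.2.2.1 + D.A i z.1 ζ.2.2.2.1,
    (4 * (D.B ζ.1 z.2.2.1 z.2.1 z.2.2.2.1 + D.B z.1 ζ.2.2.1 z.2.1 z.2.2.2.1 +
          D.B z.1 z.2.2.1 ζ.2.1 z.2.2.2.1 + D.B z.1 z.2.2.1 z.2.1 ζ.2.2.2.1) -
        ∑ i, (ζ.2.2.2.2.1 i * D.A i z.2.2.1 z.2.2.2.1 + z.2.2.2.2.1 i * D.A i ζ.2.2.1 z.2.2.2.1 +
          z.2.2.2.2.1 i * D.A i z.2.2.1 ζ.2.2.2.1)) *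
        (4 * D.B z.1 z.2.2.1 z.2.1 z.2.2.2.1 - ∑ i, z.2.2.2.2.2 i * D.A i z.2.2.1 z.2.2.2.1) +
      (4 * D.B z.1 z.2.2.1 z.2.1 z.2.2.2.1 - ∑ i, z.2.2.2.2.1 i * D.A i z.2.2.1 z.2.2.2.1) *
        (4 * (D.B ζ.1 z.2.2.1 z.2.1 z.2.2.2.1 + D.B z.1 ζ.2.2.1 z.2.1 z.2.2.2.1 +
          D.B z.1 z.2.2.1 ζ.2.1 z.2.2.2.1 + D.B z.1 z.2.2.1 z.2.1 ζ.2.2.2.1) -
        ∑ i, (ζ.2.2.2.2.2 i * D.A i z.2.2.1 z.2.2.2.1 + z.2.2.2.2.2 i * D.A i ζ.2.2.1 z.2.2.2.1 +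
          z.2.2.2.2.2 i * D.A i z.2.2.1 ζ.2.2.2.1)) +
      (2 * D.B z.2.2.1 ζ.2.2.1 z.2.1 z.2.1 + 2 * D.B z.2.2.1 z.2.2.1 z.2.1 ζ.2.1) *
        D.B z.1 z.1 z.2.2.2.1 z.2.2.2.1 +
      D.B z.2.2.1 z.2.2.1 z.2.1 z.2.1 *
        (2 * D.B z.1 ζ.1 z.2.2.2.1 z.2.2.2.1 + 2 * D.B z.1 z.1 z.2.2.2.1 ζ.2.2.2.1))

/-- a solution with the open conditions -/
structure Good (D : Dat m ℂ) (z : ZZ m) : Prop where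
  eqn : FF D z = 0
  y0 : z.2.1 0 ≠ 0
  ry : plu (D.row z.2.1) (ev1 (Fin.last (m + 1))) (ev1 0) ≠ 0
  rx : plu (D.swap.row z.1) (ev1 (Fin.last (m + 1))) (ev1 0) ≠ 0
  ne : z.2.2.2.2.1 ≠ z.2.2.2.2.2
  Qu : D.B z.2.2.1 z.2.2.1 z.2.1 z.2.1 ≠ 0
  Qv : D.B z.1 z.1 z.2.2.2.1 z.2.2.2.1 ≠ 0

/-- the solution for the special member: `x = y = e_0 + e_2`, `u = v = e_n`, `μ = 0`, `ν = (1, 0, ..., 0)` -/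
noncomputable def zz (m : ℕ) : ZZ m :=
  (Pi.single 0 1 + Pi.single 2 1, Pi.single 0 1 + Pi.single 2 1, Pi.single (Fin.last (m + 1)) 1,
    Pi.single (Fin.last (m + 1)) 1, 0, fun i => if (i : ℕ) = 0 then 1 else 0)

end Pool.Agent.MP_1209e6_cy
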