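import Pool.Agent.Lib_MP_1209e6_cy.VSad

/-!
PIECE [VDA] (MP_1209e6_ag).  The derivative of the equations of a saddle point.
-/

open Matrix MvPolynomial Filter Topology

namespace Pool.Agent.MP_1209e6_cy

variable {m : ℕ}

theorem contDiff_datOf_A {E : Type*} [NormedAddCommGroup E] [NormedSpace ℂ E] (i : Fin m)
    {n : WithTop ℕ∞} {c : E → Ix m → ℂ} {x y : E → Vec m ℂ} (hc : ContDiff ℂ n c)
    (hx : ContDiff ℂ n x) (hy : ContDiff ℂ n y) :
    ContDiff ℂ n (fun e => (datOf (c e)).A i (x e) (y e)) := by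
  unfold Dat.A
  refine ContDiff.sum fun j _ => ContDiff.sum fun l _ => ?_
  exact ((contDiff_pi.1 hc _).mul (contDiff_pi.1 hx j)).mul (contDiff_pi.1 hy l)

theorem contDiff_datOf_B {E : Type*} [NormedAddCommGroup E] [NormedSpace ℂ E]
    {n : WithTop ℕ∞} {c : E → Ix m → ℂ} {x x' y y' : E → Vec m ℂ} (hc : ContDiff ℂ n c)
    (hx : ContDiff ℂ n x) (hx' : ContDiff ℂ n x') (hy : ContDiff ℂ n y)
    (hy' : ContDiff ℂ n y') :
    ContDiff ℂ n (fun e => (datOf (c e)).B (x e) (x' e) (y e) (y' e)) := by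
  unfold Dat.B
  refine ContDiff.sum fun j _ => ContDiff.sum fun k _ => ContDiff.sum fun l _ =>
    ContDiff.sum fun p _ => ?_
  exact ((((contDiff_pi.1 hc _).mul (contDiff_pi.1 hx j)).mul (contDiff_pi.1 hx' k)).mul
    (contDiff_pi.1 hy l)).mul (contDiff_pi.1 hy' p)

/-- PIECE [VDA].  The equations are polynomials in the coefficients and the unknowns.

Proof.  As `contDiff_A`, `contDiff_B` in `Generic.lean`, the coefficients also vary.  (Prove first versions of these two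
lemmas for `fun e => (datOf (c e)).A i (x e) (y e)`, `c, x, y` of class `C^n`.) -/
theorem contDiff_FF : ContDiff ℂ 1 (fun p : (Ix m → ℂ) × ZZ m => FF (datOf p.1) p.2) := by
  have hc : ContDiff ℂ 1 (fun p : (Ix m → ℂ) × ZZ m => p.1) := contDiff_fst
  have hz : ContDiff ℂ 1 (fun p : (Ix m → ℂ) × ZZ m => p.2) := contDiff_snd
  have hx : ContDiff ℂ 1 (fun p : (Ix m → ℂ) × ZZ m => p.2.1) := contDiff_fst.comp hz
  have hz1 : ContDiff ℂ 1 (fun p : (Ix m → ℂ) × ZZ m => p.2.2) := contDiff_snd.comp hz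
  have hy : ContDiff ℂ 1 (fun p : (Ix m → ℂ) × ZZ m => p.2.2.1) := contDiff_fst.comp hz1
  have hz2 : ContDiff ℂ 1 (fun p : (Ix m → ℂ) × ZZ m => p.2.2.2) := contDiff_snd.comp hz1
  have hu : ContDiff ℂ 1 (fun p : (Ix m → ℂ) × ZZ m => p.2.2.2.1) := contDiff_fst.comp hz2
  have hz3 : ContDiff ℂ 1 (fun p : (Ix m → ℂ) × ZZ m => p.2.2.2.2) := contDiff_snd.comp hz2
  have hv : ContDiff ℂ 1 (fun p : (Ix m → ℂ) × ZZ m => p.2.2.2.2.1) := contDiff_fst.comp hz3
  have hz4 : ContDiff ℂ 1 (fun p : (Ix m → ℂ) × ZZ m => p.2.2.2.2.2) := contDiff_snd.comp hz3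
  have hm : ContDiff ℂ 1 (fun p : (Ix m → ℂ) × ZZ m => p.2.2.2.2.2.1) := contDiff_fst.comp hz4
  have hn : ContDiff ℂ 1 (fun p : (Ix m → ℂ) × ZZ m => p.2.2.2.2.2.2) := contDiff_snd.comp hz4
  have hk : ∀ w : Vec m ℂ, ContDiff ℂ 1 (fun _ : (Ix m → ℂ) × ZZ m => w) :=
    fun w => contDiff_const
  unfold FF
  refine ContDiff.prodMk (contDiff_pi.2 fun i => contDiff_datOf_A i hc hx hy) ?_
  refine ContDiff.prodMk (contDiff_pi.2 fun j => ?_) ?_
  · refine (contDiff_const.mul (contDiff_datOf_B hc hx (hk _) hy hy)).sub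
      (ContDiff.sum fun i _ => ?_)
    exact (contDiff_pi.1 hn i).mul (contDiff_datOf_A i hc (hk _) hy)
  refine ContDiff.prodMk (contDiff_pi.2 fun l => ?_) ?_
  · refine (contDiff_const.mul (contDiff_datOf_B hc hx hx hy (hk _))).sub
      (ContDiff.sum fun i _ => ?_)
    exact (contDiff_pi.1 hm i).mul (contDiff_datOf_A i hc hx (hk _))
  refine ContDiff.prodMk (contDiff_pi.2 fun i => contDiff_datOf_A i hc hu hy) ?_
  refine ContDiff.prodMk (contDiff_pi.2 fun i => contDiff_datOf_A i hc hx hv) ?_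
  refine ((((contDiff_const.mul (contDiff_datOf_B hc hx hu hy hv)).sub
      (ContDiff.sum fun i _ => ?_))).mul
      ((contDiff_const.mul (contDiff_datOf_B hc hx hu hy hv)).sub
      (ContDiff.sum fun i _ => ?_))).add
      ((contDiff_datOf_B hc hu hu hy hy).mul (contDiff_datOf_B hc hx hx hv hv))
  · exact (contDiff_pi.1 hm i).mul (contDiff_datOf_A i hc hu hv)
  · exact (contDiff_pi.1 hn i).mul (contDiff_datOf_A i hc hu hv)

theorem hasDerivAt_FF_line {D : Dat m ℂ} (hD : D.Symm) (z ζ : ZZ m) :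
    HasDerivAt (fun t : ℂ => FF D (z + t • ζ)) (DFF D z ζ) 0 := by
  obtain ⟨x, y, u, v, μ, ν⟩ := z
  obtain ⟨x', y', u', v', μ', ν'⟩ := ζ
  have hl : ∀ w w' : Vec m ℂ, HasDerivAt (fun t : ℂ => w + t • w') w' 0 := by
    intro w w'
    have := ((hasDerivAt_id (0 : ℂ)).smul_const w').const_add w
    simpa using this
  have hl' : ∀ w w' : Fin m → ℂ, HasDerivAt (fun t : ℂ => w + t • w') w' 0 := by
    intro w w'
    have := ((hasDerivAt_id (0 : ℂ)).smul_const w').const_add w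
    simpa using this
  have hk : ∀ w : Vec m ℂ, HasDerivAt (fun _ : ℂ => w) 0 0 := fun w => hasDerivAt_const _ _
  have hx := hl x x'
  have hy := hl y y'
  have hu := hl u u'
  have hv := hl v v'
  have hm := hl' μ μ'
  have hn := hl' ν ν'
  have hA0 : ∀ i (w : Vec m ℂ), D.A i 0 w = 0 := by
    intro i w
    simp [Dat.A]
  have hA0' : ∀ i (w : Vec m ℂ), D.A i w 0 = 0 := by
    intro i w
    simp [Dat.A]
  have hB1 : ∀ (w w' w'' : Vec m ℂ), D.B w 0 w' w'' = 0 := by
    intro w w' w''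
    simp [Dat.B]
  have hB2 : ∀ (w w' w'' : Vec m ℂ), D.B w w' w'' 0 = 0 := by
    intro w w' w''
    simp [Dat.B]
  have e1 : ∀ i, HasDerivAt (fun t : ℂ => D.A i (x + t • x') (y + t • y'))
      (D.A i x' y + D.A i x y') 0 := by
    intro i
    have := hasDerivAt_A D i hx hy
    simpa using this
  have e2 : ∀ j, HasDerivAt (fun t : ℂ => 2 * D.B (x + t • x') (ev1 j) (y + t • y')
      (y + t • y') - ∑ i, (ν + t • ν') i * D.A i (ev1 j) (y + t • y'))
      (2 * D.B x' (ev1 j) y y + 4 * D.B x (ev1 j) y y' -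
      ∑ i, (ν' i * D.A i (ev1 j) y + ν i * D.A i (ev1 j) y')) 0 := by
    intro j
    have h1 := (hasDerivAt_B D hx (hk (ev1 j)) hy hy).const_mul (2 : ℂ)
    have h2 : HasDerivAt (fun t : ℂ => ∑ i, (ν + t • ν') i * D.A i (ev1 j) (y + t • y'))
        (∑ i, (ν' i * D.A i (ev1 j) y + ν i * D.A i (ev1 j) y')) 0 := by
      refine HasDerivAt.fun_sum fun i _ => ?_
      have := (hasDerivAt_pi.1 hn i).fun_mul (hasDerivAt_A D i (hk (ev1 j)) hy)
      refine this.congr_deriv ?_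
      simp [hA0]
    refine (h1.fun_sub h2).congr_deriv ?_
    simp only [zero_smul, add_zero, hB1]
    rw [hD.B_comm' x (ev1 j) y' y]
    ring
  have e3 : ∀ l : Fin (m + 1), HasDerivAt (fun t : ℂ => 2 * D.B (x + t • x') (x + t • x')
      (y + t • y') (ev1 l.succ) - ∑ i, (μ + t • μ') i * D.A i (x + t • x') (ev1 l.succ))
      (4 * D.B x x' y (ev1 l.succ) + 2 * D.B x x y' (ev1 l.succ) -
      ∑ i, (μ' i * D.A i x (ev1 l.succ) + μ i * D.A i x' (ev1 l.succ))) 0 := by
    intro l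
    have h1 := (hasDerivAt_B D hx hx hy (hk (ev1 l.succ))).const_mul (2 : ℂ)
    have h2 : HasDerivAt (fun t : ℂ => ∑ i, (μ + t • μ') i * D.A i (x + t • x') (ev1 l.succ))
        (∑ i, (μ' i * D.A i x (ev1 l.succ) + μ i * D.A i x' (ev1 l.succ))) 0 := by
      refine HasDerivAt.fun_sum fun i _ => ?_
      have := (hasDerivAt_pi.1 hm i).fun_mul (hasDerivAt_A D i hx (hk (ev1 l.succ)))
      refine this.congr_deriv ?_
      simp [hA0']
    refine (h1.fun_sub h2).congr_deriv ?_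
    simp only [zero_smul, add_zero, hB2]
    rw [hD.B_comm x' x]
    ring
  have e4 : ∀ i, HasDerivAt (fun t : ℂ => D.A i (u + t • u') (y + t • y'))
      (D.A i u' y + D.A i u y') 0 := by
    intro i
    have := hasDerivAt_A D i hu hy
    simpa using this
  have e5 : ∀ i, HasDerivAt (fun t : ℂ => D.A i (x + t • x') (v + t • v'))
      (D.A i x' v + D.A i x v') 0 := by
    intro i
    have := hasDerivAt_A D i hx hv
    simpa using this
  have f1 : HasDerivAt (fun t : ℂ => 4 * D.B (x + t • x') (u + t • u') (y + t • y')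
      (v + t • v')) (4 * (D.B x' u y v + D.B x u' y v + D.B x u y' v + D.B x u y v')) 0 := by
    have := (hasDerivAt_B D hx hu hy hv).const_mul (4 : ℂ)
    simpa using this
  have f2 : ∀ w w' : Fin m → ℂ, HasDerivAt (fun t : ℂ => w + t • w') w' 0 →
      HasDerivAt (fun t : ℂ => ∑ i, (w + t • w') i * D.A i (u + t • u') (v + t • v'))
        (∑ i, (w' i * D.A i u v + w i * D.A i u' v + w i * D.A i u v')) 0 := by
    intro w w' hw
    refine HasDerivAt.fun_sum fun i _ => ?_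
    have := (hasDerivAt_pi.1 hw i).fun_mul (hasDerivAt_A D i hu hv)
    refine this.congr_deriv ?_
    simp only [zero_smul, add_zero]
    ring
  have f3 : HasDerivAt (fun t : ℂ => D.B (u + t • u') (u + t • u') (y + t • y') (y + t • y'))
      (2 * D.B u u' y y + 2 * D.B u u y y') 0 := by
    have := hasDerivAt_B D hu hu hy hy
    refine this.congr_deriv ?_
    simp only [zero_smul, add_zero]
    rw [hD.B_comm u' u y y, hD.B_comm' u u y' y]
    ring
  have f4 : HasDerivAt (fun t : ℂ => D.B (x + t • x') (x + t • x') (v + t • v') (v + t • v'))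
      (2 * D.B x x' v v + 2 * D.B x x v v') 0 := by
    have := hasDerivAt_B D hx hx hv hv
    refine this.congr_deriv ?_
    simp only [zero_smul, add_zero]
    rw [hD.B_comm x' x v v, hD.B_comm' x x v' v]
    ring
  have e6 := ((f1.fun_sub (f2 μ μ' hm)).fun_mul (f1.fun_sub (f2 ν ν' hn))).fun_add (f3.fun_mul f4)
  refine (hasDerivAt_pi.2 e1).prodMk ((hasDerivAt_pi.2 e2).prodMk ((hasDerivAt_pi.2 e3).prodMk
    ((hasDerivAt_pi.2 e4).prodMk ((hasDerivAt_pi.2 e5).prodMk ?_))))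
  refine e6.congr_deriv ?_
  simp only [zero_smul, add_zero, Pi.sub_apply]
  ring

/-- PIECE [VDA].  The derivative in the direction of the unknowns.

Proof.  Derivative of `t ↦ FF (datOf c) (z + t ζ)` at `t = 0` (`hasDerivAt_A`, `hasDerivAt_B` in `Generic.lean`, and the symmetries
`B_comm`, `B_comm'`), see `hasDerivAt_psi_line` and `fderiv_psi` there. -/
theorem fderiv_FF (c : Ix m → ℂ) (z ζ : ZZ m) :
    fderiv ℂ (fun p : (Ix m → ℂ) × ZZ m => FF (datOf p.1) p.2) (c, z) (0, ζ) =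
      DFF (datOf c) z ζ := by
  have h1 : HasFDerivAt (fun p : (Ix m → ℂ) × ZZ m => FF (datOf p.1) p.2)
      (fderiv ℂ (fun p : (Ix m → ℂ) × ZZ m => FF (datOf p.1) p.2) (c, z)) (c, z) :=
    (contDiff_FF.differentiable (by simp)).differentiableAt.hasFDerivAt
  have hline : HasDerivAt (fun t : ℂ => ((c, z) : (Ix m → ℂ) × ZZ m) +
      t • ((0, ζ) : (Ix m → ℂ) × ZZ m)) (0, ζ) 0 := by
    have := ((hasDerivAt_id (0 : ℂ)).smul_const ((0, ζ) : (Ix m → ℂ) × ZZ m)).const_add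
      ((c, z) : (Ix m → ℂ) × ZZ m)
    simpa using this
  have h2 : HasFDerivAt (fun p : (Ix m → ℂ) × ZZ m => FF (datOf p.1) p.2)
      (fderiv ℂ (fun p : (Ix m → ℂ) × ZZ m => FF (datOf p.1) p.2) (c, z))
      (((c, z) : (Ix m → ℂ) × ZZ m) + (0 : ℂ) • ((0, ζ) : (Ix m → ℂ) × ZZ m)) := by
    simpa using h1
  have h3 := h2.comp_hasDerivAt (0 : ℂ) hline
  have h4 := hasDerivAt_FF_line (datOf_symm c) z ζ
  have h5 : (fun t : ℂ => FF (datOf c) (z + t • ζ)) =
      (fun p : (Ix m → ℂ) × ZZ m => FF (datOf p.1) p.2) ∘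
        fun t : ℂ => ((c, z) : (Ix m → ℂ) × ZZ m) + t • ((0, ζ) : (Ix m → ℂ) × ZZ m) := by
    funext t
    simp
  rw [h5] at h4
  exact h3.unique h4

end Pool.Agent.MP_1209e6_cy
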