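import Pool.Agent.Lib_MP_1209e6_cy.VSad

/-!
PIECE [VDB] (MP_1209e6_ag).  The saddle point of the special member.
-/

open Matrix MvPolynomial Filter Topology

namespace Pool.Agent.MP_1209e6_cy

variable {m : ℕ}

/-- a determinant whose rows have no common zero -/
theorem vdb_plu_ne {r : Fin m → Vec m ℂ} {w ξ : Vec m ℂ}
    (h : ∀ v : Vec m ℂ, w ⬝ᵥ v = 0 → ξ ⬝ᵥ v = 0 → (∀ i, r i ⬝ᵥ v = 0) → v = 0) :
    plu r w ξ ≠ 0 := by
  intro h0
  unfold plu at h0
  obtain ⟨v, hv, hv0⟩ := Matrix.exists_mulVec_eq_zero_iff.mpr h0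
  apply hv
  refine h v ?_ ?_ ?_
  · exact congrFun hv0 0
  · exact congrFun hv0 1
  · intro i
    exact congrFun hv0 i.succ.succ

theorem vdb_index (v : Vec m ℂ) (h0 : v 0 = 0) (hn : v (Fin.last (m + 1)) = 0)
    (hs : ∀ i, v (sx i) = 0) : v = 0 := by
  funext j
  refine Fin.cases ?_ (fun j => ?_) j
  · exact h0
  · refine Fin.lastCases ?_ (fun i => ?_) j
    · have h1 : (Fin.last m).succ = Fin.last (m + 1) := rfl
      rw [h1]
      exact hn
    · have h1 : (Fin.castSucc i).succ = sx i := rfl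
      rw [h1]
      exact hs i

/-- PIECE [VDB].

Proof.  `D = datOf (c0 m)`, `n = m + 1`; `c0_A`, `c0_B`.  `x = y = e_0 + e_2`, `u = v = e_n`.
`A_i(x, y) = x_{i+1} y_0 - x_0 y_{i+1} = 0`, `A_i(u, y) = A_i(x, v) = A_i(u, v) = 0`.
`2 B(x, ξ, y, y) = ξ_1`, `∑ ν_i A_i(ξ, y) = A_0(ξ, y) = ξ_1` (`y_0 = 1`, `y_1 = 0`); `2 B(x, x, y, η) = 0`, `μ = 0`.
`4 B(x, u, y, v) = 1`, `B(u, u, y, y) = 1`, `B(x, x, v, v) = -1`.
`row y i = A_i(·, y)` is `e_{i+1} - y_{i+1} e_0` and `swap.row x i = x_{i+1} e_0 - e_{i+1}`, so the determinants `plu` are `± 1`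
(or: the rows are linearly independent). -/
theorem good_c0 (hm : 2 ≤ m) : Good (datOf (c0 m)) (zz m) := by
  obtain ⟨k, rfl⟩ : ∃ k, m = k + 2 := ⟨m - 2, by omega⟩
  have v2 : ((2 : Fin (k + 2 + 2)) : ℕ) = 2 := Fin.val_two
  have v1 : ((1 : Fin (k + 2 + 2)) : ℕ) = 1 := Fin.val_one _
  have v0 : ((0 : Fin (k + 2 + 2)) : ℕ) = 0 := rfl
  have vn : ((Fin.last (k + 2 + 1) : Fin (k + 2 + 2)) : ℕ) = k + 3 := rfl
  have h20 : (2 : Fin (k + 2 + 2)) ≠ 0 := fun h => by
    have := congrArg Fin.val h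
    rw [v2, v0] at this
    omega
  have h21 : (2 : Fin (k + 2 + 2)) ≠ 1 := fun h => by
    have := congrArg Fin.val h
    rw [v2, v1] at this
    omega
  have h10 : (1 : Fin (k + 2 + 2)) ≠ 0 := fun h => by
    have := congrArg Fin.val h
    rw [v1, v0] at this
    omega
  have hn0 : (Fin.last (k + 2 + 1) : Fin (k + 2 + 2)) ≠ 0 := fun h => by
    have := congrArg Fin.val h
    rw [vn, v0] at this
    omega
  have hn1 : (Fin.last (k + 2 + 1) : Fin (k + 2 + 2)) ≠ 1 := fun h => by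
    have := congrArg Fin.val h
    rw [vn, v1] at this
    omega
  have hn2 : (Fin.last (k + 2 + 1) : Fin (k + 2 + 2)) ≠ 2 := fun h => by
    have := congrArg Fin.val h
    rw [vn, v2] at this
    omega
  have hns : ∀ i : Fin (k + 2), sx i ≠ Fin.last (k + 2 + 1) := fun i h => by
    have h1 := congrArg Fin.val h
    have h2 : ((sx i : Fin (k + 2 + 2)) : ℕ) = (i : ℕ) + 1 := rfl
    rw [vn, h2] at h1
    have := i.2
    omega
  set X : Vec (k + 2) ℂ := Pi.single 0 1 + Pi.single 2 1 with hX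
  set U : Vec (k + 2) ℂ := Pi.single (Fin.last (k + 2 + 1)) 1 with hU
  have hzz : zz (k + 2) = ((X, X, U, U, (0 : Fin (k + 2) → ℂ),
      (fun i : Fin (k + 2) => if (i : ℕ) = 0 then (1 : ℂ) else 0)) : ZZ (k + 2)) := rfl
  have hX0 : X 0 = 1 := by
    rw [hX, Pi.add_apply, Pi.single_eq_same, Pi.single_eq_of_ne (Ne.symm h20), add_zero]
  have hX1 : X 1 = 0 := by
    rw [hX, Pi.add_apply, Pi.single_eq_of_ne h10, Pi.single_eq_of_ne (Ne.symm h21), add_zero]
  have hX2 : X 2 = 1 := by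
    rw [hX, Pi.add_apply, Pi.single_eq_of_ne h20, Pi.single_eq_same, zero_add]
  have hXn : X (Fin.last (k + 2 + 1)) = 0 := by
    rw [hX, Pi.add_apply, Pi.single_eq_of_ne hn0, Pi.single_eq_of_ne hn2, add_zero]
  have hU0 : U 0 = 0 := by rw [hU, Pi.single_eq_of_ne (Ne.symm hn0)]
  have hU1 : U 1 = 0 := by rw [hU, Pi.single_eq_of_ne (Ne.symm hn1)]
  have hU2 : U 2 = 0 := by rw [hU, Pi.single_eq_of_ne (Ne.symm hn2)]
  have hUn : U (Fin.last (k + 2 + 1)) = 1 := by rw [hU, Pi.single_eq_same]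
  have hUs : ∀ i, U (sx i) = 0 := fun i => by rw [hU, Pi.single_eq_of_ne (hns i)]
  have hAXX : ∀ i, (datOf (c0 (k + 2))).A i X X = 0 := fun i => by
    rw [c0_A, hX0]
    ring
  have hAUX : ∀ i, (datOf (c0 (k + 2))).A i U X = 0 := fun i => by
    rw [c0_A, hUs, hU0]
    ring
  have hAXU : ∀ i, (datOf (c0 (k + 2))).A i X U = 0 := fun i => by
    rw [c0_A, hUs, hU0]
    ring
  have hAUU : ∀ i, (datOf (c0 (k + 2))).A i U U = 0 := fun i => by
    rw [c0_A, hUs, hU0]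
    ring
  have hB1 : (datOf (c0 (k + 2))).B X U X U = 1 / 4 := by
    rw [c0_B hm]
    simp only [hX0, hX1, hX2, hXn, hU0, hU1, hU2, hUn]
    norm_num
  have hB2 : (datOf (c0 (k + 2))).B U U X X = 1 := by
    rw [c0_B hm]
    simp only [hX0, hX1, hX2, hXn, hU0, hU1, hU2, hUn]
    norm_num
  have hB3 : (datOf (c0 (k + 2))).B X X U U = -1 := by
    rw [c0_B hm]
    simp only [hX0, hX1, hX2, hXn, hU0, hU1, hU2, hUn]
    norm_num
  rw [hzz]
  refine ⟨?_, ?_, ?_, ?_, ?_, ?_, ?_⟩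
  · unfold FF
    simp only [hAXX, hAUX, hAXU, hAUU, hB1, hB2, hB3, mul_zero, Finset.sum_const_zero, sub_zero,
      Pi.zero_apply, zero_mul]
    refine Prod.ext ?_ (Prod.ext ?_ (Prod.ext ?_ (Prod.ext ?_ (Prod.ext ?_ ?_))))
    · rfl
    · funext j
      show 2 * (datOf (c0 (k + 2))).B X (ev1 j) X X - ∑ i : Fin (k + 2),
        (if (i : ℕ) = 0 then (1 : ℂ) else 0) * (datOf (c0 (k + 2))).A i (ev1 j) X = 0
      rw [Finset.sum_eq_single (0 : Fin (k + 2))]
      · rw [c0_B hm, c0_A]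
        have hs0 : sx (0 : Fin (k + 2)) = 1 := rfl
        rw [hs0]
        simp only [hX0, hX1, hX2, hXn, Fin.val_zero, if_true]
        ring
      · intro i _ hi
        have : (i : ℕ) ≠ 0 := fun h => hi (Fin.ext h)
        rw [if_neg this, zero_mul]
      · intro h
        exact absurd (Finset.mem_univ _) h
    · funext l
      show 2 * (datOf (c0 (k + 2))).B X X X (ev1 l.succ) = 0
      rw [c0_B hm]
      simp only [hX0, hX1, hX2, hXn]
      ring
    · rfl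
    · rfl
    · show (4 * (1 / 4) : ℂ) * (4 * (1 / 4)) + 1 * -1 = 0
      norm_num
  · show X 0 ≠ 0
    rw [hX0]
    exact one_ne_zero
  · show plu ((datOf (c0 (k + 2))).row X) (ev1 (Fin.last (k + 2 + 1))) (ev1 0) ≠ 0
    refine vdb_plu_ne fun v h1 h2 h3 => ?_
    have e1 : v (Fin.last (k + 2 + 1)) = 0 := by
      unfold ev1 at h1
      rwa [single_one_dotProduct] at h1
    have e2 : v 0 = 0 := by
      unfold ev1 at h2
      rwa [single_one_dotProduct] at h2
    refine vdb_index v e2 e1 fun i => ?_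
    have h4 := h3 i
    rw [← Dat.A_eq_dot, c0_A, hX0, e2] at h4
    linear_combination h4
  · show plu ((datOf (c0 (k + 2))).swap.row X) (ev1 (Fin.last (k + 2 + 1))) (ev1 0) ≠ 0
    refine vdb_plu_ne fun v h1 h2 h3 => ?_
    have e1 : v (Fin.last (k + 2 + 1)) = 0 := by
      unfold ev1 at h1
      rwa [single_one_dotProduct] at h1
    have e2 : v 0 = 0 := by
      unfold ev1 at h2
      rwa [single_one_dotProduct] at h2
    refine vdb_index v e2 e1 fun i => ?_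
    have h4 := h3 i
    rw [← Dat.A_eq_dot, Dat.swap_A, c0_A, hX0, e2] at h4
    linear_combination (-1 : ℂ) * h4
  · show (0 : Fin (k + 2) → ℂ) ≠ fun i : Fin (k + 2) => if (i : ℕ) = 0 then (1 : ℂ) else 0
    intro h
    have h1 := congrFun h 0
    simp at h1
  · show (datOf (c0 (k + 2))).B U U X X ≠ 0
    rw [hB2]
    exact one_ne_zero
  · show (datOf (c0 (k + 2))).B X X U U ≠ 0
    rw [hB3]
    exact neg_ne_zero.mpr one_ne_zero

end Pool.Agent.MP_1209e6_cy
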