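import Pool.Agent.Lib_MP_1209e6_cy.VSad

/-!
PIECE [VDC] (MP_1209e6_ag).  The saddle point of the special member.
-/

open Matrix MvPolynomial Filter Topology

namespace Pool.Agent.MP_1209e6_cy

variable {m : ℕ}

namespace SadS

/-- the vector with first coordinate `a`, middle coordinates `f` and last coordinate `b` -/
def vec (a : ℂ) (f : Fin m → ℂ) (b : ℂ) : Vec m ℂ :=
  Fin.cons (α := fun _ => ℂ) a (Fin.snoc (α := fun _ => ℂ) f b)

theorem sx_eq (i : Fin m) : sx i = i.castSucc.succ := rfl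

theorem vec_zero (a : ℂ) (f : Fin m → ℂ) (b : ℂ) : vec a f b 0 = a := by
  simp [vec]

theorem vec_sx (a : ℂ) (f : Fin m → ℂ) (b : ℂ) (i : Fin m) : vec a f b (sx i) = f i := by
  rw [sx_eq, vec, Fin.cons_succ, Fin.snoc_castSucc]

theorem vec_last (a : ℂ) (f : Fin m → ℂ) (b : ℂ) : vec a f b (Fin.last (m + 1)) = b := by
  rw [vec, ← Fin.succ_last, Fin.cons_succ, Fin.snoc_last]

theorem sx_ne_zero (i : Fin m) : sx i ≠ 0 := by
  rw [sx_eq]; exact Fin.succ_ne_zero _

theorem sx_ne_last (i : Fin m) : sx i ≠ Fin.last (m + 1) := by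
  unfold sx; exact (Fin.castSucc_lt_last _).ne

theorem last_ne_zero : Fin.last (m + 1) ≠ 0 := by
  rw [← Fin.succ_last]; exact Fin.succ_ne_zero _

theorem sx_inj {i j : Fin m} : sx i = sx j ↔ i = j := by
  unfold sx
  rw [Fin.castSucc_inj, Fin.succ_inj]

theorem one_eq (hm : 2 ≤ m) : (1 : Fin (m + 2)) = sx ⟨0, by omega⟩ := by
  apply Fin.ext
  simp [sx]

theorem two_eq (hm : 2 ≤ m) : (2 : Fin (m + 2)) = sx ⟨1, by omega⟩ := by
  apply Fin.ext
  show 2 % (m + 2) = 1 + 1
  exact Nat.mod_eq_of_lt (by omega)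

/-- the point `e_0 + e_2` -/
theorem x_zero (hm : 2 ≤ m) : (Pi.single 0 1 + Pi.single 2 1 : Vec m ℂ) 0 = 1 := by
  have : (0 : Fin (m + 2)) ≠ 2 := by rw [two_eq hm]; exact (sx_ne_zero _).symm
  simp [Pi.single_apply, this]

theorem x_sx (hm : 2 ≤ m) (i : Fin m) :
    (Pi.single 0 1 + Pi.single 2 1 : Vec m ℂ) (sx i) = if (i : ℕ) = 1 then 1 else 0 := by
  rw [two_eq hm, Pi.add_apply, Pi.single_apply, Pi.single_apply, if_neg (sx_ne_zero i), zero_add,
    if_congr sx_inj rfl rfl]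
  simp only [Fin.ext_iff]

theorem x_last (hm : 2 ≤ m) :
    (Pi.single 0 1 + Pi.single 2 1 : Vec m ℂ) (Fin.last (m + 1)) = 0 := by
  rw [two_eq hm]
  have h := fun i : Fin m => (sx_ne_last i).symm
  simp [Pi.single_apply, last_ne_zero, h]

theorem u_zero : (Pi.single (Fin.last (m + 1)) 1 : Vec m ℂ) 0 = 0 := by
  simp [Pi.single_apply, last_ne_zero.symm]

theorem u_sx (i : Fin m) : (Pi.single (Fin.last (m + 1)) 1 : Vec m ℂ) (sx i) = 0 := by
  simp [Pi.single_apply, sx_ne_last]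

theorem u_last : (Pi.single (Fin.last (m + 1)) 1 : Vec m ℂ) (Fin.last (m + 1)) = 1 := by
  simp

theorem e_zero (j : Fin (m + 2)) : (ev1 j : Vec m ℂ) 0 = if j = 0 then 1 else 0 := by
  simp [ev1, Pi.single_apply, eq_comm]

theorem e_sx (j : Fin (m + 2)) (i : Fin m) :
    (ev1 j : Vec m ℂ) (sx i) = if j = sx i then 1 else 0 := by
  simp [ev1, Pi.single_apply, eq_comm]

theorem e_last (j : Fin (m + 2)) :
    (ev1 j : Vec m ℂ) (Fin.last (m + 1)) = if j = Fin.last (m + 1) then 1 else 0 := by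
  simp [ev1, Pi.single_apply, eq_comm]

end SadS

open SadS in
/-- PIECE [VDC].  The derivative in the direction of the unknowns is surjective. -/
theorem surj_c0 (hm : 2 ≤ m) (w : TT m) : ∃ ζ : ZZ m, DFF (datOf (c0 m)) (zz m) ζ = w := by
  obtain ⟨w1, w2, w3, w4, w5, w6⟩ := w
  set i0 : Fin m := ⟨0, by omega⟩ with hi0
  set i1 : Fin m := ⟨1, by omega⟩ with hi1
  have hi01 : i0 ≠ i1 := by
    rw [hi0, hi1]; simp
  set n : Fin (m + 2) := Fin.last (m + 1) with hn
  set f : Fin m → ℂ := fun i => if i = i0 then (w1 i0 + w2 0 + w2 (sx i1)) / 2 else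
    if i = i1 then w6 / 2 else 0 with hf
  refine ⟨(vec 0 f ((2 * w2 n + w3 (Fin.last m)) / 5),
    vec 0 (fun i => f i - w1 i) ((w2 n - 2 * w3 (Fin.last m)) / 5),
    vec 0 w4 0, vec 0 (fun i => - w5 i) 0, fun i => w3 i.castSucc, fun i => - w2 (sx i)), ?_⟩
  have h1 : (1 : Fin (m + 2)) = sx i0 := one_eq hm
  have h2 : (2 : Fin (m + 2)) = sx i1 := two_eq hm
  have x0 := x_zero hm
  have xs := x_sx hm
  have xl := x_last hm
  have fi0 : f i0 = (w1 i0 + w2 0 + w2 (sx i1)) / 2 := by simp [hf]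
  have fi1 : f i1 = w6 / 2 := by simp [hf, hi01.symm]
  have nu : ∀ g : Fin m → ℂ, ∑ i : Fin m, (if (i : ℕ) = 0 then (1 : ℂ) else 0) * g i = g i0 := by
    intro g
    rw [Finset.sum_eq_single i0]
    · simp [hi0]
    · intro b _ hb
      have : (b : ℕ) ≠ 0 := fun h => hb (Fin.ext h)
      simp [this]
    · intro h; exact absurd (Finset.mem_univ _) h
  have cas : ∀ j : Fin (m + 2), j = 0 ∨ (∃ i : Fin m, j = sx i) ∨ j = n := by
    intro j
    rcases Fin.eq_zero_or_eq_succ j with h | ⟨k, h⟩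
    · exact Or.inl h
    · right
      induction k using Fin.lastCases with
      | last => right; rw [h, hn, Fin.succ_last]
      | cast i => left; exact ⟨i, by rw [h, sx_eq]⟩
  have u0 : (Pi.single (Fin.last (m + 1)) 1 : Vec m ℂ) 0 = 0 := u_zero
  have us : ∀ i, (Pi.single (Fin.last (m + 1)) 1 : Vec m ℂ) (sx i) = 0 := u_sx
  have ul : (Pi.single (Fin.last (m + 1)) 1 : Vec m ℂ) (Fin.last (m + 1)) = 1 := u_last
  unfold DFF zz
  simp only [c0_A, c0_B hm]
  rw [← hn] at ul us u0 xl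
  rw [← hn]
  generalize (Pi.single 0 1 + Pi.single 2 1 : Vec m ℂ) = X at x0 xs xl ⊢
  generalize (Pi.single n 1 : Vec m ℂ) = U at u0 us ul ⊢
  have vl : ∀ a f b, (vec a f b : Vec m ℂ) n = b := vec_last
  have xs1 : X (sx i1) = 1 := by rw [xs]; simp [hi1]
  have xs0 : X (sx i0) = 0 := by rw [xs]; simp [hi0]
  refine Prod.ext ?_ (Prod.ext ?_ (Prod.ext ?_ (Prod.ext ?_ (Prod.ext ?_ ?_))))
  · funext i
    simp only [x0, xs, vec_zero, vec_sx]
    ring
  · funext j
    simp only [h1, h2, x0, xl, vec_zero, vec_sx, vl, xs1, xs0]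
    have e1 : ∀ i : Fin m, (-w2 (sx i) * (ev1 j (sx i) * 1 - ev1 j 0 * X (sx i)) +
          (if (i : ℕ) = 0 then 1 else 0) * (ev1 j (sx i) * 0 - ev1 j 0 * (f i - w1 i))) =
        -w2 (sx i) * ev1 j (sx i) + (w2 (sx i) * X (sx i)) * ev1 j 0 -
        ((if (i : ℕ) = 0 then 1 else 0) * (f i - w1 i)) * ev1 j 0 := by
      intro i; ring
    have e2 : ∑ i : Fin m, w2 (sx i) * X (sx i) = w2 (sx i1) := by
      rw [Finset.sum_eq_single i1]
      · rw [xs1, mul_one]
      · intro b _ hb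
        have : (b : ℕ) ≠ 1 := fun h => hb (Fin.ext h)
        rw [xs, if_neg this, mul_zero]
      · intro h; exact absurd (Finset.mem_univ _) h
    rw [Finset.sum_congr rfl (fun i _ => e1 i), Finset.sum_sub_distrib, Finset.sum_add_distrib,
      ← Finset.sum_mul, ← Finset.sum_mul, nu (fun i => f i - w1 i), e2]
    rcases cas j with h | ⟨i, h⟩ | h
    · have a0 : (ev1 j : Vec m ℂ) 0 = 1 := by rw [e_zero, if_pos h]
      have as : ∀ i, (ev1 j : Vec m ℂ) (sx i) = 0 := fun i => by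
        rw [e_sx, if_neg]; rw [h]; exact (sx_ne_zero i).symm
      have al : (ev1 j : Vec m ℂ) n = 0 := by
        rw [hn, e_last, if_neg]; rw [h]; exact last_ne_zero.symm
      simp only [a0, as, al, mul_zero, Finset.sum_const_zero]
      rw [h, fi0]
      ring
    · have a0 : (ev1 j : Vec m ℂ) 0 = 0 := by rw [e_zero, if_neg]; rw [h]; exact sx_ne_zero i
      have al : (ev1 j : Vec m ℂ) n = 0 := by
        rw [hn, e_last, if_neg]; rw [h]; exact sx_ne_last i
      have as : (ev1 j : Vec m ℂ) (sx i) = 1 := by rw [e_sx, if_pos h]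
      have e3 : ∑ k : Fin m, -w2 (sx k) * (ev1 j : Vec m ℂ) (sx k) = -w2 (sx i) := by
        rw [Finset.sum_eq_single i]
        · rw [as, mul_one]
        · intro b _ hb
          rw [e_sx, if_neg, mul_zero]
          rw [h]
          exact fun h' => hb (sx_inj.mp h').symm
        · intro h; exact absurd (Finset.mem_univ _) h
      rw [e3, a0, al, h]
      ring
    · have a0 : (ev1 j : Vec m ℂ) 0 = 0 := by rw [e_zero, if_neg]; rw [h]; exact last_ne_zero
      have as : ∀ i, (ev1 j : Vec m ℂ) (sx i) = 0 := fun i => by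
        rw [e_sx, if_neg]; rw [h]; exact (sx_ne_last i).symm
      have al : (ev1 j : Vec m ℂ) n = 1 := by
        rw [hn, e_last, if_pos]; rw [h]
      simp only [a0, as, al, mul_zero, Finset.sum_const_zero]
      rw [h]
      ring
  · funext l
    have b0 : (ev1 l.succ : Vec m ℂ) 0 = 0 := by
      rw [e_zero, if_neg]; exact Fin.succ_ne_zero l
    simp only [h1, h2, x0, xl, vec_zero, vec_sx, vl, xs1, xs0, b0]
    induction l using Fin.lastCases with
    | last =>
      rw [Fin.succ_last]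
      have as : ∀ i, (ev1 (Fin.last (m + 1)) : Vec m ℂ) (sx i) = 0 := fun i => by
        rw [e_sx, if_neg]; exact (sx_ne_last i).symm
      have al : (ev1 (Fin.last (m + 1)) : Vec m ℂ) n = 1 := by
        rw [hn, e_last, if_pos rfl]
      simp [as, al]
      ring
    | cast i =>
      rw [← sx_eq]
      have as : (ev1 (sx i) : Vec m ℂ) (sx i) = 1 := by rw [e_sx, if_pos rfl]
      have al : (ev1 (sx i) : Vec m ℂ) n = 0 := by
        rw [hn, e_last, if_neg]; exact sx_ne_last i
      have e3 : ∑ k : Fin m, w3 k.castSucc * (ev1 (sx i) : Vec m ℂ) (sx k) = w3 i.castSucc := by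
        rw [Finset.sum_eq_single i]
        · rw [as, mul_one]
        · intro b _ hb
          rw [e_sx, if_neg, mul_zero]
          exact fun h' => hb (sx_inj.mp h').symm
        · intro h; exact absurd (Finset.mem_univ _) h
      simp [al]
      exact e3
  · funext i
    simp only [x0, xs, u0, us, vec_zero, vec_sx]
    ring
  · funext i
    simp only [x0, xs, u0, us, vec_zero, vec_sx]
    ring
  · simp only [h1, h2, x0, xl, xs1, xs0, u0, us, ul, vec_zero, vec_sx, vl]
    simp [fi1]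
    ring

end Pool.Agent.MP_1209e6_cy
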