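import Pool.Agent.Lib_MP_1209e6_cy.VSadA
import Pool.Agent.Lib_MP_1209e6_cy.VSadB
import Pool.Agent.Lib_MP_1209e6_cy.VSadS
import Pool.Agent.Lib_MP_1209e6_cy.VOpen

/-!
PIECE [VDD] (MP_1209e6_ag).  Saddle points near the special member.
-/

open Matrix MvPolynomial Filter Topology

namespace Pool.Agent.MP_1209e6_cy

variable {m : ℕ}

theorem vdd_cont_B {E : Type*} [TopologicalSpace E] {c : E → Ix m → ℂ} {x x' y y' : E → Vec m ℂ}
    (hc : Continuous c) (hx : Continuous x) (hx' : Continuous x') (hy : Continuous y)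
    (hy' : Continuous y') :
    Continuous (fun e => (datOf (c e)).B (x e) (x' e) (y e) (y' e)) := by
  unfold Dat.B
  simp only [datOf_b]
  refine continuous_finsetSum _ fun j _ => continuous_finsetSum _ fun k _ =>
    continuous_finsetSum _ fun l _ => continuous_finsetSum _ fun p _ => ?_
  exact ((((continuous_apply _).comp hc).mul ((continuous_apply j).comp hx)).mul
    ((continuous_apply k).comp hx')).mul ((continuous_apply l).comp hy) |>.mul
    ((continuous_apply p).comp hy')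

theorem vdd_cont_row {E : Type*} [TopologicalSpace E] {c : E → Ix m → ℂ} {y : E → Vec m ℂ}
    (hc : Continuous c) (hy : Continuous y) :
    Continuous (fun e => (datOf (c e)).row (y e)) := by
  refine continuous_pi fun i => continuous_pi fun j => ?_
  unfold Dat.row
  simp only [datOf_a]
  refine continuous_finsetSum _ fun l _ => ?_
  exact ((continuous_apply _).comp hc).mul ((continuous_apply l).comp hy)

theorem vdd_cont_row' {E : Type*} [TopologicalSpace E] {c : E → Ix m → ℂ} {y : E → Vec m ℂ}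
    (hc : Continuous c) (hy : Continuous y) :
    Continuous (fun e => (datOf (c e)).swap.row (y e)) := by
  refine continuous_pi fun i => continuous_pi fun j => ?_
  unfold Dat.row Dat.swap
  simp only [datOf_a]
  refine continuous_finsetSum _ fun l _ => ?_
  exact ((continuous_apply _).comp hc).mul ((continuous_apply l).comp hy)

theorem vdd_cont_plu {E : Type*} [TopologicalSpace E] {r : E → Fin m → Vec m ℂ}
    (hr : Continuous r) (w ξ : Vec m ℂ) : Continuous (fun e => plu (r e) w ξ) := by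
  unfold plu
  refine Continuous.matrix_det (continuous_matrix fun i j => ?_)
  refine Fin.cases ?_ (fun i => ?_) i
  · exact continuous_const
  · refine Fin.cases ?_ (fun i => ?_) i
    · exact continuous_const
    · exact (continuous_apply j).comp ((continuous_apply i).comp hr)

/-- PIECE [VDD].  Near the special member there are good solutions.

Proof.  The conditions of `Good` other than the equation are open in `(c, z)` (continuity) and hold at `(c0, zz)` (`good_c0`), so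
they hold on `U ×ˢ N`; `eventually_exists_zero` with `contDiff_FF`, `fderiv_FF`, `surj_c0`. -/
theorem good_near (hm : 2 ≤ m) : ∀ᶠ c in 𝓝 (c0 m), ∃ z, Good (datOf c) z := by
  have hg := good_c0 hm
  have c1 : Continuous (fun p : (Ix m → ℂ) × ZZ m => p.1) := continuous_fst
  have cx : Continuous (fun p : (Ix m → ℂ) × ZZ m => p.2.1) := by fun_prop
  have cy : Continuous (fun p : (Ix m → ℂ) × ZZ m => p.2.2.1) := by fun_prop
  have cu : Continuous (fun p : (Ix m → ℂ) × ZZ m => p.2.2.2.1) := by fun_prop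
  have cv : Continuous (fun p : (Ix m → ℂ) × ZZ m => p.2.2.2.2.1) := by fun_prop
  have cmu : Continuous (fun p : (Ix m → ℂ) × ZZ m => p.2.2.2.2.2.1) := by fun_prop
  have cnu : Continuous (fun p : (Ix m → ℂ) × ZZ m => p.2.2.2.2.2.2) := by fun_prop
  have h1 : ∀ᶠ p in 𝓝 ((c0 m, zz m) : (Ix m → ℂ) × ZZ m), p.2.2.1 0 ≠ 0 :=
    ((continuous_apply 0).comp cy).continuousAt.eventually_ne hg.y0
  have h2 : ∀ᶠ p in 𝓝 ((c0 m, zz m) : (Ix m → ℂ) × ZZ m),
      plu ((datOf p.1).row p.2.2.1) (ev1 (Fin.last (m + 1))) (ev1 0) ≠ 0 :=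
    (vdd_cont_plu (vdd_cont_row c1 cy) _ _).continuousAt.eventually_ne hg.ry
  have h3 : ∀ᶠ p in 𝓝 ((c0 m, zz m) : (Ix m → ℂ) × ZZ m),
      plu ((datOf p.1).swap.row p.2.1) (ev1 (Fin.last (m + 1))) (ev1 0) ≠ 0 :=
    (vdd_cont_plu (vdd_cont_row' c1 cx) _ _).continuousAt.eventually_ne hg.rx
  have h4 : ∀ᶠ p in 𝓝 ((c0 m, zz m) : (Ix m → ℂ) × ZZ m), p.2.2.2.2.2.1 ≠ p.2.2.2.2.2.2 :=
    (isOpen_ne_fun cmu cnu).mem_nhds hg.ne
  have h5 : ∀ᶠ p in 𝓝 ((c0 m, zz m) : (Ix m → ℂ) × ZZ m),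
      (datOf p.1).B p.2.2.2.1 p.2.2.2.1 p.2.2.1 p.2.2.1 ≠ 0 :=
    (vdd_cont_B c1 cu cu cy cy).continuousAt.eventually_ne hg.Qu
  have h6 : ∀ᶠ p in 𝓝 ((c0 m, zz m) : (Ix m → ℂ) × ZZ m),
      (datOf p.1).B p.2.1 p.2.1 p.2.2.2.2.1 p.2.2.2.2.1 ≠ 0 :=
    (vdd_cont_B c1 cx cx cv cv).continuousAt.eventually_ne hg.Qv
  have hall := h1.and (h2.and (h3.and (h4.and (h5.and h6))))
  rw [nhds_prod_eq, Filter.eventually_prod_iff] at hall
  obtain ⟨pU, hU, pN, hN, hUN⟩ := hall
  have hs : ∀ w : TT m, ∃ ζ : ZZ m,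
      fderiv ℂ (fun p : (Ix m → ℂ) × ZZ m => FF (datOf p.1) p.2) (c0 m, zz m) (0, ζ) = w := by
    intro w
    obtain ⟨ζ, hζ⟩ := surj_c0 hm w
    exact ⟨ζ, by rw [fderiv_FF, hζ]⟩
  have hex := eventually_exists_zero (contDiff_FF (m := m)) (e₀ := c0 m) (z₀ := zz m) hg.eqn hs hN
  filter_upwards [hU, hex] with c hc hz
  obtain ⟨z, hzN, hz0⟩ := hz
  obtain ⟨k1, k2, k3, k4, k5, k6⟩ := hUN hc hzN
  exact ⟨z, hz0, k1, k2, k3, k4, k5, k6⟩

end Pool.Agent.MP_1209e6_cy
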