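import Pool.Agent.Lib_MP_1209e6_cy.VThin
import Pool.Agent.Lib_MP_1209e6_cy.VCount
import Pool.Agent.Lib_MP_1209e6_cy.VBase

/-!
# Smallness for generic coefficients, first part
-/

open Matrix MvPolynomial

namespace Pool.Agent.MP_1209e6_cy

variable {m : ℕ}

/-- the counting argument for exceptional points, over the field generated by the coefficients -/
theorem not_indep_exc {c : Ix m → ℂ} (hc : AlgebraicIndependent ℚ c) {x y : Vec m ℂ} (hx : x ≠ 0)
    {j₀ : Fin (m + 2)} (hy : y j₀ = 1) (hin : (datOf c).In x y)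
    (hE : ∀ i j, (datOf c).swap.E x i j = 0) (J : Finset (Fin (m + 2))) (hJ : J.card = m) :
    ¬ AlgebraicIndependent (Fc c) (fun j : J => y j) := by
  intro h
  obtain ⟨i₀, hi⟩ := Function.ne_iff.1 hx
  simp only [Pi.zero_apply] at hi
  have h1 := indep_sum hc (mem_Fc c) h
  have hx1 : ((x i₀)⁻¹ • x) i₀ = 1 := by simp [hi]
  have hin1 : (datOf c).In ((x i₀)⁻¹ • x) y := by
    refine ⟨fun i => ?_, ?_⟩
    · rw [Dat.A_smul_left, hin.1 i, mul_zero]
    · rw [Dat.B_smul₁, (datOf_symm c).B_smul₂, hin.2, mul_zero, mul_zero]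
  have hE1 : ∀ i j, (datOf c).swap.E ((x i₀)⁻¹ • x) i j = 0 := by
    intro i j
    rw [Dat.E_smul, hE i j, mul_zero]
  have hJ' : m ≤ (J.map (Function.Embedding.inr : Fin (m + 2) ↪ Fin (m + 2) ⊕ Fin (m + 2))).card := by
    rw [Finset.card_map, hJ]
  refine count_exc hx1 hy hin1 hE1 hJ' ?_
  have key : ∀ j : (J.map (Function.Embedding.inr : Fin (m + 2) ↪ Fin (m + 2) ⊕ Fin (m + 2))),
      ∃ l : J, (j : Fin (m + 2) ⊕ Fin (m + 2)) = Sum.inr (l : Fin (m + 2)) := by
    rintro ⟨j, hj⟩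
    rw [Finset.mem_map] at hj
    obtain ⟨l, hl, hl2⟩ := hj
    exact ⟨⟨l, hl⟩, hl2.symm⟩
  choose f hf using key
  have hfi : Function.Injective f := by
    intro j j' hjj
    apply Subtype.ext
    rw [hf j, hf j', hjj]
  have h2 := h1.comp (Sum.map id f) (Function.Injective.sumMap Function.injective_id hfi)
  have h3 : Sum.elim c (fun j : J => y j) ∘ Sum.map id f =
      Sum.elim c (fun j : (J.map (Function.Embedding.inr :
        Fin (m + 2) ↪ Fin (m + 2) ⊕ Fin (m + 2))) => Sum.elim ((x i₀)⁻¹ • x) y j) := by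
    funext t
    rcases t with t | t
    · rfl
    · show y (f t) = Sum.elim ((x i₀)⁻¹ • x) y t
      rw [hf t]
      rfl
  rw [h3] at h2
  exact h2

/-- the same for the other projection -/
theorem not_indep_exc' {c : Ix m → ℂ} (hc : AlgebraicIndependent ℚ c) {y : Vec m ℂ}
    {j₀ : Fin (m + 2)} (hy : y j₀ = 1)
    (hE : ∀ i j, (datOf c).E y i j = 0) (J : Finset (Fin (m + 2))) (hJ : J.card = m) :
    ¬ AlgebraicIndependent (Fc c) (fun j : J => y j) := by
  intro h
  obtain ⟨x, hx, hin⟩ := (datOf_symm c).exists_In y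
  obtain ⟨i₀, hi⟩ := Function.ne_iff.1 hx
  simp only [Pi.zero_apply] at hi
  have h1 := indep_sum hc (mem_Fc c) h
  have hx1 : ((x i₀)⁻¹ • x) i₀ = 1 := by simp [hi]
  have hin1 : (datOf c).In ((x i₀)⁻¹ • x) y := by
    refine ⟨fun i => ?_, ?_⟩
    · rw [Dat.A_smul_left, hin.1 i, mul_zero]
    · rw [Dat.B_smul₁, (datOf_symm c).B_smul₂, hin.2, mul_zero, mul_zero]
  have hin2 : (datOf (c ∘ swapIx m)).In y ((x i₀)⁻¹ • x) := by
    rw [← datOf_swap, Dat.swap_In]
    exact hin1
  have hE2 : ∀ i j, (datOf (c ∘ swapIx m)).swap.E y i j = 0 := by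
    intro i j
    rw [← datOf_swap, Dat.swap_swap]
    exact hE i j
  have hJ' : m ≤ (J.map (Function.Embedding.inl : Fin (m + 2) ↪ Fin (m + 2) ⊕ Fin (m + 2))).card := by
    rw [Finset.card_map, hJ]
  refine count_exc hy hx1 hin2 hE2 hJ' ?_
  have key : ∀ j : (J.map (Function.Embedding.inl : Fin (m + 2) ↪ Fin (m + 2) ⊕ Fin (m + 2))),
      ∃ l : J, (j : Fin (m + 2) ⊕ Fin (m + 2)) = Sum.inl (l : Fin (m + 2)) := by
    rintro ⟨j, hj⟩
    rw [Finset.mem_map] at hj
    obtain ⟨l, hl, hl2⟩ := hj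
    exact ⟨⟨l, hl⟩, hl2.symm⟩
  choose f hf using key
  have hfi : Function.Injective f := by
    intro j j' hjj
    apply Subtype.ext
    rw [hf j, hf j', hjj]
  have h2 := h1.comp (Sum.map (swapIx m) f) (Function.Injective.sumMap swapIx_injective hfi)
  have h3 : Sum.elim c (fun j : J => y j) ∘ Sum.map (swapIx m) f =
      Sum.elim (c ∘ swapIx m) (fun j : (J.map (Function.Embedding.inl :
        Fin (m + 2) ↪ Fin (m + 2) ⊕ Fin (m + 2))) => Sum.elim y ((x i₀)⁻¹ • x) j) := by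
    funext t
    rcases t with t | t
    · rfl
    · show y (f t) = Sum.elim y ((x i₀)⁻¹ • x) t
      rw [hf t]
      rfl
  rw [h3] at h2
  exact h2

theorem thin_e1 {c : Ix m → ℂ} (hc : AlgebraicIndependent ℚ c) :
    Thin {y : Vec m ℂ | y ≠ 0 ∧ ∀ i j, (datOf c).E y i j = 0} := by
  have haev : ∀ (y : Vec m ℂ) (i j : Fin (m + 2)),
      aeval y ((datOf (cF c)).EP i j) = (datOf c).E y i j := by
    intro y i j
    rw [Dat.aeval_EP, datOf_cF_map]
  have h := thin_of_indep (m := m) (Fc_countable c)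
    (Submodule.span (Fc c) (Set.range fun p : Fin (m + 2) × Fin (m + 2) =>
      (datOf (cF c)).EP p.1 p.2)) (d := 2 * m + 2) (by
      intro P hP
      have hle : Submodule.span (Fc c) (Set.range fun p : Fin (m + 2) × Fin (m + 2) =>
          (datOf (cF c)).EP p.1 p.2) ≤ homogeneousSubmodule (Fin (m + 2)) (Fc c) (2 * m + 2) := by
        rw [Submodule.span_le]
        rintro _ ⟨p, rfl⟩
        exact (datOf (cF c)).EP_homog p.1 p.2
      exact hle hP) (by
      intro y l₀ hy hV J hJ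
      refine not_indep_exc' hc hy (fun i j => ?_) J hJ
      rw [← haev]
      exact hV _ (Submodule.subset_span ⟨(i, j), rfl⟩))
  refine h.mono ?_
  rintro y ⟨-, hy⟩ P hP
  induction hP using Submodule.span_induction with
  | mem P hP =>
    obtain ⟨p, rfl⟩ := hP
    rw [haev]
    exact hy _ _
  | zero => exact map_zero _
  | add P Q _ _ hP hQ => rw [map_add, hP, hQ, add_zero]
  | smul a P _ hP => rw [map_smul, hP, smul_zero]

end Pool.Agent.MP_1209e6_cy
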