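import Pool.Agent.Lib_MP_1209e6_cy.VDef

/-!
PIECE [VSA] (MP_1209e6_ag).  Elimination at a singular point, first case.
-/

open Matrix

namespace Pool.Agent.MP_1209e6_cy

variable {m : ℕ}

/-- isolating one term of a sum -/
theorem vsa_iso {ι : Type*} [Fintype ι] [DecidableEq ι] (L : Subfield ℂ) (f : ι → ℂ) (i : ι)
    (h : ∑ j, f j ∈ L) (h' : ∀ j, j ≠ i → f j ∈ L) : f i ∈ L := by
  have h1 := Finset.add_sum_erase Finset.univ f (Finset.mem_univ i)
  have h2 : f i = ∑ j, f j - ∑ j ∈ Finset.univ.erase i, f j := by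
    rw [← h1]
    ring
  rw [h2]
  exact sub_mem h (sum_mem fun j hj => h' j (Finset.ne_of_mem_erase hj))

/-- isolating one term of a fourfold sum -/
theorem vsa_iso4 {n : ℕ} (L : Subfield ℂ) (f : Fin n → Fin n → Fin n → Fin n → ℂ)
    (j k l p : Fin n) (h : ∑ j, ∑ k, ∑ l, ∑ p, f j k l p ∈ L)
    (h' : ∀ j' k' l' p', (j', k', l', p') ≠ (j, k, l, p) → f j' k' l' p' ∈ L) :
    f j k l p ∈ L := by
  refine vsa_iso L (fun t : Fin n × Fin n × Fin n × Fin n => f t.1 t.2.1 t.2.2.1 t.2.2.2)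
    (j, k, l, p) ?_ ?_
  · rw [Fintype.sum_prod_type]
    simp only [Fintype.sum_prod_type]
    exact h
  · rintro ⟨j', k', l', p'⟩ hne
    exact h' j' k' l' p' hne

/-- the coefficients which are eliminated -/
def vsaT (i₀ j₀ : Fin (m + 2)) : Finset (Ix m) :=
  ((Finset.univ : Finset (Fin m)).image fun i => (Sum.inl (i, i₀, j₀) : Ix m)) ∪
    (((Finset.univ : Finset (Fin (m + 2))).image fun j => (Sum.inr (s(i₀, j), s(j₀, j₀)) : Ix m)) ∪
    (((Finset.univ : Finset (Fin (m + 2))).erase j₀).image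
      fun l => (Sum.inr (s(i₀, i₀), s(j₀, l)) : Ix m)))

theorem vsaT_card (i₀ j₀ : Fin (m + 2)) : (vsaT (m := m) i₀ j₀).card = 3 * m + 3 := by
  unfold vsaT
  rw [Finset.card_union_of_disjoint, Finset.card_union_of_disjoint, Finset.card_image_of_injective,
    Finset.card_image_of_injective, Finset.card_image_of_injective, Finset.card_erase_of_mem,
    Finset.card_univ, Finset.card_univ, Fintype.card_fin, Fintype.card_fin]
  · omega
  · exact Finset.mem_univ _
  · intro l l' h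
    have h1 : l = l' ∨ j₀ = l' ∧ l = j₀ := by simpa using h
    rcases h1 with h1 | h1
    · exact h1
    · rw [h1.2, h1.1]
  · intro l l' h
    have h1 : l = l' ∨ i₀ = l' ∧ l = i₀ := by simpa using h
    rcases h1 with h1 | h1
    · exact h1
    · rw [h1.2, h1.1]
  · intro l l' h
    simpa using h
  · rw [Finset.disjoint_left]
    intro t ht ht'
    obtain ⟨j, _, rfl⟩ := Finset.mem_image.mp ht
    obtain ⟨l, hl, h⟩ := Finset.mem_image.mp ht'
    have h1 := congrArg Prod.snd (Sum.inr.inj h)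
    simp only [Sym2.eq_iff] at h1
    refine Finset.ne_of_mem_erase hl ?_
    rcases h1 with h1 | h1
    · exact h1.2
    · exact h1.2
  · rw [Finset.disjoint_left]
    intro t ht ht'
    obtain ⟨j, _, rfl⟩ := Finset.mem_image.mp ht
    rcases Finset.mem_union.mp ht' with ht' | ht'
    · obtain ⟨l, hl, h⟩ := Finset.mem_image.mp ht'
      exact absurd h (by simp)
    · obtain ⟨l, hl, h⟩ := Finset.mem_image.mp ht'
      exact absurd h (by simp)

theorem vsaT_inl {i₀ j₀ : Fin (m + 2)} {i : Fin m} {j l : Fin (m + 2)}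
    (h : (Sum.inl (i, j, l) : Ix m) ∈ vsaT (m := m) i₀ j₀) : j = i₀ ∧ l = j₀ := by
  unfold vsaT at h
  rw [Finset.mem_union, Finset.mem_union] at h
  rcases h with h | h | h
  · obtain ⟨i', _, h⟩ := Finset.mem_image.mp h
    have h1 := Sum.inl.inj h
    simp only [Prod.mk.injEq] at h1
    exact ⟨h1.2.1.symm, h1.2.2.symm⟩
  · obtain ⟨i', _, h⟩ := Finset.mem_image.mp h
    exact absurd h (by simp)
  · obtain ⟨i', _, h⟩ := Finset.mem_image.mp h
    exact absurd h (by simp)

theorem vsaT_inr {i₀ j₀ : Fin (m + 2)} {j k l p : Fin (m + 2)}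
    (h : (Sum.inr (s(j, k), s(l, p)) : Ix m) ∈ vsaT (m := m) i₀ j₀) :
    ((j = i₀ ∨ k = i₀) ∧ l = j₀ ∧ p = j₀) ∨
      (j = i₀ ∧ k = i₀ ∧ ((l = j₀ ∧ p ≠ j₀) ∨ (l ≠ j₀ ∧ p = j₀))) := by
  unfold vsaT at h
  rw [Finset.mem_union, Finset.mem_union] at h
  rcases h with h | h | h
  · obtain ⟨i', _, h⟩ := Finset.mem_image.mp h
    exact absurd h (by simp)
  · obtain ⟨i', _, h⟩ := Finset.mem_image.mp h
    have h1 := congrArg Prod.fst (Sum.inr.inj h)
    have h2 := congrArg Prod.snd (Sum.inr.inj h)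
    simp only [Sym2.eq_iff] at h1 h2
    left
    rcases h1 with h1 | h1
    · rcases h2 with h2 | h2
      · exact ⟨Or.inl h1.1.symm, h2.1.symm, h2.2.symm⟩
      · exact ⟨Or.inl h1.1.symm, h2.2.symm, h2.1.symm⟩
    · rcases h2 with h2 | h2
      · exact ⟨Or.inr h1.1.symm, h2.1.symm, h2.2.symm⟩
      · exact ⟨Or.inr h1.1.symm, h2.2.symm, h2.1.symm⟩
  · obtain ⟨q, hq, h⟩ := Finset.mem_image.mp h
    have hq' := Finset.ne_of_mem_erase hq
    have h1 := congrArg Prod.fst (Sum.inr.inj h)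
    have h2 := congrArg Prod.snd (Sum.inr.inj h)
    simp only [Sym2.eq_iff] at h1 h2
    right
    have h3 : j = i₀ ∧ k = i₀ := by
      rcases h1 with h1 | h1
      · exact ⟨h1.1.symm, h1.2.symm⟩
      · exact ⟨h1.2.symm, h1.1.symm⟩
    refine ⟨h3.1, h3.2, ?_⟩
    rcases h2 with h2 | h2
    · left
      exact ⟨h2.1.symm, h2.2 ▸ hq'⟩
    · right
      exact ⟨h2.2 ▸ hq', h2.1.symm⟩

/-- PIECE [VSA].  Let `(x, y)` be a point of `X`, `x_{i₀} = y_{j₀} = 1`, where the differential of the `(2, 2)`-form is a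
linear combination of those of the bilinear forms.  Then `3 m + 3` coefficients are rational functions of the others
and of `x, y` and `lam`.

Proof.  `T` consists of the `inl (i, i₀, j₀)` (`m` elements), the `inr (s(i₀, j), s(j₀, j₀))`, `j ∈ Fin (m + 2)` (`m + 2` elements)
and the `inr (s(i₀, i₀), s(j₀, l))`, `l ≠ j₀` (`m + 1` elements).  Let `L` be a subfield as in the statement.
`0 = A_i(x, y) = a_{i i₀ j₀} + ∑_{(j,l) ≠ (i₀,j₀)} a_ijl x_j y_l`, so all `a_ijl` are in `L`.
For `j ≠ i₀`: `h1` with `ξ = e_j`: `B(x, e_j, y, y) = ∑_k ∑_lp x_k y_l y_p b_kjlp ∈ L`; the only term whose coefficient is in `T` is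
`k = i₀`, `l = p = j₀`, and this term is `b_{i₀ j j₀ j₀}`; so it is in `L`.
For `l ≠ j₀`: `h2` with `η = e_l`: `B(x, x, y, e_l) = ∑_jk ∑_p x_j x_k y_p b_jkpl ∈ L`; the only term whose coefficient is in `T` is
`j = k = i₀`, `p = j₀`: so `b_{i₀ i₀ j₀ l} ∈ L`.
Finally `h1` with `ξ = e_{i₀}`: all coefficients in `B(x, e_{i₀}, y, y) = ∑_k ∑_lp x_k y_l y_p b_{k i₀ l p}` except `b_{i₀ i₀ j₀ j₀}` (with
`k = i₀`, `l = p = j₀`, factor `1`) are known to be in `L`. -/
theorem elimC {c : Ix m → ℂ} {x y : Vec m ℂ} {i₀ j₀ : Fin (m + 2)} (hx : x i₀ = 1) (hy : y j₀ = 1)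
    (hin : (datOf c).In x y) (lam : Fin m → ℂ)
    (h1 : ∀ ξ, (datOf c).B x ξ y y = ∑ i, lam i * (datOf c).A i ξ y)
    (h2 : ∀ η, (datOf c).B x x y η = ∑ i, lam i * (datOf c).A i x η) :
    ∃ T : Finset (Ix m), T.card = 3 * m + 3 ∧ ∀ L : Subfield ℂ, (∀ t, t ∉ T → c t ∈ L) →
      (∀ j, x j ∈ L) → (∀ l, y l ∈ L) → (∀ i, lam i ∈ L) → ∀ t ∈ T, c t ∈ L := by
  classical
  refine ⟨vsaT i₀ j₀, vsaT_card i₀ j₀, ?_⟩
  intro L hc hxL hyL hlam
  -- the coefficients of the bilinear forms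
  have hA : ∀ i j l, c (Sum.inl (i, j, l)) ∈ L := by
    intro i j l
    by_cases ht : (Sum.inl (i, j, l) : Ix m) ∈ vsaT (m := m) i₀ j₀
    · obtain ⟨rfl, rfl⟩ := vsaT_inl ht
      have h0 : ∑ t : Fin (m + 2) × Fin (m + 2),
          (c (Sum.inl (i, t.1, t.2)) * x t.1 * y t.2) ∈ L := by
        have h3 : ∑ t : Fin (m + 2) × Fin (m + 2),
          (c (Sum.inl (i, t.1, t.2)) * x t.1 * y t.2) = (datOf c).A i x y := by
          rw [Fintype.sum_prod_type]
          rfl
        rw [h3, hin.1 i]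
        exact zero_mem L
      have h4 := vsa_iso L _ (j, l) h0 (by
        rintro ⟨j', l'⟩ hne
        refine mul_mem (mul_mem (hc _ fun ht' => hne ?_) (hxL _)) (hyL _)
        obtain ⟨h5, h6⟩ := vsaT_inl ht'
        rw [Prod.mk.injEq]
        exact ⟨h5, h6⟩)
      simp only [hx, hy, mul_one] at h4
      exact h4
    · exact hc _ ht
  have hsingle : ∀ j k : Fin (m + 2), (Pi.single j 1 : Vec m ℂ) k ∈ L := by
    intro j k
    by_cases h : k = j
    · subst h
      rw [Pi.single_eq_same]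
      exact one_mem L
    · rw [Pi.single_eq_of_ne h]
      exact zero_mem L
  have hAmem : ∀ (i : Fin m) (u v : Vec m ℂ), (∀ j, u j ∈ L) → (∀ j, v j ∈ L) →
      (datOf c).A i u v ∈ L := by
    intro i u v hu hv
    refine sum_mem fun j _ => sum_mem fun l _ => ?_
    exact mul_mem (mul_mem (hA i j l) (hu j)) (hv l)
  have hB1 : ∀ j, (datOf c).B x (Pi.single j 1) y y ∈ L := by
    intro j
    rw [h1]
    exact sum_mem fun i _ => mul_mem (hlam i) (hAmem i _ _ (hsingle j) hyL)
  have hB2 : ∀ l, (datOf c).B x x y (Pi.single l 1) ∈ L := by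
    intro l
    rw [h2]
    exact sum_mem fun i _ => mul_mem (hlam i) (hAmem i _ _ hxL (hsingle l))
  -- first kind
  have hS1 : ∀ j, j ≠ i₀ → c (Sum.inr (s(i₀, j), s(j₀, j₀))) ∈ L := by
    intro j hj
    have h4 := vsa_iso4 L (fun j' k' l' p' => (datOf c).b j' k' l' p' * x j' *
      (Pi.single j 1 : Vec m ℂ) k' * y l' * y p') i₀ j j₀ j₀ (hB1 j) (by
      intro j' k' l' p' hne
      by_cases hk : k' = j
      · subst hk
        refine mul_mem (mul_mem (mul_mem (mul_mem (hc _ fun ht => ?_) (hxL _)) (hsingle _ _))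
          (hyL _)) (hyL _)
        rcases vsaT_inr ht with ⟨h5, h6, h7⟩ | ⟨_, h5, _⟩
        · rcases h5 with h5 | h5
          · exact hne (by rw [h5, h6, h7])
          · exact hj h5
        · exact hj h5
      · rw [Pi.single_eq_of_ne hk]
        simp only [mul_zero, zero_mul]
        exact zero_mem L)
    simp only [hx, hy, Pi.single_eq_same, mul_one] at h4
    exact h4
  -- second kind
  have hS2 : ∀ l, l ≠ j₀ → c (Sum.inr (s(i₀, i₀), s(j₀, l))) ∈ L := by
    intro l hl
    have h4 := vsa_iso4 L (fun j' k' l' p' => (datOf c).b j' k' l' p' * x j' *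
      x k' * y l' * (Pi.single l 1 : Vec m ℂ) p') i₀ i₀ j₀ l (hB2 l) (by
      intro j' k' l' p' hne
      by_cases hk : p' = l
      · subst hk
        refine mul_mem (mul_mem (mul_mem (mul_mem (hc _ fun ht => ?_) (hxL _)) (hxL _))
          (hyL _)) (hsingle _ _)
        rcases vsaT_inr ht with ⟨_, _, h7⟩ | ⟨h5, h6, h7⟩
        · exact hl h7
        · rcases h7 with h7 | h7
          · exact hne (by rw [h5, h6, h7.1])
          · exact hl h7.2
      · rw [Pi.single_eq_of_ne hk]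
        simp only [mul_zero]
        exact zero_mem L)
    simp only [hx, hy, Pi.single_eq_same, mul_one] at h4
    exact h4
  -- the last coefficient
  have hS3 : c (Sum.inr (s(i₀, i₀), s(j₀, j₀))) ∈ L := by
    have h4 := vsa_iso4 L (fun j' k' l' p' => (datOf c).b j' k' l' p' * x j' *
      (Pi.single i₀ 1 : Vec m ℂ) k' * y l' * y p') i₀ i₀ j₀ j₀ (hB1 i₀) (by
      intro j' k' l' p' hne
      by_cases hk : k' = i₀
      · subst hk
        refine mul_mem (mul_mem (mul_mem (mul_mem ?_ (hxL _)) (hsingle _ _)) (hyL _)) (hyL _)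
        rw [datOf_b]
        by_cases ht : (Sum.inr (s(j', k'), s(l', p')) : Ix m) ∈ vsaT (m := m) k' j₀
        · rcases vsaT_inr ht with ⟨_, h6, h7⟩ | ⟨h5, _, h7⟩
          · subst h6
            subst h7
            rw [Sym2.eq_swap (a := j')]
            refine hS1 j' fun h8 => hne ?_
            rw [h8]
          · subst h5
            rcases h7 with h7 | h7
            · rw [h7.1]
              exact hS2 p' h7.2
            · rw [h7.2, Sym2.eq_swap (a := l')]
              exact hS2 l' h7.1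
        · exact hc _ ht
      · rw [Pi.single_eq_of_ne hk]
        simp only [mul_zero, zero_mul]
        exact zero_mem L)
    simp only [hx, hy, Pi.single_eq_same, mul_one] at h4
    exact h4
  intro t ht
  unfold vsaT at ht
  rw [Finset.mem_union, Finset.mem_union] at ht
  rcases ht with ht | ht | ht
  · obtain ⟨i, _, rfl⟩ := Finset.mem_image.mp ht
    exact hA _ _ _
  · obtain ⟨j, _, rfl⟩ := Finset.mem_image.mp ht
    by_cases hj : j = i₀
    · rw [hj]
      exact hS3
    · exact hS1 j hj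
  · obtain ⟨l, hl, rfl⟩ := Finset.mem_image.mp ht
    exact hS2 l (Finset.ne_of_mem_erase hl)

end Pool.Agent.MP_1209e6_cy
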