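import Pool.Agent.Lib_MP_1209e6_cy.VDef

/-!
PIECE [VSB] (MP_1209e6_ag).  Elimination at a singular point, second case.
-/

open Matrix

namespace Pool.Agent.MP_1209e6_cy

variable {m : ℕ}

/-- isolating one term of a sum -/
private theorem vsb_iso {ι : Type*} [Fintype ι] [DecidableEq ι] (L : Subfield ℂ) (f : ι → ℂ) (i : ι)
    (h : ∑ j, f j ∈ L) (h' : ∀ j, j ≠ i → f j ∈ L) : f i ∈ L := by
  have h1 := Finset.add_sum_erase Finset.univ f (Finset.mem_univ i)
  have h2 : f i = ∑ j, f j - ∑ j ∈ Finset.univ.erase i, f j := by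
    rw [← h1]
    ring
  rw [h2]
  exact sub_mem h (sum_mem fun j hj => h' j (Finset.ne_of_mem_erase hj))

/-- the coefficients which are eliminated -/
private def vsbT (i₁ : Fin m) (i₀ j₀ : Fin (m + 2)) : Finset (Ix m) :=
  (((Finset.univ : Finset (Fin m)).erase i₁).image fun i => (Sum.inl (i, i₀, j₀) : Ix m)) ∪
    (((Finset.univ : Finset (Fin (m + 2))).image fun j => (Sum.inl (i₁, j, j₀) : Ix m)) ∪
    (((Finset.univ : Finset (Fin (m + 2))).erase j₀).image
      fun l => (Sum.inl (i₁, i₀, l) : Ix m)))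

private theorem vsbT_card (i₁ : Fin m) (i₀ j₀ : Fin (m + 2)) :
    (vsbT i₁ i₀ j₀).card = 3 * m + 2 := by
  have hm : 0 < m := lt_of_le_of_lt (Nat.zero_le _) i₁.isLt
  unfold vsbT
  rw [Finset.card_union_of_disjoint, Finset.card_union_of_disjoint, Finset.card_image_of_injective,
    Finset.card_image_of_injective, Finset.card_image_of_injective, Finset.card_erase_of_mem,
    Finset.card_erase_of_mem, Finset.card_univ, Finset.card_univ, Fintype.card_fin, Fintype.card_fin]
  · omega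
  · exact Finset.mem_univ _
  · exact Finset.mem_univ _
  · intro l l' h
    simpa using h
  · intro l l' h
    simpa using h
  · intro l l' h
    simpa using h
  · rw [Finset.disjoint_left]
    intro t ht ht'
    obtain ⟨j, _, rfl⟩ := Finset.mem_image.mp ht
    obtain ⟨l, hl, h⟩ := Finset.mem_image.mp ht'
    have h1 : i₀ = j ∧ l = j₀ := by simpa using h
    exact Finset.ne_of_mem_erase hl h1.2
  · rw [Finset.disjoint_left]
    intro t ht ht'
    obtain ⟨i, hi, rfl⟩ := Finset.mem_image.mp ht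
    rcases Finset.mem_union.mp ht' with ht' | ht'
    · obtain ⟨l, hl, h⟩ := Finset.mem_image.mp ht'
      have h1 : i₁ = i ∧ l = i₀ := by simpa using h
      exact Finset.ne_of_mem_erase hi h1.1.symm
    · obtain ⟨l, hl, h⟩ := Finset.mem_image.mp ht'
      have h1 : i₁ = i ∧ l = j₀ := by simpa using h
      exact Finset.ne_of_mem_erase hi h1.1.symm

private theorem mem_vsbT {i₁ : Fin m} {i₀ j₀ : Fin (m + 2)} {i : Fin m} {j l : Fin (m + 2)}
    (h : (Sum.inl (i, j, l) : Ix m) ∈ vsbT i₁ i₀ j₀) :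
    (i ≠ i₁ ∧ j = i₀ ∧ l = j₀) ∨ (i = i₁ ∧ l = j₀) ∨ (i = i₁ ∧ j = i₀) := by
  unfold vsbT at h
  rcases Finset.mem_union.mp h with h | h
  · obtain ⟨i', hi', h'⟩ := Finset.mem_image.mp h
    have h1 : i' = i ∧ i₀ = j ∧ j₀ = l := by simpa using h'
    exact Or.inl ⟨h1.1 ▸ Finset.ne_of_mem_erase hi', h1.2.1.symm, h1.2.2.symm⟩
  · rcases Finset.mem_union.mp h with h | h
    · obtain ⟨j', _, h'⟩ := Finset.mem_image.mp h
      have h1 : i₁ = i ∧ j' = j ∧ j₀ = l := by simpa using h'
      exact Or.inr (Or.inl ⟨h1.1.symm, h1.2.2.symm⟩)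
    · obtain ⟨l', _, h'⟩ := Finset.mem_image.mp h
      have h1 : i₁ = i ∧ i₀ = j ∧ l' = l := by simpa using h'
      exact Or.inr (Or.inr ⟨h1.1.symm, h1.2.1.symm⟩)

private theorem A_single_left (D : Dat m ℂ) (i : Fin m) (j : Fin (m + 2)) (y : Vec m ℂ) :
    D.A i (Pi.single j 1) y = ∑ l, D.a i j l * y l := by
  unfold Dat.A
  rw [Finset.sum_eq_single j]
  · refine Finset.sum_congr rfl fun l _ => ?_
    rw [Pi.single_eq_same, mul_one]
  · intro j' _ hj'
    refine Finset.sum_eq_zero fun l _ => ?_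
    rw [Pi.single_eq_of_ne hj', mul_zero, zero_mul]
  · intro h
    exact absurd (Finset.mem_univ _) h

private theorem A_single_right (D : Dat m ℂ) (i : Fin m) (l : Fin (m + 2)) (x : Vec m ℂ) :
    D.A i x (Pi.single l 1) = ∑ j, D.a i j l * x j := by
  unfold Dat.A
  refine Finset.sum_congr rfl fun j _ => ?_
  rw [Finset.sum_eq_single l]
  · rw [Pi.single_eq_same, mul_one]
  · intro l' _ hl'
    rw [Pi.single_eq_of_ne hl', mul_zero]
  · intro h
    exact absurd (Finset.mem_univ _) h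

/-- PIECE [VSB].  Let `(x, y)` be a point of `X`, `x_{i₀} = y_{j₀} = 1`, where the differentials of the bilinear forms
satisfy a linear relation with coefficients `lam`, `lam i₁ = 1`.  Then `3 m + 2` coefficients are rational functions of the
others and of `x, y` and `lam`.

Proof.  `T` consists of the `inl (i, i₀, j₀)`, `i ≠ i₁` (`m - 1` elements), the `inl (i₁, j, j₀)`, `j ∈ Fin (m + 2)` (`m + 2` elements)
and the `inl (i₁, i₀, l)`, `l ≠ j₀` (`m + 1` elements).  Let `L` be a subfield as in the statement.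
For `i ≠ i₁`, `0 = A_i(x, y)` gives `a_{i i₀ j₀} ∈ L`, so all `a_ijl`, `i ≠ i₁`, are in `L`.
For `j ≠ i₀`: `h1` with `ξ = e_j` gives `A_{i₁}(e_j, y) = ∑_l a_{i₁ j l} y_l ∈ L`, where only `l = j₀` is in `T`: `a_{i₁ j j₀} ∈ L`.
For `l ≠ j₀`: `h2` with `η = e_l` gives `A_{i₁}(x, e_l) = ∑_j a_{i₁ j l} x_j ∈ L`, where only `j = i₀` is in `T`: `a_{i₁ i₀ l} ∈ L`.
Finally `h1` with `ξ = e_{i₀}`: `∑_l a_{i₁ i₀ l} y_l ∈ L` gives `a_{i₁ i₀ j₀} ∈ L`. -/
theorem elimD {c : Ix m → ℂ} {x y : Vec m ℂ} {i₀ j₀ : Fin (m + 2)} (hx : x i₀ = 1) (hy : y j₀ = 1)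
    (hin : (datOf c).In x y) (lam : Fin m → ℂ) {i₁ : Fin m} (hl : lam i₁ = 1)
    (h1 : ∀ ξ, ∑ i, lam i * (datOf c).A i ξ y = 0)
    (h2 : ∀ η, ∑ i, lam i * (datOf c).A i x η = 0) :
    ∃ T : Finset (Ix m), T.card = 3 * m + 2 ∧ ∀ L : Subfield ℂ, (∀ t, t ∉ T → c t ∈ L) →
      (∀ j, x j ∈ L) → (∀ l, y l ∈ L) → (∀ i, lam i ∈ L) → ∀ t ∈ T, c t ∈ L := by
  refine ⟨vsbT i₁ i₀ j₀, vsbT_card i₁ i₀ j₀, ?_⟩
  intro L hc hxL hyL hlL
  -- the coefficients which are not eliminated
  have hfree : ∀ (i : Fin m) (j l : Fin (m + 2)), ¬ ((i ≠ i₁ ∧ j = i₀ ∧ l = j₀) ∨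
      (i = i₁ ∧ l = j₀) ∨ (i = i₁ ∧ j = i₀)) → (datOf c).a i j l ∈ L := by
    intro i j l h
    rw [datOf_a]
    exact hc _ fun h' => h (mem_vsbT h')
  -- the forms different from `i₁`
  have hA : ∀ i, i ≠ i₁ → ∀ j l, (datOf c).a i j l ∈ L := by
    intro i hi j l
    by_cases hjl : j = i₀ ∧ l = j₀
    · obtain ⟨rfl, rfl⟩ := hjl
      have h := vsb_iso L (fun t : Fin (m + 2) × Fin (m + 2) =>
        (datOf c).a i t.1 t.2 * x t.1 * y t.2) (j, l) ?_ ?_
      · simpa [hx, hy] using h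
      · rw [Fintype.sum_prod_type]
        have h0 : ∑ j, ∑ l, (datOf c).a i j l * x j * y l = 0 := hin.1 i
        rw [h0]
        exact L.zero_mem
      · rintro ⟨j', l'⟩ hne
        refine mul_mem (mul_mem (hfree i j' l' ?_) (hxL _)) (hyL _)
        rintro (h | h | h)
        · exact hne (Prod.ext h.2.1 h.2.2)
        · exact hi h.1
        · exact hi h.1
    · refine hfree i j l ?_
      rintro (h | h | h)
      · exact hjl h.2
      · exact hi h.1
      · exact hi h.1
  -- the linear forms at the point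
  have hY : ∀ j, ∑ l, (datOf c).a i₁ j l * y l ∈ L := by
    intro j
    have h := vsb_iso L (fun i => lam i * ∑ l, (datOf c).a i j l * y l) i₁ ?_ ?_
    · simpa [hl] using h
    · have h0 := h1 (Pi.single j 1)
      simp only [A_single_left] at h0
      rw [h0]
      exact L.zero_mem
    · intro i hi
      exact mul_mem (hlL i) (sum_mem fun l _ => mul_mem (hA i hi j l) (hyL l))
  have hX : ∀ l, ∑ j, (datOf c).a i₁ j l * x j ∈ L := by
    intro l
    have h := vsb_iso L (fun i => lam i * ∑ j, (datOf c).a i j l * x j) i₁ ?_ ?_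
    · simpa [hl] using h
    · have h0 := h2 (Pi.single l 1)
      simp only [A_single_right] at h0
      rw [h0]
      exact L.zero_mem
    · intro i hi
      exact mul_mem (hlL i) (sum_mem fun j _ => mul_mem (hA i hi j l) (hxL j))
  have s2 : ∀ j, j ≠ i₀ → (datOf c).a i₁ j j₀ ∈ L := by
    intro j hj
    have h := vsb_iso L (fun l => (datOf c).a i₁ j l * y l) j₀ (hY j) ?_
    · simpa [hy] using h
    · intro l hl'
      refine mul_mem (hfree i₁ j l ?_) (hyL l)
      rintro (h | h | h)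
      · exact h.1 rfl
      · exact hl' h.2
      · exact hj h.2
  have s3 : ∀ l, l ≠ j₀ → (datOf c).a i₁ i₀ l ∈ L := by
    intro l hl'
    have h := vsb_iso L (fun j => (datOf c).a i₁ j l * x j) i₀ (hX l) ?_
    · simpa [hx] using h
    · intro j hj
      refine mul_mem (hfree i₁ j l ?_) (hxL j)
      rintro (h | h | h)
      · exact h.1 rfl
      · exact hl' h.2
      · exact hj h.2
  have s4 : (datOf c).a i₁ i₀ j₀ ∈ L := by
    have h := vsb_iso L (fun l => (datOf c).a i₁ i₀ l * y l) j₀ (hY i₀) ?_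
    · simpa [hy] using h
    · intro l hl'
      exact mul_mem (s3 l hl') (hyL l)
  have hall : ∀ j l, (datOf c).a i₁ j l ∈ L := by
    intro j l
    by_cases hj : j = i₀
    · by_cases hl' : l = j₀
      · rw [hj, hl']
        exact s4
      · rw [hj]
        exact s3 l hl'
    · by_cases hl' : l = j₀
      · rw [hl']
        exact s2 j hj
      · refine hfree i₁ j l ?_
        rintro (h | h | h)
        · exact h.1 rfl
        · exact hl' h.2
        · exact hj h.2
  intro t _
  rcases t with ⟨i, j, l⟩ | t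
  · by_cases hi : i = i₁
    · subst hi
      exact hall j l
    · exact hA i hi j l
  · exact hc _ fun h => by
      unfold vsbT at h
      rcases Finset.mem_union.mp h with h | h
      · obtain ⟨_, _, h'⟩ := Finset.mem_image.mp h
        exact absurd h' (by simp)
      · rcases Finset.mem_union.mp h with h | h
        · obtain ⟨_, _, h'⟩ := Finset.mem_image.mp h
          exact absurd h' (by simp)
        · obtain ⟨_, _, h'⟩ := Finset.mem_image.mp h
          exact absurd h' (by simp)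

end Pool.Agent.MP_1209e6_cy
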