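import Pool.Agent.Lib_MP_1209e6_cy.VCnt
import Pool.Agent.Lib_MP_1209e6_cy.VSmoA
import Pool.Agent.Lib_MP_1209e6_cy.VSmoB

/-!
# A variety with generic coefficients is smooth
-/

open Matrix

namespace Pool.Agent.MP_1209e6_cy

variable {m : ℕ}

/-- the differentials of the equations at the point `(x, y)`, in the direction `(ξ, η)` -/
def Dat.dEq (D : Dat m ℂ) (x y : Vec m ℂ) (p : Vec m ℂ × Vec m ℂ) : (Fin m → ℂ) × ℂ :=
  (fun i => D.A i p.1 y + D.A i x p.2, 2 * D.B x p.1 y y + 2 * D.B x x y p.2)

/-- `X` is a smooth complete intersection: the differentials of the `m + 1` equations are linearly independent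
at each point (the derivative of the equations is surjective) -/
def Dat.Smooth (D : Dat m ℂ) : Prop :=
  ∀ x y : Vec m ℂ, x ≠ 0 → y ≠ 0 → D.In x y → Function.Surjective (D.dEq x y)

/-- no relation between the differentials, normalised form -/
theorem no_lin_rel {c : Ix m → ℂ} (hc : AlgebraicIndependent ℚ c) {x y : Vec m ℂ}
    {i₀ j₀ : Fin (m + 2)} (hx : x i₀ = 1) (hy : y j₀ = 1) (hin : (datOf c).In x y)
    (lam : Fin m → ℂ) (κ : ℂ)
    (h1 : ∀ ξ, ∑ i, lam i * (datOf c).A i ξ y + κ * (datOf c).B x ξ y y = 0)
    (h2 : ∀ η, ∑ i, lam i * (datOf c).A i x η + κ * (datOf c).B x x y η = 0) :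
    (∀ i, lam i = 0) ∧ κ = 0 := by
  have hce : AlgebraicIndependent ℚ (Sum.elim c (fun e : Empty => e.elim)) := by
    have : (Sum.elim c (fun e : Empty => (e.elim : ℂ))) = c ∘ (Equiv.sumEmpty (Ix m) Empty) := by
      funext t
      rcases t with t | t
      · rfl
      · exact t.elim
    rw [this]
    exact hc.comp _ (Equiv.injective _)
  have hκ : κ = 0 := by
    by_contra hκ
    obtain ⟨T, hT, hL⟩ := elimC hx hy hin (fun i => - (lam i / κ)) (by
      intro ξ
      have h := h1 ξ
      have e : ∑ i, -(lam i / κ) * (datOf c).A i ξ y =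
          -(∑ i, lam i * (datOf c).A i ξ y) / κ := by
        rw [neg_div, Finset.sum_div, ← Finset.sum_neg_distrib]
        exact Finset.sum_congr rfl fun i _ => by ring
      rw [e, eq_div_iff hκ]
      linear_combination h) (by
      intro η
      have h := h2 η
      have e : ∑ i, -(lam i / κ) * (datOf c).A i x η =
          -(∑ i, lam i * (datOf c).A i x η) / κ := by
        rw [neg_div, Finset.sum_div, ← Finset.sum_neg_distrib]
        exact Finset.sum_congr rfl fun i _ => by ring
      rw [e, eq_div_iff hκ]
      linear_combination h)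
    have key := card_le_of_indep c
      (Sum.elim (Sum.elim (fun j : {j : Fin (m + 2) // j ≠ i₀} => x j)
        (fun j : {j : Fin (m + 2) // j ≠ j₀} => y j)) (fun i : Fin m => - (lam i / κ)))
      (fun e : Empty => e.elim) T hce (by
        intro L h1 h2
        have hxL : ∀ j, x j ∈ L := by
          intro j
          by_cases hj : j = i₀
          · rw [hj, hx]
            exact L.one_mem
          · exact h2 (Sum.inl (Sum.inl ⟨j, hj⟩))
        have hyL : ∀ j, y j ∈ L := by
          intro j
          by_cases hj : j = j₀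
          · rw [hj, hy]
            exact L.one_mem
          · exact h2 (Sum.inl (Sum.inr ⟨j, hj⟩))
        exact ⟨hL L h1 hxL hyL (fun i => h2 (Sum.inr i)), fun e => e.elim⟩)
    rw [Fintype.card_sum, Fintype.card_sum, Fintype.card_subtype_compl,
      Fintype.card_subtype_compl] at key
    simp only [Fintype.card_fin, Fintype.card_unique, Fintype.card_empty] at key
    omega
  refine ⟨?_, hκ⟩
  by_contra hne
  push Not at hne
  obtain ⟨i₁, hi₁⟩ := hne
  have hm : 1 ≤ m := by
    have := i₁.2
    omega
  obtain ⟨T, hT, hL⟩ := elimD hx hy hin (fun i => lam i / lam i₁) (i₁ := i₁) (div_self hi₁) (by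
    intro ξ
    have h := h1 ξ
    have e : ∑ i, lam i / lam i₁ * (datOf c).A i ξ y =
        (∑ i, lam i * (datOf c).A i ξ y) / lam i₁ := by
      rw [Finset.sum_div]
      exact Finset.sum_congr rfl fun i _ => by ring
    rw [e, div_eq_zero_iff]
    left
    rw [hκ] at h
    linear_combination h) (by
    intro η
    have h := h2 η
    have e : ∑ i, lam i / lam i₁ * (datOf c).A i x η =
        (∑ i, lam i * (datOf c).A i x η) / lam i₁ := by
      rw [Finset.sum_div]
      exact Finset.sum_congr rfl fun i _ => by ring
    rw [e, div_eq_zero_iff]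
    left
    rw [hκ] at h
    linear_combination h)
  have key := card_le_of_indep c
    (Sum.elim (Sum.elim (fun j : {j : Fin (m + 2) // j ≠ i₀} => x j)
      (fun j : {j : Fin (m + 2) // j ≠ j₀} => y j)) (fun i : {i : Fin m // i ≠ i₁} => lam i / lam i₁))
    (fun e : Empty => e.elim) T hce (by
      intro L h1 h2
      have hxL : ∀ j, x j ∈ L := by
        intro j
        by_cases hj : j = i₀
        · rw [hj, hx]
          exact L.one_mem
        · exact h2 (Sum.inl (Sum.inl ⟨j, hj⟩))
      have hyL : ∀ j, y j ∈ L := by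
        intro j
        by_cases hj : j = j₀
        · rw [hj, hy]
          exact L.one_mem
        · exact h2 (Sum.inl (Sum.inr ⟨j, hj⟩))
      have hlL : ∀ i, lam i / lam i₁ ∈ L := by
        intro i
        by_cases hi : i = i₁
        · rw [hi, div_self hi₁]
          exact L.one_mem
        · exact h2 (Sum.inr ⟨i, hi⟩)
      exact ⟨hL L h1 hxL hyL hlL, fun e => e.elim⟩)
  rw [Fintype.card_sum, Fintype.card_sum, Fintype.card_subtype_compl,
    Fintype.card_subtype_compl, Fintype.card_subtype_compl] at key
  simp only [Fintype.card_fin, Fintype.card_unique, Fintype.card_empty] at key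
  omega

end Pool.Agent.MP_1209e6_cy
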