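import Pool.Agent.Lib_MP_1209e6_cy.VBas
import Pool.Agent.Lib_MP_1209e6_cy.Generic

/-!
PIECE [VQA] (MP_1209e6_ag).  The discriminant on a line.
-/

open Matrix MvPolynomial

namespace Pool.Agent.MP_1209e6_cy

variable {m : ℕ}

/-- the line `(1, t, 0, ..., 0)` -/
def xt (m : ℕ) (t : ℂ) : Vec m ℂ := Pi.single 0 1 + t • Pi.single 1 1

/-- the discriminant of the quadratic form restricted to the span of `u_1, u_2`, on the line `xt` -/
noncomputable def phi (c : Ix m → ℂ) (t : ℂ) : ℂ :=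
  (datOf c).B (xt m t) (xt m t) (pv ((datOf c).swap.row (xt m t)) (Pi.single 0 1))
      (pv ((datOf c).swap.row (xt m t)) (Pi.single (Fin.last (m + 1)) 1)) ^ 2 -
    (datOf c).B (xt m t) (xt m t) (pv ((datOf c).swap.row (xt m t)) (Pi.single 0 1))
        (pv ((datOf c).swap.row (xt m t)) (Pi.single 0 1)) *
      (datOf c).B (xt m t) (xt m t)
        (pv ((datOf c).swap.row (xt m t)) (Pi.single (Fin.last (m + 1)) 1))
        (pv ((datOf c).swap.row (xt m t)) (Pi.single (Fin.last (m + 1)) 1))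

theorem vqa_contDiff_pv {E : Type*} [NormedAddCommGroup E] [NormedSpace ℂ E] {n : WithTop ℕ∞}
    {r : E → Fin m → Vec m ℂ} (hr : ∀ i l, ContDiff ℂ n (fun e => r e i l)) (w : Vec m ℂ) :
    ContDiff ℂ n (fun e => pv (r e) w) := by
  rw [contDiff_pi]
  intro j
  have he : (fun e => pv (r e) w j) = fun e =>
      ∑ σ : Equiv.Perm (Fin (m + 2)), (Equiv.Perm.sign σ : ℂ) *
        ∏ i, (Matrix.of (vecCons w (vecCons (Pi.single j 1) (r e)) :
          Fin (m + 2) → Vec m ℂ)) (σ i) i := by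
    funext y
    unfold pv plu
    rw [Matrix.det_apply']
  rw [he]
  refine ContDiff.sum fun σ _ => ?_
  refine contDiff_const.mul ?_
  refine contDiff_prod fun i _ => ?_
  generalize σ i = q
  refine Fin.cases ?_ (fun q => ?_) q
  · exact contDiff_const
  · refine Fin.cases ?_ (fun q => ?_) q
    · exact contDiff_const
    · exact hr q i

theorem vqa_contDiff_coef {n : WithTop ℕ∞} (t : Ix m) :
    ContDiff ℂ n (fun p : (Ix m → ℂ) × ℂ => p.1 t) :=
  (contDiff_apply ℂ ℂ t).comp contDiff_fst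

theorem vqa_contDiff_B {n : WithTop ℕ∞} {x x' y y' : (Ix m → ℂ) × ℂ → Vec m ℂ}
    (hx : ContDiff ℂ n x) (hx' : ContDiff ℂ n x') (hy : ContDiff ℂ n y) (hy' : ContDiff ℂ n y') :
    ContDiff ℂ n (fun e : (Ix m → ℂ) × ℂ => (datOf e.1).B (x e) (x' e) (y e) (y' e)) := by
  unfold Dat.B
  refine ContDiff.sum fun j _ => ContDiff.sum fun k _ => ContDiff.sum fun l _ =>
    ContDiff.sum fun p _ => ?_
  exact ((((vqa_contDiff_coef (Sum.inr (s(j, k), s(l, p)))).mul (contDiff_pi.1 hx j)).mul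
    (contDiff_pi.1 hx' k)).mul (contDiff_pi.1 hy l)).mul (contDiff_pi.1 hy' p)

theorem vqa_contDiff_xt {n : WithTop ℕ∞} :
    ContDiff ℂ n (fun e : (Ix m → ℂ) × ℂ => xt m e.2) := by
  unfold xt
  exact contDiff_const.add (contDiff_snd.smul contDiff_const)

theorem vqa_contDiff_row {n : WithTop ℕ∞} (i : Fin m) (l : Fin (m + 2)) :
    ContDiff ℂ n (fun e : (Ix m → ℂ) × ℂ => (datOf e.1).swap.row (xt m e.2) i l) := by
  unfold Dat.row
  refine ContDiff.sum fun p _ => ?_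
  exact (vqa_contDiff_coef (Sum.inl (i, p, l))).mul (contDiff_pi.1 vqa_contDiff_xt p)

/-- PIECE [VQA].  `phi` is a polynomial in `(c, t)`.

Proof.  As in `contDiff_pv_row`, `contDiff_A`, `contDiff_B` (`Generic.lean`), but the coefficients of the forms also vary. -/
theorem contDiff_phi : ContDiff ℂ 1 (fun p : (Ix m → ℂ) × ℂ => phi p.1 p.2) := by
  have hx : ContDiff ℂ 1 (fun e : (Ix m → ℂ) × ℂ => xt m e.2) := vqa_contDiff_xt
  have h0 : ContDiff ℂ 1 (fun e : (Ix m → ℂ) × ℂ =>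
      pv ((datOf e.1).swap.row (xt m e.2)) (Pi.single 0 1)) :=
    vqa_contDiff_pv (fun i l => vqa_contDiff_row i l) _
  have h1 : ContDiff ℂ 1 (fun e : (Ix m → ℂ) × ℂ =>
      pv ((datOf e.1).swap.row (xt m e.2)) (Pi.single (Fin.last (m + 1)) 1)) :=
    vqa_contDiff_pv (fun i l => vqa_contDiff_row i l) _
  unfold phi
  exact ((vqa_contDiff_B hx hx h0 h1).pow 2).sub
    ((vqa_contDiff_B hx hx h0 h0).mul (vqa_contDiff_B hx hx h1 h1))

end Pool.Agent.MP_1209e6_cy
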