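import Pool.Agent.Lib_MP_1209e6_cy.VSqD
import Pool.Agent.Lib_MP_1209e6_cy.VOpen
import Pool.Agent.Lib_MP_1209e6_cy.IrrA

/-!
PIECE [VQB] (MP_1209e6_ag).  Near the special member the discriminant is not a square.
-/

open Matrix MvPolynomial Filter Topology

namespace Pool.Agent.MP_1209e6_cy

variable {m : ℕ}

/-- the discriminant is a square -/
def IsSq (c : Ix m → ℂ) : Prop := ∃ R : MvPolynomial (Fin (m + 2)) ℂ, R ^ 2 =
  gP (datOf c) (Pi.single 0 1) (Pi.single (Fin.last (m + 1)) 1) ^ 2 -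
    gP (datOf c) (Pi.single 0 1) (Pi.single 0 1) *
      gP (datOf c) (Pi.single (Fin.last (m + 1)) 1) (Pi.single (Fin.last (m + 1)) 1)

private theorem vqb_poly (R : MvPolynomial (Fin (m + 2)) ℂ) :
    ∃ q : Polynomial ℂ, ∀ s : ℂ, aeval (xt m s) R = q.eval s := by
  refine ⟨aeval (fun i => Polynomial.C ((Pi.single 0 1 : Vec m ℂ) i) +
    Polynomial.X * Polynomial.C ((Pi.single 1 1 : Vec m ℂ) i)) R, fun s => ?_⟩
  have h := MvPolynomial.comp_aeval_apply (R := ℂ)
    (fun i => Polynomial.C ((Pi.single 0 1 : Vec m ℂ) i) +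
    Polynomial.X * Polynomial.C ((Pi.single 1 1 : Vec m ℂ) i))
    (Polynomial.aeval s : Polynomial ℂ →ₐ[ℂ] ℂ) R
  rw [Polynomial.coe_aeval_eq_eval] at h
  rw [h]
  congr 2
  funext i
  simp only [xt, Pi.add_apply, Pi.smul_apply, smul_eq_mul, Polynomial.eval_add, Polynomial.eval_mul,
    Polynomial.eval_C, Polynomial.eval_X]

private theorem vqb_square {F : ℂ → ℂ} {q : Polynomial ℂ} (hF : ∀ s, F s = q.eval s ^ 2) {t d : ℂ}
    (h0 : F t = 0) (hd : HasDerivAt F d t) : d = 0 := by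
  have hq : q.eval t = 0 := by
    have := hF t
    rw [h0] at this
    exact pow_eq_zero_iff (two_ne_zero) |>.1 this.symm
  have h1 := (q.hasDerivAt t).fun_pow 2
  have h2 : F = fun s => q.eval s ^ 2 := funext hF
  rw [h2] at hd
  have h3 := hd.unique h1
  rw [h3, hq]
  simp

/-- PIECE [VQB].

Proof.  `F(c, t) = phi c t` is `C^1` (`contDiff_phi`), `F(c0, t) = t g(t)` (`phi_c0`), so the derivative of `F` at `(c0, 0)` in
the direction `(0, 1)` is `g(0) ≠ 0`.  By continuity of the derivative there are neighbourhoods `U` of `c0` and `N` of `0` such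
that `fderiv F (c, t) (0, 1) ≠ 0` for `c ∈ U`, `t ∈ N`.  By `eventually_exists_zero`, for `c` near `c0` there is `t ∈ N` with
`F(c, t) = 0`.  If `R^2` is the discriminant then `F(c, s) = (aeval (xt m s) R)^2` for all `s` (`aeval_gP`), so
`aeval (xt m t) R = 0` and the derivative of `s ↦ F(c, s)` at `t` is `2 R(xt t) (..) = 0`, a contradiction. -/
theorem not_isSq_near (hm : 2 ≤ m) : ∀ᶠ c in 𝓝 (c0 m), ¬ IsSq c := by
  obtain ⟨g, hgc, hg0, hphi⟩ := phi_c0 (m := m) hm
  have hF : ContDiff ℂ 1 (fun p : (Ix m → ℂ) × ℂ => phi p.1 p.2) := contDiff_phi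
  set F : (Ix m → ℂ) × ℂ → ℂ := fun p => phi p.1 p.2 with hFdef
  have hdiff : Differentiable ℂ F := hF.differentiable (by norm_num)
  have hslice : ∀ (c : Ix m → ℂ) (t : ℂ),
      HasDerivAt (fun s => F (c, s)) (fderiv ℂ F (c, t) (0, 1)) t := by
    intro c t
    have h1 : HasFDerivAt F (fderiv ℂ F (c, t)) (c, t) := (hdiff (c, t)).hasFDerivAt
    have h2 : HasDerivAt (fun s : ℂ => (c, s)) ((0 : Ix m → ℂ), (1 : ℂ)) t :=
      (hasDerivAt_const t c).prodMk (hasDerivAt_id t)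
    exact h1.comp_hasDerivAt t h2
  have h00 : F (c0 m, 0) = 0 := by
    show phi (c0 m) 0 = 0
    rw [hphi]
    simp
  have hg : fderiv ℂ F (c0 m, 0) (0, 1) = g 0 := by
    have h1 := hslice (c0 m) 0
    have h2 : HasDerivAt (fun s => F (c0 m, s)) (g 0) 0 := by
      have h3 : (fun s => F (c0 m, s)) = fun s => s * g s := by
        funext s
        exact hphi s
      rw [h3, hasDerivAt_iff_tendsto_slope]
      have h4 : Tendsto g (𝓝[≠] 0) (𝓝 (g 0)) := hgc.continuousAt.tendsto.mono_left inf_le_left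
      refine h4.congr' ?_
      filter_upwards [self_mem_nhdsWithin] with s hs
      have hs' : s ≠ 0 := hs
      rw [slope_def_field]
      field_simp
      ring
    exact h1.unique h2
  have hcont : Continuous (fun p => fderiv ℂ F p (0, 1)) :=
    (hF.continuous_fderiv (by norm_num)).clm_apply continuous_const
  have hev : ∀ᶠ p in 𝓝 ((c0 m, 0) : (Ix m → ℂ) × ℂ), fderiv ℂ F p (0, 1) ≠ 0 := by
    refine hcont.continuousAt.eventually_ne ?_
    rw [hg]
    exact hg0
  rw [nhds_prod_eq] at hev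
  obtain ⟨U, hU, N, hN, hUN⟩ := Filter.mem_prod_iff.1 hev
  have hs : ∀ w : ℂ, ∃ ζ : ℂ, fderiv ℂ F (c0 m, 0) (0, ζ) = w := by
    intro w
    refine ⟨w / g 0, ?_⟩
    have h1 : ((0 : Ix m → ℂ), w / g 0) = (w / g 0) • ((0 : Ix m → ℂ), (1 : ℂ)) := by
      simp
    rw [h1, map_smul, hg, smul_eq_mul]
    field_simp
  have hz := eventually_exists_zero hF h00 hs hN
  filter_upwards [hU, hz] with c hc ht hsq
  obtain ⟨t, htN, htF⟩ := ht
  obtain ⟨R, hR⟩ := hsq
  obtain ⟨q, hq⟩ := vqb_poly R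
  have hne : fderiv ℂ F (c, t) (0, 1) ≠ 0 := hUN (Set.mk_mem_prod hc htN)
  refine hne (vqb_square (F := fun s => F (c, s)) (q := q) ?_ htF (hslice c t))
  intro s
  have h1 := congrArg (aeval (xt m s)) hR
  rw [map_pow, map_sub, map_pow, map_mul, aeval_gP, aeval_gP, aeval_gP, hq] at h1
  exact h1.symm

end Pool.Agent.MP_1209e6_cy
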