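import Pool.Agent.Lib_MP_1209e6_cy.VSqA

/-!
PIECE [VQD] (MP_1209e6_ag).  The discriminant of the special member.
-/

open Matrix MvPolynomial

namespace Pool.Agent.MP_1209e6_cy

variable {m : ℕ}

private theorem vqd_cover (j : Fin (m + 2)) :
    j = 0 ∨ j = Fin.last (m + 1) ∨ ∃ i : Fin m, j = sx i := by
  refine Fin.lastCases ?_ (fun j => ?_) j
  · exact Or.inr (Or.inl rfl)
  · refine Fin.cases ?_ (fun i => ?_) j
    · exact Or.inl rfl
    · exact Or.inr (Or.inr ⟨i, rfl⟩)

private theorem vqd_A (i : Fin m) (x y : Vec m ℂ) :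
    (datOf (c0 m)).swap.row x i ⬝ᵥ y = x (sx i) * y 0 - x 0 * y (sx i) := by
  rw [← Dat.A_eq_dot, Dat.swap_A, c0_A]

private theorem vqd_x0 (m : ℕ) (t : ℂ) : xt m t 0 = 1 := by
  simp [xt]

/-- the determinant which is needed -/
private noncomputable def vqdα (m : ℕ) (t : ℂ) : ℂ :=
  plu ((datOf (c0 m)).swap.row (xt m t)) (Pi.single (Fin.last (m + 1)) 1) (Pi.single 0 1)

private theorem vqdα_ne (m : ℕ) (t : ℂ) : vqdα m t ≠ 0 := by
  intro h
  unfold vqdα plu at h
  obtain ⟨v, hv, hMv⟩ := Matrix.exists_mulVec_eq_zero_iff.2 h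
  apply hv
  have h0 := congrFun hMv 0
  have h1 := congrFun hMv 1
  have hs : ∀ i : Fin m, (datOf (c0 m)).swap.row (xt m t) i ⬝ᵥ v = 0 := fun i => by
    have h2 := congrFun hMv i.succ.succ
    simpa [Matrix.mulVec] using h2
  have e0 : v (Fin.last (m + 1)) = 0 := by
    simpa [Matrix.mulVec] using h0
  have e1 : v 0 = 0 := by
    simpa [Matrix.mulVec] using h1
  funext j
  rcases vqd_cover j with rfl | rfl | ⟨i, rfl⟩
  · exact e1
  · exact e0
  · have h2 := hs i
    rw [vqd_A, e1, vqd_x0] at h2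
    simpa using h2

private theorem vqdα_cont (m : ℕ) : Continuous (vqdα m) := by
  unfold vqdα plu
  refine Continuous.matrix_det (continuous_matrix fun i j => ?_)
  refine Fin.cases ?_ (fun i => ?_) i
  · exact continuous_const
  · refine Fin.cases ?_ (fun i => ?_) i
    · exact continuous_const
    · show Continuous fun t : ℂ => (datOf (c0 m)).swap.row (xt m t) i j
      unfold Dat.row xt
      simp only [Pi.add_apply, Pi.smul_apply, smul_eq_mul]
      fun_prop

/-- PIECE [VQD].  For the special member the discriminant has a simple zero at `t = 0`.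

Proof.  `D = datOf (c0 m)`, `x = xt m t = (1, t, 0, ..., 0)`, `r = D.swap.row x`, `n = m + 1` (the last index).
`u_1 = pv r e_0`, `u_2 = pv r e_n`: `A_i(x, u_k) = 0` and `e_0 · u_1 = 0`, `e_n · u_2 = 0` (`dot_pv_self`).  By `c0_A`,
`A_i(x, y) = x_{i+1} y_0 - y_{i+1}`, so `A_i(x, y) = 0` for all `i` iff `y = (y_0, t y_0, 0, ..., 0, y_n)`.  Hence
`u_1 = β(t) e_n`, `u_2 = α(t) (1, t, 0, ..., 0)` with `β(t) = (u_1)_n = plu r e_0 e_n`, `α(t) = (u_2)_0 = plu r e_n e_0 = - β(t)`
(polynomials in `t`; continuous).  `B(x, x, y, y) = t y_0^2 - y_n^2` on the kernel (`c0_B`; `x_0 = 1, x_1 = t`, the other coordinates are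
`0`; note `2 ≠ 0, 1, n`), so `phi = 0 - (-β^2)(t α^2) = t β(t)^2 α(t)^2`.  `α(0) ≠ 0`: for `t = 0` the rows are `r_i = -e_{i+1}`
(`r_i l = A_i(x, e_l)`), so the matrix with rows `e_n, e_0, -e_1, ..., -e_m` is invertible (independent rows;
or `det` of a signed permutation matrix is not zero). -/
theorem phi_c0 (hm : 2 ≤ m) : ∃ g : ℂ → ℂ, Continuous g ∧ g 0 ≠ 0 ∧ ∀ t, phi (c0 m) t = t * g t := by
  refine ⟨fun t => vqdα m t ^ 4, (vqdα_cont m).pow 4, pow_ne_zero 4 (vqdα_ne m 0), fun t => ?_⟩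
  obtain ⟨k, rfl⟩ : ∃ k, m = k + 2 := ⟨m - 2, by omega⟩
  have x0 : xt (k + 2) t 0 = 1 := vqd_x0 (k + 2) t
  have x1 : xt (k + 2) t 1 = t := by
    simp [xt]
  have x2 : xt (k + 2) t 2 = 0 := by
    have h : (2 : Fin (k + 2 + 2)) ≠ 0 := by
      intro h
      have := congrArg Fin.val h
      simp at this
      rw [Nat.mod_eq_of_lt (by omega)] at this
      omega
    have h' : (2 : Fin (k + 2 + 2)) ≠ 1 := by
      intro h
      have := congrArg Fin.val h
      simp at this
      rw [Nat.mod_eq_of_lt (by omega)] at this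
      omega
    simp [xt, Pi.single_eq_of_ne h, Pi.single_eq_of_ne h']
  have hl1 : Fin.last (k + 2 + 1) ≠ 1 := by
    intro h
    have := congrArg Fin.val h
    simp at this
  have xl : xt (k + 2) t (Fin.last (k + 2 + 1)) = 0 := by
    simp [xt, Pi.single_eq_of_ne hl1]
  set r := (datOf (c0 (k + 2))).swap.row (xt (k + 2) t) with hr
  -- the first vector
  have u0 : pv r (Pi.single 0 1) 0 = 0 := by
    have h := dot_pv_self r (Pi.single 0 1)
    simpa using h
  have ul : pv r (Pi.single 0 1) (Fin.last (k + 2 + 1)) = - vqdα (k + 2) t := by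
    have h := dot_pv r (Pi.single 0 1) (Pi.single (Fin.last (k + 2 + 1)) 1)
    rw [single_one_dotProduct] at h
    rw [h, plu_antisymm]
    rfl
  -- the second vector
  have v0 : pv r (Pi.single (Fin.last (k + 2 + 1)) 1) 0 = vqdα (k + 2) t := by
    have h := dot_pv r (Pi.single (Fin.last (k + 2 + 1)) 1) (Pi.single 0 1)
    rw [single_one_dotProduct] at h
    exact h
  have vl : pv r (Pi.single (Fin.last (k + 2 + 1)) 1) (Fin.last (k + 2 + 1)) = 0 := by
    have h := dot_pv_self r (Pi.single (Fin.last (k + 2 + 1)) 1)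
    simpa using h
  unfold phi
  rw [← hr]
  simp only [c0_B (by omega : 2 ≤ k + 2), x0, x1, x2, xl, u0, ul, v0, vl]
  ring

end Pool.Agent.MP_1209e6_cy
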