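import Pool.Agent.Lib_MP_1209e6_cy.VZero
import Pool.Agent.Lib_MP_1209e6_cy.VHom
import Pool.Agent.Lib_MP_1209e6_cy.Thin
import Pool.Agent.Lib_MP_1209e6_cy.RelPrime

/-!
PIECE [VTH] (MP_1209e6_ag).  Closed sets of small transcendence degree are thin.
-/

open MvPolynomial

namespace Pool.Agent.MP_1209e6_cy

variable {m : ℕ}

/-- PIECE [VTH].  Let `V` be a space of forms of degree `d` over a countable field `F`.  If no common zero `y` of `V`
(normalised by `y_{l₀} = 1`) has `m` coordinates algebraically independent over `F` then the set of common zeros is thin.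

Proof.  `V` contains a nonzero form `P`: otherwise take `l₀ = 0`, `y_0 = 1` and the other coordinates independent
(`exists_algebraicIndependent`), and `J` a set of `m` of them.  Let `p` be an irreducible factor of `P`; it is a form
(`isHomogeneous_of_dvd`).  `V_p = {Q ∈ V : p ∣ Q}` is a proper subspace of `V`: otherwise a
generic zero of `p` (`exists_generic_zero`) would be a common zero of `V`.  `P` has finitely many irreducible factors up
to units; a vector space over an infinite field is not a finite union of proper subspaces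
(`Subspace.biUnion_ne_univ_of_top_notMem` or similar), so there is `Q ∈ V` not divisible by any of them.  `P, Q` are coprime, also over
`ℂ` (`isRelPrime_map`). -/
theorem thin_of_indep {F : IntermediateField ℚ ℂ} (hF : (F : Set ℂ).Countable)
    (V : Submodule F (MvPolynomial (Fin (m + 2)) F)) {d : ℕ} (hV : ∀ P ∈ V, P.IsHomogeneous d)
    (h : ∀ (y : Fin (m + 2) → ℂ) (l₀ : Fin (m + 2)), y l₀ = 1 → (∀ P ∈ V, aeval y P = 0) →
      ∀ J : Finset (Fin (m + 2)), J.card = m → ¬ AlgebraicIndependent F (fun j : J => y j)) :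
    Thin {y : Fin (m + 2) → ℂ | ∀ P ∈ V, aeval y P = 0} := by
  classical
  have hfac : Infinite F := inferInstance
  -- a nonzero form
  obtain ⟨P, hPV, hP0⟩ : ∃ P ∈ V, P ≠ 0 := by
    by_contra hcon
    push Not at hcon
    obtain ⟨z, -, hz⟩ := exists_algebraicIndependent F hF
      (Set.univ : Set (Fin (m + 1) → ℂ)) isOpen_univ ⟨0, trivial⟩
    let y : Fin (m + 2) → ℂ := Fin.cons 1 z
    let J : Finset (Fin (m + 2)) :=
      (Finset.univ : Finset (Fin m)).image (fun i => Fin.succ (Fin.succ i))
    have hJ : J.card = m := by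
      rw [Finset.card_image_of_injective _
        (fun a b hab => Fin.succ_injective _ (Fin.succ_injective _ hab)), Finset.card_fin]
    refine h y 0 rfl (fun Q hQ => by rw [hcon Q hQ, map_zero]) J hJ ?_
    have hne : ∀ j : J, ∃ i : Fin (m + 1), Fin.succ i = j.1 := by
      rintro ⟨j, hj⟩
      obtain ⟨i, _, rfl⟩ := Finset.mem_image.1 hj
      exact ⟨Fin.succ i, rfl⟩
    choose φ hφ using hne
    have hφi : Function.Injective φ := by
      intro a b hab
      apply Subtype.ext
      rw [← hφ a, ← hφ b, hab]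
    have h1 := hz.comp φ hφi
    have h2 : (fun j : J => y j) = z ∘ φ := by
      funext j
      show y j.1 = z (φ j)
      rw [← hφ j]
      rfl
    rw [h2]
    exact h1
  have hPh := hV P hPV
  -- the submodules of the multiples of the irreducible factors
  let W : MvPolynomial (Fin (m + 2)) F → Submodule F V := fun p =>
    ((Ideal.span {p}).restrictScalars F).comap V.subtype
  have hW : ∀ (p : MvPolynomial (Fin (m + 2)) F) (Q : V), Q ∈ W p ↔ p ∣ (Q : MvPolynomial _ F) := by
    intro p Q
    show (Q : MvPolynomial (Fin (m + 2)) F) ∈ Ideal.span {p} ↔ _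
    exact Ideal.mem_span_singleton
  have htop : ∀ p ∈ UniqueFactorizationMonoid.factors P, W p ≠ ⊤ := by
    intro p hp hWp
    have hpi := UniqueFactorizationMonoid.irreducible_of_factor p hp
    have hpd := UniqueFactorizationMonoid.dvd_of_mem_factors hp
    obtain ⟨e, he⟩ := isHomogeneous_of_dvd hPh hP0 hpd
    obtain ⟨y, l₀, hy, hy0, J, hJ, hJi⟩ := exists_generic_zero hF hpi he
    refine h y l₀ hy (fun Q hQ => ?_) J hJ hJi
    have h1 : (⟨Q, hQ⟩ : V) ∈ W p := by rw [hWp]; trivial
    obtain ⟨R, hR⟩ := (hW p ⟨Q, hQ⟩).1 h1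
    have hR' : Q = p * R := hR
    rw [hR', map_mul, hy0, zero_mul]
  let s : Finset (Submodule F V) :=
    ((UniqueFactorizationMonoid.factors P).toFinset).image W
  have hs : (⊤ : Submodule F V) ∉ s := by
    intro hmem
    obtain ⟨p, hp, hpW⟩ := Finset.mem_image.1 hmem
    exact htop p (Multiset.mem_toFinset.1 hp) hpW
  have hcov := Subspace.biUnion_ne_univ_of_top_notMem (k := F) (E := V) (s := s) hs
  obtain ⟨Q, hQ⟩ := (Set.ne_univ_iff_exists_notMem _).1 hcov
  have hQn : ∀ p ∈ UniqueFactorizationMonoid.factors P, ¬ p ∣ (Q : MvPolynomial _ F) := by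
    intro p hp hpQ
    apply hQ
    simp only [Set.mem_iUnion]
    exact ⟨W p, Finset.mem_image_of_mem _ (Multiset.mem_toFinset.2 hp), (hW p Q).2 hpQ⟩
  have hrel : IsRelPrime P (Q : MvPolynomial (Fin (m + 2)) F) := by
    intro e heP heQ
    by_contra hu
    have he0 : e ≠ 0 := by
      rintro rfl
      exact hP0 (zero_dvd_iff.1 heP)
    obtain ⟨q, hq, hqe⟩ := WfDvdMonoid.exists_irreducible_factor hu he0
    obtain ⟨p, hp, hpq⟩ := UniqueFactorizationMonoid.exists_mem_factors_of_dvd hP0 hq
      (hqe.trans heP)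
    exact hQn p hp (hpq.symm.dvd.trans (hqe.trans heQ))
  refine ⟨map (algebraMap F ℂ) P, map (algebraMap F ℂ) (Q : MvPolynomial (Fin (m + 2)) F),
    ⟨d, hPh.map _⟩, ⟨d, (hV _ Q.2).map _⟩, isRelPrime_map _ hrel, ?_⟩
  intro y hy
  rw [aeval_map_algebraMap, aeval_map_algebraMap]
  exact ⟨hy P hPV, hy _ Q.2⟩

end Pool.Agent.MP_1209e6_cy
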