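import Pool.Agent.Lib_MP_1209e6_cy.GenC

/-!
PIECE [VZE] (MP_1209e6_ag).  Generic zeros of a form.
-/

open MvPolynomial

namespace Pool.Agent.MP_1209e6_cy

variable {m : ℕ}

namespace VZero

theorem eval_smul_of_isHomogeneous {σ K : Type*} [Field K] {q : MvPolynomial σ K} {e : ℕ}
    (hq : q.IsHomogeneous e) (c : K) (u : σ → K) :
    eval (fun i => c * u i) q = c ^ e * eval u q := by
  rw [eval_eq, eval_eq, Finset.mul_sum]
  refine Finset.sum_congr rfl fun d hd => ?_
  have h1 : ∑ i ∈ d.support, d i = e := by
    have h := hq (mem_support_iff.1 hd)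
    rw [Finsupp.weight_apply] at h
    simpa [Finsupp.sum] using h
  simp only [mul_pow]
  rw [Finset.prod_mul_distrib, Finset.prod_pow_eq_pow_sum, h1]
  ring

/-- A form which vanishes at a point with one coordinate `1` and the others algebraically
independent is zero. -/
theorem eq_zero_of_aeval {F : IntermediateField ℚ ℂ} {q : MvPolynomial (Fin (m + 2)) F} {e : ℕ}
    (hq : q.IsHomogeneous e) {z : Fin (m + 2) → ℂ} (hz : AlgebraicIndependent F z)
    (l₀ : Fin (m + 2)) (h0 : aeval (Function.update z l₀ 1) q = 0) : q = 0 := by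
  classical
  -- the dehomogenisation
  set h : MvPolynomial {j : Fin (m + 2) // j ≠ l₀} F :=
    aeval (fun j => if hj : j ≠ l₀ then X ⟨j, hj⟩ else 1) q with hh
  have hz' : AlgebraicIndependent F (fun j : {j : Fin (m + 2) // j ≠ l₀} => z j) :=
    hz.comp _ Subtype.val_injective
  have h1 : aeval (fun j : {j : Fin (m + 2) // j ≠ l₀} => z j) h = 0 := by
    rw [hh, ← h0, ← AlgHom.comp_apply, comp_aeval]
    congr 1
    congr 1
    funext j
    by_cases hj : j ≠ l₀
    · rw [dif_pos hj, aeval_X, Function.update_of_ne hj]
    · rw [dif_neg hj, map_one, not_not.1 hj, Function.update_self]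
  have h2 : h = 0 := (algebraicIndependent_iff.1 hz') h h1
  have h3 : X l₀ * q = 0 := by
    apply MvPolynomial.funext
    intro u
    rw [map_mul, eval_X, map_zero]
    by_cases hu : u l₀ = 0
    · rw [hu, zero_mul]
    · have h4 : eval u q = u l₀ ^ e * eval (fun j => u j / u l₀) q := by
        rw [← eval_smul_of_isHomogeneous hq]
        congr 2
        funext j
        field_simp
      have h5 : eval (fun j : {j : Fin (m + 2) // j ≠ l₀} => u j / u l₀) h =
          eval (fun j => u j / u l₀) q := by
        rw [hh, ← aeval_eq_eval, ← aeval_eq_eval, ← AlgHom.comp_apply, comp_aeval]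
        congr 1
        congr 1
        funext j
        by_cases hj : j ≠ l₀
        · rw [dif_pos hj, aeval_X]
        · rw [dif_neg hj, map_one, not_not.1 hj, div_self hu]
      rw [h4, ← h5, h2, map_zero, mul_zero, mul_zero]
  exact (mul_eq_zero.1 h3).resolve_left (X_ne_zero l₀)

/-- chain rule for the substitution of one variable -/
theorem derivative_aeval {σ : Type*} [DecidableEq σ] {F : IntermediateField ℚ ℂ} (w : σ → ℂ) (l : σ)
    (q : MvPolynomial σ F) :
    Polynomial.derivative (aeval (fun j => if j = l then Polynomial.X else Polynomial.C (w j)) q) =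
      aeval (fun j => if j = l then Polynomial.X else Polynomial.C (w j)) (pderiv l q) := by
  induction q using MvPolynomial.induction_on with
  | C a =>
    rw [aeval_C, pderiv_C, map_zero, IsScalarTower.algebraMap_apply F ℂ (Polynomial ℂ),
      Polynomial.algebraMap_eq, Polynomial.derivative_C]
  | add p q hp hq => rw [map_add, map_add, hp, hq, map_add, map_add]
  | mul_X p i hp =>
    rw [map_mul, Polynomial.derivative_mul, hp, pderiv_mul, map_add, map_mul, map_mul, aeval_X,
      pderiv_X]
    by_cases hi : i = l
    · subst hi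
      simp
    · simp [hi, Pi.single_apply, Ne.symm hi]

end VZero

open VZero in
/-- PIECE [VZE].  An irreducible form `g` in `m + 2` variables over a countable field `F` has a complex zero `y` with
`y_{l₀} = 1` and `m` coordinates algebraically independent over `F`.

Proof.  Let `l₀` be `0` or `1` such that `g` is not associated to `X_{l₀}` (`X_0` and `X_1` are not associated), so
`X_{l₀} ∤ g` (`g` irreducible).  Then `h = g(X_{l₀} = 1)` is not constant: if `h` is a constant `b` then the form
`g - b X_{l₀}^d` vanishes for `X_{l₀} = 1`, so it is zero (a form which vanishes after `X_{l₀} = 1` is zero: its monomials stay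
distinct), `g = b X_{l₀}^d`, and `d ≥ 1`, so `X_{l₀} ∣ g`, impossible (`d = 0`: `g` would be a unit).  So some `X_{l₁}`, `l₁ ≠ l₀`,
occurs in `h`.  Let `J` be the set of the other `m` indices, choose `y_j`, `j ∈ J`, algebraically independent over `F`
(`exists_algebraicIndependent` with `U = univ`).  `h(.., X_{l₁}, ..)` is a nonconstant polynomial in `X_{l₁}` (its leading
coefficient is a nonzero polynomial in the independent `y_j`), so it has a zero in `ℂ`. -/
theorem exists_generic_zero {F : IntermediateField ℚ ℂ} (hF : (F : Set ℂ).Countable)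
    {g : MvPolynomial (Fin (m + 2)) F} (hg : Irreducible g) {d : ℕ} (hh : g.IsHomogeneous d) :
    ∃ (y : Fin (m + 2) → ℂ) (l₀ : Fin (m + 2)), y l₀ = 1 ∧ aeval y g = 0 ∧
      ∃ J : Finset (Fin (m + 2)), J.card = m ∧ AlgebraicIndependent F (fun j : J => y j) := by
  classical
  obtain ⟨z, -, hz⟩ := exists_algebraicIndependent (ι := Fin (m + 2)) F hF Set.univ isOpen_univ
    Set.univ_nonempty
  -- some derivative is not zero
  obtain ⟨l₁, hl₁⟩ : ∃ l, pderiv l g ≠ 0 := by
    by_contra hcon
    push Not at hcon
    have h1 := hh.sum_X_mul_pderiv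
    simp only [hcon, mul_zero, Finset.sum_const_zero] at h1
    have h2 : d = 0 := by
      by_contra hd
      rw [nsmul_eq_mul] at h1
      rcases mul_eq_zero.1 h1.symm with h | h
      · exact hd (by exact_mod_cast h)
      · exact hg.ne_zero h
    rw [h2, ← totalDegree_zero_iff_isHomogeneous, totalDegree_eq_zero_iff_eq_C] at hh
    apply hg.not_isUnit
    rw [hh]
    refine (IsUnit.mk0 (coeff 0 g) fun h => hg.ne_zero ?_).map C
    rw [hh, h, map_zero]
  obtain ⟨l₀, hl₀⟩ : ∃ l₀ : Fin (m + 2), l₀ ≠ l₁ := exists_ne l₁
  set w := Function.update z l₀ 1 with hw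
  set P : Polynomial ℂ := aeval (fun j => if j = l₁ then Polynomial.X else Polynomial.C (w j)) g
    with hP
  have hev : ∀ (t : ℂ) (q : MvPolynomial (Fin (m + 2)) F),
      Polynomial.eval t (aeval (fun j => if j = l₁ then Polynomial.X else Polynomial.C (w j)) q) =
        aeval (Function.update w l₁ t) q := by
    intro t q
    have h1 : ((Polynomial.aeval t : Polynomial ℂ →ₐ[ℂ] ℂ).restrictScalars F).comp
        (aeval (fun j => if j = l₁ then Polynomial.X else Polynomial.C (w j))) =
        (aeval (Function.update w l₁ t) : MvPolynomial (Fin (m + 2)) F →ₐ[F] ℂ) := by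
      apply MvPolynomial.algHom_ext
      intro j
      by_cases hj : j = l₁
      · subst hj
        simp
      · simp [hj]
    have h2 := DFunLike.congr_fun h1 q
    simpa [Polynomial.coe_aeval_eq_eval] using h2
  have hPd : P.derivative ≠ 0 := by
    intro h
    have h1 := congrArg (Polynomial.eval (w l₁)) h
    rw [hP, derivative_aeval, hev, Function.update_eq_self, Polynomial.eval_zero] at h1
    exact hl₁ (eq_zero_of_aeval hh.pderiv hz l₀ h1)
  have hdeg : P.degree ≠ 0 := by
    intro h
    apply hPd
    rw [Polynomial.eq_C_of_degree_eq_zero h, Polynomial.derivative_C]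
  obtain ⟨t, ht⟩ := IsAlgClosed.exists_root P hdeg
  refine ⟨Function.update w l₁ t, l₀, ?_, ?_, Finset.univ \ {l₀, l₁}, ?_, ?_⟩
  · rw [Function.update_of_ne hl₀, hw, Function.update_self]
  · rw [← hev, ← hP]
    exact ht
  · rw [Finset.card_sdiff_of_subset (Finset.subset_univ _), Finset.card_pair hl₀,
      Finset.card_univ, Fintype.card_fin]
    omega
  · have h1 : (fun j : (Finset.univ \ {l₀, l₁} : Finset (Fin (m + 2))) =>
        Function.update w l₁ t j) = fun j : (Finset.univ \ {l₀, l₁} : Finset (Fin (m + 2))) =>
          z j := by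
      funext ⟨j, hj⟩
      simp only [Finset.mem_sdiff, Finset.mem_univ, true_and, Finset.mem_insert,
        Finset.mem_singleton, not_or] at hj
      simp only
      rw [Function.update_of_ne hj.2, hw, Function.update_of_ne hj.1]
    rw [h1]
    exact hz.comp _ Subtype.val_injective

end Pool.Agent.MP_1209e6_cy
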