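import Pool.Agent.Lib_MP_1209e6_cy.FixedA

/-!
PIECE [VAN] (MP_1209e6_ag).  The invariant curve lies in `X`.
-/

open Matrix Filter Topology

namespace Pool.Agent.MP_1209e6_cy

variable {m : ℕ}

/-- PIECE [VAN].  `f(λ z) = ρ(z) f(z)`, `ρ(0) = 1`, `f(0) = 0`, `|λ| > 1` imply `f = 0`.

Proof.  Otherwise `f(z) = z^n g(z)` near `0`, `n ≥ 1`, `g(0) ≠ 0`, and `λ^n g(λ z) = ρ(z) g(z)` gives
`λ^n = 1`. -/
theorem eq_zero_of_scaling {f ρ : ℂ → ℂ} (hf : Differentiable ℂ f) (hρ : Differentiable ℂ ρ)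
    {lam : ℂ} (hlam : 1 < ‖lam‖) (h : ∀ z, f (lam * z) = ρ z * f z) (h1 : ρ 0 = 1)
    (h0 : f 0 = 0) : ∀ z, f z = 0 := by
  have hfa : AnalyticOnNhd ℂ f Set.univ := fun z _ => hf.analyticAt z
  by_cases hz : ∀ᶠ z in 𝓝 (0 : ℂ), f z = 0
  · intro z
    exact hfa.eqOn_zero_of_preconnected_of_eventuallyEq_zero isPreconnected_univ
      (Set.mem_univ 0) hz (Set.mem_univ z)
  · exfalso
    obtain ⟨n, g, hg, hg0, hfg⟩ := ((hf.analyticAt 0).exists_eventuallyEq_pow_smul_nonzero_iff).2 hz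
    simp only [sub_zero, smul_eq_mul] at hfg
    have hn : n ≠ 0 := by
      intro hn
      subst hn
      have := hfg.self_of_nhds
      rw [h0, pow_zero, one_mul] at this
      exact hg0 this.symm
    have hl : Tendsto (fun z : ℂ => lam * z) (𝓝 0) (𝓝 0) := by
      have : Continuous (fun z : ℂ => lam * z) := continuous_const.mul continuous_id
      simpa using this.tendsto 0
    have hfg' : ∀ᶠ z in 𝓝 (0 : ℂ), f (lam * z) = (lam * z) ^ n * g (lam * z) := hl.eventually hfg
    have key : ∀ᶠ z in 𝓝[≠] (0 : ℂ), lam ^ n * g (lam * z) = ρ z * g z := by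
      have a1 : ∀ᶠ z in 𝓝[≠] (0 : ℂ), f z = z ^ n * g z := hfg.filter_mono nhdsWithin_le_nhds
      have a2 : ∀ᶠ z in 𝓝[≠] (0 : ℂ), f (lam * z) = (lam * z) ^ n * g (lam * z) :=
        hfg'.filter_mono nhdsWithin_le_nhds
      filter_upwards [a1, a2, self_mem_nhdsWithin] with z b1 b2 b3
      have hz0 : z ^ n ≠ 0 := pow_ne_zero n b3
      have e := h z
      rw [b1, b2, mul_pow] at e
      apply mul_left_cancel₀ hz0
      calc z ^ n * (lam ^ n * g (lam * z)) = lam ^ n * z ^ n * g (lam * z) := by ring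
        _ = ρ z * (z ^ n * g z) := e
        _ = z ^ n * (ρ z * g z) := by ring
    have hgc : ContinuousAt g 0 := hg.continuousAt
    have t1 : Tendsto (fun z => lam ^ n * g (lam * z)) (𝓝[≠] (0 : ℂ)) (𝓝 (lam ^ n * g 0)) := by
      have : Tendsto (fun z => g (lam * z)) (𝓝 (0 : ℂ)) (𝓝 (g 0)) := hgc.tendsto.comp hl
      exact (tendsto_const_nhds.mul this).mono_left nhdsWithin_le_nhds
    have t2 : Tendsto (fun z => ρ z * g z) (𝓝[≠] (0 : ℂ)) (𝓝 (ρ 0 * g 0)) := by
      have : Tendsto (fun z => ρ z * g z) (𝓝 (0 : ℂ)) (𝓝 (ρ 0 * g 0)) :=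
        hρ.continuous.continuousAt.tendsto.mul hgc.tendsto
      exact this.mono_left nhdsWithin_le_nhds
    have t3 : Tendsto (fun z => ρ z * g z) (𝓝[≠] (0 : ℂ)) (𝓝 (lam ^ n * g 0)) :=
      t1.congr' key
    have e := tendsto_nhds_unique t2 t3
    rw [h1, one_mul] at e
    have e2 : lam ^ n = 1 := by
      have : (lam ^ n - 1) * g 0 = 0 := by rw [sub_mul, ← e]; ring
      rcases mul_eq_zero.1 this with h2 | h2
      · exact sub_eq_zero.1 h2
      · exact absurd h2 hg0
    have e3 : ‖lam‖ ^ n = 1 := by rw [← norm_pow, e2, norm_one]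
    exact absurd e3 (one_lt_pow₀ hlam hn).ne'

theorem differentiable_pv (D : Dat m ℂ) (w : Vec m ℂ) {y : ℂ → Vec m ℂ}
    (hy : Differentiable ℂ y) : Differentiable ℂ (fun z => pv (D.row (y z)) w) := by
  intro z
  obtain ⟨L, hL, _⟩ := D.hasFDerivAt_pv w (y z)
  exact (hL.comp z (hy z).hasFDerivAt).differentiableAt

theorem differentiable_A (D : Dat m ℂ) (i : Fin m) {x y : ℂ → Vec m ℂ}
    (hx : Differentiable ℂ x) (hy : Differentiable ℂ y) :
    Differentiable ℂ (fun z => D.A i (x z) (y z)) := by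
  have hx' : ∀ j, Differentiable ℂ (fun z => x z j) := fun j => differentiable_pi.1 hx j
  have hy' : ∀ j, Differentiable ℂ (fun z => y z j) := fun j => differentiable_pi.1 hy j
  unfold Dat.A
  refine Differentiable.fun_sum fun j _ => Differentiable.fun_sum fun l _ => ?_
  exact ((differentiable_const _).mul (hx' j)).mul (hy' l)

theorem differentiable_B (D : Dat m ℂ) {x x' y y' : ℂ → Vec m ℂ}
    (hx : Differentiable ℂ x) (hx' : Differentiable ℂ x') (hy : Differentiable ℂ y)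
    (hy' : Differentiable ℂ y') :
    Differentiable ℂ (fun z => D.B (x z) (x' z) (y z) (y' z)) := by
  have c1 : ∀ j, Differentiable ℂ (fun z => x z j) := fun j => differentiable_pi.1 hx j
  have c2 : ∀ j, Differentiable ℂ (fun z => x' z j) := fun j => differentiable_pi.1 hx' j
  have c3 : ∀ j, Differentiable ℂ (fun z => y z j) := fun j => differentiable_pi.1 hy j
  have c4 : ∀ j, Differentiable ℂ (fun z => y' z j) := fun j => differentiable_pi.1 hy' j
  unfold Dat.B
  refine Differentiable.fun_sum fun j _ => Differentiable.fun_sum fun k _ =>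
    Differentiable.fun_sum fun l _ => Differentiable.fun_sum fun p _ => ?_
  exact ((((differentiable_const _).mul (c1 j)).mul (c2 k)).mul (c3 l)).mul (c4 p)

/-- PIECE [VAN].  The curve lies in `X`: apply `eq_zero_of_scaling` to `A_i(x(z), y(z))`, with
`ρ(z) = a(z) b(z) B(u(z), u(z), y(z), y(z)) B(x(λz), x(λz), v(z), v(z))`, and to `B(x(z), x(z), y(z), y(z))`, with
`ρ(z)^2` (`Dat.A_S`, `Dat.Symm.B_S` for `D` and `D.swap`). -/
theorem Curve.mem {D : Dat m ℂ} (hD : D.Symm) {w w' x₀ y₀ : Vec m ℂ} {lam : ℂ}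
    {x y : ℂ → Vec m ℂ} {a b : ℂ → ℂ} (h : Curve D w w' x₀ y₀ lam x y a b)
    (hin : D.In x₀ y₀) : ∀ z, D.In (x z) (y z) := by
  have hxl : Differentiable ℂ (fun z => x (lam * z)) :=
    h.dx.comp ((differentiable_const lam).mul differentiable_id)
  set U : ℂ → ℂ := fun z => D.B (pv (D.row (y z)) w) (pv (D.row (y z)) w) (y z) (y z) with hU
  set V : ℂ → ℂ := fun z => D.B (x (lam * z)) (x (lam * z)) (pv (D.swap.row (x (lam * z))) w')
    (pv (D.swap.row (x (lam * z))) w') with hV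
  set ρ : ℂ → ℂ := fun z => a z * U z * (b z * V z) with hρ
  have dU : Differentiable ℂ U :=
    differentiable_B D (differentiable_pv D w h.dy) (differentiable_pv D w h.dy) h.dy h.dy
  have dV : Differentiable ℂ V :=
    differentiable_B D hxl hxl (differentiable_pv D.swap w' hxl) (differentiable_pv D.swap w' hxl)
  have dρ : Differentiable ℂ ρ := (h.da.mul dU).mul (h.db.mul dV)
  have hρ0 : ρ 0 = 1 := by
    have e1 : a 0 * U 0 = 1 := by
      rw [hU]
      simp only [h.y0]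
      exact h.a0
    have e2 : b 0 * V 0 = 1 := by
      rw [hV]
      simp only [mul_zero, h.x0]
      exact h.b0
    rw [hρ]
    simp only [e1, e2, mul_one]
  have scaleA : ∀ i z, D.A i (x (lam * z)) (y (lam * z)) = ρ z * D.A i (x z) (y z) := by
    intro i z
    have e1 : D.A i (x (lam * z)) (y (lam * z)) = b z * (V z * D.A i (x (lam * z)) (y z)) := by
      rw [h.fy z, Dat.A_smul_right, ← Dat.swap_A D i (x (lam * z)), Dat.A_S, Dat.swap_A,
        Dat.swap_B]
    have e2 : D.A i (x (lam * z)) (y z) = a z * (U z * D.A i (x z) (y z)) := by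
      rw [h.fx z, Dat.A_smul_left, Dat.A_S]
    rw [e1, e2]
    simp only [hρ]
    ring
  have scaleB : ∀ z, D.B (x (lam * z)) (x (lam * z)) (y (lam * z)) (y (lam * z)) =
      ρ z ^ 2 * D.B (x z) (x z) (y z) (y z) := by
    intro z
    have e1 : D.B (x (lam * z)) (x (lam * z)) (y (lam * z)) (y (lam * z)) =
        b z ^ 2 * (V z ^ 2 * D.B (x (lam * z)) (x (lam * z)) (y z) (y z)) := by
      rw [h.fy z, Dat.B_smul₃, hD.B_smul₄, ← Dat.swap_B D (x (lam * z)) (x (lam * z))
        (D.swap.S w' (y z) (x (lam * z))), hD.swap.B_S, Dat.swap_B, Dat.swap_B]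
      ring
    have e2 : D.B (x (lam * z)) (x (lam * z)) (y z) (y z) =
        a z ^ 2 * (U z ^ 2 * D.B (x z) (x z) (y z) (y z)) := by
      rw [h.fx z, Dat.B_smul₁, hD.B_smul₂, hD.B_S]
      ring
    rw [e1, e2]
    simp only [hρ]
    ring
  intro z
  refine ⟨fun i => ?_, ?_⟩
  · refine eq_zero_of_scaling (f := fun z => D.A i (x z) (y z)) (ρ := ρ)
      (differentiable_A D i h.dx h.dy) dρ h.hlam (scaleA i) hρ0 ?_ z
    simp only [h.x0, h.y0]
    exact hin.1 i
  · refine eq_zero_of_scaling (f := fun z => D.B (x z) (x z) (y z) (y z)) (ρ := fun z => ρ z ^ 2)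
      (differentiable_B D h.dx h.dx h.dy h.dy) (dρ.pow 2) h.hlam scaleB ?_ ?_ z
    · simp only [hρ0, one_pow]
    · simp only [h.x0, h.y0]
      exact hin.2

end Pool.Agent.MP_1209e6_cy
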