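import Pool.Agent.Lib_MP_1209e6_cy.VMain

/-!
# Very general Calabi-Yau complete intersections of type `(1,1)^(n-1), (2,2)` in `P^n x P^n`, `n = m + 1 ≥ 3`

If the coefficients are algebraically independent over `ℚ` then the variety is smooth and irreducible and it
contains an entire curve with Zariski dense image.
-/

namespace Pool.Agent.Results.MP_1209e6_ag.VeryGeneralCalabiYau

open Pool.Agent.MP_1209e6_cy

theorem result : ∀ m : ℕ, 2 ≤ m → ∀ c : Ix m → ℂ, AlgebraicIndependent ℚ c →
    (datOf c).Smooth ∧ (datOf c).Irred ∧ (datOf c).BrodySpecial :=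
  fun _ hm _ hc => brodySpecial_generic hm hc

end Pool.Agent.Results.MP_1209e6_ag.VeryGeneralCalabiYau
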